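import Pool.Agent.Helper67.GR.St4

/-! # GR project: common lemmas for MidE and Box -/

namespace Pool.Agent.Helper67.GR.B20

open Finset

lemma mem_sfld {G : Grid} {r : ℝ} {v : Pt} :
    v ∈ G.sfld r ↔ v.1 ∈ G.Xs ∧ |v.1| < r ∧ v.2 ∈ G.Ts := by
  unfold Grid.sfld
  rw [Finset.mem_product, Finset.mem_filter]
  tauto

lemma cfg_agree {n r : ℝ} {Y Z : Finset Pt} (s t : Pt) (hZ : OutOk n r Z) {p : Pt}
    (hp : |p.1| < r) : p ∈ cfg Y Z s t ↔ p ∈ Y ∪ {s, t} := by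
  unfold cfg
  rw [mem_union, mem_union, mem_union]
  constructor
  · rintro ((h | h) | h)
    · exact Or.inl h
    · exact absurd (hZ p h).1 (not_le.mpr hp)
    · exact Or.inr h
  · rintro (h | h)
    · exact Or.inl (Or.inl h)
    · exact Or.inr h

lemma mem_pair {p s t : Pt} : p ∈ ({s, t} : Finset Pt) ↔ p = s ∨ p = t := by
  rw [mem_insert, mem_singleton]

lemma lab_P' {G : Grid} {ε r : ℝ} {Y : Finset Pt} {s t : Pt} (hY : Y ⊆ G.sfld r)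
    (hs : HypS ε G.n s t) : Lab G.n (Y ∪ {s, t}) := by
  intro v hv
  rw [mem_union, mem_pair] at hv
  obtain ⟨-, -, -, -, h1, h2, -, h3, h4⟩ := hs
  rcases hv with hv | rfl | rfl
  · exact G.Ts_mem v.2 (mem_sfld.1 (hY hv)).2.2
  · exact ⟨h1, h2⟩
  · exact ⟨h3, h4⟩

lemma lab_P {G : Grid} {ε r : ℝ} {Y Z : Finset Pt} {s t : Pt} (hY : Y ⊆ G.sfld r)
    (hZ : OutOk G.n r Z) (hs : HypS ε G.n s t) : Lab G.n (cfg Y Z s t) := by
  intro v hv
  unfold cfg at hv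
  rw [mem_union, mem_union] at hv
  rcases hv with (hv | hv) | hv
  · exact lab_P' hY hs v (mem_union_left _ hv)
  · exact (hZ v hv).2.2
  · exact lab_P' hY hs v (mem_union_right _ hv)

lemma half_P' {G : Grid} {ε r : ℝ} {Y : Finset Pt} {s t : Pt} (hY : Y ⊆ G.sfld r)
    (hr : r ≤ 1 / 2) (hs : HypS ε G.n s t) : ∀ p ∈ Y ∪ {s, t}, |p.1| ≤ 1 / 2 := by
  intro v hv
  rw [mem_union, mem_pair] at hv
  obtain ⟨h0, -, -, h1, -, -, h2, -, -⟩ := hs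
  rcases hv with hv | rfl | rfl
  · exact (mem_sfld.1 (hY hv)).2.1.le.trans hr
  · linarith
  · rw [h2, abs_zero]; norm_num

lemma half_P {G : Grid} {ε r : ℝ} {Y Z : Finset Pt} {s t : Pt} (hY : Y ⊆ G.sfld r)
    (hr : r ≤ 1 / 2) (hZ : OutOk G.n r Z) (hs : HypS ε G.n s t) :
    ∀ p ∈ cfg Y Z s t, |p.1| ≤ 1 / 2 := by
  intro v hv
  unfold cfg at hv
  rw [mem_union, mem_union] at hv
  rcases hv with (hv | hv) | hv
  · exact half_P' hY hr hs v (mem_union_left _ hv)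
  · exact (hZ v hv).2.1
  · exact half_P' hY hr hs v (mem_union_right _ hv)

/-- second moment of the number of points in a box -/
lemma box_sq (G : Grid) {r a b θ : ℝ} (ha : -r < a) (hab : a ≤ b) (hb : b ≤ r) (hr : r ≤ 1 / 2)
    (hθ : 0 ≤ θ) {m : ℝ} (hm : θ * (b - a) + 1 ≤ m) :
    bern (fun _ => G.p) (G.sfld r) (fun Y => (cnt Y a b θ : ℝ) ^ 2) ≤ m ^ 2 + m := by
  unfold cnt
  refine (bern_card_sq_le (sfld_pq G r) (fun v : Pt => a ≤ v.1 ∧ v.1 < b ∧ v.2 ≤ θ)).trans ?_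
  have hset : (G.sfld r).filter (fun v : Pt => a ≤ v.1 ∧ v.1 < b ∧ v.2 ≤ θ) =
      (G.fld a b).filter (fun v => v.2 ≤ θ) := by
    ext v
    rw [mem_filter, mem_filter, mem_sfld, mem_fld]
    constructor
    · rintro ⟨⟨h1, h2, h3⟩, h4, h5, h6⟩
      exact ⟨⟨h1, h3, h4, h5⟩, h6⟩
    · rintro ⟨⟨h1, h2, h3, h4⟩, h5⟩
      exact ⟨⟨h1, abs_lt.2 ⟨by linarith, by linarith⟩, h2⟩, h3, h4, h5⟩
  rw [hset]
  have h1 := mean_le' G a b θ (by linarith) hab (by linarith) hθ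
  have h0 : 0 ≤ ∑ _v ∈ (G.fld a b).filter (fun v => v.2 ≤ θ), G.p :=
    sum_nonneg fun _ _ => G.p_pos.le
  have h2 : (∑ _v ∈ (G.fld a b).filter (fun v => v.2 ≤ θ), G.p) ≤ m := by
    have := G.κ_le
    linarith
  have h3 : 0 ≤ m := h0.trans h2
  nlinarith

/-- number of points times the indicator of an unlikely event -/
lemma cnt_ind_le (G : Grid) {r a b θ : ℝ} (ha : -r < a) (hab : a ≤ b) (hb : b ≤ r) (hr : r ≤ 1 / 2)
    (hθ : 0 ≤ θ) {K T : ℕ} (hK : 6 ≤ K) (hm : θ * (b - a) ≤ 2 * K) (A : Finset Pt → Prop)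
    (hA : prob (fun _ => G.p) (G.sfld r) A ≤ 2 / (K : ℝ) ^ (2 * T + 4)) :
    bern (fun _ => G.p) (G.sfld r) (fun Y => (cnt Y a b θ : ℝ) * ind (A Y)) ≤ 1 / (K : ℝ) ^ T := by
  have hK' : (6 : ℝ) ≤ K := by exact_mod_cast hK
  have hK0 : (0 : ℝ) < K := by linarith
  refine (bern_mul_ind_le (sfld_pq G r) _ A).trans ?_
  have h1 := box_sq G ha hab hb hr hθ (m := 2 * K + 1) (by linarith)
  have h2 : bern (fun _ => G.p) (G.sfld r) (fun Y => (cnt Y a b θ : ℝ) ^ 2) ≤ 16 * (K : ℝ) ^ 2 := by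
    refine h1.trans ?_
    nlinarith
  have h20 : 0 ≤ bern (fun _ => G.p) (G.sfld r) (fun Y => (cnt Y a b θ : ℝ) ^ 2) :=
    bern_nonneg (sfld_pq G r) fun _ _ => sq_nonneg _
  have h30 := prob_nonneg (sfld_pq G r) A
  rw [← Real.sqrt_mul h20]
  have h4 : bern (fun _ => G.p) (G.sfld r) (fun Y => (cnt Y a b θ : ℝ) ^ 2) *
      prob (fun _ => G.p) (G.sfld r) A ≤ (1 / (K : ℝ) ^ T) ^ 2 := by
    calc _ ≤ 16 * (K : ℝ) ^ 2 * (2 / (K : ℝ) ^ (2 * T + 4)) := by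
          apply mul_le_mul h2 hA h30 (by positivity)
      _ = 32 / (K : ℝ) ^ 2 * (1 / (K : ℝ) ^ T) ^ 2 := by
          have e1 : (K : ℝ) ^ (2 * T + 4) = ((K : ℝ) ^ T) ^ 2 * (K : ℝ) ^ 2 * (K : ℝ) ^ 2 := by ring
          rw [e1]
          field_simp
          ring
      _ ≤ 1 * (1 / (K : ℝ) ^ T) ^ 2 := by
          apply mul_le_mul_of_nonneg_right _ (sq_nonneg _)
          rw [div_le_one (by positivity)]
          nlinarith
      _ = _ := one_mul _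
  calc Real.sqrt _ ≤ Real.sqrt ((1 / (K : ℝ) ^ T) ^ 2) := Real.sqrt_le_sqrt h4
    _ = 1 / (K : ℝ) ^ T := Real.sqrt_sq (by positivity)

end Pool.Agent.Helper67.GR.B20
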