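import Pool.Agent.Helper67.GR.Defs

/-! # GR project: basic calculus of Bernoulli fields -/

namespace Pool.Agent.Helper67.GR

open Finset

variable {α : Type*} [DecidableEq α]

lemma ind_nonneg (p : Prop) : 0 ≤ ind p := by
  unfold ind; split_ifs <;> norm_num

lemma ind_le_one (p : Prop) : ind p ≤ 1 := by
  unfold ind; split_ifs <;> norm_num

lemma ind_of {p : Prop} (h : p) : ind p = 1 := by
  unfold ind; rw [if_pos h]

lemma ind_of_not {p : Prop} (h : ¬ p) : ind p = 0 := by
  unfold ind; rw [if_neg h]

lemma ind_mono {p q : Prop} (h : p → q) : ind p ≤ ind q := by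
  by_cases hp : p
  · rw [ind_of hp, ind_of (h hp)]
  · rw [ind_of_not hp]; exact ind_nonneg q

lemma ind_congr {p q : Prop} (h : p ↔ q) : ind p = ind q := by
  by_cases hp : p
  · rw [ind_of hp, ind_of (h.1 hp)]
  · rw [ind_of_not hp, ind_of_not (fun hq => hp (h.2 hq))]

lemma ind_or_le (p q : Prop) : ind (p ∨ q) ≤ ind p + ind q := by
  by_cases hp : p
  · rw [ind_of hp, ind_of (Or.inl hp)]; linarith [ind_nonneg q]
  · by_cases hq : q
    · rw [ind_of hq, ind_of (Or.inr hq)]; linarith [ind_nonneg p]
    · rw [ind_of_not hp, ind_of_not hq, ind_of_not (by tauto)]; norm_num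

lemma ind_and (p q : Prop) : ind (p ∧ q) = ind p * ind q := by
  by_cases hp : p
  · by_cases hq : q
    · rw [ind_of hp, ind_of hq, ind_of ⟨hp, hq⟩]; norm_num
    · rw [ind_of_not hq, ind_of_not (fun h => hq h.2)]; norm_num
  · rw [ind_of_not hp, ind_of_not (fun h => hp h.1)]; norm_num

lemma ind_not (p : Prop) : ind (¬ p) = 1 - ind p := by
  by_cases hp : p
  · rw [ind_of hp, ind_of_not (by tauto)]; norm_num
  · rw [ind_of_not hp, ind_of hp]; norm_num

lemma ind_exists_le {ι : Type*} (s : Finset ι) (A : ι → Prop) :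
    ind (∃ i ∈ s, A i) ≤ ∑ i ∈ s, ind (A i) := by
  by_cases h : ∃ i ∈ s, A i
  · obtain ⟨i, hi, hA⟩ := h
    rw [ind_of ⟨i, hi, hA⟩]
    calc (1 : ℝ) = ind (A i) := (ind_of hA).symm
      _ ≤ ∑ i ∈ s, ind (A i) :=
        Finset.single_le_sum (f := fun i => ind (A i)) (fun j _ => ind_nonneg _) hi
  · rw [ind_of_not h]
    exact Finset.sum_nonneg (fun j _ => ind_nonneg _)

/-- weights are probabilities -/
def Pq (q : α → ℝ) (S : Finset α) : Prop := ∀ v ∈ S, 0 ≤ q v ∧ q v ≤ 1

omit [DecidableEq α] in
lemma Pq.mono {q : α → ℝ} {S T : Finset α} (h : Pq q S) (hT : T ⊆ S) : Pq q T :=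
  fun v hv => h v (hT hv)

lemma bern_empty (q : α → ℝ) (f : Finset α → ℝ) : bern q ∅ f = f ∅ := by
  simp [bern]

lemma bern_insert (q : α → ℝ) {S : Finset α} {v : α} (hv : v ∉ S) (f : Finset α → ℝ) :
    bern q (insert v S) f =
      (1 - q v) * bern q S f + q v * bern q S (fun X => f (insert v X)) := by
  unfold bern
  rw [Finset.sum_powerset_insert hv, Finset.mul_sum, Finset.mul_sum]
  congr 1
  · apply Finset.sum_congr rfl
    intro X hX
    have hX' := Finset.mem_powerset.1 hX
    have hvX : v ∉ X := fun h => hv (hX' h)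
    have h1 : (insert v S) \ X = insert v (S \ X) := by
      ext a
      simp only [Finset.mem_sdiff, Finset.mem_insert]
      constructor
      · rintro ⟨h | h, h2⟩
        · exact Or.inl h
        · exact Or.inr ⟨h, h2⟩
      · rintro (h | ⟨h, h2⟩)
        · exact ⟨Or.inl h, by rw [h]; exact hvX⟩
        · exact ⟨Or.inr h, h2⟩
    rw [h1, Finset.prod_insert (by simp [hv])]
    ring
  · apply Finset.sum_congr rfl
    intro X hX
    have hX' := Finset.mem_powerset.1 hX
    have hvX : v ∉ X := fun h => hv (hX' h)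
    have h1 : (insert v S) \ (insert v X) = S \ X := by
      ext a
      simp only [Finset.mem_sdiff, Finset.mem_insert, not_or]
      constructor
      · rintro ⟨h | h, h2, h3⟩
        · exact absurd h h2
        · exact ⟨h, h3⟩
      · rintro ⟨h, h2⟩
        refine ⟨Or.inr h, ?_, h2⟩
        rintro rfl
        exact hv h
    rw [h1, Finset.prod_insert hvX]
    ring

lemma bern_congr {q : α → ℝ} {S : Finset α} {f g : Finset α → ℝ}
    (h : ∀ X ⊆ S, f X = g X) : bern q S f = bern q S g := by
  unfold bern
  apply Finset.sum_congr rfl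
  intro X hX
  rw [h X (Finset.mem_powerset.1 hX)]

lemma bern_congr_weight {q q' : α → ℝ} {S : Finset α} {f : Finset α → ℝ}
    (h : ∀ v ∈ S, q v = q' v) : bern q S f = bern q' S f := by
  unfold bern
  apply Finset.sum_congr rfl
  intro X hX
  have hX' := Finset.mem_powerset.1 hX
  rw [Finset.prod_congr rfl (fun v hv => h v (hX' hv)),
    Finset.prod_congr (s₁ := S \ X) rfl
      (fun v hv => by rw [h v (Finset.mem_sdiff.1 hv).1])]

lemma bern_const (q : α → ℝ) (S : Finset α) (c : ℝ) : bern q S (fun _ => c) = c := by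
  unfold bern
  rw [← Finset.sum_mul, ← Finset.prod_add]
  simp

lemma weight_nonneg {q : α → ℝ} {S : Finset α} (hq : Pq q S) {X : Finset α} (hX : X ⊆ S) :
    0 ≤ (∏ v ∈ X, q v) * ∏ v ∈ S \ X, (1 - q v) := by
  apply mul_nonneg
  · exact Finset.prod_nonneg (fun v hv => (hq v (hX hv)).1)
  · exact Finset.prod_nonneg (fun v hv => by
      linarith [(hq v (Finset.mem_sdiff.1 hv).1).2])

lemma bern_mono {q : α → ℝ} {S : Finset α} (hq : Pq q S) {f g : Finset α → ℝ}
    (h : ∀ X ⊆ S, f X ≤ g X) : bern q S f ≤ bern q S g := by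
  unfold bern
  apply Finset.sum_le_sum
  intro X hX
  have hX' := Finset.mem_powerset.1 hX
  exact mul_le_mul_of_nonneg_left (h X hX') (weight_nonneg hq hX')

lemma bern_nonneg {q : α → ℝ} {S : Finset α} (hq : Pq q S) {f : Finset α → ℝ}
    (h : ∀ X ⊆ S, 0 ≤ f X) : 0 ≤ bern q S f := by
  rw [← bern_const q S 0]
  exact bern_mono hq h

lemma bern_add (q : α → ℝ) (S : Finset α) (f g : Finset α → ℝ) :
    bern q S (fun X => f X + g X) = bern q S f + bern q S g := by
  unfold bern
  rw [← Finset.sum_add_distrib]
  exact Finset.sum_congr rfl (fun X _ => by ring)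

lemma bern_sub (q : α → ℝ) (S : Finset α) (f g : Finset α → ℝ) :
    bern q S (fun X => f X - g X) = bern q S f - bern q S g := by
  unfold bern
  rw [← Finset.sum_sub_distrib]
  exact Finset.sum_congr rfl (fun X _ => by ring)

lemma bern_smul (q : α → ℝ) (S : Finset α) (c : ℝ) (f : Finset α → ℝ) :
    bern q S (fun X => c * f X) = c * bern q S f := by
  unfold bern
  rw [Finset.mul_sum]
  exact Finset.sum_congr rfl (fun X _ => by ring)

lemma bern_mul_const (q : α → ℝ) (S : Finset α) (c : ℝ) (f : Finset α → ℝ) :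
    bern q S (fun X => f X * c) = bern q S f * c := by
  unfold bern
  rw [Finset.sum_mul]
  exact Finset.sum_congr rfl (fun X _ => by ring)

lemma bern_sum {ι : Type*} (q : α → ℝ) (S : Finset α) (s : Finset ι)
    (f : ι → Finset α → ℝ) :
    bern q S (fun X => ∑ i ∈ s, f i X) = ∑ i ∈ s, bern q S (f i) := by
  unfold bern
  rw [Finset.sum_comm]
  exact Finset.sum_congr rfl (fun X _ => by rw [Finset.mul_sum])

/-- Fubini: independence of disjoint regions -/
lemma bern_union (q : α → ℝ) {S T : Finset α} (h : Disjoint S T) (f : Finset α → ℝ) :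
    bern q (S ∪ T) f = bern q S (fun X => bern q T (fun Y => f (X ∪ Y))) := by
  induction T using Finset.induction_on generalizing f with
  | empty =>
    rw [Finset.union_empty]
    apply bern_congr
    intro X _
    rw [bern_empty, Finset.union_empty]
  | insert v T hv ih =>
    have h' : Disjoint S T := Finset.disjoint_of_subset_right (Finset.subset_insert v T) h
    have hvS : v ∉ S := fun hs =>
      (Finset.disjoint_left.1 h hs) (Finset.mem_insert_self v T)
    have hvST : v ∉ S ∪ T := by simp [hvS, hv]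
    rw [Finset.union_insert, bern_insert q hvST, ih h', ih h', ← bern_smul, ← bern_smul,
      ← bern_add]
    apply bern_congr
    intro X _
    rw [bern_insert q hv]
    congr 2
    apply bern_congr
    intro Y _
    rw [Finset.union_insert]

/-- the order of integration may be exchanged -/
lemma bern_comm (q : α → ℝ) {S T : Finset α} (h : Disjoint S T) (f : Finset α → ℝ) :
    bern q S (fun X => bern q T (fun Y => f (X ∪ Y))) =
      bern q T (fun Y => bern q S (fun X => f (X ∪ Y))) := by
  rw [← bern_union q h, Finset.union_comm, bern_union q h.symm]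
  apply bern_congr
  intro Y _
  apply bern_congr
  intro X _
  rw [Finset.union_comm]

/-- a function of `X ∩ T` only sees the cells of `S ∩ T` -/
lemma bern_inter (q : α → ℝ) (S T : Finset α) (f : Finset α → ℝ) :
    bern q S (fun X => f (X ∩ T)) = bern q (S ∩ T) f := by
  have hS : S = (S ∩ T) ∪ (S \ T) := by
    ext a; simp only [Finset.mem_union, Finset.mem_inter, Finset.mem_sdiff]; tauto
  have hd : Disjoint (S ∩ T) (S \ T) := by
    rw [Finset.disjoint_left]
    intro a ha hb
    exact (Finset.mem_sdiff.1 hb).2 (Finset.mem_inter.1 ha).2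
  conv_lhs => rw [hS]
  rw [bern_union q hd]
  apply bern_congr
  intro X hX
  rw [← bern_const q (S \ T) (f X)]
  apply bern_congr
  intro Y hY
  congr 1
  ext a
  simp only [Finset.mem_inter, Finset.mem_union]
  constructor
  · rintro ⟨h | h, hT⟩
    · exact h
    · exact absurd hT (Finset.mem_sdiff.1 (hY h)).2
  · intro h
    exact ⟨Or.inl h, (Finset.mem_inter.1 (hX h)).2⟩

/-- a function of `X ∩ T` with `T ⊆ S` -/
lemma bern_marginal (q : α → ℝ) {S T : Finset α} (hT : T ⊆ S) {f : Finset α → ℝ}
    (hf : ∀ X ⊆ S, f X = f (X ∩ T)) :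
    bern q S f = bern q T f := by
  rw [bern_congr hf, bern_inter, Finset.inter_eq_right.2 hT]

/-- Mecke formula -/
lemma bern_mecke (q : α → ℝ) (S : Finset α) (g : α → Finset α → ℝ) :
    bern q S (fun X => ∑ v ∈ X, g v X) =
      ∑ v ∈ S, q v * bern q S (fun X => g v (insert v X)) := by
  induction S using Finset.induction_on generalizing g with
  | empty => simp [bern_empty]
  | insert a S ha ih =>
    rw [bern_insert q ha, ih g, Finset.sum_insert ha, bern_insert q ha]
    have h1 : bern q S (fun X => ∑ v ∈ insert a X, g v (insert a X)) =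
        bern q S (fun X => g a (insert a X)) +
          bern q S (fun X => ∑ v ∈ X, g v (insert a X)) := by
      rw [← bern_add]
      apply bern_congr
      intro X hX
      rw [Finset.sum_insert (fun h => ha (hX h))]
    rw [h1, ih (fun v X => g v (insert a X))]
    have h2 : bern q S (fun X => g a (insert a (insert a X))) =
        bern q S (fun X => g a (insert a X)) := by
      apply bern_congr
      intro X _
      rw [Finset.insert_idem]
    rw [h2]
    have h3 : ∑ v ∈ S, q v * bern q (insert a S) (fun X => g v (insert v X)) =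
        (1 - q a) * ∑ v ∈ S, q v * bern q S (fun X => g v (insert v X)) +
        q a * ∑ v ∈ S, q v * bern q S (fun X => g v (insert a (insert v X))) := by
      rw [Finset.mul_sum, Finset.mul_sum, ← Finset.sum_add_distrib]
      apply Finset.sum_congr rfl
      intro v _
      rw [bern_insert q ha]
      have : bern q S (fun X => g v (insert v (insert a X))) =
          bern q S (fun X => g v (insert a (insert v X))) := by
        apply bern_congr
        intro X _
        rw [Finset.insert_comm]
      rw [this]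
      ring
    rw [h3]
    ring

/-! ### probabilities -/

lemma prob_nonneg {q : α → ℝ} {S : Finset α} (hq : Pq q S) (A : Finset α → Prop) :
    0 ≤ prob q S A :=
  bern_nonneg hq (fun _ _ => ind_nonneg _)

lemma prob_le_one {q : α → ℝ} {S : Finset α} (hq : Pq q S) (A : Finset α → Prop) :
    prob q S A ≤ 1 := by
  rw [← bern_const q S 1]
  exact bern_mono hq (fun _ _ => ind_le_one _)

lemma prob_mono {q : α → ℝ} {S : Finset α} (hq : Pq q S) {A B : Finset α → Prop}
    (h : ∀ X ⊆ S, A X → B X) : prob q S A ≤ prob q S B :=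
  bern_mono hq (fun X hX => ind_mono (h X hX))

lemma prob_congr {q : α → ℝ} {S : Finset α} {A B : Finset α → Prop}
    (h : ∀ X ⊆ S, (A X ↔ B X)) : prob q S A = prob q S B :=
  bern_congr (fun X hX => ind_congr (h X hX))

lemma prob_or_le {q : α → ℝ} {S : Finset α} (hq : Pq q S) (A B : Finset α → Prop) :
    prob q S (fun X => A X ∨ B X) ≤ prob q S A + prob q S B := by
  unfold prob
  rw [← bern_add]
  exact bern_mono hq (fun X _ => ind_or_le _ _)

lemma prob_not (q : α → ℝ) (S : Finset α) (A : Finset α → Prop) :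
    prob q S (fun X => ¬ A X) = 1 - prob q S A := by
  unfold prob
  rw [← bern_const q S 1, ← bern_sub]
  exact bern_congr (fun X _ => by rw [ind_not])

lemma prob_exists_le {ι : Type*} {q : α → ℝ} {S : Finset α} (hq : Pq q S) (s : Finset ι)
    (A : ι → Finset α → Prop) :
    prob q S (fun X => ∃ i ∈ s, A i X) ≤ ∑ i ∈ s, prob q S (A i) := by
  unfold prob
  rw [← bern_sum]
  exact bern_mono hq (fun X _ => ind_exists_le s (fun i => A i X))

lemma prob_le_of_le_add {q : α → ℝ} {S : Finset α} (hq : Pq q S)
    {A B C : Finset α → Prop} (h : ∀ X ⊆ S, A X → B X ∨ C X) :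
    prob q S A ≤ prob q S B + prob q S C :=
  le_trans (prob_mono hq h) (prob_or_le hq B C)

lemma prob_true (q : α → ℝ) (S : Finset α) {A : Finset α → Prop} (h : ∀ X ⊆ S, A X) :
    prob q S A = 1 := by
  unfold prob
  rw [← bern_const q S 1]
  exact bern_congr (fun X hX => by rw [ind_of (h X hX)])

lemma prob_false (q : α → ℝ) (S : Finset α) {A : Finset α → Prop} (h : ∀ X ⊆ S, ¬ A X) :
    prob q S A = 0 := by
  unfold prob
  rw [← bern_const q S 0]
  exact bern_congr (fun X hX => by rw [ind_of_not (h X hX)])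

/-- Markov's inequality -/
lemma prob_markov {q : α → ℝ} {S : Finset α} (hq : Pq q S) {f : Finset α → ℝ}
    (hf : ∀ X ⊆ S, 0 ≤ f X) {t : ℝ} (ht : 0 < t) :
    prob q S (fun X => t ≤ f X) ≤ bern q S f / t := by
  rw [le_div_iff₀ ht]
  unfold prob
  rw [← bern_mul_const]
  apply bern_mono hq
  intro X hX
  by_cases h : t ≤ f X
  · rw [ind_of h]; linarith
  · rw [ind_of_not h]; simpa using hf X hX

/-- the tower property: `f ≤ g` conditionally on the first region -/
lemma bern_union_le {q : α → ℝ} {S T : Finset α} (hq : Pq q S) (h : Disjoint S T)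
    {f g : Finset α → ℝ}
    (hfg : ∀ X ⊆ S, bern q T (fun Y => f (X ∪ Y)) ≤ g X) :
    bern q (S ∪ T) f ≤ bern q S g := by
  rw [bern_union q h]
  exact bern_mono hq hfg

end Pool.Agent.Helper67.GR
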