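import Pool.Agent.Helper67.GR.Bern

namespace Pool.Agent.Helper67.GR

open Finset

variable {α : Type*} [DecidableEq α]

lemma range_biUnion_succ_Chain (B : ℕ → Finset α) (k : ℕ) :
    (range (k + 1)).biUnion B = B k ∪ (range k).biUnion B := by
  rw [Finset.range_add_one, Finset.biUnion_insert]

lemma disj_Chain (B : ℕ → Finset α) (hd : ∀ i j, i ≠ j → Disjoint (B i) (B j)) (k : ℕ) :
    Disjoint (B k) ((range k).biUnion B) := by
  rw [Finset.disjoint_biUnion_right]
  intro i hi
  exact hd k i (by have := Finset.mem_range.1 hi; omega)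

lemma step_Chain {q : α → ℝ} (m : ℕ) (B : ℕ → Finset α)
    (hd : ∀ i j, i ≠ j → Disjoint (B i) (B j))
    (hq : Pq q ((range m).biUnion B)) (T : Finset ℕ) (hT : T ⊆ range m)
    (A : ℕ → Finset α → Prop) {σ : ℝ} (hσ : 0 ≤ σ)
    (hloc : ∀ i ∈ T, ∀ X ⊆ (range m).biUnion B,
      (A i X ↔ A i (X \ (range i).biUnion B)))
    (hcond : ∀ i ∈ T, ∀ Z ⊆ (range m).biUnion B \ (range (i + 1)).biUnion B,
      prob q (B i) (fun X => A i (Z ∪ X)) ≤ σ) (k : ℕ) (hk : k ≤ m) :
    ∀ Z ⊆ (range m).biUnion B \ (range k).biUnion B,
      prob q ((range k).biUnion B) (fun X => ∀ i ∈ T, i < k → A i (Z ∪ X)) ≤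
        σ ^ (T.filter (fun i => i < k)).card := by
  induction k with
  | zero =>
    intro Z _
    have h1 : T.filter (fun i => i < 0) = ∅ := by
      ext i; simp
    rw [h1, Finset.card_empty, pow_zero]
    exact prob_le_one (hq.mono (by simp)) _
  | succ k ih =>
    intro Z hZ
    have hkm : k < m := hk
    have hBk : B k ⊆ (range m).biUnion B := Finset.subset_biUnion_of_mem B (Finset.mem_range.2 hkm)
    have hSk : (range k).biUnion B ⊆ (range m).biUnion B :=
      Finset.biUnion_subset_biUnion_of_subset_left B (Finset.range_subset_range.2 hkm.le)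
    have hdis := disj_Chain B hd k
    have hZ1 : Z ⊆ (range m).biUnion B := fun a ha => (Finset.mem_sdiff.1 (hZ ha)).1
    have hZ2 : ∀ a ∈ Z, a ∉ (range k).biUnion B ∧ a ∉ B k := by
      intro a ha
      have := (Finset.mem_sdiff.1 (hZ ha)).2
      rw [range_biUnion_succ_Chain, Finset.mem_union, not_or] at this
      exact ⟨this.2, this.1⟩
    have hZY : ∀ Y ⊆ B k, Z ∪ Y ⊆ (range m).biUnion B \ (range k).biUnion B := by
      intro Y hY a ha
      rw [Finset.mem_sdiff]
      rcases Finset.mem_union.1 ha with h | h
      · exact ⟨hZ1 h, (hZ2 a h).1⟩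
      · exact ⟨hBk (hY h), Finset.disjoint_left.1 hdis (hY h)⟩
    rw [range_biUnion_succ_Chain, prob, bern_union q hdis]
    by_cases hkT : k ∈ T
    · have hcard : (T.filter (fun i => i < k + 1)).card =
          (T.filter (fun i => i < k)).card + 1 := by
        have : T.filter (fun i => i < k + 1) = insert k (T.filter (fun i => i < k)) := by
          ext i
          simp only [Finset.mem_filter, Finset.mem_insert]
          constructor
          · rintro ⟨h1, h2⟩
            rcases Nat.lt_succ_iff_lt_or_eq.1 h2 with h | h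
            · exact Or.inr ⟨h1, h⟩
            · exact Or.inl h
          · rintro (h | ⟨h1, h2⟩)
            · rw [h]; exact ⟨hkT, Nat.lt_succ_self k⟩
            · exact ⟨h1, by omega⟩
        rw [this, Finset.card_insert_of_notMem (by simp)]
      rw [hcard, pow_succ]
      have h1 : bern q (B k) (fun Y => bern q ((range k).biUnion B) (fun X =>
          ind (∀ i ∈ T, i < k + 1 → A i (Z ∪ (Y ∪ X))))) ≤
          bern q (B k) (fun Y => σ ^ (T.filter (fun i => i < k)).card * ind (A k (Z ∪ Y))) := by
        refine bern_mono (hq.mono hBk) fun Y hY => ?_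
        have h2 : bern q ((range k).biUnion B) (fun X =>
            ind (∀ i ∈ T, i < k + 1 → A i (Z ∪ (Y ∪ X)))) =
            prob q ((range k).biUnion B) (fun X => ∀ i ∈ T, i < k → A i ((Z ∪ Y) ∪ X)) *
              ind (A k (Z ∪ Y)) := by
          unfold prob
          rw [← bern_mul_const]
          refine bern_congr fun X hX => ?_
          rw [← ind_and]
          refine ind_congr ?_
          have e1 : (Z ∪ Y ∪ X) \ (range k).biUnion B = Z ∪ Y := by
            ext a
            rw [Finset.mem_sdiff, Finset.mem_union]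
            constructor
            · rintro ⟨h | h, h'⟩
              · exact h
              · exact absurd (hX h) h'
            · intro h
              exact ⟨Or.inl h, (Finset.mem_sdiff.1 (hZY Y hY h)).2⟩
          have e2 : A k (Z ∪ Y ∪ X) ↔ A k (Z ∪ Y) := by
            rw [hloc k hkT (Z ∪ Y ∪ X), e1]
            intro a ha
            rcases Finset.mem_union.1 ha with h | h
            · exact (Finset.mem_sdiff.1 (hZY Y hY h)).1
            · exact hSk (hX h)
          constructor
          · intro h
            refine ⟨fun i hi hik => ?_, ?_⟩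
            · rw [Finset.union_assoc]
              exact h i hi (by omega)
            · rw [← e2, Finset.union_assoc]
              exact h k hkT (Nat.lt_succ_self k)
          · rintro ⟨h, h'⟩ i hi hik
            rw [← Finset.union_assoc]
            rcases Nat.lt_succ_iff_lt_or_eq.1 hik with h3 | h3
            · exact h i hi h3
            · rw [h3, e2]; exact h'
        rw [h2]
        exact mul_le_mul_of_nonneg_right (ih hkm.le (Z ∪ Y) (hZY Y hY)) (ind_nonneg _)
      refine h1.trans ?_
      rw [bern_smul]
      exact mul_le_mul_of_nonneg_left (hcond k hkT Z hZ) (pow_nonneg hσ _)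
    · have hcard : T.filter (fun i => i < k + 1) = T.filter (fun i => i < k) := by
        ext i
        simp only [Finset.mem_filter]
        constructor
        · rintro ⟨h1, h2⟩
          refine ⟨h1, ?_⟩
          rcases Nat.lt_succ_iff_lt_or_eq.1 h2 with h | h
          · exact h
          · rw [h] at h1; exact absurd h1 hkT
        · rintro ⟨h1, h2⟩
          exact ⟨h1, by omega⟩
      rw [hcard, ← bern_const q (B k) (σ ^ (T.filter (fun i => i < k)).card)]
      refine bern_mono (hq.mono hBk) fun Y hY => ?_
      refine le_trans (le_of_eq ?_) (ih hkm.le (Z ∪ Y) (hZY Y hY))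
      refine bern_congr fun X _ => ind_congr ?_
      constructor
      · intro h i hi hik
        rw [Finset.union_assoc]
        exact h i hi (by omega)
      · intro h i hi hik
        rw [← Finset.union_assoc]
        rcases Nat.lt_succ_iff_lt_or_eq.1 hik with h3 | h3
        · exact h i hi h3
        · rw [h3] at hi; exact absurd hi hkT

/-- sequential conditioning over disjoint blocks `B 0, …, B (m-1)`: the event `A i` depends
on the blocks `i, …, m-1` only and has conditional probability at most `σ` given the
blocks `i+1, …, m-1` -/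
theorem chain_bound {q : α → ℝ} (m : ℕ) (B : ℕ → Finset α)
    (hd : ∀ i j, i ≠ j → Disjoint (B i) (B j))
    (hq : Pq q ((range m).biUnion B)) (T : Finset ℕ) (hT : T ⊆ range m)
    (A : ℕ → Finset α → Prop) {σ : ℝ} (hσ : 0 ≤ σ)
    (hloc : ∀ i ∈ T, ∀ X ⊆ (range m).biUnion B,
      (A i X ↔ A i (X \ (range i).biUnion B)))
    (hcond : ∀ i ∈ T, ∀ Z ⊆ (range m).biUnion B \ (range (i + 1)).biUnion B,
      prob q (B i) (fun X => A i (Z ∪ X)) ≤ σ) :
    prob q ((range m).biUnion B) (fun X => ∀ i ∈ T, A i X) ≤ σ ^ T.card := by
  have h := step_Chain m B hd hq T hT A hσ hloc hcond m le_rfl ∅ (Finset.empty_subset _)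
  have e1 : T.filter (fun i => i < m) = T := by
    ext i
    rw [Finset.mem_filter]
    exact ⟨fun h => h.1, fun h => ⟨h, Finset.mem_range.1 (hT h)⟩⟩
  rw [e1] at h
  refine le_trans (le_of_eq ?_) h
  refine prob_congr fun X _ => ?_
  constructor
  · intro h i hi _
    rw [Finset.empty_union]; exact h i hi
  · intro h i hi
    have := h i hi (Finset.mem_range.1 (hT hi))
    rwa [Finset.empty_union] at this

end Pool.Agent.Helper67.GR
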