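import Pool.Agent.Helper67.GR.Bern

/-! # GR project: exponential moments and the Chernoff bound for Bernoulli fields -/

namespace Pool.Agent.Helper67.GR

open Finset

variable {α : Type*} [DecidableEq α]

theorem bern_prod (q : α → ℝ) (S : Finset α) (a : α → ℝ) :
    bern q S (fun X => ∏ v ∈ X, a v) = ∏ v ∈ S, (1 + q v * (a v - 1)) := by
  induction S using Finset.induction_on with
  | empty => simp [bern_empty]
  | insert v S hv ih =>
    rw [bern_insert q hv, Finset.prod_insert hv]
    have h1 : bern q S (fun X => ∏ w ∈ insert v X, a w) =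
        a v * bern q S (fun X => ∏ w ∈ X, a w) := by
      rw [← bern_smul]
      apply bern_congr
      intro X hX
      rw [Finset.prod_insert (fun h => hv (hX h))]
    rw [h1, ih]
    ring

/-- exponential moment of a sum -/
theorem bern_exp_sum_le {q : α → ℝ} {S : Finset α} (hq : Pq q S) (g : α → ℝ) :
    bern q S (fun X => Real.exp (∑ v ∈ X, g v)) ≤
      Real.exp (∑ v ∈ S, q v * (Real.exp (g v) - 1)) := by
  have h1 : bern q S (fun X => Real.exp (∑ v ∈ X, g v)) =
      bern q S (fun X => ∏ v ∈ X, Real.exp (g v)) :=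
    bern_congr (fun X _ => Real.exp_sum X g)
  rw [h1, bern_prod, Real.exp_sum]
  apply Finset.prod_le_prod
  · intro v hv
    have h2 := hq v hv
    have h3 := Real.exp_pos (g v)
    nlinarith [mul_nonneg h2.1 h3.le]
  · intro v _
    linarith [Real.add_one_le_exp (q v * (Real.exp (g v) - 1))]

/-- one-sided tail estimate, `s` is the sign -/
theorem tail_aux {q : α → ℝ} {S : Finset α} (hq : Pq q S) (φ : α → Prop)
    [DecidablePred φ] {t m : ℝ} (ht : 0 < t) (hm : ∑ v ∈ S.filter φ, q v ≤ m)
    (s : ℝ) (hs : s = 1 ∨ s = -1) :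
    prob q S (fun X => t ≤ s * (((X.filter φ).card : ℝ) - ∑ v ∈ S.filter φ, q v)) ≤
      Real.exp (-(t ^ 2 / (4 * (m + t)))) := by
  set μ : ℝ := ∑ v ∈ S.filter φ, q v with hμ
  have hμ0 : 0 ≤ μ := Finset.sum_nonneg (fun v hv => (hq v (Finset.mem_filter.1 hv).1).1)
  have hm0 : 0 ≤ m := hμ0.trans hm
  set l : ℝ := t / (2 * (m + t)) with hl
  have hl0 : 0 < l := by positivity
  have hl1 : l ≤ 1 := by
    rw [hl, div_le_one (by positivity)]
    linarith
  have hs2 : s ^ 2 = 1 := by rcases hs with h | h <;> rw [h] <;> norm_num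
  have hsa : |s| = 1 := by rcases hs with h | h <;> rw [h] <;> norm_num
  -- the exponential Markov inequality
  have h1 : prob q S (fun X => t ≤ s * (((X.filter φ).card : ℝ) - μ)) ≤
      bern q S (fun X => Real.exp (l * (s * (((X.filter φ).card : ℝ) - μ)) - l * t)) := by
    unfold prob
    apply bern_mono hq
    intro X _
    by_cases h : t ≤ s * (((X.filter φ).card : ℝ) - μ)
    · rw [ind_of h]
      apply Real.one_le_exp
      nlinarith [mul_le_mul_of_nonneg_left h hl0.le]
    · rw [ind_of_not h]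
      exact (Real.exp_pos _).le
  have h2 : ∀ X : Finset α, Real.exp (l * (s * (((X.filter φ).card : ℝ) - μ)) - l * t) =
      Real.exp (-(l * s * μ) - l * t) * Real.exp (∑ v ∈ X, if φ v then l * s else 0) := by
    intro X
    rw [← Real.exp_add]
    congr 1
    rw [← Finset.sum_filter, Finset.sum_const, nsmul_eq_mul]
    ring
  have h3 : bern q S (fun X => Real.exp (l * (s * (((X.filter φ).card : ℝ) - μ)) - l * t)) ≤
      Real.exp (-(l * s * μ) - l * t) *
        Real.exp (∑ v ∈ S, q v * (Real.exp (if φ v then l * s else 0) - 1)) := by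
    rw [bern_congr (fun X _ => h2 X), bern_smul]
    exact mul_le_mul_of_nonneg_left (bern_exp_sum_le hq _) (Real.exp_pos _).le
  have h4 : ∑ v ∈ S, q v * (Real.exp (if φ v then l * s else 0) - 1) =
      μ * (Real.exp (l * s) - 1) := by
    rw [hμ, Finset.sum_mul, Finset.sum_filter]
    apply Finset.sum_congr rfl
    intro v _
    split_ifs
    · rfl
    · simp
  have h5 : Real.exp (l * s) - 1 - l * s ≤ l ^ 2 := by
    have habs : |l * s| ≤ 1 := by rw [abs_mul, hsa, abs_of_pos hl0]; linarith
    have := Real.abs_exp_sub_one_sub_id_le habs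
    have h6 := le_abs_self (Real.exp (l * s) - 1 - l * s)
    have h7 : (l * s) ^ 2 = l ^ 2 := by rw [mul_pow, hs2, mul_one]
    linarith
  refine h1.trans (h3.trans ?_)
  rw [h4, ← Real.exp_add]
  apply Real.exp_le_exp.mpr
  have h8 : -(l * s * μ) - l * t + μ * (Real.exp (l * s) - 1) ≤ m * l ^ 2 - l * t := by
    have h9 : μ * (Real.exp (l * s) - 1 - l * s) ≤ μ * l ^ 2 := mul_le_mul_of_nonneg_left h5 hμ0
    have h10 : μ * l ^ 2 ≤ m * l ^ 2 := mul_le_mul_of_nonneg_right hm (by positivity)
    nlinarith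
  refine h8.trans ?_
  have hmt : 0 < m + t := by linarith
  have e1 : l * (2 * (m + t)) = t := by rw [hl]; field_simp
  have e2 : t ^ 2 / (4 * (m + t)) = l * t / 2 := by
    rw [div_eq_div_iff (by positivity) (by norm_num)]
    linear_combination (-2 * t) * e1
  rw [e2]
  -- m l^2 ≤ l t / 2
  have e3 : m * l ^ 2 ≤ (m + t) * l ^ 2 := by nlinarith [sq_nonneg l]
  have e4 : (m + t) * l ^ 2 = l * t / 2 := by
    linear_combination (l / 2) * e1
  linarith

theorem prob_chernoff {q : α → ℝ} {S : Finset α} (hq : Pq q S) (φ : α → Prop)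
    [DecidablePred φ] {t m : ℝ} (ht : 0 < t) (hm : ∑ v ∈ S.filter φ, q v ≤ m) :
    prob q S (fun X => t ≤ |((X.filter φ).card : ℝ) - ∑ v ∈ S.filter φ, q v|) ≤
      2 * Real.exp (-(t ^ 2 / (4 * (m + t)))) := by
  have h1 := tail_aux hq φ ht hm 1 (Or.inl rfl)
  have h2 := tail_aux hq φ ht hm (-1) (Or.inr rfl)
  have h3 := prob_le_of_le_add hq
    (A := fun X => t ≤ |((X.filter φ).card : ℝ) - ∑ v ∈ S.filter φ, q v|)
    (B := fun X => t ≤ 1 * (((X.filter φ).card : ℝ) - ∑ v ∈ S.filter φ, q v))
    (C := fun X => t ≤ -1 * (((X.filter φ).card : ℝ) - ∑ v ∈ S.filter φ, q v)) (by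
      intro X _ h
      rcases le_abs.1 h with h | h
      · left; linarith
      · right; linarith)
  linarith

end Pool.Agent.Helper67.GR
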