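import Pool.Agent.Helper67.GR.Edge

/-! # GR: no climb and progress of a greedy step -/

namespace Pool.Agent.Helper67.GR

/-- near points to the right of label at most `Λ` are neighbours -/
theorem near_Climb {δ : ℝ → ℝ → ℝ} {n : ℝ} {K : ℕ} {P : Finset Pt} {w u : Pt}
    {a b Λ e : ℝ} (he0 : 0 ≤ e) (heK : e < K) (hΛ : 0 < Λ) (hLab : Lab n P) (hw : w ∈ P)
    (hwΛ : w.2 ≤ Λ) (hM : ∀ c, w.1 ≤ c → c ≤ w.1 + K / (2 * Λ) → Met δ P (K / Λ) c)
    (hReg : Reg n P a b Λ e) (ha : a ≤ w.1 - K / Λ) (hb : w.1 + (K - e) / Λ ≤ b)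
    (hu : u ∈ P) (huΛ : u.2 ≤ Λ) (h1 : w.1 < u.1) (h2 : u.1 < w.1 + (K - e) / (2 * Λ)) :
    adj δ K P w u := by
  have hK0 : 0 < (K : ℝ) := by linarith
  have hd : |w.1 - u.1| = u.1 - w.1 := by rw [abs_of_nonpos (by linarith)]; ring
  have e1 : (K - e) / (2 * Λ) ≤ K / (2 * Λ) := by gcongr; linarith
  have e2 : (K : ℝ) / (2 * Λ) = K / Λ / 2 := by rw [mul_comm, div_div]
  have e3 : ((K : ℝ) - e) / (2 * Λ) = (K - e) / Λ / 2 := by rw [mul_comm, div_div]
  have e4 : 0 < (K : ℝ) / Λ := by positivity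
  refine adj_near (a := a) (b := b) (Λ := Λ) (e := e) (ρ := K / Λ) (n := n) hw hu ?_ hLab hwΛ huΛ
    (hM w.1 le_rfl (by linarith [e2, e4])) (hM u.1 h1.le (by linarith)) ?_ hReg ?_ ?_ ?_
  · intro h
    rw [h] at h1
    exact lt_irrefl _ h1
  · rw [hd]; linarith
  · rw [hd, min_eq_left h1.le]; linarith
  · rw [hd, max_eq_right h1.le]; linarith
  · rw [hd]
    have h3 : (u.1 - w.1) * (2 * Λ) ≤ K - e := by
      rw [← le_div_iff₀ (by positivity)]
      linarith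
    linarith

/-- no climb: a greedy step from a vertex of label at most `Λ` leads to a vertex of label
less than `Λ (1 + 16 η)` -/
theorem climb {δ : ℝ → ℝ → ℝ} {n : ℝ} {K : ℕ} {P : Finset Pt} {w v : Pt}
    {a b Λ η e : ℝ} (hη : 0 < η) (hη1 : η ≤ 1 / 20) (he0 : 0 ≤ e) (he : e ≤ η * K)
    (hK : 4 ≤ η * K) (hΛ : 0 < Λ) (hLab : Lab n P) (hw : w ∈ P) (hwΛ : w.2 ≤ Λ)
    (hM : ∀ c, w.1 ≤ c → c ≤ w.1 + K / (2 * Λ) → Met δ P (K / Λ) c)
    (hReg : Reg n P a b (Λ * (1 + 16 * η)) e) (ha : a ≤ w.1 - K / Λ)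
    (hb : w.1 + (K - e) / Λ ≤ b) (hb0 : b ≤ 0) (hstep : Step δ K P w v) :
    v.2 < Λ * (1 + 16 * η) := by
  by_contra hcon
  push Not at hcon
  obtain ⟨hv, hadj, hlt, hmin⟩ := hstep
  have hK0 : 0 < (K : ℝ) := by
    by_contra h
    push Not at h
    nlinarith
  have hηK : η * K ≤ K / 20 := by nlinarith
  have heK : e < K := by linarith
  have hηe : η * e ≤ η * K / 20 := by nlinarith
  set Λ' := Λ * (1 + 16 * η) with hΛ'
  have hΛΛ' : Λ ≤ Λ' := by rw [hΛ']; nlinarith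
  have hΛ'0 : 0 < Λ' := by linarith
  have hΛ'n : Λ' ≤ n := hcon.trans (hLab v hv).2
  -- the position of `w`
  have hKe : 0 < (K - e) / Λ := div_pos (by linarith) hΛ
  have hw0 : w.1 < 0 := by linarith
  rw [abs_of_neg hw0] at hlt
  have hv1 := (abs_lt.1 hlt).1
  rw [neg_neg] at hv1
  set r0 := (K + e + 1) / (2 * Λ') with hr0
  have hr0pos : 0 < r0 := by positivity
  have h2r0 : 2 * r0 = (K + e + 1) / Λ' := by rw [hr0]; field_simp
  -- comparisons
  have c1 : 2 * r0 ≤ (K - e) / Λ := by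
    rw [h2r0, div_le_div_iff₀ hΛ'0 hΛ, hΛ']
    have : K + e + 1 ≤ (K - e) * (1 + 16 * η) := by nlinarith
    calc (K + e + 1) * Λ ≤ ((K - e) * (1 + 16 * η)) * Λ := by gcongr
      _ = (K - e) * (Λ * (1 + 16 * η)) := by ring
  have c2 : (K - e) / Λ ≤ K / Λ := by gcongr; linarith
  have c3 : e < Λ * ((w.1 + (K - e) / (2 * Λ)) - (w.1 + r0)) := by
    have h1 : Λ * ((w.1 + (K - e) / (2 * Λ)) - (w.1 + r0)) =
        ((K - e) * (1 + 16 * η) - (K + e + 1)) / (2 * (1 + 16 * η)) := by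
      rw [hr0, hΛ']
      have : (1 + 16 * η) ≠ 0 := by positivity
      field_simp
      ring
    rw [h1, lt_div_iff₀ (by positivity)]
    nlinarith
  have hedge : |w.1 - v.1| < r0 := by
    refine edge (n := n) (Λ := Λ') (e := e) (ρ := K / Λ)
      (hM w.1 le_rfl (by have : 0 < (K : ℝ) / (2 * Λ) := by positivity
                         linarith)) hr0pos (by linarith)
      (reg_mono hReg (by linarith) (by linarith) le_rfl le_rfl) hΛ'0.le hΛ'n hv
      (hcon.trans (le_max_right _ _)) ?_ hadj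
    rw [h2r0, div_mul_cancel₀ _ hΛ'0.ne']
    linarith
  have hv2 : v.1 < w.1 + r0 := by
    have := (abs_lt.1 hedge).1
    linarith
  have e3 : ((K : ℝ) - e) / (2 * Λ) = (K - e) / Λ / 2 := by rw [mul_comm, div_div]
  have hregΛ : Reg n P a b Λ e := reg_mono hReg le_rfl le_rfl hΛΛ' le_rfl
  obtain ⟨u, hu, hu1, hu2, hu3⟩ := reg_exists hregΛ (c := w.1 + r0)
    (d := w.1 + (K - e) / (2 * Λ)) (θ := Λ) (by linarith)
    (by
      by_contra h
      push Not at h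
      have h1 : Λ * ((w.1 + (K - e) / (2 * Λ)) - (w.1 + r0)) ≤ 0 :=
        mul_nonpos_of_nonneg_of_nonpos hΛ.le (by linarith)
      linarith)
    (by linarith) hΛ.le le_rfl (hΛΛ'.trans hΛ'n) c3
  have hadju := near_Climb he0 heK hΛ hLab hw hwΛ hM hregΛ ha hb hu hu3 (by linarith) hu2
  have hu0 : u.1 < 0 := by linarith
  have hv0 : v.1 < 0 := by linarith
  have h5 : |v.1| ≤ |u.1| := by
    rcases hmin u hu hadju with h | h
    · exact h.le
    · exact h.1.le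
  rw [abs_of_neg hv0, abs_of_neg hu0] at h5
  linarith

/-- progress: a greedy step from a vertex of label at most `Λ` is long -/
theorem progress {δ : ℝ → ℝ → ℝ} {n : ℝ} {K : ℕ} {P : Finset Pt} {w v : Pt}
    {a b Λ η e : ℝ} (hη : 0 < η) (hη1 : η ≤ 1 / 20) (he0 : 0 ≤ e) (he : e ≤ η * K)
    (hK : 4 ≤ η * K) (hΛ : 0 < Λ) (hΛn : Λ ≤ n) (hLab : Lab n P) (hw : w ∈ P)
    (hwΛ : w.2 ≤ Λ) (hM : ∀ c, w.1 ≤ c → c ≤ w.1 + K / (2 * Λ) → Met δ P (K / Λ) c)
    (hReg : Reg n P a b Λ e) (ha : a ≤ w.1 - K / Λ)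
    (hb : w.1 + (K - e) / Λ ≤ b) (hb0 : b ≤ 0) (hstep : Step δ K P w v) :
    w.1 + (K - 3 * e - 2) / (2 * Λ) ≤ v.1 := by
  obtain ⟨hv, hadj, hlt, hmin⟩ := hstep
  have hK0 : 0 < (K : ℝ) := by
    by_contra h
    push Not at h
    nlinarith
  have hηK : η * K ≤ K / 20 := by nlinarith
  have heK : e < K := by linarith
  have hKe : 0 < (K - e) / Λ := div_pos (by linarith) hΛ
  have e3 : ((K : ℝ) - e) / (2 * Λ) = (K - e) / Λ / 2 := by rw [mul_comm, div_div]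
  have hq : 0 < (K - 3 * e - 2) / (2 * Λ) := by
    apply div_pos
    · nlinarith
    · positivity
  have hlen : (w.1 + (K - e) / (2 * Λ)) - (w.1 + (K - 3 * e - 2) / (2 * Λ)) = (e + 1) / Λ := by
    field_simp
    ring
  have hlen0 : 0 < (e + 1) / Λ := by positivity
  have hKL : 0 < (K : ℝ) / Λ := by positivity
  obtain ⟨u, hu, hu1, hu2, hu3⟩ := reg_exists hReg (c := w.1 + (K - 3 * e - 2) / (2 * Λ))
    (d := w.1 + (K - e) / (2 * Λ)) (θ := Λ) (by linarith) (by linarith) (by linarith) hΛ.le le_rfl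
    hΛn (by rw [hlen, mul_div_cancel₀ _ hΛ.ne']; linarith)
  have hadju := near_Climb he0 heK hΛ hLab hw hwΛ hM hReg ha hb hu hu3 (by linarith) hu2
  have hu0 : u.1 < 0 := by linarith
  have h5 : |v.1| ≤ |u.1| := by
    rcases hmin u hu hadju with h | h
    · exact h.le
    · exact h.1.le
  rw [abs_of_neg hu0] at h5
  have h6 := neg_abs_le v.1
  linarith

end Pool.Agent.Helper67.GR
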