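import Mathlib

/-! # GR project (MP_d9675d_pr, greedy routing): definitions

Points are pairs (position, label).  A configuration is a finite set of points.
-/

namespace Pool.Agent.Helper67.GR

/-- a point: (position, label) -/
abbrev Pt := ℝ × ℝ

open Classical in
/-- indicator of a proposition -/
noncomputable def ind (p : Prop) : ℝ := if p then 1 else 0

/-- expectation of `f X` when each cell `v ∈ S` is put into `X` independently
with probability `q v` -/
noncomputable def bern {α : Type*} [DecidableEq α] (q : α → ℝ) (S : Finset α)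
    (f : Finset α → ℝ) : ℝ :=
  ∑ X ∈ S.powerset, ((∏ v ∈ X, q v) * ∏ v ∈ S \ X, (1 - q v)) * f X

/-- probability of an event for the random subset of `S` -/
noncomputable def prob {α : Type*} [DecidableEq α] (q : α → ℝ) (S : Finset α)
    (A : Finset α → Prop) : ℝ :=
  bern q S (fun X => ind (A X))

/-- number of points with position in `[a,b)` and label at most `θ` -/
noncomputable def cnt (P : Finset Pt) (a b θ : ℝ) : ℕ :=
  (P.filter (fun v => a ≤ v.1 ∧ v.1 < b ∧ v.2 ≤ θ)).card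

/-- distance on the line -/
noncomputable def ld (x y : ℝ) : ℝ := |x - y|

/-- distance on the circle of length one, for representatives in `[-1/2,1/2]` -/
noncomputable def cd (x y : ℝ) : ℝ := min |x - y| (1 - |x - y|)

/-- number of points of label at most that of `v` at distance less than `r` from `v`
(`v` itself counts when `0 < r`) -/
noncomputable def bc (δ : ℝ → ℝ → ℝ) (P : Finset Pt) (v : Pt) (r : ℝ) : ℕ :=
  (P.filter (fun p => p.2 ≤ v.2 ∧ δ v.1 p.1 < r)).card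

/-- `u` is an older neighbour of `v` -/
def adjO (δ : ℝ → ℝ → ℝ) (K : ℕ) (P : Finset Pt) (v u : Pt) : Prop :=
  u ≠ v ∧ u.2 ≤ v.2 ∧ bc δ P v (δ v.1 u.1) ≤ K

/-- adjacency -/
def adj (δ : ℝ → ℝ → ℝ) (K : ℕ) (P : Finset Pt) (v u : Pt) : Prop :=
  adjO δ K P v u ∨ adjO δ K P u v

/-- greedy step towards the position `0` -/
def Step (δ : ℝ → ℝ → ℝ) (K : ℕ) (P : Finset Pt) (w v : Pt) : Prop :=
  v ∈ P ∧ adj δ K P w v ∧ |v.1| < |w.1| ∧
    ∀ u ∈ P, adj δ K P w u → |v.1| < |u.1| ∨ (|v.1| = |u.1| ∧ v.2 ≤ u.2)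

/-- number of points of label at most that of `w` strictly between `w` and `z` -/
noncomputable def Rr (P : Finset Pt) (w : Pt) (z : ℝ) : ℕ :=
  (P.filter (fun p => p.2 ≤ w.2 ∧ w.1 < p.1 ∧ p.1 < z)).card

/-- a greedy step (line metric) from a vertex `w` of label at least `Λ` whose neighbours
to the right all lie before `z` -/
def GStep (K : ℕ) (P : Finset Pt) (Λ z : ℝ) (w v : Pt) : Prop :=
  Step ld K P w v ∧ Λ ≤ w.2 ∧ K < Rr P w z

/-- `u` is the state at `z` of the greedy path from `w`, all labels up to `u` being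
at least `Λ` -/
def State (K : ℕ) (P : Finset Pt) (Λ z : ℝ) (w u : Pt) : Prop :=
  Relation.ReflTransGen (GStep K P Λ z) w u ∧ Λ ≤ u.2 ∧ Rr P u z ≤ K

/-- the greedy path from `w` keeps labels at least `Λ` until its state at `z` -/
def Stay (K : ℕ) (P : Finset Pt) (Λ z : ℝ) (w : Pt) : Prop :=
  ∃ u, State K P Λ z w u

/-- regularity of `P` on `[a,b]` for labels at most `min Λ n`, with tolerance `e` -/
def Reg (n : ℝ) (P : Finset Pt) (a b Λ e : ℝ) : Prop :=
  ∀ c d θ : ℝ, a ≤ c → c ≤ d → d ≤ b → 0 ≤ θ → θ ≤ Λ → θ ≤ n →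
    |(cnt P c d θ : ℝ) - θ * (d - c)| ≤ e

/-- labels of `P` lie in `(0,n]` -/
def Lab (n : ℝ) (P : Finset Pt) : Prop := ∀ v ∈ P, 0 < v.2 ∧ v.2 ≤ n

/-- the metric `δ` looks like the line metric near the position `c`, up to radius `ρ` -/
structure Met (δ : ℝ → ℝ → ℝ) (P : Finset Pt) (ρ c : ℝ) : Prop where
  loc : ∀ p ∈ P, min (δ c p.1) ρ = min |c - p.1| ρ
  symm : ∀ p ∈ P, δ p.1 c = δ c p.1
  arc : ∀ v ∈ P, ∀ r : ℝ, 0 < r → r ≤ ρ → r ≤ δ v.1 c →
    (∀ p ∈ P, c < p.1 → p.1 < c + 2 * r → δ v.1 p.1 < δ v.1 c) ∨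
    (∀ p ∈ P, c - 2 * r < p.1 → p.1 < c → δ v.1 p.1 < δ v.1 c)

/-- a product grid carrying a Bernoulli field of intensity one -/
structure Grid where
  n : ℝ
  Xs : Finset ℝ
  Ts : Finset ℝ
  p : ℝ
  κ : ℝ
  n_one : 1 ≤ n
  p_pos : 0 < p
  p_le : p ≤ 1 / 4
  κ_pos : 0 ≤ κ
  κ_le : κ ≤ 1
  Xs_mem : ∀ x ∈ Xs, -(1/2) < x ∧ x < 1/2
  Xs_sym : ∀ x ∈ Xs, -x ∈ Xs
  Ts_mem : ∀ t ∈ Ts, 0 < t ∧ t ≤ n
  dens : ∀ a b θ : ℝ, -(1/2) ≤ a → a ≤ b → b ≤ 1/2 → 0 ≤ θ → θ ≤ n →
    |p * (Xs.filter (fun x => a ≤ x ∧ x < b)).card * (Ts.filter (fun t => t ≤ θ)).card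
      - θ * (b - a)| ≤ κ

namespace Grid

/-- the cells with position in `[a,b)` -/
noncomputable def fld (G : Grid) (a b : ℝ) : Finset Pt :=
  (G.Xs.filter (fun x => a ≤ x ∧ x < b)) ×ˢ G.Ts

/-- the cells with position in `(-r,r)` -/
noncomputable def sfld (G : Grid) (r : ℝ) : Finset Pt :=
  (G.Xs.filter (fun x => |x| < r)) ×ˢ G.Ts

/-- probability for the field on `[a,b)` -/
noncomputable def pr (G : Grid) (a b : ℝ) (A : Finset Pt → Prop) : ℝ :=
  prob (fun _ => G.p) (G.fld a b) A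

/-- expectation for the field on `[a,b)` -/
noncomputable def ex (G : Grid) (a b : ℝ) (f : Finset Pt → ℝ) : ℝ :=
  bern (fun _ => G.p) (G.fld a b) f

end Grid

end Pool.Agent.Helper67.GR
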