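import Pool.Agent.Helper67.GR.Bern

namespace Pool.Agent.Helper67.GR

theorem Met.mono {δ : ℝ → ℝ → ℝ} {P : Finset Pt} {ρ ρ' c : ℝ} (h : Met δ P ρ c)
    (hρ : ρ' ≤ ρ) : Met δ P ρ' c := by
  refine ⟨fun p hp => ?_, h.symm, fun v hv r h1 h2 h3 => h.arc v hv r h1 (h2.trans hρ) h3⟩
  have h1 := h.loc p hp
  have h2 := congrArg (fun t => min t ρ') h1
  rwa [min_assoc, min_assoc, min_eq_right hρ] at h2

theorem met_ld (P : Finset Pt) (ρ c : ℝ) : Met ld P ρ c := by
  refine ⟨fun p _ => rfl, fun p _ => ?_, fun v _ r h1 _ h3 => ?_⟩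
  · unfold ld; exact abs_sub_comm _ _
  · unfold ld at h3 ⊢
    rcases le_total c v.1 with h | h
    · left
      intro p _ h4 h5
      rw [abs_of_nonneg (sub_nonneg.2 h)] at h3 ⊢
      rw [abs_lt]
      constructor <;> linarith
    · right
      intro p _ h4 h5
      rw [abs_of_nonpos (sub_nonpos.2 h)] at h3 ⊢
      rw [abs_lt]
      constructor <;> linarith

theorem met_cd {P : Finset Pt} (hP : ∀ p ∈ P, |p.1| ≤ 1 / 2) {ρ c : ℝ}
    (hc : |c| ≤ 1 / 2 - ρ) (hρ : 0 ≤ ρ) : Met cd P ρ c := by
  refine ⟨fun p hp => ?_, fun p _ => ?_, fun v hv r h1 _ h3 => ?_⟩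
  · unfold cd
    have h1 := hP p hp
    have h2 : |c - p.1| ≤ |c| + |p.1| := by
      have := abs_add_le c (-p.1)
      rwa [abs_neg, ← sub_eq_add_neg] at this
    have h3 : ρ ≤ 1 - |c - p.1| := by linarith
    rw [min_assoc, min_eq_right h3]
  · unfold cd
    rw [abs_sub_comm]
  · unfold cd at h3 ⊢
    have h4 := le_trans h3 (min_le_left _ _)
    rcases le_total |v.1 - c| (1 / 2) with ha | ha
    · have h5 : min |v.1 - c| (1 - |v.1 - c|) = |v.1 - c| := min_eq_left (by linarith)
      rw [h5]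
      rcases le_total c v.1 with h | h
      · left
        intro p _ h6 h7
        refine lt_of_le_of_lt (min_le_left _ _) ?_
        rw [abs_of_nonneg (sub_nonneg.2 h)] at h4 ⊢
        rw [abs_lt]
        constructor <;> linarith
      · right
        intro p _ h6 h7
        refine lt_of_le_of_lt (min_le_left _ _) ?_
        rw [abs_of_nonpos (sub_nonpos.2 h)] at h4 ⊢
        rw [abs_lt]
        constructor <;> linarith
    · have h5 : min |v.1 - c| (1 - |v.1 - c|) = 1 - |v.1 - c| := min_eq_right (by linarith)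
      rw [h5]
      rcases le_total c v.1 with h | h
      · right
        intro p _ h6 h7
        refine lt_of_le_of_lt (min_le_right _ _) ?_
        rw [abs_of_nonneg (sub_nonneg.2 h), abs_of_nonneg (by linarith : 0 ≤ v.1 - p.1)]
        linarith
      · left
        intro p _ h6 h7
        refine lt_of_le_of_lt (min_le_right _ _) ?_
        rw [abs_of_nonpos (sub_nonpos.2 h), abs_of_nonpos (by linarith : v.1 - p.1 ≤ 0)]
        linarith

/-- balls of radius at most `ρ` agree -/
theorem Met.ball {δ : ℝ → ℝ → ℝ} {P : Finset Pt} {ρ c : ℝ} (h : Met δ P ρ c)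
    {p : Pt} (hp : p ∈ P) {r : ℝ} (hr : r ≤ ρ) : δ c p.1 < r ↔ |c - p.1| < r := by
  have h1 := h.loc p hp
  constructor
  · intro h2
    have h3 : min |c - p.1| ρ < r := by
      rw [← h1]; exact lt_of_le_of_lt (min_le_left _ _) h2
    rcases min_lt_iff.1 h3 with h4 | h4
    · exact h4
    · linarith
  · intro h2
    have h3 : min (δ c p.1) ρ < r := by
      rw [h1]; exact lt_of_le_of_lt (min_le_left _ _) h2
    rcases min_lt_iff.1 h3 with h4 | h4
    · exact h4
    · linarith

end Pool.Agent.Helper67.GR
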