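import Pool.Agent.Helper67.GR.RegV
import Pool.Agent.Helper67.GR.Metl

/-! # GR project (MP_d9675d_pr), module Edge: edges are short, near points are adjacent -/

namespace Pool.Agent.Helper67.GR

/-- an edge at `w` one of whose endpoints has label at least `Λ` is short -/
theorem edge {δ : ℝ → ℝ → ℝ} {n : ℝ} {K : ℕ} {P : Finset Pt} {w v : Pt} {r Λ e ρ : ℝ}
    (hM : Met δ P ρ w.1) (hr : 0 < r) (hrρ : r ≤ ρ)
    (hReg : Reg n P (w.1 - 2 * r) (w.1 + 2 * r) Λ e) (h0 : 0 ≤ Λ) (hn : Λ ≤ n)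
    (hv : v ∈ P) (hlab : Λ ≤ max w.2 v.2) (hK : (K : ℝ) + e < 2 * r * Λ)
    (hadj : adj δ K P w v) : |w.1 - v.1| < r := by
  by_contra hge
  have hδ : r ≤ δ w.1 v.1 := by
    by_contra h
    exact hge ((hM.ball hv hrρ).1 (not_le.1 h))
  rcases hadj with ⟨_, h2, h3⟩ | ⟨_, h2, h3⟩
  · rw [max_eq_left h2] at hlab
    have h4 := reg_open hReg (c := w.1 - r) (d := w.1 + r) (θ := Λ) (by linarith) (by linarith)
      (by linarith) h0 le_rfl hn
    have h5 : (P.filter (fun p => w.1 - r < p.1 ∧ p.1 < w.1 + r ∧ p.2 ≤ Λ)).card ≤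
        bc δ P w (δ w.1 v.1) := by
      unfold bc
      refine Finset.card_le_card fun p hp => ?_
      obtain ⟨hpP, h6, h7, h8⟩ := Finset.mem_filter.1 hp
      refine Finset.mem_filter.2 ⟨hpP, h8.trans hlab, ?_⟩
      have h9 : |w.1 - p.1| < r := by rw [abs_lt]; constructor <;> linarith
      exact ((hM.ball hpP hrρ).2 h9).trans_le hδ
    have h6 : ((P.filter (fun p => w.1 - r < p.1 ∧ p.1 < w.1 + r ∧ p.2 ≤ Λ)).card : ℝ) ≤ K := by
      exact_mod_cast h5.trans h3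
    have h7 := (abs_le.1 h4).1
    nlinarith
  · rw [max_eq_right h2] at hlab
    have hδ' : r ≤ δ v.1 w.1 := by rw [hM.symm v hv]; exact hδ
    rcases hM.arc v hv r hr hrρ hδ' with h | h
    · have h4 := reg_open hReg (c := w.1) (d := w.1 + 2 * r) (θ := Λ) (by linarith)
        (by linarith) (by linarith) h0 le_rfl hn
      have h5 : (P.filter (fun p => w.1 < p.1 ∧ p.1 < w.1 + 2 * r ∧ p.2 ≤ Λ)).card ≤
          bc δ P v (δ v.1 w.1) := by
        unfold bc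
        refine Finset.card_le_card fun p hp => ?_
        obtain ⟨hpP, h6, h7, h8⟩ := Finset.mem_filter.1 hp
        exact Finset.mem_filter.2 ⟨hpP, h8.trans hlab, h p hpP h6 h7⟩
      have h6 : ((P.filter (fun p => w.1 < p.1 ∧ p.1 < w.1 + 2 * r ∧ p.2 ≤ Λ)).card : ℝ) ≤
          K := by
        exact_mod_cast h5.trans h3
      have h7 := (abs_le.1 h4).1
      nlinarith
    · have h4 := reg_open hReg (c := w.1 - 2 * r) (d := w.1) (θ := Λ) le_rfl
        (by linarith) (by linarith) h0 le_rfl hn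
      have h5 : (P.filter (fun p => w.1 - 2 * r < p.1 ∧ p.1 < w.1 ∧ p.2 ≤ Λ)).card ≤
          bc δ P v (δ v.1 w.1) := by
        unfold bc
        refine Finset.card_le_card fun p hp => ?_
        obtain ⟨hpP, h6, h7, h8⟩ := Finset.mem_filter.1 hp
        exact Finset.mem_filter.2 ⟨hpP, h8.trans hlab, h p hpP h6 h7⟩
      have h6 : ((P.filter (fun p => w.1 - 2 * r < p.1 ∧ p.1 < w.1 ∧ p.2 ≤ Λ)).card : ℝ) ≤
          K := by
        exact_mod_cast h5.trans h3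
      have h7 := (abs_le.1 h4).1
      nlinarith

theorem adj_near_aux {δ : ℝ → ℝ → ℝ} {n : ℝ} {K : ℕ} {P : Finset Pt} {w u : Pt}
    {a b Λ e ρ : ℝ} (hw : w ∈ P) (hu : u ∈ P) (hne : u ≠ w) (hLab : Lab n P)
    (hwΛ : w.2 ≤ Λ) (hMw : Met δ P ρ w.1)
    (hρ : |w.1 - u.1| < ρ) (hReg : Reg n P a b Λ e)
    (ha : a ≤ w.1 - |w.1 - u.1|) (hb : w.1 + |w.1 - u.1| ≤ b)
    (hK : 2 * |w.1 - u.1| * Λ + e ≤ K) (hlab : u.2 ≤ w.2) : adjO δ K P w u := by
  refine ⟨hne, hlab, ?_⟩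
  have hδ : δ w.1 u.1 = |w.1 - u.1| := by
    have h1 := hMw.loc u hu
    rw [min_eq_left hρ.le] at h1
    rcases min_choice (δ w.1 u.1) ρ with h | h
    · rw [← h1, h]
    · rw [h] at h1
      exact absurd h1 hρ.ne'
  rw [hδ]
  rcases (abs_nonneg (w.1 - u.1)).eq_or_lt with h0 | h0
  · have h1 : bc δ P w |w.1 - u.1| = 0 := by
      unfold bc
      rw [Finset.card_eq_zero, Finset.filter_eq_empty_iff]
      rintro p hp ⟨_, h3⟩
      rw [hMw.ball hp hρ.le, ← h0] at h3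
      exact absurd h3 (not_lt.2 (abs_nonneg _))
    rw [h1]
    exact Nat.zero_le _
  · have h4 := reg_open hReg (c := w.1 - |w.1 - u.1|) (d := w.1 + |w.1 - u.1|) (θ := w.2) ha
      (by linarith) hb (hLab w hw).1.le hwΛ (hLab w hw).2
    have h5 : bc δ P w |w.1 - u.1| ≤ (P.filter (fun p => w.1 - |w.1 - u.1| < p.1 ∧
        p.1 < w.1 + |w.1 - u.1| ∧ p.2 ≤ w.2)).card := by
      unfold bc
      refine Finset.card_le_card fun p hp => ?_
      obtain ⟨hpP, h6, h7⟩ := Finset.mem_filter.1 hp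
      rw [hMw.ball hpP hρ.le, abs_lt] at h7
      exact Finset.mem_filter.2 ⟨hpP, by linarith [h7.2], by linarith [h7.1], h6⟩
    have h6 := (abs_le.1 h4).2
    have h7 : w.2 * (w.1 + |w.1 - u.1| - (w.1 - |w.1 - u.1|)) ≤ 2 * |w.1 - u.1| * Λ := by
      nlinarith
    have h8 : (bc δ P w |w.1 - u.1| : ℝ) ≤ K := by
      have : (bc δ P w |w.1 - u.1| : ℝ) ≤ (P.filter (fun p => w.1 - |w.1 - u.1| < p.1 ∧
        p.1 < w.1 + |w.1 - u.1| ∧ p.2 ≤ w.2)).card := by exact_mod_cast h5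
      linarith
    exact_mod_cast h8

/-- near points of label at most `Λ` are adjacent -/
theorem adj_near {δ : ℝ → ℝ → ℝ} {n : ℝ} {K : ℕ} {P : Finset Pt} {w u : Pt}
    {a b Λ e ρ : ℝ} (hw : w ∈ P) (hu : u ∈ P) (hne : u ≠ w) (hLab : Lab n P)
    (hwΛ : w.2 ≤ Λ) (huΛ : u.2 ≤ Λ) (hMw : Met δ P ρ w.1) (hMu : Met δ P ρ u.1)
    (hρ : |w.1 - u.1| < ρ) (hReg : Reg n P a b Λ e)
    (ha : a ≤ min w.1 u.1 - |w.1 - u.1|) (hb : max w.1 u.1 + |w.1 - u.1| ≤ b)
    (hK : 2 * |w.1 - u.1| * Λ + e ≤ K) : adj δ K P w u := by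
  have h1 := min_le_left w.1 u.1
  have h2 := min_le_right w.1 u.1
  have h3 := le_max_left w.1 u.1
  have h4 := le_max_right w.1 u.1
  rcases le_total u.2 w.2 with h | h
  · exact Or.inl (adj_near_aux hw hu hne hLab hwΛ hMw hρ hReg (by linarith) (by linarith) hK h)
  · refine Or.inr (adj_near_aux hu hw hne.symm hLab huΛ hMu ?_ hReg ?_ ?_ ?_ h)
    · rw [abs_sub_comm]; exact hρ
    · rw [abs_sub_comm u.1 w.1]; linarith
    · rw [abs_sub_comm u.1 w.1]; linarith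
    · rw [abs_sub_comm u.1 w.1]; exact hK

end Pool.Agent.Helper67.GR
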