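import Pool.Agent.Helper67.GR.Mom

namespace Pool.Agent.Helper67.GR

open Finset

variable (G : Grid)

theorem fld_pq (a b : ℝ) : Pq (fun _ : Pt => G.p) (G.fld a b) :=
  fun _ _ => ⟨G.p_pos.le, G.p_le.trans (by norm_num)⟩

theorem sfld_pq (r : ℝ) : Pq (fun _ : Pt => G.p) (G.sfld r) :=
  fun _ _ => ⟨G.p_pos.le, G.p_le.trans (by norm_num)⟩

theorem mem_fld {a b : ℝ} {v : Pt} :
    v ∈ G.fld a b ↔ v.1 ∈ G.Xs ∧ v.2 ∈ G.Ts ∧ a ≤ v.1 ∧ v.1 < b := by
  unfold Grid.fld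
  rw [Finset.mem_product, Finset.mem_filter]
  tauto

theorem fld_lab {a b : ℝ} {Y : Finset Pt} (hY : Y ⊆ G.fld a b) : Lab G.n Y :=
  fun v hv => G.Ts_mem v.2 ((mem_fld G).1 (hY hv)).2.1

theorem fld_union {a b c : ℝ} (hab : a ≤ b) (hbc : b ≤ c) :
    G.fld a c = G.fld a b ∪ G.fld b c := by
  ext v
  rw [Finset.mem_union, mem_fld, mem_fld, mem_fld]
  constructor
  · rintro ⟨h1, h2, h3, h4⟩
    rcases lt_or_ge v.1 b with h | h
    · exact Or.inl ⟨h1, h2, h3, h⟩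
    · exact Or.inr ⟨h1, h2, h, h4⟩
  · rintro (⟨h1, h2, h3, h4⟩ | ⟨h1, h2, h3, h4⟩)
    · exact ⟨h1, h2, h3, h4.trans_le hbc⟩
    · exact ⟨h1, h2, hab.trans h3, h4⟩

theorem fld_disjoint (a b c : ℝ) : Disjoint (G.fld a b) (G.fld b c) := by
  rw [Finset.disjoint_left]
  intro v hv hv'
  exact absurd ((mem_fld G).1 hv).2.2.2 (not_lt.2 ((mem_fld G).1 hv').2.2.1)

theorem fld_subset_sfld {a b r : ℝ} (ha : -r < a) (hb : b ≤ r) :
    G.fld a b ⊆ G.sfld r := by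
  intro v hv
  obtain ⟨h1, h2, h3, h4⟩ := (mem_fld G).1 hv
  unfold Grid.sfld
  rw [Finset.mem_product, Finset.mem_filter]
  exact ⟨⟨h1, abs_lt.2 ⟨ha.trans_le h3, h4.trans_le hb⟩⟩, h2⟩

theorem fld_mono {a b a' b' : ℝ} (ha : a' ≤ a) (hb : b ≤ b') : G.fld a b ⊆ G.fld a' b' := by
  intro v hv
  obtain ⟨h1, h2, h3, h4⟩ := (mem_fld G).1 hv
  exact (mem_fld G).2 ⟨h1, h2, ha.trans h3, h4.trans_le hb⟩

theorem fld_sum_eq (a b θ : ℝ) :
    (∑ _v ∈ (G.fld a b).filter (fun v => v.2 ≤ θ), G.p) =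
      G.p * (G.Xs.filter (fun x => a ≤ x ∧ x < b)).card * (G.Ts.filter (fun t => t ≤ θ)).card := by
  have h1 : (G.fld a b).filter (fun v => v.2 ≤ θ) =
      (G.Xs.filter (fun x => a ≤ x ∧ x < b)) ×ˢ (G.Ts.filter (fun t => t ≤ θ)) := by
    ext v
    unfold Grid.fld
    rw [Finset.mem_filter, Finset.mem_product, Finset.mem_product, Finset.mem_filter,
      Finset.mem_filter]
    tauto
  rw [h1, Finset.sum_const, Finset.card_product, nsmul_eq_mul]
  push_cast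
  ring

/-- the mean number of points of label at most `θ` -/
theorem mean_le (a b θ : ℝ) (ha : -(1/2) ≤ a) (hab : a ≤ b) (hb : b ≤ 1/2) (h0 : 0 ≤ θ)
    (hn : θ ≤ G.n) :
    |(∑ _v ∈ (G.fld a b).filter (fun v => v.2 ≤ θ), G.p) - θ * (b - a)| ≤ G.κ := by
  rw [fld_sum_eq]
  exact G.dens a b θ ha hab hb h0 hn

/-- upper bound for the mean, without the restriction `θ ≤ n` -/
theorem mean_le' (a b θ : ℝ) (ha : -(1/2) ≤ a) (hab : a ≤ b) (hb : b ≤ 1/2) (h0 : 0 ≤ θ) :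
    (∑ _v ∈ (G.fld a b).filter (fun v => v.2 ≤ θ), G.p) ≤ θ * (b - a) + G.κ := by
  rcases le_total θ G.n with h | h
  · have h1 := (abs_le.1 (mean_le G a b θ ha hab hb h0 h)).2
    linarith
  · have hn0 : (0 : ℝ) ≤ G.n := zero_le_one.trans G.n_one
    have h1 := (abs_le.1 (mean_le G a b G.n ha hab hb hn0 le_rfl)).2
    have h2 : (G.fld a b).filter (fun v => v.2 ≤ θ) = (G.fld a b).filter (fun v => v.2 ≤ G.n) := by
      apply Finset.filter_congr
      intro v hv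
      have h3 := (G.Ts_mem v.2 ((mem_fld G).1 hv).2.1).2
      exact ⟨fun _ => h3, fun _ => h3.trans h⟩
    rw [h2]
    have h3 : G.n * (b - a) ≤ θ * (b - a) := mul_le_mul_of_nonneg_right h (by linarith)
    linarith

/-- the mean number of points in one column -/
theorem col_mean {x : ℝ} (hx : x ∈ G.Xs) : G.p * (G.Ts.card : ℝ) ≤ G.κ := by
  have hn0 : (0 : ℝ) < G.n := zero_lt_one.trans_le G.n_one
  obtain ⟨hx1, hx2⟩ := G.Xs_mem x hx
  apply le_of_forall_pos_le_add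
  intro ε hε
  obtain ⟨h, hh0, hh1, hh2⟩ : ∃ h : ℝ, 0 < h ∧ x + h ≤ 1 / 2 ∧ G.n * h ≤ ε := by
    refine ⟨min (1 / 2 - x) (ε / G.n), lt_min (by linarith) (by positivity), ?_, ?_⟩
    · linarith [min_le_left (1 / 2 - x) (ε / G.n)]
    · calc G.n * min (1 / 2 - x) (ε / G.n) ≤ G.n * (ε / G.n) :=
            mul_le_mul_of_nonneg_left (min_le_right _ _) hn0.le
        _ = ε := by field_simp
  have h1 := (abs_le.1 (G.dens x (x + h) G.n (by linarith) (by linarith) hh1 hn0.le le_rfl)).2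
  have h2 : G.Ts.filter (fun t => t ≤ G.n) = G.Ts :=
    Finset.filter_true_of_mem fun t ht => (G.Ts_mem t ht).2
  rw [h2] at h1
  have h3 : 1 ≤ (G.Xs.filter (fun y => x ≤ y ∧ y < x + h)).card := by
    rw [Nat.one_le_iff_ne_zero, Finset.card_ne_zero]
    exact ⟨x, Finset.mem_filter.2 ⟨hx, le_rfl, by linarith⟩⟩
  have h4 : (1 : ℝ) ≤ ((G.Xs.filter (fun y => x ≤ y ∧ y < x + h)).card : ℝ) := by
    exact_mod_cast h3
  have h5 : G.p * (G.Ts.card : ℝ) ≤
      G.p * ((G.Xs.filter (fun y => x ≤ y ∧ y < x + h)).card : ℝ) * (G.Ts.card : ℝ) := by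
    have h6 : (0 : ℝ) ≤ G.p * (G.Ts.card : ℝ) := mul_nonneg G.p_pos.le (Nat.cast_nonneg _)
    nlinarith
  have h6 : G.n * (x + h - x) = G.n * h := by ring
  rw [h6] at h1
  linarith

theorem pr_nonneg (a b : ℝ) (A : Finset Pt → Prop) : 0 ≤ G.pr a b A :=
  prob_nonneg (fld_pq G a b) A

theorem pr_le_one (a b : ℝ) (A : Finset Pt → Prop) : G.pr a b A ≤ 1 :=
  prob_le_one (fld_pq G a b) A

/-- splitting the field at `b` -/
theorem ex_split {a b c : ℝ} (hab : a ≤ b) (hbc : b ≤ c) (f : Finset Pt → ℝ) :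
    G.ex a c f = G.ex a b (fun X => G.ex b c (fun Y => f (X ∪ Y))) := by
  unfold Grid.ex
  rw [fld_union G hab hbc, bern_union _ (fld_disjoint G a b c)]

theorem pr_split {a b c : ℝ} (hab : a ≤ b) (hbc : b ≤ c) (A : Finset Pt → Prop) :
    G.pr a c A = G.ex a b (fun X => G.pr b c (fun Y => A (X ∪ Y))) :=
  ex_split G hab hbc (fun X => ind (A X))

/-- conditional bound: if `A` implies `B` seen on the left part, and `A` has conditional
probability at most `σ` on the left configurations satisfying `B` -/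
theorem pr_cond_le {a b c σ : ℝ} (hab : a ≤ b) (hbc : b ≤ c) (A B : Finset Pt → Prop)
    (h : ∀ X ⊆ G.fld a b, ∀ Y ⊆ G.fld b c, A (X ∪ Y) → B X)
    (hσ : ∀ X ⊆ G.fld a b, B X → G.pr b c (fun Y => A (X ∪ Y)) ≤ σ) :
    G.pr a c A ≤ σ * G.pr a b B := by
  rw [pr_split G hab hbc]
  have h1 : σ * G.pr a b B = G.ex a b (fun X => σ * ind (B X)) := by
    unfold Grid.pr Grid.ex prob
    rw [bern_smul]
  rw [h1]
  refine bern_mono (fld_pq G a b) fun X hX => ?_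
  by_cases hB : B X
  · rw [ind_of hB, mul_one]
    exact hσ X hX hB
  · rw [ind_of_not hB, mul_zero]
    exact (prob_false _ _ fun Y hY hA => hB (h X hX Y hY hA)).le

/-- an event only depending on `[a,b)` -/
theorem pr_marginal {a b a' b' : ℝ} (ha : a' ≤ a) (hb : b ≤ b') (A : Finset Pt → Prop)
    (h : ∀ X ⊆ G.fld a' b', (A X ↔ A (X ∩ G.fld a b))) :
    G.pr a' b' A = G.pr a b A :=
  bern_marginal _ (fld_mono G ha hb) fun X hX => ind_congr (h X hX)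

theorem pr_marginal_sfld {a b r : ℝ} (ha : -r < a) (hb : b ≤ r) (A : Finset Pt → Prop)
    (h : ∀ X ⊆ G.sfld r, (A X ↔ A (X ∩ G.fld a b))) :
    prob (fun _ => G.p) (G.sfld r) A = G.pr a b A :=
  bern_marginal _ (fld_subset_sfld G ha hb) fun X hX => ind_congr (h X hX)

end Pool.Agent.Helper67.GR
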