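import Pool.Agent.Helper67.GR.Climb

namespace Pool.Agent.Helper67.GR

/-- along a chain of greedy steps inside a regular region labels grow slowly -/
theorem grow {δ : ℝ → ℝ → ℝ} {n : ℝ} {K : ℕ} {P : Finset Pt} {w₀ u : Pt}
    {a b Λ₀ Λm η e : ℝ} (hη : 0 < η) (hη1 : η ≤ 1 / 20) (he0 : 0 ≤ e) (he : e ≤ η * K)
    (hK : 4 ≤ η * K) (hΛ : 0 < Λ₀) (h01 : Λ₀ ≤ Λm) (hLab : Lab n P)
    (hReg : Reg n P a b (Λm * (1 + 16 * η)) e) (hb : b ≤ 0)
    (hM : ∀ c, a ≤ c → c ≤ b → Met δ P (K / Λ₀) c)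
    (hexp : Λ₀ * Real.exp (48 * η * Λm * (b - a) / K) ≤ Λm)
    (hw₀ : w₀ ∈ P) (hw₀a : a ≤ w₀.1) (hwΛ : w₀.2 ≤ Λ₀)
    (hch : Relation.ReflTransGen (fun w v => Step δ K P w v ∧ a + K / Λ₀ ≤ w.1 ∧
      w.1 + (K - e) / max w.2 Λ₀ ≤ b) w₀ u) :
    u ∈ P ∧ w₀.1 ≤ u.1 ∧
      u.2 ≤ Λ₀ * Real.exp (48 * η * Λm * (u.1 - w₀.1) / K) := by
  have hKK : (80 : ℝ) ≤ K := by nlinarith
  have hK0 : (0 : ℝ) < K := by linarith
  have hΛm : 0 < Λm := by linarith
  have heK : e ≤ K / 20 := by nlinarith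
  have hmono : ∀ x y : ℝ, x ≤ y → Λ₀ * Real.exp (48 * η * Λm * x / K) ≤
      Λ₀ * Real.exp (48 * η * Λm * y / K) := by
    intro x y hxy
    refine mul_le_mul_of_nonneg_left (Real.exp_le_exp.2 ?_) hΛ.le
    refine div_le_div_of_nonneg_right ?_ hK0.le
    exact mul_le_mul_of_nonneg_left hxy (by positivity)
  have hge : ∀ x : ℝ, 0 ≤ x → Λ₀ ≤ Λ₀ * Real.exp (48 * η * Λm * x / K) := by
    intro x hx
    have := hmono 0 x hx
    rwa [mul_zero, zero_div, Real.exp_zero, mul_one] at this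
  induction hch with
  | refl =>
    refine ⟨hw₀, le_rfl, hwΛ.trans ?_⟩
    exact hge _ (by linarith)
  | @tail w v hwv hstep ih =>
    obtain ⟨hwP, hw0, hwL⟩ := ih
    obtain ⟨hst, hwa, hwb⟩ := hstep
    have hvP : v ∈ P := hst.1
    have hmax : 0 < max w.2 Λ₀ := lt_of_lt_of_le hΛ (le_max_right _ _)
    have hKe : 0 ≤ (K : ℝ) - e := by linarith
    have hwb' : w.1 ≤ b := by
      have : 0 ≤ ((K : ℝ) - e) / max w.2 Λ₀ := div_nonneg hKe hmax.le
      linarith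
    have hwv1 : w.1 < v.1 := by
      have h1 := hst.2.2.1
      rw [abs_of_nonpos (by linarith : w.1 ≤ 0)] at h1
      have h2 := neg_abs_le v.1
      linarith
    by_cases hn : n < Λ₀
    · refine ⟨hvP, by linarith, ?_⟩
      have h1 := (hLab v hvP).2
      have h2 := hge (v.1 - w₀.1) (by linarith)
      linarith
    · push Not at hn
      set L : ℝ := Λ₀ * Real.exp (48 * η * Λm * (w.1 - w₀.1) / K) with hL
      set Λ : ℝ := min L n with hΛd
      have hL0 : Λ₀ ≤ L := hge _ (by linarith)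
      have h0Λ : Λ₀ ≤ Λ := le_min hL0 hn
      have hΛ0 : 0 < Λ := lt_of_lt_of_le hΛ h0Λ
      have hLm : L ≤ Λm := (hmono _ _ (by linarith)).trans hexp
      have hΛm' : Λ ≤ Λm := (min_le_left _ _).trans hLm
      have hwΛ' : w.2 ≤ Λ := le_min hwL (hLab w hwP).2
      have hmaxΛ : max w.2 Λ₀ ≤ Λ := max_le hwΛ' h0Λ
      have hdiv : ((K : ℝ) - e) / Λ ≤ ((K : ℝ) - e) / max w.2 Λ₀ :=
        div_le_div_of_nonneg_left hKe hmax hmaxΛ
      have hdivK : (K : ℝ) / Λ ≤ K / Λ₀ := div_le_div_of_nonneg_left hK0.le hΛ h0Λ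
      have hhalf : (K : ℝ) / (2 * Λ) ≤ ((K : ℝ) - e) / Λ := by
        rw [div_le_div_iff₀ (by positivity) hΛ0]
        have : (K : ℝ) ≤ ((K : ℝ) - e) * 2 := by linarith
        calc (K : ℝ) * Λ ≤ (((K : ℝ) - e) * 2) * Λ := mul_le_mul_of_nonneg_right this hΛ0.le
          _ = ((K : ℝ) - e) * (2 * Λ) := by ring
      have hK0' : 0 ≤ (K : ℝ) / Λ₀ := by positivity
      have hMΛ : ∀ c, w.1 ≤ c → c ≤ w.1 + K / (2 * Λ) → Met δ P (K / Λ) c := by
        intro c hc1 hc2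
        exact (hM c (by linarith) (by linarith)).mono hdivK
      have hfac : Λ * (1 + 16 * η) ≤ Λm * (1 + 16 * η) :=
        mul_le_mul_of_nonneg_right hΛm' (by positivity)
      have hΛfac : Λ ≤ Λm * (1 + 16 * η) := by
        refine hΛm'.trans ?_
        nlinarith
      have hc := climb hη hη1 he0 he hK hΛ0 hLab hwP hwΛ' hMΛ
        (reg_mono hReg le_rfl le_rfl hfac le_rfl) (by linarith) (by linarith) hb hst
      have hp := progress hη hη1 he0 he hK hΛ0 (min_le_right _ _) hLab hwP hwΛ' hMΛ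
        (reg_mono hReg le_rfl le_rfl hΛfac le_rfl) (by linarith) (by linarith) hb hst
      refine ⟨hvP, by linarith, ?_⟩
      have hprog : (K : ℝ) / (3 * Λm) ≤ v.1 - w.1 := by
        have h1 : (K : ℝ) / (3 * Λm) ≤ ((K : ℝ) - 3 * e - 2) / (2 * Λ) := by
          rw [div_le_div_iff₀ (by positivity) (by positivity)]
          have h2 : (K : ℝ) * 2 ≤ ((K : ℝ) - 3 * e - 2) * 3 := by linarith
          calc (K : ℝ) * (2 * Λ) = ((K : ℝ) * 2) * Λ := by ring
            _ ≤ ((K : ℝ) * 2) * Λm := mul_le_mul_of_nonneg_left hΛm' (by positivity)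
            _ ≤ (((K : ℝ) - 3 * e - 2) * 3) * Λm := mul_le_mul_of_nonneg_right h2 hΛm.le
            _ = ((K : ℝ) - 3 * e - 2) * (3 * Λm) := by ring
        linarith
      have hexp1 : 1 + 16 * η ≤ Real.exp (16 * η) := by
        have := Real.add_one_le_exp (16 * η)
        linarith
      have hLv : Λ₀ * Real.exp (48 * η * Λm * (v.1 - w₀.1) / K) =
          L * Real.exp (48 * η * Λm * (v.1 - w.1) / K) := by
        have h1 : 48 * η * Λm * (v.1 - w₀.1) / K = 48 * η * Λm * (w.1 - w₀.1) / K +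
            48 * η * Λm * (v.1 - w.1) / K := by ring
        rw [hL, h1, Real.exp_add, ← mul_assoc]
      have hexp2 : Real.exp (16 * η) ≤ Real.exp (48 * η * Λm * (v.1 - w.1) / K) := by
        refine Real.exp_le_exp.2 ?_
        rw [le_div_iff₀ hK0]
        rw [div_le_iff₀ (by positivity)] at hprog
        nlinarith
      rw [hLv]
      calc v.2 ≤ Λ * (1 + 16 * η) := hc.le
        _ ≤ L * (1 + 16 * η) := mul_le_mul_of_nonneg_right (min_le_left _ _) (by positivity)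
        _ ≤ L * Real.exp (48 * η * Λm * (v.1 - w.1) / K) :=
          mul_le_mul_of_nonneg_left (hexp1.trans hexp2) (by linarith)

end Pool.Agent.Helper67.GR
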