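import Pool.Agent.Helper67.GR.Bern

/-! # GR project: moments and Chebyshev for Bernoulli fields -/

namespace Pool.Agent.Helper67.GR

open Finset

variable {α : Type*} [DecidableEq α]

theorem bern_card (q : α → ℝ) (S : Finset α) (φ : α → Prop) [DecidablePred φ] :
    bern q S (fun X => ((X.filter φ).card : ℝ)) = ∑ v ∈ S.filter φ, q v := by
  have h1 : ∀ X : Finset α, ((X.filter φ).card : ℝ) = ∑ v ∈ X, (if φ v then (1 : ℝ) else 0) := by
    intro X
    rw [Finset.card_filter]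
    push_cast
    rfl
  rw [bern_congr (fun X _ => h1 X), bern_mecke q S (fun v _ => if φ v then (1 : ℝ) else 0),
    Finset.sum_filter]
  apply Finset.sum_congr rfl
  intro v _
  rw [bern_const]
  split_ifs <;> simp

theorem bern_card_sq_le {q : α → ℝ} {S : Finset α} (hq : Pq q S) (φ : α → Prop)
    [DecidablePred φ] :
    bern q S (fun X => ((X.filter φ).card : ℝ) ^ 2) ≤
      (∑ v ∈ S.filter φ, q v) ^ 2 + ∑ v ∈ S.filter φ, q v := by
  have h1 : ∀ X : Finset α, ((X.filter φ).card : ℝ) ^ 2 =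
      ∑ v ∈ X, (if φ v then ((X.filter φ).card : ℝ) else 0) := by
    intro X
    rw [← Finset.sum_filter, Finset.sum_const, nsmul_eq_mul, sq]
  rw [bern_congr (fun X _ => h1 X),
    bern_mecke q S (fun v X => if φ v then ((X.filter φ).card : ℝ) else 0)]
  have h2 : (∑ v ∈ S.filter φ, q v) ^ 2 + ∑ v ∈ S.filter φ, q v =
      ∑ v ∈ S, (if φ v then q v * (1 + ∑ u ∈ S.filter φ, q u) else 0) := by
    rw [← Finset.sum_filter, ← Finset.sum_mul]
    ring
  rw [h2]
  apply Finset.sum_le_sum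
  intro v hv
  by_cases hφ : φ v
  · simp only [hφ, if_true]
    apply mul_le_mul_of_nonneg_left _ (hq v hv).1
    rw [← bern_card q S φ, ← bern_const q S 1, ← bern_add]
    apply bern_mono hq
    intro X _
    have : ((insert v X).filter φ).card ≤ 1 + (X.filter φ).card := by
      rw [Finset.filter_insert, if_pos hφ, add_comm]
      exact Finset.card_insert_le _ _
    exact_mod_cast this
  · simp only [hφ, if_false]
    rw [bern_const, mul_zero]

theorem prob_cheb {q : α → ℝ} {S : Finset α} (hq : Pq q S) (φ : α → Prop)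
    [DecidablePred φ] {t : ℝ} (ht : 0 < t) :
    prob q S (fun X => t ≤ |((X.filter φ).card : ℝ) - ∑ v ∈ S.filter φ, q v|) ≤
      (∑ v ∈ S.filter φ, q v) / t ^ 2 := by
  set M : ℝ := ∑ v ∈ S.filter φ, q v with hM
  have h1 : prob q S (fun X => t ≤ |((X.filter φ).card : ℝ) - M|) ≤
      prob q S (fun X => t ^ 2 ≤ (((X.filter φ).card : ℝ) - M) ^ 2) := by
    apply prob_mono hq
    intro X _ h
    rw [← sq_abs (((X.filter φ).card : ℝ) - M)]
    exact pow_le_pow_left₀ ht.le h 2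
  have h2 := prob_markov hq (f := fun X => (((X.filter φ).card : ℝ) - M) ^ 2)
    (fun X _ => sq_nonneg _) (pow_pos ht 2)
  have h3 : bern q S (fun X => (((X.filter φ).card : ℝ) - M) ^ 2) ≤ M := by
    have e : ∀ X ⊆ S, (((X.filter φ).card : ℝ) - M) ^ 2 =
        (((X.filter φ).card : ℝ) ^ 2 - 2 * M * ((X.filter φ).card : ℝ)) + M ^ 2 :=
      fun X _ => by ring
    rw [bern_congr e, bern_add q S (fun X => ((X.filter φ).card : ℝ) ^ 2 -
      2 * M * ((X.filter φ).card : ℝ)) (fun _ => M ^ 2),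
      bern_sub q S (fun X => ((X.filter φ).card : ℝ) ^ 2)
        (fun X => 2 * M * ((X.filter φ).card : ℝ)),
      bern_smul q S (2 * M) (fun X => ((X.filter φ).card : ℝ)), bern_card, bern_const, ← hM]
    have := bern_card_sq_le hq φ
    rw [← hM] at this
    nlinarith
  calc prob q S (fun X => t ≤ |((X.filter φ).card : ℝ) - M|)
      ≤ prob q S (fun X => t ^ 2 ≤ (((X.filter φ).card : ℝ) - M) ^ 2) := h1
    _ ≤ bern q S (fun X => (((X.filter φ).card : ℝ) - M) ^ 2) / t ^ 2 := h2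
    _ ≤ M / t ^ 2 := by gcongr

theorem bern_cs {q : α → ℝ} {S : Finset α} (hq : Pq q S) (f g : Finset α → ℝ) :
    (bern q S (fun X => f X * g X)) ^ 2 ≤
      bern q S (fun X => f X ^ 2) * bern q S (fun X => g X ^ 2) := by
  unfold bern
  have hw : ∀ X ∈ S.powerset, 0 ≤ (∏ v ∈ X, q v) * ∏ v ∈ S \ X, (1 - q v) := fun X hX =>
    weight_nonneg hq (Finset.mem_powerset.1 hX)
  have key := Finset.sum_mul_sq_le_sq_mul_sq S.powerset
    (fun X => Real.sqrt ((∏ v ∈ X, q v) * ∏ v ∈ S \ X, (1 - q v)) * f X)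
    (fun X => Real.sqrt ((∏ v ∈ X, q v) * ∏ v ∈ S \ X, (1 - q v)) * g X)
  have e1 : ∀ X ∈ S.powerset,
      Real.sqrt ((∏ v ∈ X, q v) * ∏ v ∈ S \ X, (1 - q v)) * f X *
        (Real.sqrt ((∏ v ∈ X, q v) * ∏ v ∈ S \ X, (1 - q v)) * g X) =
      ((∏ v ∈ X, q v) * ∏ v ∈ S \ X, (1 - q v)) * (f X * g X) := by
    intro X hX
    have := Real.mul_self_sqrt (hw X hX)
    calc _ = (Real.sqrt ((∏ v ∈ X, q v) * ∏ v ∈ S \ X, (1 - q v)) *
        Real.sqrt ((∏ v ∈ X, q v) * ∏ v ∈ S \ X, (1 - q v))) * (f X * g X) := by ring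
      _ = _ := by rw [this]
  have e2 : ∀ (h : Finset α → ℝ), ∀ X ∈ S.powerset,
      (Real.sqrt ((∏ v ∈ X, q v) * ∏ v ∈ S \ X, (1 - q v)) * h X) ^ 2 =
      ((∏ v ∈ X, q v) * ∏ v ∈ S \ X, (1 - q v)) * h X ^ 2 := by
    intro h X hX
    rw [mul_pow, Real.sq_sqrt (hw X hX)]
  rw [Finset.sum_congr rfl e1, Finset.sum_congr rfl (e2 f), Finset.sum_congr rfl (e2 g)] at key
  exact key

theorem bern_mul_ind_le {q : α → ℝ} {S : Finset α} (hq : Pq q S) (f : Finset α → ℝ)
    (A : Finset α → Prop) :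
    bern q S (fun X => f X * ind (A X)) ≤
      Real.sqrt (bern q S (fun X => f X ^ 2)) * Real.sqrt (prob q S A) := by
  have h := bern_cs hq f (fun X => ind (A X))
  have e : bern q S (fun X => ind (A X) ^ 2) = prob q S A := by
    unfold prob
    apply bern_congr
    intro X _
    by_cases hA : A X
    · rw [ind_of hA]; norm_num
    · rw [ind_of_not hA]; norm_num
  simp only [e] at h
  rw [← Real.sqrt_mul (bern_nonneg hq fun X _ => sq_nonneg _)]
  exact le_trans (le_abs_self _) (Real.abs_le_sqrt h)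

end Pool.Agent.Helper67.GR
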