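import Pool.Agent.Helper67.GR.Bern

namespace Pool.Agent.Helper67.GR

open Finset

variable {α : Type*} [DecidableEq α]

/-- independence of an event of `X ∩ T` and an event of `X \ T` -/
private theorem ott_indep {q : α → ℝ} {S T : Finset α} (hT : T ⊆ S) {A C : Finset α → Prop}
    (hA : ∀ X ⊆ S, (A X ↔ A (X ∩ T))) (hC : ∀ X ⊆ S, (C X ↔ C (X \ T))) :
    prob q S (fun X => A X ∧ C X) = prob q S A * prob q S C := by
  have hS : S = T ∪ (S \ T) := (Finset.union_sdiff_of_subset hT).symm
  have hd : Disjoint T (S \ T) := Finset.disjoint_sdiff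
  have e1 : prob q S A = prob q T A := bern_marginal q hT (fun X hX => ind_congr (hA X hX))
  have e2 : prob q S C = prob q (S \ T) C := by
    refine bern_marginal q Finset.sdiff_subset (fun X hX => ind_congr ?_)
    have h1 : X ∩ (S \ T) = X \ T := by
      ext a
      simp only [Finset.mem_inter, Finset.mem_sdiff]
      constructor
      · rintro ⟨h1, -, h3⟩
        exact ⟨h1, h3⟩
      · rintro ⟨h1, h2⟩
        exact ⟨h1, hX h1, h2⟩
    rw [h1]
    exact hC X hX
  rw [e1, e2]
  unfold prob
  conv_lhs => rw [hS]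
  rw [bern_union q hd, ← bern_mul_const]
  apply bern_congr
  intro X hX
  rw [← bern_smul]
  apply bern_congr
  intro Y hY
  rw [ind_and]
  have hXY : X ∪ Y ⊆ S :=
    Finset.union_subset (hX.trans hT) (hY.trans Finset.sdiff_subset)
  have h1 : (X ∪ Y) ∩ T = X := by
    ext a
    simp only [Finset.mem_inter, Finset.mem_union]
    constructor
    · rintro ⟨h1 | h1, h2⟩
      · exact h1
      · exact absurd h2 (Finset.mem_sdiff.1 (hY h1)).2
    · intro h1
      exact ⟨Or.inl h1, hX h1⟩
  have h2 : (X ∪ Y) \ T = Y := by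
    ext a
    simp only [Finset.mem_sdiff, Finset.mem_union]
    constructor
    · rintro ⟨h1 | h1, h2⟩
      · exact absurd (hX h1) h2
      · exact h1
    · intro h1
      exact ⟨Or.inr h1, (Finset.mem_sdiff.1 (hY h1)).2⟩
  have h3 := ind_congr (hA (X ∪ Y) hXY)
  have h4 := ind_congr (hC (X ∪ Y) hXY)
  rw [h1] at h3
  rw [h2] at h4
  rw [h3, h4]

/-- Ottaviani's maximal inequality for partial sums over disjoint blocks `B 0, …, B (m-1)` -/
theorem ottaviani {E : Type*} [NormedAddCommGroup E] {q : α → ℝ} (m : ℕ)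
    (B : ℕ → Finset α) (hd : ∀ i j, i ≠ j → Disjoint (B i) (B j))
    (hq : Pq q ((range m).biUnion B)) (f : ℕ → Finset α → E)
    (hloc : ∀ k ≤ m, ∀ X ⊆ (range m).biUnion B, f k X = f k (X ∩ (range k).biUnion B))
    (hinc : ∀ k ≤ m, ∀ X ⊆ (range m).biUnion B,
      f m X - f k X = f m (X \ (range k).biUnion B) - f k (X \ (range k).biUnion B))
    (s : ℝ)
    (hs : ∀ k ≤ m, prob q ((range m).biUnion B) (fun X => s < ‖f m X - f k X‖) ≤ 1 / 2) :
    prob q ((range m).biUnion B) (fun X => ∃ k ≤ m, 2 * s < ‖f k X‖) ≤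
      2 * prob q ((range m).biUnion B) (fun X => s < ‖f m X‖) := by
  classical
  have _ := hd
  set S : Finset α := (range m).biUnion B with hS
  have hsub : ∀ j k, j ≤ k → (range j).biUnion B ⊆ (range k).biUnion B := by
    intro j k hjk
    exact Finset.biUnion_subset_biUnion_of_subset_left B
      (fun a ha => Finset.mem_range.2 ((Finset.mem_range.1 ha).trans_le hjk))
  have hloc' : ∀ j k, j ≤ k → k ≤ m → ∀ X ⊆ S, f j X = f j (X ∩ (range k).biUnion B) := by
    intro j k hjk hkm X hX
    rw [hloc j (hjk.trans hkm) X hX,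
      hloc j (hjk.trans hkm) (X ∩ (range k).biUnion B) (Finset.inter_subset_left.trans hX)]
    congr 1
    ext a
    simp only [Finset.mem_inter]
    constructor
    · rintro ⟨h1, h2⟩
      exact ⟨⟨h1, hsub j k hjk h2⟩, h2⟩
    · rintro ⟨⟨h1, -⟩, h2⟩
      exact ⟨h1, h2⟩
  let A : ℕ → Finset α → Prop := fun k X =>
    2 * s < ‖f k X‖ ∧ ∀ j < k, ¬ 2 * s < ‖f j X‖
  let C : ℕ → Finset α → Prop := fun k X => ¬ s < ‖f m X - f k X‖
  have hAC : ∀ k ∈ range (m + 1), prob q S (A k) ≤ 2 * prob q S (fun X => A k X ∧ C k X) := by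
    intro k hk
    have hkm : k ≤ m := Nat.lt_succ_iff.1 (Finset.mem_range.1 hk)
    have hind : prob q S (fun X => A k X ∧ C k X) = prob q S (A k) * prob q S (C k) := by
      refine ott_indep (q := q) (T := (range k).biUnion B) (A := A k) (C := C k)
        (hsub k m hkm) ?_ ?_
      · intro X hX
        have h1 : ∀ j ≤ k, f j X = f j (X ∩ (range k).biUnion B) := fun j hj =>
          hloc' j k hj hkm X hX
        show (2 * s < ‖f k X‖ ∧ ∀ j < k, ¬ 2 * s < ‖f j X‖) ↔
          (2 * s < ‖f k (X ∩ (range k).biUnion B)‖ ∧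
            ∀ j < k, ¬ 2 * s < ‖f j (X ∩ (range k).biUnion B)‖)
        rw [← h1 k le_rfl]
        refine and_congr_right fun _ => forall_congr' fun j => imp_congr_right fun hj => ?_
        rw [← h1 j hj.le]
      · intro X hX
        show (¬ s < ‖f m X - f k X‖) ↔ (¬ s < ‖f m (X \ (range k).biUnion B) -
          f k (X \ (range k).biUnion B)‖)
        rw [hinc k hkm X hX]
    have h1 : prob q S (C k) = 1 - prob q S (fun X => s < ‖f m X - f k X‖) :=
      prob_not q S _
    have h2 := hs k hkm
    have h3 := prob_nonneg hq (A k)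
    rw [hind, h1]
    nlinarith
  calc prob q S (fun X => ∃ k ≤ m, 2 * s < ‖f k X‖)
      ≤ prob q S (fun X => ∃ k ∈ range (m + 1), A k X) := by
        refine prob_mono hq fun X _ h => ?_
        obtain ⟨h1, h2⟩ := Nat.find_spec h
        have h3 : ∀ j < Nat.find h, ¬ (j ≤ m ∧ 2 * s < ‖f j X‖) := fun j hj => Nat.find_min h hj
        refine ⟨Nat.find h, Finset.mem_range.2 (Nat.lt_succ_of_le h1), h2, fun j hj h4 => ?_⟩
        exact h3 j hj ⟨hj.le.trans h1, h4⟩
    _ ≤ ∑ k ∈ range (m + 1), prob q S (A k) := prob_exists_le hq _ _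
    _ ≤ ∑ k ∈ range (m + 1), 2 * prob q S (fun X => A k X ∧ C k X) := Finset.sum_le_sum hAC
    _ = 2 * bern q S (fun X => ∑ k ∈ range (m + 1), ind (A k X ∧ C k X)) := by
        rw [bern_sum, Finset.mul_sum]
        rfl
    _ ≤ 2 * prob q S (fun X => s < ‖f m X‖) := by
        refine mul_le_mul_of_nonneg_left ?_ (by norm_num)
        refine bern_mono hq fun X _ => ?_
        by_cases h : ∃ k ∈ range (m + 1), A k X ∧ C k X
        · obtain ⟨k, hk, h1, h2⟩ := h
          rw [Finset.sum_eq_single k]
          · refine ind_mono fun _ => ?_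
            have h3 : ‖f m X - f k X‖ ≤ s := not_lt.1 h2
            have h4 : ‖f k X‖ ≤ ‖f m X‖ + ‖f m X - f k X‖ := by
              have := norm_sub_le (f m X) (f m X - f k X)
              rwa [sub_sub_cancel] at this
            have h5 := h1.1
            linarith
          · intro j _ hjk
            refine ind_of_not ?_
            rintro ⟨h3, -⟩
            rcases lt_or_gt_of_ne hjk with h4 | h4
            · exact h1.2 j h4 h3.1
            · exact h3.2 k h4 h1.1
          · intro h3
            exact absurd hk h3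
        · push Not at h
          rw [Finset.sum_eq_zero]
          · exact ind_nonneg _
          · intro k hk
            refine ind_of_not ?_
            rintro ⟨h1, h2⟩
            exact h k hk h1 h2

end Pool.Agent.Helper67.GR
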