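import Pool.Agent.Helper67.GR.Bern

namespace Pool.Agent.Helper67.GR

theorem reg_open {n : ℝ} {P : Finset Pt} {a b Λ e : ℝ} (h : Reg n P a b Λ e)
    {c d θ : ℝ} (hc : a ≤ c) (hcd : c < d) (hd : d ≤ b) (h0 : 0 ≤ θ) (hΛ : θ ≤ Λ)
    (hn : θ ≤ n) :
    |((P.filter (fun v => c < v.1 ∧ v.1 < d ∧ v.2 ≤ θ)).card : ℝ) - θ * (d - c)| ≤ e := by
  set X : ℝ := ((P.filter (fun v => c < v.1 ∧ v.1 < d ∧ v.2 ≤ θ)).card : ℝ) with hX
  have hcont : Continuous (fun c' : ℝ => |X - θ * (d - c')|) := by fun_prop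
  have hlim : Filter.Tendsto (fun c' : ℝ => |X - θ * (d - c')|) (nhdsWithin c (Set.Ioi c))
      (nhds |X - θ * (d - c)|) := (hcont.tendsto c).mono_left nhdsWithin_le_nhds
  refine le_of_tendsto hlim ?_
  have e1 : ∀ᶠ c' in nhdsWithin c (Set.Ioi c), c < c' ∧ c' < d := Ioo_mem_nhdsGT hcd
  have e2 : ∀ᶠ c' in nhdsWithin c (Set.Ioi c), ∀ v ∈ P, c < v.1 → c' ≤ v.1 := by
    rw [Finset.eventually_all]
    intro v _
    by_cases hv : c < v.1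
    · have e3 : ∀ᶠ c' in nhdsWithin c (Set.Ioi c), c < c' ∧ c' < v.1 := Ioo_mem_nhdsGT hv
      filter_upwards [e3] with c' hc' _
      exact hc'.2.le
    · exact Filter.Eventually.of_forall fun c' h => absurd h hv
  filter_upwards [e1, e2] with c' h1 h2
  have h3 := h c' d θ (hc.trans h1.1.le) h1.2.le hd h0 hΛ hn
  have h4 : (cnt P c' d θ : ℝ) = X := by
    rw [hX]
    unfold cnt
    congr 2
    ext v
    simp only [Finset.mem_filter]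
    constructor
    · rintro ⟨h5, h6, h7, h8⟩
      exact ⟨h5, h1.1.trans_le h6, h7, h8⟩
    · rintro ⟨h5, h6, h7, h8⟩
      exact ⟨h5, h2 v h5 h6, h7, h8⟩
  rwa [h4] at h3

theorem reg_tol_nonneg {n : ℝ} {P : Finset Pt} {a b Λ e : ℝ} (h : Reg n P a b Λ e)
    (hab : a ≤ b) (hΛ : 0 ≤ Λ) (hn : 0 ≤ n) : 0 ≤ e :=
  (abs_nonneg _).trans (h a a 0 le_rfl le_rfl hab le_rfl hΛ hn)

theorem reg_exists {n : ℝ} {P : Finset Pt} {a b Λ e : ℝ} (h : Reg n P a b Λ e)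
    {c d θ : ℝ} (hc : a ≤ c) (hcd : c ≤ d) (hd : d ≤ b) (h0 : 0 ≤ θ) (hΛ : θ ≤ Λ)
    (hn : θ ≤ n) (hlt : e < θ * (d - c)) :
    ∃ v ∈ P, c ≤ v.1 ∧ v.1 < d ∧ v.2 ≤ θ := by
  have h1 := (abs_le.1 (h c d θ hc hcd hd h0 hΛ hn)).1
  have h2 : (0 : ℝ) < cnt P c d θ := by linarith
  have h3 : 0 < cnt P c d θ := by exact_mod_cast h2
  obtain ⟨v, hv⟩ := Finset.card_pos.1 h3
  simp only [Finset.mem_filter] at hv
  exact ⟨v, hv⟩

theorem reg_mono {n : ℝ} {P : Finset Pt} {a b Λ e a' b' Λ' e' : ℝ}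
    (h : Reg n P a b Λ e) (ha : a ≤ a') (hb : b' ≤ b) (hΛ : Λ' ≤ Λ) (he : e ≤ e') :
    Reg n P a' b' Λ' e' := fun c d θ h1 h2 h3 h4 h5 h6 =>
  (h c d θ (ha.trans h1) h2 (h3.trans hb) h4 (h5.trans hΛ) h6).trans he

private theorem regv_cnt_congr {P P' : Finset Pt} {a b c d θ : ℝ}
    (hPP : ∀ p : Pt, a ≤ p.1 → p.1 < b → (p ∈ P ↔ p ∈ P')) (hc : a ≤ c) (hd : d ≤ b) :
    cnt P c d θ = cnt P' c d θ := by
  unfold cnt
  congr 1
  ext v
  simp only [Finset.mem_filter]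
  constructor
  · rintro ⟨h1, h2, h3, h4⟩
    exact ⟨(hPP v (hc.trans h2) (h3.trans_le hd)).1 h1, h2, h3, h4⟩
  · rintro ⟨h1, h2, h3, h4⟩
    exact ⟨(hPP v (hc.trans h2) (h3.trans_le hd)).2 h1, h2, h3, h4⟩

/-- configurations agreeing on the strip `[a,b)` -/
theorem reg_congr {n : ℝ} {P P' : Finset Pt} {a b Λ e : ℝ}
    (hPP : ∀ p : Pt, a ≤ p.1 → p.1 < b → (p ∈ P ↔ p ∈ P')) :
    Reg n P a b Λ e ↔ Reg n P' a b Λ e := by
  constructor
  · intro h c d θ h1 h2 h3 h4 h5 h6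
    rw [← regv_cnt_congr hPP h1 h3]
    exact h c d θ h1 h2 h3 h4 h5 h6
  · intro h c d θ h1 h2 h3 h4 h5 h6
    rw [regv_cnt_congr hPP h1 h3]
    exact h c d θ h1 h2 h3 h4 h5 h6

/-- adding few points -/
theorem reg_union {n : ℝ} {P Q : Finset Pt} {a b Λ e : ℝ} (h : Reg n P a b Λ e) :
    Reg n (P ∪ Q) a b Λ (e + Q.card) := by
  intro c d θ h1 h2 h3 h4 h5 h6
  have h7 := abs_le.1 (h c d θ h1 h2 h3 h4 h5 h6)
  have h8 : cnt P c d θ ≤ cnt (P ∪ Q) c d θ := by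
    unfold cnt
    exact Finset.card_le_card (Finset.filter_subset_filter _ Finset.subset_union_left)
  have h9 : cnt (P ∪ Q) c d θ ≤ cnt P c d θ + Q.card := by
    unfold cnt
    rw [Finset.filter_union]
    refine (Finset.card_union_le _ _).trans ?_
    have := Finset.card_filter_le Q (fun v => c ≤ v.1 ∧ v.1 < d ∧ v.2 ≤ θ)
    omega
  have h8' : (cnt P c d θ : ℝ) ≤ cnt (P ∪ Q) c d θ := by exact_mod_cast h8
  have h9' : (cnt (P ∪ Q) c d θ : ℝ) ≤ cnt P c d θ + Q.card := by exact_mod_cast h9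
  have h10 : (0 : ℝ) ≤ Q.card := Nat.cast_nonneg _
  rw [abs_le]
  constructor <;> linarith [h7.1, h7.2]

private theorem regv_cnt_add (P : Finset Pt) {c b d : ℝ} (θ : ℝ) (hcb : c ≤ b) (hbd : b ≤ d) :
    cnt P c d θ = cnt P c b θ + cnt P b d θ := by
  unfold cnt
  rw [← Finset.card_union_of_disjoint]
  · congr 1
    ext v
    simp only [Finset.mem_filter, Finset.mem_union]
    constructor
    · rintro ⟨h1, h2, h3, h4⟩
      rcases lt_or_ge v.1 b with h5 | h5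
      · exact Or.inl ⟨h1, h2, h5, h4⟩
      · exact Or.inr ⟨h1, h5, h3, h4⟩
    · rintro (⟨h1, h2, h3, h4⟩ | ⟨h1, h2, h3, h4⟩)
      · exact ⟨h1, h2, h3.trans_le hbd, h4⟩
      · exact ⟨h1, hcb.trans h2, h3, h4⟩
  · rw [Finset.disjoint_left]
    intro v hv hv'
    simp only [Finset.mem_filter] at hv hv'
    exact absurd hv.2.2.1 (not_lt.2 hv'.2.1)

/-- gluing -/
theorem reg_glue {n : ℝ} {P : Finset Pt} {a b c Λ e e' : ℝ} (h : Reg n P a b Λ e)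
    (h' : Reg n P b c Λ e') (hab : a ≤ b) (hbc : b ≤ c) (hΛ : 0 ≤ Λ) (hn : 0 ≤ n) :
    Reg n P a c Λ (e + e') := by
  have he := reg_tol_nonneg h hab hΛ hn
  have he' := reg_tol_nonneg h' hbc hΛ hn
  intro c₁ d₁ θ h1 h2 h3 h4 h5 h6
  rcases le_total d₁ b with h7 | h7
  · exact (h c₁ d₁ θ h1 h2 h7 h4 h5 h6).trans (by linarith)
  · rcases le_total b c₁ with h8 | h8
    · exact (h' c₁ d₁ θ h8 h2 h3 h4 h5 h6).trans (by linarith)
    · have h9 := abs_le.1 (h c₁ b θ h1 h8 le_rfl h4 h5 h6)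
      have h10 := abs_le.1 (h' b d₁ θ le_rfl h7 h3 h4 h5 h6)
      rw [regv_cnt_add P θ h8 h7, abs_le]
      push_cast
      have h11 : θ * (d₁ - c₁) = θ * (b - c₁) + θ * (d₁ - b) := by ring
      rw [h11]
      constructor <;> linarith [h9.1, h9.2, h10.1, h10.2]

theorem rr_reg {n : ℝ} {P : Finset Pt} {a b Λ e : ℝ} (h : Reg n P a b Λ e) {w : Pt}
    {z : ℝ} (hw : a ≤ w.1) (hwz : w.1 ≤ z) (hz : z ≤ b) (h0 : 0 ≤ w.2) (hΛ : w.2 ≤ Λ)
    (hn : w.2 ≤ n) :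
    |(Rr P w z : ℝ) - w.2 * (z - w.1)| ≤ e := by
  rcases lt_or_eq_of_le hwz with h1 | h1
  · have h2 := reg_open h hw h1 hz h0 hΛ hn
    have h3 : Rr P w z = (P.filter (fun v => w.1 < v.1 ∧ v.1 < z ∧ v.2 ≤ w.2)).card := by
      unfold Rr
      congr 1
      ext v
      simp only [Finset.mem_filter]
      tauto
    rw [h3]
    exact h2
  · have h2 : Rr P w z = 0 := by
      unfold Rr
      rw [Finset.card_eq_zero, Finset.filter_eq_empty_iff]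
      intro v _ h3
      linarith [h3.2.1, h3.2.2]
    have h3 : 0 ≤ e :=
      (abs_nonneg _).trans (h w.1 w.1 w.2 hw le_rfl (hwz.trans hz) h0 hΛ hn)
    rw [h2, h1]
    simpa using h3

end Pool.Agent.Helper67.GR
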