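import Pool.Agent.Helper67.GR.Fld
import Pool.Agent.Helper67.GR.Ott
import Pool.Agent.Helper67.GR.RegV
import Pool.Agent.Helper67.GR.Mom

namespace Pool.Agent.Helper67.GR

open Finset

section general_KS

variable {α : Type*} [DecidableEq α]

/-- centred count -/
noncomputable def cc_KS (q : α → ℝ) (S X : Finset α) (φ : α → Prop) [DecidablePred φ] : ℝ :=
  ((X.filter φ).card : ℝ) - ∑ v ∈ S.filter φ, q v

omit [DecidableEq α] in
theorem cc_sub_KS {q : α → ℝ} {S X : Finset α} (hX : X ⊆ S) (φ ψ χ : α → Prop)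
    [DecidablePred φ] [DecidablePred ψ] [DecidablePred χ]
    (h1 : ∀ v ∈ S, (ψ v ↔ φ v ∨ χ v)) (h2 : ∀ v ∈ S, φ v → ¬ χ v) :
    cc_KS q S X ψ - cc_KS q S X φ = cc_KS q S X χ := by
  classical
  have hfil : ∀ Y : Finset α, Y ⊆ S → Y.filter ψ = Y.filter φ ∪ Y.filter χ := by
    intro Y hY
    ext v
    simp only [mem_filter, mem_union]
    constructor
    · rintro ⟨hv, hp⟩
      rcases (h1 v (hY hv)).1 hp with h | h
      · exact Or.inl ⟨hv, h⟩
      · exact Or.inr ⟨hv, h⟩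
    · rintro (⟨hv, h⟩ | ⟨hv, h⟩)
      · exact ⟨hv, (h1 v (hY hv)).2 (Or.inl h)⟩
      · exact ⟨hv, (h1 v (hY hv)).2 (Or.inr h)⟩
  have hdis : ∀ Y : Finset α, Y ⊆ S → Disjoint (Y.filter φ) (Y.filter χ) := by
    intro Y hY
    rw [Finset.disjoint_left]
    intro v hv hv'
    rw [mem_filter] at hv hv'
    exact h2 v (hY hv.1) hv.2 hv'.2
  unfold cc_KS
  rw [hfil X hX, hfil S (Finset.Subset.refl S), card_union_of_disjoint (hdis X hX),
    sum_union (hdis S (Finset.Subset.refl S))]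
  push_cast
  ring

omit [DecidableEq α] in
theorem cc_congr_KS {q : α → ℝ} {S X Y : Finset α} (φ : α → Prop) [DecidablePred φ]
    (h : X.filter φ = Y.filter φ) : cc_KS q S X φ = cc_KS q S Y φ := by
  unfold cc_KS
  rw [h]

theorem cheb_KS {q : α → ℝ} {S : Finset α} (hq : Pq q S) (φ : α → Prop) [DecidablePred φ]
    {s : ℝ} (hs : 0 < s) :
    prob q S (fun X => s < |cc_KS q S X φ|) ≤ (∑ v ∈ S, q v) / s ^ 2 := by
  refine le_trans (prob_mono hq (B := fun X => s ≤ |((X.filter φ).card : ℝ) -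
    ∑ v ∈ S.filter φ, q v|) ?_) ((prob_cheb hq φ hs).trans ?_)
  · intro X _ h
    exact h.le
  · refine div_le_div_of_nonneg_right ?_ (sq_nonneg s)
    exact Finset.sum_le_sum_of_subset_of_nonneg (Finset.filter_subset _ _)
      (fun v hv _ => (hq v hv).1)

theorem biUnion_KS (S : Finset α) (rk : α → ℕ) (k : ℕ) :
    (range k).biUnion (fun i => S.filter (fun v => rk v = i)) =
      S.filter (fun v => rk v < k) := by
  ext v
  simp only [mem_biUnion, mem_range, mem_filter]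
  constructor
  · rintro ⟨i, hi, hv, rfl⟩
    exact ⟨hv, hi⟩
  · rintro ⟨hv, hk⟩
    exact ⟨rk v, hk, hv, rfl⟩

theorem rows_KS {q : α → ℝ} {S : Finset α} (hq : Pq q S) (φ : α → Prop) [DecidablePred φ]
    (rk : α → ℕ) (r : ℕ) (hr : ∀ v ∈ S, rk v < r) {s : ℝ} (hs : 0 < s)
    (hmu : ∑ v ∈ S, q v ≤ s ^ 2 / 2) :
    prob q S (fun X => ∃ j ≤ r, 2 * s < |cc_KS q S X (fun v => φ v ∧ rk v < j)|) ≤
      2 * ((∑ v ∈ S, q v) / s ^ 2) := by
  have hS : (range r).biUnion (fun i => S.filter (fun v => rk v = i)) = S := by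
    rw [biUnion_KS]
    exact Finset.filter_true_of_mem hr
  have hsub : ∀ k : ℕ, ∀ X ⊆ S, cc_KS q S X (fun v => φ v ∧ rk v < r) -
      cc_KS q S X (fun v => φ v ∧ rk v < k) =
      if k ≤ r then cc_KS q S X (fun v => φ v ∧ k ≤ rk v) else
        cc_KS q S X (fun v => φ v ∧ rk v < r) - cc_KS q S X (fun v => φ v ∧ rk v < k) := by
    intro k X hX
    split_ifs with hk
    · refine cc_sub_KS hX _ _ _ ?_ ?_
      · intro v hv
        have := hr v hv
        constructor
        · rintro ⟨h, _⟩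
          rcases lt_or_ge (rk v) k with h' | h'
          · exact Or.inl ⟨h, h'⟩
          · exact Or.inr ⟨h, h'⟩
        · rintro (⟨h, _⟩ | ⟨h, _⟩)
          · exact ⟨h, this⟩
          · exact ⟨h, this⟩
      · rintro v hv ⟨_, h⟩ ⟨_, h'⟩
        omega
    · rfl
  have hd : ∀ i j, i ≠ j → Disjoint (S.filter (fun v => rk v = i))
      (S.filter (fun v => rk v = j)) := by
    intro i j hij
    rw [Finset.disjoint_left]
    intro v hv hv'
    rw [mem_filter] at hv hv'
    exact hij (hv.2.symm.trans hv'.2)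
  have key := ottaviani (q := q) (E := ℝ) r (fun i => S.filter (fun v => rk v = i)) hd
    (by rw [hS]; exact hq) (fun j X => cc_KS q S X (fun v => φ v ∧ rk v < j))
    (by
      intro k hk X hX
      rw [hS] at hX
      rw [biUnion_KS]
      refine cc_congr_KS _ ?_
      ext v
      simp only [mem_filter, mem_inter]
      constructor
      · rintro ⟨hv, h1, h2⟩
        exact ⟨⟨hv, hX hv, h2⟩, h1, h2⟩
      · rintro ⟨⟨hv, _, _⟩, h1, h2⟩
        exact ⟨hv, h1, h2⟩)
    (by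
      intro k hk X hX
      rw [hS] at hX
      rw [biUnion_KS]
      have e1 := hsub k X hX
      have e2 := hsub k (X \ S.filter (fun v => rk v < k))
        (Finset.sdiff_subset.trans hX)
      rw [if_pos hk] at e1 e2
      rw [e1, e2]
      refine cc_congr_KS _ ?_
      ext v
      simp only [mem_filter, mem_sdiff]
      constructor
      · rintro ⟨hv, h1, h2⟩
        exact ⟨⟨hv, fun h => absurd h.2 (not_lt.2 h2)⟩, h1, h2⟩
      · rintro ⟨⟨hv, _⟩, h1, h2⟩
        exact ⟨hv, h1, h2⟩) s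
    (by
      intro k hk
      rw [hS]
      refine le_trans (prob_mono hq (B := fun X => s < |cc_KS q S X
        (fun v => φ v ∧ k ≤ rk v)|) ?_) ((cheb_KS hq _ hs).trans ?_)
      · intro X hX h
        have e1 := hsub k X hX
        rw [if_pos hk] at e1
        simp only [e1, Real.norm_eq_abs] at h
        exact h
      · rw [div_le_iff₀ (by positivity)]
        linarith)
  rw [hS] at key
  refine key.trans ?_
  refine mul_le_mul_of_nonneg_left ?_ (by norm_num)
  exact cheb_KS hq _ hs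

theorem norm_lt_KS {r : ℕ} (g : Fin (r + 1) → ℝ) {s : ℝ} (hs : 0 ≤ s) :
    s < ‖g‖ ↔ ∃ i, s < |g i| := by
  rw [← not_le, pi_norm_le_iff_of_nonneg hs]
  push Not
  exact Iff.rfl

theorem cols_KS {q : α → ℝ} {S : Finset α} (hq : Pq q S) (rk1 rk2 : α → ℕ) (m r : ℕ)
    (hm : ∀ v ∈ S, rk1 v < m) (hr : ∀ v ∈ S, rk2 v < r) {s : ℝ} (hs : 0 < s)
    (hmu : ∑ v ∈ S, q v ≤ s ^ 2 / 4) :
    prob q S (fun X => ∃ k ≤ m, ∃ j ≤ r, 4 * s <
      |cc_KS q S X (fun v => rk1 v < k ∧ rk2 v < j)|) ≤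
      4 * ((∑ v ∈ S, q v) / s ^ 2) := by
  have hS : (range m).biUnion (fun i => S.filter (fun v => rk1 v = i)) = S := by
    rw [biUnion_KS]
    exact Finset.filter_true_of_mem hm
  have hmu0 : 0 ≤ ∑ v ∈ S, q v := Finset.sum_nonneg (fun v hv => (hq v hv).1)
  have hsub : ∀ k ≤ m, ∀ j : ℕ, ∀ X ⊆ S, cc_KS q S X (fun v => rk1 v < m ∧ rk2 v < j) -
      cc_KS q S X (fun v => rk1 v < k ∧ rk2 v < j) =
      cc_KS q S X (fun v => k ≤ rk1 v ∧ rk2 v < j) := by
    intro k hk j X hX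
    refine cc_sub_KS hX _ _ _ ?_ ?_
    · intro v hv
      have := hm v hv
      constructor
      · rintro ⟨_, h⟩
        rcases lt_or_ge (rk1 v) k with h' | h'
        · exact Or.inl ⟨h', h⟩
        · exact Or.inr ⟨h', h⟩
      · rintro (⟨_, h⟩ | ⟨_, h⟩)
        · exact ⟨this, h⟩
        · exact ⟨this, h⟩
    · rintro v hv ⟨h, _⟩ ⟨h', _⟩
      omega
  have hd : ∀ i j, i ≠ j → Disjoint (S.filter (fun v => rk1 v = i))
      (S.filter (fun v => rk1 v = j)) := by
    intro i j hij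
    rw [Finset.disjoint_left]
    intro v hv hv'
    rw [mem_filter] at hv hv'
    exact hij (hv.2.symm.trans hv'.2)
  have hmu2 : ∑ v ∈ S, q v ≤ s ^ 2 / 2 := by nlinarith [sq_nonneg s]
  have key := ottaviani (q := q) (E := Fin (r + 1) → ℝ) m
    (fun i => S.filter (fun v => rk1 v = i)) hd
    (by rw [hS]; exact hq)
    (fun k X (j : Fin (r + 1)) => cc_KS q S X (fun v => rk1 v < k ∧ rk2 v < (j : ℕ)))
    (by
      intro k hk X hX
      rw [hS] at hX
      rw [biUnion_KS]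
      funext j
      refine cc_congr_KS _ ?_
      ext v
      simp only [mem_filter, mem_inter]
      constructor
      · rintro ⟨hv, h1, h2⟩
        exact ⟨⟨hv, hX hv, h1⟩, h1, h2⟩
      · rintro ⟨⟨hv, _, _⟩, h1, h2⟩
        exact ⟨hv, h1, h2⟩)
    (by
      intro k hk X hX
      rw [hS] at hX
      rw [biUnion_KS]
      funext j
      simp only [Pi.sub_apply]
      rw [hsub k hk j X hX, hsub k hk j (X \ S.filter (fun v => rk1 v < k))
        (Finset.sdiff_subset.trans hX)]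
      refine cc_congr_KS _ ?_
      ext v
      simp only [mem_filter, mem_sdiff]
      constructor
      · rintro ⟨hv, h1, h2⟩
        exact ⟨⟨hv, fun h => absurd h.2 (not_lt.2 h1)⟩, h1, h2⟩
      · rintro ⟨⟨hv, _⟩, h1, h2⟩
        exact ⟨hv, h1, h2⟩) (2 * s)
    (by
      intro k hk
      rw [hS]
      refine le_trans (prob_mono hq (B := fun X => ∃ j ≤ r, 2 * s < |cc_KS q S X
        (fun v => k ≤ rk1 v ∧ rk2 v < j)|) ?_) ((rows_KS hq _ rk2 r hr hs hmu2).trans ?_)
      · intro X hX h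
        rw [norm_lt_KS _ (by positivity)] at h
        obtain ⟨j, hj⟩ := h
        refine ⟨j, Nat.lt_succ_iff.1 j.2, ?_⟩
        rw [← hsub k hk j X hX]
        exact hj
      · rw [← le_div_iff₀' (by norm_num : (0 : ℝ) < 2), div_le_iff₀ (by positivity)]
        linarith)
  rw [hS] at key
  refine le_trans (prob_mono hq ?_) (key.trans ?_)
  · rintro X hX ⟨k, hk, j, hj, h⟩
    refine ⟨k, hk, ?_⟩
    rw [norm_lt_KS _ (by positivity)]
    refine ⟨⟨j, Nat.lt_succ_iff.2 hj⟩, ?_⟩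
    simpa only [show (2 : ℝ) * (2 * s) = 4 * s by ring] using h
  · have h2 : prob q S (fun X => 2 * s < ‖(fun (j : Fin (r + 1)) =>
        cc_KS q S X (fun v => rk1 v < m ∧ rk2 v < (j : ℕ)))‖) ≤
        2 * ((∑ v ∈ S, q v) / s ^ 2) := by
      refine le_trans (prob_mono hq (B := fun X => ∃ j ≤ r, 2 * s < |cc_KS q S X
        (fun v => rk1 v < m ∧ rk2 v < j)|) ?_) (rows_KS hq _ rk2 r hr hs hmu2)
      intro X hX h
      rw [norm_lt_KS _ (by positivity)] at h
      obtain ⟨j, hj⟩ := h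
      exact ⟨j, Nat.lt_succ_iff.1 j.2, hj⟩
    linarith

theorem cols2_KS {q : α → ℝ} {S : Finset α} (hq : Pq q S) (rk1 rk2 : α → ℕ) (m r : ℕ)
    (hm : ∀ v ∈ S, rk1 v < m) (hr : ∀ v ∈ S, rk2 v < r) {s : ℝ} (hs : 0 < s) :
    prob q S (fun X => ∃ k ≤ m, ∃ j ≤ r, 4 * s <
      |cc_KS q S X (fun v => rk1 v < k ∧ rk2 v < j)|) ≤
      4 * ((∑ v ∈ S, q v) / s ^ 2) := by
  rcases le_or_gt (∑ v ∈ S, q v) (s ^ 2 / 4) with h | h
  · exact cols_KS hq rk1 rk2 m r hm hr hs h
  · refine (prob_le_one hq _).trans ?_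
    rw [← div_le_iff₀' (by norm_num : (0 : ℝ) < 4), le_div_iff₀ (by positivity)]
    linarith

end general_KS

/-- rank of a real number among the elements of a finite set -/
noncomputable def rk_KS (S : Finset ℝ) (x : ℝ) : ℕ := (S.filter (fun y => y < x)).card

theorem rk_lt_KS {S : Finset ℝ} {x : ℝ} (hx : x ∈ S) : rk_KS S x < S.card := by
  unfold rk_KS
  refine Finset.card_lt_card ?_
  rw [Finset.ssubset_iff_of_subset (Finset.filter_subset _ _)]
  exact ⟨x, hx, by simp⟩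

theorem lt_iff_KS {S : Finset ℝ} {x c : ℝ} (hx : x ∈ S) :
    x < c ↔ rk_KS S x < (S.filter (fun y => y < c)).card := by
  unfold rk_KS
  constructor
  · intro h
    refine Finset.card_lt_card ?_
    rw [Finset.ssubset_iff_of_subset]
    · exact ⟨x, Finset.mem_filter.2 ⟨hx, h⟩, by simp⟩
    · intro y hy
      rw [Finset.mem_filter] at hy ⊢
      exact ⟨hy.1, hy.2.trans h⟩
  · intro h
    by_contra hc
    push Not at hc
    refine absurd h (not_lt.2 (Finset.card_le_card ?_))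
    intro y hy
    rw [Finset.mem_filter] at hy ⊢
    exact ⟨hy.1, lt_of_lt_of_le hy.2 hc⟩

theorem le_iff_KS {S : Finset ℝ} {x c : ℝ} (hx : x ∈ S) :
    x ≤ c ↔ rk_KS S x < (S.filter (fun y => y ≤ c)).card := by
  unfold rk_KS
  constructor
  · intro h
    refine Finset.card_lt_card ?_
    rw [Finset.ssubset_iff_of_subset]
    · exact ⟨x, Finset.mem_filter.2 ⟨hx, h⟩, by simp⟩
    · intro y hy
      rw [Finset.mem_filter] at hy ⊢
      exact ⟨hy.1, hy.2.le.trans h⟩
  · intro h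
    by_contra hc
    push Not at hc
    refine absurd h (not_lt.2 (Finset.card_le_card ?_))
    intro y hy
    rw [Finset.mem_filter] at hy ⊢
    exact ⟨hy.1, lt_of_le_of_lt hy.2 hc⟩

/-- Chebyshev type bound for irregularity (no logarithm lost) -/
theorem reg_cheb : ∃ C : ℝ, 0 < C ∧ ∀ (G : Grid) (a b Λ e : ℝ), -(1/2) ≤ a → a ≤ b →
    b ≤ 1/2 → 0 ≤ Λ → 0 < e →
    G.pr a b (fun Y => ¬ Reg G.n Y a b Λ e) ≤ C * (Λ * (b - a) + 1) / e ^ 2 := by
  refine ⟨1024, by norm_num, ?_⟩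
  intro G a b Λ e ha hab hb hΛ he
  rcases lt_or_ge e 2 with he2 | he2
  · refine (pr_le_one G a b _).trans ?_
    rw [le_div_iff₀ (by positivity)]
    have h1 : 0 ≤ Λ * (b - a) := mul_nonneg hΛ (by linarith)
    nlinarith
  set L : ℝ := min Λ G.n with hL
  have hn1 := G.n_one
  have hL0 : 0 ≤ L := le_min hΛ (by linarith)
  have hLn : L ≤ G.n := min_le_right _ _
  have hLΛ : L ≤ Λ := min_le_left _ _
  set q : Pt → ℝ := fun _ => G.p with hq
  set S : Finset Pt := G.fld a b with hS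
  set T : Finset Pt := S.filter (fun v => v.2 ≤ L) with hT
  have hpqS : Pq q S := fld_pq G a b
  have hTS : T ⊆ S := Finset.filter_subset _ _
  have hpqT : Pq q T := hpqS.mono hTS
  set S1 : Finset ℝ := G.Xs.filter (fun x => a ≤ x ∧ x < b) with hS1
  set T1 : Finset ℝ := G.Ts.filter (fun t => t ≤ L) with hT1
  have hT1m : ∀ v ∈ T, v.1 ∈ S1 ∧ v.2 ∈ T1 := by
    intro v hv
    rw [hT, Finset.mem_filter, hS, mem_fld] at hv
    obtain ⟨⟨h1, h2, h3, h4⟩, h5⟩ := hv
    exact ⟨Finset.mem_filter.2 ⟨h1, h3, h4⟩, Finset.mem_filter.2 ⟨h2, h5⟩⟩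
  set A : Finset Pt → Prop := fun X => ∃ k ≤ S1.card, ∃ j ≤ T1.card, 4 * (e / 16) <
      |cc_KS q T (X ∩ T) (fun v => rk_KS S1 v.1 < k ∧ rk_KS T1 v.2 < j)| with hA
  have hmarg : prob q S A = prob q T A := by
    unfold prob
    refine bern_marginal q hTS ?_
    intro X _
    refine ind_congr ?_
    simp only [hA]
    rw [Finset.inter_assoc, Finset.inter_self]
  have hPT : prob q T A ≤ 4 * ((∑ v ∈ T, q v) / (e / 16) ^ 2) := by
    refine le_trans (prob_mono hpqT (B := fun X => ∃ k ≤ S1.card, ∃ j ≤ T1.card,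
      4 * (e / 16) < |cc_KS q T X (fun v => rk_KS S1 v.1 < k ∧ rk_KS T1 v.2 < j)|) ?_)
      (cols2_KS hpqT (fun v => rk_KS S1 v.1) (fun v => rk_KS T1 v.2) S1.card T1.card
        (fun v hv => rk_lt_KS (hT1m v hv).1) (fun v hv => rk_lt_KS (hT1m v hv).2)
        (by positivity))
    intro X hX h
    simp only [hA] at h
    rw [Finset.inter_eq_left.2 hX] at h
    exact h
  have hmu : ∑ v ∈ T, q v ≤ Λ * (b - a) + 1 := by
    have h1 := mean_le G a b L ha hab hb hL0 hLn
    have h2 := (abs_le.1 h1).2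
    have h3 := G.κ_le
    have h4 : L * (b - a) ≤ Λ * (b - a) := mul_le_mul_of_nonneg_right hLΛ (by linarith)
    have h5 : ∑ v ∈ T, q v = ∑ _v ∈ (G.fld a b).filter (fun v => v.2 ≤ L), G.p := rfl
    rw [h5]
    linarith
  have hfin : prob q S A ≤ 1024 * (Λ * (b - a) + 1) / e ^ 2 := by
    rw [hmarg]
    refine hPT.trans ?_
    have e1 : 4 * ((∑ v ∈ T, q v) / (e / 16) ^ 2) = 1024 * (∑ v ∈ T, q v) / e ^ 2 := by
      field_simp
      ring
    rw [e1]
    refine div_le_div_of_nonneg_right ?_ (sq_nonneg e)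
    linarith
  refine le_trans (prob_mono hpqS ?_) hfin
  intro X hX hreg
  by_contra hcon
  refine hreg ?_
  -- centred counts of rectangles starting at `a`
  have hN : ∀ c θ : ℝ, a ≤ c → c ≤ b → 0 ≤ θ → θ ≤ L →
      |(cnt X a c θ : ℝ) - G.p * (G.Xs.filter (fun x => a ≤ x ∧ x < c)).card *
        (G.Ts.filter (fun t => t ≤ θ)).card| ≤ e / 4 := by
    intro c θ hac hcb h0 hθ
    by_contra hlt
    push Not at hlt
    refine hcon ?_
    refine ⟨(S1.filter (fun y => y < c)).card, Finset.card_filter_le _ _,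
      (T1.filter (fun y => y ≤ θ)).card, Finset.card_filter_le _ _, ?_⟩
    have e1 : (X ∩ T).filter (fun v => rk_KS S1 v.1 < (S1.filter (fun y => y < c)).card ∧
        rk_KS T1 v.2 < (T1.filter (fun y => y ≤ θ)).card) =
        X.filter (fun v => a ≤ v.1 ∧ v.1 < c ∧ v.2 ≤ θ) := by
      ext v
      simp only [Finset.mem_filter, Finset.mem_inter]
      constructor
      · rintro ⟨⟨hv, hvT⟩, h1, h2⟩
        obtain ⟨g1, g2⟩ := hT1m v hvT
        rw [← lt_iff_KS g1] at h1
        rw [← le_iff_KS g2] at h2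
        exact ⟨hv, (Finset.mem_filter.1 g1).2.1, h1, h2⟩
      · rintro ⟨hv, h1, h2, h3⟩
        have hvT : v ∈ T := by
          rw [hT, Finset.mem_filter]
          exact ⟨hX hv, h3.trans hθ⟩
        obtain ⟨g1, g2⟩ := hT1m v hvT
        exact ⟨⟨hv, hvT⟩, (lt_iff_KS g1).1 h2, (le_iff_KS g2).1 h3⟩
    have e2 : T.filter (fun v => rk_KS S1 v.1 < (S1.filter (fun y => y < c)).card ∧
        rk_KS T1 v.2 < (T1.filter (fun y => y ≤ θ)).card) =
        (G.Xs.filter (fun x => a ≤ x ∧ x < c)) ×ˢ (G.Ts.filter (fun t => t ≤ θ)) := by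
      ext v
      simp only [Finset.mem_filter, Finset.mem_product]
      constructor
      · rintro ⟨hvT, h1, h2⟩
        obtain ⟨g1, g2⟩ := hT1m v hvT
        rw [← lt_iff_KS g1] at h1
        rw [← le_iff_KS g2] at h2
        exact ⟨⟨(Finset.mem_filter.1 g1).1, (Finset.mem_filter.1 g1).2.1, h1⟩,
          (Finset.mem_filter.1 g2).1, h2⟩
      · rintro ⟨⟨h1, h2, h3⟩, h4, h5⟩
        have hvT : v ∈ T := by
          rw [hT, Finset.mem_filter, hS, mem_fld]
          exact ⟨⟨h1, h4, h2, lt_of_lt_of_le h3 hcb⟩, h5.trans hθ⟩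
        obtain ⟨g1, g2⟩ := hT1m v hvT
        exact ⟨hvT, (lt_iff_KS g1).1 h3, (le_iff_KS g2).1 h5⟩
    have e3 : cc_KS q T (X ∩ T) (fun v => rk_KS S1 v.1 < (S1.filter (fun y => y < c)).card ∧
        rk_KS T1 v.2 < (T1.filter (fun y => y ≤ θ)).card) =
        (cnt X a c θ : ℝ) - G.p * (G.Xs.filter (fun x => a ≤ x ∧ x < c)).card *
        (G.Ts.filter (fun t => t ≤ θ)).card := by
      unfold cc_KS
      rw [e1, e2, hq, Finset.sum_const, Finset.card_product, nsmul_eq_mul]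
      unfold cnt
      push_cast
      ring
    rw [e3]
    have e4 : 4 * (e / 16) = e / 4 := by ring
    rw [e4]
    exact hlt
  intro c d θ hac hcd hdb h0 hθΛ hθn
  have hθL : θ ≤ L := le_min hθΛ hθn
  have h1 := hN c θ hac (hcd.trans hdb) h0 hθL
  have h2 := hN d θ (hac.trans hcd) hdb h0 hθL
  have h3 := G.dens c d θ (ha.trans hac) hcd (hdb.trans hb) h0 hθn
  have hκ := G.κ_le
  have c1 : (cnt X a d θ : ℝ) = cnt X a c θ + cnt X c d θ := by
    have : cnt X a d θ = cnt X a c θ + cnt X c d θ := by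
      unfold cnt
      rw [← Finset.card_union_of_disjoint]
      · congr 1
        ext v
        simp only [Finset.mem_filter, Finset.mem_union]
        constructor
        · rintro ⟨hv, g1, g2, g3⟩
          rcases lt_or_ge v.1 c with g | g
          · exact Or.inl ⟨hv, g1, g, g3⟩
          · exact Or.inr ⟨hv, g, g2, g3⟩
        · rintro (⟨hv, g1, g2, g3⟩ | ⟨hv, g1, g2, g3⟩)
          · exact ⟨hv, g1, lt_of_lt_of_le g2 hcd, g3⟩
          · exact ⟨hv, hac.trans g1, g2, g3⟩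
      · rw [Finset.disjoint_left]
        intro v hv hv'
        rw [Finset.mem_filter] at hv hv'
        exact absurd hv.2.2.1 (not_lt.2 hv'.2.1)
    rw [this]
    push_cast
    ring
  have c2 : ((G.Xs.filter (fun x => a ≤ x ∧ x < d)).card : ℝ) =
      (G.Xs.filter (fun x => a ≤ x ∧ x < c)).card +
      (G.Xs.filter (fun x => c ≤ x ∧ x < d)).card := by
    have : (G.Xs.filter (fun x => a ≤ x ∧ x < d)).card =
      (G.Xs.filter (fun x => a ≤ x ∧ x < c)).card +
      (G.Xs.filter (fun x => c ≤ x ∧ x < d)).card := by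
      rw [← Finset.card_union_of_disjoint]
      · congr 1
        ext v
        simp only [Finset.mem_filter, Finset.mem_union]
        constructor
        · rintro ⟨hv, g1, g2⟩
          rcases lt_or_ge v c with g | g
          · exact Or.inl ⟨hv, g1, g⟩
          · exact Or.inr ⟨hv, g, g2⟩
        · rintro (⟨hv, g1, g2⟩ | ⟨hv, g1, g2⟩)
          · exact ⟨hv, g1, lt_of_lt_of_le g2 hcd⟩
          · exact ⟨hv, hac.trans g1, g2⟩
      · rw [Finset.disjoint_left]
        intro v hv hv'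
        rw [Finset.mem_filter] at hv hv'
        exact absurd hv.2.2 (not_lt.2 hv'.2.1)
    rw [this]
    push_cast
    ring
  rw [c1, c2] at h2
  rw [abs_le] at h1 h2 h3 ⊢
  constructor <;> nlinarith [h1.1, h1.2, h2.1, h2.2, h3.1, h3.2]

end Pool.Agent.Helper67.GR
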