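import Pool.Agent.Helper67.GR.Local

namespace Pool.Agent.Helper67.GR

/-- `q` is the farthest older neighbour of `u` to the right, it lies beyond the middle of
`[u.1, z]`, and more than `K` points at most as old as `u` lie between `u` and `z` -/
def LandO (K : ℕ) (P : Finset Pt) (u : Pt) (z : ℝ) (q : Pt) : Prop :=
  q ∈ P ∧ q.2 ≤ u.2 ∧ (u.1 + z) / 2 ≤ q.1 ∧ K < Rr P u z ∧ bc ld P u (q.1 - u.1) ≤ K ∧
    ∀ v ∈ P, v.2 ≤ u.2 → bc ld P u (v.1 - u.1) ≤ K →
      v.1 < q.1 ∨ (v.1 = q.1 ∧ q.2 ≤ v.2)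

variable {K : ℕ} {P : Finset Pt} {u q v : Pt} {z : ℝ}

theorem ea (hR : K < Rr P u z) (hadj : adj ld K P u v) (hv : (u.1 + z) / 2 ≤ v.1) :
    adjO ld K P u v := by
  rcases hadj with h | h
  · exact h
  · exfalso
    obtain ⟨_, h2, h3⟩ := h
    have huz : u.1 < z := rr_pos_lt hR
    have huv : u.1 < v.1 := by linarith
    have hle : Rr P u z ≤ bc ld P v (ld v.1 u.1) := by
      unfold Rr bc
      refine Finset.card_le_card ?_
      intro p hp
      rw [Finset.mem_filter] at hp ⊢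
      obtain ⟨hpP, hp2, hp1, hpz⟩ := hp
      refine ⟨hpP, hp2.trans h2, ?_⟩
      unfold ld
      rw [abs_of_pos (by linarith : (0 : ℝ) < v.1 - u.1), abs_lt]
      constructor <;> linarith
    omega

theorem landO_adjO_Land (hz : u.1 < z) (h2 : q.2 ≤ u.2) (h3 : (u.1 + z) / 2 ≤ q.1)
    (h5 : bc ld P u (q.1 - u.1) ≤ K) : adjO ld K P u q := by
  have huq : u.1 < q.1 := by linarith
  refine ⟨?_, h2, ?_⟩
  · intro h
    rw [h] at huq
    exact lt_irrefl _ huq
  · have : ld u.1 q.1 = q.1 - u.1 := by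
      unfold ld
      rw [abs_sub_comm, abs_of_pos (by linarith)]
    rw [this]
    exact h5

theorem land_step (hz : z ≤ 0) (h : LandO K P u z q) :
    Step ld K P u q ∧ u.1 < q.1 ∧ q.1 < z := by
  obtain ⟨h1, h2, h3, h4, h5, h6⟩ := h
  have huz : u.1 < z := rr_pos_lt h4
  have huq : u.1 < q.1 := by linarith
  have hadj : adj ld K P u q := Or.inl (landO_adjO_Land huz h2 h3 h5)
  have hqz : q.1 < z := reach h4 hadj
  refine ⟨⟨h1, hadj, ?_, ?_⟩, huq, hqz⟩
  · rw [abs_of_neg (by linarith), abs_of_neg (by linarith)]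
    linarith
  · intro v hv hav
    rw [abs_of_neg (by linarith : q.1 < 0)]
    rcases lt_or_ge v.1 ((u.1 + z) / 2) with hc | hc
    · left
      rw [abs_of_neg (by linarith : v.1 < 0)]
      linarith
    · obtain ⟨_, g2, g3⟩ := ea h4 hav hc
      have huv : u.1 < v.1 := by linarith
      have hld : ld u.1 v.1 = v.1 - u.1 := by
        unfold ld
        rw [abs_sub_comm, abs_of_pos (by linarith)]
      rw [hld] at g3
      rcases h6 v hv g2 g3 with h7 | ⟨h7, h8⟩
      · left
        rw [abs_of_neg (by linarith : v.1 < 0)]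
        linarith
      · right
        rw [h7, abs_of_neg (by linarith : q.1 < 0)]
        exact ⟨rfl, h8⟩

theorem land_unique {q' : Pt} (h : LandO K P u z q) (h' : LandO K P u z q') : q = q' := by
  obtain ⟨h1, h2, h3, h4, h5, h6⟩ := h
  obtain ⟨g1, g2, g3, g4, g5, g6⟩ := h'
  have a := h6 q' g1 g2 g5
  have b := g6 q h1 h2 h5
  rcases a with a | ⟨a, a'⟩
  · rcases b with b | ⟨b, b'⟩
    · exact absurd (a.trans b) (lt_irrefl _)
    · rw [b] at a
      exact absurd a (lt_irrefl _)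
  · rcases b with b | ⟨b, b'⟩
    · rw [a] at b
      exact absurd b (lt_irrefl _)
    · exact Prod.ext b (le_antisymm a' b')

theorem land_exists (hR : K < Rr P u z)
    (hv : ∃ v ∈ P, v.2 ≤ u.2 ∧ (u.1 + z) / 2 ≤ v.1 ∧ bc ld P u (v.1 - u.1) ≤ K) :
    ∃ q, LandO K P u z q := by
  obtain ⟨v, hvP, hv2, hv1, hvb⟩ := hv
  classical
  set F : Finset Pt := P.filter (fun p => p.2 ≤ u.2 ∧ bc ld P u (p.1 - u.1) ≤ K) with hF
  have hvF : v ∈ F := Finset.mem_filter.2 ⟨hvP, hv2, hvb⟩
  obtain ⟨m, hmF, hm⟩ := Finset.exists_max_image F (fun p => p.1) ⟨v, hvF⟩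
  have hG : (F.filter (fun p => p.1 = m.1)).Nonempty := ⟨m, Finset.mem_filter.2 ⟨hmF, rfl⟩⟩
  obtain ⟨q, hqG, hq⟩ := Finset.exists_min_image (F.filter (fun p => p.1 = m.1))
    (fun p => p.2) hG
  rw [Finset.mem_filter] at hqG
  obtain ⟨hqF, hqm⟩ := hqG
  have hqF' := Finset.mem_filter.1 hqF
  refine ⟨q, hqF'.1, hqF'.2.1, ?_, hR, hqF'.2.2, ?_⟩
  · have := hm v hvF
    rw [hqm]
    exact hv1.trans this
  · intro w hw hw2 hwb
    have hwF : w ∈ F := Finset.mem_filter.2 ⟨hw, hw2, hwb⟩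
    rcases lt_or_eq_of_le (hm w hwF) with h | h
    · left
      rw [hqm]
      exact h
    · right
      exact ⟨by rw [hqm]; exact h, hq w (Finset.mem_filter.2 ⟨hwF, h⟩)⟩

theorem card_move_Land {a b : Pt} {p : Pt → Prop} [DecidablePred p] (hb : b ∉ P)
    (hab : p a → p b) :
    ((insert a P).filter p).card ≤ ((insert b P).filter p).card := by
  rw [Finset.filter_insert, Finset.filter_insert]
  by_cases ha : p a
  · rw [if_pos ha, if_pos (hab ha), Finset.card_insert_of_notMem (a := b)]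
    · exact Finset.card_insert_le _ _
    · intro h
      exact hb (Finset.mem_filter.1 h).1
  · rw [if_neg ha]
    split_ifs
    · exact Finset.card_le_card (Finset.subset_insert _ _)
    · exact le_refl _

theorem card_excl_Land {a b : Pt} {p : Pt → Prop} [DecidablePred p] (hb : ¬ p b) :
    ((insert b P).filter p).card ≤ ((insert a P).filter p).card := by
  rw [Finset.filter_insert, if_neg hb]
  exact Finset.card_le_card (Finset.filter_subset_filter _ (Finset.subset_insert _ _))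

theorem notMem_Land {x t t' : ℝ} (ht : t' < t)
    (h : LandO K (insert (x, t) P) u z (x, t)) : (x, t') ∉ P := by
  intro hx
  obtain ⟨h1, h2, h3, h4, h5, h6⟩ := h
  rcases h6 (x, t') (Finset.mem_insert_of_mem hx) (ht.le.trans h2) h5 with h | ⟨_, h⟩
  · exact lt_irrefl _ h
  · exact absurd h (not_le.2 ht)

/-- replacing the landing point by an older one at the same position -/
theorem land_move {x t t' : ℝ} (ht : t' ≤ t) (h : LandO K (insert (x, t) P) u z (x, t)) :
    LandO K (insert (x, t') P) u z (x, t') := by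
  rcases eq_or_lt_of_le ht with rfl | ht'
  · exact h
  have hnP := notMem_Land ht' h
  obtain ⟨h1, h2, h3, h4, h5, h6⟩ := h
  simp only at h2 h3 h5 h6
  have huz : u.1 < z := rr_pos_lt h4
  have hux : u.1 < x := by linarith
  refine ⟨Finset.mem_insert_self _ _, ht.trans h2, h3, ?_, ?_, ?_⟩
  · refine lt_of_lt_of_le h4 ?_
    unfold Rr
    exact card_move_Land hnP (fun hp => ⟨ht.trans hp.1, hp.2⟩)
  · refine le_trans ?_ h5
    unfold bc
    refine card_excl_Land ?_
    rintro ⟨-, hp⟩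
    simp only [ld] at hp
    rw [abs_sub_comm, abs_of_pos (by linarith)] at hp
    exact lt_irrefl _ hp
  · intro v hv hv2 hvb
    rw [Finset.mem_insert] at hv
    rcases hv with rfl | hv
    · exact Or.inr ⟨rfl, le_refl _⟩
    · have hle : bc ld (insert (x, t) P) u (v.1 - u.1) ≤ bc ld (insert (x, t') P) u (v.1 - u.1) := by
        unfold bc
        exact card_move_Land hnP (fun hp => ⟨ht.trans hp.1, hp.2⟩)
      rcases h6 v (Finset.mem_insert_of_mem hv) hv2 (hle.trans hvb) with h | ⟨h, h'⟩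
      · exact Or.inl h
      · exact Or.inr ⟨h, ht.trans h'⟩

/-- the same for two steps: from `w` to `u` (strictly before `x`) and from `u` to `x` -/
theorem land_move2 {x t t' y z' : ℝ} {w : Pt} (ht : t' ≤ t) (hwu : u.2 ≤ w.2)
    (huP : u ∈ P) (huy : u.1 < y) (hxy : y ≤ x)
    (h1 : LandO K (insert (x, t) P) w z u) (h2 : LandO K (insert (x, t) P) u z' (x, t)) :
    LandO K (insert (x, t') P) w z u ∧ LandO K (insert (x, t') P) u z' (x, t') := by
  refine ⟨?_, land_move ht h2⟩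
  rcases eq_or_lt_of_le ht with rfl | ht'
  · exact h1
  have hnP := notMem_Land ht' h2
  have htu : t ≤ u.2 := h2.2.1
  have htw : t ≤ w.2 := htu.trans hwu
  have hux : u.1 < x := lt_of_lt_of_le huy hxy
  obtain ⟨g1, g2, g3, g4, g5, g6⟩ := h1
  have hwz : w.1 < z := rr_pos_lt g4
  have hwu1 : w.1 < u.1 := by linarith
  have hle : ∀ r : ℝ, bc ld (insert (x, t) P) w r ≤ bc ld (insert (x, t') P) w r := by
    intro r
    unfold bc
    exact card_move_Land hnP (fun hp => ⟨ht.trans hp.1, hp.2⟩)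
  refine ⟨Finset.mem_insert_of_mem huP, g2, g3, ?_, ?_, ?_⟩
  · refine lt_of_lt_of_le g4 ?_
    unfold Rr
    exact card_move_Land hnP (fun hp => ⟨ht.trans hp.1, hp.2⟩)
  · refine le_trans ?_ g5
    unfold bc
    refine card_excl_Land ?_
    rintro ⟨-, hp⟩
    simp only [ld] at hp
    rw [abs_sub_comm, abs_of_pos (by linarith)] at hp
    linarith
  · intro v hv hv2 hvb
    rw [Finset.mem_insert] at hv
    rcases hv with rfl | hv
    · rcases g6 (x, t) (Finset.mem_insert_self _ _) htw ((hle _).trans hvb) with h | ⟨h, _⟩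
      · exact absurd h (not_lt.2 hux.le)
      · exact absurd h (ne_of_gt hux)
    · exact g6 v (Finset.mem_insert_of_mem hv) hv2 ((hle _).trans hvb)

theorem first_Land {Λ z' : ℝ} {s : Pt} (hz : z ≤ z') (hz' : z' ≤ 0) (h : LandO K P u z q)
    (hs : State K P Λ z' u s) : State K P Λ z' q s := by
  obtain ⟨hst, -, -⟩ := land_step (hz.trans hz') h
  have hR : K < Rr P u z' := lt_of_lt_of_le h.2.2.2.1 (rr_mono hz)
  obtain ⟨h1, h2, h3⟩ := hs
  rcases Relation.ReflTransGen.cases_head h1 with h | ⟨v, hv, hv'⟩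
  · subst h
    omega
  · have hvq : v = q := gstep_unique (Λ' := u.2) hz' hv ⟨hst, le_refl _, hR⟩
    rw [hvq] at hv'
    exact ⟨hv', h2, h3⟩

theorem state_label_Land {Λ z' : ℝ} {s : Pt} (hs : State K P Λ z' q s) : Λ ≤ q.2 := by
  obtain ⟨h1, h2, h3⟩ := hs
  rcases Relation.ReflTransGen.cases_head h1 with h | ⟨v, hv, hv'⟩
  · subst h
    exact h2
  · exact hv.2.1

/-- a landing point of label less than `Λ` ends the stay above `Λ` -/
theorem land_not_stay {Λ z' : ℝ} (hz : z ≤ z') (hz' : z' ≤ 0) (h : LandO K P u z q)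
    (hq : q.2 < Λ) : ¬ Stay K P Λ z' u := by
  rintro ⟨s, hs⟩
  exact absurd (state_label_Land (first_Land hz hz' h hs)) (not_le.2 hq)

/-- two steps -/
theorem land_not_stay2 {Λ z₁ z₂ z' : ℝ} {w : Pt} (hz1 : z₁ ≤ z') (hz2 : z₂ ≤ z')
    (hz' : z' ≤ 0) (h1 : LandO K P w z₁ u) (h2 : LandO K P u z₂ q) (hq : q.2 < Λ) :
    ¬ Stay K P Λ z' w := by
  rintro ⟨s, hs⟩
  exact land_not_stay hz2 hz' h2 hq ⟨s, first_Land hz1 hz' h1 hs⟩

end Pool.Agent.Helper67.GR
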