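import Pool.Agent.Helper67.GR.Bern

namespace Pool.Agent.Helper67.GR

variable {K : ℕ} {P P' : Finset Pt} {Λ Λ' z z' : ℝ} {w v u : Pt}

theorem rr_mono (hz : z ≤ z') : Rr P w z ≤ Rr P w z' := by
  unfold Rr
  apply Finset.card_le_card
  intro p hp
  simp only [Finset.mem_filter] at hp ⊢
  exact ⟨hp.1, hp.2.1, hp.2.2.1, hp.2.2.2.trans_le hz⟩

theorem rr_pos_lt (h : K < Rr P w z) : w.1 < z := by
  have h1 : 0 < Rr P w z := lt_of_le_of_lt (Nat.zero_le K) h
  unfold Rr at h1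
  obtain ⟨p, hp⟩ := Finset.card_pos.1 h1
  simp only [Finset.mem_filter] at hp
  exact hp.2.2.1.trans hp.2.2.2

/-- neighbours to the right of a vertex with more than `K` older points before `z`
lie before `z` -/
theorem reach (hR : K < Rr P w z) (hadj : adj ld K P w v) : v.1 < z := by
  by_contra hcon
  have hcon := not_lt.1 hcon
  have hwz := rr_pos_lt hR
  rcases hadj with h | h
  · obtain ⟨-, -, h3⟩ := h
    have h4 : Rr P w z ≤ bc ld P w (ld w.1 v.1) := by
      unfold Rr bc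
      apply Finset.card_le_card
      intro p hp
      simp only [Finset.mem_filter] at hp ⊢
      refine ⟨hp.1, hp.2.1, ?_⟩
      unfold ld
      rw [abs_sub_comm, abs_sub_comm w.1, abs_of_pos (by linarith [hp.2.2.1]),
        abs_of_pos (by linarith)]
      linarith [hp.2.2.2]
    omega
  · obtain ⟨-, h2, h3⟩ := h
    have h4 : Rr P w z ≤ bc ld P v (ld v.1 w.1) := by
      unfold Rr bc
      apply Finset.card_le_card
      intro p hp
      simp only [Finset.mem_filter] at hp ⊢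
      refine ⟨hp.1, hp.2.1.trans h2, ?_⟩
      unfold ld
      rw [abs_of_pos (by linarith [hp.2.2.2]), abs_of_pos (by linarith)]
      linarith [hp.2.2.1]
    omega

theorem rr_local (hPP : ∀ p : Pt, p.1 < z → (p ∈ P ↔ p ∈ P')) (hz : z' ≤ z) :
    Rr P w z' = Rr P' w z' := by
  unfold Rr
  congr 1
  ext p
  simp only [Finset.mem_filter]
  constructor
  · rintro ⟨h1, h2, h3, h4⟩
    exact ⟨(hPP p (h4.trans_le hz)).1 h1, h2, h3, h4⟩
  · rintro ⟨h1, h2, h3, h4⟩
    exact ⟨(hPP p (h4.trans_le hz)).2 h1, h2, h3, h4⟩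

private theorem local_adj_aux (hR : K < Rr P w z) (hPP : ∀ p : Pt, p.1 < z → (p ∈ P ↔ p ∈ P'))
    (hwv : w.1 < v.1) (hv : v.1 < z) (h : adj ld K P w v) : adj ld K P' w v := by
  rcases h with h | h
  · left
    obtain ⟨h1, h2, h3⟩ := h
    refine ⟨h1, h2, le_trans (le_of_eq ?_) h3⟩
    unfold bc
    congr 1
    ext p
    simp only [Finset.mem_filter]
    have key : ld w.1 p.1 < ld w.1 v.1 → p.1 < z := by
      intro h4
      unfold ld at h4
      rw [abs_sub_comm, abs_sub_comm w.1, abs_of_pos (by linarith : (0 : ℝ) < v.1 - w.1)] at h4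
      linarith [le_abs_self (p.1 - w.1)]
    constructor
    · rintro ⟨h4, h5, h6⟩
      exact ⟨(hPP p (key h6)).2 h4, h5, h6⟩
    · rintro ⟨h4, h5, h6⟩
      exact ⟨(hPP p (key h6)).1 h4, h5, h6⟩
  · right
    obtain ⟨h1, h2, h3⟩ := h
    rcases le_or_gt (2 * v.1 - w.1) z with h4 | h4
    · refine ⟨h1, h2, le_trans (le_of_eq ?_) h3⟩
      unfold bc
      congr 1
      ext p
      simp only [Finset.mem_filter]
      have key : ld v.1 p.1 < ld v.1 w.1 → p.1 < z := by
        intro h5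
        unfold ld at h5
        rw [abs_sub_comm, abs_of_pos (by linarith : (0 : ℝ) < v.1 - w.1)] at h5
        linarith [le_abs_self (p.1 - v.1)]
      constructor
      · rintro ⟨h5, h6, h7⟩
        exact ⟨(hPP p (key h7)).2 h5, h6, h7⟩
      · rintro ⟨h5, h6, h7⟩
        exact ⟨(hPP p (key h7)).1 h5, h6, h7⟩
    · exfalso
      have h5 : Rr P w z ≤ bc ld P v (ld v.1 w.1) := by
        unfold Rr bc
        apply Finset.card_le_card
        intro p hp
        simp only [Finset.mem_filter] at hp ⊢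
        refine ⟨hp.1, hp.2.1.trans h2, ?_⟩
        unfold ld
        rw [abs_of_pos (by linarith : (0 : ℝ) < v.1 - w.1), abs_sub_lt_iff]
        constructor <;> linarith [hp.2.2.1, hp.2.2.2]
      omega

theorem adj_local (hR : K < Rr P w z) (hPP : ∀ p : Pt, p.1 < z → (p ∈ P ↔ p ∈ P'))
    (hwv : w.1 < v.1) (hv : v.1 < z) : adj ld K P w v ↔ adj ld K P' w v := by
  refine ⟨local_adj_aux hR hPP hwv hv, local_adj_aux ?_ (fun p hp => (hPP p hp).symm) hwv hv⟩
  rwa [← rr_local hPP le_rfl]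

theorem gstep_pos (hz : z ≤ 0) (h : GStep K P Λ z w v) :
    w.1 < v.1 ∧ v.1 < z ∧ v ∈ P ∧ w.1 < 0 := by
  obtain ⟨⟨h1, h2, h3, -⟩, -, h5⟩ := h
  have h6 := rr_pos_lt h5
  have h7 := reach h5 h2
  rw [abs_of_neg (by linarith), abs_of_neg (by linarith)] at h3
  exact ⟨by linarith, h7, h1, by linarith⟩

private theorem local_gstep_aux (hPP : ∀ p : Pt, p.1 < z → (p ∈ P ↔ p ∈ P')) (hz : z ≤ 0)
    (h : GStep K P Λ z w v) : GStep K P' Λ z w v := by
  obtain ⟨g1, g2, -, g4⟩ := gstep_pos hz h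
  obtain ⟨⟨h1, h2, h3, h4⟩, h5, h6⟩ := h
  have hR' : K < Rr P' w z := by rwa [← rr_local hPP le_rfl]
  refine ⟨⟨(hPP v g2).1 h1, (adj_local h6 hPP g1 g2).1 h2, h3, ?_⟩, h5, hR'⟩
  intro u hu hadj
  rcases le_or_gt |w.1| |u.1| with h7 | h7
  · exact Or.inl (h3.trans_le h7)
  · have h8 : u.1 < z := reach hR' hadj
    have h9 : w.1 < u.1 := by
      rw [abs_of_neg g4, abs_lt] at h7
      linarith [h7.1]
    exact h4 u ((hPP u h8).2 hu) ((adj_local h6 hPP h9 h8).2 hadj)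

theorem gstep_local (hPP : ∀ p : Pt, p.1 < z → (p ∈ P ↔ p ∈ P')) (hz : z ≤ 0) :
    GStep K P Λ z w v ↔ GStep K P' Λ z w v :=
  ⟨local_gstep_aux hPP hz, local_gstep_aux (fun p hp => (hPP p hp).symm) hz⟩

private theorem local_state_aux (hPP : ∀ p : Pt, p.1 < z → (p ∈ P ↔ p ∈ P')) (hz : z ≤ 0)
    (h : State K P Λ z w u) : State K P' Λ z w u := by
  obtain ⟨h1, h2, h3⟩ := h
  refine ⟨Relation.ReflTransGen.mono (fun a b hab => (gstep_local hPP hz).1 hab) _ _ h1, h2, ?_⟩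
  rwa [← rr_local hPP le_rfl]

theorem state_local (hPP : ∀ p : Pt, p.1 < z → (p ∈ P ↔ p ∈ P')) (hz : z ≤ 0) :
    State K P Λ z w u ↔ State K P' Λ z w u :=
  ⟨local_state_aux hPP hz, local_state_aux (fun p hp => (hPP p hp).symm) hz⟩

theorem stay_local (hPP : ∀ p : Pt, p.1 < z → (p ∈ P ↔ p ∈ P')) (hz : z ≤ 0) :
    Stay K P Λ z w ↔ Stay K P' Λ z w :=
  exists_congr fun _ => state_local hPP hz

theorem gstep_unique (hz : z ≤ 0) (h : GStep K P Λ z w v) (h' : GStep K P Λ' z w u) :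
    v = u := by
  obtain ⟨-, g2, g3, -⟩ := gstep_pos hz h
  obtain ⟨-, g2', g3', -⟩ := gstep_pos hz h'
  obtain ⟨⟨-, h2, -, h4⟩, -, -⟩ := h
  obtain ⟨⟨-, h2', -, h4'⟩, -, -⟩ := h'
  have a1 := h4 u g3' h2'
  have a2 := h4' v g3 h2
  rw [abs_of_neg (by linarith : v.1 < 0), abs_of_neg (by linarith : u.1 < 0)] at a1 a2
  rcases a1 with a1 | ⟨a1, b1⟩
  · rcases a2 with a2 | ⟨a2, -⟩
    · linarith
    · linarith
  · rcases a2 with a2 | ⟨-, b2⟩
    · linarith
    · exact Prod.ext (by linarith) (le_antisymm b1 b2)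

theorem gstep_mono (hz : z ≤ z') (hΛ : Λ' ≤ Λ) (h : GStep K P Λ z w v) :
    GStep K P Λ' z' w v :=
  ⟨h.1, hΛ.trans h.2.1, h.2.2.trans_le (rr_mono hz)⟩

theorem state_prefix (hz : z ≤ z') (h : State K P Λ z' w u) :
    ∃ v, State K P Λ z w v ∧ State K P Λ z' v u := by
  obtain ⟨h1, h2, h3⟩ := h
  induction h1 using Relation.ReflTransGen.head_induction_on with
  | refl =>
    exact ⟨u, ⟨Relation.ReflTransGen.refl, h2, (rr_mono hz).trans h3⟩,
      Relation.ReflTransGen.refl, h2, h3⟩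
  | head hab hbc ih =>
    rename_i a b
    obtain ⟨v, hv1, hv2⟩ := ih
    rcases le_or_gt (Rr P a z) K with h4 | h4
    · exact ⟨a, ⟨Relation.ReflTransGen.refl, hab.2.1, h4⟩,
        Relation.ReflTransGen.head hab hbc, h2, h3⟩
    · exact ⟨v, ⟨Relation.ReflTransGen.head ⟨hab.1, hab.2.1, h4⟩ hv1.1, hv1.2⟩, hv2⟩

theorem state_trans (hz : z ≤ z') (h : State K P Λ z w v) (h' : State K P Λ z' v u) :
    State K P Λ z' w u :=
  ⟨(Relation.ReflTransGen.mono (fun _ _ hab => gstep_mono hz le_rfl hab) _ _ h.1).trans h'.1, h'.2⟩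

theorem state_unique (hz : z ≤ 0) (h : State K P Λ z w v) (h' : State K P Λ' z w u) :
    v = u := by
  obtain ⟨h1, h2, h3⟩ := h
  induction h1 using Relation.ReflTransGen.head_induction_on with
  | refl =>
    obtain ⟨h4, -, -⟩ := h'
    rcases Relation.ReflTransGen.cases_head h4 with h5 | ⟨b, h5, -⟩
    · exact h5
    · exact absurd h5.2.2 (not_lt.2 h3)
  | head hab hbc ih =>
    obtain ⟨h4, h5, h6⟩ := h'
    rcases Relation.ReflTransGen.cases_head h4 with h7 | ⟨b, h7, h8⟩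
    · rw [← h7] at h6
      exact absurd hab.2.2 (not_lt.2 h6)
    · have h9 := gstep_unique hz hab h7
      subst h9
      exact ih ⟨h8, h5, h6⟩

theorem stay_mono (hΛ : Λ' ≤ Λ) (h : Stay K P Λ z w) : Stay K P Λ' z w := by
  obtain ⟨u, h1, h2, h3⟩ := h
  exact ⟨u, Relation.ReflTransGen.mono (fun _ _ hab => gstep_mono le_rfl hΛ hab) _ _ h1,
    hΛ.trans h2, h3⟩

theorem stay_prefix (hz : z ≤ z') (h : Stay K P Λ z' w) : Stay K P Λ z w := by
  obtain ⟨u, h⟩ := h
  obtain ⟨v, hv, -⟩ := state_prefix hz h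
  exact ⟨v, hv⟩

/-- if the path stays above `Λ` but not above `Λ'` then it has a vertex of label `< Λ'` -/
theorem stay_split (h : State K P Λ z w u) (h' : ¬ Stay K P Λ' z w) :
    ∃ v, Relation.ReflTransGen (GStep K P Λ z) w v ∧ v.2 < Λ' ∧ State K P Λ z v u := by
  obtain ⟨h1, h2, h3⟩ := h
  induction h1 using Relation.ReflTransGen.head_induction_on with
  | refl =>
    refine ⟨u, Relation.ReflTransGen.refl, ?_, Relation.ReflTransGen.refl, h2, h3⟩
    by_contra hcon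
    exact h' ⟨u, Relation.ReflTransGen.refl, not_lt.1 hcon, h3⟩
  | head hab hbc ih =>
    rename_i a b
    rcases lt_or_ge a.2 Λ' with h4 | h4
    · exact ⟨a, Relation.ReflTransGen.refl, h4, Relation.ReflTransGen.head hab hbc, h2, h3⟩
    · obtain ⟨v, hv1, hv2, hv3⟩ := ih (by
        rintro ⟨u', hu1, hu2⟩
        exact h' ⟨u', Relation.ReflTransGen.head ⟨hab.1, h4, hab.2.2⟩ hu1, hu2⟩)
      exact ⟨v, Relation.ReflTransGen.head hab hv1, hv2, hv3⟩

/-- the state after `z`, seen from the state at `z` -/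
theorem state_next (hz : z ≤ z') (hz' : z' ≤ 0) (h : State K P Λ z w v)
    (h' : State K P Λ z' w u) : State K P Λ z' v u := by
  obtain ⟨v', h1, h2⟩ := state_prefix hz h'
  rw [state_unique (hz.trans hz') h h1]
  exact h2

/-- positions do not decrease along the path and path vertices other than the start
lie in `P` before `z` -/
theorem path_pos (hz : z ≤ 0) (h : Relation.ReflTransGen (GStep K P Λ z) w v) :
    w.1 ≤ v.1 ∧ (v = w ∨ (v ∈ P ∧ w.1 < v.1 ∧ v.1 < z)) := by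
  induction h with
  | refl => exact ⟨le_rfl, Or.inl rfl⟩
  | tail _ hbc ih =>
    obtain ⟨g1, g2, g3, -⟩ := gstep_pos hz hbc
    exact ⟨ih.1.trans g1.le, Or.inr ⟨g3, ih.1.trans_lt g1, g2⟩⟩

end Pool.Agent.Helper67.GR
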