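import Pool.Agent.Helper67.GR.Bern

namespace Pool.Agent.Helper67.GR

open Finset

variable {α : Type*} [DecidableEq α]

lemma prob_insert_Tilt (q : α → ℝ) {S : Finset α} {v : α} (hv : v ∉ S) (A : Finset α → Prop) :
    prob q (insert v S) A =
      (1 - q v) * prob q S A + q v * prob q S (fun X => A (insert v X)) :=
  bern_insert q hv _

lemma convex_Tilt {p x y : ℝ} (hp : 0 ≤ p) (hp' : p ≤ 1) :
    ((1 - p) * x + p * y) ^ 2 ≤ (1 - p) * x ^ 2 + p * y ^ 2 := by
  nlinarith [mul_nonneg (mul_nonneg hp (sub_nonneg.2 hp')) (sq_nonneg (x - y))]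

lemma tilt_Tilt {p b x y : ℝ} (hp : 0 < p) (hp' : p ≤ 1 / 2) :
    ((1 - (1 + b) * p) * x + (1 + b) * p * y) ^ 2 ≤
      (1 + 2 * b ^ 2 * p) * ((1 - p) * x ^ 2 + p * y ^ 2) := by
  have h1 : 0 < 1 - p := by linarith
  -- Cauchy-Schwarz
  have h2 : p * (1 - p) * ((1 - (1 + b) * p) * x + (1 + b) * p * y) ^ 2 ≤
      (p * (1 - (1 + b) * p) ^ 2 + (1 - p) * ((1 + b) * p) ^ 2) *
        ((1 - p) * x ^ 2 + p * y ^ 2) := by
    nlinarith [sq_nonneg (p * (1 - (1 + b) * p) * y - (1 - p) * ((1 + b) * p) * x)]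
  have h3 : p * (1 - (1 + b) * p) ^ 2 + (1 - p) * ((1 + b) * p) ^ 2 =
      p * ((1 - p) + b ^ 2 * p) := by ring
  rw [h3] at h2
  have hN : 0 ≤ (1 - p) * x ^ 2 + p * y ^ 2 := by positivity
  have h4 : (1 - p) * ((1 - (1 + b) * p) * x + (1 + b) * p * y) ^ 2 ≤
      ((1 - p) + b ^ 2 * p) * ((1 - p) * x ^ 2 + p * y ^ 2) := by
    have h5 : p * ((1 - p) * ((1 - (1 + b) * p) * x + (1 + b) * p * y) ^ 2) ≤
        p * (((1 - p) + b ^ 2 * p) * ((1 - p) * x ^ 2 + p * y ^ 2)) := by
      calc _ = p * (1 - p) * ((1 - (1 + b) * p) * x + (1 + b) * p * y) ^ 2 := by ring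
        _ ≤ _ := h2
        _ = _ := by ring
    exact le_of_mul_le_mul_left h5 hp
  have h6 : ((1 - p) + b ^ 2 * p) ≤ (1 - p) * (1 + 2 * b ^ 2 * p) := by
    have : 0 ≤ b ^ 2 * p * (1 - 2 * p) := by
      have : 0 ≤ 1 - 2 * p := by linarith
      positivity
    nlinarith
  have h7 : (1 - p) * ((1 - (1 + b) * p) * x + (1 + b) * p * y) ^ 2 ≤
      (1 - p) * ((1 + 2 * b ^ 2 * p) * ((1 - p) * x ^ 2 + p * y ^ 2)) := by
    refine h4.trans ?_
    calc _ ≤ ((1 - p) * (1 + 2 * b ^ 2 * p)) * ((1 - p) * x ^ 2 + p * y ^ 2) :=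
          mul_le_mul_of_nonneg_right h6 hN
      _ = _ := by ring
  exact le_of_mul_le_mul_left h7 h1

/-- change of measure -/
theorem prob_tilt {p b : ℝ} (hp : 0 < p) (hp' : p ≤ 1 / 2) (hb : 0 ≤ b)
    (hbp : (1 + b) * p ≤ 1) (S : Finset α) (φ : α → Prop) [DecidablePred φ]
    (A : Finset α → Prop) :
    (prob (fun v => if φ v then (1 + b) * p else p) S A) ^ 2 *
        Real.exp (-(2 * b ^ 2 * p * ((S.filter φ).card : ℝ))) ≤
      prob (fun _ => p) S A := by
  induction S using Finset.induction_on generalizing A with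
  | empty =>
    rw [prob, prob, bern_empty, bern_empty]
    simp only [Finset.filter_empty, Finset.card_empty, Nat.cast_zero, mul_zero, neg_zero,
      Real.exp_zero, mul_one]
    have h1 := ind_nonneg (A ∅)
    have h2 := ind_le_one (A ∅)
    nlinarith
  | insert v S hv ih =>
    rw [prob_insert_Tilt _ hv, prob_insert_Tilt _ hv]
    have i1 := ih A
    have i2 := ih (fun X => A (insert v X))
    set E := Real.exp (-(2 * b ^ 2 * p * ((S.filter φ).card : ℝ))) with hE
    have hE0 : 0 < E := Real.exp_pos _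
    set x := prob (fun v => if φ v then (1 + b) * p else p) S A with hx
    set y := prob (fun v => if φ v then (1 + b) * p else p) S (fun X => A (insert v X)) with hy
    by_cases h : φ v
    · rw [if_pos h, Finset.filter_insert, if_pos h, Finset.card_insert_of_notMem (by simp [hv])]
      have e1 : Real.exp (-(2 * b ^ 2 * p * (((S.filter φ).card + 1 : ℕ) : ℝ))) =
          E * Real.exp (-(2 * b ^ 2 * p)) := by
        rw [hE, ← Real.exp_add]
        congr 1
        push_cast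
        ring
      rw [e1]
      have h1 := tilt_Tilt (b := b) (x := x) (y := y) hp hp'
      have h2 : (1 + 2 * b ^ 2 * p) * Real.exp (-(2 * b ^ 2 * p)) ≤ 1 := by
        rw [Real.exp_neg, mul_inv_le_iff₀ (Real.exp_pos _), one_mul, add_comm]
        exact Real.add_one_le_exp _
      have hN : 0 ≤ (1 - p) * x ^ 2 + p * y ^ 2 := by
        have : 0 ≤ 1 - p := by linarith
        positivity
      have he := Real.exp_pos (-(2 * b ^ 2 * p))
      calc ((1 - (1 + b) * p) * x + (1 + b) * p * y) ^ 2 * (E * Real.exp (-(2 * b ^ 2 * p)))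
          ≤ ((1 + 2 * b ^ 2 * p) * ((1 - p) * x ^ 2 + p * y ^ 2)) *
            (E * Real.exp (-(2 * b ^ 2 * p))) := mul_le_mul_of_nonneg_right h1 (by positivity)
        _ = ((1 + 2 * b ^ 2 * p) * Real.exp (-(2 * b ^ 2 * p))) *
            (((1 - p) * x ^ 2 + p * y ^ 2) * E) := by ring
        _ ≤ 1 * (((1 - p) * x ^ 2 + p * y ^ 2) * E) :=
            mul_le_mul_of_nonneg_right h2 (by positivity)
        _ = (1 - p) * (x ^ 2 * E) + p * (y ^ 2 * E) := by ring
        _ ≤ _ := add_le_add (mul_le_mul_of_nonneg_left i1 (by linarith))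
            (mul_le_mul_of_nonneg_left i2 hp.le)
    · rw [if_neg h, Finset.filter_insert, if_neg h]
      have h1 := convex_Tilt (x := x) (y := y) hp.le (by linarith : p ≤ 1)
      calc ((1 - p) * x + p * y) ^ 2 * E ≤ ((1 - p) * x ^ 2 + p * y ^ 2) * E :=
            mul_le_mul_of_nonneg_right h1 hE0.le
        _ = (1 - p) * (x ^ 2 * E) + p * (y ^ 2 * E) := by ring
        _ ≤ _ := add_le_add (mul_le_mul_of_nonneg_left i1 (by linarith))
            (mul_le_mul_of_nonneg_left i2 hp.le)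

end Pool.Agent.Helper67.GR
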