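import Pool.Agent.Helper67.GR.St2
import Pool.Agent.Helper67.GR.Tilt

/-! # GR: the attempt claim (change of measure) -/

namespace Pool.Agent.Helper67.GR

open Finset

theorem tq_pq_AC (G : Grid) {b θ : ℝ} (hb0 : 0 ≤ b) (hb1 : b ≤ 1) (S : Finset Pt) :
    Pq (tq G.p b θ) S := by
  intro v _
  have h1 := G.p_pos
  have h2 := G.p_le
  unfold tq
  split_ifs
  · constructor
    · positivity
    · nlinarith
  · constructor <;> linarith

/-- counting rows -/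
theorem rows_AC (G : Grid) {L φ : ℝ} (hL : 8 ≤ L) (hLφ : 9 / 10 * L ≤ G.n) (hφ0 : 0 ≤ φ)
    (hφn : φ ≤ G.n) (hφ : φ ≤ 20 * L) :
    1 / 30 * ((G.Ts.filter (fun t => t ≤ φ)).card : ℝ) ≤
      ((G.Ts.filter (fun t => t < L)).card : ℝ) := by
  have h1 := abs_le.mp (G.dens (-(1/2)) (1/2) φ le_rfl (by norm_num) le_rfl hφ0 hφn)
  have h2 := abs_le.mp (G.dens (-(1/2)) (1/2) (9 / 10 * L) le_rfl (by norm_num) le_rfl
    (by linarith) hLφ)
  have hκ := G.κ_le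
  set D := G.p * ((G.Xs.filter (fun x => -(1/2) ≤ x ∧ x < 1/2)).card : ℝ) with hD
  have hD0 : 0 ≤ D := by
    have := G.p_pos
    positivity
  set N1 := ((G.Ts.filter (fun t => t ≤ φ)).card : ℝ) with hN1
  set N2 := ((G.Ts.filter (fun t => t ≤ 9 / 10 * L)).card : ℝ) with hN2
  have hN : N2 ≤ ((G.Ts.filter (fun t => t < L)).card : ℝ) := by
    rw [hN2]
    exact_mod_cast Finset.card_le_card (by
      intro t ht
      rw [Finset.mem_filter] at ht ⊢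
      exact ⟨ht.1, by linarith [ht.2]⟩)
  have hDpos : 0 < D := by
    by_contra hcon
    have : D = 0 := le_antisymm (not_lt.mp hcon) hD0
    rw [this] at h2
    linarith [h2.1]
  have h3 : D * (1 / 30 * N1) ≤ D * N2 := by
    nlinarith [h1.2, h2.1]
  have h4 : 1 / 30 * N1 ≤ N2 := le_of_mul_le_mul_left h3 hDpos
  linarith

/-- an event of the tilted field containing a landing on a fresh point -/
theorem land1_AC (hul : StUL) {K : ℕ} (G : Grid) {L y Z b z₁ : ℝ} {ω : Finset Pt} {w : Pt}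
    (hb0 : 0 ≤ b) (hb1 : b ≤ 1) (hL : 8 ≤ L) (hLn : L ≤ G.n) (hw0 : 0 ≤ w.2)
    (hwn : w.2 ≤ G.n) (hw : w.2 ≤ 20 * L) (hz : z₁ ≤ Z) (hZ : Z ≤ 0) :
    1 / 30 * prob (tq G.p b w.2) (G.fld y Z) (fun Y => ∃ q ∈ Y, LandO K (ω ∪ Y) w z₁ q) ≤
      prob (tq G.p b w.2) (G.fld y Z) (fun Y => ¬ Stay K (ω ∪ Y) L Z w) := by
  have hPq := tq_pq_AC G (θ := w.2) hb0 hb1 (G.fld y Z)
  have h := hul G y Z w.2 L (1 / 30) (tq G.p b w.2)
    (fun Y v => v ∈ Y ∧ LandO K (ω ∪ Y) w z₁ v) hPq ?_ (by norm_num) (by norm_num)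
    (rows_AC G hL (by linarith) hw0 hwn hw) ?_ ?_ ?_
  · refine h.trans ?_
    apply prob_mono hPq
    rintro Y _ ⟨v, ⟨_, hv2⟩, hv3⟩
    exact land_not_stay hz hZ hv2 hv3
  · intro x t t' _ _ ht ht'
    unfold tq
    rw [if_pos ht, if_pos ht']
  · rintro Y _ v ⟨h1, h2⟩
    exact ⟨h1, h2.2.1⟩
  · rintro Y _ v v' ⟨_, h2⟩ ⟨_, h2'⟩
    exact land_unique h2 h2'
  · rintro Y _ x t t' htt _ _ ⟨_, h2⟩
    refine ⟨Finset.mem_insert_self _ _, ?_⟩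
    rw [Finset.union_insert] at h2 ⊢
    exact land_move htt h2

/-- the same with one explored intermediate point -/
theorem land2_AC (hul : StUL) {K : ℕ} (G : Grid) {L y Z b z₁ z₂ : ℝ} {ω : Finset Pt}
    {w u : Pt} (hb0 : 0 ≤ b) (hb1 : b ≤ 1) (hL : 8 ≤ L) (hLn : L ≤ G.n)
    (hu0 : 0 ≤ u.2) (hwn : w.2 ≤ G.n) (hw : w.2 ≤ 20 * L) (hz1 : z₁ ≤ Z) (hz2 : z₂ ≤ Z)
    (hZ : Z ≤ 0) (hu : u ∈ ω) (huw : u.2 ≤ w.2) (huy : u.1 < y) :
    1 / 30 * prob (tq G.p b w.2) (G.fld y Z) (fun Y => u ∈ ω ∧ u.2 ≤ w.2 ∧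
      LandO K (ω ∪ Y) w z₁ u ∧ (u.2 < L ∨ ∃ q ∈ Y, LandO K (ω ∪ Y) u z₂ q)) ≤
      prob (tq G.p b w.2) (G.fld y Z) (fun Y => ¬ Stay K (ω ∪ Y) L Z w) := by
  have hPq := tq_pq_AC G (θ := w.2) hb0 hb1 (G.fld y Z)
  by_cases huL : u.2 < L
  · have h1 : prob (tq G.p b w.2) (G.fld y Z) (fun Y => u ∈ ω ∧ u.2 ≤ w.2 ∧
      LandO K (ω ∪ Y) w z₁ u ∧ (u.2 < L ∨ ∃ q ∈ Y, LandO K (ω ∪ Y) u z₂ q)) ≤
      prob (tq G.p b w.2) (G.fld y Z) (fun Y => ¬ Stay K (ω ∪ Y) L Z w) := by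
      apply prob_mono hPq
      rintro Y _ ⟨_, _, h3, _⟩
      exact land_not_stay hz1 hZ h3 huL
    have h2 := prob_nonneg hPq (fun Y => u ∈ ω ∧ u.2 ≤ w.2 ∧
      LandO K (ω ∪ Y) w z₁ u ∧ (u.2 < L ∨ ∃ q ∈ Y, LandO K (ω ∪ Y) u z₂ q))
    linarith
  · have h := hul G y Z u.2 L (1 / 30) (tq G.p b w.2)
      (fun Y v => v ∈ Y ∧ LandO K (ω ∪ Y) w z₁ u ∧ LandO K (ω ∪ Y) u z₂ v) hPq ?_
      (by norm_num) (by norm_num)
      (rows_AC G hL (by linarith) hu0 (huw.trans hwn) (huw.trans hw)) ?_ ?_ ?_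
    · have h1 : prob (tq G.p b w.2) (G.fld y Z) (fun Y => u ∈ ω ∧ u.2 ≤ w.2 ∧
        LandO K (ω ∪ Y) w z₁ u ∧ (u.2 < L ∨ ∃ q ∈ Y, LandO K (ω ∪ Y) u z₂ q)) ≤
        prob (tq G.p b w.2) (G.fld y Z) (fun Y => ∃ v, v ∈ Y ∧ LandO K (ω ∪ Y) w z₁ u ∧
          LandO K (ω ∪ Y) u z₂ v) := by
        apply prob_mono hPq
        rintro Y _ ⟨_, _, h3, h4⟩
        rcases h4 with h4 | ⟨q, hq, h4⟩
        · exact absurd h4 huL
        · exact ⟨q, hq, h3, h4⟩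
      have h2 : prob (tq G.p b w.2) (G.fld y Z) (fun Y => ∃ v, (v ∈ Y ∧
          LandO K (ω ∪ Y) w z₁ u ∧ LandO K (ω ∪ Y) u z₂ v) ∧ v.2 < L) ≤
          prob (tq G.p b w.2) (G.fld y Z) (fun Y => ¬ Stay K (ω ∪ Y) L Z w) := by
        apply prob_mono hPq
        rintro Y _ ⟨v, ⟨_, h3, h4⟩, hv⟩
        exact land_not_stay2 hz1 hz2 hZ h3 h4 hv
      linarith
    · intro x t t' _ _ ht ht'
      unfold tq
      rw [if_pos (ht.trans huw), if_pos (ht'.trans huw)]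
    · rintro Y _ v ⟨h1, _, h2⟩
      exact ⟨h1, h2.2.1⟩
    · rintro Y _ v v' ⟨_, _, h2⟩ ⟨_, _, h2'⟩
      exact land_unique h2 h2'
    · rintro Y _ x t t' htt hx _ ⟨_, h2, h3⟩
      refine ⟨Finset.mem_insert_self _ _, ?_⟩
      rw [Finset.union_insert] at h2 h3 ⊢
      exact land_move2 htt huw (Finset.mem_union_left _ hu) huy ((mem_fld G).mp hx).2.2.1
        h2 h3

theorem hAC (hul : StUL) (hk : StACk) : StAC := by
  intro A hA
  obtain ⟨K₁, hK₁⟩ := hk A hA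
  refine ⟨(1 / 80) ^ 2 * Real.exp (-(131200 * A ^ 2)), by positivity, ?_,
    K₁ + 2 + ⌈(1000 * A) ^ 2⌉₊, fun K hK G L y ω w hyp hy hy0 => ?_⟩
  · have h1 : Real.exp (-(131200 * A ^ 2)) ≤ 1 := by
      rw [Real.exp_le_one_iff]
      have : 0 ≤ A ^ 2 := sq_nonneg A
      linarith
    nlinarith [Real.exp_pos (-(131200 * A ^ 2))]
  obtain ⟨u, z₁, z₂, hz1, hz2, hpr⟩ := hK₁ K (by omega) G L y ω w hyp hy hy0
  have hKr : (1000 * A) ^ 2 ≤ (K : ℝ) := by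
    refine (Nat.le_ceil _).trans ?_
    exact_mod_cast (by omega : ⌈(1000 * A) ^ 2⌉₊ ≤ K)
  have hK2 : (2 : ℝ) ≤ K := by exact_mod_cast (by omega : 2 ≤ K)
  have hs1 : 1000 * A ≤ Real.sqrt K := Real.le_sqrt_of_sq_le hKr
  have hs0 : 0 < Real.sqrt K := by linarith
  have hs2 : Real.sqrt K * Real.sqrt K = K := Real.mul_self_sqrt (by linarith)
  obtain ⟨hL, hLab, hω, hwω, hLw, hw20, hd, hReg⟩ := hyp
  have hb0 : 0 ≤ 40 * A / Real.sqrt K := by positivity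
  have hb1 : 40 * A / Real.sqrt K ≤ 1 := by rw [div_le_one hs0]; linarith
  have hL8 : 8 ≤ L := by
    have h1 : 2 * K / L ≤ 1 / 2 := by linarith
    rw [div_le_iff₀ hL] at h1
    linarith
  have hwn : w.2 ≤ G.n := (hLab w hwω).2
  have hPq := tq_pq_AC G (θ := w.2) hb0 hb1 (G.fld y (y + 2 * K / L))
  set Z := y + 2 * K / L with hZdef
  set b := 40 * A / Real.sqrt K with hb
  have hsum := prob_or_le hPq (fun Y => ∃ q ∈ Y, LandO K (ω ∪ Y) w z₁ q)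
    (fun Y => u ∈ ω ∧ u.2 ≤ w.2 ∧ LandO K (ω ∪ Y) w z₁ u ∧
          (u.2 < L ∨ ∃ q ∈ Y, LandO K (ω ∪ Y) u z₂ q))
  have htilt : 1 / 80 ≤
      prob (tq G.p b w.2) (G.fld y Z) (fun Y => ¬ Stay K (ω ∪ Y) L Z w) := by
    have e1 := land1_AC (K := K) (y := y) (ω := ω) hul G hb0 hb1 hL8 (hLw.trans hwn)
      (by linarith) hwn hw20 hz1 hy0
    by_cases hc : u ∈ ω ∧ u.2 ≤ w.2
    · have e2 := land2_AC (K := K) (y := y) (ω := ω) (w := w) (u := u) hul G hb0 hb1 hL8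
        (hLw.trans hwn) (hLab u hc.1).1.le hwn hw20 hz1 hz2 hy0 hc.1 hc.2 (hω u hc.1)
      linarith
    · have e2 : prob (tq G.p b w.2) (G.fld y Z) (fun Y => u ∈ ω ∧ u.2 ≤ w.2 ∧
          LandO K (ω ∪ Y) w z₁ u ∧ (u.2 < L ∨ ∃ q ∈ Y, LandO K (ω ∪ Y) u z₂ q)) = 0 := by
        apply prob_false
        rintro Y _ ⟨h1, h2, _⟩
        exact hc ⟨h1, h2⟩
      linarith
  have hp := G.p_pos
  have hp' := G.p_le
  have hT := prob_tilt (p := G.p) (b := b) hp (by linarith) hb0 (by nlinarith) (G.fld y Z)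
    (fun v : Pt => v.2 ≤ w.2) (fun Y => ¬ Stay K (ω ∪ Y) L Z w)
  have hTq : (fun v : Pt => if v.2 ≤ w.2 then (1 + b) * G.p else G.p) = tq G.p b w.2 := rfl
  rw [hTq] at hT
  have hmean : G.p * (((G.fld y Z).filter (fun v : Pt => v.2 ≤ w.2)).card : ℝ) ≤ 41 * K := by
    have h1 := mean_le' G y Z w.2 hy (by
      have : 0 ≤ 2 * (K : ℝ) / L := by positivity
      linarith) (by linarith) (by linarith)
    rw [Finset.sum_const, nsmul_eq_mul] at h1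
    have hκ := G.κ_le
    have h2 : w.2 * (Z - y) ≤ 40 * K := by
      have e : Z - y = 2 * K / L := by rw [hZdef]; ring
      rw [e]
      have h3 : w.2 * (2 * K / L) ≤ 20 * L * (2 * K / L) := by
        apply mul_le_mul_of_nonneg_right hw20
        positivity
      have h4 : 20 * L * (2 * K / L) = 40 * K := by field_simp; ring
      linarith
    linarith
  have hexp : Real.exp (-(131200 * A ^ 2)) ≤
      Real.exp (-(2 * b ^ 2 * G.p *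
        (((G.fld y Z).filter (fun v : Pt => v.2 ≤ w.2)).card : ℝ))) := by
    apply Real.exp_le_exp.mpr
    have h1 : b ^ 2 * K = 1600 * A ^ 2 := by
      have h0 : b * Real.sqrt K = 40 * A := by rw [hb]; field_simp
      calc b ^ 2 * K = b ^ 2 * (Real.sqrt K * Real.sqrt K) := by rw [hs2]
        _ = (b * Real.sqrt K) ^ 2 := by ring
        _ = 1600 * A ^ 2 := by rw [h0]; ring
    have h2 : 2 * b ^ 2 * G.p *
        (((G.fld y Z).filter (fun v : Pt => v.2 ≤ w.2)).card : ℝ) ≤ 131200 * A ^ 2 := by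
      have h3 : 2 * b ^ 2 * (G.p *
        (((G.fld y Z).filter (fun v : Pt => v.2 ≤ w.2)).card : ℝ)) ≤ 2 * b ^ 2 * (41 * K) :=
        mul_le_mul_of_nonneg_left hmean (by positivity)
      linarith
    linarith
  have hfin : (1 / 80) ^ 2 * Real.exp (-(131200 * A ^ 2)) ≤
      prob (fun _ => G.p) (G.fld y Z) (fun Y => ¬ Stay K (ω ∪ Y) L Z w) := by
    refine le_trans ?_ hT
    apply mul_le_mul _ hexp (Real.exp_pos _).le (sq_nonneg _)
    exact pow_le_pow_left₀ (by norm_num) htilt 2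
  rw [prob_not] at hfin
  unfold Grid.pr
  linarith

end Pool.Agent.Helper67.GR
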