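import Pool.Agent.Helper67.GR.St2
import Pool.Agent.Helper67.GR.RegV

/-! # GR project (MP_d9675d_pr): module ACd1 -/

namespace Pool.Agent.Helper67.GR

open Finset

theorem rr_add_le_ACd1 (ω Y : Finset Pt) (u : Pt) (y z : ℝ) (hu : u.1 < y) (hyz : y ≤ z)
    (hω : ∀ v ∈ ω, v.1 < y) :
    Rr ω u y + cnt Y y z u.2 ≤ Rr (ω ∪ Y) u z := by
  unfold Rr cnt
  rw [← Finset.card_union_of_disjoint]
  · refine Finset.card_le_card fun v hv => ?_
    rw [Finset.mem_union, Finset.mem_filter, Finset.mem_filter] at hv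
    rw [Finset.mem_filter, Finset.mem_union]
    rcases hv with ⟨h1, h2, h3, h4⟩ | ⟨h1, h2, h3, h4⟩
    · exact ⟨Or.inl h1, h2, h3, h4.trans_le hyz⟩
    · exact ⟨Or.inr h1, h4, hu.trans_le h2, h3⟩
  · rw [Finset.disjoint_left]
    intro v hv hv'
    rw [Finset.mem_filter] at hv hv'
    exact absurd hv.2.2.2 (not_lt.2 hv'.2.1)

theorem hACd1 (hz : StACz) : StACd1 := by
  intro A hA
  obtain ⟨K₀, hK₀⟩ := hz A hA
  refine ⟨max K₀ (⌈(1000 * A) ^ 2⌉₊), fun K hK n L y ω Y u hH hY hcnt => ?_⟩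
  obtain ⟨h1, -⟩ := hK₀ K ((le_max_left _ _).trans hK) n L y ω u hH
  obtain ⟨hL, hLab, hω, hu, hLu, hu20, ha, hReg⟩ := hH
  have hKA : (1000 * A) ^ 2 ≤ (K : ℝ) := by
    have h2 : (⌈(1000 * A) ^ 2⌉₊ : ℝ) ≤ K := by exact_mod_cast (le_max_right _ _).trans hK
    exact (Nat.le_ceil _).trans h2
  have hK0 : (0 : ℝ) < K := lt_of_lt_of_le (by positivity) hKA
  set s := Real.sqrt K with hs
  have hsA : 1000 * A ≤ s := by
    rw [hs]
    exact Real.le_sqrt_of_sq_le hKA
  have hss : s * s = K := Real.mul_self_sqrt hK0.le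
  have hs0 : 0 < s := by linarith
  have hφ : 0 < u.2 := lt_of_lt_of_le hL hLu
  have huy : u.1 < y := hω u hu
  have hyu : 0 < y - u.1 := by linarith
  -- the explored part
  have h2 : y - 2 * K / L ≤ u.1 := by
    have h3 : (y - u.1) * L ≤ 3 / 5 * K := by
      calc (y - u.1) * L ≤ (y - u.1) * u.2 := mul_le_mul_of_nonneg_left hLu hyu.le
        _ = u.2 * (y - u.1) := by ring
        _ ≤ 3 / 5 * K := ha
    have h4 : y - u.1 ≤ 2 * K / L := by
      rw [le_div_iff₀ hL]
      linarith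
    linarith
  have h3 := (abs_le.1 (rr_reg hReg h2 huy.le le_rfl hφ.le hu20 (hLab u hu).2)).1
  have h4 := rr_add_le_ACd1 ω Y u y (zz K A y u) huy h1.le hω
  have h5 : (Rr ω u y : ℝ) + cnt Y y (zz K A y u) u.2 ≤ Rr (ω ∪ Y) u (zz K A y u) := by
    exact_mod_cast h4
  have h6 : (K : ℝ) < Rr (ω ∪ Y) u (zz K A y u) := by
    refine lt_of_lt_of_le ?_ h5
    set a := u.2 * (y - u.1) / K with hadef
    have haK : u.2 * (y - u.1) = a * K := by
      rw [hadef]; field_simp
    have ha0 : 0 < a := by rw [hadef]; positivity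
    have hzz : u.2 * (zz K A y u - y) = K * (1 - a) - (40 * A * (1 - a) - 4 * A) * s := by
      have h7 : u.2 * (zz K A y u - u.1) = K - (40 * A * (1 - a) - 4 * A) * s := by
        unfold zz
        rw [← hadef, ← hs]
        field_simp
        ring
      have h8 : u.2 * (zz K A y u - y) = u.2 * (zz K A y u - u.1) - u.2 * (y - u.1) := by ring
      rw [h8, h7, haK]
      ring
    rw [haK] at h3
    rw [hzz] at hcnt
    have h9 : (1 + 40 * A / s) * (K * (1 - a) - (40 * A * (1 - a) - 4 * A) * s - 1) =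
        K * (1 - a) + 4 * A * s - 1 - 40 * A * (40 * A * (1 - a) - 4 * A) - 40 * A / s := by
      rw [← hss]
      field_simp
      ring
    rw [h9] at hcnt
    have h10 : 40 * A / s ≤ 1 := by
      rw [div_le_one hs0]
      linarith
    have h11 : 40 * A * (40 * A * (1 - a) - 4 * A) ≤ 40 * A * (36 * A) := by
      refine mul_le_mul_of_nonneg_left ?_ (by linarith)
      nlinarith
    have h12 : 2 * A * (1000 * A) ≤ 2 * A * s := mul_le_mul_of_nonneg_left hsA (by linarith)
    nlinarith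
  exact_mod_cast h6

end Pool.Agent.Helper67.GR
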