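import Pool.Agent.Helper67.GR.St2
import Pool.Agent.Helper67.GR.RegV

/-! # GR project (MP_d9675d_pr): module ACd2 -/

namespace Pool.Agent.Helper67.GR

open Finset

theorem bc_le_ACd2 (ω Y : Finset Pt) (u : Pt) (y r m : ℝ) (hm : u.1 + r ≤ m)
    (hY : ∀ v ∈ Y, y ≤ v.1) (hω : ∀ v ∈ ω, v.1 < y) :
    bc ld (ω ∪ Y) u r ≤
      (ω.filter (fun v => u.1 - r < v.1 ∧ v.1 < y ∧ v.2 ≤ u.2)).card + cnt Y y m u.2 := by
  unfold bc cnt ld
  rw [filter_union]
  refine (card_union_le _ _).trans (Nat.add_le_add ?_ ?_)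
  · refine card_le_card fun p hp => ?_
    rw [mem_filter] at hp ⊢
    obtain ⟨hp1, hp2, hp3⟩ := hp
    rw [abs_lt] at hp3
    exact ⟨hp1, by linarith [hp3.2], hω p hp1, hp2⟩
  · refine card_le_card fun p hp => ?_
    rw [mem_filter] at hp ⊢
    obtain ⟨hp1, hp2, hp3⟩ := hp
    rw [abs_lt] at hp3
    exact ⟨hp1, hY p hp1, by linarith [hp3.1], hp2⟩

theorem hACd2 (hz : StACz) : StACd2 := by
  intro A hA
  obtain ⟨K₀, hK₀⟩ := hz A hA
  refine ⟨max K₀ (⌈(1000 * A) ^ 2⌉₊), fun K hK n L y ω Y u q hH hY hym hqY hq2 hq1 hq1'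
    hcnt => ?_⟩
  obtain ⟨-, -, hum, hm1, hm2, -⟩ := hK₀ K ((le_max_left _ _).trans hK) n L y ω u hH
  obtain ⟨hL, hLab, hω, hu, hLu, hu20, ha, hReg⟩ := hH
  have hKA : (1000 * A) ^ 2 ≤ (K : ℝ) := by
    have h2 : (⌈(1000 * A) ^ 2⌉₊ : ℝ) ≤ K := by exact_mod_cast (le_max_right _ _).trans hK
    exact (Nat.le_ceil _).trans h2
  have hK0 : (0 : ℝ) < K := lt_of_lt_of_le (by positivity) hKA
  set s := Real.sqrt K with hs
  have hsA : 1000 * A ≤ s := by
    rw [hs]
    exact Real.le_sqrt_of_sq_le hKA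
  have hss : s * s = K := Real.mul_self_sqrt hK0.le
  have hs0 : 0 < s := by linarith
  have hφ : 0 < u.2 := lt_of_lt_of_le hL hLu
  have huy : u.1 < y := hω u hu
  have hyu : 0 < y - u.1 := by linarith
  have hAs : 0 < A * s := by positivity
  have hAs1 : 10000 * A ≤ A * s := by nlinarith
  have hK1000 : (100000000 : ℝ) ≤ K := by nlinarith
  set M := max (mm K A y u) y with hM
  have hMm : mm K A y u ≤ M := le_max_left _ _
  have hMy : y ≤ M := le_max_right _ _
  have hM35 : u.2 * (M - u.1) ≤ 3 / 5 * K := by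
    rcases le_total (mm K A y u) y with h | h
    · rw [hM, max_eq_right h]; exact ha
    · rw [hM, max_eq_left h]; linarith
  have hu101 : u.2 * (101 / u.2) = 101 := by field_simp
  have hr0 : 0 < q.1 - u.1 := by linarith
  have hr1 : u.2 * (q.1 - u.1) ≤ u.2 * (M - u.1) + 101 := by
    have h10 : q.1 - u.1 ≤ M - u.1 + 101 / u.2 := by linarith
    calc u.2 * (q.1 - u.1) ≤ u.2 * (M - u.1 + 101 / u.2) :=
          mul_le_mul_of_nonneg_left h10 hφ.le
      _ = u.2 * (M - u.1) + u.2 * (101 / u.2) := by ring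
      _ = _ := by rw [hu101]
  -- the left end of the ball lies in the regular region
  have hlow : y - 2 * K / L ≤ u.1 - (q.1 - u.1) := by
    have h3 : (y - u.1 + (q.1 - u.1)) * L ≤ 2 * K := by
      calc (y - u.1 + (q.1 - u.1)) * L ≤ (y - u.1 + (q.1 - u.1)) * u.2 :=
            mul_le_mul_of_nonneg_left hLu (by linarith)
        _ = u.2 * (y - u.1) + u.2 * (q.1 - u.1) := by ring
        _ ≤ 2 * K := by linarith
    have h4 : y - u.1 + (q.1 - u.1) ≤ 2 * K / L := by
      rw [le_div_iff₀ hL]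
      exact h3
    linarith
  have h5 := bc_le_ACd2 ω Y u y (q.1 - u.1) (M + 101 / u.2) (by linarith) hY hω
  have h6 := (abs_le.1 (reg_open hReg (c := u.1 - (q.1 - u.1)) (d := y) (θ := u.2) hlow
    (by linarith) le_rfl hφ.le hu20 (hLab u hu).2)).2
  have h7 : (bc ld (ω ∪ Y) u (q.1 - u.1) : ℝ) ≤
      ((ω.filter (fun v => u.1 - (q.1 - u.1) < v.1 ∧ v.1 < y ∧ v.2 ≤ u.2)).card : ℝ) +
        cnt Y y (M + 101 / u.2) u.2 := by exact_mod_cast h5
  set a := u.2 * (y - u.1) / K with hadef
  have haK : u.2 * (y - u.1) = a * K := by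
    rw [hadef]; field_simp
  have ha1 : a ≤ 3 / 5 := by
    rw [hadef, div_le_iff₀ hK0]
    exact ha
  have ha0 : 0 < a := by rw [hadef]; positivity
  have hmm : u.2 * (mm K A y u - u.1) = (K - (40 * A * (1 - a) - 4 * A) * s) / 2 := by
    unfold mm zz
    rw [← hadef, ← hs]
    field_simp
    ring
  have hβ : 12 * A ≤ 40 * A * (1 - a) - 4 * A := by nlinarith
  have hβs : 12 * A * s ≤ (40 * A * (1 - a) - 4 * A) * s :=
    mul_le_mul_of_nonneg_right hβ hs0.le
  have hb1 : 40 * A / s ≤ 1 := by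
    rw [div_le_one hs0]
    linarith
  have hb0 : 0 < 40 * A / s := by positivity
  have hbK : 40 * A / s * K = 40 * A * s := by
    rw [← hss]
    field_simp
  have hfirst : u.2 * (y - (u.1 - (q.1 - u.1))) = a * K + u.2 * (q.1 - u.1) := by
    rw [← haK]; ring
  rw [hfirst] at h6
  have hsecond : u.2 * (M + 101 / u.2 - y) + 1 = u.2 * (M - y) + 102 := by
    have : u.2 * (M + 101 / u.2 - y) = u.2 * (M - y) + u.2 * (101 / u.2) := by ring
    rw [this, hu101]
    ring
  rw [hsecond] at hcnt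
  have h11 : (bc ld (ω ∪ Y) u (q.1 - u.1) : ℝ) ≤ K := by
    rcases le_total y (mm K A y u) with h | h
    · -- the middle is in the fresh region
      have hMe : M = mm K A y u := by rw [hM, max_eq_left h]
      have h8 : u.2 * (M - u.1) = (K - (40 * A * (1 - a) - 4 * A) * s) / 2 := by
        rw [hMe, hmm]
      have h9 : u.2 * (M - y) = (K - (40 * A * (1 - a) - 4 * A) * s) / 2 - a * K := by
        have : u.2 * (M - y) = u.2 * (M - u.1) - u.2 * (y - u.1) := by ring
        rw [this, h8, haK]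
      rw [h9] at hcnt
      rw [h8] at hr1
      have h12 : (1 + 40 * A / s) *
          ((K - (40 * A * (1 - a) - 4 * A) * s) / 2 - a * K + 102) ≤
          (K - (40 * A * (1 - a) - 4 * A) * s) / 2 - a * K + 204 +
            40 * A * s * (1 / 2 - a) := by
        have h13 : (1 + 40 * A / s) *
            ((K - (40 * A * (1 - a) - 4 * A) * s) / 2 - a * K + 102) =
            (K - (40 * A * (1 - a) - 4 * A) * s) / 2 - a * K + 102 +
              (40 * A / s * K) * (1 / 2 - a) -
              40 * A / s * ((40 * A * (1 - a) - 4 * A) * s) / 2 + 40 * A / s * 102 := by ring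
        rw [h13, hbK]
        have h14 : 0 ≤ 40 * A / s * ((40 * A * (1 - a) - 4 * A) * s) := by
          apply mul_nonneg hb0.le
          have : 0 ≤ 12 * A * s := by positivity
          linarith
        have h15 : 40 * A / s * 102 ≤ 102 := by linarith
        linarith
      have h16 : (40 * A * (1 - a) - 4 * A) * s = 36 * (A * s) - 40 * (A * s) * a := by ring
      have h17 : 40 * A * s * (1 / 2 - a) = 20 * (A * s) - 40 * (A * s) * a := by ring
      rw [h17] at h12
      linarith
    · -- the middle is in the explored region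
      have hMe : M = y := by rw [hM, max_eq_right h]
      rw [hMe, sub_self, mul_zero, zero_add] at hcnt
      rw [hMe, haK] at hr1
      have h12 : (1 + 40 * A / s) * 102 ≤ 204 := by linarith
      have h13 : a * K ≤ (K - (40 * A * (1 - a) - 4 * A) * s) / 2 + 2 * A * s := by
        rw [← haK, ← hmm]
        have h14 : y - u.1 ≤ mm K A y u - u.1 + 2 * A * s / u.2 := by linarith
        calc u.2 * (y - u.1) ≤ u.2 * (mm K A y u - u.1 + 2 * A * s / u.2) :=
              mul_le_mul_of_nonneg_left h14 hφ.le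
          _ = u.2 * (mm K A y u - u.1) + u.2 * (2 * A * s / u.2) := by ring
          _ = _ := by
            have : u.2 * (2 * A * s / u.2) = 2 * A * s := by field_simp
            rw [this]
      rw [hMe] at h7
      linarith
  exact_mod_cast h11

end Pool.Agent.Helper67.GR
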