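import Pool.Agent.Helper67.GR.St2
import Pool.Agent.Helper67.GR.RegV

/-! # GR project (MP_d9675d_pr): module ACd3 -/

namespace Pool.Agent.Helper67.GR

open Finset

theorem hACd3 (hz : StACz) : StACd3 := by
  intro A hA
  obtain ⟨K₀, hK₀⟩ := hz A hA
  refine ⟨max K₀ (⌈(1000 * A) ^ 2⌉₊), fun K hK n L y ω u hH hmy => ?_⟩
  obtain ⟨-, -, hum, hm1, hm2, -⟩ := hK₀ K ((le_max_left _ _).trans hK) n L y ω u hH
  obtain ⟨hL, hLab, hω, hu, hLu, hu20, ha, hReg⟩ := hH
  have hKA : (1000 * A) ^ 2 ≤ (K : ℝ) := by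
    have h2 : (⌈(1000 * A) ^ 2⌉₊ : ℝ) ≤ K := by exact_mod_cast (le_max_right _ _).trans hK
    exact (Nat.le_ceil _).trans h2
  have hK0 : (0 : ℝ) < K := lt_of_lt_of_le (by positivity) hKA
  set s := Real.sqrt K with hs
  have hsA : 1000 * A ≤ s := by
    rw [hs]
    exact Real.le_sqrt_of_sq_le hKA
  have hss : s * s = K := Real.mul_self_sqrt hK0.le
  have hs0 : 0 < s := by linarith
  have hφ : 0 < u.2 := lt_of_lt_of_le hL hLu
  have huy : u.1 < y := hω u hu
  have hyu : 0 < y - u.1 := by linarith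
  have hAs : 0 < A * s := by positivity
  -- `y - u.1 ≤ K / L`
  have h3 : (y - u.1) * L ≤ 3 / 5 * K := by
    calc (y - u.1) * L ≤ (y - u.1) * u.2 := mul_le_mul_of_nonneg_left hLu hyu.le
      _ = u.2 * (y - u.1) := by ring
      _ ≤ 3 / 5 * K := ha
  have h4 : 2 * (y - u.1) ≤ 2 * K / L := by
    rw [le_div_iff₀ hL]
    linarith
  have hlow : y - 2 * K / L ≤ u.1 - (y - u.1) := by linarith
  have hd0 : 0 ≤ 2 * A * s / u.2 := by positivity
  have hud : u.2 * (2 * A * s / u.2) = 2 * A * s := by field_simp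
  obtain ⟨q, hq, hq1, hq2, hq3⟩ := reg_exists hReg (c := mm K A y u)
    (d := mm K A y u + 2 * A * s / u.2) (θ := u.2) (by linarith) (by linarith) hmy.le hφ.le
    hu20 (hLab u hu).2 (by
      have h5 : u.2 * (mm K A y u + 2 * A * s / u.2 - mm K A y u) = 2 * A * s := by
        rw [add_sub_cancel_left, hud]
      rw [h5]
      linarith)
  refine ⟨q, hq, hq3, hq1, ?_⟩
  have hr : 0 < q.1 - u.1 := by linarith
  have hry : q.1 < y := hq2.trans hmy
  have h6 := (abs_le.1 (reg_open hReg (c := u.1 - (q.1 - u.1)) (d := u.1 + (q.1 - u.1))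
    (θ := u.2) (by linarith) (by linarith) (by linarith) hφ.le hu20 (hLab u hu).2)).2
  have h7 : bc ld ω u (q.1 - u.1) ≤ (ω.filter (fun v => u.1 - (q.1 - u.1) < v.1 ∧
      v.1 < u.1 + (q.1 - u.1) ∧ v.2 ≤ u.2)).card := by
    unfold bc ld
    refine card_le_card fun p hp => ?_
    rw [mem_filter] at hp ⊢
    obtain ⟨hp1, hp2, hp3⟩ := hp
    rw [abs_lt] at hp3
    exact ⟨hp1, by linarith [hp3.2], by linarith [hp3.1], hp2⟩
  have h8 : (bc ld ω u (q.1 - u.1) : ℝ) ≤ ((ω.filter (fun v => u.1 - (q.1 - u.1) < v.1 ∧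
      v.1 < u.1 + (q.1 - u.1) ∧ v.2 ≤ u.2)).card : ℝ) := by exact_mod_cast h7
  set a := u.2 * (y - u.1) / K with hadef
  have haK : u.2 * (y - u.1) = a * K := by
    rw [hadef]; field_simp
  have ha1 : a ≤ 3 / 5 := by
    rw [hadef, div_le_iff₀ hK0]
    exact ha
  have hmm : u.2 * (mm K A y u - u.1) = (K - (40 * A * (1 - a) - 4 * A) * s) / 2 := by
    unfold mm zz
    rw [← hadef, ← hs]
    field_simp
    ring
  have hβ : 12 * A ≤ 40 * A * (1 - a) - 4 * A := by nlinarith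
  have hβs : 12 * A * s ≤ (40 * A * (1 - a) - 4 * A) * s :=
    mul_le_mul_of_nonneg_right hβ hs0.le
  have h9 : u.2 * (q.1 - u.1) ≤ u.2 * (mm K A y u - u.1) + 2 * A * s := by
    have h10 : q.1 - u.1 ≤ mm K A y u - u.1 + 2 * A * s / u.2 := by linarith
    calc u.2 * (q.1 - u.1) ≤ u.2 * (mm K A y u - u.1 + 2 * A * s / u.2) :=
          mul_le_mul_of_nonneg_left h10 hφ.le
      _ = u.2 * (mm K A y u - u.1) + u.2 * (2 * A * s / u.2) := by ring
      _ = _ := by rw [hud]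
  have h11 : (bc ld ω u (q.1 - u.1) : ℝ) ≤ K := by
    have h12 : u.2 * (u.1 + (q.1 - u.1) - (u.1 - (q.1 - u.1))) = 2 * (u.2 * (q.1 - u.1)) := by
      ring
    rw [h12] at h6
    rw [hmm] at h9
    linarith
  exact_mod_cast h11

end Pool.Agent.Helper67.GR
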