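import Pool.Agent.Helper67.GR.St2

/-! # GR: the tilted field lets the walk reach a fresh older point -/

namespace Pool.Agent.Helper67.GR

open Finset

/-- enough fresh points before `zz` -/
def E1_ACk (K : ℕ) (A y : ℝ) (u : Pt) (Y : Finset Pt) : Prop :=
  (1 + 40 * A / Real.sqrt K) * (u.2 * (zz K A y u - y) - 1) - A * Real.sqrt K <
    (cnt Y y (zz K A y u) u.2 : ℝ)

/-- not too many fresh points just after the middle -/
def E2_ACk (K : ℕ) (A y : ℝ) (u : Pt) (Y : Finset Pt) : Prop :=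
  (cnt Y y (max (mm K A y u) y + 101 / u.2) u.2 : ℝ) <
    (1 + 40 * A / Real.sqrt K) * (u.2 * (max (mm K A y u) y + 101 / u.2 - y) + 1) +
      A * Real.sqrt K

/-- a fresh point just after the middle -/
def E3_ACk (K : ℕ) (A y : ℝ) (u : Pt) (Y : Finset Pt) : Prop :=
  0 < cnt Y (max (mm K A y u) y) (max (mm K A y u) y + 101 / u.2) u.2

/-- the conclusions of ACz -/
def Z_ACk (K : ℕ) (A L y : ℝ) (u : Pt) : Prop :=
  y < zz K A y u ∧ zz K A y u ≤ y + K / L ∧ u.1 < mm K A y u ∧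
    2 / 5 * (K : ℝ) ≤ u.2 * (mm K A y u - u.1) ∧ u.2 * (mm K A y u - u.1) ≤ 1 / 2 * K ∧
    max (mm K A y u) y + 101 / u.2 ≤ y + K / L

theorem fail_ACk (hp : StACp) {A : ℝ} (hA : 10 ≤ A) {K : ℕ}
    (hs : 1000 * A ≤ Real.sqrt K) (G : Grid) {L y θ : ℝ} {ω : Finset Pt} {u : Pt}
    (hyp : HypA K A G.n L y ω u) (hZ : Z_ACk K A L y u) (hy : -(1/2) ≤ y)
    (hy0 : y + 2 * K / L ≤ 0) (hu : u.2 ≤ θ) :
    prob (tq G.p (40 * A / Real.sqrt K) θ) (G.fld y (y + 2 * K / L))
      (fun Y => ¬ E1_ACk K A y u Y) ≤ 1 / 25 ∧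
    prob (tq G.p (40 * A / Real.sqrt K) θ) (G.fld y (y + 2 * K / L))
      (fun Y => ¬ E2_ACk K A y u Y) ≤ 1 / 25 ∧
    prob (tq G.p (40 * A / Real.sqrt K) θ) (G.fld y (y + 2 * K / L))
      (fun Y => ¬ E3_ACk K A y u Y) ≤ 1 / 25 := by
  obtain ⟨hL, hLab, hω, huω, hLu, hu20, hd, hReg⟩ := hyp
  obtain ⟨hz1, hz2, hm1, hm2, hm3, hm4⟩ := hZ
  set s := Real.sqrt K with hsdef
  have hK0 : (0 : ℝ) ≤ K := Nat.cast_nonneg _
  have hs2 : s * s = K := Real.mul_self_sqrt hK0
  have hs0 : 0 < s := by linarith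
  have hKs : (100000000 : ℝ) ≤ K := by nlinarith
  have hφ : 0 < u.2 := by linarith
  have hun : u.2 ≤ G.n := (hLab u huω).2
  have huy : u.1 < y := hω u huω
  have hb0 : 0 ≤ 40 * A / s := by positivity
  have hb1 : 40 * A / s ≤ 1 := by rw [div_le_one hs0]; linarith
  set b := 40 * A / s with hb
  have hKL : (K : ℝ) / L ≤ 2 * K / L := by
    apply div_le_div_of_nonneg_right _ hL.le
    linarith
  have hzE : u.2 * (zz K A y u - y) ≤ K := by
    have h1 : u.2 * (zz K A y u - u.1) ≤ K := by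
      have e1 : u.2 * (mm K A y u - u.1) * 2 = u.2 * (zz K A y u - u.1) := by
        unfold mm; ring
      linarith
    nlinarith
  have hAs : 100 * K ≤ (A * s) ^ 2 := by
    have : (A * s) ^ 2 = A ^ 2 * (s * s) := by ring
    rw [this, hs2]
    have hA2 : (100 : ℝ) ≤ A ^ 2 := by nlinarith
    exact mul_le_mul_of_nonneg_right hA2 hK0
  have hAs0 : 0 < A * s := by positivity
  have hms0 : 0 ≤ u.2 * (max (mm K A y u) y - y) := by
    apply mul_nonneg hφ.le
    linarith [le_max_right (mm K A y u) y]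
  have hms : u.2 * (max (mm K A y u) y - y) ≤ K / 2 := by
    rcases le_total (mm K A y u) y with h | h
    · rw [max_eq_right h, sub_self, mul_zero]
      positivity
    · rw [max_eq_left h]
      nlinarith
  have h101 : u.2 * (101 / u.2) = 101 := by field_simp
  have h101' : 0 < 101 / u.2 := by positivity
  refine ⟨?_, ?_, ?_⟩
  · have h := (hp G y (y + 2 * K / L) y (zz K A y u) u.2 θ b (A * s) hy (by linarith) le_rfl
      hz1.le (by linarith) hφ.le hu hun hb0 hb1 hAs0).1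
    have e : prob (tq G.p b θ) (G.fld y (y + 2 * K / L)) (fun Y => ¬ E1_ACk K A y u Y) =
        prob (tq G.p b θ) (G.fld y (y + 2 * K / L)) (fun Y => (cnt Y y (zz K A y u) u.2 : ℝ) ≤
          (1 + b) * (u.2 * (zz K A y u - y) - 1) - A * s) := by
      apply prob_congr
      intro Y _
      unfold E1_ACk
      rw [not_lt]
    rw [e]
    refine h.trans ?_
    rw [div_le_iff₀ (by positivity)]
    nlinarith
  · have h := (hp G y (y + 2 * K / L) y (max (mm K A y u) y + 101 / u.2) u.2 θ b (A * s) hy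
      (by linarith) le_rfl (by linarith [le_max_right (mm K A y u) y]) (by linarith) hφ.le hu
      hun hb0 hb1 hAs0).2
    have e : prob (tq G.p b θ) (G.fld y (y + 2 * K / L)) (fun Y => ¬ E2_ACk K A y u Y) =
        prob (tq G.p b θ) (G.fld y (y + 2 * K / L)) (fun Y =>
          (1 + b) * (u.2 * (max (mm K A y u) y + 101 / u.2 - y) + 1) + A * s ≤
          (cnt Y y (max (mm K A y u) y + 101 / u.2) u.2 : ℝ)) := by
      apply prob_congr
      intro Y _
      unfold E2_ACk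
      rw [not_lt]
    rw [e]
    refine h.trans ?_
    rw [div_le_iff₀ (by positivity)]
    have e2 : u.2 * (max (mm K A y u) y + 101 / u.2 - y) =
        u.2 * (max (mm K A y u) y - y) + 101 := by
      have e3 : u.2 * (max (mm K A y u) y + 101 / u.2 - y) =
        u.2 * (max (mm K A y u) y - y) + u.2 * (101 / u.2) := by ring
      rw [e3, h101]
    rw [e2]
    nlinarith
  · have h := (hp G y (y + 2 * K / L) (max (mm K A y u) y) (max (mm K A y u) y + 101 / u.2)
      u.2 θ b ((1 + b) * 100) hy (by linarith) (le_max_right _ _) (by linarith) (by linarith)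
      hφ.le hu hun hb0 hb1 (by positivity)).1
    have e2 : u.2 * (max (mm K A y u) y + 101 / u.2 - max (mm K A y u) y) = 101 := by
      rw [add_sub_cancel_left]; exact h101
    rw [e2] at h
    have e : prob (tq G.p b θ) (G.fld y (y + 2 * K / L)) (fun Y => ¬ E3_ACk K A y u Y) ≤
        prob (tq G.p b θ) (G.fld y (y + 2 * K / L)) (fun Y =>
          (cnt Y (max (mm K A y u) y) (max (mm K A y u) y + 101 / u.2) u.2 : ℝ) ≤
          (1 + b) * (101 - 1) - (1 + b) * 100) := by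
      apply le_of_eq
      apply prob_congr
      intro Y _
      unfold E3_ACk
      rw [not_lt]
      constructor
      · intro h0
        have : cnt Y (max (mm K A y u) y) (max (mm K A y u) y + 101 / u.2) u.2 = 0 := by omega
        rw [this]
        have : (1 + b) * (101 - 1) - (1 + b) * 100 = 0 := by ring
        rw [this]
        simp
      · intro h0
        have e0 : (1 + b) * (101 - 1) - (1 + b) * 100 = 0 := by ring
        rw [e0] at h0
        exact_mod_cast h0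
    refine e.trans (h.trans ?_)
    rw [div_le_iff₀ (by positivity)]
    nlinarith

theorem tq_pq_ACk (G : Grid) {b θ : ℝ} (hb0 : 0 ≤ b) (hb1 : b ≤ 1) (S : Finset Pt) :
    Pq (tq G.p b θ) S := by
  intro v _
  have h1 := G.p_pos
  have h2 := G.p_le
  unfold tq
  split_ifs
  · constructor
    · positivity
    · nlinarith
  · constructor <;> linarith

theorem cnt_pos_ACk {Y : Finset Pt} {c d θ : ℝ} (h : 0 < cnt Y c d θ) :
    ∃ q ∈ Y, c ≤ q.1 ∧ q.1 < d ∧ q.2 ≤ θ := by
  unfold cnt at h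
  obtain ⟨q, hq⟩ := Finset.card_pos.mp h
  rw [Finset.mem_filter] at hq
  exact ⟨q, hq.1, hq.2⟩

/-- the fresh step -/
theorem fresh_ACk (h1 : StACd1) (h2 : StACd2) : ∀ A : ℝ, 10 ≤ A → ∃ K₀ : ℕ, ∀ K ≥ K₀,
    ∀ (n L y : ℝ) (ω Y : Finset Pt) (u : Pt), HypA K A n L y ω u → (∀ v ∈ Y, y ≤ v.1) →
    y ≤ mm K A y u + 2 * A * Real.sqrt K / u.2 → E1_ACk K A y u Y → E2_ACk K A y u Y →
    E3_ACk K A y u Y → ∃ q, LandO K (ω ∪ Y) u (zz K A y u) q := by
  intro A hA
  obtain ⟨K₁, hK₁⟩ := h1 A hA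
  obtain ⟨K₂, hK₂⟩ := h2 A hA
  refine ⟨max K₁ K₂, fun K hK n L y ω Y u hyp hY hm e1 e2 e3 => ?_⟩
  have hR := hK₁ K (le_trans (le_max_left _ _) hK) n L y ω Y u hyp hY e1
  obtain ⟨q, hqY, hq1, hq2, hq3⟩ := cnt_pos_ACk e3
  have hb := hK₂ K (le_trans (le_max_right _ _) hK) n L y ω Y u q hyp hY hm hqY hq3 hq1 hq2 e2
  refine land_exists hR ⟨q, Finset.mem_union_right _ hqY, hq3, ?_, hb⟩
  exact (le_max_left _ _).trans hq1

theorem bc_mono_ACk {P Q : Finset Pt} (h : P ⊆ Q) (u : Pt) (r : ℝ) :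
    bc ld P u r ≤ bc ld Q u r := by
  unfold bc
  exact Finset.card_le_card (Finset.filter_subset_filter _ h)

theorem bc_eq_ACk {ω Y : Finset Pt} {y : ℝ} (hY : ∀ v ∈ Y, y ≤ v.1) {u v : Pt}
    (hv : v.1 < y) : bc ld (ω ∪ Y) u (v.1 - u.1) = bc ld ω u (v.1 - u.1) := by
  unfold bc
  congr 1
  ext p
  simp only [Finset.mem_filter, Finset.mem_union]
  constructor
  · rintro ⟨h | h, h2, h3⟩
    · exact ⟨h, h2, h3⟩
    · exfalso
      have := hY p h
      unfold ld at h3
      have h4 := neg_abs_le (u.1 - p.1)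
      linarith
  · rintro ⟨h, h2, h3⟩
    exact ⟨Or.inl h, h2, h3⟩

/-- the case without candidates -/
theorem caseA_ACk {K : ℕ} {ω Y : Finset Pt} {u q : Pt} {z m : ℝ}
    (hC : ∀ v ∈ ω, v.2 ≤ u.2 → m ≤ v.1 → ¬ bc ld ω u (v.1 - u.1) ≤ K)
    (hm : m = (u.1 + z) / 2) (hq : LandO K (ω ∪ Y) u z q) : q ∈ Y := by
  obtain ⟨h1, h2, h3, h4, h5, h6⟩ := hq
  rw [Finset.mem_union] at h1
  rcases h1 with h | h
  · exfalso
    exact hC q h h2 (by rw [hm]; exact h3)
      ((bc_mono_ACk Finset.subset_union_left _ _).trans h5)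
  · exact h

/-- the best candidate -/
theorem best_ACk {C : Finset Pt} (hC : C.Nonempty) :
    ∃ u ∈ C, ∀ v ∈ C, v.1 < u.1 ∨ (v.1 = u.1 ∧ u.2 ≤ v.2) := by
  obtain ⟨m, hm, hmax⟩ := Finset.exists_max_image C (fun v => v.1) hC
  have hD : (C.filter (fun v => v.1 = m.1)).Nonempty := ⟨m, by simp [hm]⟩
  obtain ⟨u, hu, hmin⟩ := Finset.exists_min_image _ (fun v => v.2) hD
  rw [Finset.mem_filter] at hu
  refine ⟨u, hu.1, fun v hv => ?_⟩
  have h1 := hmax v hv
  rcases lt_or_eq_of_le h1 with h | h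
  · left
    rw [hu.2]
    exact h
  · right
    refine ⟨h.trans hu.2.symm, hmin v ?_⟩
    rw [Finset.mem_filter]
    exact ⟨hv, h⟩

theorem hACk (hz : StACz) (h1 : StACd1) (h2 : StACd2) (h3 : StACd3) (hp : StACp) :
    StACk := by
  intro A hA
  obtain ⟨K₁, hK₁⟩ := hz A hA
  obtain ⟨K₂, hK₂⟩ := h1 A hA
  obtain ⟨K₃, hK₃⟩ := h3 A hA
  obtain ⟨K₄, hK₄⟩ := fresh_ACk h1 h2 A hA
  refine ⟨K₁ + K₂ + K₃ + K₄ + ⌈(1000 * A) ^ 2⌉₊, fun K hK G L y ω w hyp hy hy0 => ?_⟩
  have hKr : (1000 * A) ^ 2 ≤ (K : ℝ) := by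
    refine (Nat.le_ceil _).trans ?_
    exact_mod_cast (by omega : ⌈(1000 * A) ^ 2⌉₊ ≤ K)
  have hs1 : 1000 * A ≤ Real.sqrt K := Real.le_sqrt_of_sq_le hKr
  have hK0 : (0 : ℝ) ≤ K := Nat.cast_nonneg _
  have hs2 : Real.sqrt K * Real.sqrt K = K := Real.mul_self_sqrt hK0
  have hs0 : 0 < Real.sqrt K := by linarith
  have hKpos : (0 : ℝ) < K := by rw [← hs2]; positivity
  have hL : 0 < L := hyp.1
  have hb0 : 0 ≤ 40 * A / Real.sqrt K := by positivity
  have hb1 : 40 * A / Real.sqrt K ≤ 1 := by rw [div_le_one hs0]; linarith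
  have hKL : y + (K : ℝ) / L ≤ y + 2 * K / L := by
    have : (K : ℝ) / L ≤ 2 * K / L := by
      apply div_le_div_of_nonneg_right _ hL.le
      linarith
    linarith
  have hPq := tq_pq_ACk G (θ := w.2) hb0 hb1 (G.fld y (y + 2 * K / L))
  have hZ := hK₁ K (by omega) G.n L y ω w hyp
  have hYy : ∀ Y ⊆ G.fld y (y + 2 * K / L), ∀ v ∈ Y, y ≤ v.1 := by
    intro Y hY v hv
    exact ((mem_fld G).mp (hY hv)).2.2.1
  have hmmdef : ∀ u : Pt, mm K A y u = (u.1 + zz K A y u) / 2 := fun u => rfl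
  by_cases hC : ∃ v ∈ ω, v.2 ≤ w.2 ∧ mm K A y w ≤ v.1 ∧ bc ld ω w (v.1 - w.1) ≤ K
  · -- candidates exist
    have hCne : (ω.filter (fun v => v.2 ≤ w.2 ∧ mm K A y w ≤ v.1 ∧
        bc ld ω w (v.1 - w.1) ≤ K)).Nonempty := by
      obtain ⟨v, hv, h⟩ := hC
      exact ⟨v, by rw [Finset.mem_filter]; exact ⟨hv, h⟩⟩
    obtain ⟨u, huC, hubest⟩ := best_ACk hCne
    rw [Finset.mem_filter] at huC
    obtain ⟨huω, hu2, hum, hub⟩ := huC
    have huy : u.1 < y := hyp.2.2.1 u huω
    -- land on `u` unless a fresh point is met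
    have key : ∀ Y ⊆ G.fld y (y + 2 * K / L), E1_ACk K A y w Y →
        (∃ q ∈ Y, LandO K (ω ∪ Y) w (zz K A y w) q) ∨ LandO K (ω ∪ Y) w (zz K A y w) u := by
      intro Y hY e1
      have hR := hK₂ K (by omega) G.n L y ω Y w hyp (hYy Y hY) e1
      obtain ⟨q, hq⟩ := land_exists hR ⟨u, Finset.mem_union_left _ huω, hu2, hum, by
        rw [bc_eq_ACk (hYy Y hY) huy]; exact hub⟩
      have hq' := hq
      obtain ⟨g1, g2, g3, g4, g5, g6⟩ := hq
      rw [Finset.mem_union] at g1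
      rcases g1 with h | h
      · right
        have hqC : q ∈ ω.filter (fun v => v.2 ≤ w.2 ∧ mm K A y w ≤ v.1 ∧
            bc ld ω w (v.1 - w.1) ≤ K) := by
          rw [Finset.mem_filter]
          exact ⟨h, g2, g3, (bc_mono_ACk Finset.subset_union_left _ _).trans g5⟩
        have b1 := hubest q hqC
        have b2 := g6 u (Finset.mem_union_left _ huω) hu2 (by
          rw [bc_eq_ACk (hYy Y hY) huy]; exact hub)
        have e : q = u := by
          rcases b1 with b | ⟨b, b'⟩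
          · exfalso
            rcases b2 with c | ⟨c, c'⟩
            · linarith
            · linarith
          · rcases b2 with c | ⟨c, c'⟩
            · exfalso; linarith
            · exact Prod.ext b (le_antisymm c' b')
        rw [← e]
        exact hq'
      · left
        exact ⟨q, h, hq'⟩
    obtain ⟨f1, -, -⟩ := fail_ACk hp hA hs1 G hyp hZ hy hy0 (le_refl w.2)
    by_cases huL : u.2 < L
    · refine ⟨u, zz K A y w, zz K A y w, by linarith [hZ.2.1], by linarith [hZ.2.1], ?_⟩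
      have hle : prob (tq G.p (40 * A / Real.sqrt K) w.2) (G.fld y (y + 2 * K / L))
          (fun Y => ¬ ((∃ q ∈ Y, LandO K (ω ∪ Y) w (zz K A y w) q) ∨
        (u ∈ ω ∧ u.2 ≤ w.2 ∧ LandO K (ω ∪ Y) w (zz K A y w) u ∧
          (u.2 < L ∨ ∃ q ∈ Y, LandO K (ω ∪ Y) u (zz K A y w) q)))) ≤
          prob (tq G.p (40 * A / Real.sqrt K) w.2) (G.fld y (y + 2 * K / L))
            (fun Y => ¬ E1_ACk K A y w Y) := by
        apply prob_mono hPq
        intro Y hY hn he
        apply hn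
        rcases key Y hY he with h | h
        · exact Or.inl h
        · exact Or.inr ⟨huω, hu2, h, Or.inl huL⟩
      rw [prob_not] at hle
      linarith
    · have huL' : L ≤ u.2 := not_lt.mp huL
      have hu0 : 0 < u.2 := by linarith
      have hd : u.2 * (y - u.1) ≤ 1 / 5 * K := by
        have a1 : u.2 * (y - u.1) ≤ w.2 * (y - u.1) := by
          apply mul_le_mul_of_nonneg_right hu2
          linarith
        have a2 : w.2 * (y - u.1) ≤ w.2 * (y - mm K A y w) := by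
          apply mul_le_mul_of_nonneg_left _ (by linarith)
          linarith
        have a3 := hyp.2.2.2.2.2.2.1
        have a4 := hZ.2.2.2.1
        nlinarith
      have hypu : HypA K A G.n L y ω u :=
        ⟨hL, hyp.2.1, hyp.2.2.1, huω, huL', hu2.trans hyp.2.2.2.2.2.1, by linarith,
          hyp.2.2.2.2.2.2.2⟩
      have hZu := hK₁ K (by omega) G.n L y ω u hypu
      have hmmu : y ≤ mm K A y u := by
        have a4 := hZu.2.2.2.1
        by_contra hcon
        rw [not_le] at hcon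
        nlinarith
      obtain ⟨g1, g2, g3⟩ := fail_ACk hp hA hs1 G hypu hZu hy hy0 hu2
      refine ⟨u, zz K A y w, zz K A y u, by linarith [hZ.2.1], by linarith [hZu.2.1], ?_⟩
      have hle : prob (tq G.p (40 * A / Real.sqrt K) w.2) (G.fld y (y + 2 * K / L))
          (fun Y => ¬ ((∃ q ∈ Y, LandO K (ω ∪ Y) w (zz K A y w) q) ∨
        (u ∈ ω ∧ u.2 ≤ w.2 ∧ LandO K (ω ∪ Y) w (zz K A y w) u ∧
          (u.2 < L ∨ ∃ q ∈ Y, LandO K (ω ∪ Y) u (zz K A y u) q)))) ≤
          prob (tq G.p (40 * A / Real.sqrt K) w.2) (G.fld y (y + 2 * K / L))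
            (fun Y => (¬ E1_ACk K A y w Y ∨ ¬ E1_ACk K A y u Y) ∨
              (¬ E2_ACk K A y u Y ∨ ¬ E3_ACk K A y u Y)) := by
        apply prob_mono hPq
        intro Y hY hn
        by_contra hcon
        push Not at hcon
        obtain ⟨⟨e0, e1⟩, e2, e3⟩ := hcon
        apply hn
        rcases key Y hY e0 with h | h
        · exact Or.inl h
        · right
          refine ⟨huω, hu2, h, Or.inr ?_⟩
          obtain ⟨q, hq⟩ := hK₄ K (by omega) G.n L y ω Y u hypu (hYy Y hY) (by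
            have : 0 ≤ 2 * A * Real.sqrt K / u.2 := by positivity
            linarith) e1 e2 e3
          refine ⟨q, ?_, hq⟩
          have hq1 := hq.1
          rw [Finset.mem_union] at hq1
          rcases hq1 with h' | h'
          · exfalso
            have a1 := hyp.2.2.1 q h'
            have a2 := hq.2.2.1
            rw [← hmmdef u] at a2
            linarith
          · exact h'
      have hle2 := prob_or_le hPq (fun Y => ¬ E1_ACk K A y w Y ∨ ¬ E1_ACk K A y u Y)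
        (fun Y => ¬ E2_ACk K A y u Y ∨ ¬ E3_ACk K A y u Y)
      have hle3 := prob_or_le hPq (fun Y => ¬ E1_ACk K A y w Y) (fun Y => ¬ E1_ACk K A y u Y)
      have hle4 := prob_or_le hPq (fun Y => ¬ E2_ACk K A y u Y) (fun Y => ¬ E3_ACk K A y u Y)
      rw [prob_not] at hle
      linarith
  · -- no candidates
    push Not at hC
    have hC' : ∀ v ∈ ω, v.2 ≤ w.2 → mm K A y w ≤ v.1 → ¬ bc ld ω w (v.1 - w.1) ≤ K := by
      intro v hv h4 h5
      exact not_le.mpr (hC v hv h4 h5)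
    have hym : y ≤ mm K A y w + 2 * A * Real.sqrt K / w.2 := by
      by_contra hcon
      rw [not_le] at hcon
      obtain ⟨q, hq, q2, q1, qb⟩ := hK₃ K (by omega) G.n L y ω w hyp hcon
      exact hC' q hq q2 q1 qb
    obtain ⟨g1, g2, g3⟩ := fail_ACk hp hA hs1 G hyp hZ hy hy0 (le_refl w.2)
    refine ⟨w, zz K A y w, zz K A y w, by linarith [hZ.2.1], by linarith [hZ.2.1], ?_⟩
    have hle : prob (tq G.p (40 * A / Real.sqrt K) w.2) (G.fld y (y + 2 * K / L))
        (fun Y => ¬ ((∃ q ∈ Y, LandO K (ω ∪ Y) w (zz K A y w) q) ∨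
      (w ∈ ω ∧ w.2 ≤ w.2 ∧ LandO K (ω ∪ Y) w (zz K A y w) w ∧
        (w.2 < L ∨ ∃ q ∈ Y, LandO K (ω ∪ Y) w (zz K A y w) q)))) ≤
        prob (tq G.p (40 * A / Real.sqrt K) w.2) (G.fld y (y + 2 * K / L))
          (fun Y => ¬ E1_ACk K A y w Y ∨
            (¬ E2_ACk K A y w Y ∨ ¬ E3_ACk K A y w Y)) := by
      apply prob_mono hPq
      intro Y hY hn
      by_contra hcon
      push Not at hcon
      obtain ⟨e1, e2, e3⟩ := hcon
      apply hn
      left
      obtain ⟨q, hq⟩ := hK₄ K (by omega) G.n L y ω Y w hyp (hYy Y hY) hym e1 e2 e3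
      exact ⟨q, caseA_ACk hC' rfl hq, hq⟩
    have hle2 := prob_or_le hPq (fun Y => ¬ E1_ACk K A y w Y)
      (fun Y => ¬ E2_ACk K A y w Y ∨ ¬ E3_ACk K A y w Y)
    have hle4 := prob_or_le hPq (fun Y => ¬ E2_ACk K A y w Y) (fun Y => ¬ E3_ACk K A y w Y)
    rw [prob_not] at hle
    linarith

end Pool.Agent.Helper67.GR
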