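import Pool.Agent.Helper67.GR.St2

/-! # GR project (MP_d9675d_pr): module ACp, Chebyshev in the tilted field -/

namespace Pool.Agent.Helper67.GR

open Finset

theorem tq_pq_ACp (G : Grid) {b : ℝ} (θ y z : ℝ) (hb : 0 ≤ b) (hb1 : b ≤ 1) :
    Pq (tq G.p b θ) (G.fld y z) := by
  intro v _
  have h1 := G.p_pos
  have h2 := G.p_le
  unfold tq
  split_ifs
  · constructor
    · positivity
    · nlinarith
  · exact ⟨h1.le, by linarith⟩

theorem mean_ACp (G : Grid) {y z c d φ θ b : ℝ} (hy : -(1/2) ≤ y) (hz : z ≤ 1/2)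
    (hyc : y ≤ c) (hcd : c ≤ d) (hdz : d ≤ z) (h0 : 0 ≤ φ) (hφθ : φ ≤ θ) (hφn : φ ≤ G.n)
    (hb : 0 ≤ b) :
    (1 + b) * (φ * (d - c) - 1) ≤
      (∑ v ∈ (G.fld y z).filter (fun v => c ≤ v.1 ∧ v.1 < d ∧ v.2 ≤ φ), tq G.p b θ v) ∧
    (∑ v ∈ (G.fld y z).filter (fun v => c ≤ v.1 ∧ v.1 < d ∧ v.2 ≤ φ), tq G.p b θ v) ≤
      (1 + b) * (φ * (d - c) + 1) := by
  have h1 : (G.fld y z).filter (fun v => c ≤ v.1 ∧ v.1 < d ∧ v.2 ≤ φ) =
      (G.fld c d).filter (fun v => v.2 ≤ φ) := by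
    ext v
    rw [mem_filter, mem_filter, mem_fld, mem_fld]
    constructor
    · rintro ⟨⟨h1, h2, h3, h4⟩, h5, h6, h7⟩
      exact ⟨⟨h1, h2, h5, h6⟩, h7⟩
    · rintro ⟨⟨h1, h2, h3, h4⟩, h5⟩
      exact ⟨⟨h1, h2, hyc.trans h3, h4.trans_le hdz⟩, h3, h4, h5⟩
  rw [h1]
  have h2 : (∑ v ∈ (G.fld c d).filter (fun v => v.2 ≤ φ), tq G.p b θ v) =
      (1 + b) * ∑ _v ∈ (G.fld c d).filter (fun v => v.2 ≤ φ), G.p := by
    rw [mul_sum]
    refine sum_congr rfl fun v hv => ?_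
    unfold tq
    rw [if_pos ((mem_filter.1 hv).2.trans hφθ)]
  rw [h2]
  have h3 := abs_le.1 ((mean_le G c d φ (hy.trans hyc) hcd (hdz.trans hz) h0 hφn).trans G.κ_le)
  have hb1 : 0 ≤ 1 + b := by linarith
  exact ⟨mul_le_mul_of_nonneg_left (by linarith [h3.1]) hb1,
    mul_le_mul_of_nonneg_left (by linarith [h3.2]) hb1⟩

theorem hACp : StACp := by
  intro G y z c d φ θ b t hy hz hyc hcd hdz h0 hφθ hφn hb hb1 ht
  have hq := tq_pq_ACp G θ y z hb hb1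
  obtain ⟨m1, m2⟩ := mean_ACp G hy hz hyc hcd hdz h0 hφθ hφn hb
  have hch := prob_cheb hq (fun v : Pt => c ≤ v.1 ∧ v.1 < d ∧ v.2 ≤ φ) ht
  have hM : (∑ v ∈ (G.fld y z).filter (fun v => c ≤ v.1 ∧ v.1 < d ∧ v.2 ≤ φ),
      tq G.p b θ v) / t ^ 2 ≤ (1 + b) * (φ * (d - c) + 1) / t ^ 2 :=
    div_le_div_of_nonneg_right m2 (by positivity)
  constructor
  · refine le_trans (prob_mono hq fun Y _ hY => ?_) (hch.trans hM)
    unfold cnt at hY
    rw [abs_sub_comm]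
    refine le_trans ?_ (le_abs_self _)
    linarith
  · refine le_trans (prob_mono hq fun Y _ hY => ?_) (hch.trans hM)
    unfold cnt at hY
    refine le_trans ?_ (le_abs_self _)
    linarith

end Pool.Agent.Helper67.GR
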