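import Pool.Agent.Helper67.GR.St2

/-! # GR: elementary facts about `zz` and `mm` -/

namespace Pool.Agent.Helper67.GR

theorem hACz : StACz := by
  intro A hA
  refine ⟨⌈(1000 * A) ^ 2⌉₊, fun K hK n L y ω u hyp => ?_⟩
  obtain ⟨hL, -, hω, hu, hφL, -, hφd, -⟩ := hyp
  have hKr : (1000 * A) ^ 2 ≤ (K : ℝ) := (Nat.le_ceil _).trans (by exact_mod_cast hK)
  set s := Real.sqrt K with hs
  have hs1 : 1000 * A ≤ s := by
    rw [hs]
    exact Real.le_sqrt_of_sq_le hKr
  have hK0 : (0 : ℝ) ≤ K := Nat.cast_nonneg _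
  have hs2 : s * s = K := Real.mul_self_sqrt hK0
  have hs0 : 0 < s := by linarith
  have hKpos : (0 : ℝ) < K := by rw [← hs2]; positivity
  have hφ : 0 < u.2 := by linarith
  have hd : 0 < y - u.1 := by linarith [hω u hu]
  set a := u.2 * (y - u.1) / K with ha
  have haK : a * K = u.2 * (y - u.1) := by rw [ha]; field_simp
  have ha0 : 0 ≤ a := by positivity
  have ha1 : a ≤ 3 / 5 := by
    rw [ha, div_le_iff₀ hKpos]
    exact hφd
  set β := 40 * A * (1 - a) - 4 * A with hβ
  have hβ0 : 0 ≤ β := by rw [hβ]; nlinarith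
  have hβ1 : β ≤ 36 * A := by rw [hβ]; nlinarith
  have hβs : β * s ≤ K / 10 := by
    have h1 : β * s ≤ (36 * A) * s := mul_le_mul_of_nonneg_right hβ1 hs0.le
    have h2 : (1000 * A) * s ≤ s * s := mul_le_mul_of_nonneg_right hs1 hs0.le
    rw [← hs2]
    nlinarith
  have hβs0 : 0 ≤ β * s := mul_nonneg hβ0 hs0.le
  have hzz : u.2 * (zz K A y u - u.1) = K - β * s := by
    unfold zz
    rw [add_sub_cancel_left, mul_div_cancel₀ _ hφ.ne']
  have hmm : u.2 * (mm K A y u - u.1) = (K - β * s) / 2 := by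
    unfold mm
    have h1 : u.2 * ((u.1 + zz K A y u) / 2 - u.1) = (u.2 * (zz K A y u - u.1)) / 2 := by ring
    rw [h1, hzz]
  have hK100 : (1000 : ℝ) ≤ K := by nlinarith
  have hKL : (K : ℝ) / u.2 ≤ K / L := by gcongr
  have hz' : zz K A y u - u.1 = (K - β * s) / u.2 := by
    rw [eq_div_iff hφ.ne', mul_comm]; exact hzz
  have hm' : mm K A y u - u.1 = (K - β * s) / 2 / u.2 := by
    rw [eq_div_iff hφ.ne', mul_comm]; exact hmm
  have hd' : y - u.1 = a * K / u.2 := by
    rw [eq_div_iff hφ.ne', mul_comm, haK]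
  refine ⟨?_, ?_, ?_, ?_, ?_, ?_⟩
  · have h1 : a * K / u.2 < (K - β * s) / u.2 := by
      apply div_lt_div_of_pos_right _ hφ
      nlinarith
    linarith
  · have h1 : (K - β * s) / u.2 ≤ K / u.2 := by
      apply div_le_div_of_nonneg_right _ hφ.le
      linarith
    linarith
  · have h1 : 0 < (K - β * s) / 2 / u.2 := by
      apply div_pos _ hφ
      linarith
    linarith
  · rw [hmm]; linarith
  · rw [hmm]; linarith
  · have h1 : 101 / u.2 ≤ K / 2 / u.2 := by
      apply div_le_div_of_nonneg_right _ hφ.le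
      linarith
    have h2 : (K - β * s) / 2 / u.2 ≤ K / 2 / u.2 := by
      apply div_le_div_of_nonneg_right _ hφ.le
      linarith
    have h3 : (K : ℝ) / u.2 = K / 2 / u.2 + K / 2 / u.2 := by ring
    have h4 : 0 ≤ (K : ℝ) / 2 / u.2 := by positivity
    rcases le_total (mm K A y u) y with h | h
    · rw [max_eq_right h]; linarith
    · rw [max_eq_left h]; linarith

end Pool.Agent.Helper67.GR
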