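import Pool.Agent.Helper67.GR.St2
import Pool.Agent.Helper67.GR.Local
import Pool.Agent.Helper67.GR.RegV
import Pool.Agent.Helper67.GR.KS

/-! # GR project: module BC, the block claim -/

namespace Pool.Agent.Helper67.GR

open Finset

/-- the grid points -/
noncomputable def yj_BC (K : ℕ) (L y : ℝ) (j : ℕ) : ℝ := y + 3 * K / L + j * K / (400 * L)

/-- the path is ready for an attempt at the grid point `j` -/
def T_BC (K : ℕ) (A n L y : ℝ) (w : Pt) (j : ℕ) (X : Finset Pt) : Prop :=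
  ∃ u ∈ X, State K X L (yj_BC K L y j) w u ∧ L ≤ u.2 ∧ u.2 ≤ 20 * L ∧
    u.2 * (yj_BC K L y j - u.1) ≤ 3 / 5 * K ∧ u.1 < yj_BC K L y j ∧
    Reg n X (yj_BC K L y j - 2 * K / L) (yj_BC K L y j) (20 * L) (A * Real.sqrt K)

/-- the first such grid point -/
def F_BC (K : ℕ) (A n L y : ℝ) (w : Pt) (j : ℕ) (X : Finset Pt) : Prop :=
  T_BC K A n L y w j X ∧ ∀ i < j, ¬ T_BC K A n L y w i X

theorem yj_mono_BC {K : ℕ} {L y : ℝ} (hL : 0 < L) {i j : ℕ} (h : i ≤ j) :
    yj_BC K L y i ≤ yj_BC K L y j := by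
  unfold yj_BC
  have h1 : (i : ℝ) ≤ j := by exact_mod_cast h
  have h2 : (0 : ℝ) ≤ K := Nat.cast_nonneg K
  have h3 : (i : ℝ) * K / (400 * L) ≤ j * K / (400 * L) := by gcongr
  linarith

theorem yj_le_BC {K : ℕ} {L y : ℝ} (hL : 0 < L) {j : ℕ} (h : j ≤ 1000) :
    y + 3 * K / L ≤ yj_BC K L y j ∧ yj_BC K L y j ≤ y + 11 / 2 * K / L := by
  unfold yj_BC
  have h1 : (j : ℝ) ≤ 1000 := by exact_mod_cast h
  have h2 : (0 : ℝ) ≤ K := Nat.cast_nonneg K
  have h0 : (0 : ℝ) ≤ j := Nat.cast_nonneg j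
  have h3 : (j : ℝ) * K / (400 * L) ≤ 1000 * K / (400 * L) := by gcongr
  have h4 : (1000 : ℝ) * K / (400 * L) = 5 / 2 * K / L := by
    field_simp
    ring
  have h5 : 11 / 2 * (K : ℝ) / L = 3 * K / L + 5 / 2 * K / L := by ring
  have h6 : 0 ≤ (j : ℝ) * K / (400 * L) := by positivity
  constructor <;> linarith

theorem T_local_BC {K : ℕ} {A n L y : ℝ} {w : Pt} {j : ℕ} {P P' : Finset Pt}
    (hz : yj_BC K L y j ≤ 0) (hPP : ∀ p : Pt, p.1 < yj_BC K L y j → (p ∈ P ↔ p ∈ P')) :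
    T_BC K A n L y w j P ↔ T_BC K A n L y w j P' := by
  have hR : Reg n P (yj_BC K L y j - 2 * K / L) (yj_BC K L y j) (20 * L) (A * Real.sqrt K) ↔
      Reg n P' (yj_BC K L y j - 2 * K / L) (yj_BC K L y j) (20 * L) (A * Real.sqrt K) :=
    reg_congr fun p _ h => hPP p h
  constructor
  · rintro ⟨u, hu, h1, h2, h3, h4, h5, h6⟩
    exact ⟨u, (hPP u h5).1 hu, (state_local hPP hz).1 h1, h2, h3, h4, h5, hR.1 h6⟩
  · rintro ⟨u, hu, h1, h2, h3, h4, h5, h6⟩
    exact ⟨u, (hPP u h5).2 hu, (state_local hPP hz).2 h1, h2, h3, h4, h5, hR.2 h6⟩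

theorem F_local_BC {K : ℕ} {A n L y : ℝ} {w : Pt} {j : ℕ} {P P' : Finset Pt} (hL : 0 < L)
    (hz : yj_BC K L y j ≤ 0) (hPP : ∀ p : Pt, p.1 < yj_BC K L y j → (p ∈ P ↔ p ∈ P')) :
    F_BC K A n L y w j P ↔ F_BC K A n L y w j P' := by
  unfold F_BC
  rw [T_local_BC hz hPP]
  refine and_congr Iff.rfl (forall_congr' fun i => ?_)
  refine imp_congr_right fun hi => not_congr ?_
  have h1 := yj_mono_BC (K := K) (y := y) hL hi.le
  exact T_local_BC (h1.trans hz) fun p hp => hPP p (hp.trans_le h1)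

theorem ind_sum_BC (T : ℕ → Prop) (m : ℕ) :
    ∑ j ∈ range m, ind (T j ∧ ∀ i < j, ¬ T i) ≤ ind (∃ j, j < m ∧ T j) := by
  induction m with
  | zero => simpa using ind_nonneg _
  | succ m ih =>
    rw [sum_range_succ]
    by_cases h : ∃ j, j < m ∧ T j
    · obtain ⟨j, hj, hT⟩ := h
      have h1 : ind (T m ∧ ∀ i < m, ¬ T i) = 0 := ind_of_not fun h => h.2 j hj hT
      have h2 : ind (∃ j, j < m + 1 ∧ T j) = 1 := ind_of ⟨j, by omega, hT⟩
      have h3 := ind_le_one (∃ j, j < m ∧ T j)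
      rw [h1, h2]
      linarith
    · have h1 : ind (∃ j, j < m ∧ T j) = 0 := ind_of_not h
      have h2 : ind (T m ∧ ∀ i < m, ¬ T i) ≤ ind (∃ j, j < m + 1 ∧ T j) :=
        ind_mono fun h => ⟨m, by omega, h.1⟩
      rw [h1] at ih
      linarith

theorem agree_BC {G : Grid} {ω X Y : Finset Pt} {a b c : ℝ} (hY : Y ⊆ G.fld b c) (p : Pt)
    (hp : p.1 < b) : p ∈ ω ∪ (X ∪ Y) ↔ p ∈ ω ∪ X := by
  constructor
  · intro h
    rcases mem_union.1 h with h | h
    · exact mem_union_left _ h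
    · rcases mem_union.1 h with h | h
      · exact mem_union_right _ h
      · exact absurd ((mem_fld G).1 (hY h)).2.2.1 (not_le.2 hp)
  · intro h
    rcases mem_union.1 h with h | h
    · exact mem_union_left _ h
    · exact mem_union_right _ (mem_union_left _ h)

theorem agree2_BC {G : Grid} {ω X : Finset Pt} {a b c : ℝ} (hX : X ⊆ G.fld a c) (p : Pt)
    (hp : p.1 < b) : p ∈ ω ∪ X ↔ p ∈ ω ∪ (X ∩ G.fld a b) := by
  constructor
  · intro h
    rcases mem_union.1 h with h | h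
    · exact mem_union_left _ h
    · obtain ⟨h1, h2, h3, h4⟩ := (mem_fld G).1 (hX h)
      exact mem_union_right _ (mem_inter.2 ⟨h, (mem_fld G).2 ⟨h1, h2, h3, hp⟩⟩)
  · intro h
    rcases mem_union.1 h with h | h
    · exact mem_union_left _ h
    · exact mem_union_right _ (mem_inter.1 h).1

/-- one grid point -/
theorem one_BC {A c : ℝ} {K : ℕ} (hAC : ∀ (G : Grid) (L y : ℝ) (ω : Finset Pt) (w : Pt),
      HypA K A G.n L y ω w → -(1/2) ≤ y → y + 2 * K / L ≤ 0 →
      G.pr y (y + 2 * K / L) (fun Y => Stay K (ω ∪ Y) L (y + 2 * K / L) w) ≤ 1 - c)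
    {G : Grid} {L y : ℝ} {ω : Finset Pt} {w : Pt} (hL : 0 < L) (hy : -(1/2) ≤ y)
    (hy0 : y + 20 * K / L ≤ 0) (hlab : Lab G.n ω) (hω : ∀ v ∈ ω, v.1 < y) {j : ℕ}
    (hj : j ≤ 1000) :
    G.pr y (y + 20 * K / L) (fun Y => Stay K (ω ∪ Y) L (y + 20 * K / L) w ∧
      F_BC K A G.n L y w j (ω ∪ Y)) ≤
    (1 - c) * G.pr y (y + 20 * K / L) (fun Y => F_BC K A G.n L y w j (ω ∪ Y)) := by
  obtain ⟨g1, g2⟩ := yj_le_BC (K := K) (y := y) hL hj
  set t := yj_BC K L y j with ht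
  have hK : (0 : ℝ) ≤ K := Nat.cast_nonneg K
  have e1 : 20 * (K : ℝ) / L = 20 * (K / L) := by ring
  have e2 : 11 / 2 * (K : ℝ) / L = 11 / 2 * (K / L) := by ring
  have e3 : 3 * (K : ℝ) / L = 3 * (K / L) := by ring
  have e4 : 2 * (K : ℝ) / L = 2 * (K / L) := by ring
  have hKL : 0 ≤ (K : ℝ) / L := by positivity
  rw [e3] at g1
  rw [e2] at g2
  have hyt : y ≤ t := by linarith
  have ht2 : t + 2 * K / L ≤ y + 20 * K / L := by rw [e1, e4]; linarith
  have ht1 : t ≤ y + 20 * K / L := by rw [e1]; linarith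
  have ht0 : t ≤ 0 := ht1.trans hy0
  have ht3 : t ≤ t + 2 * K / L := by rw [e4]; linarith
  have hmarg : G.pr y (y + 20 * K / L) (fun Y => F_BC K A G.n L y w j (ω ∪ Y)) =
      G.pr y t (fun Y => F_BC K A G.n L y w j (ω ∪ Y)) := by
    refine pr_marginal G le_rfl ht1 _ fun X hX => ?_
    exact F_local_BC hL ht0 fun p hp => agree2_BC hX p hp
  rw [hmarg]
  refine pr_cond_le G hyt ht1 _ _ (fun X hX Y hY h => ?_) (fun X hX hF => ?_)
  · exact (F_local_BC hL ht0 fun p hp => agree_BC (a := y) hY p hp).1 h.2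
  · obtain ⟨⟨u, hu, hst, hu1, hu2, hu3, hu4, hreg⟩, _⟩ := hF
    have hH : HypA K A G.n L t (ω ∪ X) u := by
      refine ⟨hL, ?_, ?_, hu, hu1, hu2, hu3, hreg⟩
      · intro v hv
        rcases mem_union.1 hv with hv | hv
        · exact hlab v hv
        · exact fld_lab G hX v hv
      · intro v hv
        rcases mem_union.1 hv with hv | hv
        · exact (hω v hv).trans_le hyt
        · exact ((mem_fld G).1 (hX hv)).2.2.2
    have hmain := hAC G L t (ω ∪ X) u hH (hy.trans hyt) (ht2.trans hy0)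
    have hmarg2 : G.pr t (y + 20 * K / L)
        (fun Y => Stay K (ω ∪ X ∪ Y) L (t + 2 * K / L) u) =
        G.pr t (t + 2 * K / L) (fun Y => Stay K (ω ∪ X ∪ Y) L (t + 2 * K / L) u) := by
      refine pr_marginal G le_rfl ht2 _ fun Y hY => ?_
      exact stay_local (fun p hp => agree2_BC hY p hp) (ht2.trans hy0)
    rw [← hmarg2] at hmain
    refine le_trans (prob_mono (fld_pq G _ _) fun Y hY h => ?_) hmain
    obtain ⟨h1, _⟩ := h
    rw [← union_assoc] at h1
    obtain ⟨u', hu'⟩ := stay_prefix ht2 h1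
    have hst' : State K (ω ∪ X ∪ Y) L t w u := by
      refine (state_local (fun p hp => ?_) ht0).1 hst
      rw [union_assoc]
      exact (agree_BC (a := y) hY p hp).symm
    exact ⟨u', state_next ht3 (ht2.trans hy0) hst' hu'⟩

theorem hBC (hac : StAC) (hd : StBCd) : StBC := by
  classical
  obtain ⟨C, hC, hcheb⟩ := reg_cheb
  set A : ℝ := max 10 (Real.sqrt (1602 * C)) with hA
  have hA10 : 10 ≤ A := le_max_left _ _
  have hA0 : 0 < A := by linarith
  have hA2 : 1602 * C ≤ A ^ 2 := by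
    have h1 : Real.sqrt (1602 * C) ≤ A := le_max_right _ _
    have h2 : Real.sqrt (1602 * C) ^ 2 = 1602 * C := Real.sq_sqrt (by positivity)
    rw [← h2]
    exact pow_le_pow_left₀ (Real.sqrt_nonneg _) h1 2
  obtain ⟨c, hc0, hc1, K₁, hAC⟩ := hac A hA10
  obtain ⟨K₂, hBCd⟩ := hd
  obtain ⟨K₃, hK₃⟩ := exists_nat_ge ((2000000 * A) ^ 2)
  refine ⟨c / 2, by linarith, by linarith, max 1 (max K₁ (max K₂ K₃)), ?_⟩
  intro K hK G L y ω w hL hy hy0 hlab hω hw hwL hw18 hRr hreg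
  have hK1 : 1 ≤ K := (le_max_left _ _).trans hK
  have hKK1 : K₁ ≤ K := ((le_max_left _ _).trans (le_max_right _ _)).trans hK
  have hKK2 : K₂ ≤ K :=
    ((le_max_left _ _).trans ((le_max_right _ _).trans (le_max_right _ _))).trans hK
  have hKK3 : K₃ ≤ K :=
    ((le_max_right _ _).trans ((le_max_right _ _).trans (le_max_right _ _))).trans hK
  have hKr : (1 : ℝ) ≤ K := by exact_mod_cast hK1
  have hs0 : 0 < Real.sqrt K := Real.sqrt_pos.2 (by linarith)
  have hss : Real.sqrt K * Real.sqrt K = K := Real.mul_self_sqrt (by linarith)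
  have hsA : A * Real.sqrt K ≤ 1 / 2000000 * K := by
    have h1 : (2000000 * A) ^ 2 ≤ K := hK₃.trans (by exact_mod_cast hKK3)
    have h2 : 2000000 * A ≤ Real.sqrt K := Real.le_sqrt_of_sq_le h1
    nlinarith
  have hKL : 0 < (K : ℝ) / L := by positivity
  have e1 : 20 * (K : ℝ) / L = 20 * (K / L) := by ring
  have e10 : 10 * (K : ℝ) / L = 10 * (K / L) := by ring
  set z := y + 20 * K / L with hz
  have hyz : y ≤ z := by rw [hz, e1]; linarith
  -- the events
  set Ev : Finset Pt → Prop := fun Y => ∃ j, j < 1001 ∧ T_BC K A G.n L y w j (ω ∪ Y) with hEv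
  have hpq := fld_pq G y z
  have hreg0 : G.pr y z (fun Y => ¬ Reg G.n Y y z (40 * L) (A * Real.sqrt K)) ≤ 1 / 2 := by
    refine (hcheb G y z (40 * L) (A * Real.sqrt K) hy hyz (by linarith) (by linarith)
      (by positivity)).trans ?_
    have h1 : z - y = 20 * (K / L) := by rw [hz, e1]; ring
    have h2 : 40 * L * (20 * ((K : ℝ) / L)) = 800 * K := by
      field_simp
      ring
    rw [h1, h2, mul_pow, sq (Real.sqrt (K : ℝ)), hss, div_le_iff₀ (by positivity)]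
    nlinarith
  -- part (i)
  have hi : G.pr y z (fun Y => Stay K (ω ∪ Y) L z w ∧ ¬ Ev Y) ≤ 1 / 2 := by
    refine le_trans (prob_mono hpq fun Y hY h => ?_) hreg0
    intro hR
    refine h.2 ?_
    have hagr : ∀ p : Pt, y ≤ p.1 → p.1 < z → (p ∈ Y ↔ p ∈ ω ∪ Y) := by
      intro p hp _
      constructor
      · exact fun h => mem_union_right _ h
      · intro h
        rcases mem_union.1 h with h | h
        · exact absurd (hω p h) (not_lt.2 hp)
        · exact h
    have hagr2 : ∀ p : Pt, p.1 < y → (p ∈ ω ↔ p ∈ ω ∪ Y) := by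
      intro p hp
      constructor
      · exact fun h => mem_union_left _ h
      · intro h
        rcases mem_union.1 h with h | h
        · exact h
        · exact absurd ((mem_fld G).1 (hY h)).2.2.1 (not_le.2 hp)
    have hlab' : Lab G.n (ω ∪ Y) := by
      intro v hv
      rcases mem_union.1 hv with hv | hv
      · exact hlab v hv
      · exact fld_lab G hY v hv
    have hn0 : (0 : ℝ) ≤ G.n := by linarith [G.n_one]
    have hR' : Reg G.n (ω ∪ Y) y z (40 * L) (A * Real.sqrt K) := (reg_congr hagr).1 hR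
    have hR'' : Reg G.n (ω ∪ Y) (y - 10 * K / L) y (40 * L) (1 / 2000000 * K) :=
      (reg_congr fun p _ hp => hagr2 p hp).1 hreg
    have hglue := reg_glue hR'' hR' (by rw [e10]; linarith) hyz (by linarith) hn0
    have hfull : Reg G.n (ω ∪ Y) (y - 10 * K / L) z (40 * L) (1 / 1000000 * K) :=
      reg_mono hglue le_rfl le_rfl le_rfl (by linarith)
    have hRr' : Rr (ω ∪ Y) w y ≤ K := by
      rw [← rr_local hagr2 le_rfl]
      exact hRr
    obtain ⟨j, hj, u, hu, hst, h1, h2, h3, h4⟩ := hBCd K hKK2 G.n L y (ω ∪ Y) w hL hlab' hy0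
      (mem_union_left _ hw) (hω w hw) hwL hw18 hRr' hfull h.1
    obtain ⟨g1, g2⟩ := yj_le_BC (K := K) (y := y) hL hj
    have e3 : 3 * (K : ℝ) / L = 3 * (K / L) := by ring
    have e4 : 2 * (K : ℝ) / L = 2 * (K / L) := by ring
    have e2 : 11 / 2 * (K : ℝ) / L = 11 / 2 * (K / L) := by ring
    rw [e3] at g1
    rw [e2] at g2
    refine ⟨j, by omega, u, hu, hst, h1, h2, h3, h4, ?_⟩
    refine reg_mono hR' ?_ ?_ (by linarith) le_rfl
    · rw [e4]; linarith
    · rw [hz, e1]; linarith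
  -- part (ii)
  have hii : G.pr y z (fun Y => Stay K (ω ∪ Y) L z w ∧ Ev Y) ≤ (1 - c) * G.pr y z Ev := by
    have h1 : G.pr y z (fun Y => Stay K (ω ∪ Y) L z w ∧ Ev Y) ≤
        ∑ j ∈ range 1001, G.pr y z (fun Y => Stay K (ω ∪ Y) L z w ∧
          F_BC K A G.n L y w j (ω ∪ Y)) := by
      refine le_trans (prob_mono hpq fun Y hY h => ?_)
        (prob_exists_le hpq (range 1001) fun j Y => Stay K (ω ∪ Y) L z w ∧
          F_BC K A G.n L y w j (ω ∪ Y))
      obtain ⟨hs, j, hj, hT⟩ := h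
      have hex : ∃ j, T_BC K A G.n L y w j (ω ∪ Y) := ⟨j, hT⟩
      refine ⟨Nat.find hex, mem_range.2 ((Nat.find_min' hex hT).trans_lt hj), hs,
        Nat.find_spec hex, fun i hi => Nat.find_min hex hi⟩
    have h2 : ∑ j ∈ range 1001, G.pr y z (fun Y => Stay K (ω ∪ Y) L z w ∧
          F_BC K A G.n L y w j (ω ∪ Y)) ≤
        ∑ j ∈ range 1001, (1 - c) * G.pr y z (fun Y => F_BC K A G.n L y w j (ω ∪ Y)) :=
      sum_le_sum fun j hj => one_BC (hAC K hKK1) hL hy hy0 hlab hω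
        (by have := mem_range.1 hj; omega)
    have h3 : ∑ j ∈ range 1001, G.pr y z (fun Y => F_BC K A G.n L y w j (ω ∪ Y)) ≤
        G.pr y z Ev := by
      unfold Grid.pr prob
      rw [← bern_sum]
      exact bern_mono hpq fun Y _ => ind_sum_BC (fun j => T_BC K A G.n L y w j (ω ∪ Y)) 1001
    rw [← mul_sum] at h2
    have h4 : (1 - c) * ∑ j ∈ range 1001, G.pr y z (fun Y => F_BC K A G.n L y w j (ω ∪ Y)) ≤
        (1 - c) * G.pr y z Ev := mul_le_mul_of_nonneg_left h3 (by linarith)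
    exact h1.trans (h2.trans h4)
  -- conclusion
  have hsum : G.pr y z (fun Y => Stay K (ω ∪ Y) L z w) ≤
      G.pr y z (fun Y => Stay K (ω ∪ Y) L z w ∧ ¬ Ev Y) +
      G.pr y z (fun Y => Stay K (ω ∪ Y) L z w ∧ Ev Y) := by
    refine prob_le_of_le_add hpq fun Y _ h => ?_
    by_cases hE : Ev Y
    · exact Or.inr ⟨h, hE⟩
    · exact Or.inl ⟨h, hE⟩
  have hcompl : G.pr y z (fun Y => Stay K (ω ∪ Y) L z w ∧ ¬ Ev Y) ≤ 1 - G.pr y z Ev := by
    have h1 : G.pr y z (fun Y => ¬ Ev Y) = 1 - G.pr y z Ev := prob_not _ _ _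
    rw [← h1]
    exact prob_mono hpq fun Y _ h => h.2
  nlinarith

end Pool.Agent.Helper67.GR
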