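import Pool.Agent.Helper67.GR.St2
import Pool.Agent.Helper67.GR.Grow

/-! # GR: deterministic part of the block claim -/

namespace Pool.Agent.Helper67.GR

/-- monotonicity of chains -/
theorem mono_BCd {α : Type} {r p : α → α → Prop} {a b : α} (h : ∀ x y, r x y → p x y)
    (hab : Relation.ReflTransGen r a b) : Relation.ReflTransGen p a b := by
  induction hab with
  | refl => exact Relation.ReflTransGen.refl
  | tail _ h2 ih => exact ih.tail (h _ _ h2)

/-- the chain of steps with a lower bound for the positions -/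
theorem chain_BCd {K : ℕ} {P : Finset Pt} {Λ z c : ℝ} {w u : Pt} (hz : z ≤ 0) (hc : c ≤ w.1)
    (h : Relation.ReflTransGen (GStep K P Λ z) w u) :
    Relation.ReflTransGen (fun w' v => GStep K P Λ z w' v ∧ c ≤ w'.1) w u := by
  induction h with
  | refl => exact Relation.ReflTransGen.refl
  | tail h1 h2 ih => exact ih.tail ⟨h2, hc.trans (path_pos hz h1).1⟩

/-- many points of small label -/
theorem rr_ge_BCd {n : ℝ} {K : ℕ} {P : Finset Pt} {a b Λ e L c d : ℝ} {w : Pt}
    (hReg : Reg n P a b Λ e) (hac : a ≤ c) (hcd : c ≤ d) (hdb : d ≤ b) (hL : 0 ≤ L)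
    (hLΛ : L ≤ Λ) (hLn : L ≤ n) (hLw : L ≤ w.2) (hwc : w.1 < c)
    (hK : (K : ℝ) + e < L * (d - c)) : K < Rr P w d := by
  have h1 := hReg c d L hac hcd hdb hL hLΛ hLn
  have h2 := (abs_le.1 h1).1
  have h3 : (K : ℝ) < (cnt P c d L : ℝ) := by linarith
  have h4 : K < cnt P c d L := by exact_mod_cast h3
  refine lt_of_lt_of_le h4 ?_
  unfold cnt Rr
  apply Finset.card_le_card
  intro p hp
  rw [Finset.mem_filter] at hp ⊢
  obtain ⟨hp0, hp1, hp2, hp3⟩ := hp
  exact ⟨hp0, hp3.trans hLw, lt_of_lt_of_le hwc hp1, hp2⟩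

theorem hBCd : StBCd := by
  refine ⟨10 ^ 8, ?_⟩
  intro K hK n L y P w hL hLab hz0 hw hwy hLw hw18 hRr hReg hStay
  have hKr : (10 : ℝ) ^ 8 ≤ K := by exact_mod_cast hK
  have hKr' : (100000000 : ℝ) ≤ K := by norm_num at hKr ⊢; exact hKr
  have hK0 : (0 : ℝ) < K := by linarith
  obtain ⟨κ, hκ⟩ : ∃ κ : ℝ, κ = K / L := ⟨_, rfl⟩
  have hκ0 : 0 < κ := by rw [hκ]; positivity
  have hLκ : L * κ = K := by rw [hκ]; field_simp
  have e20 : y + 20 * K / L = y + 20 * κ := by rw [hκ]; ring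
  have e10 : y - 10 * K / L = y - 10 * κ := by rw [hκ]; ring
  have ej : ∀ j : ℕ, y + 3 * K / L + j * K / (400 * L) = y + 3 * κ + j * κ / 400 := by
    intro j
    rw [hκ]
    field_simp
  rw [e20] at hz0 hReg hStay
  rw [e10] at hReg
  simp only [ej]
  obtain ⟨e, he⟩ : ∃ e : ℝ, e = 1 / 1000000 * K := ⟨_, rfl⟩
  rw [← he] at hReg
  have he0 : 0 ≤ e := by rw [he]; positivity
  have hηK : 4 ≤ (1 / 1000000 : ℝ) * K := by linarith
  have hnw : w.2 ≤ n := (hLab w hw).2
  have hLn : L ≤ n := hLw.trans hnw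
  -- position of `w`
  have hw1 : y - 11 / 10 * κ ≤ w.1 := by
    by_contra hcon
    push Not at hcon
    have := rr_ge_BCd (K := K) (w := w) (L := L) (c := y - 11 / 10 * κ) (d := y) hReg
      (by linarith) (by linarith) (by linarith) hL.le (by linarith) hLn hLw hcon
      (by
        have : L * (y - (y - 11 / 10 * κ)) = 11 / 10 * (L * κ) := by ring
        rw [this, hLκ, he]
        linarith)
    omega
  -- the final state and the state at `y + 3 κ`
  obtain ⟨f, hf⟩ := hStay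
  obtain ⟨u, hu1, hu2⟩ := state_prefix (z := y + 3 * κ) (by linarith) hf
  have hy0 : y + 3 * κ ≤ 0 := by linarith
  obtain ⟨hch, hLu, hRu⟩ := hu1
  obtain ⟨hwu, hcase⟩ := path_pos hy0 hch
  have hu3 : u.1 < y + 3 * κ := by
    rcases hcase with h | h
    · rw [h]; linarith
    · exact h.2.2
  have hexp0 : Real.exp (48 * (1 / 1000000 : ℝ) * (19 * L) * ((y + 20 * κ) - (y - 10 * κ)) / K) ≤
      19 / 18 := by
    have h1 : 48 * (1 / 1000000 : ℝ) * (19 * L) * ((y + 20 * κ) - (y - 10 * κ)) / K =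
        2736 / 100000 := by
      have : 48 * (1 / 1000000 : ℝ) * (19 * L) * ((y + 20 * κ) - (y - 10 * κ)) =
        2736 / 100000 * (L * κ) := by ring
      rw [this, hLκ]
      field_simp
    rw [h1]
    have h2 := Real.add_one_le_exp (-(2736 / 100000) : ℝ)
    have h3 : Real.exp (2736 / 100000) * Real.exp (-(2736 / 100000)) = 1 := by
      rw [← Real.exp_add]; simp
    have h4 := Real.exp_pos (2736 / 100000 : ℝ)
    nlinarith
  -- growth
  have hgrow := grow (δ := ld) (n := n) (K := K) (P := P) (w₀ := w) (u := u)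
    (a := y - 10 * κ) (b := y + 20 * κ) (Λ₀ := 18 * L) (Λm := 19 * L) (η := 1 / 1000000) (e := e)
    (by norm_num) (by norm_num) he0 he.le hηK (by linarith) (by linarith) hLab
    (reg_mono hReg le_rfl le_rfl (by linarith) le_rfl) hz0
    (fun c _ _ => met_ld _ _ _)
    (by
      have := mul_le_mul_of_nonneg_left hexp0 (show (0 : ℝ) ≤ 18 * L by linarith)
      linarith)
    hw (by linarith) hw18
    (by
      refine mono_BCd ?_ (chain_BCd hy0 hw1 hch)
      rintro w' v ⟨⟨hs, hs1, hs2⟩, hs3⟩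
      refine ⟨hs, ?_, ?_⟩
      · have : (K : ℝ) / (18 * L) = κ / 18 := by rw [hκ]; field_simp
        rw [this]
        linarith
      · have h1 := rr_pos_lt hs2
        have h2 : ((K : ℝ) - e) / max w'.2 (18 * L) ≤ K / (18 * L) := by
          apply div_le_div₀ hK0.le (by linarith) (by linarith) (le_max_right _ _)
        have : (K : ℝ) / (18 * L) = κ / 18 := by rw [hκ]; field_simp
        rw [this] at h2
        linarith)
  obtain ⟨huP, -, hu19'⟩ := hgrow
  have hu19 : u.2 ≤ 19 * L := by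
    refine hu19'.trans ?_
    have h1 : 48 * (1 / 1000000 : ℝ) * (19 * L) * (u.1 - w.1) / K ≤
        48 * (1 / 1000000 : ℝ) * (19 * L) * ((y + 20 * κ) - (y - 10 * κ)) / K := by
      apply div_le_div_of_nonneg_right _ hK0.le
      apply mul_le_mul_of_nonneg_left (by linarith) (by positivity)
    have h2 := (Real.exp_le_exp.2 h1).trans hexp0
    have := mul_le_mul_of_nonneg_left h2 (show (0 : ℝ) ≤ 18 * L by linarith)
    linarith
  have hun : u.2 ≤ n := (hLab u huP).2
  have hu20 : 0 < u.2 := by linarith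
  -- the index
  have hbig : K < Rr P u (y + 3 * κ + ((1000 : ℕ) : ℝ) * κ / 400) := by
    apply rr_ge_BCd (K := K) (w := u) (L := L) (c := y + 3 * κ) hReg
      (by linarith) _ _ hL.le (by linarith) hLn hLu hu3
    · have : L * (y + 3 * κ + ((1000 : ℕ) : ℝ) * κ / 400 - (y + 3 * κ)) = 5 / 2 * (L * κ) := by
        push_cast
        ring
      rw [this, hLκ, he]
      linarith
    · push_cast
      linarith
    · push_cast
      linarith
  have hex : ∃ j : ℕ, K < Rr P u (y + 3 * κ + (j : ℝ) * κ / 400) := ⟨1000, hbig⟩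
  classical
  obtain ⟨j, hj, hjmin⟩ : ∃ j : ℕ, K < Rr P u (y + 3 * κ + (j : ℝ) * κ / 400) ∧
      ∀ i < j, ¬ K < Rr P u (y + 3 * κ + (i : ℝ) * κ / 400) :=
    ⟨Nat.find hex, Nat.find_spec hex, fun i hi => Nat.find_min hex hi⟩
  have hj1000 : j ≤ 1000 := by
    by_contra hcon
    push Not at hcon
    exact hjmin 1000 hcon hbig
  have hj1 : 1 ≤ j := by
    by_contra hcon
    have : j = 0 := by omega
    subst this
    have h0 : y + 3 * κ + ((0 : ℕ) : ℝ) * κ / 400 = y + 3 * κ := by push_cast; ring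
    rw [h0] at hj
    omega
  have hjr : (j : ℝ) ≤ 1000 := by exact_mod_cast hj1000
  have hjκ : (j : ℝ) * κ ≤ 1000 * κ := mul_le_mul_of_nonneg_right hjr hκ0.le
  have hjκ0 : 0 ≤ (j : ℝ) * κ := by positivity
  -- the first step
  have hRz : K < Rr P u (y + 20 * κ) := lt_of_lt_of_le hj (rr_mono (by linarith))
  obtain ⟨v, hstep, hv⟩ : ∃ v, GStep K P L (y + 20 * κ) u v ∧ State K P L (y + 20 * κ) v f := by
    obtain ⟨hc1, hc2, hc3⟩ := hu2
    rcases Relation.ReflTransGen.cases_head hc1 with h | ⟨v, h1, h2⟩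
    · rw [h] at hRz
      omega
    · exact ⟨v, h1, h2, hc2, hc3⟩
  have hLv : L ≤ v.2 := state_label_Land hv
  obtain ⟨hst, -, -⟩ := hstep
  have hvP : v ∈ P := hst.1
  have hau : y - 10 * κ ≤ u.1 - K / u.2 := by
    have h1 : (K : ℝ) / u.2 ≤ K / L := div_le_div_of_nonneg_left hK0.le hL hLu
    rw [← hκ] at h1
    linarith
  have hbu : u.1 + (K - e) / u.2 ≤ y + 20 * κ := by
    have h1 : ((K : ℝ) - e) / u.2 ≤ K / L := div_le_div₀ hK0.le (by linarith) hL hLu
    rw [← hκ] at h1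
    linarith
  have hclimb : v.2 < u.2 * (1 + 16 * (1 / 1000000)) :=
    climb (δ := ld) (n := n) (K := K) (P := P) (a := y - 10 * κ) (b := y + 20 * κ) (e := e)
      (by norm_num) (by norm_num) he0 he.le hηK hu20 hLab huP le_rfl
      (fun c _ _ => met_ld _ _ _) (reg_mono hReg le_rfl le_rfl (by linarith) le_rfl)
      hau hbu hz0 hst
  have hprog : u.1 + (K - 3 * e - 2) / (2 * u.2) ≤ v.1 :=
    progress (δ := ld) (n := n) (K := K) (P := P) (a := y - 10 * κ) (b := y + 20 * κ) (e := e)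
      (η := 1 / 1000000) (by norm_num) (by norm_num) he0 he.le hηK hu20 hun hLab huP le_rfl
      (fun c _ _ => met_ld _ _ _) (reg_mono hReg le_rfl le_rfl (by linarith) le_rfl)
      hau hbu hz0 hst
  have hvj : v.1 < y + 3 * κ + (j : ℝ) * κ / 400 := reach hj hst.2.1
  -- numbers
  have hprev : u.2 * (y + 3 * κ + ((j - 1 : ℕ) : ℝ) * κ / 400 - u.1) ≤ K + e := by
    have h1 := hjmin (j - 1) (by omega)
    push Not at h1
    have h1' : (Rr P u (y + 3 * κ + ((j - 1 : ℕ) : ℝ) * κ / 400) : ℝ) ≤ K := by exact_mod_cast h1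
    have hj' : ((j - 1 : ℕ) : ℝ) * κ ≤ 1000 * κ :=
      mul_le_mul_of_nonneg_right (by exact_mod_cast (show j - 1 ≤ 1000 by omega)) hκ0.le
    have hj'' : 0 ≤ ((j - 1 : ℕ) : ℝ) * κ := by positivity
    have h2 := rr_reg hReg (w := u) (z := y + 3 * κ + ((j - 1 : ℕ) : ℝ) * κ / 400) (by linarith)
      (by linarith) (by linarith) hu20.le (by linarith) hun
    have h3 := (abs_le.1 h2).1
    linarith
  have hcast : ((j - 1 : ℕ) : ℝ) = (j : ℝ) - 1 := by
    rw [Nat.cast_sub hj1]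
    simp
  rw [hcast] at hprev
  have hu4 : u.2 * κ ≤ 19 * K := by
    have := mul_le_mul_of_nonneg_right hu19 hκ0.le
    calc u.2 * κ ≤ 19 * L * κ := this
      _ = 19 * (L * κ) := by ring
      _ = 19 * K := by rw [hLκ]
  have hprog2 : (K - 3 * e - 2) / 2 ≤ u.2 * (v.1 - u.1) := by
    have h1 : (K - 3 * e - 2) / (2 * u.2) ≤ v.1 - u.1 := by linarith
    have h2 := mul_le_mul_of_nonneg_left h1 hu20.le
    have h3 : u.2 * ((K - 3 * e - 2) / (2 * u.2)) = (K - 3 * e - 2) / 2 := by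
      field_simp
    linarith
  have hu5 : u.2 * (y + 3 * κ + (j : ℝ) * κ / 400 - v.1) ≤ 56 / 100 * K := by
    have h1 : u.2 * (y + 3 * κ + (j : ℝ) * κ / 400 - v.1) =
        u.2 * (y + 3 * κ + ((j : ℝ) - 1) * κ / 400 - u.1) + u.2 * κ / 400 -
          u.2 * (v.1 - u.1) := by ring
    rw [h1]
    have h2 : (e : ℝ) ≤ K / 1000000 := by rw [he]; linarith
    linarith
  have hv5 : v.2 * (y + 3 * κ + (j : ℝ) * κ / 400 - v.1) ≤ 3 / 5 * K := by
    have h0 : 0 ≤ y + 3 * κ + (j : ℝ) * κ / 400 - v.1 := by linarith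
    have h1 := mul_le_mul_of_nonneg_right hclimb.le h0
    have h2 : u.2 * (1 + 16 * (1 / 1000000)) * (y + 3 * κ + (j : ℝ) * κ / 400 - v.1) =
        (1 + 16 * (1 / 1000000)) * (u.2 * (y + 3 * κ + (j : ℝ) * κ / 400 - v.1)) := by ring
    rw [h2] at h1
    have h3 := mul_le_mul_of_nonneg_left hu5 (show (0 : ℝ) ≤ 1 + 16 * (1 / 1000000) by norm_num)
    linarith
  have hv20 : v.2 ≤ 20 * L := by linarith
  have huv : u.1 ≤ v.1 := by
    have : 0 ≤ ((K : ℝ) - 3 * e - 2) / (2 * u.2) := by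
      apply div_nonneg _ (by linarith)
      rw [he]
      linarith
    linarith
  refine ⟨j, hj1000, v, hvP, ⟨?_, hLv, ?_⟩, hLv, hv20, hv5, hvj⟩
  · refine Relation.ReflTransGen.tail (mono_BCd ?_ hch) ⟨hst, hLu, hj⟩
    intro p q hpq
    exact gstep_mono (by linarith) le_rfl hpq
  · have h1 := rr_reg hReg (w := v) (z := y + 3 * κ + (j : ℝ) * κ / 400) (by linarith)
      hvj.le (by linarith) (by linarith) (by linarith) (hLab v hvP).2
    have h2 := (abs_le.1 h1).2
    have h3 : (Rr P v (y + 3 * κ + (j : ℝ) * κ / 400) : ℝ) ≤ K := by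
      have h4 : (e : ℝ) ≤ K / 1000000 := by rw [he]; linarith
      linarith
    exact_mod_cast h3

end Pool.Agent.Helper67.GR
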