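import Pool.Agent.Helper67.GR.St3
import Pool.Agent.Helper67.GR.Metl
import Pool.Agent.Helper67.GR.Edge
import Pool.Agent.Helper67.GR.Grow
import Pool.Agent.Helper67.GR.RegV
import Pool.Agent.Helper67.GR.Local

/-! # GR project: module BTR, tracing back a path -/

namespace Pool.Agent.Helper67.GR

open Finset

theorem step_BTR {K : ℕ} {P P' : Finset Pt} {w v : Pt}
    (h : ∀ u, (u ∈ P ∧ adj cd K P w u) ↔ (u ∈ P' ∧ adj ld K P' w u))
    (hs : Step cd K P w v) : Step ld K P' w v := by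
  obtain ⟨h1, h2, h3, h4⟩ := hs
  obtain ⟨g1, g2⟩ := (h v).1 ⟨h1, h2⟩
  refine ⟨g1, g2, h3, fun u hu ha => ?_⟩
  obtain ⟨k1, k2⟩ := (h u).2 ⟨hu, ha⟩
  exact h4 u k1 k2

theorem chain_BTR (r : Pt → Pt → Prop) (v : ℕ → Pt) {j i : ℕ} (hji : j ≤ i)
    (h : ∀ l, j ≤ l → l < i → r (v l) (v (l + 1))) : Relation.ReflTransGen r (v j) (v i) := by
  induction i, hji using Nat.le_induction with
  | base => exact .refl
  | succ i hji ih => exact (ih fun l h1 h2 => h l h1 (by omega)).tail (h i hji (by omega))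

theorem mem_BTR {K : ℕ} {P : Finset Pt} {s : Pt} {v : ℕ → Pt} {m : ℕ} (h : IsPath K P s v m)
    {i : ℕ} (hi : i ≤ m) : v i ∈ P := by
  rcases Nat.eq_zero_or_pos i with rfl | h0
  · rw [h.1]; exact h.2.1
  · have := h.2.2 (i - 1) (by omega)
    rw [Nat.sub_add_cancel h0] at this
    exact this.1

theorem abs_BTR {K : ℕ} {P : Finset Pt} {s : Pt} {v : ℕ → Pt} {m : ℕ} (h : IsPath K P s v m)
    {i : ℕ} (hi : i ≤ m) : |(v i).1| ≤ |s.1| := by
  induction i with
  | zero => rw [h.1]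
  | succ i ih => exact (h.2.2 i (by omega)).2.2.1.le.trans (ih (by omega))

theorem hBTR (hcl : StCL) : StBTR := by
  classical
  refine ⟨4, ?_⟩
  intro ℓ K hℓ hpar n M A₀ y z P P' s v m k hM hLab hLab' hP hP' hPP hA₀ hy0 hReg' hA₀z hzy hyA
    hpath hkm hvk1 hvk2 hvk3
  -- numerics
  have hℓr : (4 : ℝ) ≤ ℓ := by exact_mod_cast hℓ
  have hℓ0 : (0 : ℝ) < ℓ := by linarith
  have hK8 : (ℓ : ℝ) ^ 8 ≤ K := by exact_mod_cast hpar.1
  have hK1600 : 1600 * (ℓ : ℝ) ≤ K := by
    have h1 : (4 : ℝ) ^ 7 ≤ (ℓ : ℝ) ^ 7 := pow_le_pow_left₀ (by norm_num) hℓr 7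
    have h2 : (ℓ : ℝ) ^ 8 = (ℓ : ℝ) ^ 7 * ℓ := pow_succ _ _
    have h3 : (4 : ℝ) ^ 7 * ℓ ≤ (ℓ : ℝ) ^ 7 * ℓ := mul_le_mul_of_nonneg_right h1 hℓ0.le
    have h4 : (4 : ℝ) ^ 7 = 16384 := by norm_num
    rw [h4] at h3
    linarith
  have hK0 : (0 : ℝ) < K := by linarith
  have hK10 : 10 ≤ K := by
    have : (10 : ℝ) ≤ K := by linarith
    exact_mod_cast this
  obtain ⟨e, he⟩ : ∃ e : ℝ, e = K / (400 * ℓ) := ⟨_, rfl⟩
  rw [← he] at hReg'
  have he0 : 0 ≤ e := by rw [he]; positivity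
  have he4 : 4 ≤ e := by
    rw [he, le_div_iff₀ (by positivity)]
    linarith
  have he10 : e ≤ (K : ℝ) / 10 := by
    rw [he]
    apply div_le_div_of_nonneg_left hK0.le (by norm_num)
    linarith
  obtain ⟨R, hR⟩ : ∃ R : ℝ, R = (K : ℝ) / M := ⟨_, rfl⟩
  have hR0 : 0 < R := by rw [hR]; positivity
  have eR : ∀ x : ℝ, x * K / M = x * R := fun x => by rw [hR]; ring
  have hRM : R * M = K := by rw [hR]; field_simp
  simp only [eR, ← hR] at hPP hA₀ hy0 hReg' hyA hzy hvk1 hvk2 ⊢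
  -- regularity for P
  have hReg : Reg n P (A₀ - 30 * R) (y + 30 * R) (2 * M) e := (reg_congr hPP).2 hReg'
  have hyneg : y ≤ -(30 * R) := by linarith
  have hmet : ∀ ρ c : ℝ, 0 ≤ ρ → ρ ≤ 10 * R → A₀ - 30 * R ≤ c → c ≤ y + 30 * R →
      Met cd P ρ c := by
    intro ρ c hρ hρ1 h1 h2
    refine met_cd hP ?_ hρ
    rw [abs_of_nonpos (by linarith)]
    linarith
  -- neighbourhoods agree
  have hnb : ∀ w ∈ P, M / 8 ≤ w.2 → A₀ ≤ w.1 → w.1 ≤ y + R →
      ∀ u, (u ∈ P ∧ adj cd K P w u) ↔ (u ∈ P' ∧ adj ld K P' w u) := by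
    intro w hw hw2 hw1 hw3
    refine hcl cd ld n M (A₀ - 30 * R) (y + 30 * R) e K P P' w hM he0 he10 hK10 hLab hLab' hPP
      hw hw2 ?_ ?_ hReg fun c hc => ?_
    · rw [eR]; linarith
    · rw [eR]; linarith
    · rw [eR] at hc ⊢
      obtain ⟨c1, c2⟩ := abs_le.1 hc
      exact ⟨hmet _ c (by linarith) (by linarith) (by linarith) (by linarith), met_ld _ _ _⟩
  -- the good indices
  set Q : ℕ → Prop := fun j => j ≤ k ∧ ∀ i, j ≤ i → i ≤ k →
    (A₀ ≤ (v i).1 ∧ (v i).1 ≤ y + R ∧ M / 8 ≤ (v i).2) with hQ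
  have hQk : Q k := by
    refine ⟨le_rfl, fun i h1 h2 => ?_⟩
    have : i = k := le_antisymm h2 h1
    subst this
    exact ⟨by linarith, hvk2, by linarith⟩
  have hstay : ∀ j, Q j → Stay K P' (M / 8) z (v j) := by
    intro j hj
    have hex : ∃ i, j ≤ i ∧ Rr P' (v i) z ≤ K := by
      refine ⟨k, hj.1, ?_⟩
      by_contra hcon
      have := rr_pos_lt (not_le.1 hcon)
      linarith
    obtain ⟨i₁, ⟨g1, g2⟩, g4⟩ : ∃ i, (j ≤ i ∧ Rr P' (v i) z ≤ K) ∧
        ∀ l < i, ¬ (j ≤ l ∧ Rr P' (v l) z ≤ K) :=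
      ⟨Nat.find hex, Nat.find_spec hex, fun l hl => Nat.find_min hex hl⟩
    have g3 : i₁ ≤ k := by
      by_contra hcon
      refine g4 k (not_le.1 hcon) ⟨hj.1, ?_⟩
      by_contra hcon
      have := rr_pos_lt (not_le.1 hcon)
      linarith
    refine ⟨v i₁, chain_BTR _ v g1 fun l h1 h2 => ?_, (hj.2 i₁ g1 g3).2.2, g2⟩
    obtain ⟨q1, q2, q3⟩ := hj.2 l h1 (by omega)
    refine ⟨step_BTR (hnb (v l) (mem_BTR hpath (by omega)) q3 q1 q2) (hpath.2.2 l (by omega)),
      q3, ?_⟩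
    by_contra hcon
    exact g4 l h2 ⟨h1, not_lt.1 hcon⟩
  have hexQ : ∃ j, Q j := ⟨k, hQk⟩
  obtain ⟨j₀, hQj, hmin⟩ : ∃ j₀, Q j₀ ∧ ∀ j < j₀, ¬ Q j :=
    ⟨Nat.find hexQ, Nat.find_spec hexQ, fun j hj => Nat.find_min hexQ hj⟩
  obtain ⟨b1, b2, b3⟩ := hQj.2 j₀ le_rfl hQj.1
  rcases Nat.eq_zero_or_pos j₀ with h0 | hpos
  · left
    rw [h0, hpath.1] at b1 b2
    refine ⟨b1, b2, Or.inr ?_⟩
    have := hstay j₀ hQj
    rwa [h0, hpath.1] at this
  · obtain ⟨j, hj⟩ : ∃ j, j₀ = j + 1 := ⟨j₀ - 1, by omega⟩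
    rw [hj] at hQj b1 b2 b3
    have hjk : j + 1 ≤ k := hQj.1
    have hstep : Step cd K P (v j) (v (j + 1)) := hpath.2.2 j (by omega)
    have hwP : v j ∈ P := mem_BTR hpath (by omega)
    have hvP : v (j + 1) ∈ P := mem_BTR hpath (by omega)
    -- the edge is short
    have hedge : |(v (j + 1)).1 - (v j).1| < 5 * R := by
      refine edge (δ := cd) (n := n) (K := K) (P := P) (w := v (j + 1)) (v := v j)
        (r := 5 * R) (Λ := M / 8) (e := e) (ρ := 5 * R)
        (hmet _ _ (by linarith) (by linarith) (by linarith) (by linarith)) (by linarith) le_rfl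
        (reg_mono hReg (by linarith) (by linarith) (by linarith) le_rfl) (by linarith)
        (b3.trans (hLab _ hvP).2) hwP (b3.trans (le_max_left _ _)) ?_ (Or.symm hstep.2.1)
      have h1 : 2 * (5 * R) * (M / 8) = 5 / 4 * K := by
        rw [← hRM]; ring
      rw [h1]
      linarith
    obtain ⟨d1, d2⟩ := abs_lt.1 hedge
    have habs := hstep.2.2.1
    have hvneg : (v (j + 1)).1 < 0 := by linarith
    have hwlt : (v j).1 < (v (j + 1)).1 := by
      rw [abs_of_neg hvneg] at habs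
      rcases le_or_gt 0 (v j).1 with h | h
      · rw [abs_of_nonneg h] at habs
        exfalso
        linarith
      · rw [abs_of_neg h] at habs
        linarith
    by_cases hw2 : M / 8 ≤ (v j).2
    · -- the path enters from the left
      have hwA : (v j).1 < A₀ := by
        by_contra hcon
        refine hmin j (by omega) ⟨by omega, fun i h1 h2 => ?_⟩
        rcases h1.eq_or_lt with rfl | h1
        · exact ⟨not_lt.1 hcon, by linarith, hw2⟩
        · exact hQj.2 i h1 h2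
      right
      have hA0 : A₀ < 0 := by linarith
      refine ⟨?_, v (j + 1), ?_, b1, by linarith, hstay _ hQj⟩
      · refine lt_of_lt_of_le ?_ (abs_BTR hpath (i := j) (by omega))
        rw [abs_of_neg hA0, abs_of_neg (by linarith)]
        linarith
      · exact (hPP _ (by linarith) (by linarith)).1 hvP
    · -- labels cannot grow so fast
      exfalso
      have hw2' : (v j).2 < M / 8 := not_le.1 hw2
      have hη : (0 : ℝ) < 1 / (400 * ℓ) := by positivity
      have hη1 : (1 : ℝ) / (400 * ℓ) ≤ 1 / 20 := by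
        apply one_div_le_one_div_of_le (by norm_num)
        linarith
      have heη : 1 / (400 * (ℓ : ℝ)) * K = e := by rw [he]; ring
      have hexp : M / 8 * Real.exp (48 * (1 / (400 * ℓ)) * (M / 4) *
          ((y + 30 * R) - (A₀ - 30 * R)) / K) ≤ M / 4 := by
        have h1 : 48 * (1 / (400 * (ℓ : ℝ))) * (M / 4) * ((y + 30 * R) - (A₀ - 30 * R)) / K ≤
            57 / 100 := by
          have h2 : (y + 30 * R) - (A₀ - 30 * R) ≤ (4 * ℓ + 60) * R := by linarith
          have h3 : 48 * (1 / (400 * (ℓ : ℝ))) * (M / 4) * ((y + 30 * R) - (A₀ - 30 * R)) ≤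
              48 * (1 / (400 * (ℓ : ℝ))) * (M / 4) * ((4 * ℓ + 60) * R) :=
            mul_le_mul_of_nonneg_left h2 (by positivity)
          have h4 : 48 * (1 / (400 * (ℓ : ℝ))) * (M / 4) * ((4 * ℓ + 60) * R) =
              (12 / 100 + 18 / (10 * ℓ)) * K := by
            have h6 : (ℓ : ℝ) * (ℓ : ℝ)⁻¹ = 1 := mul_inv_cancel₀ hℓ0.ne'
            rw [← hRM, one_div, mul_inv, div_eq_mul_inv (18 : ℝ), mul_inv]
            linear_combination (3 / 25 * M * R) * h6
          rw [h4] at h3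
          rw [div_le_iff₀ hK0]
          refine h3.trans (mul_le_mul_of_nonneg_right ?_ hK0.le)
          have h5 : 18 / (10 * (ℓ : ℝ)) ≤ 18 / 40 := by
            apply div_le_div_of_nonneg_left (by norm_num) (by norm_num)
            linarith
          linarith
        have h2 : Real.exp (48 * (1 / (400 * ℓ)) * (M / 4) *
            ((y + 30 * R) - (A₀ - 30 * R)) / K) ≤ 2 := by
          rw [← Real.exp_log (show (0 : ℝ) < 2 by norm_num)]
          refine Real.exp_le_exp.2 (h1.trans ?_)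
          have := Real.log_two_gt_d9
          linarith
        nlinarith
      have hKe8 : ∀ x : ℝ, (K - e) / max x (M / 8) ≤ 8 * R := by
        intro x
        have h1 : M / 8 ≤ max x (M / 8) := le_max_right _ _
        rw [div_le_iff₀ (by linarith [show 0 < M / 8 by positivity])]
        have h2 : 8 * R * (M / 8) ≤ 8 * R * max x (M / 8) :=
          mul_le_mul_of_nonneg_left h1 (by linarith)
        have h3 : 8 * R * (M / 8) = K := by rw [← hRM]; ring
        linarith
      have h8R : (K : ℝ) / (M / 8) = 8 * R := by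
        rw [hR, div_div_eq_mul_div]
        ring
      have hchain : Relation.ReflTransGen (fun w v => Step cd K P w v ∧
          (A₀ - 30 * R) + K / (M / 8) ≤ w.1 ∧ w.1 + (K - e) / max w.2 (M / 8) ≤ y + 30 * R)
          (v j) (v k) := by
        refine chain_BTR _ v (by omega : j ≤ k) fun l h1 h2 => ?_
        have hlo : A₀ - 5 * R ≤ (v l).1 ∧ (v l).1 ≤ y + R := by
          rcases h1.eq_or_lt with rfl | h1
          · exact ⟨by linarith, by linarith⟩
          · have h3 := hQj.2 l h1 (by omega)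
            exact ⟨by linarith [h3.1], h3.2.1⟩
        have h3 := hKe8 (v l).2
        refine ⟨hpath.2.2 l (by omega), ?_, ?_⟩
        · rw [h8R]
          linarith [hlo.1]
        · linarith [hlo.2]
      have hRegm : Reg n P (A₀ - 30 * R) (y + 30 * R) (M / 4 * (1 + 16 * (1 / (400 * ℓ)))) e := by
        refine reg_mono hReg le_rfl le_rfl ?_ le_rfl
        nlinarith
      have hMet : ∀ c, A₀ - 30 * R ≤ c → c ≤ y + 30 * R → Met cd P (K / (M / 8)) c := by
        intro c h1 h2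
        rw [h8R]
        exact hmet _ c (by linarith) (by linarith) h1 h2
      obtain ⟨_, g1, g2⟩ := grow (δ := cd) (n := n) (K := K) (P := P) (w₀ := v j) (u := v k)
        (a := A₀ - 30 * R) (b := y + 30 * R) (Λ₀ := M / 8) (Λm := M / 4)
        (η := 1 / (400 * ℓ)) (e := e) hη hη1 he0 heη.ge (by rw [heη]; exact he4) (by linarith)
        (by linarith) hLab hRegm (by linarith) hMet hexp hwP (by linarith) hw2'.le hchain
      have h1 : (v k).2 ≤ M / 4 := by
        refine g2.trans (le_trans ?_ hexp)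
        refine mul_le_mul_of_nonneg_left (Real.exp_le_exp.2 ?_) (by positivity)
        apply div_le_div_of_nonneg_right _ hK0.le
        refine mul_le_mul_of_nonneg_left ?_ (by positivity)
        linarith
      linarith

end Pool.Agent.Helper67.GR
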