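import Pool.Agent.Helper67.GR.B20

/-! # GR project, module Box: all boxes of the left side -/

namespace Pool.Agent.Helper67.GR

open Finset

lemma sq_inv_min_Box (a b c R : ℝ) :
    (R / min (min a b) c) ^ 2 ≤ (R / a) ^ 2 + (R / b) ^ 2 + (R / c) ^ 2 := by
  have h1 : 0 ≤ (R / a) ^ 2 := sq_nonneg _
  have h2 : 0 ≤ (R / b) ^ 2 := sq_nonneg _
  have h3 : 0 ≤ (R / c) ^ 2 := sq_nonneg _
  rcases min_choice (min a b) c with h | h <;> rw [h]
  · rcases min_choice a b with h' | h' <;> rw [h'] <;> linarith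
  · linarith

theorem hBox (hf : StFarE) (hp : StPackE) (hm : StMidE) (hs : StSE) (hpi : StPI) : StBox := by
  obtain ⟨c, hc0, hc1, hs⟩ := hs
  obtain ⟨ℓ₁, hf⟩ := hf 1
  obtain ⟨ℓ₂, hp⟩ := hp 1
  obtain ⟨ℓ₃, hm⟩ := hm 1
  obtain ⟨ℓ₄, hs⟩ := hs 1
  refine ⟨c, hc0, hc1, ℓ₁ + ℓ₂ + ℓ₃ + ℓ₄ + 60, ?_⟩
  intro ℓ K hℓ hpar ε G L s t j hL
  have hL' := hL
  obtain ⟨hS, hκ, hL0, hLn, hεR⟩ := hL'
  obtain ⟨hε, hε8, hs1, hsh, hs2, hs3, ht1, ht2, ht3⟩ := hS
  have hℓ60 : 60 ≤ ℓ := by omega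
  have hℓr : (60 : ℝ) ≤ ℓ := by exact_mod_cast hℓ60
  have hℓK : ℓ ^ 2 ≤ K := (Nat.pow_le_pow_right (by omega) (by norm_num)).trans hpar.1
  have hℓK' : (ℓ : ℝ) ^ 2 ≤ K := by exact_mod_cast hℓK
  have hK0 : (0 : ℝ) < K := by nlinarith
  have hK1 : (1 : ℝ) ≤ K := by nlinarith
  have hR0 : 0 < (K : ℝ) / L := by positivity
  have hℓR : 100 * (ℓ * ((K : ℝ) / L)) ≤ ε ^ 4 := by
    have : 100 * (ℓ * ((K : ℝ) / L)) = 100 * ℓ * K / L := by ring
    rw [this]; exact hεR
  have hε4 : ε ^ 4 ≤ ε / 512 := by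
    have h1 : ε ^ 3 ≤ (1 / 8) ^ 3 := by gcongr
    have h2 : ε ^ 4 = ε * ε ^ 3 := by ring
    rw [h2]
    nlinarith
  have eK : (ℓ : ℝ) * K / L = ℓ * ((K : ℝ) / L) := by ring
  have e2 : 2 * (K : ℝ) / L = 2 * ((K : ℝ) / L) := by ring
  have eℓ2 : ((ℓ : ℝ) + 2) * K / L = ℓ * ((K : ℝ) / L) + 2 * ((K : ℝ) / L) := by ring
  have hy : yc K L j = -((j + 1 / 2) * ((K : ℝ) / L)) := by rw [yc]; ring
  have ea : -(((j : ℝ) + 1) * K / L) = yc K L j - (K : ℝ) / L / 2 := by rw [hy]; ring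
  have eb : -((j : ℝ) * K / L) = yc K L j + (K : ℝ) / L / 2 := by rw [hy]; ring
  set R : ℝ := (K : ℝ) / L with hR
  set y : ℝ := yc K L j with hyd
  have hj0 : (0 : ℝ) ≤ j := Nat.cast_nonneg _
  have hyneg : y < 0 := by rw [hy]; nlinarith
  have hyabs : |y| = (j + 1 / 2) * R := by rw [abs_of_neg hyneg, hy]; ring
  have hρ : ℓ * R ≤ ε / 51200 := by linarith
  have hRρ : 60 * R ≤ ℓ * R := by gcongr
  -- the terms of the bound are nonnegative
  have n1 : 0 ≤ 13 * ind (j ≤ 60) := mul_nonneg (by norm_num) (ind_nonneg _)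
  have n2 : 0 ≤ 300 * Real.exp (-(c * |y - s.1| / R)) := by positivity
  have n3 : 0 ≤ (1 / (j + 1 / 2 : ℝ)) ^ 2 := sq_nonneg _
  have n4 : 0 ≤ (R / max |y - s.1| R) ^ 2 := sq_nonneg _
  have n5 : 0 ≤ (2 * R / ε) ^ 2 := sq_nonneg _
  have hKinv : 1 / (K : ℝ) ^ 1 ≤ (1 / ℓ) ^ 2 := by
    rw [pow_one, div_pow, one_pow]
    exact one_div_le_one_div_of_le (by positivity) hℓK'
  by_cases h0 : |s.1| + R < |y|
  · -- no visits
    refine ⟨fun _ => 0, fun _ => le_rfl, ?_, ?_⟩
    · rw [bern_const]; linarith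
    · intro Y hY Z hZ v m hpath
      obtain ⟨-, hin, -⟩ := hpi K (cfg Y Z s t) s v m hpath
      have h1 : vis v m (-(((j : ℝ) + 1) * K / L)) (-((j : ℝ) * K / L)) L (2 * L) = 0 := by
        unfold vis
        rw [card_eq_zero, filter_eq_empty_iff]
        intro k hk
        rintro ⟨hk1, hk2, -, -⟩
        rw [mem_range] at hk
        have h2 := (hin k (by omega)).2
        rw [ea] at hk1
        rw [eb] at hk2
        rw [abs_of_neg hyneg] at h0
        have h3 := neg_abs_le (v k).1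
        linarith
      rw [h1]; norm_num
  have h0 := not_lt.1 h0
  by_cases h1 : ℓ * R < DD ε K L s j
  · -- far boxes
    obtain ⟨A, hA1, hA2⟩ := hf ℓ K (by omega) hpar ε G L s t j hL (by rw [eK]; exact h1) h0
    refine ⟨fun Y => (cnt Y (-(((j : ℝ) + 1) * K / L)) (-((j : ℝ) * K / L)) (2 * L) : ℝ) * ind (A Y),
      fun Y => mul_nonneg (Nat.cast_nonneg _) (ind_nonneg _), ?_, ?_⟩
    · refine hA1.trans ?_
      have hD0 : 0 < DD ε K L s j := lt_trans (by positivity) h1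
      have hD : DD ε K L s j = min (min |y| |y - s.1|) (ε / 2) := rfl
      have hDR : R < DD ε K L s j := by linarith
      have h2 : R / DD ε K L s j ≤ 1 := by rw [div_le_one hD0]; exact hDR.le
      have h20 : 0 ≤ R / DD ε K L s j := by positivity
      have h3 : (R / DD ε K L s j) ^ 4 / (K : ℝ) ^ 1 ≤ (R / DD ε K L s j) ^ 2 := by
        rw [pow_one]
        calc (R / DD ε K L s j) ^ 4 / (K : ℝ) ≤ (R / DD ε K L s j) ^ 4 :=
              div_le_self (by positivity) hK1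
          _ ≤ (R / DD ε K L s j) ^ 2 := pow_le_pow_of_le_one h20 h2 (by norm_num)
      have hb1 : R < |y - s.1| := by
        refine lt_of_lt_of_le hDR ?_
        rw [hD]
        exact (min_le_left _ _).trans (min_le_right _ _)
      have h4 : (R / DD ε K L s j) ^ 2 ≤ (R / |y|) ^ 2 + (R / |y - s.1|) ^ 2 + (R / (ε / 2)) ^ 2 := by
        rw [hD]
        exact sq_inv_min_Box _ _ _ _
      have h5 : R / |y| = 1 / (j + 1 / 2 : ℝ) := by
        rw [hyabs]
        have : (0 : ℝ) < j + 1 / 2 := by linarith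
        field_simp
      have h6 : max |y - s.1| R = |y - s.1| := max_eq_left hb1.le
      have h7 : R / (ε / 2) = 2 * R / ε := by field_simp
      rw [h5, h7] at h4
      rw [h6]
      linarith
    · intro Y hY Z hZ v m hpath
      obtain ⟨hinj, hin, -⟩ := hpi K (cfg Y Z s t) s v m hpath
      by_cases hA : A Y
      · simp only [ind_of hA, mul_one]
        have h2 : vis v m (-(((j : ℝ) + 1) * K / L)) (-((j : ℝ) * K / L)) L (2 * L) ≤
            cnt Y (-(((j : ℝ) + 1) * K / L)) (-((j : ℝ) * K / L)) (2 * L) := by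
          unfold vis cnt
          apply card_le_card_of_injOn v
          · intro k hk
            rw [mem_coe, mem_filter, mem_range] at hk
            obtain ⟨hk0, hk1, hk2, hk3, hk4⟩ := hk
            rw [mem_coe, mem_filter]
            exact ⟨(hA2 Y hY Z hZ v m k hpath (by omega) hk1 hk2 hk3 hk4).2, hk1, hk2, hk4.le⟩
          · intro k hk k' hk' hkk
            rw [mem_coe, mem_filter, mem_range] at hk hk'
            rcases lt_trichotomy k k' with h | h | h
            · have := hinj k k' h (by omega)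
              rw [hkk] at this
              exact absurd this (lt_irrefl _)
            · exact h
            · have := hinj k' k h (by omega)
              rw [hkk] at this
              exact absurd this (lt_irrefl _)
        exact_mod_cast h2
      · simp only [ind_of_not hA, mul_zero]
        have h2 : vis v m (-(((j : ℝ) + 1) * K / L)) (-((j : ℝ) * K / L)) L (2 * L) = 0 := by
          unfold vis
          rw [card_eq_zero, filter_eq_empty_iff]
          intro k hk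
          rintro ⟨hk1, hk2, hk3, hk4⟩
          rw [mem_range] at hk
          exact hA (hA2 Y hY Z hZ v m k hpath (by omega) hk1 hk2 hk3 hk4).1
        rw [h2]; norm_num
  have h1 := not_lt.1 h1
  have hDD : DD ε K L s j = min (min |y| |y - s.1|) (ε / 2) := rfl
  have h2 : |y| ≤ ℓ * R ∨ |y - s.1| ≤ ℓ * R := by
    rw [hDD, min_le_iff, min_le_iff] at h1
    rcases h1 with (h1 | h1) | h1
    · exact Or.inl h1
    · exact Or.inr h1
    · exfalso; linarith
  -- the packing bound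
  have hpack : ∃ Ψ : Finset Pt → ℝ, (∀ Y, 0 ≤ Ψ Y) ∧
      bern (fun _ => G.p) (G.sfld (rr ε)) Ψ ≤ 13 ∧
      ∀ Y ⊆ G.sfld (rr ε), ∀ Z, OutOk G.n (rr ε) Z → ∀ (v : ℕ → Pt) (m : ℕ),
        IsPath K (cfg Y Z s t) s v m →
        (vis v m (-(((j : ℝ) + 1) * K / L)) (-((j : ℝ) * K / L)) L (2 * L) : ℝ) ≤ Ψ Y := by
    obtain ⟨Ψ, hΨ0, hΨ1, hΨ2⟩ := hp ℓ K (by omega) hpar ε G L s t j hL h0
    refine ⟨fun Y => 12 + Ψ Y, fun Y => by linarith [hΨ0 Y], ?_, hΨ2⟩
    rw [bern_add, bern_const]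
    have h3 : 1 / (K : ℝ) ^ 1 ≤ 1 := by
      rw [pow_one, div_le_one hK0]; exact hK1
    linarith
  rcases h2 with h2 | h2
  · -- near the target
    have hjℓ : (j : ℝ) + 1 / 2 ≤ ℓ := by
      rw [hyabs] at h2
      exact le_of_mul_le_mul_right h2 hR0
    by_cases hj : j < 60
    · obtain ⟨Ψ, hΨ0, hΨ1, hΨ2⟩ := hpack
      refine ⟨Ψ, hΨ0, ?_, hΨ2⟩
      rw [ind_of (by omega : j ≤ 60)]
      linarith
    · obtain ⟨Ψ, hΨ0, hΨ1, hΨ2⟩ := hm ℓ K (by omega) hpar ε G L s t j hL (by omega)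
        (by
          have : (j : ℝ) ≤ ℓ := by linarith
          exact_mod_cast this)
      refine ⟨Ψ, hΨ0, ?_, hΨ2⟩
      have h3 : (1 / (ℓ : ℝ)) ^ 2 ≤ (1 / (j + 1 / 2 : ℝ)) ^ 2 := by
        have : (0 : ℝ) < j + 1 / 2 := by linarith
        gcongr
      linarith
  · -- near the source
    have hsneg : s.1 < 0 := by
      by_contra hcon
      have hcon := not_lt.1 hcon
      rw [abs_of_nonneg hcon] at hs1
      rw [abs_of_neg (by linarith)] at h2
      linarith
    have hsabs : |s.1| = -s.1 := abs_of_neg hsneg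
    rcases le_or_gt (2 * R) (y - s.1) with h3 | h3
    · obtain ⟨Ψ, hΨ0, hΨ1, hΨ2⟩ := hs ℓ K (by omega) hpar ε G L s t j hL hsneg
        (by rw [e2]; exact h3) (by rw [eℓ2]; linarith [le_abs_self (y - s.1)])
      have hΨ1' : bern (fun _ => G.p) (G.sfld (rr ε)) Ψ ≤
          100 * Real.exp (-(c * (y - s.1) / R)) + 1 / (K : ℝ) ^ 1 := hΨ1
      refine ⟨Ψ, hΨ0, hΨ1'.trans ?_, hΨ2⟩
      have h4 : |y - s.1| = y - s.1 := abs_of_nonneg (by linarith)
      have h5 : (1 / (ℓ : ℝ)) ^ 2 ≤ (R / max |y - s.1| R) ^ 2 := by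
        have h6 : max |y - s.1| R ≤ ℓ * R := max_le h2 (by linarith)
        have h7 : 0 < max |y - s.1| R := lt_of_lt_of_le hR0 (le_max_right _ _)
        have h8 : 1 / (ℓ : ℝ) ≤ R / max |y - s.1| R := by
          rw [div_le_div_iff₀ (by linarith) h7]
          linarith
        gcongr
      have h9 : 100 * Real.exp (-(c * (y - s.1) / R)) ≤ 300 * Real.exp (-(c * |y - s.1| / R)) := by
        rw [h4]
        have := Real.exp_pos (-(c * (y - s.1) / R))
        linarith
      linarith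
    · rcases lt_or_ge (-(2 * R)) (y - s.1) with h4 | h4
      · obtain ⟨Ψ, hΨ0, hΨ1, hΨ2⟩ := hpack
        refine ⟨Ψ, hΨ0, hΨ1.trans ?_, hΨ2⟩
        have h5 : |y - s.1| < 2 * R := abs_lt.2 ⟨h4, h3⟩
        have h6 : Real.exp (-2) ≤ Real.exp (-(c * |y - s.1| / R)) := by
          apply Real.exp_le_exp.mpr
          have h7 : c * |y - s.1| / R ≤ 2 := by
            rw [div_le_iff₀ hR0]
            have : c * |y - s.1| ≤ 1 * |y - s.1| := by gcongr
            linarith
          linarith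
        have h8 : (13 : ℝ) ≤ 300 * Real.exp (-2) := by
          have h9 : Real.exp (-2) = (Real.exp 1)⁻¹ ^ 2 := by
            rw [← Real.exp_neg, ← Real.exp_nat_mul]
            norm_num
          have h10 : Real.exp 1 < 3 := lt_trans Real.exp_one_lt_d9 (by norm_num)
          have h11 : (1 / 3 : ℝ) ≤ (Real.exp 1)⁻¹ := by
            rw [one_div]
            exact inv_anti₀ (Real.exp_pos 1) h10.le
          have h12 : (1 / 3 : ℝ) ^ 2 ≤ (Real.exp 1)⁻¹ ^ 2 := by gcongr
          rw [h9]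
          norm_num at h12 ⊢
          linarith
        linarith
      · exfalso
        rw [hsabs, abs_of_neg hyneg] at h0
        linarith

end Pool.Agent.Helper67.GR
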