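import Pool.Agent.Helper67.GR.St3
import Pool.Agent.Helper67.GR.Edge

/-! # GR project: local comparison of neighbourhoods -/

namespace Pool.Agent.Helper67.GR

open Finset

theorem dist_eq_CL {δ : ℝ → ℝ → ℝ} {P : Finset Pt} {ρ c : ℝ} (hM : Met δ P ρ c) {p : Pt}
    (hp : p ∈ P) (h : |c - p.1| < ρ) : δ c p.1 = |c - p.1| := by
  have h1 := hM.loc p hp
  rw [min_eq_left h.le] at h1
  rcases min_choice (δ c p.1) ρ with h2 | h2
  · rw [← h1, h2]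
  · rw [h2] at h1
    exact absurd h1 h.ne'

theorem bc_eq_CL {δ δ' : ℝ → ℝ → ℝ} {P P' : Finset Pt} {ρ a b r : ℝ} {v : Pt}
    (hM : Met δ P ρ v.1) (hM' : Met δ' P' ρ v.1) (hr : r ≤ ρ)
    (hPP : ∀ p : Pt, a ≤ p.1 → p.1 < b → (p ∈ P ↔ p ∈ P'))
    (ha : a ≤ v.1 - r) (hb : v.1 + r ≤ b) : bc δ P v r = bc δ' P' v r := by
  unfold bc
  congr 1
  ext p
  rw [mem_filter, mem_filter]
  constructor
  · rintro ⟨h1, h2, h3⟩
    rw [hM.ball h1 hr, abs_lt] at h3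
    have h4 : p ∈ P' := (hPP p (by linarith [h3.2]) (by linarith [h3.1])).1 h1
    exact ⟨h4, h2, (hM'.ball h4 hr).2 (abs_lt.2 h3)⟩
  · rintro ⟨h1, h2, h3⟩
    rw [hM'.ball h1 hr, abs_lt] at h3
    have h4 : p ∈ P := (hPP p (by linarith [h3.2]) (by linarith [h3.1])).2 h1
    exact ⟨h4, h2, (hM.ball h4 hr).2 (abs_lt.2 h3)⟩

theorem adjO_CL {δ δ' : ℝ → ℝ → ℝ} {P P' : Finset Pt} {ρ a b : ℝ} {K : ℕ} {v u : Pt}
    (hM : Met δ P ρ v.1) (hM' : Met δ' P' ρ v.1) (hu : u ∈ P) (hu' : u ∈ P')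
    (hd : |v.1 - u.1| < ρ)
    (hPP : ∀ p : Pt, a ≤ p.1 → p.1 < b → (p ∈ P ↔ p ∈ P'))
    (ha : a ≤ v.1 - |v.1 - u.1|) (hb : v.1 + |v.1 - u.1| ≤ b) (h : adjO δ K P v u) :
    adjO δ' K P' v u := by
  obtain ⟨h1, h2, h3⟩ := h
  refine ⟨h1, h2, ?_⟩
  rw [dist_eq_CL hM' hu' hd, ← bc_eq_CL hM hM' hd.le hPP ha hb]
  rwa [dist_eq_CL hM hu hd] at h3

theorem one_CL {δ δ' : ℝ → ℝ → ℝ} {n M a b e : ℝ} {K : ℕ} {P P' : Finset Pt} {w : Pt}
    (hM : 0 < M) (he : e ≤ (K : ℝ) / 10) (hK : 10 ≤ K) (hL : Lab n P)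
    (hPP : ∀ p : Pt, a ≤ p.1 → p.1 < b → (p ∈ P ↔ p ∈ P')) (hw : w ∈ P) (hwM : M / 8 ≤ w.2)
    (ha : a ≤ w.1 - 15 * K / M) (hb : w.1 + 15 * K / M ≤ b) (hR : Reg n P a b (2 * M) e)
    (hMet : ∀ c, |c - w.1| ≤ 6 * K / M → Met δ P (6 * K / M) c ∧ Met δ' P' (6 * K / M) c)
    {u : Pt} (hu : u ∈ P) (hadj : adj δ K P w u) : u ∈ P' ∧ adj δ' K P' w u := by
  have hK0 : (10 : ℝ) ≤ (K : ℝ) := by exact_mod_cast hK
  have e15 : 15 * (K : ℝ) / M = 15 * (K / M) := by ring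
  have e6 : 6 * (K : ℝ) / M = 6 * (K / M) := by ring
  rw [e15] at ha hb
  rw [e6] at hMet
  have hRpos : 0 < (K : ℝ) / M := by positivity
  have hRM : (K : ℝ) / M * M = K := by field_simp
  set R : ℝ := (K : ℝ) / M with hRdef
  have hMw := hMet w.1 (by rw [sub_self, abs_zero]; positivity)
  have hshort : |w.1 - u.1| < 5 * R := by
    refine edge (Λ := M / 8) (e := e) (n := n) hMw.1 (by positivity) (by linarith)
      (reg_mono hR (by linarith) (by linarith) (by linarith) le_rfl) (by positivity)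
      (hwM.trans (hL w hw).2) hu (hwM.trans (le_max_left _ _)) ?_ hadj
    have : 2 * (5 * R) * (M / 8) = 10 / 8 * (R * M) := by ring
    rw [this, hRM]
    linarith
  have hs := abs_lt.1 hshort
  have hu' : u ∈ P' := (hPP u (by linarith [hs.2]) (by linarith [hs.1])).1 hu
  have hMu := hMet u.1 (by rw [abs_sub_comm]; linarith)
  have hw' : w ∈ P' := (hPP w (by linarith) (by linarith)).1 hw
  refine ⟨hu', ?_⟩
  rcases hadj with h | h
  · exact Or.inl (adjO_CL hMw.1 hMw.2 hu hu' (by linarith) hPP (by linarith) (by linarith) h)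
  · rw [abs_sub_comm] at hshort
    exact Or.inr (adjO_CL hMu.1 hMu.2 hw hw' (by linarith) hPP (by linarith [hs.2])
      (by linarith [hs.1]) h)

theorem hCL : StCL := by
  intro δ δ' n M a b e K P P' w hM he0 he hK hL hL' hPP hw hwM ha hb hR hMet u
  have hK0 : (10 : ℝ) ≤ (K : ℝ) := by exact_mod_cast hK
  have h15 : 0 < 15 * (K : ℝ) / M := by positivity
  have hw' : w ∈ P' := (hPP w (by linarith) (by linarith)).1 hw
  constructor
  · rintro ⟨h1, h2⟩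
    exact one_CL hM he hK hL hPP hw hwM ha hb hR hMet h1 h2
  · rintro ⟨h1, h2⟩
    exact one_CL hM he hK hL' (fun p hp1 hp2 => (hPP p hp1 hp2).symm) hw' hwM ha hb
      ((reg_congr hPP).1 hR) (fun c hc => (hMet c hc).symm) h1 h2

end Pool.Agent.Helper67.GR
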