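import Pool.Agent.Helper67.GR.St3

namespace Pool.Agent.Helper67.GR

open Finset

/-- the sum over the bands -/
theorem sum_le_FB {c : ℝ} {ℓ K : ℕ} (hℓ : 1 ≤ ℓ) (hK : 1 ≤ K)
    (h4 : Real.exp (-(c * ℓ / 256)) ≤ 1 / 4) (hc : 0 ≤ c) (J : ℕ) :
    ∑ j ∈ range J, (2 ^ (j + 1) / 8 * (10 + (ℓ : ℝ) / 4) * K + 1) *
      (2 * Real.exp (-(c * ℓ * (3 / 2) ^ j / 128))) ≤
    16 * ℓ * K * Real.exp (-(c * ℓ / 128)) := by
  have hℓ' : (1 : ℝ) ≤ ℓ := by exact_mod_cast hℓ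
  have hK' : (1 : ℝ) ≤ K := by exact_mod_cast hK
  have hℓK : (1 : ℝ) ≤ ℓ * K := by nlinarith
  have hterm : ∀ j ∈ range J, (2 ^ (j + 1) / 8 * (10 + (ℓ : ℝ) / 4) * K + 1) *
      (2 * Real.exp (-(c * ℓ * (3 / 2) ^ j / 128))) ≤
      8 * ℓ * K * Real.exp (-(c * ℓ / 128)) * (1 / 2) ^ j := by
    intro j _
    have p2 : (1 : ℝ) ≤ 2 ^ j := one_le_pow₀ (by norm_num)
    have h1 : 2 ^ (j + 1) / 8 * (10 + (ℓ : ℝ) / 4) * K + 1 ≤ 2 ^ j * (4 * ℓ * K) := by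
      have e : (2 : ℝ) ^ (j + 1) / 8 * (10 + (ℓ : ℝ) / 4) * K = 2 ^ j * ((10 + (ℓ : ℝ) / 4) / 4 * K) := by
        rw [pow_succ]; ring
      rw [e]
      have h2 : (10 + (ℓ : ℝ) / 4) / 4 * K ≤ 3 * ℓ * K := by
        apply mul_le_mul_of_nonneg_right _ (by linarith)
        linarith
      have h3 : (1 : ℝ) ≤ 2 ^ j * (ℓ * K) := by nlinarith
      nlinarith
    have hB : (1 : ℝ) + j / 2 ≤ (3 / 2) ^ j := by
      have := one_add_mul_le_pow (by norm_num : (-2 : ℝ) ≤ 1 / 2) j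
      have e : (1 : ℝ) + 1 / 2 = 3 / 2 := by norm_num
      rw [e] at this
      linarith
    have hexp : Real.exp (-(c * ℓ * (3 / 2) ^ j / 128)) ≤
        Real.exp (-(c * ℓ / 128)) * (1 / 4) ^ j := by
      have h5 : Real.exp (-(c * ℓ * (3 / 2) ^ j / 128)) ≤
          Real.exp (-(c * ℓ / 128) + j * (-(c * ℓ / 256))) := by
        apply Real.exp_le_exp.2
        have h6 : 0 ≤ c * ℓ / 128 := by positivity
        have h7 : c * ℓ * (3 / 2) ^ j / 128 = c * ℓ / 128 * (3 / 2) ^ j := by ring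
        rw [h7]
        nlinarith [mul_le_mul_of_nonneg_left hB h6]
      refine h5.trans ?_
      rw [Real.exp_add, Real.exp_nat_mul]
      exact mul_le_mul_of_nonneg_left (pow_le_pow_left₀ (Real.exp_pos _).le h4 j)
        (Real.exp_pos _).le
    have hX : 0 ≤ Real.exp (-(c * ℓ / 128)) := (Real.exp_pos _).le
    calc (2 ^ (j + 1) / 8 * (10 + (ℓ : ℝ) / 4) * K + 1) *
          (2 * Real.exp (-(c * ℓ * (3 / 2) ^ j / 128)))
        ≤ (2 ^ j * (4 * ℓ * K)) * (2 * (Real.exp (-(c * ℓ / 128)) * (1 / 4) ^ j)) := by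
          apply mul_le_mul h1 _ (by positivity) (by positivity)
          linarith
      _ = 8 * ℓ * K * Real.exp (-(c * ℓ / 128)) * (2 ^ j * (1 / 4) ^ j) := by ring
      _ = 8 * ℓ * K * Real.exp (-(c * ℓ / 128)) * (1 / 2) ^ j := by
          rw [← mul_pow]; norm_num
  refine (Finset.sum_le_sum hterm).trans ?_
  rw [← Finset.mul_sum]
  have hg : ∑ j ∈ range J, ((1 : ℝ) / 2) ^ j ≤ 2 := sum_geometric_two_le J
  have hnn : 0 ≤ 8 * (ℓ : ℝ) * K * Real.exp (-(c * ℓ / 128)) := by positivity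
  nlinarith

/-- the choice of `ℓ₀` -/
theorem large_FB {c : ℝ} (hc : 0 < c) (T : ℕ) :
    ∃ ℓ₀ : ℕ, ∀ ℓ K : ℕ, ℓ₀ ≤ ℓ → Par ℓ K → 1 ≤ K →
      Real.exp (-(c * ℓ / 256)) ≤ 1 / 4 ∧
      16 * ℓ * K * Real.exp (-(c * ℓ / 128)) ≤ 1 / (K : ℝ) ^ T := by
  set b : ℝ := c / 128 with hb
  have hb0 : 0 < b := by positivity
  set n : ℕ := 8 * (T + 1) + 1 with hn
  have ht := Real.tendsto_pow_mul_exp_neg_atTop_nhds_zero n
  have hε : 0 < b ^ n / (16 * Real.exp b) := by positivity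
  have he := ht.eventually (gt_mem_nhds hε)
  obtain ⟨X, hX⟩ := Filter.eventually_atTop.1 he
  obtain ⟨N, hN⟩ := exists_nat_ge (max (X / b) (4 / (b / 2)))
  refine ⟨N + 1, fun ℓ K hℓ hP hK => ?_⟩
  have hℓ1 : (N : ℝ) + 1 ≤ ℓ := by exact_mod_cast hℓ
  have hK1 : (1 : ℝ) ≤ K := by exact_mod_cast hK
  have h1 : X / b ≤ ℓ := (le_max_left _ _).trans (hN.trans (by linarith))
  have h2 : 4 / (b / 2) ≤ ℓ := (le_max_right _ _).trans (hN.trans (by linarith))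
  have hℓ0 : (0 : ℝ) ≤ ℓ := Nat.cast_nonneg _
  constructor
  · have h3 : 4 ≤ c * ℓ / 256 := by
      rw [div_le_iff₀ (by positivity)] at h2
      rw [hb] at h2
      linarith
    have h4 : (4 : ℝ) ≤ Real.exp (c * ℓ / 256) := by
      have := Real.add_one_le_exp (c * ℓ / 256)
      linarith
    rw [Real.exp_neg, one_div]
    exact inv_anti₀ (by norm_num) h4
  · have h3 : X ≤ b * (ℓ + 1) := by
      rw [div_le_iff₀ hb0] at h1
      nlinarith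
    have h4 := hX _ h3
    rw [lt_div_iff₀ (by positivity)] at h4
    rw [le_div_iff₀ (by positivity)]
    have hKle : (K : ℝ) ≤ ((ℓ : ℝ) + 1) ^ 8 := by
      have := hP.2.le
      exact_mod_cast this
    have hKT : (K : ℝ) ^ (T + 1) ≤ ((ℓ : ℝ) + 1) ^ (8 * (T + 1)) := by
      rw [pow_mul]
      exact pow_le_pow_left₀ (by linarith) hKle _
    have hexp : Real.exp (-(c * ℓ / 128)) = Real.exp b * Real.exp (-(b * (ℓ + 1))) := by
      rw [← Real.exp_add]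
      congr 1
      rw [hb]; ring
    have hE : 0 < Real.exp b * Real.exp (-(b * (ℓ + 1))) := by positivity
    calc 16 * ℓ * K * Real.exp (-(c * ℓ / 128)) * (K : ℝ) ^ T
        = 16 * (ℓ * K ^ (T + 1)) * (Real.exp b * Real.exp (-(b * (ℓ + 1)))) := by
          rw [hexp, pow_succ]; ring
      _ ≤ 16 * ((ℓ + 1) * ((ℓ : ℝ) + 1) ^ (8 * (T + 1))) *
          (Real.exp b * Real.exp (-(b * (ℓ + 1)))) := by
          apply mul_le_mul_of_nonneg_right _ hE.le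
          apply mul_le_mul_of_nonneg_left _ (by norm_num)
          exact mul_le_mul (by linarith) hKT (by positivity) (by linarith)
      _ = ((b * (ℓ + 1)) ^ n * Real.exp (-(b * (ℓ + 1))) * (16 * Real.exp b)) / b ^ n := by
          rw [mul_pow, hn, pow_succ ((ℓ : ℝ) + 1)]
          field_simp
      _ ≤ 1 := by
          rw [div_le_one (by positivity)]
          exact h4.le

theorem hFB (hd : StFBd) (hm : StFBm) : StFB := by
  classical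
  obtain ⟨c, hc0, hc1, K₀, hK₀⟩ := hm
  intro T
  obtain ⟨ℓ₁, hℓ₁⟩ := large_FB hc0 T
  refine ⟨max ℓ₁ (max K₀ 1), ?_⟩
  intro ℓ K hℓ hP G M A₀ ω hM hA₀ hB hlab hω
  have hℓ1 : ℓ₁ ≤ ℓ := (le_max_left _ _).trans hℓ
  have hℓ2 : K₀ ≤ ℓ := (le_max_left _ _).trans ((le_max_right _ _).trans hℓ)
  have hℓ3 : 1 ≤ ℓ := (le_max_right _ _).trans ((le_max_right _ _).trans hℓ)
  have hKℓ : ℓ ≤ K := le_trans (Nat.le_self_pow (by norm_num) ℓ) hP.1
  have hK1 : 1 ≤ K := hℓ3.trans hKℓ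
  obtain ⟨h4, h5⟩ := hℓ₁ ℓ K hℓ1 hP hK1
  set B : ℝ := A₀ + (10 + (ℓ : ℝ) / 2) * K / M with hBdef
  obtain ⟨J, hJ⟩ : ∃ J : ℕ, G.n * 8 / M < 2 ^ J := pow_unbounded_of_one_lt _ one_lt_two
  have hJ' : G.n < 2 ^ J * M / 8 := by
    rw [div_lt_iff₀ hM] at hJ
    linarith
  have hsub : ∀ Y ⊆ G.fld A₀ B, (∃ v ∈ Y, v.1 < A₀ + 10 * K / M ∧
      Stay K (ω ∪ Y) (M / 8) B v) → ∃ j ∈ range J, Bnd K ℓ M A₀ ω j Y := by
    rintro Y hY ⟨v, hv, hv1, hst⟩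
    by_contra hcon
    refine hd K ℓ M A₀ ω Y hℓ3 hK1 hM hB hω
      (fun u hu => ((mem_fld G).1 (hY hu)).2.2.1) (fun j hj => ?_) v hv hv1 hst
    refine hcon ⟨j, ?_, hj⟩
    rw [Finset.mem_range]
    by_contra hjJ
    have hjJ := not_lt.1 hjJ
    obtain ⟨u, hu, _, h2, _, _⟩ := hj
    have h3 := (fld_lab G hY u hu).2
    have h6 : (2 : ℝ) ^ J ≤ 2 ^ j := pow_le_pow_right₀ (by norm_num) hjJ
    have h7 : 2 ^ J * M / 8 ≤ 2 ^ j * M / 8 := by
      apply div_le_div_of_nonneg_right _ (by norm_num)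
      exact mul_le_mul_of_nonneg_right h6 hM.le
    linarith
  refine (prob_mono (fld_pq G _ _) hsub).trans ?_
  refine (prob_exists_le (fld_pq G _ _) (range J) (fun j => Bnd K ℓ M A₀ ω j)).trans ?_
  refine le_trans (Finset.sum_le_sum fun j _ =>
    hK₀ K (hℓ2.trans hKℓ) G ℓ j M A₀ ω hℓ3 hM hA₀ hB hlab hω) ?_
  exact (sum_le_FB hℓ3 hK1 h4 hc0.le J).trans h5

end Pool.Agent.Helper67.GR
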