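import Pool.Agent.Helper67.GR.St3

namespace Pool.Agent.Helper67.GR

open Finset

/-- the induction over label bands -/
theorem band_induction_FBd {K ℓ : ℕ} {M A₀ : ℝ} {ω Y : Finset Pt} (hM : 0 < M)
    (hz : A₀ + (10 + (ℓ : ℝ) / 2) * K / M ≤ 0) (hω : ∀ v ∈ ω, v.1 < A₀)
    (hY : ∀ v ∈ Y, A₀ ≤ v.1) (hB : ∀ j, ¬ Bnd K ℓ M A₀ ω j Y) (j : ℕ) :
    ∀ v ∈ Y, v.2 < 2 ^ (j + 1) * M / 8 →
      v.1 < A₀ + 10 * K / M + (ℓ : ℝ) / 4 * (3 / 4) ^ (j + 1) * K / M →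
      ¬ Stay K (ω ∪ Y) (M / 8) (A₀ + (10 + (ℓ : ℝ) / 2) * K / M) v := by
  have hR : (0 : ℝ) ≤ K / M := by positivity
  have hℓ : (0 : ℝ) ≤ (ℓ : ℝ) := Nat.cast_nonneg _
  -- the main step, common to the base and the induction step
  have main : ∀ j : ℕ, ∀ v ∈ Y, 2 ^ j * M / 8 ≤ v.2 → v.2 < 2 ^ (j + 1) * M / 8 →
      v.1 < A₀ + 10 * K / M + (ℓ : ℝ) / 4 * (3 / 4) ^ (j + 1) * K / M →
      Stay K (ω ∪ Y) (M / 8) (A₀ + (10 + (ℓ : ℝ) / 2) * K / M) v →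
      ∃ v' ∈ Y, v'.2 < 2 ^ j * M / 8 ∧ M / 8 ≤ v'.2 ∧
        v'.1 < A₀ + 10 * K / M + (ℓ : ℝ) / 4 * (3 / 4) ^ j * K / M ∧
        Stay K (ω ∪ Y) (M / 8) (A₀ + (10 + (ℓ : ℝ) / 2) * K / M) v' := by
    intro j v hv h1 h2 h3 hst
    have p1 : ((3 : ℝ) / 4) ^ j ≤ 1 := pow_le_one₀ (by norm_num) (by norm_num)
    have p0 : (0 : ℝ) < ((3 : ℝ) / 4) ^ j := by positivity
    have e1 : (10 : ℝ) * K / M = 10 * (K / M) := by ring
    have e2 : (ℓ : ℝ) / 4 * (3 / 4) ^ (j + 1) * K / M = (ℓ : ℝ) * (3 / 4) ^ j * (K / M) * (3 / 16) := by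
      rw [pow_succ]; ring
    have e3 : (10 + (ℓ : ℝ) / 2) * K / M = (10 + (ℓ : ℝ) / 2) * (K / M) := by ring
    have e4 : (10 + (ℓ : ℝ) / 4) * K / M = (10 + (ℓ : ℝ) / 4) * (K / M) := by ring
    have e5 : (ℓ : ℝ) / 16 * (3 / 4) ^ j * K / M = (ℓ : ℝ) * (3 / 4) ^ j * (K / M) * (1 / 16) := by
      ring
    have e6 : (ℓ : ℝ) / 4 * (3 / 4) ^ j * K / M = (ℓ : ℝ) * (3 / 4) ^ j * (K / M) * (1 / 4) := by
      ring
    have q0 : 0 ≤ (ℓ : ℝ) * (3 / 4) ^ j * (K / M) := by positivity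
    have q1 : (ℓ : ℝ) * (3 / 4) ^ j * (K / M) ≤ (ℓ : ℝ) * (K / M) := by
      apply mul_le_mul_of_nonneg_right _ hR
      nlinarith
    have q2 : 0 ≤ (ℓ : ℝ) * (K / M) := by positivity
    have hband : ¬ Stay K (ω ∪ Y) (2 ^ j * M / 8) (v.1 + (ℓ : ℝ) / 16 * (3 / 4) ^ j * K / M) v := by
      intro hs
      refine hB j ⟨v, hv, ?_, h1, h2, hs⟩
      rw [e1, e2] at h3
      rw [e4]
      nlinarith
    have hzv : v.1 + (ℓ : ℝ) / 16 * (3 / 4) ^ j * K / M ≤ A₀ + (10 + (ℓ : ℝ) / 2) * K / M := by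
      rw [e1, e2] at h3
      rw [e5, e3]
      nlinarith
    obtain ⟨u₀, hu₀⟩ := hst
    obtain ⟨u', hu1, hu2⟩ := state_prefix hzv hu₀
    obtain ⟨v', hp, hlt, hs'⟩ := stay_split hu1 hband
    have hpos := path_pos (hzv.trans hz) hp
    rcases hpos.2 with h | ⟨hvP, hlt1, hlt2⟩
    · rw [h] at hlt
      exact absurd h1 (not_le.2 hlt)
    · have hvY : v' ∈ Y := by
        rcases Finset.mem_union.1 hvP with h | h
        · have := hω v' h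
          have := hY v hv
          linarith
        · exact h
      refine ⟨v', hvY, hlt, state_label_Land hs', ?_, u₀, state_trans hzv hs' hu2⟩
      rw [e1, e2] at h3
      rw [e5] at hlt2
      rw [e1, e6]
      nlinarith
  induction j with
  | zero =>
    intro v hv h2 h3 hst
    have h1 : M / 8 ≤ v.2 := by
      obtain ⟨u, hu⟩ := hst
      exact state_label_Land hu
    obtain ⟨v', _, h4, h5, _, _⟩ := main 0 v hv (by rw [pow_zero, one_mul]; exact h1) h2 h3 hst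
    rw [pow_zero, one_mul] at h4
    exact absurd h5 (not_le.2 h4)
  | succ j ih =>
    intro v hv h2 h3 hst
    rcases lt_or_ge v.2 (2 ^ (j + 1) * M / 8) with h | h
    · refine ih v hv h ?_ hst
      have p0 : (0 : ℝ) < ((3 : ℝ) / 4) ^ (j + 1) := by positivity
      have e2 : (ℓ : ℝ) / 4 * (3 / 4) ^ (j + 1 + 1) * K / M =
          (ℓ : ℝ) * (3 / 4) ^ (j + 1) * (K / M) * (3 / 16) := by
        rw [pow_succ]; ring
      have e6 : (ℓ : ℝ) / 4 * (3 / 4) ^ (j + 1) * K / M =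
          (ℓ : ℝ) * (3 / 4) ^ (j + 1) * (K / M) * (1 / 4) := by
        ring
      have q0 : 0 ≤ (ℓ : ℝ) * (3 / 4) ^ (j + 1) * (K / M) := by positivity
      rw [e2] at h3
      rw [e6]
      linarith
    · obtain ⟨v', hv', h4, _, h6, h7⟩ := main (j + 1) v hv h h2 h3 hst
      exact ih v' hv' h4 h6 h7

theorem hFBd : StFBd := by
  intro K ℓ M A₀ ω Y hℓ hK hM hz hω hY hB v hv hv1
  obtain ⟨j, hj⟩ : ∃ j : ℕ, v.2 * 8 / M < 2 ^ j := pow_unbounded_of_one_lt _ one_lt_two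
  refine band_induction_FBd hM hz hω hY hB j v hv ?_ ?_
  · rw [div_lt_iff₀ hM] at hj
    have : (0 : ℝ) < 2 ^ j * M := by positivity
    rw [pow_succ]
    linarith
  · have : 0 ≤ (ℓ : ℝ) / 4 * (3 / 4) ^ (j + 1) * K / M := by positivity
    linarith

end Pool.Agent.Helper67.GR
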