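import Pool.Agent.Helper67.GR.St3

namespace Pool.Agent.Helper67.GR

open Finset

/-- the stay event at a fixed cell -/
theorem stay_cell_FBm {c : ℝ} {K : ℕ} (_hK1 : 1 ≤ K)
    (hF : ∀ (G : Grid) (L z : ℝ) (ω : Finset Pt) (w : Pt), 0 < L → -(1/2) ≤ w.1 →
      w.1 < z → z ≤ 0 → Lab G.n ω → (∀ v ∈ ω, v.1 ≤ w.1) → w ∈ ω →
      prob (fun _ => G.p) ((G.Xs.filter (fun x => w.1 < x ∧ x < z)) ×ˢ G.Ts)
        (fun Y => Stay K (ω ∪ Y) L z w) ≤ 2 * Real.exp (-(c * L * (z - w.1) / K)))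
    (G : Grid) {L z A B : ℝ} {ω : Finset Pt} {v : Pt} (hL : 0 < L) (hA : -(1/2) ≤ A)
    (hB : B ≤ 0) (hvz : v.1 < z) (hzB : z ≤ B) (hv : v ∈ G.fld A B) (hlab : Lab G.n ω)
    (hω : ∀ u ∈ ω, u.1 < A) :
    bern (fun _ => G.p) (G.fld A B) (fun Y => ind (Stay K (ω ∪ insert v Y) L z v)) ≤
      2 * Real.exp (-(c * L * (z - v.1) / K)) := by
  classical
  obtain ⟨hvX, hvT, hAv, hvB⟩ := (mem_fld G).1 hv
  set S₁ : Finset Pt := (G.fld A B).filter (fun u => u.1 ≤ v.1) with hS₁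
  set S₂ : Finset Pt := (G.fld A B).filter (fun u => ¬ u.1 ≤ v.1) with hS₂
  set T : Finset Pt := (G.Xs.filter (fun x => v.1 < x ∧ x < z)) ×ˢ G.Ts with hT
  have hU : G.fld A B = S₁ ∪ S₂ := (Finset.filter_union_filter_not_eq _ _).symm
  have hD : Disjoint S₁ S₂ := Finset.disjoint_filter_filter_not _ _ _
  have hTS : T ⊆ S₂ := by
    intro u hu
    rw [hT, Finset.mem_product, Finset.mem_filter] at hu
    obtain ⟨⟨h1, h2, h3⟩, h4⟩ := hu
    rw [hS₂, Finset.mem_filter, mem_fld]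
    exact ⟨⟨h1, h4, hAv.trans h2.le, h3.trans_le hzB⟩, not_le.2 h2⟩
  have hz0 : z ≤ 0 := hzB.trans hB
  conv_lhs => rw [hU]
  rw [bern_union _ hD]
  have hq1 : Pq (fun _ : Pt => G.p) S₁ :=
    fun _ _ => ⟨G.p_pos.le, G.p_le.trans (by norm_num)⟩
  refine le_trans (bern_mono hq1 (g := fun _ => 2 * Real.exp (-(c * L * (z - v.1) / K))) ?_)
    (le_of_eq (bern_const _ _ _))
  intro X hX
  -- restrict to cells before `z`
  have hX1 : ∀ u ∈ X, u ∈ G.fld A B ∧ u.1 ≤ v.1 := fun u hu => by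
    have := hX hu
    rw [hS₁, Finset.mem_filter] at this
    exact this
  have h1 : bern (fun _ => G.p) S₂ (fun Y => ind (Stay K (ω ∪ insert v (X ∪ Y)) L z v)) =
      bern (fun _ => G.p) T (fun Y => ind (Stay K (ω ∪ insert v (X ∪ Y)) L z v)) := by
    refine bern_marginal _ hTS fun Y hY => ind_congr ?_
    refine stay_local (fun p hp => ?_) hz0
    simp only [Finset.mem_union, Finset.mem_insert, Finset.mem_inter]
    constructor
    · rintro (h | h | h | h)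
      · exact Or.inl h
      · exact Or.inr (Or.inl h)
      · exact Or.inr (Or.inr (Or.inl h))
      · refine Or.inr (Or.inr (Or.inr ⟨h, ?_⟩))
        have h2 := hY h
        rw [hS₂, Finset.mem_filter, mem_fld] at h2
        rw [hT, Finset.mem_product, Finset.mem_filter]
        exact ⟨⟨h2.1.1, not_le.1 h2.2, hp⟩, h2.1.2.1⟩
    · rintro (h | h | h | h)
      · exact Or.inl h
      · exact Or.inr (Or.inl h)
      · exact Or.inr (Or.inr (Or.inl h))
      · exact Or.inr (Or.inr (Or.inr h.1))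
  rw [h1]
  have h2 := hF G L z (insert v (ω ∪ X)) v hL (hA.trans hAv) hvz hz0 ?_ ?_
    (Finset.mem_insert_self _ _)
  · refine le_trans (le_of_eq ?_) h2
    unfold prob
    refine bern_congr fun Y _ => ?_
    have : ω ∪ insert v (X ∪ Y) = insert v (ω ∪ X) ∪ Y := by
      ext a
      simp only [Finset.mem_union, Finset.mem_insert]
      tauto
    rw [this]
  · intro u hu
    rcases Finset.mem_insert.1 hu with h | h
    · rw [h]; exact G.Ts_mem _ hvT
    · rcases Finset.mem_union.1 h with h | h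
      · exact hlab u h
      · exact G.Ts_mem _ ((mem_fld G).1 (hX1 u h).1).2.1
  · intro u hu
    rcases Finset.mem_insert.1 hu with h | h
    · rw [h]
    · rcases Finset.mem_union.1 h with h | h
      · exact (hω u h).le.trans hAv
      · exact (hX1 u h).2

theorem hFBm (h : StFIv) : StFBm := by
  classical
  obtain ⟨c, hc0, hc1, K₀, hK₀⟩ := h
  refine ⟨c, hc0, hc1, max K₀ 1, ?_⟩
  intro K hK G ℓ j M A₀ ω hℓ hM hA₀ hB hlab hω
  have hK1 : K₀ ≤ K := (le_max_left _ _).trans hK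
  have hK2 : 1 ≤ K := (le_max_right _ _).trans hK
  have hKpos : (0 : ℝ) < K := by exact_mod_cast hK2
  have hℓ' : (1 : ℝ) ≤ ℓ := by exact_mod_cast hℓ
  have hKM : 0 < (K : ℝ) / M := div_pos hKpos hM
  set B : ℝ := A₀ + (10 + (ℓ : ℝ) / 2) * K / M with hBdef
  set C : ℝ := A₀ + (10 + (ℓ : ℝ) / 4) * K / M with hCdef
  set L : ℝ := 2 ^ j * M / 8 with hLdef
  set d : ℝ := (ℓ : ℝ) / 16 * (3 / 4) ^ j * K / M with hddef
  set E : ℝ := 2 * Real.exp (-(c * ℓ * (3 / 2) ^ j / 128)) with hEdef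
  have hL : 0 < L := by positivity
  have hd : 0 < d := by positivity
  have hE : 0 ≤ E := by positivity
  have hp34 : ((3 : ℝ) / 4) ^ j ≤ 1 := pow_le_one₀ (by norm_num) (by norm_num)
  have hp34' : (0 : ℝ) < ((3 : ℝ) / 4) ^ j := by positivity
  have hBC : C + d ≤ B := by
    have e1 : B = A₀ + (10 + (ℓ : ℝ) / 2) * (K / M) := by rw [hBdef]; ring
    have e2 : C = A₀ + (10 + (ℓ : ℝ) / 4) * (K / M) := by rw [hCdef]; ring
    have e3 : d = (ℓ : ℝ) / 16 * (3 / 4) ^ j * (K / M) := by rw [hddef]; ring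
    rw [e1, e2, e3]
    have h1 : (ℓ : ℝ) / 16 * (3 / 4) ^ j ≤ (ℓ : ℝ) / 4 := by nlinarith
    nlinarith [mul_le_mul_of_nonneg_right h1 hKM.le]
  have hAC : A₀ ≤ C := by
    rw [hCdef]
    have : 0 ≤ (10 + (ℓ : ℝ) / 4) * K / M := by positivity
    linarith
  have hexp : c * L * d / K = c * ℓ * (3 / 2) ^ j / 128 := by
    have e1 : ((3 : ℝ) / 2) ^ j = 2 ^ j * (3 / 4) ^ j := by
      rw [← mul_pow]; norm_num
    rw [hLdef, hddef, e1]
    field_simp
    ring
  -- the cells of the band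
  let φ : Pt → Prop := fun v => v.1 < C ∧ L ≤ v.2 ∧ v.2 < 2 ^ (j + 1) * M / 8
  have hmain : G.pr A₀ B (Bnd K ℓ M A₀ ω j) ≤
      ∑ v ∈ G.fld A₀ B, G.p * (if φ v then E else 0) := by
    have h1 : G.pr A₀ B (Bnd K ℓ M A₀ ω j) ≤
        bern (fun _ => G.p) (G.fld A₀ B)
          (fun Y => ∑ v ∈ Y, ind (φ v ∧ Stay K (ω ∪ Y) L (v.1 + d) v)) := by
      refine bern_mono (fld_pq G _ _) fun Y hY => ?_
      refine le_trans (ind_mono ?_)
        (ind_exists_le Y (fun v => φ v ∧ Stay K (ω ∪ Y) L (v.1 + d) v))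
      rintro ⟨v, hv, h1, h2, h3, h4⟩
      exact ⟨v, hv, ⟨h1, h2, h3⟩, h4⟩
    refine h1.trans ?_
    rw [bern_mecke (fun _ => G.p) (G.fld A₀ B)
      (fun v Y => ind (φ v ∧ Stay K (ω ∪ Y) L (v.1 + d) v))]
    refine Finset.sum_le_sum fun v hv => mul_le_mul_of_nonneg_left ?_ G.p_pos.le
    by_cases hφ : φ v
    · rw [if_pos hφ]
      have h2 : bern (fun _ => G.p) (G.fld A₀ B)
          (fun Y => ind (φ v ∧ Stay K (ω ∪ insert v Y) L (v.1 + d) v)) ≤
          bern (fun _ => G.p) (G.fld A₀ B)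
          (fun Y => ind (Stay K (ω ∪ insert v Y) L (v.1 + d) v)) :=
        bern_mono (fld_pq G _ _) fun Y _ => ind_mono fun h => h.2
      refine h2.trans ?_
      have h3 := stay_cell_FBm (c := c) hK2 (fun G L z ω w => hK₀ K hK1 G L z ω w) G
        (L := L) (z := v.1 + d) (A := A₀) (B := B) (ω := ω) (v := v) hL hA₀ hB
        (by linarith) (by linarith [hφ.1]) hv hlab hω
      have h4 : v.1 + d - v.1 = d := by ring
      rw [h4, hexp] at h3
      exact h3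
    · rw [if_neg hφ]
      refine le_of_eq ?_
      rw [← bern_const (fun _ => G.p) (G.fld A₀ B) 0]
      exact bern_congr fun Y _ => ind_of_not fun h => hφ h.1
  refine hmain.trans ?_
  have hsum : ∑ v ∈ G.fld A₀ B, G.p * (if φ v then E else 0) =
      (∑ _v ∈ (G.fld A₀ B).filter φ, G.p) * E := by
    rw [Finset.sum_mul, Finset.sum_filter]
    refine Finset.sum_congr rfl fun v _ => ?_
    split_ifs <;> simp
  rw [hsum]
  refine mul_le_mul_of_nonneg_right ?_ hE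
  have hsub : (G.fld A₀ B).filter φ ⊆
      (G.fld A₀ C).filter (fun v => v.2 ≤ 2 ^ (j + 1) * M / 8) := by
    intro v hv
    rw [Finset.mem_filter, mem_fld] at hv
    rw [Finset.mem_filter, mem_fld]
    exact ⟨⟨hv.1.1, hv.1.2.1, hv.1.2.2.1, hv.2.1⟩, hv.2.2.2.le⟩
  have h5 : (∑ _v ∈ (G.fld A₀ B).filter φ, G.p) ≤
      ∑ _v ∈ (G.fld A₀ C).filter (fun v => v.2 ≤ 2 ^ (j + 1) * M / 8), G.p :=
    Finset.sum_le_sum_of_subset_of_nonneg hsub fun _ _ _ => G.p_pos.le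
  refine h5.trans ?_
  have h6 := mean_le' G A₀ C (2 ^ (j + 1) * M / 8) hA₀ hAC (by linarith) (by positivity)
  refine h6.trans ?_
  have h7 : 2 ^ (j + 1) * M / 8 * (C - A₀) = 2 ^ (j + 1) / 8 * (10 + (ℓ : ℝ) / 4) * K := by
    rw [hCdef]
    field_simp
    ring
  rw [h7]
  linarith [G.κ_le]

end Pool.Agent.Helper67.GR
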