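import Pool.Agent.Helper67.GR.St2
import Pool.Agent.Helper67.GR.RegV
import Pool.Agent.Helper67.GR.Metl
import Pool.Agent.Helper67.GR.Grow

namespace Pool.Agent.Helper67.GR

/-- a state of a path started in `P` lies in `P` -/
theorem state_mem_FD {K : ℕ} {P : Finset Pt} {Λ z : ℝ} {w u : Pt} (hz : z ≤ 0) (hw : w ∈ P)
    (h : State K P Λ z w u) : u ∈ P := by
  rcases (path_pos hz h.1).2 with h1 | h1
  · rw [h1]; exact hw
  · exact h1.1

theorem chain_FD {n : ℝ} {K : ℕ} {P : Finset Pt} {v u : Pt} {y z L η e : ℝ}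
    (hη : 0 < η) (hη1 : η ≤ 1 / 20) (he0 : 0 ≤ e) (he : e ≤ η * K)
    (hK : 4 ≤ η * K) (hL : 0 < L) (hLab : Lab n P) (hReg : Reg n P y z (64 * L) e)
    (hz : z ≤ 0) (hexp : 16 * L * Real.exp (48 * η * (18 * L) * (z - y) / K) ≤ 18 * L)
    (hv : v ∈ P) (hv1 : y + K / (16 * L) ≤ v.1) (hv2 : v.2 ≤ 16 * L)
    (hyz : y ≤ z) (h : Relation.ReflTransGen (GStep K P L z) v u) :
    u ∈ P ∧ u.2 ≤ 18 * L := by
  have hKK : (0 : ℝ) < K := by nlinarith
  have hyv : y ≤ v.1 := by
    have : (0 : ℝ) ≤ K / (16 * L) := by positivity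
    linarith
  have key : ∀ a, Relation.ReflTransGen (GStep K P L z) v a →
      Relation.ReflTransGen (fun w v => Step ld K P w v ∧ y + K / (16 * L) ≤ w.1 ∧
        w.1 + (K - e) / max w.2 (16 * L) ≤ z) v a →
      a ∈ P ∧ v.1 ≤ a.1 ∧ a.2 ≤ 18 * L := by
    intro a ha0 ha
    have hη16 : 18 * L * (1 + 16 * η) ≤ 64 * L := by nlinarith
    obtain ⟨h1, h2, h3⟩ := grow (δ := ld) (Λ₀ := 16 * L) (Λm := 18 * L) hη hη1 he0 he hK
      (by linarith) (by linarith) hLab (reg_mono hReg le_rfl le_rfl hη16 le_rfl) hz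
      (fun c _ _ => met_ld P _ c) hexp hv hyv hv2 ha
    refine ⟨h1, h2, h3.trans (le_trans ?_ hexp)⟩
    have h4 : a.1 - v.1 ≤ z - y := by
      rcases (path_pos hz ha0).2 with h5 | h5
      · rw [h5]; linarith
      · linarith [h5.2.2]
    refine mul_le_mul_of_nonneg_left (Real.exp_le_exp.2 ?_) (by linarith)
    refine div_le_div_of_nonneg_right ?_ hKK.le
    exact mul_le_mul_of_nonneg_left h4 (by positivity)
  have main : Relation.ReflTransGen (fun w v => Step ld K P w v ∧ y + K / (16 * L) ≤ w.1 ∧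
        w.1 + (K - e) / max w.2 (16 * L) ≤ z) v u := by
    induction h with
    | refl => exact Relation.ReflTransGen.refl
    | @tail a b hab hbc ih =>
      obtain ⟨h1, h2, h3⟩ := key a hab ih
      refine Relation.ReflTransGen.tail ih ⟨hbc.1, by linarith, ?_⟩
      have h4 : a.1 < z := rr_pos_lt hbc.2.2
      have h5 := hLab a h1
      have h6 := (abs_le.1 (rr_reg hReg (by linarith : y ≤ a.1) h4.le le_rfl h5.1.le
        (by linarith) h5.2)).2
      have h7 : (K : ℝ) < Rr P a z := by exact_mod_cast hbc.2.2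
      have h8 : (0 : ℝ) < max a.2 (16 * L) := lt_of_lt_of_le h5.1 (le_max_left _ _)
      have h9 : a.2 * (z - a.1) ≤ max a.2 (16 * L) * (z - a.1) :=
        mul_le_mul_of_nonneg_right (le_max_left _ _) (by linarith)
      have h10 : (K - e) / max a.2 (16 * L) ≤ z - a.1 := by
        rw [div_le_iff₀ h8]
        nlinarith
      linarith
  obtain ⟨h1, -, h3⟩ := key u h main
  exact ⟨h1, h3⟩

theorem hFD : StFD := by
  intro X₀ hX₀
  obtain ⟨K₀, hK₀⟩ := exists_nat_ge (4 * (10000000 * X₀) + 4)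
  refine ⟨K₀, ?_⟩
  intro K hK n L y z P w w₁ u hL hLab hw hz hyz1 hyz2 hReg hst1 hst2 hns
  have hKR : 4 * (10000000 * X₀) + 4 ≤ (K : ℝ) := hK₀.trans (by exact_mod_cast hK)
  have hX : 0 < X₀ := by linarith
  have hK0 : (0 : ℝ) < K := by linarith
  have hKL : (0 : ℝ) < K / L := by positivity
  set η : ℝ := 1 / (10000000 * X₀) with hη
  have hη0 : 0 < η := by positivity
  have hηX : η * X₀ = 1 / 10000000 := by rw [hη]; field_simp
  have hη1 : η ≤ 1 / 10000000 := by
    rw [← hηX]; nlinarith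
  have hηK : 4 ≤ η * K := by
    have h1 : η * (4 * (10000000 * X₀) + 4) ≤ η * K := mul_le_mul_of_nonneg_left hKR hη0.le
    have h2 : η * (4 * (10000000 * X₀) + 4) = 4 * 10000000 * (η * X₀) + 4 * η := by ring
    rw [h2, hηX] at h1
    linarith
  have e30 : y + 30 * K / L = y + 30 * (K / L) := by ring
  have eq0 : y + (30 + X₀ / 4) * K / L = y + (30 + X₀ / 4) * (K / L) := by ring
  have eX : y + X₀ * K / L = y + X₀ * (K / L) := by ring
  have hq : y + 30 * K / L ≤ y + (30 + X₀ / 4) * K / L := by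
    rw [e30, eq0]; nlinarith
  have h30z : y + 30 * K / L ≤ z := hq.trans hyz1
  have hyz : y ≤ z := by
    rw [e30] at h30z; linarith
  have hw₁P : w₁ ∈ P := state_mem_FD (h30z.trans hz) hw hst1
  have hw₁n := (hLab w₁ hw₁P).2
  have hLn : L ≤ n := hst1.2.1.trans hw₁n
  have heK : η * K ≤ 1 / 10000000 * K := mul_le_mul_of_nonneg_right hη1 hK0.le
  -- the start position
  have hpos : y + 28 * (K / L) ≤ w₁.1 := by
    by_contra hcon
    push Not at hcon
    have h1 := (abs_le.1 (hReg (y + 28 * (K / L)) (y + 30 * K / L) L (by linarith)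
      (by rw [e30]; linarith) h30z hL.le (by linarith) hLn)).1
    have h2 : L * (y + 30 * K / L - (y + 28 * (K / L))) = 2 * K := by
      field_simp; ring
    rw [h2] at h1
    have h3 : cnt P (y + 28 * (K / L)) (y + 30 * K / L) L ≤ Rr P w₁ (y + 30 * K / L) := by
      unfold cnt Rr
      apply Finset.card_le_card
      intro p hp
      simp only [Finset.mem_filter] at hp ⊢
      exact ⟨hp.1, hp.2.2.2.trans hst1.2.1, lt_of_lt_of_le hcon hp.2.1, hp.2.2.1⟩
    have h4 : (cnt P (y + 28 * (K / L)) (y + 30 * K / L) L : ℝ) ≤ K := by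
      exact_mod_cast h3.trans hst1.2.2
    linarith
  obtain ⟨u₀, hu₀, hu₀u⟩ := state_prefix hyz1 hst2
  have hw₁u₀ := state_next hq (hyz1.trans hz) hst1 hu₀
  obtain ⟨v, hv, hv2, hvu₀⟩ := stay_split hw₁u₀ hns
  have hvu := state_trans hyz1 hvu₀ hu₀u
  have hvP : v ∈ P := by
    rcases (path_pos (hyz1.trans hz) hv).2 with h1 | h1
    · rw [h1]; exact hw₁P
    · exact h1.1
  have hv1 := (path_pos (hyz1.trans hz) hv).1
  refine chain_FD (v := v) (η := η) (e := η * K) (y := y) (z := z) hη0 (by linarith)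
    (by positivity) le_rfl hηK hL hLab hReg hz ?_ hvP ?_ hv2.le hyz hvu.1
  · have h1 : 48 * η * (18 * L) * (z - y) / K ≤ 1 / 10000 := by
      rw [div_le_iff₀ hK0]
      have h2 : L * (z - y) ≤ X₀ * K := by
        have h3 : z - y ≤ X₀ * K / L := by linarith
        rw [le_div_iff₀ hL] at h3
        linarith
      have h3 : 48 * η * (18 * L) * (z - y) = 864 * η * (L * (z - y)) := by ring
      rw [h3]
      have h4 : 864 * η * (L * (z - y)) ≤ 864 * η * (X₀ * K) :=
        mul_le_mul_of_nonneg_left h2 (by positivity)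
      have h5 : 864 * η * (X₀ * K) = 864 * (η * X₀) * K := by ring
      rw [h5, hηX] at h4
      linarith
    have h2 : Real.exp (48 * η * (18 * L) * (z - y) / K) ≤ Real.exp (1 / 10000) :=
      Real.exp_le_exp.2 h1
    have h3 : Real.exp (1 / 10000) ≤ 9 / 8 := by
      have h4 := Real.exp_bound_div_one_sub_of_interval (x := 1 / 10000) (by norm_num) (by norm_num)
      refine h4.trans ?_
      norm_num
    have h4 : 16 * L * Real.exp (48 * η * (18 * L) * (z - y) / K) ≤ 16 * L * (9 / 8) :=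
      mul_le_mul_of_nonneg_left (h2.trans h3) (by linarith)
    linarith
  · have h1 : (K : ℝ) / (16 * L) = 1 / 16 * (K / L) := by
      field_simp
    rw [h1]
    linarith

end Pool.Agent.Helper67.GR
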