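import Pool.Agent.Helper67.GR.St2

namespace Pool.Agent.Helper67.GR

theorem mem_of_state_FI1 {K : ℕ} {P : Finset Pt} {Λ z : ℝ} {w u : Pt} (hz : z ≤ 0)
    (hw : w ∈ P) (h : State K P Λ z w u) : u ∈ P := by
  rcases (path_pos hz h.1).2 with h1 | h1
  · rw [h1]; exact hw
  · exact h1.1

theorem lab_union_FI1 (G : Grid) {ω X : Finset Pt} {a b : ℝ} (hω : Lab G.n ω)
    (hX : X ⊆ G.fld a b) : Lab G.n (ω ∪ X) := by
  intro v hv
  rcases Finset.mem_union.1 hv with h | h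
  · exact hω v h
  · exact fld_lab G hX v h

theorem pos_union_FI1 (G : Grid) {ω X : Finset Pt} {a b : ℝ} (hab : a ≤ b)
    (hω : ∀ v ∈ ω, v.1 < a) (hX : X ⊆ G.fld a b) : ∀ v ∈ ω ∪ X, v.1 < b := by
  intro v hv
  rcases Finset.mem_union.1 hv with h | h
  · exact (hω v h).trans_le hab
  · exact ((mem_fld G).1 (hX h)).2.2.2

/-- adding a field beyond `b` does not change the configuration before `b` -/
theorem agree_FI1 (G : Grid) (ω X : Finset Pt) {Y : Finset Pt} {b c : ℝ}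
    (hY : Y ⊆ G.fld b c) : ∀ p : Pt, p.1 < b → (p ∈ ω ∪ (X ∪ Y) ↔ p ∈ ω ∪ X) := by
  intro p hp
  have h1 : p ∉ Y := fun h => absurd hp (not_lt.2 ((mem_fld G).1 (hY h)).2.2.1)
  simp only [Finset.mem_union]
  tauto

theorem hFI1 : StFI1 := by
  intro X₀ K G L hX₀ hL h1 m
  have hs : (0 : ℝ) ≤ X₀ * K / L := by positivity
  induction m with
  | zero =>
    intro y ω w _ _ _ _ _ _
    rw [pow_zero]
    exact pr_le_one G _ _ _
  | succ m ih =>
    intro y ω w hy hy0 hω hωy hw hR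
    set z₁ : ℝ := y + m * X₀ * K / L with hz₁
    set z₂ : ℝ := y + ((m + 1 : ℕ) : ℝ) * X₀ * K / L with hz₂
    have e12 : z₂ = z₁ + ((1 : ℕ) : ℝ) * X₀ * K / L := by
      rw [hz₁, hz₂]; push_cast; ring
    have hm : (0 : ℝ) ≤ m * X₀ * K / L := by positivity
    have h12 : z₁ ≤ z₂ := by
      rw [e12]; push_cast; rw [one_mul]; linarith
    have hz₂0 : z₂ ≤ 0 := hy0
    have hz₁0 : z₁ ≤ 0 := h12.trans hz₂0
    have hyz : y ≤ z₁ := by linarith
    have h2 := pr_cond_le G (a := y) (b := z₁) (c := z₂) (σ := 1 / 2) hyz h12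
      (fun Y => Stay K (ω ∪ Y) L z₂ w) (fun X => Stay K (ω ∪ X) L z₁ w) ?_ ?_
    · refine h2.trans ?_
      have h3 := ih y ω w hy hz₁0 hω hωy hw hR
      rw [pow_succ]
      linarith
    · intro X _ Y hY hst
      exact (stay_local (agree_FI1 G ω X hY) hz₁0).1 (stay_prefix h12 hst)
    · rintro X hX ⟨u, hu⟩
      have hu' : u ∈ ω ∪ X := mem_of_state_FI1 hz₁0 (Finset.mem_union_left _ hw) hu
      have h3 := h1 z₁ (ω ∪ X) u (by linarith) (by rw [← e12]; exact hz₂0)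
        (lab_union_FI1 G hω hX) (pos_union_FI1 G hyz hωy hX) hu' hu.2.2
      rw [← e12, pow_one] at h3
      refine le_trans (prob_mono (fld_pq G _ _) ?_) h3
      intro Y hY hst
      obtain ⟨v, hv⟩ := hst
      have hu2 : State K (ω ∪ (X ∪ Y)) L z₁ w u := (state_local (agree_FI1 G ω X hY) hz₁0).2 hu
      have h4 := state_next h12 hz₂0 hu2 hv
      rw [← Finset.union_assoc] at h4
      exact ⟨v, h4⟩

end Pool.Agent.Helper67.GR
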