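import Pool.Agent.Helper67.GR.St2
import Pool.Agent.Helper67.GR.RegV
import Pool.Agent.Helper67.GR.KS
import Pool.Agent.Helper67.GR.M_FI1

namespace Pool.Agent.Helper67.GR

/-- the event followed over the blocks -/
def WW_FI2 (K : ℕ) (n L y y' q e : ℝ) (ω : Finset Pt) (w : Pt) (z : ℝ) (X : Finset Pt) : Prop :=
  Reg n (ω ∪ X) y z (64 * L) e ∧
    (∃ w₁, State K (ω ∪ X) L y' w w₁ ∧ ¬ Stay K (ω ∪ X) (16 * L) q w₁) ∧
    Stay K (ω ∪ X) L z w

/-- the same event at `z` and for the field before `z` -/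
theorem ww_local_FI2 {K : ℕ} {n L y y' q e : ℝ} {ω : Finset Pt} {w : Pt} {z : ℝ}
    {X X' : Finset Pt} (hy' : y' ≤ z) (hq : q ≤ z) (hz : z ≤ 0)
    (hXX : ∀ p : Pt, p.1 < z → (p ∈ ω ∪ X ↔ p ∈ ω ∪ X'))
    (h : WW_FI2 K n L y y' q e ω w z X) : WW_FI2 K n L y y' q e ω w z X' := by
  obtain ⟨h1, ⟨w₁, h2, h3⟩, h4⟩ := h
  refine ⟨(reg_congr (fun p _ hp => hXX p hp)).1 h1, ⟨w₁, ?_, ?_⟩, (stay_local hXX hz).1 h4⟩
  · exact (state_local (fun p hp => hXX p (hp.trans_le hy')) (hy'.trans hz)).1 h2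
  · exact fun h5 => h3 ((stay_local (fun p hp => hXX p (hp.trans_le hq)) (hq.trans hz)).2 h5)

theorem ww_prefix_FI2 {K : ℕ} {n L y y' q e : ℝ} {ω : Finset Pt} {w : Pt} {z z' : ℝ}
    {X : Finset Pt} (hz : z ≤ z') (h : WW_FI2 K n L y y' q e ω w z' X) :
    WW_FI2 K n L y y' q e ω w z X :=
  ⟨reg_mono h.1 le_rfl hz le_rfl le_rfl, h.2.1, stay_prefix hz h.2.2⟩

/-- restricting to the field before `z` -/
theorem agree_inter_FI2 (G : Grid) {ω X : Finset Pt} {y z z' : ℝ} (hX : X ⊆ G.fld y z') :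
    ∀ p : Pt, p.1 < z → (p ∈ ω ∪ X ↔ p ∈ ω ∪ (X ∩ G.fld y z)) := by
  intro p hp
  rw [Finset.mem_union, Finset.mem_union, Finset.mem_inter]
  constructor
  · rintro (h | h)
    · exact Or.inl h
    · have h1 := (mem_fld G).1 (hX h)
      exact Or.inr ⟨h, (mem_fld G).2 ⟨h1.1, h1.2.1, h1.2.2.1, hp⟩⟩
  · rintro (h | h)
    · exact Or.inl h
    · exact Or.inr h.1

/-- one block -/
theorem block_FI2 {c : ℝ} {K : ℕ} (hK0 : 0 < K)
    (hBC : ∀ (G : Grid) (L y : ℝ) (ω : Finset Pt) (w : Pt), 0 < L → -(1/2) ≤ y →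
      y + 20 * K / L ≤ 0 → Lab G.n ω → (∀ v ∈ ω, v.1 < y) → w ∈ ω → L ≤ w.2 →
      w.2 ≤ 18 * L → Rr ω w y ≤ K → Reg G.n ω (y - 10 * K / L) y (40 * L) (1 / 2000000 * K) →
      G.pr y (y + 20 * K / L) (fun Y => Stay K (ω ∪ Y) L (y + 20 * K / L) w) ≤ 1 - c)
    {X₀ : ℝ} (hX₀ : 1 ≤ X₀)
    (hFD : ∀ (n L y z : ℝ) (P : Finset Pt) (w w₁ u : Pt), 0 < L → Lab n P → w ∈ P → z ≤ 0 →
      y + (30 + X₀ / 4) * K / L ≤ z → z ≤ y + X₀ * K / L →
      Reg n P y z (64 * L) (1 / (10000000 * X₀) * K) →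
      State K P L (y + 30 * K / L) w w₁ → State K P L z w u →
      ¬ Stay K P (16 * L) (y + (30 + X₀ / 4) * K / L) w₁ → u ∈ P ∧ u.2 ≤ 18 * L)
    (G : Grid) {L y z : ℝ} {ω : Finset Pt} {w : Pt} (hL : 0 < L) (hy : -(1/2) ≤ y)
    (hω : Lab G.n ω) (hωy : ∀ v ∈ ω, v.1 < y) (hw : w ∈ ω)
    (hqz : y + (30 + X₀ / 4) * K / L ≤ z) (hzX : z ≤ y + X₀ * K / L)
    (hz20 : z + 20 * K / L ≤ 0) :
    G.pr y (z + 20 * K / L) (WW_FI2 K G.n L y (y + 30 * K / L)
        (y + (30 + X₀ / 4) * K / L) (1 / (10000000 * X₀) * K) ω w (z + 20 * K / L)) ≤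
      (1 - c) * G.pr y z (WW_FI2 K G.n L y (y + 30 * K / L)
        (y + (30 + X₀ / 4) * K / L) (1 / (10000000 * X₀) * K) ω w z) := by
  have hKR : (0 : ℝ) < K := by exact_mod_cast hK0
  have hKL : (0 : ℝ) < K / L := by positivity
  have e20 : z + 20 * K / L = z + 20 * (K / L) := by ring
  have e30 : y + 30 * K / L = y + 30 * (K / L) := by ring
  have e10 : z - 10 * K / L = z - 10 * (K / L) := by ring
  have eq0 : y + (30 + X₀ / 4) * K / L = y + (30 + X₀ / 4) * (K / L) := by ring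
  have hz20' : z ≤ z + 20 * K / L := by rw [e20]; linarith
  have hq30 : y + 30 * K / L ≤ y + (30 + X₀ / 4) * K / L := by
    rw [e30, eq0]; nlinarith
  have h30z : y + 30 * K / L ≤ z := hq30.trans hqz
  have hyz : y ≤ z := by rw [e30] at h30z; linarith
  have hz0 : z ≤ 0 := hz20'.trans hz20
  refine pr_cond_le G hyz hz20' _ _ ?_ ?_
  · intro X hX Y hY h
    exact ww_local_FI2 h30z hqz hz0 (agree_FI1 G ω X hY) (ww_prefix_FI2 hz20' h)
  · rintro X hX ⟨h1, ⟨w₁, h2, h3⟩, ⟨u, h4⟩⟩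
    have hLab := lab_union_FI1 G hω hX
    have hwX : w ∈ ω ∪ X := Finset.mem_union_left _ hw
    obtain ⟨hu, hu18⟩ := hFD G.n L y z (ω ∪ X) w w₁ u hL hLab hwX hz0 hqz hzX h1 h2 h4 h3
    have hreg : Reg G.n (ω ∪ X) (z - 10 * K / L) z (40 * L) (1 / 2000000 * K) := by
      refine reg_mono h1 ?_ le_rfl (by linarith) ?_
      · rw [e30] at h30z
        rw [e10]; linarith
      · refine mul_le_mul_of_nonneg_right ?_ hKR.le
        refine one_div_le_one_div_of_le (by norm_num) ?_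
        nlinarith
    have h5 := hBC G L z (ω ∪ X) u hL (hy.trans hyz) hz20 hLab (pos_union_FI1 G hyz hωy hX)
      hu h4.2.1 hu18 h4.2.2 hreg
    refine le_trans (prob_mono (fld_pq G _ _) ?_) h5
    rintro Y hY ⟨-, -, ⟨v, hv⟩⟩
    have hu2 : State K (ω ∪ (X ∪ Y)) L z w u := (state_local (agree_FI1 G ω X hY) hz0).2 h4
    have h6 := state_next hz20' hz20 hu2 hv
    rw [← Finset.union_assoc] at h6
    exact ⟨v, h6⟩

/-- the part (b): the path stays above `16 L` over `X₀ K / (4 L)` -/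
theorem partb_FI2 {K : ℕ} {X₀ L : ℝ} (hX₀ : 0 < X₀) (G : Grid) (hL : 0 < L)
    (hFI : FI X₀ K G (16 * L) 4) {y : ℝ} {ω : Finset Pt} {w : Pt} (hy : -(1/2) ≤ y)
    (hω : Lab G.n ω) (hωy : ∀ v ∈ ω, v.1 < y) (hw : w ∈ ω)
    (hq : y + (30 + X₀ / 4) * K / L ≤ 0) :
    G.pr y (y + (30 + X₀ / 4) * K / L) (fun X => ∃ w₁, State K (ω ∪ X) L (y + 30 * K / L) w w₁ ∧
      Stay K (ω ∪ X) (16 * L) (y + (30 + X₀ / 4) * K / L) w₁) ≤ 1 / 16 := by
  have hKL : (0 : ℝ) ≤ K / L := by positivity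
  have e30 : y + 30 * K / L = y + 30 * (K / L) := by ring
  have eq0 : y + (30 + X₀ / 4) * K / L = y + (30 + X₀ / 4) * (K / L) := by ring
  have hq30 : y + 30 * K / L ≤ y + (30 + X₀ / 4) * K / L := by
    rw [e30, eq0]; nlinarith
  have hy30 : y ≤ y + 30 * K / L := by rw [e30]; linarith
  have h300 : y + 30 * K / L ≤ 0 := hq30.trans hq
  have eq4 : y + (30 + X₀ / 4) * K / L = (y + 30 * K / L) + ((4 : ℕ) : ℝ) * X₀ * K / (16 * L) := by
    push_cast
    field_simp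
    ring
  have h1 := pr_cond_le G (a := y) (b := y + 30 * K / L) (c := y + (30 + X₀ / 4) * K / L)
    (σ := 1 / 16) hy30 hq30
    (fun X => ∃ w₁, State K (ω ∪ X) L (y + 30 * K / L) w w₁ ∧
      Stay K (ω ∪ X) (16 * L) (y + (30 + X₀ / 4) * K / L) w₁)
    (fun X => ∃ w₁, State K (ω ∪ X) L (y + 30 * K / L) w w₁) ?_ ?_
  · have h2 := pr_le_one G y (y + 30 * K / L) (fun X => ∃ w₁, State K (ω ∪ X) L (y + 30 * K / L) w w₁)
    linarith
  · rintro X hX Y hY ⟨w₁, h2, -⟩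
    exact ⟨w₁, (state_local (agree_FI1 G ω X hY) h300).1 h2⟩
  · rintro X hX ⟨w₁, h2⟩
    have hw₁ : w₁ ∈ ω ∪ X := mem_of_state_FI1 h300 (Finset.mem_union_left _ hw) h2
    have h3 := hFI (y + 30 * K / L) (ω ∪ X) w₁ (hy.trans hy30) (by rw [← eq4]; exact hq)
      (lab_union_FI1 G hω hX) (pos_union_FI1 G hy30 hωy hX) hw₁ h2.2.2
    rw [← eq4] at h3
    refine le_trans (prob_mono (fld_pq G _ _) ?_) (h3.trans (by norm_num))
    rintro Y hY ⟨w₂, h4, h5⟩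
    have h6 : State K (ω ∪ (X ∪ Y)) L (y + 30 * K / L) w w₁ :=
      (state_local (agree_FI1 G ω X hY) h300).2 h2
    have h7 := state_unique h300 h4 h6
    rw [h7, ← Finset.union_assoc] at h5
    exact h5

/-- the part (a): irregular configurations -/
theorem parta_FI2 {K : ℕ} {X₀ L C : ℝ} (hX₀ : 1 ≤ X₀) (hC0 : 0 < C)
    (hC : ∀ (G : Grid) (a b Λ e : ℝ), -(1/2) ≤ a → a ≤ b → b ≤ 1/2 → 0 ≤ Λ → 0 < e →
      G.pr a b (fun Y => ¬ Reg G.n Y a b Λ e) ≤ C * (Λ * (b - a) + 1) / e ^ 2)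
    (hK1 : 1 ≤ K) (hK : C * 65 * X₀ * 16 * (10000000 * X₀) ^ 2 ≤ K)
    (G : Grid) (hL : 0 < L) {y z : ℝ} {ω : Finset Pt} (hy : -(1/2) ≤ y)
    (hωy : ∀ v ∈ ω, v.1 < y) (hz : z = y + X₀ * K / L) (hz0 : z ≤ 0) :
    G.pr y z (fun X => ¬ Reg G.n (ω ∪ X) y z (64 * L) (1 / (10000000 * X₀) * K)) ≤ 1 / 16 := by
  have hKR : (1 : ℝ) ≤ K := by exact_mod_cast hK1
  have hyz : y ≤ z := by
    have : (0 : ℝ) ≤ X₀ * K / L := by positivity
    linarith
  have h1 : G.pr y z (fun X => ¬ Reg G.n (ω ∪ X) y z (64 * L) (1 / (10000000 * X₀) * K)) =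
      G.pr y z (fun X => ¬ Reg G.n X y z (64 * L) (1 / (10000000 * X₀) * K)) := by
    refine prob_congr ?_
    intro X _
    refine not_congr (reg_congr ?_)
    intro p hp _
    rw [Finset.mem_union]
    constructor
    · rintro (h | h)
      · exact absurd (hωy p h) (not_lt.2 hp)
      · exact h
    · exact fun h => Or.inr h
  rw [h1]
  refine (hC G y z (64 * L) _ hy hyz (by linarith) (by linarith) (by positivity)).trans ?_
  rw [div_le_iff₀ (by positivity)]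
  have h2 : 64 * L * (z - y) + 1 ≤ 65 * X₀ * K := by
    have h3 : 64 * L * (z - y) = 64 * (X₀ * K) := by
      rw [hz]; field_simp; ring
    rw [h3]
    nlinarith
  have h4 : C * (64 * L * (z - y) + 1) ≤ C * (65 * X₀ * K) := mul_le_mul_of_nonneg_left h2 hC0.le
  refine h4.trans ?_
  have h5 : (1 / (10000000 * X₀) * (K : ℝ)) ^ 2 = (K : ℝ) * K / (10000000 * X₀) ^ 2 := by
    field_simp
  rw [h5]
  have h6 : C * (65 * X₀ * K) = (C * 65 * X₀ * 16 * (10000000 * X₀) ^ 2) * K /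
      (16 * (10000000 * X₀) ^ 2) := by
    field_simp
  rw [h6, div_le_iff₀ (by positivity)]
  have h7 : (C * 65 * X₀ * 16 * (10000000 * X₀) ^ 2) * K ≤ (K : ℝ) * K :=
    mul_le_mul_of_nonneg_right hK (by linarith)
  have h8 : 1 / 16 * ((K : ℝ) * K / (10000000 * X₀) ^ 2) * (16 * (10000000 * X₀) ^ 2) =
      (K : ℝ) * K := by
    field_simp
  rw [h8]
  exact h7

theorem hFI2 (hbc : StBC) (hfd : StFD) : StFI2 := by
  obtain ⟨c, hc0, hc1, K₁, hK₁⟩ := hbc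
  obtain ⟨C, hC0, hC⟩ := reg_cheb
  obtain ⟨M, hM⟩ := exists_pow_lt_of_lt_one (by norm_num : (0 : ℝ) < 1 / 16)
    (by linarith : 1 - c < 1)
  have hM0 : (0 : ℝ) ≤ M := Nat.cast_nonneg M
  obtain ⟨X₀, hX₀⟩ : ∃ X₀ : ℝ, X₀ = 40 + 30 * M := ⟨_, rfl⟩
  have hX1 : 1 ≤ X₀ := by linarith
  obtain ⟨K₂, hK₂⟩ := hfd X₀ hX1
  obtain ⟨K₃, hK₃⟩ := exists_nat_ge (C * 65 * X₀ * 16 * (10000000 * X₀) ^ 2)
  refine ⟨X₀, hX1, max (max K₁ K₂) (max K₃ 1), ?_⟩
  intro K hK G L hL hFI y ω w hy hy0 hω hωy hw hR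
  have hKK₁ : K ≥ K₁ := le_trans (le_trans (le_max_left _ _) (le_max_left _ _)) hK
  have hKK₂ : K ≥ K₂ := le_trans (le_trans (le_max_right _ _) (le_max_left _ _)) hK
  have hKK₃ : K ≥ K₃ := le_trans (le_trans (le_max_left _ _) (le_max_right _ _)) hK
  have hKone : 1 ≤ K := le_trans (le_trans (le_max_right _ _) (le_max_right _ _)) hK
  have hKR : (1 : ℝ) ≤ K := by exact_mod_cast hKone
  have hKL : (0 : ℝ) < K / L := by positivity
  rw [Nat.cast_one, one_mul] at hy0 ⊢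
  rw [pow_one]
  have e30 : y + 30 * K / L = y + 30 * (K / L) := by ring
  have eq0 : y + (30 + X₀ / 4) * K / L = y + (30 + X₀ / 4) * (K / L) := by ring
  have eX : y + X₀ * K / L = y + X₀ * (K / L) := by ring
  set y' : ℝ := y + 30 * K / L with hy'
  set q : ℝ := y + (30 + X₀ / 4) * K / L with hq
  set E : ℝ := y + X₀ * K / L with hE
  set e : ℝ := 1 / (10000000 * X₀) * K with he
  have hqE : q ≤ E := by
    rw [eq0, eX]
    have : 30 + X₀ / 4 ≤ X₀ := by rw [hX₀]; linarith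
    have := mul_le_mul_of_nonneg_right this hKL.le
    linarith
  have hq30 : y' ≤ q := by
    rw [e30, eq0]; nlinarith
  have hy30 : y ≤ y' := by rw [e30]; linarith
  -- the block positions
  set zf : ℕ → ℝ := fun i => q + 20 * i * (K / L) with hzf
  have hzs : ∀ i, zf (i + 1) = zf i + 20 * K / L := by
    intro i
    simp only [hzf]
    push_cast
    ring
  have hzE : ∀ i ≤ M, zf i ≤ E := by
    intro i hi
    simp only [hzf]
    rw [eq0, eX]
    have h1 : (i : ℝ) ≤ M := by exact_mod_cast hi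
    have h2 : 30 + X₀ / 4 + 20 * i ≤ X₀ := by rw [hX₀]; linarith
    have h3 := mul_le_mul_of_nonneg_right h2 hKL.le
    linarith
  have hqzf : ∀ i, q ≤ zf i := by
    intro i
    simp only [hzf]
    have : (0 : ℝ) ≤ 20 * i * (K / L) := by positivity
    linarith
  have hW : ∀ i ≤ M, G.pr y (zf i) (WW_FI2 K G.n L y y' q e ω w (zf i)) ≤ (1 - c) ^ i := by
    intro i
    induction i with
    | zero =>
      intro _
      rw [pow_zero]
      exact pr_le_one G _ _ _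
    | succ i ih =>
      intro hi
      have h1 := ih (by omega)
      have h2 := block_FI2 (c := c) (K := K) (by omega) (hK₁ K hKK₁) hX1 (hK₂ K hKK₂) G
        (L := L) (y := y) (z := zf i) (ω := ω) (w := w) hL hy hω hωy hw (hqzf i)
        (hzE i (by omega)) (by rw [← hzs]; exact (hzE _ hi).trans hy0)
      rw [← hzs] at h2
      refine h2.trans ?_
      rw [pow_succ, mul_comm ((1 - c) ^ i)]
      exact mul_le_mul_of_nonneg_left h1 (by linarith)
  have hzM := hzE M le_rfl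
  have hqM := hqzf M
  -- the three parts
  have hA : G.pr y E (fun X => ¬ Reg G.n (ω ∪ X) y E (64 * L) e) ≤ 1 / 16 :=
    parta_FI2 hX1 hC0 hC hKone (hK₃.trans (by exact_mod_cast hKK₃)) G hL hy hωy rfl hy0
  have hB : G.pr y E (fun X => ∃ w₁, State K (ω ∪ X) L y' w w₁ ∧
      Stay K (ω ∪ X) (16 * L) q w₁) ≤ 1 / 16 := by
    rw [pr_marginal G (a := y) (b := q) le_rfl hqE]
    · exact partb_FI2 (by linarith) G hL (hFI 4) hy hω hωy hw (hqE.trans hy0)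
    · intro X hX
      refine exists_congr fun w₁ => and_congr ?_ ?_
      · exact state_local (fun p hp => agree_inter_FI2 G hX p (hp.trans_le hq30))
          (hq30.trans (hqE.trans hy0))
      · exact stay_local (agree_inter_FI2 G hX) (hqE.trans hy0)
  have hC' : G.pr y E (WW_FI2 K G.n L y y' q e ω w (zf M)) ≤ 1 / 16 := by
    rw [pr_marginal G (a := y) (b := zf M) le_rfl hzM]
    · exact (hW M le_rfl).trans hM.le
    · intro X hX
      have h1 := agree_inter_FI2 G (ω := ω) (z := zf M) hX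
      exact ⟨ww_local_FI2 (hq30.trans hqM) hqM (hzM.trans hy0) h1,
        ww_local_FI2 (hq30.trans hqM) hqM (hzM.trans hy0) (fun p hp => (h1 p hp).symm)⟩
  have hfin : G.pr y E (fun Y => Stay K (ω ∪ Y) L E w) ≤
      G.pr y E (fun X => ¬ Reg G.n (ω ∪ X) y E (64 * L) e) +
      (G.pr y E (fun X => ∃ w₁, State K (ω ∪ X) L y' w w₁ ∧ Stay K (ω ∪ X) (16 * L) q w₁) +
        G.pr y E (WW_FI2 K G.n L y y' q e ω w (zf M))) := by
    refine (prob_le_of_le_add (fld_pq G y E)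
      (C := fun X => (∃ w₁, State K (ω ∪ X) L y' w w₁ ∧ Stay K (ω ∪ X) (16 * L) q w₁) ∨
        WW_FI2 K G.n L y y' q e ω w (zf M) X) ?_).trans
      (add_le_add_right (prob_or_le (fld_pq G y E) _ _) _)
    intro X hX hst
    by_cases h1 : Reg G.n (ω ∪ X) y E (64 * L) e
    · right
      obtain ⟨u, hu⟩ := hst
      obtain ⟨w₁, h2, -⟩ := state_prefix (hq30.trans hqE) hu
      by_cases h3 : Stay K (ω ∪ X) (16 * L) q w₁
      · exact Or.inl ⟨w₁, h2, h3⟩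
      · exact Or.inr (ww_prefix_FI2 hzM ⟨h1, ⟨w₁, h2, h3⟩, ⟨u, hu⟩⟩)
    · exact Or.inl h1
  linarith

end Pool.Agent.Helper67.GR
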