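import Pool.Agent.Helper67.GR.St2

namespace Pool.Agent.Helper67.GR

open Finset

theorem hFIv (h : StFIy) : StFIv := by
  obtain ⟨c, hc0, hc1, K₀, hK₀⟩ := h
  refine ⟨c, hc0, hc1, K₀, ?_⟩
  intro K hK G L z ω w hL hw1 hwz hz hlab hω hw
  have hfin : ∀ᶠ y in nhdsWithin w.1 (Set.Ioi w.1), ∀ x ∈ G.Xs, w.1 < x → y ≤ x := by
    rw [Filter.eventually_all_finset]
    intro x _
    by_cases hx : w.1 < x
    · have h1 : ∀ᶠ y in nhdsWithin w.1 (Set.Ioi w.1), y < x :=
        nhdsWithin_le_nhds (gt_mem_nhds hx)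
      filter_upwards [h1] with y hy _
      exact hy.le
    · exact Filter.Eventually.of_forall fun y h => absurd h hx
  have hyz : ∀ᶠ y in nhdsWithin w.1 (Set.Ioi w.1), y < z :=
    nhdsWithin_le_nhds (gt_mem_nhds hwz)
  have hev : ∀ᶠ y in nhdsWithin w.1 (Set.Ioi w.1),
      prob (fun _ => G.p) ((G.Xs.filter (fun x => w.1 < x ∧ x < z)) ×ˢ G.Ts)
        (fun Y => Stay K (ω ∪ Y) L z w) ≤ 2 * Real.exp (-(c * L * (z - y) / K)) := by
    filter_upwards [hfin, hyz, self_mem_nhdsWithin] with y h1 h2 h3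
    have h3' : w.1 < y := h3
    have hfield : (G.Xs.filter (fun x => w.1 < x ∧ x < z)) ×ˢ G.Ts = G.fld y z := by
      unfold Grid.fld
      congr 1
      apply Finset.filter_congr
      intro x hx
      constructor
      · rintro ⟨h4, h5⟩
        exact ⟨h1 x hx h4, h5⟩
      · rintro ⟨h4, h5⟩
        exact ⟨h3'.trans_le h4, h5⟩
    rw [hfield]
    have hR : Rr ω w y ≤ K := by
      have : Rr ω w y = 0 := by
        unfold Rr
        rw [Finset.card_eq_zero, Finset.filter_eq_empty_iff]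
        rintro v hv ⟨_, h5, _⟩
        exact absurd (hω v hv) (not_le.2 h5)
      omega
    exact hK₀ K hK G L y z ω w hL (by linarith) h2.le hz hlab
      (fun v hv => (hω v hv).trans_lt h3') hw hR
  have hlim : Filter.Tendsto (fun y => 2 * Real.exp (-(c * L * (z - y) / K)))
      (nhdsWithin w.1 (Set.Ioi w.1)) (nhds (2 * Real.exp (-(c * L * (z - w.1) / K)))) := by
    apply Filter.Tendsto.mono_left _ nhdsWithin_le_nhds
    have hcont : Continuous (fun y : ℝ => 2 * Real.exp (-(c * L * (z - y) / K))) := by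
      fun_prop
    exact hcont.tendsto _
  exact ge_of_tendsto hlim hev

end Pool.Agent.Helper67.GR
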