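import Pool.Agent.Helper67.GR.St2

namespace Pool.Agent.Helper67.GR

open Finset

theorem pr_stay_le_FIy (G : Grid) {K : ℕ} {L y z z' : ℝ} {ω : Finset Pt} {w : Pt}
    (hz' : z' ≤ z) (hz : z ≤ 0) :
    G.pr y z (fun Y => Stay K (ω ∪ Y) L z w) ≤ G.pr y z' (fun Y => Stay K (ω ∪ Y) L z' w) := by
  have h1 : G.pr y z (fun Y => Stay K (ω ∪ Y) L z w) ≤
      G.pr y z (fun Y => Stay K (ω ∪ Y) L z' w) :=
    prob_mono (fld_pq G y z) fun Y _ h => stay_prefix hz' h
  refine h1.trans (le_of_eq ?_)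
  refine pr_marginal G le_rfl hz' _ fun X hX => ?_
  refine stay_local (fun p hp => ?_) (hz'.trans hz)
  rw [Finset.mem_union, Finset.mem_union, Finset.mem_inter]
  constructor
  · rintro (h | h)
    · exact Or.inl h
    · obtain ⟨h1, h2, h3, h4⟩ := (mem_fld G).1 (hX h)
      exact Or.inr ⟨h, (mem_fld G).2 ⟨h1, h2, h3, hp⟩⟩
  · rintro (h | h)
    · exact Or.inl h
    · exact Or.inr h.1

theorem hFIy (h : StFall) : StFIy := by
  obtain ⟨X₀, hX₀, K₀, hK₀⟩ := h
  have hlog : 0 < Real.log 2 := Real.log_pos (by norm_num)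
  have hX0 : 0 < X₀ := by linarith
  refine ⟨min 1 (Real.log 2 / X₀), lt_min one_pos (by positivity), min_le_left _ _,
    max K₀ 1, ?_⟩
  intro K hK G L y z ω w hL hy hyz hz hlab hω hw hR
  have hK1 : K₀ ≤ K := (le_max_left _ _).trans hK
  have hK2 : 1 ≤ K := (le_max_right _ _).trans hK
  have hKpos : (0 : ℝ) < K := by exact_mod_cast hK2
  set s : ℝ := X₀ * K / L with hs
  have hspos : 0 < s := by positivity
  set m : ℕ := ⌊(z - y) / s⌋₊ with hm
  have hq : 0 ≤ (z - y) / s := div_nonneg (by linarith) hspos.le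
  have hm1 : (m : ℝ) ≤ (z - y) / s := Nat.floor_le hq
  have hm2 : (z - y) / s < m + 1 := Nat.lt_floor_add_one _
  have hms : (m : ℝ) * s ≤ z - y := (le_div_iff₀ hspos).1 hm1
  have he : y + m * X₀ * K / L = y + m * s := by
    rw [hs]
    ring
  have hz' : y + m * X₀ * K / L ≤ z := by
    rw [he]
    linarith
  have hF := hK₀ K hK1 G L hL m y ω w hy (hz'.trans hz) hlab hω hw hR
  refine (pr_stay_le_FIy G hz' hz).trans (hF.trans ?_)
  have h1 : ((1 : ℝ) / 2) ^ m = Real.exp (-(Real.log 2 * m)) := by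
    rw [Real.exp_neg, mul_comm, Real.exp_nat_mul, Real.exp_log (by norm_num : (0 : ℝ) < 2),
      one_div, inv_pow]
  have h2 : (2 : ℝ) * Real.exp (-(min 1 (Real.log 2 / X₀) * L * (z - y) / K)) =
      Real.exp (Real.log 2 + -(min 1 (Real.log 2 / X₀) * L * (z - y) / K)) := by
    rw [Real.exp_add, Real.exp_log (by norm_num : (0 : ℝ) < 2)]
  rw [h1, h2]
  apply Real.exp_le_exp.2
  have h3 : min 1 (Real.log 2 / X₀) * L * (z - y) / K ≤ Real.log 2 * ((z - y) / s) := by
    have h4 : Real.log 2 * ((z - y) / s) = Real.log 2 / X₀ * (L * (z - y) / K) := by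
      rw [hs]
      field_simp
    rw [h4]
    have h5 : 0 ≤ L * (z - y) / K := by
      apply div_nonneg _ hKpos.le
      exact mul_nonneg hL.le (by linarith)
    calc min 1 (Real.log 2 / X₀) * L * (z - y) / K
        = min 1 (Real.log 2 / X₀) * (L * (z - y) / K) := by ring
      _ ≤ Real.log 2 / X₀ * (L * (z - y) / K) :=
        mul_le_mul_of_nonneg_right (min_le_right _ _) h5
  nlinarith

end Pool.Agent.Helper67.GR
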