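import Pool.Agent.Helper67.GR.St2

/-! # GR module Fall: the fall lemma by induction on the level -/

namespace Pool.Agent.Helper67.GR

theorem stay_false_Fall {K : ℕ} {P : Finset Pt} {n L z : ℝ} {w : Pt} (hP : Lab n P)
    (hw : w ∈ P) (hn : n < L) : ¬ Stay K P L z w := by
  rintro ⟨u, hu, hL, -⟩
  have hmem : u ∈ P := by
    rcases Relation.ReflTransGen.cases_tail hu with h | ⟨v, -, hv⟩
    · rw [h]; exact hw
    · exact hv.1.1
  have := (hP u hmem).2
  linarith

theorem hFall (h1 : StFI1) (h2 : StFI2) : StFall := by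
  obtain ⟨X₀, hX₀, K₀, hK⟩ := h2
  refine ⟨X₀, hX₀, K₀, ?_⟩
  intro K hKK G
  have key : ∀ k : ℕ, ∀ L : ℝ, 0 < L → G.n < 16 ^ k * L → ∀ m, FI X₀ K G L m := by
    intro k
    induction k with
    | zero =>
      intro L _ hn m y ω w _ _ hω _ hw _
      rw [pow_zero, one_mul] at hn
      have h3 : G.pr y (y + m * X₀ * K / L)
          (fun Y => Stay K (ω ∪ Y) L (y + m * X₀ * K / L) w) = 0 := by
        refine prob_false _ _ ?_
        intro Y hY
        refine stay_false_Fall (n := G.n) ?_ (Finset.mem_union_left _ hw) hn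
        intro v hv
        rcases Finset.mem_union.1 hv with h | h
        · exact hω v h
        · exact fld_lab G hY v h
      rw [h3]
      positivity
    | succ k ih =>
      intro L hL hn
      have h3 := ih (16 * L) (by positivity) (by
        rw [pow_succ] at hn
        nlinarith)
      exact h1 X₀ K G L (by linarith) hL (hK K hKK G L hL h3)
  intro L hL
  obtain ⟨k, hk⟩ := pow_unbounded_of_one_lt (G.n / L) (by norm_num : (1 : ℝ) < 16)
  rw [div_lt_iff₀ hL] at hk
  exact key k L hL hk

end Pool.Agent.Helper67.GR
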