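import Pool.Agent.Helper67.GR.St4
import Pool.Agent.Helper67.GR.RegV

/-! # GR project (MP_d9675d_pr), module FarD: deterministic part of the far event -/

set_option autoImplicit false

namespace Pool.Agent.Helper67.GR

open Finset

/-- labels and positions of a configuration -/
theorem cfg_ok_FarD {ε : ℝ} {G : Grid} {s t : Pt} (hS : HypS ε G.n s t) {Y Z : Finset Pt}
    (hY : Y ⊆ G.sfld (rr ε)) (hZ : OutOk G.n (rr ε) Z) {p : Pt} (hp : p ∈ cfg Y Z s t) :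
    (0 < p.2 ∧ p.2 ≤ G.n) ∧ |p.1| ≤ 1 / 2 := by
  obtain ⟨h1, h2, h3, h4, h5, h6, h7, h8, h9⟩ := hS
  unfold cfg at hp
  rw [mem_union, mem_union, mem_insert, mem_singleton] at hp
  rcases hp with (hp | hp) | (rfl | rfl)
  · have h := hY hp
    unfold Grid.sfld at h
    rw [mem_product, mem_filter] at h
    refine ⟨G.Ts_mem _ h.2, ?_⟩
    have := G.Xs_mem _ h.1.1
    rw [abs_le]
    constructor <;> linarith [this.1, this.2]
  · have h := hZ p hp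
    exact ⟨⟨h.2.2.1, h.2.2.2⟩, h.2.1⟩
  · exact ⟨⟨h5, h6⟩, by linarith⟩
  · refine ⟨⟨h8, h9⟩, ?_⟩
    rw [h7, abs_zero]
    norm_num

theorem sub_cfg_FarD {Y Z : Finset Pt} {s t : Pt} : Y ∪ {s, t} ⊆ cfg Y Z s t := by
  unfold cfg
  intro p hp
  rw [mem_union] at hp
  rw [mem_union, mem_union]
  rcases hp with h | h
  · exact Or.inl (Or.inl h)
  · exact Or.inr h

theorem hFarD (hbtr : StBTR) : StFarD := by
  obtain ⟨ℓ₁, hbtr⟩ := hbtr
  refine ⟨max ℓ₁ 82, ?_⟩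
  intro ℓ K hℓ hPar ε G L c s t I hL hI hr hI0 hs Y hY Z hZ v m k hpath hkm hk1 hk2 hkL i hi
  have hℓ1 : ℓ₁ ≤ ℓ := (le_max_left _ _).trans hℓ
  have hℓ82 : 82 ≤ ℓ := (le_max_right _ _).trans hℓ
  have hℓR : (82 : ℝ) ≤ ℓ := by exact_mod_cast hℓ82
  have hK1 : 1 ≤ K := by
    have h1 : 1 ≤ ℓ ^ 8 := Nat.one_le_pow _ _ (by omega)
    exact h1.trans hPar.1
  have hKR : (1 : ℝ) ≤ K := by exact_mod_cast hK1
  obtain ⟨hS, hκ, hL0, hLn, hLε⟩ := hL
  have hε0 : 0 < ε := hS.1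
  by_cases hReg : Reg G.n (Y ∪ {s, t}) (c - hh ℓ K L (i + 1)) (c + hh ℓ K L (i + 1))
    (2 * lam K L i) (K / (400 * ℓ))
  swap
  · exact Or.inl hReg
  right
  have hQ : (1 : ℝ) ≤ (K : ℝ) ^ 5 := one_le_pow₀ hKR
  have hQi : (1 : ℝ) ≤ ((K : ℝ) ^ 5) ^ i := one_le_pow₀ hQ
  obtain ⟨M, hM⟩ : ∃ M : ℝ, M = lam K L i := ⟨_, rfl⟩
  obtain ⟨R, hR⟩ : ∃ R : ℝ, R = K / M := ⟨_, rfl⟩
  have hM0 : 0 < M := by rw [hM]; unfold lam; positivity
  have hML : M ≤ L := by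
    rw [hM]; unfold lam
    exact div_le_self hL0.le hQi
  have hR0 : 0 < R := by rw [hR]; positivity
  have hh1 : hh ℓ K L (i + 1) = ℓ * R := by
    rw [hR, hM]; unfold hh lam
    field_simp
  have hmono : hh ℓ K L (i + 1) ≤ hh ℓ K L (I + 1) := by
    unfold hh
    have : ((K : ℝ) ^ 5) ^ i ≤ ((K : ℝ) ^ 5) ^ I := pow_le_pow_right₀ hQ hi
    exact div_le_div_of_nonneg_right (mul_le_mul_of_nonneg_left this (by positivity)) hL0.le
  rw [hh1] at hmono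
  obtain ⟨H, hH⟩ : ∃ H : ℝ, H = hh ℓ K L (I + 1) := ⟨_, rfl⟩
  rw [← hH] at hmono hI hr hI0 hs
  rw [hh1, ← hM] at hReg
  have hKL : (K : ℝ) / L ≤ R := by
    rw [hR]
    exact div_le_div_of_nonneg_left (by linarith) hM0 hML
  have e30 : 30 * (K : ℝ) / M = 30 * R := by rw [hR]; ring
  have e10 : 10 * (K : ℝ) / M = 10 * R := by rw [hR]; ring
  have e5 : 5 * (K : ℝ) / M = 5 * R := by rw [hR]; ring
  have e35 : 35 * (K : ℝ) / M = 35 * R := by rw [hR]; ring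
  have e4 : 4 * (ℓ : ℝ) * K / M = 4 * ℓ * R := by rw [hR]; ring
  have ez : (40 + (ℓ : ℝ) / 2) * K / M = (40 + (ℓ : ℝ) / 2) * R := by rw [hR]; ring
  have hℓRR : 82 * R ≤ ℓ * R := by gcongr
  have hrr : rr ε = 1 / 2 - ε / 4 := rfl
  have hεR : 10 * R ≤ ε / 4 := by
    have : 20 * R ≤ ℓ * R := by gcongr; linarith
    linarith
  have hLab : Lab G.n (cfg Y Z s t) := fun p hp => (cfg_ok_FarD hS hY hZ hp).1
  have hLab' : Lab G.n (Y ∪ {s, t}) := fun p hp =>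
    (cfg_ok_FarD hS hY hZ (sub_cfg_FarD hp)).1
  have hP : ∀ p ∈ cfg Y Z s t, |p.1| ≤ 1 / 2 := fun p hp => (cfg_ok_FarD hS hY hZ hp).2
  have hP' : ∀ p ∈ Y ∪ {s, t}, |p.1| ≤ 1 / 2 := fun p hp =>
    (cfg_ok_FarD hS hY hZ (sub_cfg_FarD hp)).2
  have key := hbtr ℓ K hℓ1 hPar G.n M (c - ℓ * R + 30 * R) c (c - ℓ * R + (40 + (ℓ : ℝ) / 2) * R)
    (cfg Y Z s t) (Y ∪ {s, t}) s v m k hM0 hLab hLab' hP hP' (by
      intro p hp1 hp2
      rw [e30] at hp1 hp2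
      refine ⟨fun hp => ?_, fun hp => sub_cfg_FarD hp⟩
      unfold cfg at hp
      rw [mem_union, mem_union] at hp
      rw [mem_union]
      rcases hp with (hp | hp) | hp
      · exact Or.inl hp
      · exfalso
        have h1 := (hZ p hp).1
        rw [abs_of_nonpos (by linarith)] at h1
        linarith
      · exact Or.inr hp) (by rw [e10, e30]; linarith) (by rw [e30]; linarith) (by
      rw [e30]
      exact reg_mono hReg (by linarith) (by linarith) le_rfl le_rfl) (by nlinarith)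
    (by rw [← hR]; nlinarith) (by rw [e4]; nlinarith) hpath hkm (by rw [← hR]; linarith)
    (by rw [← hR]; linarith) (by linarith)
  rcases key with ⟨h1, h2, -⟩ | ⟨-, u, hu, h1, h2, h3⟩
  · exfalso
    rw [← hR] at h2
    rcases hs with hs | hs
    · linarith
    · linarith
  · rw [e5] at h2
    refine ⟨u, hu, ?_, ?_, ?_⟩
    · rw [hh1, ← hM, e30]; exact h1
    · rw [hh1, ← hM, e35]; linarith
    · rw [hh1, ← hM, ez]; exact h3

end Pool.Agent.Helper67.GR
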