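import Pool.Agent.Helper67.GR.St4

/-! # GR project: FarE (helper72) -/

namespace Pool.Agent.Helper67.GR

open Finset

private lemma hh_succ_FarE (ℓ K : ℕ) (Λ : ℝ) (I : ℕ) :
    hh ℓ K Λ (I + 1) = ℓ * K * ((K : ℝ) ^ 5) ^ I / Λ := rfl

/-- the second moment of the number of points in the box -/
private lemma sq_FarE (G : Grid) (a b L r : ℝ) (K : ℕ) (ha : -(1/2) ≤ a) (hab : a ≤ b)
    (hb : b ≤ 1/2) (hL : 0 < L) (hK : L * (b - a) = K) :
    Real.sqrt (bern (fun _ => G.p) (G.sfld r) (fun Y => ((cnt Y a b (2 * L) : ℕ) : ℝ) ^ 2)) ≤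
      2 * K + 2 := by
  have h1 := bern_card_sq_le (sfld_pq G r) (fun v : Pt => a ≤ v.1 ∧ v.1 < b ∧ v.2 ≤ 2 * L)
  have h2 : ∑ v ∈ (G.sfld r).filter (fun v : Pt => a ≤ v.1 ∧ v.1 < b ∧ v.2 ≤ 2 * L), G.p ≤
      2 * K + 1 := by
    calc ∑ v ∈ (G.sfld r).filter (fun v : Pt => a ≤ v.1 ∧ v.1 < b ∧ v.2 ≤ 2 * L), G.p
        ≤ ∑ v ∈ (G.fld a b).filter (fun v => v.2 ≤ 2 * L), G.p := by
          refine sum_le_sum_of_subset_of_nonneg ?_ (fun _ _ _ => G.p_pos.le)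
          intro v hv
          rw [mem_filter] at hv ⊢
          obtain ⟨h1, h2, h3, h4⟩ := hv
          unfold Grid.sfld at h1
          rw [mem_product, mem_filter] at h1
          exact ⟨(mem_fld G).2 ⟨h1.1.1, h1.2, h2, h3⟩, h4⟩
      _ ≤ 2 * L * (b - a) + G.κ := mean_le' G a b (2 * L) ha hab hb (by linarith)
      _ ≤ 2 * K + 1 := by
          have h4 := G.κ_le
          have h5 : 2 * L * (b - a) = 2 * K := by rw [← hK]; ring
          linarith
  have h3 : 0 ≤ ∑ v ∈ (G.sfld r).filter (fun v : Pt => a ≤ v.1 ∧ v.1 < b ∧ v.2 ≤ 2 * L), G.p :=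
    sum_nonneg fun _ _ => G.p_pos.le
  have hK0 : (0 : ℝ) ≤ K := Nat.cast_nonneg K
  rw [← Real.sqrt_sq (by positivity : (0 : ℝ) ≤ 2 * K + 2)]
  refine Real.sqrt_le_sqrt ?_
  refine h1.trans ?_
  generalize ∑ v ∈ (G.sfld r).filter (fun v : Pt => a ≤ v.1 ∧ v.1 < b ∧ v.2 ≤ 2 * L), G.p = M
    at h2 h3
  have h4 : M ^ 2 ≤ (2 * K + 1) ^ 2 := pow_le_pow_left₀ h3 h2 2
  have h5 : (2 * (K : ℝ) + 2) ^ 2 = (2 * K + 1) ^ 2 + (2 * K + 1) + (2 * K + 2) := by ring
  linarith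

theorem hFarE (hp : StFarP) (hd : StFarD) (hpi : StPI) : StFarE := by
  intro T
  obtain ⟨ℓ₁, hℓ₁⟩ := hp (2 * (T + 26))
  obtain ⟨ℓ₂, hℓ₂⟩ := hd
  refine ⟨max (max ℓ₁ ℓ₂) 2, ?_⟩
  intro ℓ K hℓ hPar ε G L s t j hL hD hy
  have hℓ1 : ℓ₁ ≤ ℓ := (le_max_left _ _).trans ((le_max_left _ _).trans hℓ)
  have hℓ2 : ℓ₂ ≤ ℓ := (le_max_right _ _).trans ((le_max_left _ _).trans hℓ)
  have hℓ3 : 2 ≤ ℓ := (le_max_right _ _).trans hℓ
  obtain ⟨⟨hε0, hε1, hs1, hs2, hs3, hs4, ht1, ht2, ht3⟩, hκ, hL0, hLn, hsmall⟩ := id hL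
  have hKℓ : ℓ ^ 8 ≤ K := hPar.1
  have hK256 : 256 ≤ K := by
    calc 256 = 2 ^ 8 := by norm_num
      _ ≤ ℓ ^ 8 := Nat.pow_le_pow_left hℓ3 8
      _ ≤ K := hKℓ
  have hℓK : ℓ ≤ K := by
    calc ℓ = ℓ ^ 1 := (pow_one ℓ).symm
      _ ≤ ℓ ^ 8 := Nat.pow_le_pow_right (by omega) (by norm_num)
      _ ≤ K := hKℓ
  have hKr : (256 : ℝ) ≤ K := by exact_mod_cast hK256
  have hℓr : (2 : ℝ) ≤ ℓ := by exact_mod_cast hℓ3
  have hℓKr : (ℓ : ℝ) ≤ K := by exact_mod_cast hℓK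
  have hK0 : (0 : ℝ) < K := by linarith
  have hℓ0 : (0 : ℝ) < ℓ := by linarith
  set R : ℝ := K / L with hR
  have hR0 : 0 < R := by positivity
  set D : ℝ := DD ε K L s j with hDdef
  set y : ℝ := yc K L j with hydef
  have hyeq : y = -((j + 1 / 2) * R) := by
    rw [hydef, yc, hR, mul_div_assoc]
  have hR1 : R * 200 ≤ ε ^ 4 := by
    have : 100 * ℓ * K / L = 100 * ℓ * R := by rw [hR]; ring
    rw [this] at hsmall
    have h1 : 200 * R ≤ 100 * ℓ * R := by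
      have : 0 ≤ (100 * ℓ - 200) * R := mul_nonneg (by linarith) hR0.le
      linarith
    linarith
  have hε4 : ε ^ 4 ≤ ε := by
    have : ε ^ 3 ≤ 1 := pow_le_one₀ hε0.le (by linarith)
    calc ε ^ 4 = ε ^ 3 * ε := by ring
      _ ≤ 1 * ε := mul_le_mul_of_nonneg_right this hε0.le
      _ = ε := one_mul ε
  have hRε : R ≤ ε / 200 := by linarith
  have hD1 : D ≤ |y| := (min_le_left _ _).trans (min_le_left _ _)
  have hD2 : D ≤ |y - s.1| := (min_le_left _ _).trans (min_le_right _ _)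
  have hD3 : D ≤ ε / 2 := min_le_right _ _
  have hD' : ℓ * R < D := by
    have : (ℓ : ℝ) * K / L = ℓ * R := by rw [hR, mul_div_assoc]
    rwa [this] at hD
  have hD0 : 0 < D := lt_trans (by positivity) hD'
  have hy0 : y < 0 := by
    rw [hyeq]
    have : (0 : ℝ) < (j + 1 / 2) * R := by positivity
    linarith
  -- the number of scales
  have hex : ∃ I : ℕ, D ≤ ℓ * R * ((K : ℝ) ^ 5) ^ (I + 1) := by
    have h1 : (1 : ℝ) < (K : ℝ) ^ 5 := one_lt_pow₀ (by linarith) (by norm_num)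
    obtain ⟨n, hn⟩ := pow_unbounded_of_one_lt (D / (ℓ * R)) h1
    refine ⟨n, ?_⟩
    rw [div_lt_iff₀ (by positivity)] at hn
    have h2 : ((K : ℝ) ^ 5) ^ n ≤ ((K : ℝ) ^ 5) ^ (n + 1) := pow_le_pow_right₀ h1.le (by omega)
    have h3 : ((K : ℝ) ^ 5) ^ n * (ℓ * R) ≤ ((K : ℝ) ^ 5) ^ (n + 1) * (ℓ * R) :=
      mul_le_mul_of_nonneg_right h2 (by positivity)
    linarith
  classical
  obtain ⟨I, hI1, hI2⟩ : ∃ I : ℕ, D ≤ ℓ * R * ((K : ℝ) ^ 5) ^ (I + 1) ∧
      ℓ * R * ((K : ℝ) ^ 5) ^ I < D := by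
    refine ⟨Nat.find hex, Nat.find_spec hex, ?_⟩
    rcases Nat.eq_zero_or_pos (Nat.find hex) with h | h
    · rw [h, pow_zero, mul_one]; exact hD'
    · have h1 := Nat.find_min hex (m := Nat.find hex - 1) (by omega)
      rw [Nat.sub_add_cancel h] at h1
      exact not_le.1 h1
  have hhI : hh ℓ K L (I + 1) = ℓ * R * ((K : ℝ) ^ 5) ^ I := by
    rw [hh_succ_FarE, hR]; ring
  have hhD : hh ℓ K L (I + 1) < D := by rw [hhI]; exact hI2
  have hhpos : 0 < hh ℓ K L (I + 1) := by rw [hhI]; positivity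
  have habsy : |y| = -y := abs_of_neg hy0
  have hylow : -(1 / 2 - ε + R) ≤ y := by
    rw [habsy] at hy
    have : (K : ℝ) / L = R := rfl
    linarith
  have c1 : hh ℓ K L (I + 1) ≤ ε / 2 := by linarith
  have c2 : -rr ε < y - hh ℓ K L (I + 1) := by
    unfold rr
    linarith
  have c3 : y + hh ℓ K L (I + 1) ≤ 0 := by
    rw [habsy] at hD1
    linarith
  have c4 : s.1 < y - hh ℓ K L (I + 1) ∨ y + hh ℓ K L (I + 1) ≤ s.1 := by
    rcases le_total s.1 y with h | h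
    · left
      rw [abs_of_nonneg (by linarith)] at hD2
      linarith
    · right
      rw [abs_of_nonpos (by linarith)] at hD2
      linarith
  have hbox1 : -((j + 1) * K / L) = y - R / 2 := by
    rw [hyeq, mul_div_assoc]; ring
  have hbox2 : -(j * K / L) = y + R / 2 := by
    rw [hyeq, mul_div_assoc]; ring
  refine ⟨fun Y => FarEv G.n K ℓ L y I (Y ∪ {s, t}), ?_, ?_⟩
  · rw [hbox1, hbox2]
    have h1 := bern_mul_ind_le (sfld_pq G (rr ε))
      (fun Y => ((cnt Y (y - R / 2) (y + R / 2) (2 * L) : ℕ) : ℝ))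
      (fun Y => FarEv G.n K ℓ L y I (Y ∪ {s, t}))
    refine h1.trans ?_
    have h2 := sq_FarE G (y - R / 2) (y + R / 2) L (rr ε) K (by linarith) (by linarith)
      (by linarith) hL0 (by rw [hR]; field_simp; ring)
    have hM : HypM G ℓ K L y (rr ε) (K / (400 * ℓ)) I {s, t} := by
      refine ⟨hκ, hL0, by linarith, ?_, ?_, c2, ?_, ?_, ?_⟩
      · gcongr; norm_num
      · unfold rr; linarith
      · unfold rr; linarith
      · intro v hv
        rw [mem_insert, mem_singleton] at hv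
        rcases hv with rfl | rfl
        · exact ⟨hs3, hs4⟩
        · exact ⟨ht2, ht3⟩
      · intro v hv
        rw [mem_insert, mem_singleton] at hv
        rcases hv with rfl | rfl
        · exact c4
        · right; rw [ht1]; exact c3
    have h3 := hℓ₁ ℓ K hℓ1 hPar G L y (rr ε) I {s, t} hM c3
    have h4 : Real.sqrt (prob (fun _ => G.p) (G.sfld (rr ε))
        (fun Y => FarEv G.n K ℓ L y I (Y ∪ {s, t}))) ≤ 1 / (K : ℝ) ^ ((T + 26) * (I + 1)) := by
      rw [← Real.sqrt_sq (by positivity : (0 : ℝ) ≤ 1 / (K : ℝ) ^ ((T + 26) * (I + 1)))]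
      refine Real.sqrt_le_sqrt (h3.trans (le_of_eq ?_))
      rw [div_pow, one_pow, ← pow_mul]
      congr 2
      ring
    have h5 : (2 * (K : ℝ) + 2) * (1 / (K : ℝ) ^ ((T + 26) * (I + 1))) ≤
        (R / D) ^ 4 / (K : ℝ) ^ T := by
      have h6 : 1 / ((K : ℝ) * ((K : ℝ) ^ 5) ^ (I + 1)) ≤ R / D := by
        rw [div_le_div_iff₀ (by positivity) hD0]
        have h7 : (0 : ℝ) < ((K : ℝ) ^ 5) ^ (I + 1) := by positivity
        have h8 : ℓ * R * ((K : ℝ) ^ 5) ^ (I + 1) ≤ K * R * ((K : ℝ) ^ 5) ^ (I + 1) := by gcongr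
        linarith
      have h7 : (1 / ((K : ℝ) * ((K : ℝ) ^ 5) ^ (I + 1))) ^ 4 ≤ (R / D) ^ 4 :=
        pow_le_pow_left₀ (by positivity) h6 4
      have h8 : (1 / ((K : ℝ) * ((K : ℝ) ^ 5) ^ (I + 1))) ^ 4 =
          1 / (K : ℝ) ^ (4 + 20 * (I + 1)) := by
        rw [div_pow, one_pow, mul_pow, ← pow_mul, ← pow_mul, ← pow_add]
        congr 2
        ring
      rw [h8] at h7
      have h9 : 2 * (K : ℝ) + 2 ≤ (K : ℝ) ^ 2 := by nlinarith only [hKr]
      calc (2 * (K : ℝ) + 2) * (1 / (K : ℝ) ^ ((T + 26) * (I + 1)))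
          ≤ (K : ℝ) ^ 2 * (1 / (K : ℝ) ^ ((T + 26) * (I + 1))) := by gcongr
        _ ≤ 1 / (K : ℝ) ^ (4 + 20 * (I + 1)) / (K : ℝ) ^ T := by
            rw [mul_one_div, div_div, ← pow_add, div_le_div_iff₀ (by positivity) (by positivity),
              one_mul, ← pow_add]
            refine pow_le_pow_right₀ (by linarith) ?_
            have h10 : (T + 26) * (I + 1) = T * I + T + 26 * I + 26 := by ring
            rw [h10]
            have := Nat.zero_le (T * I)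
            generalize T * I = u at this ⊢
            omega
        _ ≤ (R / D) ^ 4 / (K : ℝ) ^ T := by gcongr
    refine le_trans ?_ h5
    exact mul_le_mul h2 h4 (Real.sqrt_nonneg _) (by positivity)
  · intro Y hY Z hZ v m k hv hk hk1 hk2 hk3 hk4
    rw [hbox1] at hk1
    rw [hbox2] at hk2
    refine ⟨hℓ₂ ℓ K hℓ2 hPar ε G L y s t I hL c1 c2 c3 c4 Y hY Z hZ v m k hv hk
      (by linarith) (by linarith) hk3, ?_⟩
    obtain ⟨h1, h2⟩ := (hpi K _ s v m hv).2.1 k hk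
    unfold cfg at h1
    rw [mem_union, mem_union, mem_insert, mem_singleton] at h1
    have hℓR : R ≤ ℓ * R := le_mul_of_one_le_left hR0.le (by linarith)
    rcases h1 with (h1 | h1) | h1 | h1
    · exact h1
    · exfalso
      have h3 := (hZ _ h1).1
      unfold rr at h3
      linarith
    · exfalso
      rw [← h1] at hD2
      have : |y - (v k).1| ≤ R / 2 := by
        rw [abs_le]; constructor <;> linarith
      linarith
    · exfalso
      rw [h1, ht1] at hk2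
      rw [habsy] at hD1
      linarith

end Pool.Agent.Helper67.GR
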