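import Pool.Agent.Helper67.GR.St4
import Pool.Agent.Helper67.GR.Local
import Pool.Agent.Helper67.GR.Fld

/-! # GR project: FarP (probability of the far event) -/

namespace Pool.Agent.Helper67.GR

open Finset

/-- the window event only depends on the configuration before its final point -/
theorem feW_local_FarP {K ℓ : ℕ} {Λ c : ℝ} {i : ℕ} {P P' : Finset Pt}
    (hR : 0 ≤ K / lam K Λ i)
    (hz : c - hh ℓ K Λ (i + 1) + (40 + (ℓ : ℝ) / 2) * K / lam K Λ i ≤ 0)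
    (hPP : ∀ p : Pt, p.1 < c - hh ℓ K Λ (i + 1) + (40 + (ℓ : ℝ) / 2) * K / lam K Λ i →
      (p ∈ P ↔ p ∈ P')) (h : FeW K ℓ Λ c i P) : FeW K ℓ Λ c i P' := by
  obtain ⟨u, hu, h1, h2, h3⟩ := h
  have h4 : c - hh ℓ K Λ (i + 1) + 35 * K / lam K Λ i ≤
      c - hh ℓ K Λ (i + 1) + (40 + (ℓ : ℝ) / 2) * K / lam K Λ i := by
    have h5 : (35 : ℝ) * K / lam K Λ i = 35 * (K / lam K Λ i) := by ring
    have h6 : (40 + (ℓ : ℝ) / 2) * K / lam K Λ i = (40 + (ℓ : ℝ) / 2) * (K / lam K Λ i) := by ring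
    rw [h5, h6]
    have h7 : (0 : ℝ) ≤ ℓ := Nat.cast_nonneg _
    nlinarith
  exact ⟨u, (hPP u (h2.trans_le h4)).1 hu, h1, h2, (stay_local hPP hz).1 h3⟩

theorem hh_mono_FarP {ℓ K : ℕ} {Λ : ℝ} (hΛ : 0 < Λ) (hK : 1 ≤ K) : Monotone (hh ℓ K Λ) := by
  apply monotone_nat_of_le_succ
  intro i
  have hK1 : (1 : ℝ) ≤ K := by exact_mod_cast hK
  cases i with
  | zero =>
    change (0 : ℝ) ≤ ℓ * K * ((K : ℝ) ^ 5) ^ 0 / Λ
    positivity
  | succ j =>
    change (ℓ : ℝ) * K * ((K : ℝ) ^ 5) ^ j / Λ ≤ ℓ * K * ((K : ℝ) ^ 5) ^ (j + 1) / Λ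
    have h1 : ((K : ℝ) ^ 5) ^ j ≤ ((K : ℝ) ^ 5) ^ (j + 1) :=
      pow_le_pow_right₀ (one_le_pow₀ hK1) (Nat.le_succ j)
    gcongr

theorem hFarP (hms : StMS) (hfb : StFB) : StFarP := by
  intro T
  obtain ⟨ℓ₁, T', hms'⟩ := hms T
  obtain ⟨ℓ₂, hfb'⟩ := hfb T'
  refine ⟨max (max ℓ₁ ℓ₂) 200, ?_⟩
  intro ℓ K hℓ hPar G Λ c r I E hHyp hc0
  have hℓ1 : ℓ₁ ≤ ℓ := le_trans (le_trans (le_max_left _ _) (le_max_left _ _)) hℓ
  have hℓ2 : ℓ₂ ≤ ℓ := le_trans (le_trans (le_max_right _ _) (le_max_left _ _)) hℓ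
  have hℓ3 : 200 ≤ ℓ := le_trans (le_max_right _ _) hℓ
  have hK : 200 ≤ K := by
    have h1 : ℓ ≤ ℓ ^ 8 := Nat.le_self_pow (by norm_num) ℓ
    exact hℓ3.trans (h1.trans hPar.1)
  have hK1 : 1 ≤ K := le_trans (by norm_num) hK
  have hKR : (200 : ℝ) ≤ K := by exact_mod_cast hK
  have hℓR : (200 : ℝ) ≤ ℓ := by exact_mod_cast hℓ3
  have hΛ : 0 < Λ := hHyp.2.1
  have hmono := hh_mono_FarP (ℓ := ℓ) hΛ hK1
  have hr : r ≤ 1 / 2 := hHyp.2.2.2.2.1
  have hleft : -r < c - hh ℓ K Λ (I + 1) := hHyp.2.2.2.2.2.1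
  have hhnn : ∀ i, 0 ≤ hh ℓ K Λ i := fun i => hmono (Nat.zero_le i)
  -- geometry of the scale `i`
  have hgeo : ∀ i ≤ I, 0 < K / lam K Λ i ∧ 0 < lam K Λ i ∧
      c - hh ℓ K Λ (i + 1) + (40 + (ℓ : ℝ) / 2) * K / lam K Λ i ≤ c - hh ℓ K Λ i ∧
      c - hh ℓ K Λ i ≤ 0 ∧ -(1/2) ≤ c - hh ℓ K Λ (i + 1) := by
    intro i hi
    have hQ : 0 < ((K : ℝ) ^ 5) ^ i := by positivity
    have hlam : 0 < lam K Λ i := by
      unfold lam
      positivity
    have hR : 0 < K / lam K Λ i := by positivity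
    have hhR : hh ℓ K Λ (i + 1) = ℓ * (K / lam K Λ i) := by
      change (ℓ : ℝ) * K * ((K : ℝ) ^ 5) ^ i / Λ = _
      unfold lam
      field_simp
    have hprev : hh ℓ K Λ i ≤ hh ℓ K Λ (i + 1) / 4 := by
      cases i with
      | zero =>
        change (0 : ℝ) ≤ _
        have := hhnn 1
        positivity
      | succ j =>
        have h1 : hh ℓ K Λ (j + 1 + 1) = (K : ℝ) ^ 5 * hh ℓ K Λ (j + 1) := by
          change (ℓ : ℝ) * K * ((K : ℝ) ^ 5) ^ (j + 1) / Λ =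
            (K : ℝ) ^ 5 * ((ℓ : ℝ) * K * ((K : ℝ) ^ 5) ^ j / Λ)
          rw [pow_succ]
          ring
        rw [h1]
        have h2 : (4 : ℝ) ≤ (K : ℝ) ^ 5 := by
          calc (4 : ℝ) ≤ K := by linarith
            _ ≤ (K : ℝ) ^ 5 := le_self_pow₀ (by linarith) (by norm_num)
        have h3 := hhnn (j + 1)
        nlinarith
    refine ⟨hR, hlam, ?_, ?_, ?_⟩
    · have h6 : (40 + (ℓ : ℝ) / 2) * K / lam K Λ i =
          (40 + (ℓ : ℝ) / 2) * (K / lam K Λ i) := by ring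
      rw [h6]
      rw [hhR] at hprev ⊢
      nlinarith
    · have h1 := hhnn (I + 1)
      have h2 := hhnn i
      linarith
    · have h1 : hh ℓ K Λ (i + 1) ≤ hh ℓ K Λ (I + 1) := hmono (by omega)
      linarith
  refine hms' ℓ K hℓ1 hPar G Λ c r (K / (400 * ℓ)) I E (FeW K ℓ Λ c) hHyp ⟨?_, ?_⟩
  · intro i hi P P' hPP
    obtain ⟨hR, -, hz, hz0, -⟩ := hgeo i hi
    constructor
    · exact feW_local_FarP hR.le (hz.trans hz0) (fun p hp => hPP p (hp.trans_le hz))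
    · exact feW_local_FarP hR.le (hz.trans hz0) (fun p hp => (hPP p (hp.trans_le hz)).symm)
  · intro i hi ω hω hωlt
    obtain ⟨hR, hlam, hz, hz0, ha⟩ := hgeo i hi
    have h30 : (30 : ℝ) * K / lam K Λ i = 30 * (K / lam K Λ i) := by ring
    have h35 : (35 : ℝ) * K / lam K Λ i = 35 * (K / lam K Λ i) := by ring
    have h10 : (10 : ℝ) * K / lam K Λ i = 10 * (K / lam K Λ i) := by ring
    have h40 : (40 + (ℓ : ℝ) / 2) * K / lam K Λ i =
        (40 + (ℓ : ℝ) / 2) * (K / lam K Λ i) := by ring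
    have hzA : c - hh ℓ K Λ (i + 1) + 30 * K / lam K Λ i + (10 + (ℓ : ℝ) / 2) * K / lam K Λ i =
        c - hh ℓ K Λ (i + 1) + (40 + (ℓ : ℝ) / 2) * K / lam K Λ i := by ring
    have haA : c - hh ℓ K Λ (i + 1) ≤ c - hh ℓ K Λ (i + 1) + 30 * K / lam K Λ i := by
      rw [h30]; linarith
    have hAz : c - hh ℓ K Λ (i + 1) + 30 * K / lam K Λ i ≤
        c - hh ℓ K Λ (i + 1) + (40 + (ℓ : ℝ) / 2) * K / lam K Λ i := by
      rw [h30, h40]; nlinarith
    -- only the field before `z` matters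
    have hmarg : G.pr (c - hh ℓ K Λ (i + 1)) (c - hh ℓ K Λ i)
        (fun Y => FeW K ℓ Λ c i (ω ∪ Y)) =
        G.pr (c - hh ℓ K Λ (i + 1))
          (c - hh ℓ K Λ (i + 1) + (40 + (ℓ : ℝ) / 2) * K / lam K Λ i)
          (fun Y => FeW K ℓ Λ c i (ω ∪ Y)) := by
      refine pr_marginal G le_rfl hz _ fun X hX => ?_
      have hag : ∀ p : Pt, p.1 < c - hh ℓ K Λ (i + 1) + (40 + (ℓ : ℝ) / 2) * K / lam K Λ i →
          (p ∈ ω ∪ X ↔ p ∈ ω ∪ X ∩ G.fld (c - hh ℓ K Λ (i + 1))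
            (c - hh ℓ K Λ (i + 1) + (40 + (ℓ : ℝ) / 2) * K / lam K Λ i)) := by
        intro p hp
        rw [Finset.mem_union, Finset.mem_union, Finset.mem_inter]
        constructor
        · rintro (h | h)
          · exact Or.inl h
          · right
            obtain ⟨h1, h2, h3, h4⟩ := (mem_fld G).1 (hX h)
            exact ⟨h, (mem_fld G).2 ⟨h1, h2, h3, hp⟩⟩
        · rintro (h | h)
          · exact Or.inl h
          · exact Or.inr h.1
      constructor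
      · exact feW_local_FarP hR.le (hz.trans hz0) hag
      · exact feW_local_FarP hR.le (hz.trans hz0) (fun p hp => (hag p hp).symm)
    rw [hmarg]
    have hσ0 : (0 : ℝ) ≤ 1 / (K : ℝ) ^ T' := by positivity
    refine (pr_cond_le G haA hAz _ (fun _ => True) (fun _ _ _ _ _ => trivial)
      (σ := 1 / (K : ℝ) ^ T') ?_).trans ?_
    · intro X hX _
      have hX1 : ∀ v ∈ ω ∪ X, v.1 < c - hh ℓ K Λ (i + 1) + 30 * K / lam K Λ i := by
        intro v hv
        rcases Finset.mem_union.1 hv with h | h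
        · exact (hωlt v h).trans_le haA
        · exact ((mem_fld G).1 (hX h)).2.2.2
      have hlab : Lab G.n (ω ∪ X) := by
        intro v hv
        rcases Finset.mem_union.1 hv with h | h
        · exact hω v h
        · exact fld_lab G hX v h
      have hfb1 := hfb' ℓ K hℓ2 hPar G (lam K Λ i)
        (c - hh ℓ K Λ (i + 1) + 30 * K / lam K Λ i) (ω ∪ X) hlam (ha.trans haA)
        (by rw [hzA]; exact hz.trans hz0) hlab hX1
      rw [hzA] at hfb1
      refine le_trans ?_ hfb1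
      unfold Grid.pr
      refine prob_mono (fld_pq G _ _) fun Y hY hev => ?_
      obtain ⟨u, hu, h1, h2, h3⟩ := hev
      rw [← Finset.union_assoc] at hu h3
      refine ⟨u, ?_, ?_, h3⟩
      · rcases Finset.mem_union.1 hu with h | h
        · exact absurd (hX1 u h) (not_lt.2 h1)
        · exact h
      · rw [h30, h10]
        rw [h35] at h2
        linarith
    · have h1 := pr_le_one G (c - hh ℓ K Λ (i + 1))
        (c - hh ℓ K Λ (i + 1) + 30 * K / lam K Λ i) (fun _ => True)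
      calc 1 / (K : ℝ) ^ T' * _ ≤ 1 / (K : ℝ) ^ T' * 1 := mul_le_mul_of_nonneg_left h1 hσ0
        _ = _ := mul_one _

end Pool.Agent.Helper67.GR
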