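import Pool.Agent.Helper67.GR.St5
import Pool.Agent.Helper67.GR.RegV
import Pool.Agent.Helper67.GR.Fld

/-! # GR project: J1 (irregularity at many scales) -/

namespace Pool.Agent.Helper67.GR

open Finset

theorem hJ1 (hms : StMS) : StJ1 := by
  intro T
  obtain ⟨ℓ₁, T', hms'⟩ := hms T
  refine ⟨max ℓ₁ 200, ?_⟩
  intro ℓ K hℓ hPar G b v E r hκ hE hr hvr
  have hℓ1 : ℓ₁ ≤ ℓ := le_trans (le_max_left _ _) hℓ
  have hℓ3 : 200 ≤ ℓ := le_trans (le_max_right _ _) hℓ
  have hK : 200 ≤ K := by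
    have h1 : ℓ ≤ ℓ ^ 8 := Nat.le_self_pow (by norm_num) ℓ
    exact hℓ3.trans (h1.trans hPar.1)
  have hKR : (200 : ℝ) ≤ K := by exact_mod_cast hK
  have hℓR : (200 : ℝ) ≤ ℓ := by exact_mod_cast hℓ3
  have hn : 1 ≤ G.n := G.n_one
  have hn0 : 0 < G.n := by linarith
  have hlam : ∀ i, 0 < lam K G.n i := by
    intro i
    unfold lam
    positivity
  have hhh : ∀ i, hh ℓ K (G.n / 2) (i + 1) = 2 * ℓ * K / lam K G.n i := by
    intro i
    change (ℓ : ℝ) * K * ((K : ℝ) ^ 5) ^ i / (G.n / 2) = _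
    unfold lam
    field_simp
  have hlam2 : ∀ i, 2 * lam K (G.n / 2) i = lam K G.n i := by
    intro i
    unfold lam
    ring
  have hE0 : (0 : ℝ) ≤ (K : ℝ) / (1000 * ℓ) := by positivity
  have hev : 2 * (ℓ : ℝ) * K / lam K G.n b = hh ℓ K (G.n / 2) (b + 1) := (hhh b).symm
  have hv1 := neg_abs_le v.1
  have hv2 := le_abs_self v.1
  have key := hms' ℓ K hℓ1 hPar G (G.n / 2) v.1 r (K / (1000 * ℓ)) b ∅ (fun _ _ => False)
    ⟨hκ, by linarith, by linarith, le_rfl, hr, by rw [← hev]; linarith, by rw [← hev]; linarith,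
      fun w hw => absurd hw (Finset.notMem_empty w), fun w hw => absurd hw (Finset.notMem_empty w)⟩
    ⟨fun _ _ _ _ _ => Iff.rfl, fun i _ ω _ _ => by
      have h1 : G.pr (v.1 - hh ℓ K (G.n / 2) (i + 1)) (v.1 - hh ℓ K (G.n / 2) i)
          (fun _ => False) = 0 := prob_false _ _ fun _ _ h => h
      rw [h1]
      positivity⟩
  refine (prob_mono (sfld_pq G r) fun Y _ hJ => ?_).trans key
  intro i hi
  left
  rw [hhh, hlam2, Finset.union_empty]
  intro hreg
  apply hJ i hi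
  have h2 : 2 * (K : ℝ) / lam K G.n i ≤ 2 * ℓ * K / lam K G.n i := by
    apply div_le_div_of_nonneg_right _ (hlam i).le
    nlinarith
  refine reg_mono (reg_union (Q := E) hreg) (by linarith) (by linarith) le_rfl ?_
  have h3 : (E.card : ℝ) ≤ 3 := by exact_mod_cast hE
  have h4 : (K : ℝ) / (1000 * ℓ) ≤ K / 1000 := by
    apply div_le_div_of_nonneg_left (by linarith) (by norm_num)
    linarith
  linarith

end Pool.Agent.Helper67.GR
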