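import Pool.Agent.Helper67.GR.St5
import Pool.Agent.Helper67.GR.RegV
import Pool.Agent.Helper67.GR.M_FarD

/-! # GR project (MP_d9675d_pr), module Jd: stuck implies irregular -/

set_option autoImplicit false

namespace Pool.Agent.Helper67.GR

open Finset

theorem hJd (hns : StNS) : StJd := by
  intro ε K b G s t v Y Z hK hS hY hZ hv hv1 hv0 hst hvb hb hε i hi hReg
  have hK40 : (40 : ℝ) ≤ K := by exact_mod_cast hK
  have hn := G.n_one
  have hε0 : 0 < ε := hS.1
  have hQ : (1 : ℝ) ≤ (K : ℝ) ^ 5 := one_le_pow₀ (by linarith)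
  have hQi : (1 : ℝ) ≤ ((K : ℝ) ^ 5) ^ i := one_le_pow₀ hQ
  have hQb : ((K : ℝ) ^ 5) ^ i ≤ ((K : ℝ) ^ 5) ^ b := pow_le_pow_right₀ hQ hi
  obtain ⟨M, hM⟩ : ∃ M : ℝ, M = lam K G.n i := ⟨_, rfl⟩
  obtain ⟨N, hN⟩ : ∃ N : ℝ, N = lam K G.n b := ⟨_, rfl⟩
  have hM0 : 0 < M := by rw [hM]; unfold lam; positivity
  have hN0 : 0 < N := by
    rw [hN]; unfold lam
    have : (0 : ℝ) < ((K : ℝ) ^ 5) ^ b := by positivity
    positivity
  have hMn : M ≤ G.n := by
    rw [hM]; unfold lam
    exact div_le_self (by linarith) hQi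
  have hNM : N ≤ M := by
    rw [hM, hN]; unfold lam
    exact div_le_div_of_nonneg_left (by linarith) (by positivity) hQb
  have hKM : (K : ℝ) / M ≤ K / N := div_le_div_of_nonneg_left (by linarith) hN0 hNM
  rw [← hN] at hvb hb hε
  rw [← hM] at hReg
  have e3 : 3 * (K : ℝ) / N = 3 * (K / N) := by ring
  have e3' : 3 * (K : ℝ) / M = 3 * (K / M) := by ring
  have e2 : 2 * (K : ℝ) / M = 2 * (K / M) := by ring
  rw [e3] at hε
  have hrr : rr ε = 1 / 2 - ε / 4 := rfl
  have hKM0 : 0 < (K : ℝ) / M := by positivity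
  have hva := abs_le.1 hv1
  have hReg' : Reg G.n (cfg Y Z s t) (v.1 - 2 * K / M) (v.1 + 2 * K / M) M (K / 10) := by
    refine (reg_congr ?_).2 hReg
    intro p hp1 hp2
    rw [e2] at hp1 hp2
    refine ⟨fun hp => ?_, fun hp => sub_cfg_FarD hp⟩
    unfold cfg at hp
    rw [mem_union, mem_union] at hp
    rw [mem_union]
    rcases hp with (hp | hp) | hp
    · exact Or.inl hp
    · exfalso
      have h1 := (hZ p hp).1
      have h2 : |p.1| < rr ε := by
        rw [hrr, abs_lt]
        constructor <;> linarith [hva.1, hva.2]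
      linarith
    · exact Or.inr hp
  have ht : t ∈ cfg Y Z s t := by
    unfold cfg
    rw [mem_union, mem_insert, mem_singleton]
    exact Or.inr (Or.inr rfl)
  obtain ⟨u, hu, hadj, hlt⟩ := hns K G.n M (K / 10) (cfg Y Z s t) v t hK hM0 hMn
    (fun p hp => (cfg_ok_FarD hS hY hZ hp).1) (fun p hp => (cfg_ok_FarD hS hY hZ hp).2) hv ht
    hS.2.2.2.2.2.2.1 hv0 (hvb.trans hNM) (by positivity) le_rfl hReg'
    (by rw [e3']; linarith) (by
      rcases hb with h | h
      · right
        have hi0 : i = 0 := by omega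
        rw [hM, hi0]
        unfold lam
        rw [pow_zero, div_one]
      · left
        linarith)
  exact absurd (hst u hu hadj) (not_le.2 hlt)

end Pool.Agent.Helper67.GR
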