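import Pool.Agent.Helper67.GR.St5
import Pool.Agent.Helper67.GR.Bern

/-! # GR module Jm: Mecke bound for irregular vertices -/

namespace Pool.Agent.Helper67.GR

open Finset

theorem hJm (h : StJ1) : StJm := by
  intro T
  obtain ⟨ℓ₀, h⟩ := h T
  refine ⟨ℓ₀, ?_⟩
  intro ℓ K hℓ hPar ε G s t b W hS hκ hW hfit
  have hr : rr ε ≤ 1 / 2 := by
    have := hS.1
    unfold rr
    linarith
  have hp0 := G.p_pos
  have h1 : bern (fun _ => G.p) (G.sfld (rr ε))
      (fun Y => ∑ v ∈ Y ∩ W, ind (Jev G.n K b (Y ∪ {s, t}) v)) =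
      bern (fun _ => G.p) (G.sfld (rr ε)) (fun Y => ∑ v ∈ Y,
        (fun v X => if v ∈ W then ind (Jev G.n K b (X ∪ {s, t}) v) else 0) v Y) := by
    apply bern_congr
    intro X _
    show _ = ∑ v ∈ X, if v ∈ W then ind (Jev G.n K b (X ∪ {s, t}) v) else 0
    rw [← Finset.sum_filter, Finset.filter_mem_eq_inter]
  rw [h1, bern_mecke]
  have h2 : ∀ v ∈ G.sfld (rr ε), G.p * bern (fun _ => G.p) (G.sfld (rr ε))
      (fun X => (fun v X => if v ∈ W then ind (Jev G.n K b (X ∪ {s, t}) v) else 0) v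
        (insert v X)) ≤ if v ∈ W then G.p * (1 / (K : ℝ) ^ (T * (b + 1))) else 0 := by
    intro v _
    by_cases hv : v ∈ W
    · simp only [if_pos hv]
      refine mul_le_mul_of_nonneg_left ?_ hp0.le
      have h3 := h ℓ K hℓ hPar G b v {v, s, t} (rr ε) hκ card_le_three hr (hfit v hv)
      refine le_trans (le_of_eq ?_) h3
      unfold prob
      apply bern_congr
      intro X _
      congr 2
      ext x
      simp only [mem_union, mem_insert, mem_singleton]
      tauto
    · simp only [if_neg hv]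
      rw [bern_const, mul_zero]
  refine (Finset.sum_le_sum h2).trans (le_of_eq ?_)
  rw [← Finset.sum_filter, Finset.filter_mem_eq_inter, Finset.inter_eq_right.2 hW,
    Finset.sum_const, nsmul_eq_mul]
  ring

end Pool.Agent.Helper67.GR
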