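import Pool.Agent.Helper67.GR.St4
import Pool.Agent.Helper67.GR.Bern

/-! # GR module Lev: expected number of visits of one label level -/

namespace Pool.Agent.Helper67.GR

open Finset

theorem hLev (hl : StLevL) (hb : StMirB) (hp : StMirP) (hpi : StPI) : StLev := by
  obtain ⟨C, hC, ℓ₀, hl⟩ := hl
  obtain ⟨hp1, -, hp3, hp4, hp5, hp6, hp7, hp8⟩ := hp
  refine ⟨2 * C + 1, by positivity, ℓ₀, ?_⟩
  intro ℓ K hℓ hPar ε G L s t hH
  obtain ⟨hS, hH2, hL, hLn, hH3⟩ := hH
  have hS' := hp6 ε G.n s t hS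
  obtain ⟨Ψ₁, h1a, h1b, h1c⟩ := hl ℓ K hℓ hPar ε G L s t ⟨hS, hH2, hL, hLn, hH3⟩
  obtain ⟨Ψ₂, h2a, h2b, h2c⟩ := hl ℓ K hℓ hPar ε G L (mir s) (mir t) ⟨hS', hH2, hL, hLn, hH3⟩
  refine ⟨fun Y => Ψ₁ Y + Ψ₂ (Y.image mir) + 1, ?_, ?_, ?_⟩
  · intro Y
    have := h1a Y
    have := h2a (Y.image mir)
    positivity
  · rw [bern_add, bern_add, bern_const, hb]
    linarith
  · intro Y hY Z hZ v m hv
    have h3 := h1c Y hY Z hZ v m hv
    have h4 := hp1 K _ s v m hv
    rw [hp3] at h4
    have h5 := h2c (Y.image mir) (hp5 G (rr ε) Y hY) (Z.image mir) (hp4 G.n (rr ε) Z hZ)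
      (fun i => mir (v i)) m h4
    obtain ⟨hdec, hmem, -⟩ := hpi K _ s v m hv
    obtain ⟨h6, -, -, h7, -⟩ := hS
    -- the vertices at position `0`
    have hz : ((range (m + 1)).filter (fun i => (v i).1 = 0)).card ≤ 1 := by
      rw [Finset.card_le_one]
      intro i hi j hj
      rw [mem_filter, mem_range] at hi hj
      by_contra hne
      rcases lt_or_gt_of_ne hne with h | h
      · have := hdec i j h (by omega)
        rw [hi.2, hj.2] at this
        exact lt_irrefl _ this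
      · have := hdec j i h (by omega)
        rw [hi.2, hj.2] at this
        exact lt_irrefl _ this
    have hsub : (range (m + 1)).filter (fun i => L ≤ (v i).2 ∧ (v i).2 < 2 * L) ⊆
        ((range (m + 1)).filter
          (fun i => -1 ≤ (v i).1 ∧ (v i).1 < 0 ∧ L ≤ (v i).2 ∧ (v i).2 < 2 * L)) ∪
        ((range (m + 1)).filter
          (fun i => -1 ≤ (mir (v i)).1 ∧ (mir (v i)).1 < 0 ∧ L ≤ (mir (v i)).2 ∧
            (mir (v i)).2 < 2 * L)) ∪
        ((range (m + 1)).filter (fun i => (v i).1 = 0)) := by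
      intro i hi
      rw [mem_filter, mem_range] at hi
      obtain ⟨hi1, hi2⟩ := hi
      have h8 : |(v i).1| ≤ 1 := by
        have := (hmem i (by omega)).2
        linarith
      rw [abs_le] at h8
      rw [mem_union, mem_union, mem_filter, mem_filter, mem_filter, mem_range]
      rcases lt_trichotomy (v i).1 0 with h | h | h
      · exact Or.inl (Or.inl ⟨hi1, h8.1, h, hi2⟩)
      · exact Or.inr ⟨hi1, h⟩
      · refine Or.inl (Or.inr ⟨hi1, ?_, ?_, hi2⟩)
        · show -1 ≤ -(v i).1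
          linarith
        · show -(v i).1 < 0
          linarith
    have hc := (card_le_card hsub).trans ((card_union_le _ _).trans
      (add_le_add (card_union_le _ _) hz))
    have hc' : (((range (m + 1)).filter (fun i => L ≤ (v i).2 ∧ (v i).2 < 2 * L)).card : ℝ) ≤
        (vis v m (-1) 0 L (2 * L) : ℝ) + (vis (fun i => mir (v i)) m (-1) 0 L (2 * L) : ℝ) + 1 := by
      exact_mod_cast hc
    show _ ≤ Ψ₁ Y + Ψ₂ (Y.image mir) + 1
    linarith

end Pool.Agent.Helper67.GR
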