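import Pool.Agent.Helper67.GR.St4

/-! # GR module LevL: summing the boxes of one level -/

namespace Pool.Agent.Helper67.GR

open Finset

/-- sums of a decreasing function of the distance to a real number -/
theorem sum_dist_LevL {h : ℝ → ℝ} (h0 : ∀ x, 0 ≤ h x)
    (hm : ∀ x y, 0 ≤ x → x ≤ y → h y ≤ h x) {S : ℝ}
    (hS : ∀ M : ℕ, ∑ k ∈ range M, h k ≤ S) (a : ℝ) (N : ℕ) :
    ∑ j ∈ range N, h |(j : ℝ) - a| ≤ 2 * S := by
  set j₀ : ℕ := ⌈a⌉₊ with hj₀
  have hle : a ≤ j₀ := Nat.le_ceil a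
  have h1 : ∑ j ∈ range N, h |(j : ℝ) - a| =
      ∑ j ∈ (range N).filter (fun j => j < j₀), h |(j : ℝ) - a| +
      ∑ j ∈ (range N).filter (fun j => ¬ j < j₀), h |(j : ℝ) - a| :=
    (sum_filter_add_sum_filter_not _ _ _).symm
  have h2 : ∑ j ∈ (range N).filter (fun j => j < j₀), h |(j : ℝ) - a| ≤ S := by
    calc ∑ j ∈ (range N).filter (fun j => j < j₀), h |(j : ℝ) - a|
        ≤ ∑ j ∈ (range N).filter (fun j => j < j₀), h ((j₀ - 1 - j : ℕ) : ℝ) := by
          refine sum_le_sum fun j hj => ?_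
          have hj1 : j < j₀ := (mem_filter.1 hj).2
          apply hm _ _ (Nat.cast_nonneg _)
          have hja : (j : ℝ) < a := Nat.lt_ceil.1 hj1
          have ha0 : 0 ≤ a := (Nat.cast_nonneg j).trans hja.le
          have h3 : (j₀ : ℝ) < a + 1 := Nat.ceil_lt_add_one ha0
          have h4 : ((j₀ - 1 - j : ℕ) : ℝ) = (j₀ : ℝ) - 1 - j := by
            rw [Nat.sub_sub, Nat.cast_sub (by omega)]
            push_cast
            ring
          rw [h4, abs_sub_comm]
          refine le_trans ?_ (le_abs_self _)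
          linarith
      _ ≤ ∑ j ∈ range j₀, h ((j₀ - 1 - j : ℕ) : ℝ) := by
          refine sum_le_sum_of_subset_of_nonneg ?_ (fun _ _ _ => h0 _)
          intro j hj
          exact mem_range.2 (mem_filter.1 hj).2
      _ = ∑ j ∈ range j₀, h (j : ℝ) := sum_range_reflect (fun k : ℕ => h (k : ℝ)) j₀
      _ ≤ S := hS j₀
  have h3 : ∑ j ∈ (range N).filter (fun j => ¬ j < j₀), h |(j : ℝ) - a| ≤ S := by
    calc ∑ j ∈ (range N).filter (fun j => ¬ j < j₀), h |(j : ℝ) - a|
        ≤ ∑ j ∈ Ico j₀ N, h ((j - j₀ : ℕ) : ℝ) := by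
          have h4 : (range N).filter (fun j => ¬ j < j₀) = Ico j₀ N := by
            ext j
            simp only [mem_filter, mem_range, mem_Ico]
            omega
          rw [h4]
          refine sum_le_sum fun j hj => ?_
          have hj1 : j₀ ≤ j := (mem_Ico.1 hj).1
          apply hm _ _ (Nat.cast_nonneg _)
          rw [Nat.cast_sub hj1]
          refine le_trans ?_ (le_abs_self _)
          linarith
      _ = ∑ k ∈ range (N - j₀), h (k : ℝ) := by
          rw [sum_Ico_eq_sum_range]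
          refine sum_congr rfl fun k _ => ?_
          rw [Nat.add_sub_cancel_left]
      _ ≤ S := hS _
  rw [h1]
  linarith

/-- inverse squares -/
theorem sum_sq_LevL (M : ℕ) : ∑ k ∈ range M, (1 / max (k : ℝ) 1) ^ 2 ≤ 3 := by
  have key : ∀ M : ℕ, ∑ k ∈ range (M + 2), (1 / max (k : ℝ) 1) ^ 2 ≤ 3 - 1 / ((M : ℝ) + 1) := by
    intro M
    induction M with
    | zero => norm_num [sum_range_succ]
    | succ M ih =>
      rw [sum_range_succ]
      have h1 : max ((M + 2 : ℕ) : ℝ) 1 = (M : ℝ) + 2 := by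
        rw [max_eq_left]
        · push_cast; ring
        · push_cast
          have : (0 : ℝ) ≤ M := Nat.cast_nonneg M
          linarith
      rw [h1]
      have h2 : (1 / ((M : ℝ) + 2)) ^ 2 ≤ 1 / ((M : ℝ) + 1) - 1 / (((M + 1 : ℕ) : ℝ) + 1) := by
        have hM : (0 : ℝ) ≤ M := Nat.cast_nonneg M
        have h3 : 1 / ((M : ℝ) + 1) - 1 / (((M + 1 : ℕ) : ℝ) + 1) =
            1 / (((M : ℝ) + 1) * ((M : ℝ) + 2)) := by
          push_cast
          field_simp
          ring
        rw [h3, one_div_pow]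
        apply one_div_le_one_div_of_le
        · positivity
        · nlinarith
      linarith
  rcases Nat.lt_or_ge M 2 with h | h
  · calc ∑ k ∈ range M, (1 / max (k : ℝ) 1) ^ 2
        ≤ ∑ k ∈ range 2, (1 / max (k : ℝ) 1) ^ 2 :=
          sum_le_sum_of_subset_of_nonneg (range_subset_range.2 h.le) (fun _ _ _ => by positivity)
      _ ≤ 3 := by norm_num [sum_range_succ]
  · obtain ⟨N, rfl⟩ := Nat.exists_eq_add_of_le h
    rw [add_comm 2 N]
    refine (key N).trans ?_
    have : (0 : ℝ) ≤ 1 / ((N : ℝ) + 1) := by positivity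
    linarith

theorem sum_exp_LevL {c : ℝ} (hc : 0 < c) (M : ℕ) :
    ∑ k ∈ range M, Real.exp (-(c * (k : ℝ))) ≤ (1 - Real.exp (-c))⁻¹ := by
  have h1 : Real.exp (-c) < 1 := by
    rw [Real.exp_lt_one_iff]
    linarith
  have h2 : ∀ k : ℕ, Real.exp (-(c * (k : ℝ))) = Real.exp (-c) ^ k := by
    intro k
    rw [← Real.exp_nat_mul]
    congr 1
    ring
  simp_rw [h2]
  rw [← tsum_geometric_of_lt_one (Real.exp_pos _).le h1]
  exact (summable_geometric_of_lt_one (Real.exp_pos _).le h1).sum_le_tsum _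
    (fun _ _ => (pow_pos (Real.exp_pos _) _).le)

theorem hLevL (hb : StBox) (hpi : StPI) : StLevL := by
  obtain ⟨c, hc, hc1, ℓ₀, hb⟩ := hb
  have he1 : Real.exp (-c) < 1 := by
    rw [Real.exp_lt_one_iff]
    linarith
  have he0 : 0 < (1 - Real.exp (-c))⁻¹ := inv_pos.2 (by linarith)
  refine ⟨13 * 61 + 300 * (2 * (1 - Real.exp (-c))⁻¹) + 4 * 3 + 2 * 3 + 1, by positivity,
    max ℓ₀ 1, ?_⟩
  intro ℓ K hℓ hPar ε G L s t hL
  have hℓ0 : ℓ₀ ≤ ℓ := (le_max_left _ _).trans hℓ
  have hℓ1 : 1 ≤ ℓ := (le_max_right _ _).trans hℓ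
  have hK1 : 1 ≤ K := (Nat.one_le_pow 8 ℓ hℓ1).trans hPar.1
  have hLL := hL
  obtain ⟨hS, hκ, hLpos, hLn, hRε⟩ := hLL
  obtain ⟨hε, hε8, hs1, hs2, -, -, -, -, -⟩ := hS
  have hKpos : (0 : ℝ) < K := by exact_mod_cast hK1
  set R : ℝ := K / L with hR
  have hRpos : 0 < R := div_pos hKpos hLpos
  have hRle : 100 * R ≤ ε ^ 4 := by
    refine le_trans ?_ hRε
    have h1 : (1 : ℝ) ≤ ℓ := by exact_mod_cast hℓ1
    have h2 : 100 * (ℓ : ℝ) * K / L = 100 * ℓ * R := by rw [hR]; ring
    rw [h2]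
    nlinarith
  choose Ψ hΨ0 hΨ1 hΨ2 using fun j : ℕ => hb ℓ K hℓ0 hPar ε G L s t j hL
  set N : ℕ := ⌈L / (2 * K)⌉₊ with hN
  refine ⟨fun Y => ∑ j ∈ range N, Ψ j Y, fun Y => sum_nonneg fun j _ => hΨ0 j Y, ?_, ?_⟩
  · rw [bern_sum]
    set a : ℝ := -(1 / 2) - s.1 / R with ha
    have hdist : ∀ j : ℕ, |yc K L j - s.1| = |(j : ℝ) - a| * R := by
      intro j
      have h1 : yc K L j - s.1 = -(((j : ℝ) - a) * R) := by
        rw [ha, yc, hR]
        field_simp
        ring
      rw [h1, abs_neg, abs_mul, abs_of_pos hRpos]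
    have hterm : ∀ j ∈ range N, bern (fun _ => G.p) (G.sfld (rr ε)) (Ψ j) ≤
        13 * ind (j ≤ 60) + 300 * Real.exp (-(c * |(j : ℝ) - a|)) +
          4 * (1 / max (j : ℝ) 1) ^ 2 + (1 / max |(j : ℝ) - a| 1) ^ 2 + (2 * R / ε) ^ 2 := by
      intro j _
      refine (hΨ1 j).trans ?_
      have h1 : c * |yc K L j - s.1| / (K / L) = c * |(j : ℝ) - a| := by
        rw [hdist, ← hR]
        field_simp
      have h2 : K / L / max |yc K L j - s.1| (K / L) = 1 / max |(j : ℝ) - a| 1 := by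
        rw [hdist, ← hR]
        have h3 : max (|(j : ℝ) - a| * R) R = max |(j : ℝ) - a| 1 * R := by
          rw [max_mul_of_nonneg _ _ hRpos.le, one_mul]
        rw [h3]
        have h4 : max |(j : ℝ) - a| 1 ≠ 0 := (lt_max_of_lt_right one_pos).ne'
        field_simp
      have h3 : (1 / ((j : ℝ) + 1 / 2)) ^ 2 ≤ 4 * (1 / max (j : ℝ) 1) ^ 2 := by
        have hj : (0 : ℝ) ≤ j := Nat.cast_nonneg j
        have h5 : max (j : ℝ) 1 ≤ 2 * ((j : ℝ) + 1 / 2) := by
          apply max_le <;> linarith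
        have h6 : 0 < max (j : ℝ) 1 := lt_max_of_lt_right one_pos
        have h7 : 1 / ((j : ℝ) + 1 / 2) ≤ 2 * (1 / max (j : ℝ) 1) := by
          rw [mul_one_div, div_le_div_iff₀ (by linarith) h6]
          linarith
        calc (1 / ((j : ℝ) + 1 / 2)) ^ 2 ≤ (2 * (1 / max (j : ℝ) 1)) ^ 2 :=
              pow_le_pow_left₀ (by positivity) h7 2
          _ = 4 * (1 / max (j : ℝ) 1) ^ 2 := by ring
      rw [h1, h2]
      have h8 : (2 * (K / L) / ε) ^ 2 = (2 * R / ε) ^ 2 := by rw [hR]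
      rw [h8]
      linarith
    refine (sum_le_sum hterm).trans ?_
    rw [sum_add_distrib, sum_add_distrib, sum_add_distrib, sum_add_distrib, ← mul_sum, ← mul_sum,
      ← mul_sum, sum_const, card_range, nsmul_eq_mul]
    have b1 : ∑ j ∈ range N, ind (j ≤ 60) ≤ 61 := by
      have h1 : ∀ j ∈ range N, ind (j ≤ 60) = if j ≤ 60 then (1 : ℝ) else 0 := by
        intro j _
        by_cases h : j ≤ 60
        · rw [ind_of h, if_pos h]
        · rw [ind_of_not h, if_neg h]
      rw [sum_congr rfl h1, ← sum_filter, sum_const, nsmul_eq_mul, mul_one]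
      have h2 : ((range N).filter (fun j => j ≤ 60)).card ≤ 61 := by
        calc ((range N).filter (fun j => j ≤ 60)).card ≤ (range 61).card := by
              apply card_le_card
              intro j hj
              have := (mem_filter.1 hj).2
              exact mem_range.2 (by omega)
          _ = 61 := card_range 61
      exact_mod_cast h2
    have b2 : ∑ j ∈ range N, Real.exp (-(c * |(j : ℝ) - a|)) ≤
        2 * (1 - Real.exp (-c))⁻¹ := by
      refine sum_dist_LevL (h := fun x => Real.exp (-(c * x))) (fun x => (Real.exp_pos _).le) ?_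
        (sum_exp_LevL hc) a N
      intro x y _ hxy
      apply Real.exp_le_exp.2
      nlinarith
    have b4 : ∑ j ∈ range N, (1 / max |(j : ℝ) - a| 1) ^ 2 ≤ 2 * 3 := by
      refine sum_dist_LevL (h := fun x => (1 / max x 1) ^ 2) (fun x => by positivity) ?_
        sum_sq_LevL a N
      intro x y _ hxy
      have h1 : 0 < max x 1 := lt_max_of_lt_right one_pos
      have h2 : 0 < max y 1 := lt_max_of_lt_right one_pos
      apply pow_le_pow_left₀ (by positivity)
      exact one_div_le_one_div_of_le h1 (max_le_max hxy le_rfl)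
    have b5 : (N : ℝ) * (2 * R / ε) ^ 2 ≤ 1 := by
      have h1 : (N : ℝ) ≤ L / (2 * K) + 1 :=
        (Nat.ceil_lt_add_one (by positivity)).le
      have h2 : L / (2 * K) = 1 / (2 * R) := by
        rw [hR]
        field_simp
      rw [h2] at h1
      have h3 : (1 / (2 * R) + 1) * (2 * R / ε) ^ 2 = (2 * R + 4 * R ^ 2) / ε ^ 2 := by
        field_simp
        ring
      have hε2 : 0 < ε ^ 2 := by positivity
      have hε21 : ε ^ 2 ≤ 1 := by nlinarith
      have hR1 : R ≤ 1 := by nlinarith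
      calc (N : ℝ) * (2 * R / ε) ^ 2 ≤ (1 / (2 * R) + 1) * (2 * R / ε) ^ 2 :=
            mul_le_mul_of_nonneg_right h1 (by positivity)
        _ = (2 * R + 4 * R ^ 2) / ε ^ 2 := h3
        _ ≤ 1 := by
          rw [div_le_one hε2]
          nlinarith
    have b3 := sum_sq_LevL N
    linarith
  · intro Y hY Z hZ v m hv
    have hpath := (hpi K (cfg Y Z s t) s v m hv).2.1
    have hsub : (range (m + 1)).filter
        (fun i => (-1 : ℝ) ≤ (v i).1 ∧ (v i).1 < 0 ∧ L ≤ (v i).2 ∧ (v i).2 < 2 * L) ⊆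
        (range N).biUnion fun j => (range (m + 1)).filter (fun i =>
          -(((j : ℝ) + 1) * K / L) ≤ (v i).1 ∧ (v i).1 < -((j : ℝ) * K / L) ∧ L ≤ (v i).2 ∧
            (v i).2 < 2 * L) := by
      intro i hi
      obtain ⟨him, -, hx0, hl1, hl2⟩ := mem_filter.1 hi
      have him' : i ≤ m := by
        have := mem_range.1 him
        omega
      have hxs : |(v i).1| ≤ |s.1| := (hpath i him').2
      have hx1 : -(v i).1 ≤ 1 / 2 := by
        have := neg_le_abs (v i).1
        linarith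
      set q : ℕ := ⌈-(v i).1 / R⌉₊ with hq
      have hq0 : 0 < q := Nat.ceil_pos.2 (div_pos (by linarith) hRpos)
      have hqN : q ≤ N := by
        apply Nat.ceil_mono
        rw [div_le_div_iff₀ hRpos (by positivity), hR]
        have h1 : L * (K / L) = K := by field_simp
        rw [h1]
        nlinarith
      have hq1 : -(v i).1 / R ≤ q := Nat.le_ceil _
      have hq2 : ((q - 1 : ℕ) : ℝ) < -(v i).1 / R := Nat.lt_ceil.1 (by omega)
      rw [mem_biUnion]
      refine ⟨q - 1, mem_range.2 (by omega), mem_filter.2 ⟨him, ?_, ?_, hl1, hl2⟩⟩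
      · have h1 : ((q - 1 : ℕ) : ℝ) + 1 = q := by
          rw [Nat.cast_sub hq0]
          push_cast
          ring
        rw [h1]
        have h2 : (q : ℝ) * K / L = q * R := by rw [hR]; ring
        rw [h2]
        rw [div_le_iff₀ hRpos] at hq1
        linarith
      · have h2 : ((q - 1 : ℕ) : ℝ) * K / L = ((q - 1 : ℕ) : ℝ) * R := by rw [hR]; ring
        rw [h2]
        rw [lt_div_iff₀ hRpos] at hq2
        linarith
    have hcard : vis v m (-1) 0 L (2 * L) ≤
        ∑ j ∈ range N, vis v m (-(((j : ℝ) + 1) * K / L)) (-((j : ℝ) * K / L)) L (2 * L) :=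
      (card_le_card hsub).trans card_biUnion_le
    calc (vis v m (-1) 0 L (2 * L) : ℝ)
        ≤ ((∑ j ∈ range N, vis v m (-(((j : ℝ) + 1) * K / L)) (-((j : ℝ) * K / L)) L (2 * L) :
            ℕ) : ℝ) := by exact_mod_cast hcard
      _ = ∑ j ∈ range N,
          (vis v m (-(((j : ℝ) + 1) * K / L)) (-((j : ℝ) * K / L)) L (2 * L) : ℝ) := by
          push_cast
          rfl
      _ ≤ ∑ j ∈ range N, Ψ j Y := sum_le_sum fun j _ => hΨ2 j Y hY Z hZ v m hv

end Pool.Agent.Helper67.GR
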