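import Pool.Agent.Helper67.GR.St3

/-! # GR: the multi-scale estimate -/

namespace Pool.Agent.Helper67.GR

open Finset

theorem powers_MS {K : ℝ} (hK : 3 ≤ K) (T N s : ℕ) (hN : 1 ≤ N) (hs : N ≤ 2 * s) :
    (3 / K ^ (2 * T + 4)) ^ s ≤ (1 / K ^ (T + 1)) ^ N := by
  have hK0 : 0 < K := by linarith
  have h1 : 3 / K ^ (2 * T + 4) ≤ (1 / K ^ (T + 1)) ^ 2 := by
    rw [div_pow, one_pow, ← pow_mul, div_le_div_iff₀ (by positivity) (by positivity)]
    have h2 : K ^ (2 * T + 4) = K ^ ((T + 1) * 2) * K ^ 2 := by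
      rw [← pow_add]
      congr 1
      ring
    rw [h2]
    have h3 : 0 < K ^ ((T + 1) * 2) := by positivity
    have h5 : 3 ≤ K ^ 2 := by nlinarith
    rw [one_mul, mul_comm]
    exact mul_le_mul_of_nonneg_left h5 h3.le
  have h4 : (3 / K ^ (2 * T + 4)) ^ s ≤ ((1 / K ^ (T + 1)) ^ 2) ^ s :=
    pow_le_pow_left₀ (by positivity) h1 s
  refine h4.trans ?_
  rw [← pow_mul]
  apply pow_le_pow_of_le_one (by positivity) _ hs
  rw [div_le_one (by positivity)]
  exact one_le_pow₀ (by linarith)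

theorem final_MS {K : ℝ} (hK : 3 ≤ K) (T I : ℕ) :
    1 / K ^ ((T + 1) * (I + 1)) + 2 ^ (I + 1) * (1 / K ^ (T + 1)) ^ (I + 1) ≤
      1 / K ^ (T * (I + 1)) := by
  have hK0 : 0 < K := by linarith
  have e1 : 1 / K ^ ((T + 1) * (I + 1)) = (1 / K ^ (T + 1)) ^ (I + 1) := by
    rw [div_pow, one_pow, pow_mul]
  have e2 : 1 / K ^ (T * (I + 1)) = (1 / K ^ T) ^ (I + 1) := by
    rw [div_pow, one_pow, pow_mul]
  rw [e1, e2, ← mul_pow]
  set x := 1 / K ^ (T + 1) with hx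
  have hx0 : 0 ≤ x := by positivity
  have h1 : x ^ (I + 1) + (2 * x) ^ (I + 1) ≤ (x + 2 * x) ^ (I + 1) :=
    pow_add_pow_le hx0 (by positivity) (Nat.succ_ne_zero I)
  refine h1.trans ?_
  apply pow_le_pow_left₀ (by positivity)
  have e3 : x + 2 * x = 3 / K ^ (T + 1) := by rw [hx]; ring
  rw [e3, div_le_div_iff₀ (by positivity) (by positivity), pow_succ]
  have : 0 < K ^ T := by positivity
  nlinarith

theorem hMS (hd : StMSd) (hc : StMSc) (hl : StMSl) : StMS := by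
  intro T
  obtain ⟨ℓ₁, h1⟩ := hd
  obtain ⟨ℓ₂, h2⟩ := hc (2 * T + 4)
  obtain ⟨ℓ₃, h3⟩ := hl (T + 1)
  refine ⟨ℓ₁ + ℓ₂ + ℓ₃ + 2, 2 * T + 4, fun ℓ K hℓ hpar G Λ c r e I E Fe hyp hFe => ?_⟩
  have hK : (3 : ℝ) ≤ K := by
    have a1 : ℓ ^ 8 ≤ K := hpar.1
    have a2 : 2 ^ 8 ≤ ℓ ^ 8 := Nat.pow_le_pow_left (by omega) 8
    exact_mod_cast (by omega : 3 ≤ K)
  have hPq := sfld_pq G r
  have hL := h3 ℓ K (by omega) hpar G Λ c r e I E hyp
  have hC := h2 ℓ K (by omega) hpar G Λ c r e I E Fe hyp hFe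
  have hD := h1 ℓ K (by omega) hpar
  classical
  let 𝒮 : Finset (Finset ℕ) := (range (I + 1)).powerset.filter (fun S => I + 1 ≤ 2 * S.card)
  have step : prob (fun _ => G.p) (G.sfld r)
    (fun Y => ∀ i ≤ I,
      (¬ Reg G.n (Y ∪ E) (c - hh ℓ K Λ (i + 1)) (c + hh ℓ K Λ (i + 1))
        (2 * lam K Λ i) e) ∨ Fe i (Y ∪ E)) ≤
    prob (fun _ => G.p) (G.sfld r)
      (fun Y => ∃ S ⊆ range (I + 1), I + 1 ≤ 2 * S.card ∧
      ∀ i ∈ S, Low ℓ K Λ c e i (Y ∪ E)) +
    prob (fun _ => G.p) (G.sfld r)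
      (fun Y => ∃ S ∈ 𝒮, ∀ i ∈ S, Ann G.n ℓ K Λ c e Fe i (Y ∪ E)) := by
    apply prob_le_of_le_add hPq
    intro Y _ hY
    have hall : ∀ i ≤ I, Low ℓ K Λ c e i (Y ∪ E) ∨ Ann G.n ℓ K Λ c e Fe i (Y ∪ E) := by
      intro i hi
      by_contra hcon
      push Not at hcon
      obtain ⟨g1, g2⟩ := hcon
      unfold Ann at g2
      push Not at g2
      obtain ⟨g2, g3, g4⟩ := g2
      rcases hY i hi with h | h
      · exact h (hD G.n Λ c e i (Y ∪ E) (by linarith [G.n_one]) hyp.2.1 hyp.2.2.2.1 g2 g3 g1)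
      · exact g4 h
    have hcard : I + 1 ≤ ((range (I + 1)).filter (fun i => Low ℓ K Λ c e i (Y ∪ E))).card +
        ((range (I + 1)).filter (fun i => Ann G.n ℓ K Λ c e Fe i (Y ∪ E))).card := by
      calc I + 1 = (range (I + 1)).card := (Finset.card_range _).symm
        _ ≤ (((range (I + 1)).filter (fun i => Low ℓ K Λ c e i (Y ∪ E))) ∪
          ((range (I + 1)).filter (fun i => Ann G.n ℓ K Λ c e Fe i (Y ∪ E)))).card := by
            apply Finset.card_le_card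
            intro i hi
            rw [Finset.mem_union, Finset.mem_filter, Finset.mem_filter]
            rcases hall i (by rw [Finset.mem_range] at hi; omega) with h | h
            · exact Or.inl ⟨hi, h⟩
            · exact Or.inr ⟨hi, h⟩
        _ ≤ _ := Finset.card_union_le _ _
    rcases Nat.lt_or_ge (2 * ((range (I + 1)).filter
      (fun i => Low ℓ K Λ c e i (Y ∪ E))).card) (I + 1) with hlt | hge
    · right
      refine ⟨(range (I + 1)).filter (fun i => Ann G.n ℓ K Λ c e Fe i (Y ∪ E)), ?_, ?_⟩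
      · rw [Finset.mem_filter, Finset.mem_powerset]
        exact ⟨Finset.filter_subset _ _, by omega⟩
      · intro i hi
        exact (Finset.mem_filter.mp hi).2
    · left
      refine ⟨(range (I + 1)).filter (fun i => Low ℓ K Λ c e i (Y ∪ E)),
        Finset.filter_subset _ _, hge, ?_⟩
      intro i hi
      exact (Finset.mem_filter.mp hi).2
  have hsum : prob (fun _ => G.p) (G.sfld r)
      (fun Y => ∃ S ∈ 𝒮, ∀ i ∈ S, Ann G.n ℓ K Λ c e Fe i (Y ∪ E)) ≤
      2 ^ (I + 1) * (1 / (K : ℝ) ^ (T + 1)) ^ (I + 1) := by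
    refine (prob_exists_le hPq 𝒮
      (fun S Y => ∀ i ∈ S, Ann G.n ℓ K Λ c e Fe i (Y ∪ E))).trans ?_
    have hterm : ∀ S ∈ 𝒮, prob (fun _ => G.p) (G.sfld r)
        (fun Y => ∀ i ∈ S, Ann G.n ℓ K Λ c e Fe i (Y ∪ E)) ≤
        (1 / (K : ℝ) ^ (T + 1)) ^ (I + 1) := by
      intro S hS
      rw [Finset.mem_filter, Finset.mem_powerset] at hS
      exact (hC S hS.1).trans (powers_MS hK T (I + 1) S.card (by omega) hS.2)
    refine (Finset.sum_le_sum hterm).trans ?_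
    rw [Finset.sum_const, nsmul_eq_mul]
    apply mul_le_mul_of_nonneg_right _ (by positivity)
    have h5 : 𝒮.card ≤ 2 ^ (I + 1) := by
      calc 𝒮.card ≤ ((range (I + 1)).powerset).card := Finset.card_filter_le _ _
        _ = 2 ^ (I + 1) := by rw [Finset.card_powerset, Finset.card_range]
    exact_mod_cast h5
  have := final_MS hK T I
  linarith

end Pool.Agent.Helper67.GR
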