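import Pool.Agent.Helper67.GR.St3
import Pool.Agent.Helper67.GR.Chain
import Pool.Agent.Helper67.GR.RegV

/-! # GR project: sequential conditioning over scales -/

namespace Pool.Agent.Helper67.GR

open Finset

section MSc

variable {G : Grid} {ℓ K : ℕ} {Λ c r e : ℝ} {Fe : ℕ → Finset Pt → Prop}

theorem hh_mono_MSc (hK : 1 ≤ K) (hΛ : 0 < Λ) : Monotone (hh ℓ K Λ) := by
  have hK1 : (1 : ℝ) ≤ (K : ℝ) := by exact_mod_cast hK
  have hQ : (1 : ℝ) ≤ (K : ℝ) ^ 5 := one_le_pow₀ hK1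
  refine monotone_nat_of_le_succ fun i => ?_
  cases i with
  | zero =>
    simp only [hh]
    positivity
  | succ i =>
    simp only [hh]
    have h1 : ((K : ℝ) ^ 5) ^ i ≤ ((K : ℝ) ^ 5) ^ (i + 1) := pow_le_pow_right₀ hQ (Nat.le_succ i)
    have h2 : (0 : ℝ) ≤ ℓ * K := by positivity
    gcongr

theorem hh_nonneg_MSc (hK : 1 ≤ K) (hΛ : 0 < Λ) (i : ℕ) : 0 ≤ hh ℓ K Λ i := by
  have := hh_mono_MSc (ℓ := ℓ) hK hΛ (Nat.zero_le i)
  simpa [hh] using this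

theorem lam_hh_MSc (hK : 1 ≤ K) (hΛ : 0 < Λ) (i : ℕ) :
    2 * lam K Λ i * (hh ℓ K Λ (i + 1) - hh ℓ K Λ i) ≤ 20 * ℓ * K := by
  have hK1 : (0 : ℝ) < (K : ℝ) := by exact_mod_cast hK
  have h0 := hh_nonneg_MSc (ℓ := ℓ) hK hΛ i
  have hl : 0 < lam K Λ i := by unfold lam; positivity
  have h1 : 2 * lam K Λ i * hh ℓ K Λ (i + 1) = 2 * ℓ * K := by
    simp only [hh, lam]
    field_simp
  have h2 : 0 ≤ 2 * lam K Λ i * hh ℓ K Λ i := by positivity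
  have h3 : (0 : ℝ) ≤ (ℓ : ℝ) * K := by positivity
  nlinarith

/-- the annulus event only depends on the points outside the smaller ball -/
theorem ann_congr_MSc {n : ℝ} {i : ℕ}
    (hFe : ∀ P P' : Finset Pt, (∀ p : Pt, p.1 < c - hh ℓ K Λ i → (p ∈ P ↔ p ∈ P')) →
      (Fe i P ↔ Fe i P')) {P P' : Finset Pt}
    (h : ∀ p : Pt, p.1 < c - hh ℓ K Λ i ∨ c + hh ℓ K Λ i ≤ p.1 → (p ∈ P ↔ p ∈ P')) :
    Ann n ℓ K Λ c e Fe i P ↔ Ann n ℓ K Λ c e Fe i P' := by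
  unfold Ann
  rw [reg_congr (P := P) (P' := P') (a := c - hh ℓ K Λ (i + 1)) fun p _ h2 => h p (Or.inl h2),
    reg_congr (P := P) (P' := P') (a := c + hh ℓ K Λ i) fun p h1 _ => h p (Or.inr h1),
    hFe P P' fun p h1 => h p (Or.inl h1)]

/-- the annulus -/
noncomputable def blk_MSc (G : Grid) (ℓ K : ℕ) (Λ c : ℝ) (i : ℕ) : Finset Pt :=
  G.fld (c - hh ℓ K Λ (i + 1)) (c - hh ℓ K Λ i) ∪ G.fld (c + hh ℓ K Λ i) (c + hh ℓ K Λ (i + 1))

theorem mem_blk_MSc {i : ℕ} {v : Pt} : v ∈ blk_MSc G ℓ K Λ c i ↔ v.1 ∈ G.Xs ∧ v.2 ∈ G.Ts ∧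
    ((c - hh ℓ K Λ (i + 1) ≤ v.1 ∧ v.1 < c - hh ℓ K Λ i) ∨
      (c + hh ℓ K Λ i ≤ v.1 ∧ v.1 < c + hh ℓ K Λ (i + 1))) := by
  rw [blk_MSc, mem_union, mem_fld, mem_fld]
  tauto

theorem blk_disj_MSc (hK : 1 ≤ K) (hΛ : 0 < Λ) (i j : ℕ) (hij : i ≠ j) :
    Disjoint (blk_MSc G ℓ K Λ c i) (blk_MSc G ℓ K Λ c j) := by
  have hm := hh_mono_MSc (ℓ := ℓ) hK hΛ
  have hn := hh_nonneg_MSc (ℓ := ℓ) hK hΛ
  rw [disjoint_left]
  intro v hv hv'
  obtain ⟨-, -, h1⟩ := mem_blk_MSc.1 hv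
  obtain ⟨-, -, h2⟩ := mem_blk_MSc.1 hv'
  have a1 := hn i
  have a2 := hn j
  have a3 := hn (i + 1)
  have a4 := hn (j + 1)
  rcases lt_or_gt_of_ne hij with h | h
  · have h3 : hh ℓ K Λ (i + 1) ≤ hh ℓ K Λ j := hm h
    rcases h1 with h1 | h1 <;> rcases h2 with h2 | h2 <;> linarith [h1.1, h1.2, h2.1, h2.2]
  · have h3 : hh ℓ K Λ (j + 1) ≤ hh ℓ K Λ i := hm h
    rcases h1 with h1 | h1 <;> rcases h2 with h2 | h2 <;> linarith [h1.1, h1.2, h2.1, h2.2]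

theorem biUnion_blk_MSc (hK : 1 ≤ K) (hΛ : 0 < Λ) (m : ℕ) :
    (range m).biUnion (blk_MSc G ℓ K Λ c) = G.fld (c - hh ℓ K Λ m) (c + hh ℓ K Λ m) := by
  have hm := hh_mono_MSc (ℓ := ℓ) hK hΛ
  have hn := hh_nonneg_MSc (ℓ := ℓ) hK hΛ
  induction m with
  | zero =>
    ext v
    simp only [range_zero, biUnion_empty, notMem_empty, false_iff, mem_fld, hh]
    rintro ⟨-, -, h1, h2⟩
    linarith
  | succ m ih =>
    rw [range_biUnion_succ_Chain, ih]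
    ext v
    rw [mem_union, mem_blk_MSc, mem_fld, mem_fld]
    have a1 := hn m
    have a2 : hh ℓ K Λ m ≤ hh ℓ K Λ (m + 1) := hm (Nat.le_succ m)
    constructor
    · rintro (⟨h1, h2, ⟨h3, h4⟩ | ⟨h3, h4⟩⟩ | ⟨h1, h2, h3, h4⟩)
      · exact ⟨h1, h2, by linarith, by linarith⟩
      · exact ⟨h1, h2, by linarith, by linarith⟩
      · exact ⟨h1, h2, by linarith, by linarith⟩
    · rintro ⟨h1, h2, h3, h4⟩
      rcases lt_or_ge v.1 (c - hh ℓ K Λ m) with h5 | h5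
      · exact Or.inl ⟨h1, h2, Or.inl ⟨h3, h5⟩⟩
      · rcases lt_or_ge v.1 (c + hh ℓ K Λ m) with h6 | h6
        · exact Or.inr ⟨h1, h2, h5, h6⟩
        · exact Or.inl ⟨h1, h2, Or.inr ⟨h6, h4⟩⟩

/-- the conditional estimate -/
theorem cond_MSc {T : ℕ} (hK : 1 ≤ K) (hΛ : 0 < Λ) {i : ℕ}
    (hreg : ∀ a b : ℝ, -(1/2) ≤ a → a ≤ b → b ≤ 1/2 →
      2 * lam K Λ i * (b - a) ≤ 20 * ℓ * K →
      G.pr a b (fun Y => ¬ Reg G.n Y a b (2 * lam K Λ i) (e / 4)) ≤ 1 / (K : ℝ) ^ T)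
    (h1 : -(1/2) ≤ c - hh ℓ K Λ (i + 1)) (h2 : c + hh ℓ K Λ (i + 1) ≤ 1 / 2)
    (hFe : ∀ P P' : Finset Pt, (∀ p : Pt, p.1 < c - hh ℓ K Λ i → (p ∈ P ↔ p ∈ P')) →
      (Fe i P ↔ Fe i P'))
    (hFe2 : ∀ ω : Finset Pt, Lab G.n ω → (∀ v ∈ ω, v.1 < c - hh ℓ K Λ (i + 1)) →
      G.pr (c - hh ℓ K Λ (i + 1)) (c - hh ℓ K Λ i) (fun Y => Fe i (ω ∪ Y)) ≤
        1 / (K : ℝ) ^ T)
    {D : Finset Pt} (hD : Lab G.n D)
    (hD2 : ∀ v ∈ D, v.1 < c - hh ℓ K Λ (i + 1) ∨ c + hh ℓ K Λ (i + 1) ≤ v.1) :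
    prob (fun _ => G.p) (blk_MSc G ℓ K Λ c i) (fun X => Ann G.n ℓ K Λ c e Fe i (D ∪ X)) ≤
      3 / (K : ℝ) ^ T := by
  have hm : hh ℓ K Λ i ≤ hh ℓ K Λ (i + 1) := hh_mono_MSc hK hΛ (Nat.le_succ i)
  have hn := hh_nonneg_MSc (ℓ := ℓ) hK hΛ i
  have hq : Pq (fun _ : Pt => G.p) (blk_MSc G ℓ K Λ c i) :=
    fun _ _ => ⟨G.p_pos.le, G.p_le.trans (by norm_num)⟩
  have hL : G.fld (c - hh ℓ K Λ (i + 1)) (c - hh ℓ K Λ i) ⊆ blk_MSc G ℓ K Λ c i :=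
    subset_union_left
  have hR : G.fld (c + hh ℓ K Λ i) (c + hh ℓ K Λ (i + 1)) ⊆ blk_MSc G ℓ K Λ c i :=
    subset_union_right
  have e1 : prob (fun _ => G.p) (blk_MSc G ℓ K Λ c i) (fun X => ¬ Reg G.n (D ∪ X)
      (c - hh ℓ K Λ (i + 1)) (c - hh ℓ K Λ i) (2 * lam K Λ i) (e / 4)) ≤ 1 / (K : ℝ) ^ T := by
    have h3 := hreg (c - hh ℓ K Λ (i + 1)) (c - hh ℓ K Λ i) h1 (by linarith) (by linarith)
      (by have := lam_hh_MSc (ℓ := ℓ) hK hΛ i; calc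
            2 * lam K Λ i * (c - hh ℓ K Λ i - (c - hh ℓ K Λ (i + 1))) =
              2 * lam K Λ i * (hh ℓ K Λ (i + 1) - hh ℓ K Λ i) := by ring
            _ ≤ _ := this)
    refine le_trans (le_of_eq ?_) h3
    have h4 : prob (fun _ => G.p) (blk_MSc G ℓ K Λ c i) (fun X => ¬ Reg G.n (D ∪ X)
        (c - hh ℓ K Λ (i + 1)) (c - hh ℓ K Λ i) (2 * lam K Λ i) (e / 4)) =
        prob (fun _ => G.p) (blk_MSc G ℓ K Λ c i) (fun X => ¬ Reg G.n X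
        (c - hh ℓ K Λ (i + 1)) (c - hh ℓ K Λ i) (2 * lam K Λ i) (e / 4)) := by
      refine prob_congr fun X hX => not_congr (reg_congr fun p hp1 hp2 => ?_)
      rw [mem_union]
      refine ⟨fun h => h.resolve_left fun hpD => ?_, Or.inr⟩
      rcases hD2 p hpD with h5 | h5 <;> linarith
    rw [h4]
    refine bern_marginal _ hL fun X hX => ind_congr (not_congr (reg_congr fun p hp1 hp2 => ?_))
    rw [mem_inter]
    refine ⟨fun h => ⟨h, ?_⟩, fun h => h.1⟩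
    obtain ⟨h5, h6, -⟩ := mem_blk_MSc.1 (hX h)
    exact (mem_fld G).2 ⟨h5, h6, hp1, hp2⟩
  have e2 : prob (fun _ => G.p) (blk_MSc G ℓ K Λ c i) (fun X => ¬ Reg G.n (D ∪ X)
      (c + hh ℓ K Λ i) (c + hh ℓ K Λ (i + 1)) (2 * lam K Λ i) (e / 4)) ≤ 1 / (K : ℝ) ^ T := by
    have h3 := hreg (c + hh ℓ K Λ i) (c + hh ℓ K Λ (i + 1)) (by linarith) (by linarith) h2
      (by have := lam_hh_MSc (ℓ := ℓ) hK hΛ i; calc
            2 * lam K Λ i * (c + hh ℓ K Λ (i + 1) - (c + hh ℓ K Λ i)) =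
              2 * lam K Λ i * (hh ℓ K Λ (i + 1) - hh ℓ K Λ i) := by ring
            _ ≤ _ := this)
    refine le_trans (le_of_eq ?_) h3
    have h4 : prob (fun _ => G.p) (blk_MSc G ℓ K Λ c i) (fun X => ¬ Reg G.n (D ∪ X)
        (c + hh ℓ K Λ i) (c + hh ℓ K Λ (i + 1)) (2 * lam K Λ i) (e / 4)) =
        prob (fun _ => G.p) (blk_MSc G ℓ K Λ c i) (fun X => ¬ Reg G.n X
        (c + hh ℓ K Λ i) (c + hh ℓ K Λ (i + 1)) (2 * lam K Λ i) (e / 4)) := by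
      refine prob_congr fun X hX => not_congr (reg_congr fun p hp1 hp2 => ?_)
      rw [mem_union]
      refine ⟨fun h => h.resolve_left fun hpD => ?_, Or.inr⟩
      rcases hD2 p hpD with h5 | h5 <;> linarith
    rw [h4]
    refine bern_marginal _ hR fun X hX => ind_congr (not_congr (reg_congr fun p hp1 hp2 => ?_))
    rw [mem_inter]
    refine ⟨fun h => ⟨h, ?_⟩, fun h => h.1⟩
    obtain ⟨h5, h6, -⟩ := mem_blk_MSc.1 (hX h)
    exact (mem_fld G).2 ⟨h5, h6, hp1, hp2⟩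
  have e3 : prob (fun _ => G.p) (blk_MSc G ℓ K Λ c i) (fun X => Fe i (D ∪ X)) ≤
      1 / (K : ℝ) ^ T := by
    have h3 := hFe2 (D.filter fun v => v.1 < c - hh ℓ K Λ (i + 1))
      (fun v hv => hD v (mem_filter.1 hv).1) (fun v hv => (mem_filter.1 hv).2)
    refine le_trans (le_of_eq ?_) h3
    have h4 : prob (fun _ => G.p) (blk_MSc G ℓ K Λ c i) (fun X => Fe i (D ∪ X)) =
        prob (fun _ => G.p) (blk_MSc G ℓ K Λ c i)
          (fun X => Fe i ((D.filter fun v => v.1 < c - hh ℓ K Λ (i + 1)) ∪ X)) := by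
      refine prob_congr fun X hX => hFe _ _ fun p hp => ?_
      rw [mem_union, mem_union, mem_filter]
      refine ⟨fun h => h.imp (fun hpD => ⟨hpD, ?_⟩) id, fun h => h.imp (fun h => h.1) id⟩
      rcases hD2 p hpD with h5 | h5
      · exact h5
      · linarith
    rw [h4]
    refine bern_marginal _ hL fun X hX => ind_congr (hFe _ _ fun p hp => ?_)
    rw [mem_union, mem_union, mem_inter]
    refine or_congr Iff.rfl ⟨fun h => ⟨h, ?_⟩, fun h => h.1⟩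
    obtain ⟨h5, h6, h7 | h7⟩ := mem_blk_MSc.1 (hX h)
    · exact (mem_fld G).2 ⟨h5, h6, h7⟩
    · linarith [h7.1]
  have e4 : prob (fun _ => G.p) (blk_MSc G ℓ K Λ c i)
      (fun X => Ann G.n ℓ K Λ c e Fe i (D ∪ X)) ≤ 1 / (K : ℝ) ^ T +
        (1 / (K : ℝ) ^ T + 1 / (K : ℝ) ^ T) :=
    (prob_or_le hq _ _).trans (add_le_add e1 ((prob_or_le hq _ _).trans (add_le_add e2 e3)))
  refine e4.trans (le_of_eq ?_)
  ring

theorem hMSc (hrp : StRP) : StMSc := by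
  intro T
  obtain ⟨ℓ₀, hℓ₀⟩ := hrp T
  refine ⟨max ℓ₀ 1, fun ℓ K hℓ hpar G Λ c r e I E Fe hyp hfe S hS => ?_⟩
  have hℓ1 : 1 ≤ ℓ := (le_max_right _ _).trans hℓ
  have hK : 1 ≤ K := (Nat.one_le_pow 8 ℓ hℓ1).trans hpar.1
  obtain ⟨-, hΛ, -, he, hr, hr1, hr2, hE, hE2⟩ := hyp
  obtain ⟨hF1, hF2⟩ := hfe
  have hm := hh_mono_MSc (ℓ := ℓ) hK hΛ
  have hn := hh_nonneg_MSc (ℓ := ℓ) hK hΛ
  have hK0 : (0 : ℝ) < (K : ℝ) := by exact_mod_cast hK
  have hℓ0 : (0 : ℝ) < (ℓ : ℝ) := by exact_mod_cast hℓ1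
  have hσ : (0 : ℝ) ≤ 3 / (K : ℝ) ^ T := by positivity
  have he4 : (K : ℝ) / (5000 * ℓ) ≤ e / 4 := by
    have h1 : (K : ℝ) / (5000 * ℓ) = (K : ℝ) / (1000 * ℓ) / 5 := by
      rw [div_div]; ring_nf
    have h2 : 0 ≤ (K : ℝ) / (1000 * ℓ) := by positivity
    rw [h1]
    linarith
  have hsub : G.fld (c - hh ℓ K Λ (I + 1)) (c + hh ℓ K Λ (I + 1)) ⊆ G.sfld r :=
    fld_subset_sfld G hr1 hr2
  -- the estimate for the ball of scale `I + 1`
  have core : ∀ D : Finset Pt, Lab G.n D →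
      (∀ v ∈ D, v.1 < c - hh ℓ K Λ (I + 1) ∨ c + hh ℓ K Λ (I + 1) ≤ v.1) →
      prob (fun _ => G.p) (G.fld (c - hh ℓ K Λ (I + 1)) (c + hh ℓ K Λ (I + 1)))
        (fun Y => ∀ i ∈ S, Ann G.n ℓ K Λ c e Fe i (Y ∪ D)) ≤ (3 / (K : ℝ) ^ T) ^ S.card := by
    intro D hD hD2
    rw [← biUnion_blk_MSc hK hΛ]
    refine chain_bound (I + 1) (blk_MSc G ℓ K Λ c) (blk_disj_MSc hK hΛ)
      (fun _ _ => ⟨G.p_pos.le, G.p_le.trans (by norm_num)⟩) S hS
      (fun i Y => Ann G.n ℓ K Λ c e Fe i (Y ∪ D)) hσ ?_ ?_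
    · intro i hi X hX
      have hiI : i ≤ I := Nat.lt_succ_iff.1 (mem_range.1 (hS hi))
      refine ann_congr_MSc (hF1 i hiI) fun p hp => ?_
      rw [mem_union, mem_union, mem_sdiff]
      refine or_congr ⟨fun h => ⟨h, ?_⟩, fun h => h.1⟩ Iff.rfl
      rw [biUnion_blk_MSc hK hΛ, mem_fld]
      rintro ⟨-, -, h1, h2⟩
      rcases hp with h3 | h3 <;> linarith
    · intro i hi Z hZ
      have hiI : i ≤ I := Nat.lt_succ_iff.1 (mem_range.1 (hS hi))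
      have hiI' : hh ℓ K Λ (i + 1) ≤ hh ℓ K Λ (I + 1) := hm (Nat.succ_le_succ hiI)
      have hZ1 : Z ⊆ G.fld (c - hh ℓ K Λ (I + 1)) (c + hh ℓ K Λ (I + 1)) := by
        rw [← biUnion_blk_MSc hK hΛ]
        exact fun a ha => (mem_sdiff.1 (hZ ha)).1
      have h1 := cond_MSc (G := G) (ℓ := ℓ) (K := K) (Λ := Λ) (c := c) (e := e) (Fe := Fe) (T := T)
        hK hΛ (i := i)
        (fun a b h1 h2 h3 h4 => hℓ₀ ℓ K ((le_max_left _ _).trans hℓ) hpar G a b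
          (2 * lam K Λ i) (e / 4) h1 h2 h3 (by unfold lam; positivity) h4 he4)
        (by linarith) (by linarith) (hF1 i hiI) (hF2 i hiI) (D := Z ∪ D)
        (by
          intro v hv
          rcases mem_union.1 hv with h | h
          · exact fld_lab G hZ1 v h
          · exact hD v h)
        (by
          intro v hv
          rcases mem_union.1 hv with h | h
          · have h2 := (mem_sdiff.1 (hZ h)).2
            obtain ⟨h3, h4, -, -⟩ := (mem_fld G).1 (hZ1 h)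
            rw [biUnion_blk_MSc hK hΛ, mem_fld] at h2
            rcases lt_or_ge v.1 (c - hh ℓ K Λ (i + 1)) with h5 | h5
            · exact Or.inl h5
            · right
              by_contra h6
              exact h2 ⟨h3, h4, h5, not_le.1 h6⟩
          · rcases hD2 v h with h2 | h2
            · left; linarith
            · right; linarith)
      refine le_trans (le_of_eq ?_) h1
      refine prob_congr fun X _ => ?_
      rw [union_right_comm]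
  -- conditioning on the rest
  have hdis : Disjoint (G.sfld r \ G.fld (c - hh ℓ K Λ (I + 1)) (c + hh ℓ K Λ (I + 1)))
      (G.fld (c - hh ℓ K Λ (I + 1)) (c + hh ℓ K Λ (I + 1))) := sdiff_disjoint
  have hq : Pq (fun _ : Pt => G.p)
      (G.sfld r \ G.fld (c - hh ℓ K Λ (I + 1)) (c + hh ℓ K Λ (I + 1))) :=
    fun _ _ => ⟨G.p_pos.le, G.p_le.trans (by norm_num)⟩
  have hun : G.sfld r = (G.sfld r \ G.fld (c - hh ℓ K Λ (I + 1)) (c + hh ℓ K Λ (I + 1))) ∪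
      G.fld (c - hh ℓ K Λ (I + 1)) (c + hh ℓ K Λ (I + 1)) := (sdiff_union_of_subset hsub).symm
  rw [hun]
  unfold prob
  rw [bern_union _ hdis, ← bern_const (fun _ => G.p)
    (G.sfld r \ G.fld (c - hh ℓ K Λ (I + 1)) (c + hh ℓ K Λ (I + 1))) ((3 / (K : ℝ) ^ T) ^ S.card)]
  refine bern_mono hq fun Z hZ => ?_
  have h1 := core (Z ∪ E)
    (by
      intro v hv
      rcases mem_union.1 hv with h | h
      · have h2 := (mem_sdiff.1 (hZ h)).1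
        unfold Grid.sfld at h2
        exact G.Ts_mem v.2 (mem_product.1 h2).2
      · exact hE v h)
    (by
      intro v hv
      rcases mem_union.1 hv with h | h
      · have h2 := mem_sdiff.1 (hZ h)
        have h3 := h2.1
        have h4 := h2.2
        unfold Grid.sfld at h3
        rw [mem_product, mem_filter] at h3
        rw [mem_fld] at h4
        rcases lt_or_ge v.1 (c - hh ℓ K Λ (I + 1)) with h5 | h5
        · exact Or.inl h5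
        · right
          by_contra h6
          exact h4 ⟨h3.1.1, h3.2, h5, not_le.1 h6⟩
      · exact hE2 v h)
  refine le_trans (le_of_eq ?_) h1
  refine bern_congr fun Y _ => ind_congr ?_
  have h2 : Z ∪ Y ∪ E = Y ∪ (Z ∪ E) := by
    rw [union_comm Z Y, union_assoc]
  beta_reduce
  rw [h2]

end MSc

end Pool.Agent.Helper67.GR
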