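import Pool.Agent.Helper67.GR.St3
import Pool.Agent.Helper67.GR.RegV

/-! # GR: gluing the regularity of a ball -/

namespace Pool.Agent.Helper67.GR

open Finset

theorem par_MSd {ℓ K : ℕ} (h2 : 2 ≤ ℓ) (h : Par ℓ K) :
    (2 : ℝ) ≤ ℓ ∧ (ℓ : ℝ) ^ 8 ≤ K ∧ (256 : ℝ) ≤ K := by
  have h3 : (2 : ℝ) ≤ ℓ := by exact_mod_cast h2
  have h4 : (ℓ : ℝ) ^ 8 ≤ K := by exact_mod_cast h.1
  refine ⟨h3, h4, ?_⟩
  have h5 : (2 : ℝ) ^ 8 ≤ (ℓ : ℝ) ^ 8 := pow_le_pow_left₀ (by norm_num) h3 8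
  linarith

theorem hh_nonneg_MSd (ℓ K : ℕ) {Λ : ℝ} (hΛ : 0 < Λ) (i : ℕ) : 0 ≤ hh ℓ K Λ i := by
  cases i with
  | zero => simp [hh]
  | succ i =>
    unfold hh
    positivity

theorem hh_mono_MSd {ℓ K : ℕ} {Λ : ℝ} (hΛ : 0 < Λ) (hK : (1 : ℝ) ≤ K) (i : ℕ) :
    hh ℓ K Λ i ≤ hh ℓ K Λ (i + 1) := by
  cases i with
  | zero =>
    unfold hh
    positivity
  | succ i =>
    unfold hh
    apply div_le_div_of_nonneg_right _ hΛ.le
    apply mul_le_mul_of_nonneg_left _ (by positivity)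
    exact pow_le_pow_right₀ (one_le_pow₀ hK) (Nat.le_succ i)

theorem lam_hh_MSd {ℓ K : ℕ} {Λ : ℝ} (hΛ : 0 < Λ) (hK : (0 : ℝ) < K) (i : ℕ) :
    lam K Λ (i + 1) * hh ℓ K Λ (i + 1) = ℓ / (K : ℝ) ^ 4 := by
  unfold lam hh
  have h1 : ((K : ℝ) ^ 5) ^ (i + 1) = ((K : ℝ) ^ 5) ^ i * (K : ℝ) ^ 5 := pow_succ _ _
  rw [h1]
  field_simp

theorem hMSd : StMSd := by
  refine ⟨2, fun ℓ K hℓ hpar n Λ c e i P hn hΛ he hl hr hlow => ?_⟩
  obtain ⟨hℓ2, hℓK, hK⟩ := par_MSd hℓ hpar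
  have hKpos : (0 : ℝ) < K := by linarith
  have hℓpos : (0 : ℝ) < ℓ := by linarith
  have he0 : 0 ≤ e := le_trans (by positivity) he
  have hh0 := hh_nonneg_MSd ℓ K hΛ i
  have hh1 := hh_mono_MSd (ℓ := ℓ) hΛ (by linarith : (1 : ℝ) ≤ K) i
  have hlam0 : 0 ≤ 2 * lam K Λ i := by
    unfold lam
    positivity
  have hmid : Reg n P (c - hh ℓ K Λ i) (c + hh ℓ K Λ i) (2 * lam K Λ i) (e / 4) := by
    intro c' d' θ h1 h2 h3 h4 h5 h6
    rcases Nat.eq_zero_or_pos i with hi | hi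
    · subst hi
      have h0 : hh ℓ K Λ 0 = 0 := rfl
      rw [h0] at h1 h3
      have e1 : c' = c := by linarith
      have e2 : d' = c := by linarith
      rw [e1, e2]
      have e3 : cnt P c c θ = 0 := by
        unfold cnt
        rw [Finset.card_eq_zero, Finset.filter_eq_empty_iff]
        rintro v _ ⟨g1, g2, _⟩
        linarith
      rw [e3]
      simp
      positivity
    · have hc1 : (cnt P c' d' θ : ℝ) ≤ e / 8 := by
        have g1 : (cnt P c' d' θ : ℝ) ≤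
            (cnt P (c - hh ℓ K Λ i) (c + hh ℓ K Λ i) (2 * lam K Λ i) : ℝ) := by
          unfold cnt
          exact_mod_cast Finset.card_le_card (by
            intro v hv
            rw [Finset.mem_filter] at hv ⊢
            exact ⟨hv.1, by linarith [hv.2.1], by linarith [hv.2.2.1],
              by linarith [hv.2.2.2]⟩)
        have g2 : (cnt P (c - hh ℓ K Λ i) (c + hh ℓ K Λ i) (2 * lam K Λ i) : ℝ) ≤ e / 8 := by
          by_contra hcon
          exact hlow ⟨hi, not_le.mp hcon⟩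
        linarith
      have hc0 : (0 : ℝ) ≤ (cnt P c' d' θ : ℝ) := Nat.cast_nonneg _
      have hm0 : 0 ≤ θ * (d' - c') := mul_nonneg h4 (by linarith)
      have hm1 : θ * (d' - c') ≤ e / 8 := by
        have g1 : θ * (d' - c') ≤ 2 * lam K Λ i * (2 * hh ℓ K Λ i) :=
          mul_le_mul h5 (by linarith) (by linarith) hlam0
        obtain ⟨j, rfl⟩ : ∃ j, i = j + 1 := ⟨i - 1, by omega⟩
        have g2 := lam_hh_MSd (ℓ := ℓ) hΛ hKpos j
        have g3 : 2 * lam K Λ (j + 1) * (2 * hh ℓ K Λ (j + 1)) = 4 * (ℓ / (K : ℝ) ^ 4) := by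
          rw [← g2]; ring
        rw [g3] at g1
        have g4 : 4 * (ℓ / (K : ℝ) ^ 4) ≤ (K : ℝ) / (1000 * ℓ) / 8 := by
          rw [div_div, ← mul_div_assoc, div_le_div_iff₀ (by positivity) (by positivity)]
          have q1 : (ℓ : ℝ) ^ 2 ≤ K := by
            refine le_trans ?_ hℓK
            exact pow_le_pow_right₀ (by linarith) (by norm_num)
          have q2 : (256 : ℝ) ^ 4 ≤ (K : ℝ) ^ 4 := pow_le_pow_left₀ (by norm_num) hK 4
          nlinarith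
        linarith
      rw [abs_le]
      constructor <;> linarith
  have g1 := reg_glue hl hmid (by linarith) (by linarith) hlam0 hn
  have g2 := reg_glue g1 hr (by linarith) (by linarith) hlam0 hn
  exact reg_mono g2 le_rfl le_rfl le_rfl (by linarith)

end Pool.Agent.Helper67.GR
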