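import Pool.Agent.Helper67.GR.St3
import Pool.Agent.Helper67.GR.Cher
import Pool.Agent.Helper67.GR.Fld

/-! # GR project, module MSl: few scales have many points of low label -/

namespace Pool.Agent.Helper67.GR

open Finset

/-- the scales (shifted by one) whose window contains `v` with low label -/
noncomputable def scF_MSl (ℓ K : ℕ) (Λ c : ℝ) (I : ℕ) (v : Pt) : Finset ℕ :=
  (range I).filter (fun i => c - hh ℓ K Λ (i + 1) ≤ v.1 ∧ v.1 < c + hh ℓ K Λ (i + 1) ∧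
    v.2 ≤ 2 * lam K Λ (i + 1))

theorem sum_scF_MSl (ℓ K : ℕ) (Λ c : ℝ) (I : ℕ) (Y : Finset Pt) :
    ∑ v ∈ Y, (scF_MSl ℓ K Λ c I v).card =
      ∑ i ∈ range I, cnt Y (c - hh ℓ K Λ (i + 1)) (c + hh ℓ K Λ (i + 1))
        (2 * lam K Λ (i + 1)) := by
  unfold scF_MSl cnt
  simp_rw [Finset.card_filter]
  rw [Finset.sum_comm]

theorem hh_mono_MSl {ℓ K : ℕ} {Λ : ℝ} (hK : 1 ≤ K) (hΛ : 0 < Λ) {i j : ℕ} (hij : i ≤ j) :
    hh ℓ K Λ i ≤ hh ℓ K Λ j := by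
  have hQ : (1 : ℝ) ≤ (K : ℝ) ^ 5 := one_le_pow₀ (by exact_mod_cast hK)
  rcases i with _ | i
  · rcases j with _ | j
    · exact le_rfl
    · show (0 : ℝ) ≤ ℓ * K * ((K : ℝ) ^ 5) ^ j / Λ
      positivity
  · rcases j with _ | j
    · omega
    · show (ℓ : ℝ) * K * ((K : ℝ) ^ 5) ^ i / Λ ≤ ℓ * K * ((K : ℝ) ^ 5) ^ j / Λ
      have h1 : ((K : ℝ) ^ 5) ^ i ≤ ((K : ℝ) ^ 5) ^ j :=
        pow_le_pow_right₀ hQ (by omega)
      have h2 : (ℓ : ℝ) * K * ((K : ℝ) ^ 5) ^ i ≤ ℓ * K * ((K : ℝ) ^ 5) ^ j :=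
        mul_le_mul_of_nonneg_left h1 (by positivity)
      exact div_le_div_of_nonneg_right h2 hΛ.le

/-- pointwise bound of the exponential weight -/
theorem exp_scF_MSl {ℓ K : ℕ} {Λ c : ℝ} {I : ℕ} (v : Pt) {A : ℝ} (hA : 1 ≤ A) :
    Real.exp (Real.log A * (scF_MSl ℓ K Λ c I v).card) - 1 ≤
      ∑ i ∈ range I, ∑ k ∈ range (I - i),
        if (c - hh ℓ K Λ (i + 1) ≤ v.1 ∧ v.1 < c + hh ℓ K Λ (i + 1) ∧
          v.2 ≤ 2 * lam K Λ (i + 1 + k)) then A ^ (k + 1) else 0 := by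
  have hA0 : 0 < A := zero_lt_one.trans_le hA
  have hterm : ∀ i k : ℕ, (0 : ℝ) ≤ if (c - hh ℓ K Λ (i + 1) ≤ v.1 ∧
      v.1 < c + hh ℓ K Λ (i + 1) ∧ v.2 ≤ 2 * lam K Λ (i + 1 + k)) then A ^ (k + 1) else 0 := by
    intro i k
    split_ifs
    · positivity
    · exact le_rfl
  have hexp : Real.exp (Real.log A * (scF_MSl ℓ K Λ c I v).card) =
      A ^ (scF_MSl ℓ K Λ c I v).card := by
    rw [mul_comm, Real.exp_nat_mul, Real.exp_log hA0]
  rw [hexp]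
  rcases (scF_MSl ℓ K Λ c I v).eq_empty_or_nonempty with h | h
  · rw [h, Finset.card_empty, pow_zero, sub_self]
    exact Finset.sum_nonneg (fun i _ => Finset.sum_nonneg (fun k _ => hterm i k))
  · set F := scF_MSl ℓ K Λ c I v with hF
    have h1 := F.min'_mem h
    have h2 := F.max'_mem h
    set i₁ := F.min' h with hi₁
    set j₁ := F.max' h with hj₁
    have hle : i₁ ≤ j₁ := F.min'_le _ h2
    have hsub : F ⊆ Icc i₁ j₁ := by
      intro x hx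
      rw [Finset.mem_Icc]
      exact ⟨F.min'_le _ hx, F.le_max' _ hx⟩
    have hcard : F.card ≤ (j₁ - i₁) + 1 := by
      have := Finset.card_le_card hsub
      rw [Nat.card_Icc] at this
      omega
    rw [hF] at h1 h2
    unfold scF_MSl at h1 h2
    rw [Finset.mem_filter, Finset.mem_range] at h1 h2
    have hkey : A ^ ((j₁ - i₁) + 1) ≤ ∑ i ∈ range I, ∑ k ∈ range (I - i),
        if (c - hh ℓ K Λ (i + 1) ≤ v.1 ∧ v.1 < c + hh ℓ K Λ (i + 1) ∧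
          v.2 ≤ 2 * lam K Λ (i + 1 + k)) then A ^ (k + 1) else 0 := by
      have e1 : (if (c - hh ℓ K Λ (i₁ + 1) ≤ v.1 ∧ v.1 < c + hh ℓ K Λ (i₁ + 1) ∧
          v.2 ≤ 2 * lam K Λ (i₁ + 1 + (j₁ - i₁))) then A ^ ((j₁ - i₁) + 1) else 0) =
          A ^ ((j₁ - i₁) + 1) := by
        rw [if_pos]
        refine ⟨h1.2.1, h1.2.2.1, ?_⟩
        have : i₁ + 1 + (j₁ - i₁) = j₁ + 1 := by omega
        rw [this]
        exact h2.2.2.2
      rw [← e1]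
      have e2 : (if (c - hh ℓ K Λ (i₁ + 1) ≤ v.1 ∧ v.1 < c + hh ℓ K Λ (i₁ + 1) ∧
          v.2 ≤ 2 * lam K Λ (i₁ + 1 + (j₁ - i₁))) then A ^ ((j₁ - i₁) + 1) else 0) ≤
          ∑ k ∈ range (I - i₁), if (c - hh ℓ K Λ (i₁ + 1) ≤ v.1 ∧ v.1 < c + hh ℓ K Λ (i₁ + 1) ∧
          v.2 ≤ 2 * lam K Λ (i₁ + 1 + k)) then A ^ (k + 1) else 0 := by
        apply Finset.single_le_sum (f := fun k => if (c - hh ℓ K Λ (i₁ + 1) ≤ v.1 ∧
          v.1 < c + hh ℓ K Λ (i₁ + 1) ∧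
          v.2 ≤ 2 * lam K Λ (i₁ + 1 + k)) then A ^ (k + 1) else 0) (fun k _ => hterm i₁ k)
        rw [Finset.mem_range]
        omega
      refine e2.trans ?_
      apply Finset.single_le_sum (f := fun i => ∑ k ∈ range (I - i),
        if (c - hh ℓ K Λ (i + 1) ≤ v.1 ∧ v.1 < c + hh ℓ K Λ (i + 1) ∧
          v.2 ≤ 2 * lam K Λ (i + 1 + k)) then A ^ (k + 1) else 0)
        (fun i _ => Finset.sum_nonneg (fun k _ => hterm i k))
      rw [Finset.mem_range]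
      exact h1.1
    have hpow : A ^ F.card ≤ A ^ ((j₁ - i₁) + 1) := pow_le_pow_right₀ hA hcard
    linarith

theorem geom_MSl (m : ℕ) : ∑ k ∈ range m, ((1 : ℝ) / 16) ^ k ≤ 16 / 15 := by
  rw [geom_sum_eq (by norm_num)]
  have : (0 : ℝ) ≤ (1 / 16) ^ m := by positivity
  rw [div_le_iff_of_neg (by norm_num)]
  linarith

/-- the exponential moment -/
theorem moment_MSl (G : Grid) {ℓ K : ℕ} {Λ c r : ℝ} {I : ℕ} (hℓ : 1 ≤ ℓ) (hK : 1 ≤ K)
    (hκ : G.κ * G.n ^ 4 ≤ 1) (hΛ : 0 < Λ) (hΛn : Λ ≤ 2 * G.n) (hr : r ≤ 1 / 2)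
    (h1 : -r < c - hh ℓ K Λ (I + 1)) (h2 : c + hh ℓ K Λ (I + 1) ≤ r)
    {A : ℝ} (hA : 1 ≤ A) (hAQ : A * (16 * ℓ * K) = (K : ℝ) ^ 5) :
    ∑ v ∈ G.sfld r, G.p * (Real.exp (Real.log A * (scF_MSl ℓ K Λ c I v).card) - 1) ≤
      (I : ℝ) / 3 + 1 := by
  have hA0 : 0 < A := zero_lt_one.trans_le hA
  have hp := G.p_pos
  have hκ0 := G.κ_pos
  have hn := G.n_one
  have hKr : (1 : ℝ) ≤ K := by exact_mod_cast hK
  have hℓr : (1 : ℝ) ≤ ℓ := by exact_mod_cast hℓ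
  have hK0 : (0 : ℝ) < K := by linarith
  have hℓ0 : (0 : ℝ) < ℓ := by linarith
  set Q : ℝ := (K : ℝ) ^ 5 with hQ
  have hQ1 : 1 ≤ Q := one_le_pow₀ hKr
  have hQ0 : 0 < Q := by linarith
  -- expand
  have step1 : ∑ v ∈ G.sfld r, G.p * (Real.exp (Real.log A * (scF_MSl ℓ K Λ c I v).card) - 1) ≤
      ∑ v ∈ G.sfld r, G.p * (∑ i ∈ range I, ∑ k ∈ range (I - i),
        if (c - hh ℓ K Λ (i + 1) ≤ v.1 ∧ v.1 < c + hh ℓ K Λ (i + 1) ∧
          v.2 ≤ 2 * lam K Λ (i + 1 + k)) then A ^ (k + 1) else 0) := by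
    apply Finset.sum_le_sum
    intro v _
    exact mul_le_mul_of_nonneg_left (exp_scF_MSl v hA) hp.le
  refine step1.trans ?_
  have step2 : ∑ v ∈ G.sfld r, G.p * (∑ i ∈ range I, ∑ k ∈ range (I - i),
        if (c - hh ℓ K Λ (i + 1) ≤ v.1 ∧ v.1 < c + hh ℓ K Λ (i + 1) ∧
          v.2 ≤ 2 * lam K Λ (i + 1 + k)) then A ^ (k + 1) else 0) =
      ∑ i ∈ range I, ∑ k ∈ range (I - i), A ^ (k + 1) *
        ∑ _v ∈ (G.sfld r).filter (fun v => c - hh ℓ K Λ (i + 1) ≤ v.1 ∧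
          v.1 < c + hh ℓ K Λ (i + 1) ∧ v.2 ≤ 2 * lam K Λ (i + 1 + k)), G.p := by
    simp_rw [Finset.mul_sum]
    rw [Finset.sum_comm]
    apply Finset.sum_congr rfl
    intro i _
    rw [Finset.sum_comm]
    apply Finset.sum_congr rfl
    intro k _
    rw [Finset.sum_filter]
    apply Finset.sum_congr rfl
    intro v _
    split_ifs <;> ring
  rw [step2]
  have hmono : ∀ i < I, hh ℓ K Λ (i + 1) ≤ hh ℓ K Λ (I + 1) := fun i hi =>
    hh_mono_MSl hK hΛ (by omega)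
  have hhh0 : ∀ i, 0 ≤ hh ℓ K Λ (i + 1) := by
    intro i
    show (0 : ℝ) ≤ ℓ * K * ((K : ℝ) ^ 5) ^ i / Λ
    positivity
  have hlam0 : ∀ i, 0 ≤ lam K Λ i := by
    intro i
    unfold lam
    positivity
  -- Q ^ I ≤ n
  have hQI : Q ^ I ≤ G.n := by
    have e1 : hh ℓ K Λ (I + 1) ≤ 1 / 2 := by linarith
    have e2 : (ℓ : ℝ) * K * Q ^ I / Λ ≤ 1 / 2 := e1
    rw [div_le_iff₀ hΛ] at e2
    have e3 : Q ^ I ≤ (ℓ : ℝ) * K * Q ^ I := by
      have : (1 : ℝ) ≤ ℓ * K := by nlinarith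
      have hq : 0 ≤ Q ^ I := by positivity
      nlinarith
    linarith
  have hAI : (I : ℝ) * (I * (G.κ * A ^ I)) ≤ 1 := by
    have e1 : A ^ I * 16 ^ I ≤ Q ^ I := by
      rw [← mul_pow]
      apply pow_le_pow_left₀ (by positivity)
      have : (1 : ℝ) ≤ ℓ * K := by nlinarith
      nlinarith
    have e2 : (I : ℝ) ≤ 4 ^ I := by
      have : I < 4 ^ I := Nat.lt_pow_self (by norm_num)
      exact_mod_cast this.le
    have e3 : (I : ℝ) * I ≤ 16 ^ I := by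
      have : (16 : ℝ) ^ I = 4 ^ I * 4 ^ I := by rw [← mul_pow]; norm_num
      rw [this]
      exact mul_le_mul e2 e2 (by positivity) (by positivity)
    have e4 : G.n ≤ G.n ^ 4 := by
      calc G.n = G.n ^ 1 := (pow_one _).symm
        _ ≤ G.n ^ 4 := pow_le_pow_right₀ hn (by norm_num)
    have hAI0 : 0 ≤ A ^ I := by positivity
    calc (I : ℝ) * (I * (G.κ * A ^ I)) = G.κ * ((I * I) * A ^ I) := by ring
      _ ≤ G.κ * (16 ^ I * A ^ I) := by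
          apply mul_le_mul_of_nonneg_left _ hκ0
          exact mul_le_mul_of_nonneg_right e3 hAI0
      _ ≤ G.κ * G.n ^ 4 := by
          apply mul_le_mul_of_nonneg_left _ hκ0
          linarith
      _ ≤ 1 := hκ
  -- bound each term
  have hterm : ∀ i ∈ range I, ∀ k ∈ range (I - i), A ^ (k + 1) *
        ∑ _v ∈ (G.sfld r).filter (fun v => c - hh ℓ K Λ (i + 1) ≤ v.1 ∧
          v.1 < c + hh ℓ K Λ (i + 1) ∧ v.2 ≤ 2 * lam K Λ (i + 1 + k)), G.p ≤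
        1 / 4 * (1 / 16) ^ k + G.κ * A ^ I := by
    intro i hi k hk
    rw [Finset.mem_range] at hi hk
    have hm := hmono i hi
    have hsub : (G.sfld r).filter (fun v => c - hh ℓ K Λ (i + 1) ≤ v.1 ∧
          v.1 < c + hh ℓ K Λ (i + 1) ∧ v.2 ≤ 2 * lam K Λ (i + 1 + k)) ⊆
        (G.fld (c - hh ℓ K Λ (i + 1)) (c + hh ℓ K Λ (i + 1))).filter
          (fun v => v.2 ≤ 2 * lam K Λ (i + 1 + k)) := by
      intro v hv
      rw [Finset.mem_filter] at hv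
      obtain ⟨hv1, hv2, hv3, hv4⟩ := hv
      unfold Grid.sfld at hv1
      rw [Finset.mem_product, Finset.mem_filter] at hv1
      rw [Finset.mem_filter, mem_fld]
      exact ⟨⟨hv1.1.1, hv1.2, hv2, hv3⟩, hv4⟩
    have hs1 : ∑ _v ∈ (G.sfld r).filter (fun v => c - hh ℓ K Λ (i + 1) ≤ v.1 ∧
          v.1 < c + hh ℓ K Λ (i + 1) ∧ v.2 ≤ 2 * lam K Λ (i + 1 + k)), G.p ≤
        2 * lam K Λ (i + 1 + k) * ((c + hh ℓ K Λ (i + 1)) - (c - hh ℓ K Λ (i + 1))) + G.κ := by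
      refine (Finset.sum_le_sum_of_subset_of_nonneg hsub (fun _ _ _ => hp.le)).trans ?_
      apply mean_le' G _ _ _ (by linarith) (by linarith [hhh0 i]) (by linarith)
      have := hlam0 (i + 1 + k)
      positivity
    have hprod : lam K Λ (i + 1 + k) * hh ℓ K Λ (i + 1) = ℓ * K / Q ^ (k + 1) := by
      show Λ / Q ^ (i + 1 + k) * (ℓ * K * Q ^ i / Λ) = ℓ * K / Q ^ (k + 1)
      have : Q ^ (i + 1 + k) = Q ^ i * Q ^ (k + 1) := by rw [← pow_add]; congr 1; omega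
      rw [this]
      field_simp
    have hAQk : A ^ (k + 1) * (ℓ * K / Q ^ (k + 1)) ≤ 1 / 16 * (1 / 16) ^ k := by
      have e1 : A / Q = 1 / (16 * ℓ * K) := by
        rw [div_eq_div_iff hQ0.ne' (by positivity)]
        linarith
      have e2 : A ^ (k + 1) * (ℓ * K / Q ^ (k + 1)) = ℓ * K * (A / Q) ^ (k + 1) := by
        rw [div_pow]; ring
      have e3 : (1 : ℝ) / (16 * ℓ * K) ≤ 1 / 16 := by
        apply div_le_div_of_nonneg_left (by norm_num) (by norm_num)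
        have : (1 : ℝ) ≤ ℓ * K := by nlinarith
        nlinarith
      rw [e2, e1, pow_succ]
      calc (ℓ : ℝ) * K * ((1 / (16 * ℓ * K)) ^ k * (1 / (16 * ℓ * K)))
          = 1 / 16 * (1 / (16 * ℓ * K)) ^ k := by field_simp
        _ ≤ 1 / 16 * (1 / 16) ^ k := by
            apply mul_le_mul_of_nonneg_left _ (by norm_num)
            exact pow_le_pow_left₀ (by positivity) e3 k
    have hAk : A ^ (k + 1) ≤ A ^ I := pow_le_pow_right₀ hA (by omega)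
    have hAk0 : 0 ≤ A ^ (k + 1) := by positivity
    calc A ^ (k + 1) * ∑ _v ∈ (G.sfld r).filter (fun v => c - hh ℓ K Λ (i + 1) ≤ v.1 ∧
          v.1 < c + hh ℓ K Λ (i + 1) ∧ v.2 ≤ 2 * lam K Λ (i + 1 + k)), G.p
        ≤ A ^ (k + 1) * (2 * lam K Λ (i + 1 + k) *
          ((c + hh ℓ K Λ (i + 1)) - (c - hh ℓ K Λ (i + 1))) + G.κ) :=
          mul_le_mul_of_nonneg_left hs1 hAk0
      _ = 4 * (A ^ (k + 1) * (lam K Λ (i + 1 + k) * hh ℓ K Λ (i + 1))) + G.κ * A ^ (k + 1) := by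
          ring
      _ = 4 * (A ^ (k + 1) * (ℓ * K / Q ^ (k + 1))) + G.κ * A ^ (k + 1) := by rw [hprod]
      _ ≤ 4 * (1 / 16 * (1 / 16) ^ k) + G.κ * A ^ I := by
          have := mul_le_mul_of_nonneg_left hAk hκ0
          linarith
      _ = 1 / 4 * (1 / 16) ^ k + G.κ * A ^ I := by ring
  have hAI0 : 0 ≤ G.κ * A ^ I := by positivity
  calc ∑ i ∈ range I, ∑ k ∈ range (I - i), A ^ (k + 1) *
        ∑ _v ∈ (G.sfld r).filter (fun v => c - hh ℓ K Λ (i + 1) ≤ v.1 ∧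
          v.1 < c + hh ℓ K Λ (i + 1) ∧ v.2 ≤ 2 * lam K Λ (i + 1 + k)), G.p
      ≤ ∑ i ∈ range I, ∑ k ∈ range (I - i), (1 / 4 * (1 / 16) ^ k + G.κ * A ^ I) :=
        Finset.sum_le_sum (fun i hi => Finset.sum_le_sum (fun k hk => hterm i hi k hk))
    _ ≤ ∑ i ∈ range I, (1 / 3 + I * (G.κ * A ^ I)) := by
        apply Finset.sum_le_sum
        intro i hi
        rw [Finset.sum_add_distrib, ← Finset.mul_sum, Finset.sum_const, Finset.card_range,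
          nsmul_eq_mul]
        have g1 := geom_MSl (I - i)
        have g2 : ((I - i : ℕ) : ℝ) ≤ I := by exact_mod_cast Nat.sub_le I i
        have g3 := mul_le_mul_of_nonneg_right g2 hAI0
        linarith
    _ = (I : ℝ) / 3 + I * (I * (G.κ * A ^ I)) := by
        rw [Finset.sum_const, Finset.card_range, nsmul_eq_mul]
        ring
    _ ≤ (I : ℝ) / 3 + 1 := by linarith

/-- the event forces a large exponential weight -/
theorem event_MSl {ℓ K : ℕ} {Λ c e : ℝ} {I : ℕ} {E Y : Finset Pt} (hK : 1 ≤ K) (hΛ : 0 < Λ)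
    (he : 0 ≤ e)
    (hE : ∀ v ∈ E, v.1 < c - hh ℓ K Λ (I + 1) ∨ c + hh ℓ K Λ (I + 1) ≤ v.1)
    {S : Finset ℕ} (hS : S ⊆ range (I + 1)) (hc : I + 1 ≤ 2 * S.card)
    (hL : ∀ i ∈ S, Low ℓ K Λ c e i (Y ∪ E)) :
    ((I : ℝ) + 1) * (e / 16) ≤ ((∑ v ∈ Y, (scF_MSl ℓ K Λ c I v).card : ℕ) : ℝ) := by
  rw [sum_scF_MSl]
  have hD : ∀ i ∈ S, e / 8 ≤ (cnt Y (c - hh ℓ K Λ i) (c + hh ℓ K Λ i) (2 * lam K Λ i) : ℝ) := by
    intro i hi
    obtain ⟨_, h2⟩ := hL i hi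
    have h3 : cnt (Y ∪ E) (c - hh ℓ K Λ i) (c + hh ℓ K Λ i) (2 * lam K Λ i) =
        cnt Y (c - hh ℓ K Λ i) (c + hh ℓ K Λ i) (2 * lam K Λ i) := by
      unfold cnt
      congr 1
      ext v
      rw [Finset.mem_filter, Finset.mem_filter, Finset.mem_union]
      constructor
      · rintro ⟨h | h, ha, hb, hθ⟩
        · exact ⟨h, ha, hb, hθ⟩
        · exfalso
          have hi' : i ≤ I + 1 := by
            have := Finset.mem_range.1 (hS hi)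
            omega
          have hm : hh ℓ K Λ i ≤ hh ℓ K Λ (I + 1) := hh_mono_MSl hK hΛ hi'
          rcases hE v h with h' | h'
          · linarith
          · linarith
      · rintro ⟨h, ha, hb, hθ⟩
        exact ⟨Or.inl h, ha, hb, hθ⟩
    rw [h3] at h2
    exact h2.le
  have h0 : cnt Y (c - hh ℓ K Λ 0) (c + hh ℓ K Λ 0) (2 * lam K Λ 0) = 0 := by
    unfold cnt
    rw [Finset.card_eq_zero, Finset.filter_eq_empty_iff]
    rintro v _ ⟨ha, hb, _⟩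
    have : hh ℓ K Λ 0 = 0 := rfl
    rw [this] at ha hb
    linarith
  have hsum : ∑ i ∈ range I, cnt Y (c - hh ℓ K Λ (i + 1)) (c + hh ℓ K Λ (i + 1))
        (2 * lam K Λ (i + 1)) =
      ∑ i ∈ range (I + 1), cnt Y (c - hh ℓ K Λ i) (c + hh ℓ K Λ i) (2 * lam K Λ i) := by
    rw [Finset.sum_range_succ', h0, add_zero]
  rw [hsum, Nat.cast_sum]
  have hle : ∑ i ∈ S, (cnt Y (c - hh ℓ K Λ i) (c + hh ℓ K Λ i) (2 * lam K Λ i) : ℝ) ≤
      ∑ i ∈ range (I + 1), (cnt Y (c - hh ℓ K Λ i) (c + hh ℓ K Λ i) (2 * lam K Λ i) : ℝ) :=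
    Finset.sum_le_sum_of_subset_of_nonneg hS (fun _ _ _ => Nat.cast_nonneg _)
  have hge : (S.card : ℝ) * (e / 8) ≤
      ∑ i ∈ S, (cnt Y (c - hh ℓ K Λ i) (c + hh ℓ K Λ i) (2 * lam K Λ i) : ℝ) := by
    rw [← nsmul_eq_mul, ← Finset.sum_const]
    exact Finset.sum_le_sum hD
  have hc' : ((I : ℝ) + 1) ≤ 2 * S.card := by exact_mod_cast hc
  have h4 := mul_le_mul_of_nonneg_right hc' (by linarith : (0 : ℝ) ≤ e / 16)
  linarith

theorem hMSl : StMSl := by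
  intro T
  refine ⟨16000 * (T + 1), ?_⟩
  intro ℓ K hℓ₀ hPar G Λ c r e I E hM
  obtain ⟨hκ, hΛ, hΛn, he, hr, h1, h2, hLab, hE⟩ := hM
  obtain ⟨hK1, -⟩ := hPar
  have hℓ16000 : 16000 ≤ ℓ := by nlinarith
  have hℓ1 : 1 ≤ ℓ := by omega
  have hK1' : ℓ ^ 7 * ℓ ≤ K := by rw [← pow_succ]; exact hK1
  have hℓ7 : ℓ ≤ ℓ ^ 7 := by
    calc ℓ = ℓ ^ 1 := (pow_one _).symm
      _ ≤ ℓ ^ 7 := Nat.pow_le_pow_right hℓ1 (by norm_num)
  have hK16 : 16 * ℓ ≤ K := by nlinarith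
  have hK : 1 ≤ K := by omega
  have hK3 : 3 ≤ K := by omega
  have hKr : (1 : ℝ) ≤ K := by exact_mod_cast hK
  have hℓr : (1 : ℝ) ≤ ℓ := by exact_mod_cast hℓ1
  have hK0 : (0 : ℝ) < K := by linarith
  have hℓ0 : (0 : ℝ) < ℓ := by linarith
  have he0 : 0 ≤ e := le_trans (by positivity) he
  set A : ℝ := (K : ℝ) ^ 5 / (16 * ℓ * K) with hAdef
  have hAQ : A * (16 * ℓ * K) = (K : ℝ) ^ 5 := by
    rw [hAdef]; field_simp
  have hA3 : (K : ℝ) ^ 3 ≤ A := by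
    rw [hAdef, le_div_iff₀ (by positivity)]
    have : (16 : ℝ) * ℓ ≤ K := by exact_mod_cast hK16
    calc (K : ℝ) ^ 3 * (16 * ℓ * K) = (K : ℝ) ^ 4 * (16 * (ℓ : ℝ)) := by ring
      _ ≤ (K : ℝ) ^ 4 * (K : ℝ) := mul_le_mul_of_nonneg_left this (by positivity)
      _ = (K : ℝ) ^ 5 := by ring
  have hA1 : 1 ≤ A := le_trans (one_le_pow₀ hKr) hA3
  have hlogK : 1 ≤ Real.log K := by
    rw [Real.le_log_iff_exp_le hK0]
    have h3 : (3 : ℝ) ≤ K := by exact_mod_cast hK3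
    have := Real.exp_one_lt_d9
    linarith
  have hlogA : 3 * Real.log K ≤ Real.log A := by
    have := Real.log_le_log (by positivity) hA3
    rw [Real.log_pow] at this
    exact_mod_cast this
  have hlogA0 : 0 ≤ Real.log A := by linarith
  have hpq := sfld_pq G r
  have hmom := moment_MSl G hℓ1 hK hκ hΛ hΛn hr h1 h2 hA1 hAQ
  set t : ℝ := Real.log A * (((I : ℝ) + 1) * (e / 16)) with ht
  have hev : prob (fun _ => G.p) (G.sfld r)
      (fun Y => ∃ S ⊆ range (I + 1), I + 1 ≤ 2 * S.card ∧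
        ∀ i ∈ S, Low ℓ K Λ c e i (Y ∪ E)) ≤
      prob (fun _ => G.p) (G.sfld r) (fun Y => Real.exp t ≤
        Real.exp (∑ v ∈ Y, Real.log A * ((scF_MSl ℓ K Λ c I v).card : ℝ))) := by
    apply prob_mono hpq
    rintro Y _ ⟨S, hS, hcS, hL⟩
    rw [Real.exp_le_exp, ← Finset.mul_sum, ht]
    apply mul_le_mul_of_nonneg_left _ hlogA0
    have := event_MSl (Y := Y) hK hΛ he0 hE hS hcS hL
    push_cast at this
    exact this
  have hmk := prob_markov hpq (f := fun Y => Real.exp (∑ v ∈ Y, Real.log A *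
    ((scF_MSl ℓ K Λ c I v).card : ℝ))) (fun _ _ => (Real.exp_pos _).le) (Real.exp_pos t)
  have hb := bern_exp_sum_le hpq (fun v => Real.log A * ((scF_MSl ℓ K Λ c I v).card : ℝ))
  have hb2 : bern (fun _ => G.p) (G.sfld r) (fun Y => Real.exp (∑ v ∈ Y, Real.log A *
      ((scF_MSl ℓ K Λ c I v).card : ℝ))) ≤ Real.exp ((I : ℝ) / 3 + 1) :=
    hb.trans (Real.exp_le_exp.2 hmom)
  have hfin : prob (fun _ => G.p) (G.sfld r)
      (fun Y => ∃ S ⊆ range (I + 1), I + 1 ≤ 2 * S.card ∧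
        ∀ i ∈ S, Low ℓ K Λ c e i (Y ∪ E)) ≤ Real.exp ((I : ℝ) / 3 + 1 - t) := by
    rw [Real.exp_sub]
    exact hev.trans (hmk.trans (div_le_div_of_nonneg_right hb2 (Real.exp_pos t).le))
  refine hfin.trans ?_
  have hKpow : (1 : ℝ) / (K : ℝ) ^ (T * (I + 1)) =
      Real.exp (-(((T * (I + 1) : ℕ) : ℝ) * Real.log K)) := by
    rw [Real.exp_neg, Real.exp_nat_mul, Real.exp_log hK0, one_div]
  rw [hKpow, Real.exp_le_exp]
  -- e ≥ ℓ^7/1000
  have heℓ : 16 * ((T : ℝ) + 1) ≤ e := by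
    refine le_trans ?_ he
    rw [le_div_iff₀ (by positivity)]
    have g1 : ((ℓ ^ 7 * ℓ : ℕ) : ℝ) ≤ K := by exact_mod_cast hK1'
    have g2 : ((16000 * (T + 1) : ℕ) : ℝ) ≤ ((ℓ ^ 7 : ℕ) : ℝ) := by
      exact_mod_cast hℓ₀.trans hℓ7
    push_cast at g1 g2
    have g3 := mul_le_mul_of_nonneg_right g2 hℓ0.le
    linarith
  have hT0 : (0 : ℝ) ≤ T := Nat.cast_nonneg T
  have hae : 3 * Real.log K * ((T : ℝ) + 1) ≤ Real.log A * (e / 16) := by
    apply mul_le_mul hlogA (by linarith) (by positivity) hlogA0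
  have hI0 : (0 : ℝ) ≤ I := Nat.cast_nonneg I
  have hmain : 1 + (T : ℝ) * Real.log K ≤ Real.log A * (e / 16) := by
    refine le_trans ?_ hae
    have : 0 ≤ (T : ℝ) * Real.log K := by positivity
    nlinarith
  have hmul := mul_le_mul_of_nonneg_left hmain (by linarith : (0 : ℝ) ≤ (I : ℝ) + 1)
  have ht' : t = ((I : ℝ) + 1) * (Real.log A * (e / 16)) := by rw [ht]; ring
  rw [ht']
  push_cast
  nlinarith

end Pool.Agent.Helper67.GR
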