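import Pool.Agent.Helper67.GR.St5

/-! # GR module Main: the main theorem for the Bernoulli grid -/

namespace Pool.Agent.Helper67.GR

open Finset

theorem exists_par_Main (ℓ₀ K : ℕ) (h : ℓ₀ ^ 8 ≤ K) : ∃ ℓ, ℓ₀ ≤ ℓ ∧ Par ℓ K := by
  classical
  set ℓ := Nat.findGreatest (fun l => l ^ 8 ≤ K) K with hℓ
  have h0 : (0 : ℕ) ^ 8 ≤ K := by simp
  have h1 : ℓ ^ 8 ≤ K := Nat.findGreatest_spec (P := fun l => l ^ 8 ≤ K) (Nat.zero_le K) h0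
  have h2 : K < (ℓ + 1) ^ 8 := by
    by_contra hcon
    push Not at hcon
    have h3 : ℓ + 1 ≤ K := (Nat.le_self_pow (by norm_num) _).trans hcon
    have h4 := Nat.le_findGreatest (P := fun l => l ^ 8 ≤ K) h3 hcon
    omega
  refine ⟨ℓ, ?_, h1, h2⟩
  have h3 : ℓ₀ ≤ K := by
    refine le_trans ?_ h
    exact Nat.le_self_pow (by norm_num) _
  exact Nat.le_findGreatest (P := fun l => l ^ 8 ≤ K) h3 h

theorem hMain (ht : StTot) (hs : StStuck) : StMain := by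
  intro ε δ hε hε8 hδ
  obtain ⟨C₁, hC₁, h1⟩ := ht
  obtain ⟨ℓ₁, h2⟩ := h1 ε hε hε8
  obtain ⟨ℓ₂, h3⟩ := hs ε hε hε8
  refine ⟨max ((max ℓ₁ ℓ₂) ^ 8) (⌈8 / δ⌉₊ + 1), 2 * C₁ / δ, by positivity, ?_⟩
  intro K hK
  have hK1 : (max ℓ₁ ℓ₂) ^ 8 ≤ K := (le_max_left _ _).trans hK
  have hK2 : ⌈8 / δ⌉₊ + 1 ≤ K := (le_max_right _ _).trans hK
  obtain ⟨ℓ, hℓ, hPar⟩ := exists_par_Main _ K hK1
  obtain ⟨n₁, h4⟩ := h2 ℓ K ((le_max_left _ _).trans hℓ) hPar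
  obtain ⟨n₂, h5⟩ := h3 ℓ K ((le_max_right _ _).trans hℓ) hPar
  refine ⟨max (max n₁ n₂) 3, ?_⟩
  intro G s t hn hS hκ
  have hn1 : n₁ ≤ G.n := ((le_max_left _ _).trans (le_max_left _ _)).trans hn
  have hn2 : n₂ ≤ G.n := ((le_max_right _ _).trans (le_max_left _ _)).trans hn
  have hn3 : (3 : ℝ) ≤ G.n := (le_max_right _ _).trans hn
  have hlog : 0 < Real.log G.n := Real.log_pos (by linarith)
  obtain ⟨Ψ, hΨ0, hΨ1, hΨ2⟩ := h4 G s t hn1 hS hκ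
  have h6 := h5 G s t hn2 hS hκ
  have hpq : Pq (fun _ : Pt => G.p) (G.sfld (rr ε)) :=
    fun _ _ => ⟨G.p_pos.le, G.p_le.trans (by norm_num)⟩
  have hB : 0 < 2 * C₁ / δ * Real.log G.n := by positivity
  have h7 : prob (fun _ => G.p) (G.sfld (rr ε))
      (fun Y => 2 * C₁ / δ * Real.log G.n ≤ Ψ Y) ≤ δ / 2 := by
    refine (prob_markov hpq (f := Ψ) (fun X _ => hΨ0 X) hB).trans ?_
    rw [div_le_iff₀ hB]
    refine hΨ1.trans (le_of_eq ?_)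
    field_simp
  have h8 : 4 / (K : ℝ) ≤ δ / 2 := by
    have h9 : 8 / δ ≤ (K : ℝ) := by
      calc 8 / δ ≤ (⌈8 / δ⌉₊ : ℝ) := Nat.le_ceil _
        _ ≤ K := by exact_mod_cast (Nat.le_succ _).trans hK2
    have hKpos : (0 : ℝ) < K := lt_of_lt_of_le (by positivity) h9
    rw [div_le_iff₀ hδ] at h9
    rw [div_le_iff₀ hKpos]
    linarith
  refine (prob_le_of_le_add hpq (B := fun Y => 2 * C₁ / δ * Real.log G.n ≤ Ψ Y)
    (C := fun Y => ∃ Z, OutOk G.n (rr ε) Z ∧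
    ∃ (v : ℕ → Pt) (m : ℕ), IsPath K (cfg Y Z s t) s v m ∧ v m ≠ t ∧ (v m).1 ≠ 0 ∧
      StuckAt K (cfg Y Z s t) (v m)) ?_).trans ?_
  · rintro Y hY ⟨Z, hZ, v, m, hpath, hor⟩
    rcases hor with hor | hor
    · left
      have h9 := hΨ2 Y hY Z hZ v m hpath
      linarith
    · right
      exact ⟨Z, hZ, v, m, hpath, hor.1, hor.2.1, hor.2.2⟩
  · linarith

end Pool.Agent.Helper67.GR
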