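import Pool.Agent.Helper67.GR.B20
import Pool.Agent.Helper67.GR.RegV
import Pool.Agent.Helper67.GR.Local

/-! # GR project, module MidE: boxes at moderate distance -/

namespace Pool.Agent.Helper67.GR

open Finset

/-- the bad event -/
def Bad_MidE (n : ℝ) (K ℓ : ℕ) (L A₀ y z : ℝ) (s t : Pt) (Y : Finset Pt) : Prop :=
  (¬ Reg n (Y ∪ {s, t}) (A₀ - 30 * K / L) (y + 30 * K / L) (2 * L) (K / (400 * ℓ))) ∨
  ∃ u ∈ Y ∪ {s, t}, A₀ ≤ u.1 ∧ u.1 < A₀ + 5 * K / L ∧ Stay K (Y ∪ {s, t}) (L / 8) z u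

/-- probability that the field is not regular -/
lemma reg_MidE {G : Grid} {r a b Λ e σ : ℝ} (s t : Pt)
    (ha : -r < a) (hb : b ≤ r)
    (h : G.pr a b (fun Y => ¬ Reg G.n Y a b Λ (e - 2)) ≤ σ) :
    prob (fun _ => G.p) (G.sfld r) (fun Y => ¬ Reg G.n (Y ∪ {s, t}) a b Λ e) ≤ σ := by
  refine le_trans ?_ h
  rw [← pr_marginal_sfld G ha hb]
  · apply prob_mono (sfld_pq G r)
    intro Y _ h1 h2
    apply h1
    have h3 := reg_union (Q := ({s, t} : Finset Pt)) h2
    refine reg_mono h3 le_rfl le_rfl le_rfl ?_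
    have h4 : (({s, t} : Finset Pt).card : ℝ) ≤ 2 := by exact_mod_cast card_le_two
    linarith
  · intro X hX
    apply not_congr
    apply reg_congr
    intro p hp1 hp2
    rw [mem_inter]
    constructor
    · intro hp
      have := B20.mem_sfld.1 (hX hp)
      exact ⟨hp, (mem_fld G).2 ⟨this.1, this.2.2, hp1, hp2⟩⟩
    · exact fun hp => hp.1

/-- probability of a stay from the window -/
lemma win_MidE {G : Grid} {K : ℕ} {r ε A₀ w z Λ σ : ℝ} {s t : Pt} (hS : HypS ε G.n s t)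
    (hA₀ : -r < A₀) (hAε : -ε < A₀) (hwz : w ≤ z) (hz : z ≤ 0) (hr : 0 ≤ r)
    (h : ∀ ω : Finset Pt, Lab G.n ω → (∀ v ∈ ω, v.1 < A₀) →
      G.pr A₀ z (fun Y => ∃ v ∈ Y, v.1 < w ∧ Stay K (ω ∪ Y) Λ z v) ≤ σ) :
    prob (fun _ => G.p) (G.sfld r)
      (fun Y => ∃ u ∈ Y ∪ {s, t}, A₀ ≤ u.1 ∧ u.1 < w ∧ Stay K (Y ∪ {s, t}) Λ z u) ≤ σ := by
  classical
  obtain ⟨hε, -, hs1, -, hs2, hs3, ht1, ht2, ht3⟩ := hS
  have hsub : G.fld A₀ z ⊆ G.sfld r := fld_subset_sfld G hA₀ (hz.trans hr)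
  have hd : Disjoint (G.sfld r \ G.fld A₀ z) (G.fld A₀ z) := sdiff_disjoint
  have hun : G.sfld r = (G.sfld r \ G.fld A₀ z) ∪ G.fld A₀ z := (sdiff_union_of_subset hsub).symm
  have hpq : Pq (fun _ : Pt => G.p) (G.sfld r \ G.fld A₀ z) :=
    (sfld_pq G r).mono sdiff_subset
  have hs_not : ∀ x : ℝ, x = s.1 → A₀ ≤ x → x < z → False := by
    intro x hx h1 h2
    have h3 : |x| < ε := by
      rw [abs_lt]
      exact ⟨by linarith, by linarith⟩
    rw [hx] at h3
    linarith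
  unfold prob
  rw [hun]
  have hσ : σ = bern (fun _ => G.p) (G.sfld r \ G.fld A₀ z) (fun _ => σ) := (bern_const _ _ _).symm
  rw [hσ]
  apply bern_union_le hpq hd
  intro X hX
  set ω : Finset Pt := (X ∪ {s, t}).filter (fun v => v.1 < A₀) with hω
  have hlab : Lab G.n ω := by
    intro v hv
    rw [hω, mem_filter, mem_union, B20.mem_pair] at hv
    rcases hv.1 with h1 | h1 | h1
    · exact G.Ts_mem v.2 (B20.mem_sfld.1 (mem_sdiff.1 (hX h1)).1).2.2
    · rw [h1]; exact ⟨hs2, hs3⟩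
    · rw [h1]; exact ⟨ht2, ht3⟩
  have hpos : ∀ v ∈ ω, v.1 < A₀ := fun v hv => (mem_filter.1 hv).2
  refine le_trans ?_ (h ω hlab hpos)
  unfold Grid.pr
  apply prob_mono (fld_pq G A₀ z)
  intro Y hY hex
  obtain ⟨u, hu, hu1, hu2, hu3⟩ := hex
  -- points of `X` are not in the strip
  have hXs : ∀ p ∈ X, p.1 < z → p.1 < A₀ := by
    intro p hp hpz
    by_contra hcon
    have h1 := mem_sdiff.1 (hX hp)
    have h2 := B20.mem_sfld.1 h1.1
    exact h1.2 ((mem_fld G).2 ⟨h2.1, h2.2.2, not_lt.1 hcon, hpz⟩)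
  have hagree : ∀ p : Pt, p.1 < z → (p ∈ X ∪ Y ∪ {s, t} ↔ p ∈ ω ∪ Y) := by
    intro p hpz
    rw [mem_union, mem_union, mem_union, hω, mem_filter, mem_union]
    constructor
    · rintro ((h1 | h1) | h1)
      · exact Or.inl ⟨Or.inl h1, hXs p h1 hpz⟩
      · exact Or.inr h1
      · left
        refine ⟨Or.inr h1, ?_⟩
        by_contra hcon
        rw [B20.mem_pair] at h1
        rcases h1 with h1 | h1
        · exact hs_not p.1 (by rw [h1]) (not_lt.1 hcon) hpz
        · rw [h1, ht1] at hpz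
          linarith
    · rintro (⟨h1 | h1, -⟩ | h1)
      · exact Or.inl (Or.inl h1)
      · exact Or.inr h1
      · exact Or.inl (Or.inr h1)
  have huz : u.1 < z := lt_of_lt_of_le hu2 hwz
  refine ⟨u, ?_, hu2, (stay_local hagree hz).1 hu3⟩
  have h1 := (hagree u huz).1 hu
  rw [mem_union] at h1
  rcases h1 with h1 | h1
  · exact absurd (hpos u h1) (not_lt.2 hu1)
  · exact h1

/-- numerical facts about the parameters -/
lemma par_MidE {ℓ K : ℕ} (hℓ : 60 ≤ ℓ) (hK : ℓ ^ 8 ≤ K) :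
    6 ≤ K ∧ (K : ℝ) / (5000 * ℓ) ≤ K / (400 * ℓ) - 2 := by
  have h1 : 60 ^ 7 * ℓ ≤ K := by
    calc 60 ^ 7 * ℓ ≤ ℓ ^ 7 * ℓ := by gcongr
      _ = ℓ ^ 8 := by ring
      _ ≤ K := hK
  have h2 : (60 : ℝ) ^ 7 * ℓ ≤ K := by exact_mod_cast h1
  have hℓ0 : (0 : ℝ) < ℓ := by exact_mod_cast (by omega : 0 < ℓ)
  refine ⟨by omega, ?_⟩
  have h3 : (60 : ℝ) ^ 7 ≤ K / ℓ := by rw [le_div_iff₀ hℓ0]; exact h2
  have e1 : (K : ℝ) / (5000 * ℓ) = (K / ℓ) / 5000 := by field_simp
  have e2 : (K : ℝ) / (400 * ℓ) = (K / ℓ) / 400 := by field_simp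
  rw [e1, e2]
  norm_num at h3
  linarith

theorem hMidE (hbtr : StBTR) (hfb : StFB) (hrp : StRP) (hpi : StPI) : StMidE := by
  intro T
  obtain ⟨ℓ₁, hbtr⟩ := hbtr
  obtain ⟨ℓ₂, hfb⟩ := hfb (2 * T + 4)
  obtain ⟨ℓ₃, hrp⟩ := hrp (2 * T + 4)
  refine ⟨ℓ₁ + ℓ₂ + ℓ₃, ?_⟩
  intro ℓ K hℓ hpar ε G L s t j hL hj60 hjℓ
  obtain ⟨hS, hκ, hL0, hLn, hεR⟩ := hL
  have hS' := hS
  obtain ⟨hε, hε8, hs1, hsh, hs2, hs3, ht1, ht2, ht3⟩ := hS'
  have hℓ60 : 60 ≤ ℓ := hj60.trans hjℓ
  obtain ⟨hK6, htol⟩ := par_MidE hℓ60 hpar.1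
  have hK0 : (0 : ℝ) < K := by exact_mod_cast (by omega : 0 < K)
  set R : ℝ := (K : ℝ) / L with hR
  have hR0 : 0 < R := by positivity
  have hLR : L * R = K := by rw [hR]; field_simp
  have hℓr : (60 : ℝ) ≤ ℓ := by exact_mod_cast hℓ60
  have hjr : (60 : ℝ) ≤ j := by exact_mod_cast hj60
  have hjℓr : (j : ℝ) ≤ ℓ := by exact_mod_cast hjℓ
  have hn0 : (0 : ℝ) < G.n := lt_of_lt_of_le hL0 hLn
  -- `ℓ R` is tiny
  have hεR' : 100 * (ℓ * R) ≤ ε ^ 4 := by
    have : 100 * (ℓ * R) = 100 * ℓ * K / L := by rw [hR]; ring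
    rw [this]; exact hεR
  have hε4 : ε ^ 4 ≤ ε / 512 := by
    have h1 : ε ^ 3 ≤ (1 / 8) ^ 3 := by gcongr
    have h2 : ε ^ 4 = ε * ε ^ 3 := by ring
    rw [h2]
    nlinarith
  have hρ : ℓ * R ≤ ε / 51200 := by linarith
  have h60R : 60 * R ≤ ℓ * R := by gcongr
  have h60jR : 60 * R ≤ j * R := by gcongr
  have hjRℓ : j * R ≤ ℓ * R := by gcongr
  have hρ0 : 0 < ℓ * R := by positivity
  set A₀ : ℝ := -(3 * (ℓ * R)) with hA₀
  set y : ℝ := yc K L j with hy
  have hyR : y = -(j * R + R / 2) := by rw [hy, yc, hR]; ring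
  set z : ℝ := A₀ + (10 + (ℓ : ℝ) / 2) * K / L with hz
  have hzR : z = -(3 * (ℓ * R)) + 10 * R + ℓ * R / 2 := by rw [hz, hA₀, hR]; ring
  have e30 : 30 * (K : ℝ) / L = 30 * R := by rw [hR]; ring
  have e10 : 10 * (K : ℝ) / L = 10 * R := by rw [hR]; ring
  have e5 : 5 * (K : ℝ) / L = 5 * R := by rw [hR]; ring
  have e4 : 4 * (ℓ : ℝ) * K / L = 4 * (ℓ * R) := by rw [hR]; ring
  have ea : -(((j : ℝ) + 1) * K / L) = -(j * R + R) := by rw [hR]; ring
  have eb : -((j : ℝ) * K / L) = -(j * R) := by rw [hR]; ring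
  set a : ℝ := -(((j : ℝ) + 1) * K / L) with ha
  set b : ℝ := -((j : ℝ) * K / L) with hb
  have hrr : rr ε = 1 / 2 - ε / 4 := rfl
  have hr2 : rr ε ≤ 1 / 2 := by rw [hrr]; linarith
  have hr0 : 15 / 32 ≤ rr ε := by rw [hrr]; linarith
  refine ⟨fun Y => (cnt Y a b (2 * L) : ℝ) * ind (Bad_MidE G.n K ℓ L A₀ y z s t Y), ?_, ?_, ?_⟩
  · intro Y
    exact mul_nonneg (Nat.cast_nonneg _) (ind_nonneg _)
  · apply B20.cnt_ind_le G (by linarith) (by linarith) (by linarith) hr2 (by positivity) hK6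
    · have : 2 * L * (b - a) = 2 * K := by
        rw [ea, eb]
        linear_combination 2 * hLR
      exact this.le
    · have h1 : prob (fun _ => G.p) (G.sfld (rr ε)) (fun Y => ¬ Reg G.n (Y ∪ {s, t})
          (A₀ - 30 * K / L) (y + 30 * K / L) (2 * L) (K / (400 * ℓ))) ≤
          1 / (K : ℝ) ^ (2 * T + 4) := by
        apply reg_MidE s t
        · rw [e30]; linarith
        · rw [e30]; linarith
        · apply hrp ℓ K (by omega) hpar G
          · rw [e30]; linarith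
          · rw [e30]; linarith
          · rw [e30]; linarith
          · positivity
          · have : 2 * L * (y + 30 * K / L - (A₀ - 30 * K / L)) =
                2 * (3 * (ℓ * K) - j * K - K / 2 + 60 * K) := by
              rw [e30, hyR, hA₀]
              linear_combination (2 * (3 * ℓ - j - 1 / 2 + 60)) * hLR
            rw [this]
            have h3 : 60 * (K : ℝ) ≤ j * K := by gcongr
            have h4 : 0 ≤ (ℓ : ℝ) * K := by positivity
            linarith
          · exact htol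
      have h2 : prob (fun _ => G.p) (G.sfld (rr ε)) (fun Y => ∃ u ∈ Y ∪ {s, t}, A₀ ≤ u.1 ∧
          u.1 < A₀ + 5 * K / L ∧ Stay K (Y ∪ {s, t}) (L / 8) z u) ≤ 1 / (K : ℝ) ^ (2 * T + 4) := by
        apply win_MidE hS (by linarith) (by linarith) (by rw [e5]; linarith) (by linarith)
          (by linarith)
        intro ω hω1 hω2
        refine le_trans ?_ (hfb ℓ K (by omega) hpar G L A₀ ω hL0 (by linarith) (by
          rw [← hz]; linarith) hω1 hω2)
        unfold Grid.pr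
        apply prob_mono (fld_pq G _ _)
        rintro Y _ ⟨v, hv, hv1, hv2⟩
        refine ⟨v, hv, ?_, hv2⟩
        rw [e10]
        rw [e5] at hv1
        linarith
      calc prob (fun _ => G.p) (G.sfld (rr ε)) (Bad_MidE G.n K ℓ L A₀ y z s t)
          ≤ _ + _ := prob_or_le (sfld_pq G _) _ _
        _ ≤ 1 / (K : ℝ) ^ (2 * T + 4) + 1 / (K : ℝ) ^ (2 * T + 4) := add_le_add h1 h2
        _ = 2 / (K : ℝ) ^ (2 * T + 4) := by ring
  · intro Y hY Z hZ v m hpath
    obtain ⟨-, hin, hvis⟩ := hpi K (cfg Y Z s t) s v m hpath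
    by_cases hbad : Bad_MidE G.n K ℓ L A₀ y z s t Y
    · simp only [ind_of hbad, mul_one]
      have h1 : vis v m a b L (2 * L) ≤ cnt Y a b (2 * L) := by
        refine (hvis a b L (2 * L)).trans ?_
        unfold cnt
        apply card_le_card
        intro p hp
        rw [mem_filter] at hp ⊢
        obtain ⟨hp1, -, hp2, hp3, -, hp4⟩ := hp
        have hpr : |p.1| < rr ε := by
          rw [abs_lt]
          constructor <;> linarith
        have h2 := (B20.cfg_agree s t hZ hpr).1 hp1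
        rw [mem_union, B20.mem_pair] at h2
        rcases h2 with h2 | h2 | h2
        · exact ⟨h2, hp2, hp3, hp4.le⟩
        · exfalso
          rw [h2] at hp2 hp3
          have h3 : |s.1| < ε := by
            rw [abs_lt]
            constructor <;> linarith
          linarith
        · exfalso
          rw [h2, ht1] at hp3
          linarith
      exact_mod_cast h1
    · simp only [ind_of_not hbad, mul_zero]
      have h0 : vis v m a b L (2 * L) = 0 := by
        unfold vis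
        rw [card_eq_zero, filter_eq_empty_iff]
        intro k hk
        rintro ⟨hk1, hk2, hk3, -⟩
        rw [mem_range] at hk
        apply hbad
        by_cases hreg : Reg G.n (Y ∪ {s, t}) (A₀ - 30 * K / L) (y + 30 * K / L) (2 * L)
            (K / (400 * ℓ))
        · right
          have h1 := hbtr ℓ K (by omega) hpar G.n L A₀ y z (cfg Y Z s t) (Y ∪ {s, t}) s v m k hL0
            (B20.lab_P hY hZ hS) (B20.lab_P' hY hS) (B20.half_P hY hr2 hZ hS)
            (B20.half_P' hY hr2 hS)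
            (by
              intro p hp1 hp2
              apply B20.cfg_agree s t hZ
              rw [e30] at hp1 hp2
              rw [abs_lt]
              constructor <;> linarith)
            (by rw [e10, e30]; linarith) (by rw [e30]; linarith) hreg (by linarith)
            (by linarith) (by rw [e4]; linarith) hpath (by omega) (by linarith) (by linarith)
            (by linarith)
          rcases h1 with ⟨h2, h3, -⟩ | ⟨-, h2⟩
          · exfalso
            have h4 : |s.1| < ε := by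
              rw [abs_lt]
              constructor <;> linarith
            linarith
          · exact h2
        · exact Or.inl hreg
      rw [h0]
      norm_num

end Pool.Agent.Helper67.GR
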