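import Pool.Agent.Helper67.GR.St4

/-! # GR module MirB: invariance of the field under reflection -/

namespace Pool.Agent.Helper67.GR

open Finset

theorem mir_mir_MirB (v : Pt) : mir (mir v) = v := by
  unfold mir
  simp

theorem mir_inj_MirB : Function.Injective mir := fun a b h => by
  rw [← mir_mir_MirB a, h, mir_mir_MirB]

theorem image_mir_mir_MirB (P : Finset Pt) : (P.image mir).image mir = P := by
  rw [Finset.image_image]
  have h : mir ∘ mir = id := funext mir_mir_MirB
  rw [h, Finset.image_id]

theorem image_sfld_MirB (G : Grid) (r : ℝ) : (G.sfld r).image mir = G.sfld r := by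
  have h1 : ∀ v ∈ G.sfld r, mir v ∈ G.sfld r := by
    intro v hv
    unfold Grid.sfld at hv ⊢
    rw [Finset.mem_product, Finset.mem_filter] at hv ⊢
    refine ⟨⟨G.Xs_sym _ hv.1.1, ?_⟩, hv.2⟩
    show |-v.1| < r
    rw [abs_neg]
    exact hv.1.2
  ext v
  rw [Finset.mem_image]
  constructor
  · rintro ⟨w, hw, rfl⟩
    exact h1 w hw
  · intro hv
    exact ⟨mir v, h1 v hv, mir_mir_MirB v⟩

theorem image_sub_MirB {G : Grid} {r : ℝ} {Y : Finset Pt} (hY : Y ⊆ G.sfld r) :
    Y.image mir ⊆ G.sfld r := by
  rw [← image_sfld_MirB G r]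
  exact Finset.image_subset_image hY

theorem hMirB : StMirB := by
  intro G r f
  unfold bern
  refine Finset.sum_nbij' (fun X => X.image mir) (fun X => X.image mir) ?_ ?_ ?_ ?_ ?_
  · intro X hX
    rw [Finset.mem_powerset] at hX ⊢
    exact image_sub_MirB hX
  · intro X hX
    rw [Finset.mem_powerset] at hX ⊢
    exact image_sub_MirB hX
  · intro X _
    exact image_mir_mir_MirB X
  · intro X _
    exact image_mir_mir_MirB X
  · intro X hX
    have h1 : (X.image mir).card = X.card := Finset.card_image_of_injective _ mir_inj_MirB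
    have h2 : (G.sfld r \ X.image mir).card = (G.sfld r \ X).card := by
      have h3 : G.sfld r \ X.image mir = (G.sfld r \ X).image mir := by
        rw [Finset.image_sdiff _ _ mir_inj_MirB, image_sfld_MirB]
      rw [h3, Finset.card_image_of_injective _ mir_inj_MirB]
    simp only [Finset.prod_const, h1, h2]

end Pool.Agent.Helper67.GR
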