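import Pool.Agent.Helper67.GR.M_MirB

/-! # GR module MirP: reflection of paths and configurations -/

namespace Pool.Agent.Helper67.GR

open Finset

theorem cd_neg_MirP (x y : ℝ) : cd (-x) (-y) = cd x y := by
  unfold cd
  have h : -x - -y = -(x - y) := by ring
  rw [h, abs_neg]

theorem mir_fst_MirP (v : Pt) : (mir v).1 = -v.1 := rfl

theorem mir_snd_MirP (v : Pt) : (mir v).2 = v.2 := rfl

theorem bc_mir_MirP (P : Finset Pt) (v : Pt) (r : ℝ) :
    bc cd (P.image mir) (mir v) r = bc cd P v r := by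
  unfold bc
  rw [Finset.filter_image, Finset.card_image_of_injective _ mir_inj_MirB]
  congr 1
  apply Finset.filter_congr
  intro p _
  rw [mir_snd_MirP, mir_snd_MirP, mir_fst_MirP, mir_fst_MirP, cd_neg_MirP]

theorem adjO_mir_MirP {K : ℕ} {P : Finset Pt} {v u : Pt} (h : adjO cd K P v u) :
    adjO cd K (P.image mir) (mir v) (mir u) := by
  obtain ⟨h1, h2, h3⟩ := h
  refine ⟨fun h => h1 (mir_inj_MirB h), h2, ?_⟩
  rw [mir_fst_MirP, mir_fst_MirP, cd_neg_MirP, bc_mir_MirP]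
  exact h3

theorem adj_mir_MirP {K : ℕ} {P : Finset Pt} {v u : Pt} (h : adj cd K P v u) :
    adj cd K (P.image mir) (mir v) (mir u) := by
  rcases h with h | h
  · exact Or.inl (adjO_mir_MirP h)
  · exact Or.inr (adjO_mir_MirP h)

theorem adj_mir_iff_MirP {K : ℕ} {P : Finset Pt} {v u : Pt} :
    adj cd K (P.image mir) (mir v) (mir u) ↔ adj cd K P v u := by
  refine ⟨fun h => ?_, adj_mir_MirP⟩
  have h1 := adj_mir_MirP h
  rwa [image_mir_mir_MirB, mir_mir_MirB, mir_mir_MirB] at h1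

theorem step_mir_MirP {K : ℕ} {P : Finset Pt} {w v : Pt} (h : Step cd K P w v) :
    Step cd K (P.image mir) (mir w) (mir v) := by
  obtain ⟨h1, h2, h3, h4⟩ := h
  refine ⟨Finset.mem_image_of_mem _ h1, adj_mir_MirP h2, ?_, ?_⟩
  · rw [mir_fst_MirP, mir_fst_MirP, abs_neg, abs_neg]
    exact h3
  · intro u hu hadj
    obtain ⟨u', hu', rfl⟩ := Finset.mem_image.1 hu
    have h5 := h4 u' hu' (adj_mir_iff_MirP.1 hadj)
    rw [mir_fst_MirP, mir_fst_MirP, abs_neg, abs_neg, mir_snd_MirP, mir_snd_MirP]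
    exact h5

theorem hMirP : StMirP := by
  refine ⟨?_, ?_, ?_, ?_, ?_, ?_, image_mir_mir_MirB, mir_mir_MirB⟩
  · rintro K P s v m ⟨h1, h2, h3⟩
    refine ⟨?_, Finset.mem_image_of_mem _ h2, fun i hi => step_mir_MirP (h3 i hi)⟩
    show mir (v 0) = mir s
    rw [h1]
  · intro K P v u h
    exact adj_mir_MirP h
  · intro Y Z s t
    unfold cfg
    rw [Finset.image_union, Finset.image_union, Finset.image_insert, Finset.image_singleton]
  · intro n r Z hZ v hv
    obtain ⟨w, hw, rfl⟩ := Finset.mem_image.1 hv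
    rw [mir_fst_MirP, mir_snd_MirP, abs_neg]
    exact hZ w hw
  · intro G r Y hY
    exact image_sub_MirB hY
  · rintro ε n s t ⟨h1, h2, h3, h4, h5, h6, h7, h8, h9⟩
    refine ⟨h1, h2, ?_, ?_, h5, h6, ?_, h8, h9⟩
    · rw [mir_fst_MirP, abs_neg]; exact h3
    · rw [mir_fst_MirP, abs_neg]; exact h4
    · rw [mir_fst_MirP, h7, neg_zero]

end Pool.Agent.Helper67.GR
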