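import Pool.Agent.Helper67.GR.St3
import Pool.Agent.Helper67.GR.Edge

/-! # GR project (MP_d9675d_pr), module NS: a vertex with a regular neighbourhood is not stuck -/

set_option autoImplicit false

namespace Pool.Agent.Helper67.GR

/-- the situation of adj_near at the scale `s = K / M` -/
theorem adj_NS {K : ℕ} {n M e s : ℝ} {P : Finset Pt} {v u : Pt} (hM : 0 < M) (hs0 : 0 < s)
    (hsM : s * M = K) (hLab : Lab n P) (hP : ∀ p ∈ P, |p.1| ≤ 1 / 2) (hv : v ∈ P) (hu : u ∈ P)
    (hne : u ≠ v) (hvM : v.2 ≤ M) (huM : u.2 ≤ M) (he : e ≤ (K : ℝ) / 10)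
    (hReg : Reg n P (v.1 - 2 * s) (v.1 + 2 * s) M e) (h12 : |v.1| + 3 * s ≤ 1 / 2)
    (hd : |v.1 - u.1| ≤ 2 / 5 * s) (huv : |u.1| ≤ |v.1|) : adj cd K P v u := by
  have h0 := abs_nonneg (v.1 - u.1)
  have h1 := (abs_le.1 hd).1
  have h2 := (abs_le.1 hd).2
  refine adj_near (a := v.1 - 2 * s) (b := v.1 + 2 * s) (Λ := M) (e := e) (ρ := s) (n := n) hv hu
    hne hLab hvM huM (met_cd hP (by linarith) hs0.le) (met_cd hP (by linarith) hs0.le)
    (by linarith) hReg ?_ ?_ ?_
  · rcases min_choice v.1 u.1 with h | h <;> rw [h] <;> linarith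
  · rcases max_choice v.1 u.1 with h | h <;> rw [h] <;> linarith
  · nlinarith

theorem hNS : StNS := by
  intro K n M e P v t hK hM hMn hLab hP hv ht ht0 hv0 hvM he0 he hReg h12 hor
  have hK0 : (0 : ℝ) < K := by
    have : (40 : ℝ) ≤ K := by exact_mod_cast hK
    linarith
  obtain ⟨s, hs⟩ : ∃ s : ℝ, s = K / M := ⟨_, rfl⟩
  have hs0 : 0 < s := by rw [hs]; positivity
  have hsM : s * M = K := by rw [hs]; field_simp
  have e2 : 2 * (K : ℝ) / M = 2 * s := by rw [hs]; ring
  have e3 : 3 * (K : ℝ) / M = 3 * s := by rw [hs]; ring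
  rw [e2] at hReg
  rw [e3] at h12
  rw [← hs] at hor
  have hn0 : 0 ≤ M := hM.le
  by_cases hbig : 2 / 5 * s < |v.1|
  · rcases lt_or_gt_of_ne hv0 with hneg | hpos
    · rw [abs_of_neg hneg] at hbig
      obtain ⟨u, hu, hu1, hu2, hu3⟩ := reg_exists hReg (c := v.1 + 1 / 10 * s)
        (d := v.1 + 2 / 5 * s) (θ := M) (by linarith) (by linarith) (by linarith) hn0 le_rfl hMn
        (by nlinarith)
      have huneg : u.1 < 0 := by linarith
      have hlt : |u.1| < |v.1| := by
        rw [abs_of_neg huneg, abs_of_neg hneg]; linarith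
      refine ⟨u, hu, adj_NS hM hs0 hsM hLab hP hv hu ?_ hvM hu3 he hReg h12 ?_ hlt.le, hlt⟩
      · rintro rfl
        exact lt_irrefl _ hlt
      · rw [abs_of_nonpos (by linarith)]; linarith
    · rw [abs_of_pos hpos] at hbig
      obtain ⟨u, hu, hu1, hu2, hu3⟩ := reg_exists hReg (c := v.1 - 2 / 5 * s)
        (d := v.1 - 1 / 10 * s) (θ := M) (by linarith) (by linarith) (by linarith) hn0 le_rfl hMn
        (by nlinarith)
      have hupos : 0 < u.1 := by linarith
      have hlt : |u.1| < |v.1| := by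
        rw [abs_of_pos hupos, abs_of_pos hpos]; linarith
      refine ⟨u, hu, adj_NS hM hs0 hsM hLab hP hv hu ?_ hvM hu3 he hReg h12 ?_ hlt.le, hlt⟩
      · rintro rfl
        exact lt_irrefl _ hlt
      · rw [abs_of_nonneg (by linarith)]; linarith
  · push Not at hbig
    have hMn' : M = n := by
      rcases hor with h | h
      · linarith
      · exact h
    have hlt : |t.1| < |v.1| := by
      rw [ht0, abs_zero]; exact abs_pos.2 hv0
    refine ⟨t, ht, adj_NS hM hs0 hsM hLab hP hv ht ?_ hvM (by rw [hMn']; exact (hLab t ht).2) he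
      hReg h12 ?_ hlt.le, hlt⟩
    · rintro rfl
      exact hv0 ht0
    · rw [ht0, sub_zero]; exact hbig

end Pool.Agent.Helper67.GR
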