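import Pool.Agent.Helper67.GR.St3

/-! # GR module PI: greedy paths are injective -/

namespace Pool.Agent.Helper67.GR

open Finset

theorem dec_PI {K : ℕ} {P : Finset Pt} {s : Pt} {v : ℕ → Pt} {m : ℕ}
    (h : IsPath K P s v m) : ∀ i j, i < j → j ≤ m → |(v j).1| < |(v i).1| := by
  intro i j hij
  induction j, hij using Nat.le_induction with
  | base =>
    intro hj
    exact (h.2.2 i (by omega)).2.2.1
  | succ j _ ih =>
    intro hj
    exact ((h.2.2 j (by omega)).2.2.1).trans (ih (by omega))

theorem mem_PI {K : ℕ} {P : Finset Pt} {s : Pt} {v : ℕ → Pt} {m : ℕ}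
    (h : IsPath K P s v m) : ∀ i ≤ m, v i ∈ P ∧ |(v i).1| ≤ |s.1| := by
  intro i hi
  rcases Nat.eq_zero_or_pos i with h0 | h0
  · subst h0
    rw [h.1]
    exact ⟨h.2.1, le_rfl⟩
  · refine ⟨?_, ?_⟩
    · have h1 := (h.2.2 (i - 1) (by omega)).1
      have h2 : i - 1 + 1 = i := by omega
      rwa [h2] at h1
    · have h1 := dec_PI h 0 i h0 hi
      rw [h.1] at h1
      exact h1.le

theorem hPI : StPI := by
  intro K P s v m h
  refine ⟨dec_PI h, mem_PI h, ?_⟩
  intro a b lo hi
  unfold vis
  refine card_le_card_of_injOn v ?_ ?_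
  · intro i hi'
    simp only [coe_filter, mem_range, Set.mem_setOf_eq, mem_filter] at hi' ⊢
    have h1 := mem_PI h i (by omega)
    exact ⟨h1.1, h1.2, hi'.2⟩
  · intro i hi' j hj' hij
    simp only [coe_filter, mem_range, Set.mem_setOf_eq] at hi' hj'
    by_contra hne
    rcases lt_or_gt_of_ne hne with h1 | h1
    · have := dec_PI h i j h1 (by omega)
      rw [hij] at this
      exact lt_irrefl _ this
    · have := dec_PI h j i h1 (by omega)
      rw [hij] at this
      exact lt_irrefl _ this

end Pool.Agent.Helper67.GR
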