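import Pool.Agent.Helper67.GR.St3
import Pool.Agent.Helper67.GR.Edge

/-! # GR project (MP_d9675d_pr), module Pack: packing of path vertices -/

namespace Pool.Agent.Helper67.GR

open Finset

theorem mem_Pack {K : ℕ} {P : Finset Pt} {s : Pt} {v : ℕ → Pt} {m : ℕ}
    (h : IsPath K P s v m) : ∀ i ≤ m, v i ∈ P := by
  intro i hi
  rcases Nat.eq_zero_or_pos i with rfl | h0
  · rw [h.1]; exact h.2.1
  · obtain ⟨k, rfl⟩ : ∃ k, i = k + 1 := ⟨i - 1, by omega⟩
    exact (h.2.2 k (by omega)).1

theorem dec_Pack {K : ℕ} {P : Finset Pt} {s : Pt} {v : ℕ → Pt} {m : ℕ}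
    (h : IsPath K P s v m) : ∀ i j, i < j → j ≤ m → |(v j).1| < |(v i).1| := by
  intro i j hij
  induction j, hij using Nat.le_induction with
  | base => intro hj; exact (h.2.2 i (by omega)).2.2.1
  | succ j hij ih =>
    intro hj
    exact lt_trans (h.2.2 j (by omega)).2.2.1 (ih (by omega))

theorem nadj_Pack {K : ℕ} {P : Finset Pt} {s : Pt} {v : ℕ → Pt} {m : ℕ}
    (h : IsPath K P s v m) : ∀ i j, i + 2 ≤ j → j ≤ m → ¬ adj cd K P (v i) (v j) := by
  intro i j hij hj hadj
  have h1 := (h.2.2 i (by omega)).2.2.2 (v j) (mem_Pack h j hj) hadj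
  have h2 := dec_Pack h (i + 1) j (by omega) hj
  rcases h1 with h1 | ⟨h1, _⟩
  · linarith
  · linarith

theorem hPack : StPack := by
  intro K n L a b e P s v m hK hL hLab hP hpath hb hab hba ha he heK hReg
  have hK' : (40 : ℝ) ≤ (K : ℝ) := by exact_mod_cast hK
  have hKL : 0 < (K : ℝ) / L := div_pos (by linarith) hL
  set D : ℝ := (K : ℝ) / L with hD
  have e5 : 5 * (K : ℝ) / L = 5 * D := by rw [hD]; ring
  have e3 : 3 * (K : ℝ) / L = 3 * D := by rw [hD]; ring
  rw [e5] at ha
  rw [e3] at hReg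
  have hDL : D * L = K := by rw [hD]; field_simp
  set q : ℝ := 9 / 40 * D with hq
  have hq0 : 0 < q := by positivity
  unfold vis
  set I := (range (m + 1)).filter
    (fun i => a ≤ (v i).1 ∧ (v i).1 < b ∧ 0 ≤ (v i).2 ∧ (v i).2 < 2 * L) with hI
  have hmemI : ∀ i ∈ I, i ≤ m ∧ a ≤ (v i).1 ∧ (v i).1 < b ∧ (v i).2 < 2 * L := by
    intro i hi
    rw [hI, Finset.mem_filter, Finset.mem_range] at hi
    exact ⟨by omega, hi.2.1, hi.2.2.1, hi.2.2.2.2⟩
  have far : ∀ i ∈ I, ∀ j ∈ I, i + 2 ≤ j → (v i).1 + q < (v j).1 := by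
    intro i hi j hj hij
    obtain ⟨im, i1, i2, i3⟩ := hmemI i hi
    obtain ⟨jm, j1, j2, j3⟩ := hmemI j hj
    by_contra hcon
    rw [not_lt] at hcon
    have hlt := dec_Pack hpath i j (by omega) jm
    rw [abs_of_neg (by linarith : (v j).1 < 0), abs_of_neg (by linarith : (v i).1 < 0)] at hlt
    have hlt' : (v i).1 < (v j).1 := by linarith
    have habs : |(v i).1 - (v j).1| = (v j).1 - (v i).1 := by
      rw [abs_of_neg (by linarith)]; ring
    have hmet : ∀ c : ℝ, a ≤ c → c ≤ b → Met cd P (2 * D) c := by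
      intro c hc hc'
      apply met_cd hP
      · rw [abs_of_nonpos (by linarith)]
        linarith
      · positivity
    apply nadj_Pack hpath i j hij jm
    refine adj_near (a := a - 3 * D) (b := b + 3 * D) (Λ := 2 * L) (e := e) (ρ := 2 * D)
      (mem_Pack hpath i im) (mem_Pack hpath j jm) ?_ hLab i3.le j3.le (hmet _ i1 i2.le)
      (hmet _ j1 j2.le) ?_ hReg ?_ ?_ ?_
    · intro h
      rw [h] at hlt'
      exact lt_irrefl _ hlt'
    · rw [habs]; linarith
    · rw [habs, min_eq_left hlt'.le]; linarith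
    · rw [habs, max_eq_right hlt'.le]; linarith
    · rw [habs]
      have h1 : 2 * ((v j).1 - (v i).1) * (2 * L) ≤ 2 * q * (2 * L) := by
        have : (v j).1 - (v i).1 ≤ q := by linarith
        gcongr
      have h2 : 2 * q * (2 * L) = 9 / 10 * K := by
        rw [hq, ← hDL]; ring
      linarith
  have key := Finset.card_le_mul_card_image_of_maps_to
    (s := I) (t := range 5) (f := fun i => ⌊((v i).1 - a) / q⌋₊) (by
      intro i hi
      obtain ⟨im, i1, i2, i3⟩ := hmemI i hi
      rw [Finset.mem_range, Nat.floor_lt (div_nonneg (by linarith) hq0.le), div_lt_iff₀ hq0]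
      push_cast
      rw [hq]
      linarith) 2 (by
      intro c _
      rcases (I.filter fun i => ⌊((v i).1 - a) / q⌋₊ = c).eq_empty_or_nonempty with h | h
      · rw [h]; simp
      · set i0 := (I.filter fun i => ⌊((v i).1 - a) / q⌋₊ = c).min' h with hi0
        have hi0m := Finset.min'_mem _ h
        rw [← hi0, Finset.mem_filter] at hi0m
        refine le_trans (Finset.card_le_card (t := {i0, i0 + 1}) ?_) Finset.card_le_two
        intro j hj
        have hle : i0 ≤ j := Finset.min'_le _ j hj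
        rw [Finset.mem_filter] at hj
        rw [Finset.mem_insert, Finset.mem_singleton]
        by_contra hcon
        push Not at hcon
        have hf := far i0 hi0m.1 j hj.1 (by omega)
        obtain ⟨_, i1, _, _⟩ := hmemI i0 hi0m.1
        obtain ⟨_, j1, _, _⟩ := hmemI j hj.1
        have h1 := Nat.floor_le (div_nonneg (by linarith : 0 ≤ (v i0).1 - a) hq0.le)
        have h2 := Nat.lt_floor_add_one (((v j).1 - a) / q)
        rw [hi0m.2] at h1
        rw [hj.2] at h2
        have h3 : ((v i0).1 - a) / q + 1 < ((v j).1 - a) / q := by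
          rw [lt_div_iff₀ hq0, add_mul, div_mul_cancel₀ _ hq0.ne']
          linarith
        linarith)
  rw [Finset.card_range] at key
  omega

end Pool.Agent.Helper67.GR
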