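import Pool.Agent.Helper67.GR.St4
import Pool.Agent.Helper67.GR.RegV
import Pool.Agent.Helper67.GR.Fld

/-! # GR project: packing with error term -/

namespace Pool.Agent.Helper67.GR

open Finset

/-- labels and positions of the full configuration -/
theorem cfg_lab_PackE {ε : ℝ} {G : Grid} {s t : Pt} (hS : HypS ε G.n s t)
    {Y Z : Finset Pt} (hY : Y ⊆ G.sfld (rr ε)) (hZ : OutOk G.n (rr ε) Z) :
    Lab G.n (cfg Y Z s t) ∧ ∀ p ∈ cfg Y Z s t, |p.1| ≤ 1 / 2 := by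
  obtain ⟨hε, hε8, h1, h2, h3, h4, h5, h6, h7⟩ := hS
  have key : ∀ p ∈ cfg Y Z s t, (0 < p.2 ∧ p.2 ≤ G.n) ∧ |p.1| ≤ 1 / 2 := by
    intro p hp
    unfold cfg at hp
    rw [mem_union, mem_union, mem_insert, mem_singleton] at hp
    rcases hp with (hp | hp) | (hp | hp)
    · have h := hY hp
      unfold Grid.sfld at h
      rw [mem_product, mem_filter] at h
      refine ⟨G.Ts_mem _ h.2, ?_⟩
      have := h.1.2
      unfold rr at this
      linarith
    · obtain ⟨a1, a2, a3, a4⟩ := hZ p hp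
      exact ⟨⟨a3, a4⟩, a2⟩
    · rw [hp]
      exact ⟨⟨h3, h4⟩, by linarith⟩
    · rw [hp]
      refine ⟨⟨h6, h7⟩, ?_⟩
      rw [h5]
      norm_num
  exact ⟨fun p hp => (key p hp).1, fun p hp => (key p hp).2⟩

/-- the counting part -/
theorem vis_le_PackE (hpi : StPI) {ε : ℝ} {G : Grid} {s t : Pt} (hS : HypS ε G.n s t)
    {Y Z : Finset Pt} (hZ : OutOk G.n (rr ε) Z) {K : ℕ} {v : ℕ → Pt} {m : ℕ}
    (hp : IsPath K (cfg Y Z s t) s v m) (a b L : ℝ) :
    (vis v m a b L (2 * L) : ℝ) ≤ (cnt Y a b (2 * L) : ℝ) + 2 := by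
  obtain ⟨hε, hε8, h1, h2, h3, h4, h5, h6, h7⟩ := hS
  have hv := (hpi K (cfg Y Z s t) s v m hp).2.2 a b L (2 * L)
  have hsub : (cfg Y Z s t).filter
      (fun p => |p.1| ≤ |s.1| ∧ a ≤ p.1 ∧ p.1 < b ∧ L ≤ p.2 ∧ p.2 < 2 * L) ⊆
      Y.filter (fun p => a ≤ p.1 ∧ p.1 < b ∧ p.2 ≤ 2 * L) ∪ {s, t} := by
    intro p hp
    rw [mem_filter] at hp
    obtain ⟨hp1, hp2, hp3, hp4, hp5, hp6⟩ := hp
    unfold cfg at hp1
    rw [mem_union, mem_union] at hp1
    rw [mem_union]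
    rcases hp1 with (hp1 | hp1) | hp1
    · exact Or.inl (mem_filter.2 ⟨hp1, hp3, hp4, hp6.le⟩)
    · exfalso
      have := (hZ p hp1).1
      unfold rr at this
      linarith
    · exact Or.inr hp1
  have hc : vis v m a b L (2 * L) ≤ cnt Y a b (2 * L) + 2 := by
    refine hv.trans ((card_le_card hsub).trans ((card_union_le _ _).trans ?_))
    have : ({s, t} : Finset Pt).card ≤ 2 := card_le_two
    unfold cnt
    omega
  exact_mod_cast hc

/-- second moment of the number of points in the box -/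
theorem sq_PackE (G : Grid) (r a b L : ℝ) {K : ℕ} (hK : 32 ≤ K) (ha : -(1/2) ≤ a)
    (hab : a ≤ b) (hb : b ≤ 1/2) (hL : 0 < L) (hLK : L * (b - a) ≤ K) :
    bern (fun _ => G.p) (G.sfld r) (fun Y => ((cnt Y a b (2 * L) : ℝ) + 2) ^ 2) ≤
      (K : ℝ) ^ 3 := by
  have hK' : (32 : ℝ) ≤ K := by exact_mod_cast hK
  set μ : ℝ := ∑ _v ∈ (G.sfld r).filter (fun v : Pt => a ≤ v.1 ∧ v.1 < b ∧ v.2 ≤ 2 * L), G.p
    with hμ
  have hμ0 : 0 ≤ μ := sum_nonneg fun _ _ => G.p_pos.le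
  have hμ1 : μ ≤ 2 * K + 1 := by
    have h1 : μ ≤ ∑ _v ∈ (G.fld a b).filter (fun v => v.2 ≤ 2 * L), G.p := by
      refine sum_le_sum_of_subset_of_nonneg ?_ fun _ _ _ => G.p_pos.le
      intro v hv
      rw [mem_filter] at hv ⊢
      obtain ⟨h1, h2, h3, h4⟩ := hv
      unfold Grid.sfld at h1
      rw [mem_product, mem_filter] at h1
      exact ⟨(mem_fld G).2 ⟨h1.1.1, h1.2, h2, h3⟩, h4⟩
    have h2 := mean_le' G a b (2 * L) ha hab hb (by linarith)
    have h3 := G.κ_le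
    nlinarith
  have h0 : bern (fun _ => G.p) (G.sfld r) (fun Y => ((cnt Y a b (2 * L) : ℝ)) ^ 2) ≤
      μ ^ 2 + μ :=
    bern_card_sq_le (sfld_pq G r) (fun v : Pt => a ≤ v.1 ∧ v.1 < b ∧ v.2 ≤ 2 * L)
  have h1 : bern (fun _ => G.p) (G.sfld r) (fun Y => ((cnt Y a b (2 * L) : ℝ) + 2) ^ 2) ≤
      bern (fun _ => G.p) (G.sfld r) (fun Y => 2 * ((cnt Y a b (2 * L) : ℝ)) ^ 2 + 8) := by
    refine bern_mono (sfld_pq G r) fun X _ => ?_
    nlinarith [sq_nonneg ((cnt X a b (2 * L) : ℝ) - 2)]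
  refine h1.trans ?_
  rw [bern_add (fun _ => G.p) (G.sfld r) (fun Y => 2 * ((cnt Y a b (2 * L) : ℝ)) ^ 2)
    (fun _ => (8 : ℝ)), bern_smul, bern_const]
  have h2 : μ ^ 2 + μ ≤ (2 * K + 1) ^ 2 + (2 * K + 1) := by nlinarith
  have h3 : 2 * (((2 : ℝ) * K + 1) ^ 2 + (2 * K + 1)) + 8 ≤ (K : ℝ) ^ 3 := by nlinarith
  linarith

/-- probability of irregularity -/
theorem prob_PackE (G : Grid) {r a b Λ e : ℝ} (s t : Pt) (ha : -r < a) (hb : b ≤ r) {σ : ℝ}
    (h : G.pr a b (fun Y => ¬ Reg G.n Y a b Λ (e - 2)) ≤ σ) :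
    prob (fun _ => G.p) (G.sfld r) (fun Y => ¬ Reg G.n (Y ∪ {s, t}) a b Λ e) ≤ σ := by
  refine le_trans ?_ h
  have h1 : prob (fun _ => G.p) (G.sfld r) (fun Y => ¬ Reg G.n Y a b Λ (e - 2)) =
      G.pr a b (fun Y => ¬ Reg G.n Y a b Λ (e - 2)) := by
    refine pr_marginal_sfld G ha hb _ ?_
    intro X hX
    refine not_congr (reg_congr ?_)
    intro p hp1 hp2
    rw [mem_inter]
    refine ⟨fun hp => ⟨hp, ?_⟩, fun hp => hp.1⟩
    have h3 := hX hp
    unfold Grid.sfld at h3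
    rw [mem_product, mem_filter] at h3
    exact (mem_fld G).2 ⟨h3.1.1, h3.2, hp1, hp2⟩
  rw [← h1]
  refine prob_mono (sfld_pq G r) fun X _ hX hX' => hX ?_
  have h4 := reg_union (Q := {s, t}) hX'
  refine reg_mono h4 le_rfl le_rfl le_rfl ?_
  have h5 : (({s, t} : Finset Pt).card : ℝ) ≤ 2 := by exact_mod_cast card_le_two
  linarith

/-- the square root computation -/
theorem sqrt_PackE {K : ℝ} (hK0 : 0 < K) (T : ℕ) {x y : ℝ} (hx : x ≤ K ^ 3)
    (hy : y ≤ 1 / K ^ (2 * T + 3)) : Real.sqrt x * Real.sqrt y ≤ 1 / K ^ T := by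
  calc Real.sqrt x * Real.sqrt y
      ≤ Real.sqrt (K ^ 3) * Real.sqrt (1 / K ^ (2 * T + 3)) :=
        mul_le_mul (Real.sqrt_le_sqrt hx) (Real.sqrt_le_sqrt hy) (Real.sqrt_nonneg _)
          (Real.sqrt_nonneg _)
    _ = Real.sqrt (K ^ 3 * (1 / K ^ (2 * T + 3))) := by
        rw [Real.sqrt_mul (by positivity)]
    _ = Real.sqrt ((1 / K ^ T) ^ 2) := by
        congr 1
        have : K ^ (2 * T + 3) = K ^ 3 * (K ^ T) ^ 2 := by
          rw [← pow_mul, ← pow_add]; congr 1; ring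
        rw [this]
        field_simp
    _ = 1 / K ^ T := Real.sqrt_sq (by positivity)

theorem hPackE (hpk : StPack) (hpi : StPI) (hrp : StRP) : StPackE := by
  intro T
  obtain ⟨ℓ₁, hℓ₁⟩ := hrp (2 * T + 3)
  refine ⟨max ℓ₁ 3, ?_⟩
  intro ℓ K hℓ hPar ε G L s t j hL hj
  have hℓ1 : ℓ₁ ≤ ℓ := (le_max_left _ _).trans hℓ
  have hℓ3 : 3 ≤ ℓ := (le_max_right _ _).trans hℓ
  obtain ⟨hS, hκ, hL0, hLn, hLε⟩ := hL
  have hS' := hS
  obtain ⟨hε, hε8, h1, h2, h3, h4, h5, h6, h7⟩ := hS'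
  -- size of K
  have hℓR : (3 : ℝ) ≤ ℓ := by exact_mod_cast hℓ3
  have hKℓ : (ℓ : ℝ) ^ 8 ≤ K := by exact_mod_cast hPar.1
  have hK1 : 2187 * (ℓ : ℝ) ≤ K := by
    have h8 : (3 : ℝ) ^ 7 ≤ (ℓ : ℝ) ^ 7 := pow_le_pow_left₀ (by norm_num) hℓR 7
    calc 2187 * (ℓ : ℝ) = 3 ^ 7 * ℓ := by norm_num
      _ ≤ (ℓ : ℝ) ^ 7 * ℓ := mul_le_mul_of_nonneg_right h8 (by linarith)
      _ = (ℓ : ℝ) ^ 8 := by ring
      _ ≤ K := hKℓ
  have hK2 : (6561 : ℝ) ≤ K := by linarith
  have hK3 : 6561 ≤ K := by exact_mod_cast hK2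
  have hK0 : (0 : ℝ) < K := by linarith
  -- the unit
  set R : ℝ := K / L with hR
  have hR0 : 0 < R := div_pos hK0 hL0
  have hLR : L * R = K := by rw [hR]; field_simp
  have hRε : 300 * R ≤ ε ^ 4 := by
    have h9 : 100 * (ℓ : ℝ) * K / L = 100 * ℓ * R := by rw [hR]; ring
    rw [h9] at hLε
    nlinarith
  have hRε2 : 300 * R ≤ ε := by
    have : ε ^ 4 ≤ ε := by
      have h10 : ε ^ 3 ≤ 1 := pow_le_one₀ hε.le (by linarith)
      calc ε ^ 4 = ε ^ 3 * ε := by ring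
        _ ≤ 1 * ε := mul_le_mul_of_nonneg_right h10 hε.le
        _ = ε := one_mul _
    linarith
  -- the box
  have ea : -(((j : ℝ) + 1) * K / L) = -((j + 1) * R) := by rw [hR]; ring
  have eb : -((j : ℝ) * K / L) = -(j * R) := by rw [hR]; ring
  have e3 : 3 * (K : ℝ) / L = 3 * R := by rw [hR]; ring
  have e5 : 5 * (K : ℝ) / L = 5 * R := by rw [hR]; ring
  have ey : |yc K L j| = (j + 1 / 2) * R := by
    unfold yc
    rw [abs_neg, abs_of_nonneg (by positivity), hR]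
    ring
  rw [ey] at hj
  rw [ea, eb]
  set a : ℝ := -(((j : ℝ) + 1) * R) with ha
  set b : ℝ := -((j : ℝ) * R) with hb
  have hba : b - a = R := by rw [ha, hb]; ring
  have hb0 : b ≤ 0 := by rw [hb]; have : 0 ≤ (j : ℝ) * R := by positivity
                         linarith
  have ha1 : -(1/2) + ε - 3 / 2 * R ≤ a := by
    rw [ha]
    nlinarith
  have hab : a ≤ b := by linarith
  refine ⟨fun Y => ((cnt Y a b (2 * L) : ℝ) + 2) *
    ind (¬ Reg G.n (Y ∪ {s, t}) (a - 3 * R) (b + 3 * R) (2 * L) (K / (400 * ℓ))),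
    fun Y => mul_nonneg (by positivity) (ind_nonneg _), ?_, ?_⟩
  · -- expectation
    have hcs := bern_mul_ind_le (sfld_pq G (rr ε))
      (fun Y => (cnt Y a b (2 * L) : ℝ) + 2)
      (fun Y => ¬ Reg G.n (Y ∪ {s, t}) (a - 3 * R) (b + 3 * R) (2 * L) (K / (400 * ℓ)))
    refine hcs.trans ?_
    have hA : bern (fun _ => G.p) (G.sfld (rr ε))
        (fun Y => ((cnt Y a b (2 * L) : ℝ) + 2) ^ 2) ≤ (K : ℝ) ^ 3 := by
      refine sq_PackE G (rr ε) a b L (by omega) (by linarith) hab (by linarith) hL0 ?_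
      rw [hba, hLR]
    have hB : prob (fun _ => G.p) (G.sfld (rr ε))
        (fun Y => ¬ Reg G.n (Y ∪ {s, t}) (a - 3 * R) (b + 3 * R) (2 * L) (K / (400 * ℓ))) ≤
        1 / (K : ℝ) ^ (2 * T + 3) := by
      refine prob_PackE G s t (by unfold rr; linarith) (by unfold rr; linarith) ?_
      refine hℓ₁ ℓ K hℓ1 hPar G (a - 3 * R) (b + 3 * R) (2 * L) _ (by linarith) (by linarith)
        (by linarith) (by linarith) ?_ ?_
      · have : 2 * L * (b + 3 * R - (a - 3 * R)) = 14 * (L * R) := by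
          have : b + 3 * R - (a - 3 * R) = 7 * R := by linarith
          rw [this]; ring
        rw [this, hLR]
        nlinarith
      · have hℓ0 : (0 : ℝ) < ℓ := by linarith
        have h11 : 2187 ≤ (K : ℝ) / ℓ := by
          rw [le_div_iff₀ hℓ0]; exact hK1
        have h12 : (K : ℝ) / (5000 * ℓ) = (K / ℓ) / 5000 := by
          rw [div_div]; congr 1; ring
        have h13 : (K : ℝ) / (400 * ℓ) = (K / ℓ) / 400 := by
          rw [div_div]; congr 1; ring
        rw [h12, h13]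
        linarith
    exact sqrt_PackE hK0 T hA hB
  · -- deterministic part
    intro Y hY Z hZ v m hp
    by_cases hreg : Reg G.n (Y ∪ {s, t}) (a - 3 * R) (b + 3 * R) (2 * L) (K / (400 * ℓ))
    · have hcfg : Reg G.n (cfg Y Z s t) (a - 3 * R) (b + 3 * R) (2 * L) (K / (400 * ℓ)) := by
        refine (reg_congr ?_).1 hreg
        intro p hp1 hp2
        unfold cfg
        rw [mem_union, mem_union, mem_union]
        constructor
        · rintro (h | h)
          · exact Or.inl (Or.inl h)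
          · exact Or.inr h
        · rintro ((h | h) | h)
          · exact Or.inl h
          · exfalso
            have h8 := (hZ p h).1
            have h9 : |p.1| < rr ε := by
              rw [abs_lt]
              unfold rr
              constructor <;> linarith
            linarith
          · exact Or.inr h
      have hlab := cfg_lab_PackE hS hY hZ
      have h12 : vis v m a b 0 (2 * L) ≤ 12 := by
        refine hpk K G.n L a b (K / (400 * ℓ)) (cfg Y Z s t) s v m (by omega) hL0 hlab.1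
          hlab.2 hp hb0 hab (by rw [hba]) ?_ (by positivity) ?_ ?_
        · rw [e5]; linarith
        · rw [div_le_div_iff₀ (by positivity) (by norm_num)]
          nlinarith
        · rw [e3]; exact hcfg
      have hmono : vis v m a b L (2 * L) ≤ vis v m a b 0 (2 * L) := by
        unfold vis
        refine card_le_card ?_
        intro i hi
        rw [mem_filter] at hi ⊢
        exact ⟨hi.1, hi.2.1, hi.2.2.1, hL0.le.trans hi.2.2.2.1, hi.2.2.2.2⟩
      have h13 : (vis v m a b L (2 * L) : ℝ) ≤ 12 := by exact_mod_cast hmono.trans h12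
      exact h13.trans (le_add_of_nonneg_right (mul_nonneg (by positivity) (ind_nonneg _)))
    · show (vis v m a b L (2 * L) : ℝ) ≤ 12 + ((cnt Y a b (2 * L) : ℝ) + 2) *
          ind (¬ Reg G.n (Y ∪ {s, t}) (a - 3 * R) (b + 3 * R) (2 * L) (K / (400 * ℓ)))
      rw [ind_of hreg, mul_one]
      exact (vis_le_PackE hpi hS hZ hp a b L).trans (le_add_of_nonneg_left (by norm_num))

end Pool.Agent.Helper67.GR
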