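import Pool.Agent.Helper67.GR.Fld
import Pool.Agent.Helper67.GR.Cher
import Pool.Agent.Helper67.GR.RegV

namespace Pool.Agent.Helper67.GR

namespace RegE

open Finset

/-- monotonicity of the count in the right end and in the label -/
theorem cnt_mono_RegE (Y : Finset Pt) {a c c' θ θ' : ℝ} (hc : c ≤ c') (hθ : θ ≤ θ') :
    cnt Y a c θ ≤ cnt Y a c' θ' := by
  unfold cnt
  refine card_le_card ?_
  intro v hv
  rw [mem_filter] at hv ⊢
  exact ⟨hv.1, hv.2.1, by linarith [hv.2.2.1], by linarith [hv.2.2.2]⟩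

/-- additivity of the count -/
theorem cnt_add_RegE (Y : Finset Pt) {a c d : ℝ} (θ : ℝ) (hac : a ≤ c) (hcd : c ≤ d) :
    (cnt Y a d θ : ℝ) = cnt Y a c θ + cnt Y c d θ := by
  unfold cnt
  rw [← Nat.cast_add, ← card_union_of_disjoint]
  · congr 2
    ext v
    simp only [mem_filter, mem_union]
    constructor
    · rintro ⟨h1, h2, h3, h4⟩
      rcases lt_or_ge v.1 c with h | h
      · exact Or.inl ⟨h1, h2, h, h4⟩
      · exact Or.inr ⟨h1, h, h3, h4⟩
    · rintro (⟨h1, h2, h3, h4⟩ | ⟨h1, h2, h3, h4⟩)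
      · exact ⟨h1, h2, by linarith, h4⟩
      · exact ⟨h1, by linarith, h3, h4⟩
  · rw [disjoint_left]
    intro v hv hv'
    rw [mem_filter] at hv hv'
    linarith [hv.2.2.1, hv'.2.1]

/-- the mean of the number of points with position less than `c` and label at most `θ` -/
theorem mean_RegE (G : Grid) {a b c θ : ℝ} (ha : -(1/2) ≤ a) (hac : a ≤ c) (hcb : c ≤ b)
    (hb : b ≤ 1/2) (h0 : 0 ≤ θ) (hn : θ ≤ G.n) :
    |(∑ _v ∈ (G.fld a b).filter (fun v => a ≤ v.1 ∧ v.1 < c ∧ v.2 ≤ θ), G.p) -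
      θ * (c - a)| ≤ 1 := by
  have h1 : (G.fld a b).filter (fun v => a ≤ v.1 ∧ v.1 < c ∧ v.2 ≤ θ) =
      (G.fld a c).filter (fun v => v.2 ≤ θ) := by
    ext v
    rw [mem_filter, mem_filter, mem_fld, mem_fld]
    constructor
    · rintro ⟨⟨h1, h2, h3, h4⟩, h5, h6, h7⟩
      exact ⟨⟨h1, h2, h5, h6⟩, h7⟩
    · rintro ⟨⟨h1, h2, h3, h4⟩, h5⟩
      exact ⟨⟨h1, h2, h3, by linarith⟩, h3, h4, h5⟩
  rw [h1]
  exact (mean_le G a c θ ha hac (by linarith) h0 hn).trans G.κ_le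

/-- a grid index below a real -/
theorem idx_RegE (m : ℕ) (hm : 1 ≤ m) {L x : ℝ} (hL : 0 ≤ L) (hx0 : 0 ≤ x) (hxL : x ≤ L) :
    ∃ i : ℕ, i < m ∧ L * i / m ≤ x ∧ x ≤ L * (i + 1 : ℕ) / m := by
  have hm0 : (0 : ℝ) < m := by exact_mod_cast hm
  rcases hL.eq_or_lt with h | h
  · refine ⟨0, hm, ?_, ?_⟩
    · rw [← h]; simp [hx0]
    · rw [← h] at hxL ⊢; simp [hxL]
  · rcases lt_or_ge x L with hlt | hge
    · set i : ℕ := ⌊x * m / L⌋₊ with hi
      have h1 : (i : ℝ) ≤ x * m / L := Nat.floor_le (by positivity)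
      have h2 : x * m / L < i + 1 := Nat.lt_floor_add_one _
      refine ⟨i, ?_, ?_, ?_⟩
      · have h3 : x * m / L < m := by
          rw [div_lt_iff₀ h]
          nlinarith
        have : (i : ℝ) < m := by linarith
        exact_mod_cast this
      · rw [div_le_iff₀ hm0]
        rw [le_div_iff₀ h] at h1
        linarith
      · rw [le_div_iff₀ hm0]
        rw [div_lt_iff₀ h] at h2
        push_cast
        linarith
    · have hxe : x = L := le_antisymm hxL hge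
      refine ⟨m - 1, by omega, ?_, ?_⟩
      · rw [hxe, div_le_iff₀ hm0]
        have : ((m - 1 : ℕ) : ℝ) ≤ m := by exact_mod_cast Nat.sub_le m 1
        nlinarith
      · rw [hxe, le_div_iff₀ hm0]
        have : (m - 1 + 1 : ℕ) = m := by omega
        rw [this]

/-- the deterministic sandwich -/
theorem sandwich_RegE (G : Grid) (Y : Finset Pt) {a b Λ e : ℝ} (ha : -(1/2) ≤ a)
    (hab : a ≤ b) (hb : b ≤ 1/2) (hΛ0 : 0 ≤ Λ) (hΛn : Λ ≤ G.n) (he : 16 ≤ e) (m : ℕ)
    (hm : 1 ≤ m) (hm2 : 16 * (Λ * (b - a)) ≤ e * m)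
    (hgood : ∀ i ≤ m, ∀ j ≤ m,
      |(cnt Y a (a + (b - a) * i / m) (Λ * j / m) : ℝ) -
        ∑ _v ∈ (G.fld a b).filter (fun v => a ≤ v.1 ∧ v.1 < a + (b - a) * i / m ∧
          v.2 ≤ Λ * j / m), G.p| < e / 8)
    {c θ : ℝ} (hac : a ≤ c) (hcb : c ≤ b) (h0 : 0 ≤ θ) (hθ : θ ≤ Λ) :
    |(cnt Y a c θ : ℝ) - θ * (c - a)| ≤ 5 * e / 16 := by
  have hm0 : (0 : ℝ) < m := by exact_mod_cast hm
  set L : ℝ := b - a with hL
  have hL0 : 0 ≤ L := by linarith
  obtain ⟨i, him, hi1, hi2⟩ := idx_RegE m hm (L := L) (x := c - a) hL0 (by linarith)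
    (by linarith)
  obtain ⟨j, hjm, hj1, hj2⟩ := idx_RegE m hm (L := Λ) (x := θ) hΛ0 h0 hθ
  have hgrid : ∀ k ≤ m, 0 ≤ L * (k : ℕ) / m ∧ L * (k : ℕ) / m ≤ L := by
    intro k hk
    refine ⟨by positivity, ?_⟩
    rw [div_le_iff₀ hm0]
    have : (k : ℝ) ≤ m := by exact_mod_cast hk
    nlinarith
  have hgridΛ : ∀ k ≤ m, 0 ≤ Λ * (k : ℕ) / m ∧ Λ * (k : ℕ) / m ≤ Λ := by
    intro k hk
    refine ⟨by positivity, ?_⟩
    rw [div_le_iff₀ hm0]
    have : (k : ℝ) ≤ m := by exact_mod_cast hk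
    nlinarith
  have hmean : ∀ k ≤ m, ∀ l ≤ m,
      |(cnt Y a (a + L * k / m) (Λ * l / m) : ℝ) - (Λ * l / m) * (L * k / m)| ≤
        e / 8 + 1 := by
    intro k hk l hl
    have h1 := hgood k hk l hl
    have h2 := mean_RegE G (a := a) (b := b) (c := a + L * k / m) (θ := Λ * l / m) ha
      (by linarith [(hgrid k hk).1]) (by linarith [(hgrid k hk).2]) hb (hgridΛ l hl).1
      ((hgridΛ l hl).2.trans hΛn)
    have h3 : a + L * (k : ℕ) / m - a = L * k / m := by ring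
    rw [h3] at h2
    have h4 := abs_lt.1 h1
    have h5 := abs_le.1 h2
    rw [abs_le]
    constructor <;> linarith [h4.1, h4.2, h5.1, h5.2]
  -- step sizes
  have hstepL : L * (i + 1 : ℕ) / m = L * i / m + L / m := by
    push_cast
    ring
  have hstepΛ : Λ * (j + 1 : ℕ) / m = Λ * j / m + Λ / m := by
    push_cast
    ring
  have hcell : Λ * L / m ≤ e / 16 := by
    rw [div_le_iff₀ hm0]
    linarith
  have hcell2 : Λ * (L / m) ≤ e / 16 := by
    have : Λ * (L / m) = Λ * L / m := by ring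
    rw [this]; exact hcell
  have hcell3 : (Λ / m) * L ≤ e / 16 := by
    have : (Λ / m) * L = Λ * L / m := by ring
    rw [this]; exact hcell
  have hLm0 : 0 ≤ L / m := by positivity
  have hΛm0 : 0 ≤ Λ / m := by positivity
  rw [abs_le]
  constructor
  · -- lower bound
    have h1 : (cnt Y a (a + L * i / m) (Λ * j / m) : ℝ) ≤ cnt Y a c θ := by
      exact_mod_cast cnt_mono_RegE Y (by linarith) hj1
    have h2 := (abs_le.1 (hmean i him.le j hjm.le)).1
    have h3 : θ * (c - a) - (Λ * j / m) * (L * i / m) ≤ e / 8 := by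
      have e1 : θ * (c - a) - (Λ * j / m) * (L * i / m) =
          (θ - Λ * j / m) * (c - a) + (Λ * j / m) * (c - a - L * i / m) := by ring
      have e2 : (θ - Λ * j / m) * (c - a) ≤ (Λ / m) * L := by
        refine mul_le_mul (by linarith) (by linarith) (by linarith) hΛm0
      have e3 : (Λ * j / m) * (c - a - L * i / m) ≤ Λ * (L / m) := by
        refine mul_le_mul (hgridΛ j hjm.le).2 (by linarith) (by linarith) hΛ0
      rw [e1]
      linarith
    linarith
  · have h1 : (cnt Y a c θ : ℝ) ≤ cnt Y a (a + L * (i + 1 : ℕ) / m) (Λ * (j + 1 : ℕ) / m) := by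
      exact_mod_cast cnt_mono_RegE Y (by linarith) hj2
    have h2 := (abs_le.1 (hmean (i + 1) (by omega) (j + 1) (by omega))).2
    have h3 : (Λ * (j + 1 : ℕ) / m) * (L * (i + 1 : ℕ) / m) - θ * (c - a) ≤ e / 8 := by
      have e1 : (Λ * (j + 1 : ℕ) / m) * (L * (i + 1 : ℕ) / m) - θ * (c - a) =
          (Λ * (j + 1 : ℕ) / m - θ) * (L * (i + 1 : ℕ) / m) +
            θ * (L * (i + 1 : ℕ) / m - (c - a)) := by ring
      have e2 : (Λ * (j + 1 : ℕ) / m - θ) * (L * (i + 1 : ℕ) / m) ≤ (Λ / m) * L := by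
        refine mul_le_mul (by linarith) (hgrid (i + 1) (by omega)).2
          (hgrid (i + 1) (by omega)).1 hΛm0
      have e3 : θ * (L * (i + 1 : ℕ) / m - (c - a)) ≤ Λ * (L / m) := by
        refine mul_le_mul hθ (by linarith) (by linarith) hΛ0
      rw [e1]
      linarith
    linarith

end RegE

open Finset RegE in
/-- exponential bound for irregularity -/
theorem reg_exp : ∃ C : ℝ, 1 ≤ C ∧ ∀ (G : Grid) (a b Λ e : ℝ), -(1/2) ≤ a → a ≤ b →
    b ≤ 1/2 → 0 ≤ Λ → 0 < e →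
    G.pr a b (fun Y => ¬ Reg G.n Y a b Λ e) ≤
      C * ((Λ * (b - a) + 1) / e + 1) ^ 2 *
        Real.exp (-(e ^ 2 / (C * (Λ * (b - a) + e + 1)))) := by
  refine ⟨512, by norm_num, ?_⟩
  intro G a b Λ₀ e ha hab hb hΛ₀ he
  have hL0 : 0 ≤ b - a := by linarith
  have hμ0 : 0 ≤ Λ₀ * (b - a) := by positivity
  rcases lt_or_ge e 16 with he16 | he16
  · have h1 : e ^ 2 / (512 * (Λ₀ * (b - a) + e + 1)) ≤ 1 / 32 := by
      rw [div_le_iff₀ (by positivity)]
      nlinarith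
    have h2 : (31 / 32 : ℝ) ≤ Real.exp (-(e ^ 2 / (512 * (Λ₀ * (b - a) + e + 1)))) := by
      have := Real.add_one_le_exp (-(e ^ 2 / (512 * (Λ₀ * (b - a) + e + 1))))
      linarith
    have h3 : 1 ≤ ((Λ₀ * (b - a) + 1) / e + 1) ^ 2 := by
      have : 0 ≤ (Λ₀ * (b - a) + 1) / e := by positivity
      nlinarith
    refine (pr_le_one G a b _).trans ?_
    nlinarith
  · -- reduce to levels at most `n`
    set Λ : ℝ := min Λ₀ G.n with hΛ
    have hn := G.n_one
    have hΛ0 : 0 ≤ Λ := le_min hΛ₀ (by linarith)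
    have hΛn : Λ ≤ G.n := min_le_right _ _
    have hΛΛ₀ : Λ ≤ Λ₀ := min_le_left _ _
    set m : ℕ := ⌈16 * (Λ * (b - a)) / e⌉₊ + 1 with hm
    have hm1 : 1 ≤ m := by omega
    have hm0 : (0 : ℝ) < m := by exact_mod_cast hm1
    have hceil := Nat.le_ceil (16 * (Λ * (b - a)) / e)
    have hceil2 := Nat.ceil_lt_add_one (a := 16 * (Λ * (b - a)) / e) (by positivity)
    have hmR : (m : ℝ) = (⌈16 * (Λ * (b - a)) / e⌉₊ : ℝ) + 1 := by
      rw [hm]; push_cast; ring
    have hm2 : 16 * (Λ * (b - a)) ≤ e * m := by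
      have h1 : 16 * (Λ * (b - a)) / e ≤ m := by linarith
      rw [div_le_iff₀ he] at h1
      linarith
    -- the bad events
    set B : ℕ × ℕ → Finset Pt → Prop := fun v Y =>
      e / 8 ≤ |((Y.filter (fun w : Pt => a ≤ w.1 ∧ w.1 < a + (b - a) * v.1 / m ∧
          w.2 ≤ Λ * v.2 / m)).card : ℝ) -
        ∑ _v ∈ (G.fld a b).filter (fun w : Pt => a ≤ w.1 ∧ w.1 < a + (b - a) * v.1 / m ∧
          w.2 ≤ Λ * v.2 / m), G.p| with hB
    have hincl : ∀ Y ⊆ G.fld a b, ¬ Reg G.n Y a b Λ₀ e →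
        ∃ v ∈ (range (m + 1)) ×ˢ (range (m + 1)), B v Y := by
      intro Y _ hY
      by_contra hcon
      apply hY
      have hgood : ∀ i ≤ m, ∀ j ≤ m,
          |(cnt Y a (a + (b - a) * i / m) (Λ * j / m) : ℝ) -
            ∑ _v ∈ (G.fld a b).filter (fun v => a ≤ v.1 ∧ v.1 < a + (b - a) * i / m ∧
              v.2 ≤ Λ * j / m), G.p| < e / 8 := by
        intro i hi j hj
        by_contra h
        apply hcon
        refine ⟨(i, j), ?_, ?_⟩
        · rw [mem_product, mem_range, mem_range]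
          omega
        · rw [not_lt] at h
          exact h
      intro c d θ hac hcd hdb h0 hθ hθn
      have hθΛ : θ ≤ Λ := le_min hθ hθn
      have h1 := sandwich_RegE G Y ha hab hb hΛ0 hΛn he16 m hm1 hm2 hgood
        (c := c) (θ := θ) hac (hcd.trans hdb) h0 hθΛ
      have h2 := sandwich_RegE G Y ha hab hb hΛ0 hΛn he16 m hm1 hm2 hgood
        (c := d) (θ := θ) (hac.trans hcd) hdb h0 hθΛ
      have h3 := cnt_add_RegE Y θ hac hcd
      have h4 := abs_le.1 h1
      have h5 := abs_le.1 h2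
      rw [abs_le]
      constructor <;> nlinarith [h4.1, h4.2, h5.1, h5.2]
    have hpq := fld_pq G a b
    have h1 : G.pr a b (fun Y => ¬ Reg G.n Y a b Λ₀ e) ≤
        ∑ v ∈ (range (m + 1)) ×ˢ (range (m + 1)), prob (fun _ => G.p) (G.fld a b) (B v) :=
      (prob_mono hpq hincl).trans (prob_exists_le hpq _ _)
    -- each bad event
    set Q : ℝ := 2 * Real.exp (-((e / 8) ^ 2 / (4 * ((Λ * (b - a) + 1) + e / 8)))) with hQ
    have h2 : ∀ v ∈ (range (m + 1)) ×ˢ (range (m + 1)),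
        prob (fun _ => G.p) (G.fld a b) (B v) ≤ Q := by
      intro v hv
      rw [mem_product, mem_range, mem_range] at hv
      refine prob_chernoff hpq (fun w : Pt => a ≤ w.1 ∧ w.1 < a + (b - a) * v.1 / m ∧
          w.2 ≤ Λ * v.2 / m) (t := e / 8) (m := Λ * (b - a) + 1) (by linarith) ?_
      have hv1 : (v.1 : ℝ) ≤ m := by exact_mod_cast (by omega : v.1 ≤ m)
      have hv2 : (v.2 : ℝ) ≤ m := by exact_mod_cast (by omega : v.2 ≤ m)
      have hg1 : 0 ≤ (b - a) * v.1 / m := by positivity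
      have hg2 : (b - a) * v.1 / m ≤ b - a := by
        rw [div_le_iff₀ hm0]
        exact mul_le_mul_of_nonneg_left hv1 hL0
      have hg3 : 0 ≤ Λ * v.2 / m := by positivity
      have hg4 : Λ * v.2 / m ≤ Λ := by
        rw [div_le_iff₀ hm0]
        exact mul_le_mul_of_nonneg_left hv2 hΛ0
      have h3 := mean_RegE G (a := a) (b := b) (c := a + (b - a) * v.1 / m)
        (θ := Λ * v.2 / m) ha (by linarith) (by linarith) hb hg3 (hg4.trans hΛn)
      have h4 := (abs_le.1 h3).2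
      have h5 : Λ * v.2 / m * (a + (b - a) * v.1 / m - a) ≤ Λ * (b - a) := by
        refine mul_le_mul hg4 (by linarith) (by linarith) hΛ0
      linarith
    have h3 : G.pr a b (fun Y => ¬ Reg G.n Y a b Λ₀ e) ≤ ((m : ℝ) + 1) ^ 2 * Q := by
      refine h1.trans ((sum_le_sum h2).trans (le_of_eq ?_))
      rw [sum_const, card_product, card_range, nsmul_eq_mul]
      push_cast
      ring
    refine h3.trans ?_
    have hμ : Λ * (b - a) ≤ Λ₀ * (b - a) := mul_le_mul_of_nonneg_right hΛΛ₀ hL0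
    have hμ' : 0 ≤ Λ * (b - a) := by positivity
    -- the number of pairs
    have h4 : (m : ℝ) + 1 ≤ 16 * ((Λ₀ * (b - a) + 1) / e + 1) := by
      have h5 : 16 * (Λ * (b - a)) / e ≤ 16 * ((Λ₀ * (b - a) + 1) / e) := by
        rw [← mul_div_assoc]
        gcongr
        linarith
      have : 0 ≤ (Λ₀ * (b - a) + 1) / e := by positivity
      linarith
    have h5 : ((m : ℝ) + 1) ^ 2 ≤ 256 * ((Λ₀ * (b - a) + 1) / e + 1) ^ 2 := by
      calc ((m : ℝ) + 1) ^ 2 ≤ (16 * ((Λ₀ * (b - a) + 1) / e + 1)) ^ 2 :=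
            pow_le_pow_left₀ (by positivity) h4 2
        _ = _ := by ring
    have h6 : e ^ 2 / (512 * (Λ₀ * (b - a) + e + 1)) ≤
        (e / 8) ^ 2 / (4 * ((Λ * (b - a) + 1) + e / 8)) := by
      rw [div_le_div_iff₀ (by positivity) (by positivity)]
      have h7 : 0 ≤ e ^ 2 := by positivity
      nlinarith
    have h7 : Real.exp (-((e / 8) ^ 2 / (4 * ((Λ * (b - a) + 1) + e / 8)))) ≤
        Real.exp (-(e ^ 2 / (512 * (Λ₀ * (b - a) + e + 1)))) :=
      Real.exp_le_exp.2 (by linarith)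
    calc ((m : ℝ) + 1) ^ 2 * Q
        ≤ (256 * ((Λ₀ * (b - a) + 1) / e + 1) ^ 2) *
          (2 * Real.exp (-(e ^ 2 / (512 * (Λ₀ * (b - a) + e + 1))))) := by
          refine mul_le_mul h5 (by rw [hQ]; linarith) (by rw [hQ]; positivity) (by positivity)
      _ = _ := by ring

end Pool.Agent.Helper67.GR
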