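import Pool.Agent.Helper67.GR.St3
import Pool.Agent.Helper67.GR.RegE
import Pool.Agent.Helper67.GR.RegV
import Pool.Agent.Helper67.GR.Fld

/-! # GR project, module RP: regularity with tolerance of order `K/ℓ` -/

namespace Pool.Agent.Helper67.GR

open Finset

theorem decay_RP (n : ℕ) {δ ε : ℝ} (hδ : 0 < δ) (hε : 0 < ε) :
    ∃ N : ℕ, ∀ ℓ : ℕ, N ≤ ℓ → (ℓ : ℝ) ^ n * Real.exp (-(δ * ℓ)) ≤ ε := by
  have h1 := Real.tendsto_pow_mul_exp_neg_atTop_nhds_zero n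
  have hε' : 0 < ε * δ ^ n := by positivity
  have h2 := (h1.eventually (gt_mem_nhds hε')).exists_forall_of_atTop
  obtain ⟨a, ha⟩ := h2
  obtain ⟨N, hN⟩ := exists_nat_ge (a / δ)
  refine ⟨N, ?_⟩
  intro ℓ hℓ
  have h3 : a ≤ δ * ℓ := by
    have h4 : (N : ℝ) ≤ ℓ := by exact_mod_cast hℓ
    have h5 : a / δ ≤ ℓ := hN.trans h4
    rw [div_le_iff₀ hδ] at h5
    linarith
  have h6 := ha (δ * ℓ) h3
  rw [mul_pow] at h6
  have hd : 0 < δ ^ n := by positivity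
  have h7 : δ ^ n * ((ℓ : ℝ) ^ n * Real.exp (-(δ * ℓ))) ≤ δ ^ n * ε := by
    calc δ ^ n * ((ℓ : ℝ) ^ n * Real.exp (-(δ * ℓ)))
        = δ ^ n * (ℓ : ℝ) ^ n * Real.exp (-(δ * ℓ)) := by ring
      _ ≤ ε * δ ^ n := h6.le
      _ = δ ^ n * ε := by ring
  exact le_of_mul_le_mul_left h7 hd

theorem hRP : StRP := by
  intro T
  obtain ⟨C, hC1, hC⟩ := reg_exp
  have hC0 : 0 < C := by linarith
  obtain ⟨N, hN⟩ := decay_RP (4 + 8 * T) (δ := 1 / (550000000 * C))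
    (ε := 1 / (C * 105001 ^ 2 * 256 ^ T)) (by positivity) (by positivity)
  refine ⟨max N 1, ?_⟩
  intro ℓ K hℓ₀ hPar G a b Λ e ha hab hb hΛ hΛb he
  obtain ⟨hK1, hK2⟩ := hPar
  have hℓ1 : 1 ≤ ℓ := (le_max_right N 1).trans hℓ₀
  have hℓN : N ≤ ℓ := (le_max_left N 1).trans hℓ₀
  have hK : 1 ≤ K := (Nat.one_le_pow _ _ hℓ1).trans hK1
  have hKr : (1 : ℝ) ≤ K := by exact_mod_cast hK
  have hℓr : (1 : ℝ) ≤ ℓ := by exact_mod_cast hℓ1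
  have hK0 : (0 : ℝ) < K := by linarith
  have hℓ0 : (0 : ℝ) < ℓ := by linarith
  set e₀ : ℝ := (K : ℝ) / (5000 * ℓ) with he₀
  have he₀0 : 0 < e₀ := by positivity
  have hmono : G.pr a b (fun Y => ¬ Reg G.n Y a b Λ e) ≤
      G.pr a b (fun Y => ¬ Reg G.n Y a b Λ e₀) :=
    prob_mono (fld_pq G a b) (fun Y _ h h' => h (reg_mono h' le_rfl le_rfl le_rfl he))
  refine (hmono.trans (hC G a b Λ e₀ ha hab hb hΛ he₀0)).trans ?_
  have hμ0 : 0 ≤ Λ * (b - a) := mul_nonneg hΛ (by linarith)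
  have hℓK : (1 : ℝ) ≤ ℓ * K := by nlinarith
  have he₀K : e₀ ≤ ℓ * K := by
    rw [he₀, div_le_iff₀ (by positivity)]
    have h1 : (1 : ℝ) ≤ ℓ * (5000 * ℓ) := by nlinarith
    calc (K : ℝ) = K * 1 := (mul_one _).symm
      _ ≤ K * (ℓ * (5000 * ℓ)) := mul_le_mul_of_nonneg_left h1 hK0.le
      _ = ℓ * K * (5000 * ℓ) := by ring
  -- polynomial factor
  have hpoly : (Λ * (b - a) + 1) / e₀ + 1 ≤ 105001 * (ℓ : ℝ) ^ 2 := by
    have h1 : (Λ * (b - a) + 1) / e₀ ≤ 105000 * (ℓ : ℝ) ^ 2 := by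
      rw [div_le_iff₀ he₀0, he₀]
      have h2 : 105000 * (ℓ : ℝ) ^ 2 * (K / (5000 * ℓ)) = 21 * (ℓ * K) := by
        field_simp; ring
      rw [h2]
      linarith
    have h3 : (1 : ℝ) ≤ (ℓ : ℝ) ^ 2 := one_le_pow₀ hℓr
    linarith
  have hpoly0 : 0 ≤ (Λ * (b - a) + 1) / e₀ + 1 := by positivity
  have hpoly2 : ((Λ * (b - a) + 1) / e₀ + 1) ^ 2 ≤ (105001 * (ℓ : ℝ) ^ 2) ^ 2 :=
    pow_le_pow_left₀ hpoly0 hpoly 2
  -- exponent
  have hexp : 1 / (550000000 * C) * (ℓ : ℝ) ≤ e₀ ^ 2 / (C * (Λ * (b - a) + e₀ + 1)) := by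
    rw [le_div_iff₀ (by positivity)]
    have h1 : C * (Λ * (b - a) + e₀ + 1) ≤ C * (22 * (ℓ * K)) := by
      apply mul_le_mul_of_nonneg_left _ hC0.le
      linarith
    have h2 : (ℓ : ℝ) ^ 4 ≤ K := by
      have : ℓ ^ 4 ≤ K := (Nat.pow_le_pow_right hℓ1 (by norm_num)).trans hK1
      exact_mod_cast this
    calc 1 / (550000000 * C) * (ℓ : ℝ) * (C * (Λ * (b - a) + e₀ + 1))
        ≤ 1 / (550000000 * C) * (ℓ : ℝ) * (C * (22 * (ℓ * K))) :=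
          mul_le_mul_of_nonneg_left h1 (by positivity)
      _ = (ℓ : ℝ) ^ 4 * K / (25000000 * ℓ ^ 2) := by field_simp; ring
      _ ≤ K * K / (25000000 * ℓ ^ 2) := by
          apply div_le_div_of_nonneg_right _ (by positivity)
          exact mul_le_mul_of_nonneg_right h2 hK0.le
      _ = e₀ ^ 2 := by rw [he₀]; field_simp; ring
  have hexp2 : Real.exp (-(e₀ ^ 2 / (C * (Λ * (b - a) + e₀ + 1)))) ≤
      Real.exp (-(1 / (550000000 * C) * (ℓ : ℝ))) := Real.exp_le_exp.2 (neg_le_neg hexp)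
  have hKT : (K : ℝ) ^ T ≤ 256 ^ T * (ℓ : ℝ) ^ (8 * T) := by
    have h1 : (K : ℝ) ≤ 256 * (ℓ : ℝ) ^ 8 := by
      have h2 : K ≤ 256 * ℓ ^ 8 := by
        calc K ≤ (ℓ + 1) ^ 8 := hK2.le
          _ ≤ (2 * ℓ) ^ 8 := Nat.pow_le_pow_left (by omega) 8
          _ = 256 * ℓ ^ 8 := by rw [mul_pow]; norm_num
      exact_mod_cast h2
    calc (K : ℝ) ^ T ≤ (256 * (ℓ : ℝ) ^ 8) ^ T := pow_le_pow_left₀ hK0.le h1 T
      _ = 256 ^ T * (ℓ : ℝ) ^ (8 * T) := by rw [mul_pow, ← pow_mul]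
  rw [le_div_iff₀ (by positivity)]
  have hN' := hN ℓ hℓN
  have hE0 := (Real.exp_pos (-(1 / (550000000 * C) * (ℓ : ℝ)))).le
  calc C * ((Λ * (b - a) + 1) / e₀ + 1) ^ 2 *
        Real.exp (-(e₀ ^ 2 / (C * (Λ * (b - a) + e₀ + 1)))) * (K : ℝ) ^ T
      ≤ C * (105001 * (ℓ : ℝ) ^ 2) ^ 2 *
        Real.exp (-(1 / (550000000 * C) * (ℓ : ℝ))) * (256 ^ T * (ℓ : ℝ) ^ (8 * T)) := by
        apply mul_le_mul _ hKT (by positivity) (by positivity)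
        apply mul_le_mul _ hexp2 (Real.exp_pos _).le (by positivity)
        exact mul_le_mul_of_nonneg_left hpoly2 hC0.le
    _ = (C * 105001 ^ 2 * 256 ^ T) * ((ℓ : ℝ) ^ (4 + 8 * T) *
        Real.exp (-(1 / (550000000 * C) * (ℓ : ℝ)))) := by
        rw [pow_add]; ring
    _ ≤ (C * 105001 ^ 2 * 256 ^ T) * (1 / (C * 105001 ^ 2 * 256 ^ T)) :=
        mul_le_mul_of_nonneg_left hN' (by positivity)
    _ = 1 := by field_simp

end Pool.Agent.Helper67.GR
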