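import Pool.Agent.Helper67.GR.St4
import Pool.Agent.Helper67.GR.Mom
import Pool.Agent.Helper67.GR.Fld
import Pool.Agent.Helper67.GR.RegV
import Pool.Agent.Helper67.GR.Local

/-! # GR project: module SE, boxes near the source -/

namespace Pool.Agent.Helper67.GR

open Finset

/-- numerics -/
theorem num_SE {ℓ K : ℕ} (hℓ : 7 ≤ ℓ) (h : Par ℓ K) : 823543 * (ℓ : ℝ) ≤ K ∧ ℓ ≤ K := by
  have hℓr : (7 : ℝ) ≤ ℓ := by exact_mod_cast hℓ
  have hK8 : (ℓ : ℝ) ^ 8 ≤ K := by exact_mod_cast h.1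
  have h1 : (7 : ℝ) ^ 7 ≤ (ℓ : ℝ) ^ 7 := pow_le_pow_left₀ (by norm_num) hℓr 7
  have h2 : (ℓ : ℝ) ^ 8 = (ℓ : ℝ) ^ 7 * ℓ := pow_succ _ _
  have h3 : (7 : ℝ) ^ 7 * ℓ ≤ (ℓ : ℝ) ^ 7 * ℓ := mul_le_mul_of_nonneg_right h1 (by linarith)
  have h4 : (7 : ℝ) ^ 7 = 823543 := by norm_num
  rw [h4] at h3
  have h5 : 823543 * (ℓ : ℝ) ≤ K := by linarith
  refine ⟨h5, ?_⟩
  have h6 : (ℓ : ℝ) ≤ K := by linarith
  exact_mod_cast h6

/-- the stay event in the full field -/
theorem stay_SE {K : ℕ} {G : Grid} {r Λ z B : ℝ} {s t : Pt} (hr : z ≤ r) (hs : -r < s.1)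
    (hz : z ≤ 0) (ht : t.1 = 0) (hs1 : 0 < s.2) (hs2 : s.2 ≤ G.n)
    (hFI : ∀ (ω : Finset Pt), Lab G.n ω → (∀ v ∈ ω, v.1 ≤ s.1) → s ∈ ω →
      prob (fun _ => G.p) ((G.Xs.filter (fun x => s.1 < x ∧ x < z)) ×ˢ G.Ts)
        (fun Y => Stay K (ω ∪ Y) Λ z s) ≤ B) :
    prob (fun _ => G.p) (G.sfld r) (fun Y => Stay K (Y ∪ {s, t}) Λ z s) ≤ B := by
  classical
  set T₂ : Finset Pt := (G.Xs.filter (fun x => s.1 < x ∧ x < z)) ×ˢ G.Ts with hT₂
  have hsub : T₂ ⊆ G.sfld r := by
    intro v hv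
    rw [hT₂, mem_product, mem_filter] at hv
    unfold Grid.sfld
    rw [mem_product, mem_filter]
    exact ⟨⟨hv.1.1, abs_lt.2 ⟨by linarith [hv.1.2.1], by linarith [hv.1.2.2]⟩⟩, hv.2⟩
  have hunion : (G.sfld r \ T₂) ∪ T₂ = G.sfld r := sdiff_union_of_subset hsub
  have hdisj : Disjoint (G.sfld r \ T₂) T₂ := sdiff_disjoint
  have hpq : Pq (fun _ : Pt => G.p) (G.sfld r \ T₂) := (sfld_pq G r).mono sdiff_subset
  rw [← hunion]
  have hpq' : Pq (fun _ : Pt => G.p) ((G.sfld r \ T₂) ∪ T₂) := by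
    rw [hunion]; exact sfld_pq G r
  have key := bern_union_le (q := fun _ : Pt => G.p) (S := G.sfld r \ T₂) (T := T₂) hpq hdisj
    (f := fun Y => ind (Stay K (Y ∪ {s, t}) Λ z s)) (g := fun _ => B) (fun X hX => ?_)
  · rw [bern_const] at key
    exact key
  · have hω := hFI (X.filter (fun v => v.1 ≤ s.1) ∪ {s}) ?_ ?_ ?_
    · refine le_trans (le_of_eq ?_) hω
      refine prob_congr fun Y hY => ?_
      refine stay_local (fun q hq => ?_) hz
      simp only [mem_union, mem_filter, mem_insert, mem_singleton]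
      constructor
      · rintro ((h | h) | h | h)
        · by_cases hqs : q.1 ≤ s.1
          · exact Or.inl (Or.inl ⟨h, hqs⟩)
          · exfalso
            have h1 := hX h
            rw [mem_sdiff] at h1
            refine h1.2 ?_
            rw [hT₂, mem_product, mem_filter]
            have h2 := h1.1
            unfold Grid.sfld at h2
            rw [mem_product, mem_filter] at h2
            exact ⟨⟨h2.1.1, not_le.1 hqs, hq⟩, h2.2⟩
        · exact Or.inr h
        · exact Or.inl (Or.inr h)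
        · exfalso
          rw [h, ht] at hq
          linarith
      · rintro ((h | h) | h)
        · exact Or.inl (Or.inl h.1)
        · exact Or.inr (Or.inl h)
        · exact Or.inl (Or.inr h)
    · intro v hv
      rcases mem_union.1 hv with hv | hv
      · have h1 := hX (mem_filter.1 hv).1
        rw [mem_sdiff] at h1
        have h2 := h1.1
        unfold Grid.sfld at h2
        rw [mem_product] at h2
        exact G.Ts_mem _ h2.2
      · rw [mem_singleton.1 hv]
        exact ⟨hs1, hs2⟩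
    · intro v hv
      rcases mem_union.1 hv with hv | hv
      · exact (mem_filter.1 hv).2
      · rw [mem_singleton.1 hv]
    · exact mem_union_right _ (mem_singleton_self s)

/-- expected count on a bad event -/
theorem cnt_SE {G : Grid} {r a b θ : ℝ} (ha : -r < a) (hab : a ≤ b) (hb : b ≤ r)
    (hr : r ≤ 1 / 2) (hθ : 0 ≤ θ) (A : Finset Pt → Prop) :
    bern (fun _ => G.p) (G.sfld r) (fun Y => (cnt Y a b θ : ℝ) * ind (A Y)) ≤
      (θ * (b - a) + 2) * Real.sqrt (prob (fun _ => G.p) (G.sfld r) A) := by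
  classical
  have hpq := sfld_pq G r
  refine (bern_mul_ind_le hpq (fun Y => (cnt Y a b θ : ℝ)) A).trans ?_
  refine mul_le_mul_of_nonneg_right ?_ (Real.sqrt_nonneg _)
  set μ := ∑ _v ∈ (G.sfld r).filter (fun v => a ≤ v.1 ∧ v.1 < b ∧ v.2 ≤ θ), G.p with hμ
  have hμ0 : 0 ≤ μ := sum_nonneg fun _ _ => G.p_pos.le
  have h1 : bern (fun _ => G.p) (G.sfld r) (fun Y => (cnt Y a b θ : ℝ) ^ 2) ≤ μ ^ 2 + μ :=
    bern_card_sq_le hpq _
  have h2 : μ ≤ θ * (b - a) + G.κ := by
    have h3 : (G.sfld r).filter (fun v => a ≤ v.1 ∧ v.1 < b ∧ v.2 ≤ θ) =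
        (G.fld a b).filter (fun v => v.2 ≤ θ) := by
      ext v
      rw [mem_filter, mem_filter, mem_fld]
      unfold Grid.sfld
      rw [mem_product, mem_filter]
      constructor
      · rintro ⟨⟨⟨h1, _⟩, h3⟩, h4, h5, h6⟩
        exact ⟨⟨h1, h3, h4, h5⟩, h6⟩
      · rintro ⟨⟨h1, h3, h4, h5⟩, h6⟩
        exact ⟨⟨⟨h1, abs_lt.2 ⟨by linarith, by linarith⟩⟩, h3⟩, h4, h5, h6⟩
    rw [hμ, h3]
    exact mean_le' G a b θ (by linarith) hab (by linarith) hθ
  rw [Real.sqrt_le_iff]
  have h3 : 0 ≤ θ * (b - a) := mul_nonneg hθ (by linarith)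
  refine ⟨by linarith, h1.trans ?_⟩
  have h4 := G.κ_le
  nlinarith

/-- probability of irregularity in the full field -/
theorem reg_SE {G : Grid} {r a b Λ e : ℝ} {s t : Pt} (ha : -r < a) (hb : b ≤ r) :
    prob (fun _ => G.p) (G.sfld r) (fun Y => ¬ Reg G.n (Y ∪ {s, t}) a b Λ e) ≤
      G.pr a b (fun Y => ¬ Reg G.n Y a b Λ (e - 2)) := by
  classical
  rw [← pr_marginal_sfld G ha hb (fun Y => ¬ Reg G.n Y a b Λ (e - 2)) (fun X hX => ?_)]
  · refine prob_mono (sfld_pq G r) fun X _ h => ?_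
    intro h2
    refine h ?_
    refine reg_mono (reg_union (Q := {s, t}) h2) le_rfl le_rfl le_rfl ?_
    have h3 : ((({s, t} : Finset Pt).card : ℕ) : ℝ) ≤ 2 := by exact_mod_cast card_le_two
    linarith
  · refine not_congr (reg_congr fun q h1 h2 => ?_)
    rw [mem_inter]
    constructor
    · intro h
      refine ⟨h, (mem_fld G).2 ?_⟩
      have h3 := hX h
      unfold Grid.sfld at h3
      rw [mem_product, mem_filter] at h3
      exact ⟨h3.1.1, h3.2, h1, h2⟩
    · exact fun h => h.1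

theorem hSE (hbtr : StBTR) (hfi : StFIv) (hrp : StRP) (hpk : StPack) (hpi : StPI) : StSE := by
  classical
  obtain ⟨c₁, hc0, hc1, K₀, hFI⟩ := hfi
  obtain ⟨ℓ₁, hBTR⟩ := hbtr
  refine ⟨c₁ / 8, by linarith, by linarith, fun T => ?_⟩
  obtain ⟨ℓ₂, hRP⟩ := hrp (2 * T + 4)
  refine ⟨max (max ℓ₁ ℓ₂) (max 7 K₀), ?_⟩
  intro ℓ K hℓ hpar ε G L s t j hH hs0 hj1 hj2
  have hℓ1 : ℓ₁ ≤ ℓ := ((le_max_left _ _).trans (le_max_left _ _)).trans hℓ
  have hℓ2 : ℓ₂ ≤ ℓ := ((le_max_right _ _).trans (le_max_left _ _)).trans hℓ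
  have hℓ7 : 7 ≤ ℓ := ((le_max_left _ _).trans (le_max_right _ _)).trans hℓ
  have hℓK : K₀ ≤ ℓ := ((le_max_right _ _).trans (le_max_right _ _)).trans hℓ
  obtain ⟨hKℓ, hℓleK⟩ := num_SE hℓ7 hpar
  have hℓr : (7 : ℝ) ≤ ℓ := by exact_mod_cast hℓ7
  have hℓ0 : (0 : ℝ) < ℓ := by linarith
  have hKbig : (5764801 : ℝ) ≤ K := by linarith
  have hK0 : (0 : ℝ) < K := by linarith
  obtain ⟨⟨hε0, hε8, hsε, hsε', hs1, hs2, ht0, ht1, ht2⟩, hκ, hL0, hLn, hεL⟩ := hH
  obtain ⟨R, hR⟩ : ∃ R : ℝ, R = (K : ℝ) / L := ⟨_, rfl⟩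
  have hR0 : 0 < R := by rw [hR]; positivity
  have eR : ∀ x : ℝ, x * K / L = x * R := fun x => by rw [hR]; ring
  have hRL : R * L = K := by rw [hR]; field_simp
  obtain ⟨y, hy⟩ : ∃ y : ℝ, y = yc K L j := ⟨_, rfl⟩
  have hyR : y = -((j + 1 / 2) * R) := by rw [hy, yc, eR]
  have hbox1 : -(((j : ℝ) + 1) * K / L) = y - R / 2 := by rw [eR, hyR]; ring
  have hbox2 : -((j : ℝ) * K / L) = y + R / 2 := by rw [eR, hyR]; ring
  rw [← hy] at hj1 hj2 ⊢
  rw [hbox1, hbox2, ← hR]
  rw [eR] at hj1 hj2 hεL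
  have hεpow : ε ^ 4 ≤ ε / 512 := by
    have h1 : ε ^ 3 ≤ (1 / 8) ^ 3 := pow_le_pow_left₀ hε0.le hε8 3
    calc ε ^ 4 = ε ^ 3 * ε := by ring
      _ ≤ (1 / 8) ^ 3 * ε := mul_le_mul_of_nonneg_right h1 hε0.le
      _ = ε / 512 := by ring
  have hRℓ : 7 * R ≤ ℓ * R := mul_le_mul_of_nonneg_right hℓr hR0.le
  have hKK : 7 * (K : ℝ) ≤ ℓ * K := mul_le_mul_of_nonneg_right hℓr hK0.le
  have hℓR : 51200 * (ℓ * R) ≤ ε := by linarith
  have hRε : 51200 * (7 * R) ≤ ε := by linarith
  rw [abs_of_neg hs0] at hsε hsε'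
  have hyneg : y + 30 * R ≤ 0 := by linarith
  have hrr : rr ε = 1 / 2 - ε / 4 := rfl
  have hb0 : y + R / 2 ≤ 0 := by linarith
  -- the events
  obtain ⟨e, he⟩ : ∃ e : ℝ, e = (K : ℝ) / (400 * ℓ) := ⟨_, rfl⟩
  have he0 : 0 ≤ e := by rw [he]; positivity
  have he10 : e ≤ (K : ℝ) / 10 := by
    rw [he]
    apply div_le_div_of_nonneg_left hK0.le (by norm_num)
    linarith
  set St : Finset Pt → Prop := fun Y => Stay K (Y ∪ {s, t}) (L / 8) (y - R) s with hSt
  set Ba : Finset Pt → Prop := fun Y => ¬ Reg G.n (Y ∪ {s, t}) (s.1 - 30 * R) (y + 30 * R)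
    (2 * L) e with hBa
  refine ⟨fun Y => 12 * ind (St Y) + (cnt Y (y - R / 2) (y + R / 2) (2 * L) : ℝ) * ind (Ba Y),
    fun Y => ?_, ?_, ?_⟩
  · have h1 := ind_nonneg (St Y)
    have h2 := ind_nonneg (Ba Y)
    positivity
  · -- the expectation
    rw [bern_add]
    refine add_le_add ?_ ?_
    · rw [bern_smul]
      have h1 : bern (fun _ => G.p) (G.sfld (rr ε)) (fun Y => ind (St Y)) ≤
          2 * Real.exp (-(c₁ * (L / 8) * ((y - R) - s.1) / K)) := by
        refine stay_SE (K := K) (G := G) (r := rr ε) (Λ := L / 8) (z := y - R) (s := s) (t := t)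
          (by rw [hrr]; linarith) (by rw [hrr]; linarith) (by linarith) ht0 hs1 hs2
          (fun ω h1 h2 h3 => ?_)
        exact hFI K (hℓK.trans hℓleK) G (L / 8) (y - R) ω s (by linarith) (by linarith)
          (by linarith) (by linarith) h1 h2 h3
      have h2 : c₁ * (L / 8) * ((y - R) - s.1) / K = c₁ / 8 * (y - s.1) / R - c₁ / 8 := by
        rw [← hRL]
        field_simp
        ring
      have h3 : Real.exp (-(c₁ * (L / 8) * ((y - R) - s.1) / K)) ≤
          4 * Real.exp (-(c₁ / 8 * (y - s.1) / R)) := by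
        rw [h2, neg_sub, sub_eq_add_neg, Real.exp_add]
        refine mul_le_mul_of_nonneg_right ?_ (Real.exp_pos _).le
        have h4 : Real.exp (c₁ / 8) ≤ Real.exp 1 := Real.exp_le_exp.2 (by linarith)
        have h5 := Real.exp_one_lt_d9
        linarith
      linarith [Real.exp_pos (-(c₁ / 8 * (y - s.1) / R))]
    · have h1 := cnt_SE (G := G) (r := rr ε) (a := y - R / 2) (b := y + R / 2) (θ := 2 * L)
        (by rw [hrr]; linarith) (by linarith) (by rw [hrr]; linarith) (by rw [hrr]; linarith)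
        (by linarith) Ba
      refine h1.trans ?_
      have h2 : 2 * L * ((y + R / 2) - (y - R / 2)) + 2 = 2 * K + 2 := by
        rw [← hRL]; ring
      rw [h2]
      have h3 : prob (fun _ => G.p) (G.sfld (rr ε)) Ba ≤ 1 / (K : ℝ) ^ (2 * T + 4) := by
        refine (reg_SE (G := G) (r := rr ε) (a := s.1 - 30 * R) (b := y + 30 * R) (Λ := 2 * L)
          (e := e) (s := s) (t := t) (by rw [hrr]; linarith) (by rw [hrr]; linarith)).trans ?_
        refine hRP ℓ K hℓ2 hpar G _ _ _ _ (by linarith) (by linarith) (by linarith)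
          (by linarith) ?_ ?_
        · have h4 : y + 30 * R - (s.1 - 30 * R) ≤ (ℓ + 62) * R := by linarith
          have h5 : 2 * L * (y + 30 * R - (s.1 - 30 * R)) ≤ 2 * L * ((ℓ + 62) * R) :=
            mul_le_mul_of_nonneg_left h4 (by linarith)
          have h6 : 2 * L * ((ℓ + 62) * R) = 2 * (ℓ + 62) * K := by rw [← hRL]; ring
          rw [h6] at h5
          linarith
        · have h4 : (K : ℝ) / (5000 * ℓ) = 2 / 25 * e := by rw [he]; field_simp; ring
          have h5 : 1000 ≤ e := by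
            rw [he, le_div_iff₀ (by positivity)]
            linarith
          rw [h4]
          linarith
      have h4 : Real.sqrt (prob (fun _ => G.p) (G.sfld (rr ε)) Ba) ≤ 1 / (K : ℝ) ^ (T + 2) := by
        rw [Real.sqrt_le_left (by positivity)]
        refine h3.trans (le_of_eq ?_)
        rw [div_pow, one_pow, ← pow_mul]
        congr 2
        ring
      have h5 : (2 * (K : ℝ) + 2) * (1 / (K : ℝ) ^ (T + 2)) ≤ 1 / (K : ℝ) ^ T := by
        rw [pow_add, mul_one_div, div_le_div_iff₀ (by positivity) (by positivity), one_mul,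
          mul_comm]
        refine mul_le_mul_of_nonneg_left ?_ (by positivity)
        nlinarith
      exact (mul_le_mul_of_nonneg_left h4 (by linarith)).trans h5
  · -- the deterministic part
    intro Y hY Z hZ v m hpath
    obtain ⟨hPI1, hPI2, hPI3⟩ := hpi K (cfg Y Z s t) s v m hpath
    have hYm : ∀ p ∈ Y, |p.1| < rr ε ∧ 0 < p.2 ∧ p.2 ≤ G.n := by
      intro p hp
      have h1 := hY hp
      unfold Grid.sfld at h1
      rw [mem_product, mem_filter] at h1
      exact ⟨h1.1.2, G.Ts_mem _ h1.2⟩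
    have hmem : ∀ p, p ∈ cfg Y Z s t ↔ (p ∈ Y ∨ p ∈ Z) ∨ p = s ∨ p = t := by
      intro p
      unfold cfg
      simp only [mem_union, mem_insert, mem_singleton]
    have hmem' : ∀ p, p ∈ Y ∪ {s, t} ↔ p ∈ Y ∨ p = s ∨ p = t := by
      intro p
      simp only [mem_union, mem_insert, mem_singleton]
    have hLab : Lab G.n (cfg Y Z s t) := by
      intro p hp
      rcases (hmem p).1 hp with (h | h) | h | h
      · exact (hYm p h).2
      · exact (hZ p h).2.2
      · rw [h]; exact ⟨hs1, hs2⟩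
      · rw [h]; exact ⟨ht1, ht2⟩
    have hhalf : ∀ p ∈ cfg Y Z s t, |p.1| ≤ 1 / 2 := by
      intro p hp
      rcases (hmem p).1 hp with (h | h) | h | h
      · have := (hYm p h).1
        rw [hrr] at this
        linarith
      · exact (hZ p h).2.1
      · rw [h, abs_of_neg hs0]; linarith
      · rw [h, ht0, abs_zero]; norm_num
    have hsub : Y ∪ {s, t} ⊆ cfg Y Z s t := by
      intro p hp
      rcases (hmem' p).1 hp with h | h | h
      · exact (hmem p).2 (Or.inl (Or.inl h))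
      · exact (hmem p).2 (Or.inr (Or.inl h))
      · exact (hmem p).2 (Or.inr (Or.inr h))
    have hagree : ∀ p : Pt, s.1 - 30 * R ≤ p.1 → p.1 < y + 30 * R →
        (p ∈ cfg Y Z s t ↔ p ∈ Y ∪ {s, t}) := by
      intro p h1 h2
      refine ⟨fun hp => ?_, fun hp => hsub hp⟩
      rcases (hmem p).1 hp with (h | h) | h | h
      · exact (hmem' p).2 (Or.inl h)
      · exfalso
        have h3 := (hZ p h).1
        rw [hrr, abs_of_neg (by linarith)] at h3
        linarith
      · exact (hmem' p).2 (Or.inr (Or.inl h))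
      · exact (hmem' p).2 (Or.inr (Or.inr h))
    have hi1 := ind_nonneg (St Y)
    have hi2 := ind_nonneg (Ba Y)
    change (vis v m (y - R / 2) (y + R / 2) L (2 * L) : ℝ) ≤
      12 * ind (St Y) + (cnt Y (y - R / 2) (y + R / 2) (2 * L) : ℝ) * ind (Ba Y)
    by_cases hbad : Ba Y
    · rw [ind_of hbad, mul_one]
      have h1 : vis v m (y - R / 2) (y + R / 2) L (2 * L) ≤
          cnt Y (y - R / 2) (y + R / 2) (2 * L) := by
        refine (hPI3 _ _ _ _).trans (card_le_card fun p hp => ?_)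
        rw [mem_filter] at hp ⊢
        obtain ⟨hp1, hp2, hp3, hp4, hp5, hp6⟩ := hp
        refine ⟨?_, hp3, hp4, hp6.le⟩
        rcases (hmem p).1 hp1 with (h | h) | h | h
        · exact h
        · exfalso
          have h3 := (hZ p h).1
          rw [abs_of_neg hs0] at hp2
          rw [hrr] at h3
          linarith
        · exfalso
          rw [h] at hp3
          linarith
        · exfalso
          rw [h, ht0] at hp4
          linarith
      have h2 : (vis v m (y - R / 2) (y + R / 2) L (2 * L) : ℝ) ≤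
          cnt Y (y - R / 2) (y + R / 2) (2 * L) := by exact_mod_cast h1
      linarith
    · have hreg : Reg G.n (Y ∪ {s, t}) (s.1 - 30 * R) (y + 30 * R) (2 * L) e := not_not.1 hbad
      have hreg2 : Reg G.n (cfg Y Z s t) (s.1 - 30 * R) (y + 30 * R) (2 * L) e :=
        (reg_congr hagree).2 hreg
      rw [ind_of_not hbad, mul_zero, add_zero]
      rcases Nat.eq_zero_or_pos (vis v m (y - R / 2) (y + R / 2) L (2 * L)) with h0 | h0
      · rw [h0, Nat.cast_zero]
        linarith
      · unfold vis at h0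
        obtain ⟨k, hk⟩ := card_pos.1 h0
        rw [mem_filter, mem_range] at hk
        obtain ⟨hkm, hk1, hk2, hk3, hk4⟩ := hk
        have hst : St Y := by
          have hb := hBTR ℓ K hℓ1 hpar G.n L s.1 y (y - R) (cfg Y Z s t) (Y ∪ {s, t}) s v m k
            hL0 hLab (fun p hp => hLab p (hsub hp)) hhalf (fun p hp => hhalf p (hsub hp))
            (by simp only [eR]; exact hagree) (by simp only [eR]; linarith)
            (by simp only [eR]; exact hyneg) (by simp only [eR]; rw [← he]; exact hreg)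
            (by linarith) (by rw [← hR]) (by rw [eR]; linarith) hpath (by omega)
            (by rw [← hR]; linarith) (by rw [← hR]; linarith) (by linarith)
          rcases hb with ⟨_, _, h | h⟩ | ⟨h, _⟩
          · exfalso; linarith
          · exact h
          · exact absurd h (lt_irrefl _)
        rw [ind_of hst, mul_one]
        have hpack := hpk K G.n L (y - R / 2) (y + R / 2) e (cfg Y Z s t) s v m (by
            have : (40 : ℝ) ≤ K := by linarith
            exact_mod_cast this) hL0 hLab hhalf hpath hb0 (by linarith) (by rw [← hR]; linarith)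
          (by rw [eR]; linarith) he0 he10
          (by simp only [eR]; exact reg_mono hreg2 (by linarith) (by linarith) le_rfl le_rfl)
        have h5 : vis v m (y - R / 2) (y + R / 2) L (2 * L) ≤ 12 := by
          refine le_trans ?_ hpack
          unfold vis
          refine card_le_card fun i hi => ?_
          rw [mem_filter] at hi ⊢
          exact ⟨hi.1, hi.2.1, hi.2.2.1, hL0.le.trans hi.2.2.2.1, hi.2.2.2.2⟩
        exact_mod_cast h5

end Pool.Agent.Helper67.GR
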