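import Pool.Agent.Helper67.GR.St5
import Pool.Agent.Helper67.GR.M_MirP

/-! # GR module Sk: stuck vertices of one label level, both sides -/

namespace Pool.Agent.Helper67.GR

open Finset

theorem stuck_mir_Sk {K : ℕ} {P : Finset Pt} {v : Pt} (h : StuckAt K P v) :
    StuckAt K (P.image mir) (mir v) := by
  intro u hu hadj
  obtain ⟨u', hu', rfl⟩ := Finset.mem_image.1 hu
  have h5 := h u' hu' (adj_mir_iff_MirP.1 hadj)
  rw [mir_fst_MirP, mir_fst_MirP, abs_neg, abs_neg]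
  exact h5

theorem hSk (h : StSkL) (hb : StMirB) (hp : StMirP) : StSk := by
  intro T
  obtain ⟨ℓ₀, hℓ₀⟩ := h (T + 1)
  obtain ⟨hp1, hp2, hp3, hp4, hp5, hp6, hp7, hp8⟩ := hp
  refine ⟨max ℓ₀ 2, ?_⟩
  intro ℓ K hℓ hPar ε G L s t b hL hbL
  have hℓ1 : ℓ₀ ≤ ℓ := (le_max_left _ _).trans hℓ
  have hℓ2 : 2 ≤ ℓ := (le_max_right _ _).trans hℓ
  have hK2 : 2 ≤ K := by
    have h1 : 2 ^ 8 ≤ ℓ ^ 8 := Nat.pow_le_pow_left hℓ2 8
    have h2 := hPar.1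
    omega
  have hKr : (2 : ℝ) ≤ K := by exact_mod_cast hK2
  have hL' : HypL ε ℓ K G L (mir s) (mir t) := ⟨hp6 _ _ _ _ hL.1, hL.2⟩
  obtain ⟨Ψ₁, h11, h12, h13⟩ := hℓ₀ ℓ K hℓ1 hPar ε G L s t b hL hbL
  obtain ⟨Ψ₂, h21, h22, h23⟩ := hℓ₀ ℓ K hℓ1 hPar ε G L (mir s) (mir t) b hL' hbL
  refine ⟨fun Y => Ψ₁ Y + Ψ₂ (Y.image mir), fun Y => add_nonneg (h11 _) (h21 _), ?_, ?_⟩
  · rw [bern_add, hb G (rr ε) Ψ₂]
    have h3 : (1 / (K : ℝ) ^ b + G.κ) / (K : ℝ) ^ (T + 1) + (1 / (K : ℝ) ^ b + G.κ) / (K : ℝ) ^ (T + 1)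
        ≤ (1 / (K : ℝ) ^ b + G.κ) / (K : ℝ) ^ T := by
      have h4 : 0 ≤ (1 / (K : ℝ) ^ b + G.κ) := add_nonneg (by positivity) G.κ_pos
      have h5 : (0 : ℝ) < (K : ℝ) ^ T := by positivity
      rw [← add_div, pow_succ, div_le_div_iff₀ (by positivity) h5]
      have h6 : 0 ≤ (1 / (K : ℝ) ^ b + G.κ) * (K : ℝ) ^ T := mul_nonneg h4 h5.le
      nlinarith
    exact (add_le_add h12 h22).trans h3
  · intro Y hY Z hZ v m hpath hst hne hlo hhi hmem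
    rcases lt_or_gt_of_ne hne with hneg | hpos
    · have h3 := h13 Y hY Z hZ v m hpath hst hneg hlo hhi hmem
      have h4 := h21 (Y.image mir)
      show 1 ≤ Ψ₁ Y + Ψ₂ (Y.image mir)
      linarith
    · have h5 := hp1 _ _ _ _ _ hpath
      rw [hp3] at h5
      have h6 := stuck_mir_Sk hst
      rw [hp3] at h6
      have h3 := h23 (Y.image mir) (hp5 _ _ _ hY) (Z.image mir) (hp4 _ _ _ hZ)
        (fun i => mir (v i)) m h5 h6 (by rw [mir_fst_MirP]; linarith) hlo hhi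
        (Finset.mem_image_of_mem _ hmem)
      have h4 := h11 Y
      show 1 ≤ Ψ₁ Y + Ψ₂ (Y.image mir)
      linarith

end Pool.Agent.Helper67.GR
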