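import Pool.Agent.Helper67.GR.St5
import Pool.Agent.Helper67.GR.Fld

/-! # GR project, module SkL: stuck vertices of one level, left side -/

namespace Pool.Agent.Helper67.GR

open Finset

/-! ### an elementary sum -/

open Classical in
/-- `1/x²` for `|x| ≥ 1`, zero otherwise -/
noncomputable def hf_SkL (x : ℝ) : ℝ := if 1 ≤ |x| then 1 / x ^ 2 else 0

open Classical in
/-- potential -/
noncomputable def ph_SkL (x : ℝ) : ℝ :=
  if x ≤ 0 then 4 + 1 / (x - 1 / 2) else if 1 ≤ x then 1 / (x - 1 / 2) else 2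

theorem hf_nonneg_SkL (x : ℝ) : 0 ≤ hf_SkL x := by
  unfold hf_SkL
  split_ifs
  · positivity
  · exact le_rfl

theorem ph_le_SkL (x : ℝ) : ph_SkL x ≤ 4 := by
  unfold ph_SkL
  split_ifs with h1 h2
  · have : 1 / (x - 1 / 2) ≤ 0 := by
      apply div_nonpos_of_nonneg_of_nonpos <;> linarith
    linarith
  · rw [div_le_iff₀ (by linarith)]
    linarith
  · norm_num

theorem ph_nonneg_SkL (x : ℝ) : 0 ≤ ph_SkL x := by
  unfold ph_SkL
  split_ifs with h1 h2
  · have : -2 ≤ 1 / (x - 1 / 2) := by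
      rw [le_div_iff_of_neg (by linarith)]
      linarith
    linarith
  · apply div_nonneg <;> linarith
  · norm_num

theorem hf_le_SkL (x : ℝ) : hf_SkL x ≤ ph_SkL x - ph_SkL (x + 1) := by
  rcases le_or_gt x (-1) with h | h
  · have e1 : ph_SkL x = 4 + 1 / (x - 1 / 2) := by
      unfold ph_SkL; rw [if_pos (by linarith)]
    have e2 : ph_SkL (x + 1) = 4 + 1 / (x + 1 - 1 / 2) := by
      unfold ph_SkL; rw [if_pos (by linarith)]
    have e3 : hf_SkL x = 1 / x ^ 2 := by
      unfold hf_SkL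
      rw [if_pos]
      rw [abs_of_neg (by linarith)]
      linarith
    rw [e1, e2, e3]
    have h1 : x - 1 / 2 < 0 := by linarith
    have h2 : x + 1 - 1 / 2 < 0 := by linarith
    have h3 : 0 < x ^ 2 := by nlinarith
    have h4 : 0 < (x - 1 / 2) * (x + 1 - 1 / 2) := mul_pos_of_neg_of_neg h1 h2
    have h5 : 4 + 1 / (x - 1 / 2) - (4 + 1 / (x + 1 - 1 / 2)) =
        1 / ((x - 1 / 2) * (x + 1 - 1 / 2)) := by
      rw [add_sub_add_left_eq_sub, div_sub_div _ _ h1.ne h2.ne]
      congr 1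
      ring
    rw [h5]
    apply div_le_div_of_nonneg_left (by norm_num) h4
    nlinarith
  · rcases lt_or_ge x 1 with h' | h'
    · have e3 : hf_SkL x = 0 := by
        unfold hf_SkL
        rw [if_neg]
        rw [not_le, abs_lt]
        exact ⟨h, h'⟩
      rw [e3]
      rcases le_or_gt x 0 with h0 | h0
      · have e1 : ph_SkL x = 4 + 1 / (x - 1 / 2) := by
          unfold ph_SkL; rw [if_pos h0]
        have e2 : ph_SkL (x + 1) ≤ 2 := by
          unfold ph_SkL
          rw [if_neg (by linarith)]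
          split_ifs with h2
          · rw [div_le_iff₀ (by linarith)]; linarith
          · exact le_rfl
        have e4 : -2 ≤ 1 / (x - 1 / 2) := by
          rw [le_div_iff_of_neg (by linarith)]
          linarith
        linarith
      · have e1 : ph_SkL x = 2 := by
          unfold ph_SkL; rw [if_neg (by linarith), if_neg (by linarith)]
        have e2 : ph_SkL (x + 1) ≤ 2 := by
          unfold ph_SkL
          rw [if_neg (by linarith), if_pos (by linarith)]
          rw [div_le_iff₀ (by linarith)]; linarith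
        linarith
    · have e1 : ph_SkL x = 1 / (x - 1 / 2) := by
        unfold ph_SkL; rw [if_neg (by linarith), if_pos h']
      have e2 : ph_SkL (x + 1) = 1 / (x + 1 - 1 / 2) := by
        unfold ph_SkL; rw [if_neg (by linarith), if_pos (by linarith)]
      have e3 : hf_SkL x = 1 / x ^ 2 := by
        unfold hf_SkL
        rw [if_pos]
        rw [abs_of_pos (by linarith)]
        exact h'
      rw [e1, e2, e3]
      have h1 : 0 < x - 1 / 2 := by linarith
      have h2 : 0 < x + 1 - 1 / 2 := by linarith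
      have h3 : 0 < x ^ 2 := by nlinarith
      have h4 : 0 < (x - 1 / 2) * (x + 1 - 1 / 2) := mul_pos h1 h2
      have h5 : 1 / (x - 1 / 2) - 1 / (x + 1 - 1 / 2) =
          1 / ((x - 1 / 2) * (x + 1 - 1 / 2)) := by
        rw [div_sub_div _ _ h1.ne' h2.ne']
        congr 1
        ring
      rw [h5]
      apply div_le_div_of_nonneg_left (by norm_num) h4
      nlinarith

theorem sum_hf_SkL (c : ℝ) (N : ℕ) : ∑ j ∈ range N, hf_SkL (j + c) ≤ 4 := by
  have h : ∑ j ∈ range N, hf_SkL (j + c) ≤ ph_SkL c - ph_SkL (N + c) := by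
    induction N with
    | zero => simp
    | succ N ih =>
      rw [Finset.sum_range_succ]
      have h1 := hf_le_SkL (N + c)
      have h2 : ((N : ℝ) + c + 1) = ((N + 1 : ℕ) : ℝ) + c := by push_cast; ring
      rw [h2] at h1
      linarith
  linarith [ph_le_SkL c, ph_nonneg_SkL (N + c)]

theorem geom_SkL {K : ℕ} (hK : 2 ≤ K) (b : ℕ) :
    ∑ i ∈ range b, (1 : ℝ) / (K : ℝ) ^ (i + 1) ≤ 1 := by
  have hKr : (2 : ℝ) ≤ K := by exact_mod_cast hK
  have h : ∑ i ∈ range b, (1 : ℝ) / (K : ℝ) ^ (i + 1) ≤ 1 - 1 / 2 ^ b := by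
    induction b with
    | zero => simp
    | succ b ih =>
      rw [Finset.sum_range_succ]
      have h1 : (1 : ℝ) / (K : ℝ) ^ (b + 1) ≤ 1 / 2 ^ (b + 1) := by
        apply div_le_div_of_nonneg_left (by norm_num) (by positivity)
        exact pow_le_pow_left₀ (by norm_num) hKr _
      have h2 : (1 : ℝ) / 2 ^ b = 1 / 2 ^ (b + 1) + 1 / 2 ^ (b + 1) := by
        rw [pow_succ]; field_simp; norm_num
      linarith
  have : (0 : ℝ) < 1 / 2 ^ b := by positivity
  linarith

/-! ### means -/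

theorem mean_SkL (G : Grid) {r a b θ : ℝ} {W : Finset Pt} (hW : W ⊆ G.sfld r)
    (ha : -(1/2) ≤ a) (hab : a ≤ b) (hb : b ≤ 1/2) (h0 : 0 ≤ θ)
    (h : ∀ v ∈ W, a ≤ v.1 ∧ v.1 < b ∧ v.2 ≤ θ) :
    G.p * W.card ≤ θ * (b - a) + G.κ := by
  have h1 : W ⊆ (G.fld a b).filter (fun v => v.2 ≤ θ) := by
    intro v hv
    have h2 := hW hv
    unfold Grid.sfld at h2
    rw [mem_product, mem_filter] at h2
    rw [mem_filter, mem_fld]
    exact ⟨⟨h2.1.1, h2.2, (h v hv).1, (h v hv).2.1⟩, (h v hv).2.2⟩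
  have h3 := mean_le' G a b θ ha hab hb h0
  have h4 : G.p * W.card = ∑ _v ∈ W, G.p := by
    rw [sum_const, nsmul_eq_mul, mul_comm]
  rw [h4]
  exact (sum_le_sum_of_subset_of_nonneg h1 (fun _ _ _ => G.p_pos.le)).trans h3

theorem sqle_SkL {E x y z : ℝ} (hE : 0 ≤ E) (hx : E ≤ x) (hy : E ≤ y) (hz : 0 ≤ z)
    (h : x * y ≤ z ^ 2) : E ≤ z := by
  by_contra hc
  rw [not_le] at hc
  have h1 : E * E ≤ x * y := mul_le_mul hx hy hE (hE.trans hx)
  nlinarith

/-- the sum of the squares over the far boxes -/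
theorem far_sum_SkL {ε L : ℝ} {ℓ K N : ℕ} {s : Pt} (hL : 0 < L) (hK : 1 ≤ K) (hℓ : 1 ≤ ℓ)
    (hε : 0 < ε) (hε8 : ε ≤ 1 / 8) (hR : 100 * ℓ * K / L ≤ ε ^ 4) (hN : (N : ℝ) ≤ L / K + 2)
    (J : Finset ℕ) (hJ : J ⊆ range N) (hJf : ∀ j ∈ J, (ℓ : ℝ) * K / L < DD ε K L s j) :
    ∑ j ∈ J, (K / L / DD ε K L s j) ^ 2 ≤ 9 := by
  have hKr : (1 : ℝ) ≤ K := by exact_mod_cast hK
  have hℓr : (1 : ℝ) ≤ ℓ := by exact_mod_cast hℓ
  have hK0 : (0 : ℝ) < K := by linarith
  set R : ℝ := K / L with hRdef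
  have hR0 : 0 < R := by positivity
  have hRε : 100 * R ≤ ε ^ 4 := by
    refine le_trans ?_ hR
    rw [hRdef]
    have : 100 * (ℓ : ℝ) * K / L = ℓ * (100 * (K / L)) := by ring
    rw [this]
    have h100 : 0 ≤ 100 * (K / L) := by positivity
    nlinarith
  have hterm : ∀ j ∈ J, (R / DD ε K L s j) ^ 2 ≤
      hf_SkL (j + 1 / 2) + hf_SkL (j + (1 / 2 + s.1 / R)) + (2 * R / ε) ^ 2 := by
    intro j hj
    have h1 := hJf j hj
    have hℓR : R ≤ ℓ * K / L := by
      rw [hRdef, div_le_div_iff_of_pos_right hL]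
      nlinarith
    have hD : R < DD ε K L s j := lt_of_le_of_lt hℓR h1
    have hy : yc K L j = -((j + 1 / 2) * R) := by
      unfold yc; rw [hRdef]; ring
    have n1 := hf_nonneg_SkL (j + 1 / 2)
    have n2 := hf_nonneg_SkL (j + (1 / 2 + s.1 / R))
    have n3 : 0 ≤ (2 * R / ε) ^ 2 := by positivity
    have hcase : DD ε K L s j = |yc K L j| ∨ DD ε K L s j = |yc K L j - s.1| ∨
        DD ε K L s j = ε / 2 := by
      unfold DD
      rcases min_choice (min |yc K L j| |yc K L j - s.1|) (ε / 2) with h | h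
      · rw [h]
        rcases min_choice |yc K L j| |yc K L j - s.1| with h' | h'
        · left; exact h'
        · right; left; exact h'
      · right; right; exact h
    rcases hcase with h | h | h
    · have e1 : |yc K L j| = |(j : ℝ) + 1 / 2| * R := by
        rw [hy, abs_neg, abs_mul, abs_of_pos hR0]
      have e2 : 1 ≤ |(j : ℝ) + 1 / 2| := by
        rw [h, e1] at hD
        by_contra hc
        rw [not_le] at hc
        nlinarith
      have e3 : hf_SkL (j + 1 / 2) = (R / DD ε K L s j) ^ 2 := by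
        unfold hf_SkL
        rw [if_pos e2, h, e1, div_pow, mul_pow, sq_abs]
        have : (0 : ℝ) < ((j : ℝ) + 1 / 2) ^ 2 := by positivity
        field_simp
      linarith
    · have e1 : |yc K L j - s.1| = |(j : ℝ) + (1 / 2 + s.1 / R)| * R := by
        have : yc K L j - s.1 = -(((j : ℝ) + (1 / 2 + s.1 / R)) * R) := by
          rw [hy]; field_simp; ring
        rw [this, abs_neg, abs_mul, abs_of_pos hR0]
      have e2 : 1 ≤ |(j : ℝ) + (1 / 2 + s.1 / R)| := by
        rw [h, e1] at hD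
        by_contra hc
        rw [not_le] at hc
        nlinarith
      have e3 : hf_SkL (j + (1 / 2 + s.1 / R)) = (R / DD ε K L s j) ^ 2 := by
        unfold hf_SkL
        rw [if_pos e2, h, e1, div_pow, mul_pow, sq_abs]
        have h0 : (j : ℝ) + (1 / 2 + s.1 / R) ≠ 0 := by
          intro h0
          rw [h0, abs_zero] at e2
          linarith
        have : (0 : ℝ) < ((j : ℝ) + (1 / 2 + s.1 / R)) ^ 2 := by positivity
        rw [div_eq_div_iff this.ne' (by positivity)]
        ring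
      linarith
    · have e3 : (R / DD ε K L s j) ^ 2 = (2 * R / ε) ^ 2 := by
        rw [h]; congr 1; field_simp
      linarith
  have hN3 : (N : ℝ) * (2 * R / ε) ^ 2 ≤ 1 := by
    have h1 : (N : ℝ) * R ≤ 1 + 2 * R := by
      have h2 := mul_le_mul_of_nonneg_right hN hR0.le
      have h3 : L / K * R = 1 := by rw [hRdef]; field_simp
      rw [add_mul, h3] at h2
      exact h2
    have h4 : (N : ℝ) * (2 * R / ε) ^ 2 = (N * R) * (4 * R / ε ^ 2) := by
      field_simp; ring
    have h5 : 4 * R / ε ^ 2 ≤ ε ^ 2 / 25 := by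
      rw [div_le_iff₀ (by positivity)]
      nlinarith
    have h6 : 0 ≤ 4 * R / ε ^ 2 := by positivity
    have h7 : ε ^ 4 ≤ 1 := pow_le_one₀ hε.le (by linarith)
    have h8 : ε ^ 2 ≤ 1 := pow_le_one₀ hε.le (by linarith)
    rw [h4]
    calc (N : ℝ) * R * (4 * R / ε ^ 2) ≤ (1 + 2 * R) * (ε ^ 2 / 25) :=
          mul_le_mul h1 h5 h6 (by positivity)
      _ ≤ 2 * (ε ^ 2 / 25) := by
          apply mul_le_mul_of_nonneg_right _ (by positivity)
          linarith
      _ ≤ 1 := by linarith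
  calc ∑ j ∈ J, (R / DD ε K L s j) ^ 2
      ≤ ∑ j ∈ J, (hf_SkL (j + 1 / 2) + hf_SkL (j + (1 / 2 + s.1 / R)) + (2 * R / ε) ^ 2) :=
        sum_le_sum hterm
    _ ≤ ∑ j ∈ range N, (hf_SkL (j + 1 / 2) + hf_SkL (j + (1 / 2 + s.1 / R)) +
          (2 * R / ε) ^ 2) := by
        apply sum_le_sum_of_subset_of_nonneg hJ
        intro j _ _
        have n1 := hf_nonneg_SkL (j + 1 / 2)
        have n2 := hf_nonneg_SkL (j + (1 / 2 + s.1 / R))
        have n3 : 0 ≤ (2 * R / ε) ^ 2 := by positivity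
        linarith
    _ ≤ 4 + 4 + N * (2 * R / ε) ^ 2 := by
        rw [sum_add_distrib, sum_add_distrib, sum_const, card_range, nsmul_eq_mul]
        have s1 := sum_hf_SkL (1 / 2) N
        have s2 := sum_hf_SkL (1 / 2 + s.1 / R) N
        linarith
    _ ≤ 9 := by linarith

/-- bookkeeping of powers -/
theorem pow_le_SkL {K : ℕ} (hK : 1 ≤ K) {a c : ℕ} (h : a ≤ c) :
    (1 : ℝ) / (K : ℝ) ^ c ≤ 1 / (K : ℝ) ^ a := by
  have hKr : (1 : ℝ) ≤ K := by exact_mod_cast hK
  apply div_le_div_of_nonneg_left (by norm_num) (by positivity)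
  exact pow_le_pow_right₀ hKr h

theorem ex1_SkL (T i : ℕ) : T + 10 + (i + 1) ≤ (2 * T + 40) * (i + 1) := by nlinarith

theorem ex2_SkL (T i d : ℕ) :
    2 + (i + 1 + d + (T + 10) + (i + 1)) ≤ d + (2 * T + 40) * (i + 1) := by nlinarith

theorem ex3_SkL (T b : ℕ) : 3 + (b + (T + 10)) ≤ (2 * T + 40) * (b + 1) := by nlinarith

theorem ex4_SkL (T b : ℕ) : 2 + (b + (T + 10)) ≤ (T + 20) * (b + 1) := by nlinarith

theorem sq_SkL {x a : ℝ} (h : a ≤ x) (ha : 0 ≤ x) : a * x ≤ x ^ 2 := by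
  rw [sq]; exact mul_le_mul_of_nonneg_right h ha

theorem sq1_SkL {x y : ℝ} (h : 100 ≤ x) (hy : 1 ≤ y) : 2 * x + 1 ≤ x ^ 2 * y := by
  have h1 : 2 * x + 1 ≤ x ^ 2 := by nlinarith
  have h2 : x ^ 2 * 1 ≤ x ^ 2 * y := mul_le_mul_of_nonneg_left hy (by positivity)
  linarith

theorem fin_SkL {B κ u w e0 e1 e2 e3 : ℝ} (hκ : 0 ≤ κ) (hu : 0 ≤ u)
    (h0 : e0 ≤ (B + κ) * u) (h1 : e1 ≤ B * u) (h2 : e2 ≤ B * u) (h3 : e3 ≤ B * u)
    (hw : (B + κ) * (4 * u) ≤ (B + κ) * w) : e0 + e1 + e2 + e3 ≤ (B + κ) * w := by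
  have : 0 ≤ κ * u := mul_nonneg hκ hu
  linarith

theorem hSkL (hjd : StJd) (hjm : StJm) (hf : StFarE) (hpi : StPI) : StSkL := by
  classical
  intro T
  obtain ⟨ℓ₁, hjm⟩ := hjm (2 * T + 40)
  obtain ⟨ℓ₂, hf⟩ := hf (2 * T + 40)
  refine ⟨max (max ℓ₁ ℓ₂) 100, ?_⟩
  intro ℓ K hℓ₀ hPar ε G L s t b hHL hb
  have hℓ1' : ℓ₁ ≤ ℓ := (le_max_left _ _).trans ((le_max_left _ _).trans hℓ₀)
  have hℓ2' : ℓ₂ ≤ ℓ := (le_max_right _ _).trans ((le_max_left _ _).trans hℓ₀)
  have hℓ100 : 100 ≤ ℓ := (le_max_right _ _).trans hℓ₀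
  have hjm := hjm ℓ K hℓ1' hPar
  have hf := hf ℓ K hℓ2' hPar
  obtain ⟨hHS, hκ, hL, hLn, hLε⟩ := id hHL
  obtain ⟨hε, hε8, hs1, hs2, hs3, hs4, ht1, ht2, ht3⟩ := id hHS
  have hK8 : ℓ ^ 8 ≤ K := hPar.1
  have hℓ8 : ℓ ^ 1 ≤ ℓ ^ 8 := Nat.pow_le_pow_right (by omega) (by norm_num)
  rw [pow_one] at hℓ8
  have hℓK : ℓ ≤ K := hℓ8.trans hK8
  have hK100 : 100 ≤ K := hℓ100.trans hℓK
  have hK1 : 1 ≤ K := by omega
  have hKr : (100 : ℝ) ≤ K := by exact_mod_cast hK100
  have hℓr : (100 : ℝ) ≤ ℓ := by exact_mod_cast hℓ100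
  have hℓKr : (ℓ : ℝ) ≤ K := by exact_mod_cast hℓK
  have hK0 : (0 : ℝ) < K := by linarith
  have hn1 := G.n_one
  have hn0 : 0 < G.n := by linarith
  have hp := G.p_pos
  have hκ0 := G.κ_pos
  have hκ1 := G.κ_le
  set R : ℝ := K / L with hRdef
  have hR0 : 0 < R := by positivity
  have hℓR : 100 * (ℓ * R) ≤ ε ^ 4 := by
    refine le_trans (le_of_eq ?_) hLε
    rw [hRdef]; ring
  have hε4 : ε ^ 4 ≤ ε / 512 := by
    have h1 : ε ^ 3 ≤ (1 / 8) ^ 3 := pow_le_pow_left₀ hε.le hε8 3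
    calc ε ^ 4 = ε ^ 3 * ε := by ring
      _ ≤ (1 / 8) ^ 3 * ε := mul_le_mul_of_nonneg_right h1 hε.le
      _ = ε / 512 := by ring
  have hRℓR : 100 * R ≤ ℓ * R := mul_le_mul_of_nonneg_right hℓr hR0.le
  have hℓR0 : 0 < ℓ * R := by positivity
  have hrr : rr ε = 1 / 2 - ε / 4 := rfl
  -- the scales
  set M : ℕ → ℝ := fun i => lam K G.n i with hM
  have hQ1 : (1 : ℝ) ≤ (K : ℝ) ^ 5 := one_le_pow₀ (by linarith)
  have hM0 : ∀ i, 0 < M i := fun i => by
    show 0 < G.n / ((K : ℝ) ^ 5) ^ i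
    positivity
  have hMLb : L ≤ M b := by
    rcases hb with h | h
    · rw [h]
      show L ≤ G.n / ((K : ℝ) ^ 5) ^ 0
      rw [pow_zero, div_one]; exact hLn
    · show L ≤ lam K G.n b
      linarith
  have hMpow : ∀ i ≤ b, M i = M b * ((K : ℝ) ^ 5) ^ (b - i) := by
    intro i hi
    show G.n / ((K : ℝ) ^ 5) ^ i = G.n / ((K : ℝ) ^ 5) ^ b * ((K : ℝ) ^ 5) ^ (b - i)
    have h1 : ((K : ℝ) ^ 5) ^ b = ((K : ℝ) ^ 5) ^ i * ((K : ℝ) ^ 5) ^ (b - i) := by
      rw [← pow_add]; congr 1; omega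
    rw [h1]; field_simp
  have hMge : ∀ i ≤ b, M b ≤ M i := by
    intro i hi
    rw [hMpow i hi]
    exact le_mul_of_one_le_right (hM0 b).le (one_le_pow₀ hQ1)
  have hKM : ∀ i ≤ b, (K : ℝ) / M i ≤ R := by
    intro i hi
    rw [hRdef]
    exact div_le_div_of_nonneg_left hK0.le hL (hMLb.trans (hMge i hi))
  have hKM2 : ∀ i ≤ b, 2 * (ℓ : ℝ) * K / M i ≤ 2 * (ℓ * R) := by
    intro i hi
    have h1 := mul_le_mul_of_nonneg_left (hKM i hi) (by positivity : (0 : ℝ) ≤ 2 * ℓ)
    calc 2 * (ℓ : ℝ) * K / M i = 2 * ℓ * (K / M i) := by ring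
      _ ≤ 2 * ℓ * R := h1
      _ = 2 * (ℓ * R) := by ring
  -- the cell sets
  set F : Finset Pt := G.sfld (rr ε) with hF
  set W0 : ℕ → Finset Pt := fun i => F.filter (fun v => |v.1| < K / M (i + 1) ∧ v.2 ≤ 2 * L)
    with hW0
  set W1 : Finset Pt := F.filter (fun v => |v.1| < (ℓ + 2) * R ∧ v.2 ≤ 2 * L) with hW1
  set W2 : Finset Pt := F.filter (fun v => |v.1 - s.1| < (ℓ + 2) * R ∧ |v.1| ≤ 1 / 2 - ε ∧
    v.2 ≤ 2 * L) with hW2
  set B : ℕ → Finset Pt := fun j => F.filter (fun v => -((j + 1) * K / L) ≤ v.1 ∧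
    v.1 < -(j * K / L) ∧ |v.1| ≤ 1 / 2 - ε ∧ v.2 ≤ 2 * L) with hB
  have hpq : Pq (fun _ : Pt => G.p) F := sfld_pq G _
  -- the far events
  have hfar : ∀ j : ℕ, ∃ A : Finset Pt → Prop,
      (ℓ * K / L < DD ε K L s j ∧ |yc K L j| ≤ |s.1| + K / L) →
      (bern (fun _ => G.p) (G.sfld (rr ε)) (fun Y =>
      (cnt Y (-((j + 1) * K / L)) (-(j * K / L)) (2 * L) : ℝ) * ind (A Y)) ≤
        (K / L / DD ε K L s j) ^ 4 / (K : ℝ) ^ (2 * T + 40) ∧
      ∀ Y ⊆ G.sfld (rr ε), ∀ Z, OutOk G.n (rr ε) Z → ∀ (v : ℕ → Pt) (m k : ℕ),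
      IsPath K (cfg Y Z s t) s v m → k ≤ m → -((j + 1) * K / L) ≤ (v k).1 →
      (v k).1 < -(j * K / L) → L ≤ (v k).2 → (v k).2 < 2 * L → A Y ∧ v k ∈ Y) := by
    intro j
    by_cases hj : (ℓ * K / L < DD ε K L s j ∧ |yc K L j| ≤ |s.1| + K / L)
    · obtain ⟨A, hA⟩ := hf ε G L s t j hHL hj.1 hj.2
      exact ⟨A, fun _ => hA⟩
    · exact ⟨fun _ => True, fun h => absurd h hj⟩
  choose A hA using hfar
  set N : ℕ := ⌊L / K⌋₊ + 2 with hN
  set J : Finset ℕ := (range N).filter
    (fun j => ℓ * K / L < DD ε K L s j ∧ |yc K L j| ≤ |s.1| + K / L) with hJ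
  have hLK0 : 0 ≤ L / K := by positivity
  have hNle : (N : ℝ) ≤ L / K + 2 := by
    rw [hN]; push_cast
    have := Nat.floor_le hLK0
    linarith
  set jv : ℕ → Finset Pt → Pt → ℝ := fun i Y v => ind (Jev G.n K i (Y ∪ {s, t}) v) with hjv
  have hjv0 : ∀ i Y v, 0 ≤ jv i Y v := fun i Y v => ind_nonneg _
  have hjv1 : ∀ i Y v, jv i Y v ≤ 1 := fun i Y v => ind_le_one _
  set P0 : Finset Pt → ℝ := fun Y => ∑ i ∈ range b, ∑ v ∈ Y ∩ W0 i, jv i Y v with hP0
  set P1 : Finset Pt → ℝ := fun Y => ∑ v ∈ Y ∩ W1, jv b Y v with hP1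
  set P2 : Finset Pt → ℝ := fun Y => ∑ v ∈ Y ∩ W2, jv b Y v with hP2
  set P3 : Finset Pt → ℝ := fun Y => ∑ j ∈ J, (∑ v ∈ Y ∩ B j, jv b Y v) * ind (A j Y) with hP3
  have hP0n : ∀ Y, 0 ≤ P0 Y := fun Y => sum_nonneg fun i _ => sum_nonneg fun v _ => hjv0 i Y v
  have hP1n : ∀ Y, 0 ≤ P1 Y := fun Y => sum_nonneg fun v _ => hjv0 b Y v
  have hP2n : ∀ Y, 0 ≤ P2 Y := fun Y => sum_nonneg fun v _ => hjv0 b Y v
  have hP3n : ∀ Y, 0 ≤ P3 Y := fun Y => sum_nonneg fun j _ =>
    mul_nonneg (sum_nonneg fun v _ => hjv0 b Y v) (ind_nonneg _)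
  refine ⟨fun Y => P0 Y + P1 Y + P2 Y + P3 Y, ?_, ?_, ?_⟩
  · intro Y
    exact add_nonneg (add_nonneg (add_nonneg (hP0n Y) (hP1n Y)) (hP2n Y)) (hP3n Y)
  · -- expectation
    have hx0 : ∀ i, 0 < K / M i := fun i => div_pos hK0 (hM0 i)
    have hbase : 0 ≤ 1 / (K : ℝ) ^ b := by positivity
    have hbase10 : 0 ≤ 1 / (K : ℝ) ^ (T + 10) := by positivity
    have E0 : bern (fun _ => G.p) F P0 ≤ (1 / (K : ℝ) ^ b + G.κ) * (1 / (K : ℝ) ^ (T + 10)) := by
      have h1 : bern (fun _ => G.p) F P0 =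
          ∑ i ∈ range b, bern (fun _ => G.p) F (fun Y => ∑ v ∈ Y ∩ W0 i, jv i Y v) :=
        bern_sum _ _ _ _
      rw [h1]
      have h2 : ∀ i ∈ range b, bern (fun _ => G.p) F (fun Y => ∑ v ∈ Y ∩ W0 i, jv i Y v) ≤
          ((1 / (K : ℝ) ^ b + G.κ) * (1 / (K : ℝ) ^ (T + 10))) * (1 / (K : ℝ) ^ (i + 1)) := by
        intro i hi
        rw [mem_range] at hi
        have g1 := hjm ε G s t i (W0 i) hHS hκ (filter_subset _ _) (by
          intro v hv
          rw [hW0, mem_filter] at hv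
          have a1 := hv.2.1
          have a2 := hKM (i + 1) (by omega)
          have a3 := hKM2 i (by omega)
          change |v.1| + 2 * ↑ℓ * ↑K / M i < rr ε
          rw [hrr]
          linarith)
        refine g1.trans ?_
        have g2 : G.p * (W0 i).card ≤ 2 * L * (K / M (i + 1) - -(K / M (i + 1))) + G.κ := by
          have a2 := hKM (i + 1) (by omega)
          have a0 := hx0 (i + 1)
          apply mean_SkL G (r := rr ε) (filter_subset _ _) (by linarith) (by linarith)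
            (by linarith) (by linarith)
          intro v hv
          rw [mem_filter] at hv
          have a1 := abs_lt.1 hv.2.1
          exact ⟨a1.1.le, a1.2, hv.2.2⟩
        have g3 : 2 * L * (K / M (i + 1) - -(K / M (i + 1))) ≤ 4 * K * (1 / (K : ℝ) ^ (b - (i + 1))) := by
          have a1 : L / M (i + 1) ≤ 1 / (K : ℝ) ^ (b - (i + 1)) := by
            rw [hMpow (i + 1) (by omega), div_le_div_iff₀ (by have := hM0 b; positivity) (by positivity)]
            have a2 : (K : ℝ) ^ (b - (i + 1)) ≤ ((K : ℝ) ^ 5) ^ (b - (i + 1)) := by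
              apply pow_le_pow_left₀ hK0.le
              calc (K : ℝ) = (K : ℝ) ^ 1 := (pow_one _).symm
                _ ≤ (K : ℝ) ^ 5 := pow_le_pow_right₀ (by linarith) (by norm_num)
            rw [one_mul]
            exact mul_le_mul hMLb a2 (by positivity) (hM0 b).le
          calc 2 * L * (K / M (i + 1) - -(K / M (i + 1))) = 4 * K * (L / M (i + 1)) := by ring
            _ ≤ _ := mul_le_mul_of_nonneg_left a1 (by positivity)
        have g4 : G.p * (W0 i).card ≤ 4 * K * (1 / (K : ℝ) ^ (b - (i + 1))) + G.κ := by linarith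
        have hD0 : 0 < (K : ℝ) ^ ((2 * T + 40) * (i + 1)) := by positivity
        have g5 : (1 : ℝ) / (K : ℝ) ^ ((2 * T + 40) * (i + 1)) ≤
            (1 / (K : ℝ) ^ (T + 10)) * (1 / (K : ℝ) ^ (i + 1)) := by
          rw [one_div_mul_one_div, ← pow_add]
          exact pow_le_SkL hK1 (ex1_SkL T i)
        have g6 : 4 * K * (1 / (K : ℝ) ^ (b - (i + 1))) * (1 / (K : ℝ) ^ ((2 * T + 40) * (i + 1))) ≤
            (1 / (K : ℝ) ^ b) * ((1 / (K : ℝ) ^ (T + 10)) * (1 / (K : ℝ) ^ (i + 1))) := by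
          have a1 : 4 * (K : ℝ) ≤ K ^ 2 := sq_SkL (by linarith) hK0.le
          have a2 : (1 / (K : ℝ) ^ (b - (i + 1))) * (1 / (K : ℝ) ^ ((2 * T + 40) * (i + 1))) ≤
              1 / (K : ℝ) ^ (2 + (b + (T + 10) + (i + 1))) := by
            rw [one_div_mul_one_div, ← pow_add]
            apply pow_le_SkL hK1
            have : i + 1 ≤ b := by omega
            obtain ⟨d, hd⟩ := Nat.exists_eq_add_of_le this
            subst hd
            have : i + 1 + d - (i + 1) = d := by omega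
            rw [this]
            exact ex2_SkL T i d
          calc 4 * K * (1 / (K : ℝ) ^ (b - (i + 1))) * (1 / (K : ℝ) ^ ((2 * T + 40) * (i + 1)))
              = 4 * K * ((1 / (K : ℝ) ^ (b - (i + 1))) *
                (1 / (K : ℝ) ^ ((2 * T + 40) * (i + 1)))) := by ring
            _ ≤ K ^ 2 * (1 / (K : ℝ) ^ (2 + (b + (T + 10) + (i + 1)))) :=
                mul_le_mul a1 a2 (by positivity) (by positivity)
            _ = (1 / (K : ℝ) ^ b) * ((1 / (K : ℝ) ^ (T + 10)) * (1 / (K : ℝ) ^ (i + 1))) := by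
                rw [pow_add (K : ℝ) 2, pow_add (K : ℝ) (b + (T + 10)), pow_add (K : ℝ) b]
                field_simp
        rw [div_eq_mul_one_div]
        calc G.p * (W0 i).card * (1 / (K : ℝ) ^ ((2 * T + 40) * (i + 1)))
            ≤ (4 * K * (1 / (K : ℝ) ^ (b - (i + 1))) + G.κ) *
              (1 / (K : ℝ) ^ ((2 * T + 40) * (i + 1))) :=
              mul_le_mul_of_nonneg_right g4 (by positivity)
          _ = 4 * K * (1 / (K : ℝ) ^ (b - (i + 1))) * (1 / (K : ℝ) ^ ((2 * T + 40) * (i + 1))) +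
              G.κ * (1 / (K : ℝ) ^ ((2 * T + 40) * (i + 1))) := by ring
          _ ≤ (1 / (K : ℝ) ^ b) * ((1 / (K : ℝ) ^ (T + 10)) * (1 / (K : ℝ) ^ (i + 1))) +
              G.κ * ((1 / (K : ℝ) ^ (T + 10)) * (1 / (K : ℝ) ^ (i + 1))) :=
              add_le_add g6 (mul_le_mul_of_nonneg_left g5 hκ0)
          _ = _ := by ring
      refine (sum_le_sum h2).trans ?_
      rw [← mul_sum]
      have h3 := geom_SkL (K := K) (by omega) b
      have h4 : 0 ≤ (1 / (K : ℝ) ^ b + G.κ) * (1 / (K : ℝ) ^ (T + 10)) := by positivity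
      exact mul_le_of_le_one_right h4 h3
    have hsmall : (4 * (ℓ + 2) * K + 1 : ℝ) / (K : ℝ) ^ ((2 * T + 40) * (b + 1)) ≤
        (1 / (K : ℝ) ^ b) * (1 / (K : ℝ) ^ (T + 10)) := by
      have a1 : (4 * (ℓ + 2) * K + 1 : ℝ) ≤ K ^ 3 := by
        have c1 : 4 * ((ℓ : ℝ) + 2) ≤ 5 * K := by linarith
        have c2 : 4 * ((ℓ : ℝ) + 2) * K ≤ 5 * K * K := mul_le_mul_of_nonneg_right c1 hK0.le
        have c3 : 100 * ((K : ℝ) * K) ≤ K ^ 3 := by
          have c4 : (K : ℝ) ^ 3 = K * (K * K) := by ring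
          rw [c4]
          exact mul_le_mul_of_nonneg_right hKr (by positivity)
        have c5 : (1 : ℝ) ≤ K * K := one_le_mul_of_one_le_of_one_le (by linarith) (by linarith)
        linarith
      rw [div_eq_mul_one_div]
      calc (4 * (ℓ + 2) * K + 1 : ℝ) * (1 / (K : ℝ) ^ ((2 * T + 40) * (b + 1)))
          ≤ K ^ 3 * (1 / (K : ℝ) ^ (3 + (b + (T + 10)))) := by
            apply mul_le_mul a1 _ (by positivity) (by positivity)
            exact pow_le_SkL hK1 (ex3_SkL T b)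
        _ = (1 / (K : ℝ) ^ b) * (1 / (K : ℝ) ^ (T + 10)) := by
            rw [pow_add (K : ℝ) 3, pow_add (K : ℝ) b]
            field_simp
    have hD0 : 0 < (K : ℝ) ^ ((2 * T + 40) * (b + 1)) := by positivity
    have hLR : L * R = K := by rw [hRdef]; field_simp
    have E1 : bern (fun _ => G.p) F P1 ≤ (1 / (K : ℝ) ^ b) * (1 / (K : ℝ) ^ (T + 10)) := by
      have g1 := hjm ε G s t b W1 hHS hκ (filter_subset _ _) (by
        intro v hv
        rw [hW1, mem_filter] at hv
        have a1 := hv.2.1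
        have a3 := hKM2 b le_rfl
        change |v.1| + 2 * ↑ℓ * ↑K / M b < rr ε
        rw [hrr]
        linarith)
      refine g1.trans (le_trans ?_ hsmall)
      apply div_le_div_of_nonneg_right _ hD0.le
      have g2 : G.p * W1.card ≤ 2 * L * ((ℓ + 2) * R - -((ℓ + 2) * R)) + G.κ := by
        have a0 : 0 < ((ℓ : ℝ) + 2) * R := by positivity
        apply mean_SkL G (r := rr ε) (filter_subset _ _) (by linarith) (by linarith)
          (by linarith) (by linarith)
        intro v hv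
        rw [mem_filter] at hv
        have a1 := abs_lt.1 hv.2.1
        exact ⟨a1.1.le, a1.2, hv.2.2⟩
      have g3 : 2 * L * (((ℓ : ℝ) + 2) * R - -((ℓ + 2) * R)) = 4 * (ℓ + 2) * K := by
        rw [← hLR]; ring
      linarith
    have E2 : bern (fun _ => G.p) F P2 ≤ (1 / (K : ℝ) ^ b) * (1 / (K : ℝ) ^ (T + 10)) := by
      have g1 := hjm ε G s t b W2 hHS hκ (filter_subset _ _) (by
        intro v hv
        rw [hW2, mem_filter] at hv
        have a1 := hv.2.2.1
        have a3 := hKM2 b le_rfl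
        change |v.1| + 2 * ↑ℓ * ↑K / M b < rr ε
        rw [hrr]
        linarith)
      refine g1.trans (le_trans ?_ hsmall)
      apply div_le_div_of_nonneg_right _ hD0.le
      have g2 : G.p * W2.card ≤
          2 * L * ((s.1 + (ℓ + 2) * R) - (s.1 - (ℓ + 2) * R)) + G.κ := by
        have a0 : 0 < ((ℓ : ℝ) + 2) * R := by positivity
        have a1 := abs_le.1 hs2
        apply mean_SkL G (r := rr ε) (filter_subset _ _) (by linarith) (by linarith)
          (by linarith) (by linarith)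
        intro v hv
        rw [mem_filter] at hv
        have a1 := abs_lt.1 hv.2.1
        exact ⟨by linarith, by linarith, hv.2.2.2⟩
      have g3 : 2 * L * ((s.1 + (ℓ + 2) * R) - (s.1 - (ℓ + 2) * R)) = 4 * (ℓ + 2) * K := by
        rw [← hLR]; ring
      linarith
    have E3 : bern (fun _ => G.p) F P3 ≤ (1 / (K : ℝ) ^ b) * (1 / (K : ℝ) ^ (T + 10)) := by
      have h1 : bern (fun _ => G.p) F P3 =
          ∑ j ∈ J, bern (fun _ => G.p) F (fun Y => (∑ v ∈ Y ∩ B j, jv b Y v) * ind (A j Y)) :=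
        bern_sum _ _ _ _
      rw [h1]
      have h2 : ∀ j ∈ J, bern (fun _ => G.p) F
          (fun Y => (∑ v ∈ Y ∩ B j, jv b Y v) * ind (A j Y)) ≤
          (R / DD ε K L s j) ^ 2 * (K * (1 / (K : ℝ) ^ ((T + 20) * (b + 1)))) := by
        intro j hj
        rw [hJ, mem_filter] at hj
        obtain ⟨hAj, -⟩ := hA j hj.2
        have hDpos : 0 < DD ε K L s j := lt_trans (by positivity) hj.2.1
        have z0 : 0 ≤ bern (fun _ => G.p) F
            (fun Y => (∑ v ∈ Y ∩ B j, jv b Y v) * ind (A j Y)) :=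
          bern_nonneg hpq (fun Y _ => mul_nonneg (sum_nonneg fun v _ => hjv0 b Y v)
            (ind_nonneg _))
        have z1 : bern (fun _ => G.p) F
            (fun Y => (∑ v ∈ Y ∩ B j, jv b Y v) * ind (A j Y)) ≤
            (R / DD ε K L s j) ^ 4 / (K : ℝ) ^ (2 * T + 40) := by
          refine le_trans (bern_mono hpq ?_) hAj
          intro Y _
          apply mul_le_mul_of_nonneg_right _ (ind_nonneg _)
          have c1 : ∑ v ∈ Y ∩ B j, jv b Y v ≤ ((Y ∩ B j).card : ℝ) := by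
            calc ∑ v ∈ Y ∩ B j, jv b Y v ≤ ∑ _v ∈ Y ∩ B j, (1 : ℝ) :=
                  sum_le_sum fun v _ => hjv1 b Y v
              _ = ((Y ∩ B j).card : ℝ) := by simp
          refine c1.trans ?_
          unfold cnt
          have c2 : (Y ∩ B j) ⊆ Y.filter (fun v => -((j + 1) * K / L) ≤ v.1 ∧
              v.1 < -(j * K / L) ∧ v.2 ≤ 2 * L) := by
            intro v hv
            rw [mem_inter, hB, mem_filter] at hv
            rw [mem_filter]
            exact ⟨hv.1, hv.2.2.1, hv.2.2.2.1, hv.2.2.2.2.2⟩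
          exact_mod_cast card_le_card c2
        have z2 : bern (fun _ => G.p) F
            (fun Y => (∑ v ∈ Y ∩ B j, jv b Y v) * ind (A j Y)) ≤
            (2 * K + 1) / (K : ℝ) ^ ((2 * T + 40) * (b + 1)) := by
          have c0 : bern (fun _ => G.p) F
              (fun Y => (∑ v ∈ Y ∩ B j, jv b Y v) * ind (A j Y)) ≤
              bern (fun _ => G.p) F (fun Y => ∑ v ∈ Y ∩ B j, jv b Y v) := by
            apply bern_mono hpq
            intro Y _
            exact mul_le_of_le_one_right (sum_nonneg fun v _ => hjv0 b Y v) (ind_le_one _)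
          refine c0.trans ?_
          have g1 := hjm ε G s t b (B j) hHS hκ (filter_subset _ _) (by
            intro v hv
            rw [hB, mem_filter] at hv
            have a1 := hv.2.2.2.1
            have a3 := hKM2 b le_rfl
            change |v.1| + 2 * ↑ℓ * ↑K / M b < rr ε
            rw [hrr]
            linarith)
          refine g1.trans ?_
          apply div_le_div_of_nonneg_right _ hD0.le
          have hyc : |yc K L j| = (j + 1 / 2) * R := by
            have : yc K L j = -((j + 1 / 2) * R) := by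
              unfold yc; rw [hRdef]; ring
            rw [this, abs_neg, abs_of_nonneg (by positivity)]
          have hy2 := hj.2.2
          rw [hyc] at hy2
          change ((j : ℝ) + 1 / 2) * R ≤ |s.1| + R at hy2
          have g2 : G.p * (B j).card ≤ 2 * L * (-(j * K / L) - -((j + 1) * K / L)) + G.κ := by
            have b1 : ((j : ℝ) + 1) * K / L = (j + 1 / 2) * R + R / 2 := by rw [hRdef]; ring
            have b2 : (j : ℝ) * K / L = (j + 1 / 2) * R - R / 2 := by rw [hRdef]; ring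
            have b3 : 0 ≤ (j : ℝ) * K / L := by positivity
            apply mean_SkL G (r := rr ε) (filter_subset _ _) (by rw [b1]; linarith)
              (by rw [b1, b2]; linarith) (by linarith) (by linarith)
            intro v hv
            rw [mem_filter] at hv
            exact ⟨hv.2.1, hv.2.2.1, hv.2.2.2.2⟩
          have g3 : 2 * L * (-((j : ℝ) * K / L) - -((j + 1) * K / L)) = 2 * K := by
            field_simp; ring
          linarith
        apply sqle_SkL z0 z1 z2 (by positivity)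
        have c1 : (2 * (K : ℝ) + 1) / (K : ℝ) ^ (2 * T + 40) ≤ K ^ 2 := by
          rw [div_le_iff₀ (by positivity)]
          have c2 : (1 : ℝ) ≤ (K : ℝ) ^ (2 * T + 40) := one_le_pow₀ (by linarith)
          exact sq1_SkL hKr c2
        have c3 : (K : ℝ) ^ ((2 * T + 40) * (b + 1)) = ((K : ℝ) ^ ((T + 20) * (b + 1))) ^ 2 := by
          rw [← pow_mul]; congr 1; ring
        rw [c3]
        calc (R / DD ε K L s j) ^ 4 / (K : ℝ) ^ (2 * T + 40) *
              ((2 * K + 1) / ((K : ℝ) ^ ((T + 20) * (b + 1))) ^ 2)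
            = (R / DD ε K L s j) ^ 4 * (1 / ((K : ℝ) ^ ((T + 20) * (b + 1))) ^ 2) *
              ((2 * (K : ℝ) + 1) / (K : ℝ) ^ (2 * T + 40)) := by
              field_simp
          _ ≤ (R / DD ε K L s j) ^ 4 * (1 / ((K : ℝ) ^ ((T + 20) * (b + 1))) ^ 2) * K ^ 2 :=
              mul_le_mul_of_nonneg_left c1 (by positivity)
          _ = ((R / DD ε K L s j) ^ 2 * (K * (1 / (K : ℝ) ^ ((T + 20) * (b + 1))))) ^ 2 := by
              field_simp
      refine (sum_le_sum h2).trans ?_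
      rw [← sum_mul]
      have h3 : ∑ j ∈ J, (R / DD ε K L s j) ^ 2 ≤ 9 :=
        far_sum_SkL (ℓ := ℓ) hL hK1 (by omega) hε hε8 hLε hNle J (filter_subset _ _)
          (fun j hj => (mem_filter.1 hj).2.1)
      have h4 : (0 : ℝ) ≤ K * (1 / (K : ℝ) ^ ((T + 20) * (b + 1))) := by positivity
      refine (mul_le_mul_of_nonneg_right h3 h4).trans ?_
      calc (9 : ℝ) * (K * (1 / (K : ℝ) ^ ((T + 20) * (b + 1))))
          = (9 * K) * (1 / (K : ℝ) ^ ((T + 20) * (b + 1))) := by ring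
        _ ≤ K ^ 2 * (1 / (K : ℝ) ^ (2 + (b + (T + 10)))) := by
            apply mul_le_mul (sq_SkL (by linarith) hK0.le) _ (by positivity) (by positivity)
            exact pow_le_SkL hK1 (ex4_SkL T b)
        _ = (1 / (K : ℝ) ^ b) * (1 / (K : ℝ) ^ (T + 10)) := by
            rw [pow_add (K : ℝ) 2, pow_add (K : ℝ) b]
            field_simp
    have hsum : bern (fun _ => G.p) F (fun Y => P0 Y + P1 Y + P2 Y + P3 Y) =
        bern (fun _ => G.p) F P0 + bern (fun _ => G.p) F P1 + bern (fun _ => G.p) F P2 +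
          bern (fun _ => G.p) F P3 := by
      rw [bern_add, bern_add, bern_add]
    rw [hsum]
    have hfin : 4 * (1 / (K : ℝ) ^ (T + 10)) ≤ 1 / (K : ℝ) ^ T := by
      rw [pow_add]
      have c1 : (4 : ℝ) ≤ (K : ℝ) ^ 10 := by
        calc (4 : ℝ) ≤ K := by linarith
          _ = (K : ℝ) ^ 1 := (pow_one _).symm
          _ ≤ (K : ℝ) ^ 10 := pow_le_pow_right₀ (by linarith) (by norm_num)
      rw [mul_one_div, div_le_div_iff₀ (by positivity) (by positivity), one_mul, mul_comm]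
      exact mul_le_mul_of_nonneg_left c1 (by positivity)
    have hc0 : 0 ≤ 1 / (K : ℝ) ^ b + G.κ := by positivity
    have hfin2 := mul_le_mul_of_nonneg_left hfin hc0
    rw [div_eq_mul_one_div]
    exact fin_SkL hκ0 hbase10 E0 E1 E2 E3 hfin2
  · -- deterministic part
    intro Y hY Z hZ v m hpath hstuck hneg hlo hhi hvY
    have q0 := hP0n Y
    have q1 := hP1n Y
    have q2 := hP2n Y
    have q3 := hP3n Y
    set w := v m with hw
    obtain ⟨-, hmem, -⟩ := hpi K (cfg Y Z s t) s v m hpath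
    obtain ⟨hwP, hws⟩ := hmem m le_rfl
    change w ∈ cfg Y Z s t at hwP
    change |w.1| ≤ |s.1| at hws
    have hwF : w ∈ F := hY hvY
    have hwn : w.2 ≤ G.n := by
      have h2 := hwF
      rw [hF] at h2
      unfold Grid.sfld at h2
      rw [mem_product] at h2
      exact (G.Ts_mem _ h2.2).2
    have hwle : w.2 ≤ M b := by
      rcases hb with h | h
      · rw [h]
        show w.2 ≤ G.n / ((K : ℝ) ^ 5) ^ 0
        rw [pow_zero, div_one]; exact hwn
      · show w.2 ≤ lam K G.n b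
        linarith
    have hws2 : |w.1| ≤ 1 / 2 - ε := hws.trans hs2
    have h3K : ∀ i ≤ b, 3 * (K : ℝ) / M i ≤ ε / 2 := by
      intro i hi
      have := hKM i hi
      calc 3 * (K : ℝ) / M i = 3 * (K / M i) := by ring
        _ ≤ 3 * R := by linarith
        _ ≤ ε / 2 := by linarith
    by_cases hcase : b = 0 ∨ (K : ℝ) / M b ≤ |w.1|
    · -- Jev b
      have hJ' : Jev G.n K b (Y ∪ {s, t}) w :=
        hjd ε K b G s t w Y Z (by omega) hHS hY hZ hwP hws2 hneg.ne hstuck hwle hcase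
          (h3K b le_rfl)
      have hj1 : jv b Y w = 1 := ind_of hJ'
      by_cases hW1' : w ∈ W1
      · have : (1 : ℝ) ≤ P1 Y := by
          rw [← hj1]
          exact single_le_sum (f := fun v => jv b Y v) (fun v _ => hjv0 b Y v)
            (mem_inter.2 ⟨hvY, hW1'⟩)
        show (1 : ℝ) ≤ P0 Y + P1 Y + P2 Y + P3 Y
        linarith
      by_cases hW2' : w ∈ W2
      · have : (1 : ℝ) ≤ P2 Y := by
          rw [← hj1]
          exact single_le_sum (f := fun v => jv b Y v) (fun v _ => hjv0 b Y v)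
            (mem_inter.2 ⟨hvY, hW2'⟩)
        show (1 : ℝ) ≤ P0 Y + P1 Y + P2 Y + P3 Y
        linarith
      -- the box
      have hwabs : |w.1| = -w.1 := abs_of_neg hneg
      have hx0 : 0 < -w.1 / R := by
        apply div_pos _ hR0
        linarith
      obtain ⟨j, hj1', hj2'⟩ : ∃ j : ℕ, (j : ℝ) < -w.1 / R ∧ -w.1 / R ≤ j + 1 := by
        refine ⟨⌈-w.1 / R⌉₊ - 1, ?_, ?_⟩
        · have c1 := Nat.ceil_lt_add_one hx0.le
          have c2 : 0 < ⌈-w.1 / R⌉₊ := Nat.ceil_pos.2 hx0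
          have c3 : ((⌈-w.1 / R⌉₊ - 1 : ℕ) : ℝ) = ⌈-w.1 / R⌉₊ - 1 := by
            rw [Nat.cast_sub (by omega)]; norm_num
          rw [c3]
          linarith
        · have c1 := Nat.le_ceil (-w.1 / R)
          have c2 : 0 < ⌈-w.1 / R⌉₊ := Nat.ceil_pos.2 hx0
          have c3 : ((⌈-w.1 / R⌉₊ - 1 : ℕ) : ℝ) = ⌈-w.1 / R⌉₊ - 1 := by
            rw [Nat.cast_sub (by omega)]; norm_num
          rw [c3]
          linarith
      rw [lt_div_iff₀ hR0] at hj1'
      rw [div_le_iff₀ hR0] at hj2'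
      have hbl : -((j + 1) * K / L) ≤ w.1 := by
        have : ((j : ℝ) + 1) * K / L = (j + 1) * R := by rw [hRdef]; ring
        rw [this]; linarith
      have hbr : w.1 < -(j * K / L) := by
        have : (j : ℝ) * K / L = j * R := by rw [hRdef]; ring
        rw [this]; linarith
      have hyc : yc K L j = -((j + 1 / 2) * R) := by
        unfold yc; rw [hRdef]; ring
      have hyca : |yc K L j| = (j + 1 / 2) * R := by
        rw [hyc, abs_neg, abs_of_nonneg (by positivity)]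
      have hjN : j < N := by
        have c1 : (j : ℝ) ≤ L / K := by
          have c2 : (j : ℝ) * R ≤ 1 := by linarith [hwabs, hws2]
          rw [hRdef] at c2
          rw [le_div_iff₀ hK0]
          calc (j : ℝ) * K = j * (K / L) * L := by field_simp
            _ ≤ 1 * L := mul_le_mul_of_nonneg_right c2 hL.le
            _ = L := one_mul L
        have c3 : j ≤ ⌊L / K⌋₊ := Nat.le_floor c1
        omega
      have hfarj : ℓ * K / L < DD ε K L s j := by
        have c0 : (ℓ : ℝ) * K / L = ℓ * R := by rw [hRdef]; ring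
        rw [c0]
        unfold DD
        rw [lt_min_iff, lt_min_iff]
        refine ⟨⟨?_, ?_⟩, by linarith⟩
        · by_contra hc
          rw [not_lt, hyca] at hc
          apply hW1'
          rw [hW1, mem_filter]
          refine ⟨hwF, ?_, hhi.le⟩
          rw [hwabs]
          linarith
        · by_contra hc
          rw [not_lt] at hc
          apply hW2'
          rw [hW2, mem_filter]
          refine ⟨hwF, ?_, hws2, hhi.le⟩
          have c1 := abs_le.1 hc
          rw [hyc] at c1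
          rw [abs_lt]
          constructor <;> linarith [c1.1, c1.2]
      have hnear : |yc K L j| ≤ |s.1| + K / L := by
        rw [hyca]
        change ((j : ℝ) + 1 / 2) * R ≤ |s.1| + R
        linarith
      have hjJ : j ∈ J := by
        rw [hJ, mem_filter, mem_range]
        exact ⟨hjN, hfarj, hnear⟩
      obtain ⟨-, hdet⟩ := hA j ⟨hfarj, hnear⟩
      obtain ⟨hAY, -⟩ := hdet Y hY Z hZ v m m hpath le_rfl hbl hbr hlo hhi
      have hwB : w ∈ B j := by
        rw [hB, mem_filter]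
        exact ⟨hwF, hbl, hbr, hws2, hhi.le⟩
      have c1 : (1 : ℝ) ≤ ∑ v ∈ Y ∩ B j, jv b Y v := by
        rw [← hj1]
        exact single_le_sum (f := fun v => jv b Y v) (fun v _ => hjv0 b Y v)
          (mem_inter.2 ⟨hvY, hwB⟩)
      have c2 : (1 : ℝ) ≤ (∑ v ∈ Y ∩ B j, jv b Y v) * ind (A j Y) := by
        rw [ind_of hAY, mul_one]; exact c1
      have c3 : (∑ v ∈ Y ∩ B j, jv b Y v) * ind (A j Y) ≤ P3 Y :=
        single_le_sum (f := fun j => (∑ v ∈ Y ∩ B j, jv b Y v) * ind (A j Y))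
          (fun j _ => mul_nonneg (sum_nonneg fun v _ => hjv0 b Y v) (ind_nonneg _)) hjJ
      show (1 : ℝ) ≤ P0 Y + P1 Y + P2 Y + P3 Y
      linarith
    · -- close to the target
      rw [not_or, not_le] at hcase
      obtain ⟨hb0, hclose⟩ := hcase
      have hex : ∃ i, i < b ∧ |w.1| < K / M (i + 1) := by
        refine ⟨b - 1, by omega, ?_⟩
        have : b - 1 + 1 = b := by omega
        rw [this]; exact hclose
      set i := Nat.find hex with hi
      obtain ⟨hib, hiw⟩ := Nat.find_spec hex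
      have hor : i = 0 ∨ (K : ℝ) / M i ≤ |w.1| := by
        rcases Nat.eq_zero_or_pos i with h | h
        · left; exact h
        · right
          by_contra hc
          rw [not_le] at hc
          have := Nat.find_min hex (m := i - 1) (by omega)
          apply this
          refine ⟨by omega, ?_⟩
          have e : i - 1 + 1 = i := by omega
          rw [e]; exact hc
      have hJ' : Jev G.n K i (Y ∪ {s, t}) w :=
        hjd ε K i G s t w Y Z (by omega) hHS hY hZ hwP hws2 hneg.ne hstuck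
          (hwle.trans (hMge i hib.le)) hor (h3K i hib.le)
      have hj1 : jv i Y w = 1 := ind_of hJ'
      have hwW : w ∈ W0 i := by
        rw [hW0, mem_filter]
        exact ⟨hwF, hiw, hhi.le⟩
      have c1 : (1 : ℝ) ≤ ∑ v ∈ Y ∩ W0 i, jv i Y v := by
        rw [← hj1]
        exact single_le_sum (f := fun v => jv i Y v) (fun v _ => hjv0 i Y v)
          (mem_inter.2 ⟨hvY, hwW⟩)
      have c3 : ∑ v ∈ Y ∩ W0 i, jv i Y v ≤ P0 Y :=
        single_le_sum (f := fun i => ∑ v ∈ Y ∩ W0 i, jv i Y v)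
          (fun i _ => sum_nonneg fun v _ => hjv0 i Y v) (mem_range.2 hib)
      show (1 : ℝ) ≤ P0 Y + P1 Y + P2 Y + P3 Y
      linarith

end Pool.Agent.Helper67.GR
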