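import Pool.Agent.Helper67.GR.St5
import Pool.Agent.Helper67.GR.Fld

/-! # GR project: SkLow (stuck vertices of low label) -/

namespace Pool.Agent.Helper67.GR

open Finset

theorem lam_antitone_SkLow {K : ℕ} {n : ℝ} (hn : 0 ≤ n) (hK : 1 ≤ K) : Antitone (lam K n) := by
  intro i j hij
  have hK1 : (1 : ℝ) ≤ K := by exact_mod_cast hK
  unfold lam
  have h1 : ((K : ℝ) ^ 5) ^ i ≤ ((K : ℝ) ^ 5) ^ j := pow_le_pow_right₀ (one_le_pow₀ hK1) hij
  have h2 : 0 < ((K : ℝ) ^ 5) ^ i := by positivity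
  exact div_le_div_of_nonneg_left hn h2 h1

theorem exists_b_SkLow {K : ℕ} {n M : ℝ} (hK : 2 ≤ K) (hM : 0 < M) (hn : M ≤ n) :
    ∃ b : ℕ, M ≤ lam K n b ∧ lam K n (b + 1) < M := by
  classical
  have hK2 : (2 : ℝ) ≤ K := by exact_mod_cast hK
  have h1 : (1 : ℝ) < (K : ℝ) ^ 5 := one_lt_pow₀ (by linarith) (by norm_num)
  have hex : ∃ j : ℕ, lam K n j < M := by
    obtain ⟨j, hj⟩ := pow_unbounded_of_one_lt (n / M) h1
    refine ⟨j, ?_⟩
    unfold lam
    rw [div_lt_iff₀ (by positivity)]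
    rw [div_lt_iff₀ hM] at hj
    linarith [mul_comm (((K : ℝ) ^ 5) ^ j) M]
  have h0 : Nat.find hex ≠ 0 := by
    intro h
    have h2 := Nat.find_spec hex
    rw [h] at h2
    unfold lam at h2
    rw [pow_zero, div_one] at h2
    linarith
  obtain ⟨b, hb⟩ := Nat.exists_eq_succ_of_ne_zero h0
  refine ⟨b, ?_, ?_⟩
  · have h2 := Nat.find_min hex (m := b) (by omega)
    exact not_lt.1 h2
  · have h2 := Nat.find_spec hex
    rwa [hb] at h2

/-- the cells with `|x| < ρ` and label at most `θ` -/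
noncomputable def Wc_SkLow (G : Grid) (ρ θ : ℝ) : Finset Pt :=
  (G.fld (-ρ) ρ).filter (fun v => v.2 ≤ θ)

theorem card_Wc_SkLow (G : Grid) {ρ θ : ℝ} (h0 : 0 ≤ ρ) (h1 : ρ ≤ 1 / 2) (hθ : 0 ≤ θ) :
    G.p * ((Wc_SkLow G ρ θ).card : ℝ) ≤ θ * (2 * ρ) + G.κ := by
  have h2 := mean_le' G (-ρ) ρ θ (by linarith) (by linarith) h1 hθ
  rw [Finset.sum_const, nsmul_eq_mul] at h2
  unfold Wc_SkLow
  have h3 : θ * (ρ - -ρ) = θ * (2 * ρ) := by ring
  rw [h3] at h2
  linarith [mul_comm G.p (((G.fld (-ρ) ρ).filter (fun v => v.2 ≤ θ)).card : ℝ)]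

theorem hSkLow (hjd : StJd) (hjm : StJm) : StSkLow := by
  intro ε hε hε8
  obtain ⟨ℓ₁, hjm'⟩ := hjm 6
  refine ⟨max ℓ₁ 40, ?_⟩
  intro ℓ K hℓ hPar
  have hℓ1 : ℓ₁ ≤ ℓ := le_trans (le_max_left _ _) hℓ
  have hℓ3 : 40 ≤ ℓ := le_trans (le_max_right _ _) hℓ
  have hK : 40 ≤ K := by
    have h1 : ℓ ≤ ℓ ^ 8 := Nat.le_self_pow (by norm_num) ℓ
    exact hℓ3.trans (h1.trans hPar.1)
  have hKR : (40 : ℝ) ≤ K := by exact_mod_cast hK
  have hℓR : (40 : ℝ) ≤ ℓ := by exact_mod_cast hℓ3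
  set L₀ : ℝ := 100 * ℓ * K / ε ^ 4 with hL₀
  have hL0 : 0 < L₀ := by positivity
  refine ⟨max (2 * L₀) (K * ((2 * L₀ * K + 1) + 2 * L₀ * (L₀ + 1))), ?_⟩
  intro G s t hn hS hκ
  have hn1 : 2 * L₀ ≤ G.n := le_trans (le_max_left _ _) hn
  have hn2 : K * ((2 * L₀ * K + 1) + 2 * L₀ * (L₀ + 1)) ≤ G.n := le_trans (le_max_right _ _) hn
  have hG1 : 1 ≤ G.n := G.n_one
  have hG0 : 0 < G.n := by linarith
  have hκ1 : G.κ ≤ 1 / G.n := by
    have h1 : G.n ≤ G.n ^ 4 := le_self_pow₀ hG1 (by norm_num)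
    rw [le_div_iff₀ hG0]
    exact (mul_le_mul_of_nonneg_left h1 G.κ_pos).trans hκ
  have hanti := lam_antitone_SkLow (K := K) hG0.le (by omega)
  have hlam : ∀ i, 0 < lam K G.n i := by
    intro i
    unfold lam
    positivity
  obtain ⟨b, hb1, hb2⟩ := exists_b_SkLow (K := K) (n := G.n) (M := 2 * L₀) (by omega)
    (by positivity) hn1
  -- radii
  have hε4 : ε ^ 4 ≤ ε / 512 := by
    have h1 : ε ^ 3 ≤ (1 / 8) ^ 3 := pow_le_pow_left₀ hε.le hε8 3
    have h2 : ε ^ 4 = ε * ε ^ 3 := by ring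
    rw [h2]
    have h3 : ε * ε ^ 3 ≤ ε * (1 / 8) ^ 3 := mul_le_mul_of_nonneg_left h1 hε.le
    linarith
  have hKb : ∀ i ≤ b, (ℓ : ℝ) * K / lam K G.n i ≤ ε / 512 / 200 := by
    intro i hi
    have h1 : 2 * L₀ ≤ lam K G.n i := hb1.trans (hanti hi)
    calc (ℓ : ℝ) * K / lam K G.n i ≤ ℓ * K / (2 * L₀) :=
          div_le_div_of_nonneg_left (by positivity) (by positivity) h1
      _ = ε ^ 4 / 200 := by rw [hL₀]; field_simp; norm_num
      _ ≤ ε / 512 / 200 := by linarith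
  have hKb' : ∀ i ≤ b, (K : ℝ) / lam K G.n i ≤ ε / 512 / 200 := by
    intro i hi
    refine le_trans ?_ (hKb i hi)
    apply div_le_div_of_nonneg_right _ (hlam i).le
    nlinarith
  let ρ : ℕ → ℝ := fun i => if i < b then K / lam K G.n (i + 1) else 1 / 2 - ε / 2
  have hρlt : ∀ i, i < b → ρ i = K / lam K G.n (i + 1) := fun i hi => if_pos hi
  have hρb : ρ b = 1 / 2 - ε / 2 := if_neg (lt_irrefl b)
  have hρ0 : ∀ i ≤ b, 0 < ρ i ∧ ρ i ≤ 1 / 2 - ε / 2 := by
    intro i hi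
    rcases lt_or_eq_of_le hi with h | rfl
    · rw [hρlt i h]
      have h1 := hKb' (i + 1) h
      have h2 := hlam (i + 1)
      refine ⟨by positivity, by linarith⟩
    · rw [hρb]
      exact ⟨by linarith, le_rfl⟩
  let W : ℕ → Finset Pt := fun i => Wc_SkLow G (ρ i) L₀
  have hrr : rr ε = 1 / 2 - ε / 4 := rfl
  refine ⟨fun Y => ∑ i ∈ range (b + 1), ∑ v ∈ Y ∩ W i,
    ind (Jev G.n K i (Y ∪ {s, t}) v), ?_, ?_, ?_⟩
  · intro Y
    exact Finset.sum_nonneg fun i _ => Finset.sum_nonneg fun v _ => ind_nonneg _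
  · rw [bern_sum]
    have hterm : ∀ i ∈ range (b + 1), bern (fun _ => G.p) (G.sfld (rr ε))
        (fun Y => ∑ v ∈ Y ∩ W i, ind (Jev G.n K i (Y ∪ {s, t}) v)) ≤
        G.p * (W i).card / (K : ℝ) ^ (6 * (i + 1)) := by
      intro i hi
      have hi' : i ≤ b := by
        have := Finset.mem_range.1 hi
        omega
      obtain ⟨hρ1, hρ2⟩ := hρ0 i hi'
      refine hjm' ℓ K hℓ1 hPar ε G s t i (W i) hS hκ ?_ ?_
      · refine (Finset.filter_subset _ _).trans (fld_subset_sfld G ?_ ?_)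
        · rw [hrr]; linarith
        · rw [hrr]; linarith
      · intro v hv
        have h1 := (mem_fld G).1 (Finset.mem_filter.1 hv).1
        have h2 : |v.1| ≤ ρ i := abs_le.2 ⟨h1.2.2.1, h1.2.2.2.le⟩
        have h3 := hKb i hi'
        have h4 : 2 * (ℓ : ℝ) * K / lam K G.n i = 2 * (ℓ * K / lam K G.n i) := by ring
        rw [h4, hrr]
        linarith
    refine (Finset.sum_le_sum hterm).trans ?_
    rw [Finset.sum_range_succ]
    have hK0 : (0 : ℝ) < K := by linarith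
    -- the last term
    have hlast : G.p * (W b).card / (K : ℝ) ^ (6 * (b + 1)) ≤ 2 * L₀ * (L₀ + 1) / G.n := by
      have h1 : G.p * ((W b).card : ℝ) ≤ L₀ + 1 := by
        have h2 := card_Wc_SkLow G (hρ0 b le_rfl).1.le
          ((hρ0 b le_rfl).2.trans (by linarith)) hL0.le
        have h3 := G.κ_le
        have h4 : L₀ * (2 * ρ b) ≤ L₀ * 1 :=
          mul_le_mul_of_nonneg_left (by rw [hρb]; linarith) hL0.le
        linarith
      have h5 : G.n / (2 * L₀) ≤ (K : ℝ) ^ (6 * (b + 1)) := by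
        have h6 : G.n / (2 * L₀) ≤ ((K : ℝ) ^ 5) ^ (b + 1) := by
          unfold lam at hb2
          rw [div_lt_iff₀ (by positivity)] at hb2
          rw [div_le_iff₀ (by positivity)]
          linarith [mul_comm (((K : ℝ) ^ 5) ^ (b + 1)) (2 * L₀)]
        refine h6.trans ?_
        rw [← pow_mul]
        exact pow_le_pow_right₀ (by linarith) (by omega)
      have h7 : 0 < G.n / (2 * L₀) := by positivity
      calc G.p * ((W b).card : ℝ) / (K : ℝ) ^ (6 * (b + 1)) ≤ (L₀ + 1) / (G.n / (2 * L₀)) :=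
            div_le_div₀ (by positivity) h1 h7 h5
        _ = 2 * L₀ * (L₀ + 1) / G.n := by field_simp
    -- the other terms
    have hoth : ∀ i ∈ range b, G.p * (W i).card / (K : ℝ) ^ (6 * (i + 1)) ≤
        (2 * L₀ * K + 1) / G.n * (1 / 2) ^ (i + 1) := by
      intro i hi
      have hi' := Finset.mem_range.1 hi
      have h1 : G.p * ((W i).card : ℝ) ≤ (2 * L₀ * K + 1) / G.n * ((K : ℝ) ^ 5) ^ (i + 1) := by
        have h2 := card_Wc_SkLow G (hρ0 i hi'.le).1.le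
          ((hρ0 i hi'.le).2.trans (by linarith)) hL0.le
        have h4 : L₀ * (2 * ρ i) = 2 * L₀ * K / G.n * ((K : ℝ) ^ 5) ^ (i + 1) := by
          rw [hρlt i hi']
          unfold lam
          field_simp
        have h5 : G.κ ≤ 1 / G.n * ((K : ℝ) ^ 5) ^ (i + 1) := by
          refine hκ1.trans ?_
          have h6 : (1 : ℝ) ≤ ((K : ℝ) ^ 5) ^ (i + 1) := one_le_pow₀ (one_le_pow₀ (by linarith))
          have h7 : 0 ≤ 1 / G.n := by positivity
          nlinarith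
        calc G.p * ((W i).card : ℝ) ≤ L₀ * (2 * ρ i) + G.κ := h2
          _ ≤ 2 * L₀ * K / G.n * ((K : ℝ) ^ 5) ^ (i + 1) +
              1 / G.n * ((K : ℝ) ^ 5) ^ (i + 1) := by rw [h4]; linarith
          _ = (2 * L₀ * K + 1) / G.n * ((K : ℝ) ^ 5) ^ (i + 1) := by ring
      have h8 : (K : ℝ) ^ (6 * (i + 1)) = ((K : ℝ) ^ 5) ^ (i + 1) * (K : ℝ) ^ (i + 1) := by
        rw [← pow_mul, ← pow_add]
        congr 1
        ring
      rw [h8, div_le_iff₀ (by positivity)]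
      refine h1.trans ?_
      have h9 : (1 : ℝ) ≤ (1 / 2) ^ (i + 1) * (K : ℝ) ^ (i + 1) := by
        rw [← mul_pow]
        exact one_le_pow₀ (by linarith)
      have h10 : 0 ≤ (2 * L₀ * K + 1) / G.n * ((K : ℝ) ^ 5) ^ (i + 1) := by positivity
      calc (2 * L₀ * K + 1) / G.n * ((K : ℝ) ^ 5) ^ (i + 1)
          = (2 * L₀ * K + 1) / G.n * ((K : ℝ) ^ 5) ^ (i + 1) * 1 := by ring
        _ ≤ (2 * L₀ * K + 1) / G.n * ((K : ℝ) ^ 5) ^ (i + 1) *
              ((1 / 2) ^ (i + 1) * (K : ℝ) ^ (i + 1)) := mul_le_mul_of_nonneg_left h9 h10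
        _ = _ := by ring
    have hgeom : ∑ i ∈ range b, ((1 : ℝ) / 2) ^ (i + 1) ≤ 1 := by
      have h1 : ∀ m : ℕ, ∑ i ∈ range m, ((1 : ℝ) / 2) ^ (i + 1) = 1 - (1 / 2) ^ m := by
        intro m
        induction m with
        | zero => simp
        | succ m ih => rw [Finset.sum_range_succ, ih]; ring
      rw [h1]
      have h2 : (0 : ℝ) ≤ (1 / 2) ^ b := by positivity
      linarith
    have hsum : ∑ i ∈ range b, G.p * (W i).card / (K : ℝ) ^ (6 * (i + 1)) ≤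
        (2 * L₀ * K + 1) / G.n := by
      refine (Finset.sum_le_sum hoth).trans ?_
      rw [← Finset.mul_sum]
      have h1 : 0 ≤ (2 * L₀ * K + 1) / G.n := by positivity
      calc (2 * L₀ * K + 1) / G.n * ∑ i ∈ range b, ((1 : ℝ) / 2) ^ (i + 1)
          ≤ (2 * L₀ * K + 1) / G.n * 1 := mul_le_mul_of_nonneg_left hgeom h1
        _ = _ := mul_one _
    refine (add_le_add hsum hlast).trans ?_
    rw [← add_div, div_le_div_iff₀ hG0 hK0, one_mul]
    calc (2 * L₀ * K + 1 + 2 * L₀ * (L₀ + 1)) * K =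
        K * ((2 * L₀ * K + 1) + 2 * L₀ * (L₀ + 1)) := by ring
      _ ≤ G.n := hn2
  · intro Y hY Z hZ v hv hst hv1 hv0 hvL
    have hvG := hY hv
    have hvX : v.1 ∈ G.Xs ∧ v.2 ∈ G.Ts := by
      unfold Grid.sfld at hvG
      rw [Finset.mem_product, Finset.mem_filter] at hvG
      exact ⟨hvG.1.1, hvG.2⟩
    have hvcfg : v ∈ cfg Y Z s t := by
      unfold cfg
      exact Finset.mem_union_left _ (Finset.mem_union_left _ hv)
    -- the scale of `v`
    have hsc : ∃ i ≤ b, |v.1| < ρ i ∧ (i = 0 ∨ (K : ℝ) / lam K G.n i ≤ |v.1|) := by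
      classical
      by_cases hcase : b = 0 ∨ (K : ℝ) / lam K G.n b ≤ |v.1|
      · refine ⟨b, le_rfl, ?_, hcase⟩
        rw [hρb]
        linarith
      · have hb0 : b ≠ 0 := fun h => hcase (Or.inl h)
        have hvb : |v.1| < (K : ℝ) / lam K G.n b := not_le.1 fun h => hcase (Or.inr h)
        have hex : ∃ j, |v.1| < (K : ℝ) / lam K G.n j := ⟨b, hvb⟩
        have hfb : Nat.find hex ≤ b := Nat.find_min' hex hvb
        have hfs := Nat.find_spec hex
        rcases Nat.eq_zero_or_pos (Nat.find hex) with h | h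
        · refine ⟨0, Nat.zero_le _, ?_, Or.inl rfl⟩
          rw [hρlt 0 (Nat.pos_of_ne_zero hb0)]
          rw [h] at hfs
          refine hfs.trans_le ?_
          exact div_le_div_of_nonneg_left (by linarith) (hlam _) (hanti (Nat.zero_le _))
        · obtain ⟨j, hj⟩ := Nat.exists_eq_succ_of_ne_zero h.ne'
          refine ⟨j, by omega, ?_, Or.inr ?_⟩
          · rw [hρlt j (by omega)]
            rwa [hj] at hfs
          · exact not_lt.1 (Nat.find_min hex (m := j) (by omega))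
    obtain ⟨i, hib, hiρ, hic⟩ := hsc
    have hJ : Jev G.n K i (Y ∪ {s, t}) v := by
      refine hjd ε K i G s t v Y Z hK hS hY hZ hvcfg hv1 hv0 hst ?_ hic ?_
      · have h1 := hanti hib
        linarith
      · have h1 := hKb' i hib
        have h2 : 3 * (K : ℝ) / lam K G.n i = 3 * (K / lam K G.n i) := by ring
        rw [h2]
        linarith
    have hvW : v ∈ Y ∩ W i := by
      rw [Finset.mem_inter]
      refine ⟨hv, Finset.mem_filter.2 ⟨(mem_fld G).2 ⟨hvX.1, hvX.2, ?_, ?_⟩, hvL.le⟩⟩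
      · exact (abs_lt.1 hiρ).1.le
      · exact (abs_lt.1 hiρ).2
    calc (1 : ℝ) = ind (Jev G.n K i (Y ∪ {s, t}) v) := (ind_of hJ).symm
      _ ≤ ∑ v ∈ Y ∩ W i, ind (Jev G.n K i (Y ∪ {s, t}) v) :=
          Finset.single_le_sum (f := fun v => ind (Jev G.n K i (Y ∪ {s, t}) v))
            (fun v _ => ind_nonneg _) hvW
      _ ≤ _ := Finset.single_le_sum
            (f := fun i => ∑ v ∈ Y ∩ W i, ind (Jev G.n K i (Y ∪ {s, t}) v))
            (fun i _ => Finset.sum_nonneg fun v _ => ind_nonneg _)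
            (Finset.mem_range.2 (by omega))

end Pool.Agent.Helper67.GR
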