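import Pool.Agent.Helper67.GR.St5
import Pool.Agent.Helper67.GR.Fld
import Pool.Agent.Helper67.GR.M_FarD

/-! # GR project (MP_d9675d_pr), module Stuck: the walk does not get stuck -/

set_option autoImplicit false

namespace Pool.Agent.Helper67.GR

open Finset

theorem geo_Stuck {c : ℕ} (hc : 1 ≤ c) (i : ℕ) :
    (1 / 2 : ℝ) ^ (i / c) ≤ 2 * (1 - 1 / (2 * (c : ℝ))) ^ i := by
  have hcR : (1 : ℝ) ≤ c := by exact_mod_cast hc
  set r : ℝ := 1 - 1 / (2 * (c : ℝ)) with hr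
  have h1 : 1 / (2 * (c : ℝ)) ≤ 1 / 2 := by
    rw [div_le_div_iff₀ (by positivity) (by norm_num)]
    linarith
  have h1' : 0 ≤ 1 / (2 * (c : ℝ)) := by positivity
  have hr0 : 0 ≤ r := by rw [hr]; linarith
  have hr1 : r ≤ 1 := by rw [hr]; linarith
  have h2 : 1 / 2 ≤ r ^ c := by
    have h3 := one_add_mul_le_pow (a := -(1 / (2 * (c : ℝ)))) (by linarith) c
    have h4 : 1 + (c : ℝ) * -(1 / (2 * (c : ℝ))) = 1 / 2 := by
      field_simp
      ring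
    rw [h4] at h3
    rw [hr, sub_eq_add_neg]
    exact h3
  have h5 : r ^ i = (r ^ c) ^ (i / c) * r ^ (i % c) := by
    rw [← pow_mul, ← pow_add, Nat.div_add_mod]
  have h6 : r ^ c ≤ r ^ (i % c) :=
    pow_le_pow_of_le_one hr0 hr1 (Nat.mod_lt _ (by omega)).le
  have h7 : (1 / 2 : ℝ) ^ (i / c) ≤ (r ^ c) ^ (i / c) :=
    pow_le_pow_left₀ (by norm_num) h2 _
  rw [h5]
  have h8 : (0 : ℝ) ≤ (1 / 2 : ℝ) ^ (i / c) := by positivity
  nlinarith [mul_le_mul h7 (h2.trans h6) (by norm_num) (h8.trans h7)]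

theorem geo_sum_Stuck {c : ℕ} (hc : 1 ≤ c) (N : ℕ) :
    ∑ i ∈ range N, (1 / 2 : ℝ) ^ (i / c) ≤ 4 * c := by
  have hcR : (1 : ℝ) ≤ c := by exact_mod_cast hc
  set r : ℝ := 1 - 1 / (2 * (c : ℝ)) with hr
  have h1 : 1 / (2 * (c : ℝ)) ≤ 1 / 2 := by
    rw [div_le_div_iff₀ (by positivity) (by norm_num)]
    linarith
  have hr0 : 0 ≤ r := by rw [hr]; linarith
  have h2 := geom_sum_mul_neg r N
  have h3 : 1 - r = 1 / (2 * (c : ℝ)) := by rw [hr]; ring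
  rw [h3] at h2
  have h4 : ∑ i ∈ range N, r ^ i ≤ 2 * c := by
    have h5 : (∑ i ∈ range N, r ^ i) = (1 - r ^ N) * (2 * c) := by
      rw [← h2]; field_simp
    rw [h5]
    have : 0 ≤ r ^ N := by positivity
    nlinarith
  calc ∑ i ∈ range N, (1 / 2 : ℝ) ^ (i / c) ≤ ∑ i ∈ range N, 2 * r ^ i :=
        sum_le_sum fun i _ => geo_Stuck hc i
    _ = 2 * ∑ i ∈ range N, r ^ i := by rw [mul_sum]
    _ ≤ 4 * c := by linarith

/-- the sum of the contributions of all label levels -/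
theorem sum_Stuck {K N : ℕ} (hK : 2 ≤ K) :
    ∑ k ∈ range (N + 1), 1 / (K : ℝ) ^ ((N + 1 - 1 - k - 1) / (5 * K)) ≤ 20 * K + 1 := by
  have hKR : (2 : ℝ) ≤ K := by exact_mod_cast hK
  rw [sum_range_reflect (fun j => 1 / (K : ℝ) ^ ((j - 1) / (5 * K))) (N + 1),
    sum_range_succ']
  have h1 : ∑ i ∈ range N, 1 / (K : ℝ) ^ ((i + 1 - 1) / (5 * K)) ≤
      ∑ i ∈ range N, (1 / 2 : ℝ) ^ (i / (5 * K)) := by
    refine sum_le_sum fun i _ => ?_
    rw [Nat.add_sub_cancel, one_div, ← inv_pow]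
    refine pow_le_pow_left₀ (by positivity) ?_ _
    rw [one_div]
    exact inv_anti₀ (by norm_num) hKR
  have h2 := geo_sum_Stuck (c := 5 * K) (by omega) N
  push_cast at h2
  simp only [Nat.zero_sub, Nat.zero_div, pow_zero, div_one]
  linarith

/-- the total of the contributions of all label levels -/
theorem tot_Stuck {K N : ℕ} {κ : ℝ} (hK : (40 : ℝ) ≤ K) (h4 : ((N : ℝ) + 1) * κ ≤ 1) :
    ∑ k ∈ range (N + 1), (1 / (K : ℝ) ^ ((N + 1 - 1 - k - 1) / (5 * K)) + κ) / (K : ℝ) ^ 5 ≤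
      1 / (K : ℝ) := by
  have hK2 : 2 ≤ K := by
    have : (2 : ℝ) ≤ K := by linarith
    exact_mod_cast this
  have h2 : ∑ k ∈ range (N + 1),
        (1 / (K : ℝ) ^ ((N + 1 - 1 - k - 1) / (5 * K)) + κ) / (K : ℝ) ^ 5 =
      ((∑ k ∈ range (N + 1), 1 / (K : ℝ) ^ ((N + 1 - 1 - k - 1) / (5 * K))) +
        ((N : ℝ) + 1) * κ) / (K : ℝ) ^ 5 := by
    rw [← sum_div, sum_add_distrib, sum_const, card_range, nsmul_eq_mul]
    push_cast
    rfl
  have h3 := sum_Stuck (K := K) (N := N) hK2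
  rw [h2, div_le_div_iff₀ (by positivity) (by linarith), one_mul]
  have h8 : (K : ℝ) ^ 5 = K ^ 4 * K := by ring
  rw [h8]
  refine mul_le_mul_of_nonneg_right ?_ (by linarith)
  have h9 : (40 : ℝ) ^ 3 ≤ (K : ℝ) ^ 3 := pow_le_pow_left₀ (by norm_num) hK 3
  have h10 : (K : ℝ) ^ 4 = (K : ℝ) ^ 3 * K := by ring
  have h11 : (40 : ℝ) ^ 3 * K ≤ (K : ℝ) ^ 3 * K := mul_le_mul_of_nonneg_right h9 (by linarith)
  rw [h10]
  linarith

theorem hStuck (hs : StSk) (hl : StSkLow) (hj : StJ1) (hjd : StJd) (hpi : StPI) : StStuck := by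
  intro ε hε hε8
  obtain ⟨ℓ₁, hs⟩ := hs 5
  obtain ⟨ℓ₂, hl⟩ := hl ε hε hε8
  obtain ⟨ℓ₃, hj⟩ := hj 1
  refine ⟨max (max ℓ₁ ℓ₂) (max ℓ₃ 40), ?_⟩
  intro ℓ K hℓ hPar
  have hℓ1 : ℓ₁ ≤ ℓ := ((le_max_left _ _).trans (le_max_left _ _)).trans hℓ
  have hℓ2 : ℓ₂ ≤ ℓ := ((le_max_right _ _).trans (le_max_left _ _)).trans hℓ
  have hℓ3 : ℓ₃ ≤ ℓ := ((le_max_left _ _).trans (le_max_right _ _)).trans hℓ
  have hℓ40 : 40 ≤ ℓ := ((le_max_right _ _).trans (le_max_right _ _)).trans hℓ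
  have hK40 : 40 ≤ K := by
    have h1 : ℓ ^ 1 ≤ ℓ ^ 8 := Nat.pow_le_pow_right (by omega) (by norm_num)
    rw [pow_one] at h1
    exact hℓ40.trans (h1.trans hPar.1)
  have hℓR : (40 : ℝ) ≤ ℓ := by exact_mod_cast hℓ40
  have hKR : (40 : ℝ) ≤ K := by exact_mod_cast hK40
  obtain ⟨n₁, hl⟩ := hl ℓ K hℓ2 hPar
  obtain ⟨L₀, hL₀⟩ : ∃ L₀ : ℝ, L₀ = 100 * ℓ * K / ε ^ 4 := ⟨_, rfl⟩
  have hε4 : 0 < ε ^ 4 := by positivity
  have hε4' : ε ^ 4 ≤ 1 / 512 * ε := by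
    have h1 : ε ^ 3 ≤ (1 / 8) ^ 3 := pow_le_pow_left₀ hε.le hε8 3
    have h2 : ε ^ 4 = ε ^ 3 * ε := by ring
    rw [h2]
    nlinarith
  have hL₀1 : 100 ≤ L₀ := by
    rw [hL₀, le_div_iff₀ hε4]
    nlinarith
  have hL₀e : L₀ * ε ^ 4 = 100 * ℓ * K := by rw [hL₀]; field_simp
  refine ⟨max n₁ L₀, ?_⟩
  intro G s t hn hS hκ
  have hn1 : n₁ ≤ G.n := (le_max_left _ _).trans hn
  have hnL : L₀ ≤ G.n := (le_max_right _ _).trans hn
  have hn0 : 0 < G.n := by linarith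
  obtain ⟨Ψ₀, hΨ₀0, hΨ₀1, hΨ₀2⟩ := hl G s t hn1 hS hκ
  have hrr : rr ε = 1 / 2 - ε / 4 := rfl
  -- the number of levels
  obtain ⟨N, hN1, hN2⟩ := exists_nat_pow_near (x := G.n / L₀) (y := (2 : ℝ))
    (by rw [le_div_iff₀ (by linarith)]; linarith) (by norm_num)
  have hN1' : 2 ^ N * L₀ ≤ G.n := by
    rwa [le_div_iff₀ (by linarith)] at hN1
  have hlev : ∀ k ∈ range (N + 1), ∃ Ψ : Finset Pt → ℝ, (∀ Y, 0 ≤ Ψ Y) ∧
      bern (fun _ => G.p) (G.sfld (rr ε)) Ψ ≤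
        (1 / (K : ℝ) ^ ((N + 1 - 1 - k - 1) / (5 * K)) + G.κ) / (K : ℝ) ^ 5 ∧
      ∀ Y ⊆ G.sfld (rr ε), ∀ Z, OutOk G.n (rr ε) Z → ∀ (v : ℕ → Pt) (m : ℕ),
        IsPath K (cfg Y Z s t) s v m → StuckAt K (cfg Y Z s t) (v m) → (v m).1 ≠ 0 →
        2 ^ k * L₀ ≤ (v m).2 → (v m).2 < 2 * (2 ^ k * L₀) → v m ∈ Y → 1 ≤ Ψ Y := by
    intro k hk
    rw [mem_range] at hk
    have h2k : (1 : ℝ) ≤ 2 ^ k := one_le_pow₀ (by norm_num)
    have hkn : (2 : ℝ) ^ k * L₀ ≤ G.n := by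
      have : (2 : ℝ) ^ k ≤ 2 ^ N := pow_le_pow_right₀ (by norm_num) (by omega)
      nlinarith
    refine hs ℓ K hℓ1 hPar ε G (2 ^ k * L₀) s t ((N + 1 - 1 - k - 1) / (5 * K))
      ⟨hS, hκ, by positivity, hkn, ?_⟩ ?_
    · rw [div_le_iff₀ (by positivity), ← hL₀e]
      nlinarith [mul_pos (show (0 : ℝ) < L₀ by linarith) hε4]
    · rcases Nat.eq_zero_or_pos (N - k) with h0 | h0
      · left
        have : N + 1 - 1 - k - 1 = 0 := by omega
        rw [this, Nat.zero_div]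
      · right
        set b : ℕ := (N + 1 - 1 - k - 1) / (5 * K) with hb
        have hb1 : 5 * K * b ≤ N - k - 1 := by
          have := Nat.mul_div_le (N + 1 - 1 - k - 1) (5 * K)
          rw [← hb] at this
          omega
        have hK2 : (K : ℝ) ≤ 2 ^ K := by
          have : K < 2 ^ K := Nat.lt_two_pow_self
          exact_mod_cast this.le
        have h1 : ((K : ℝ) ^ 5) ^ b ≤ 2 ^ (N - k - 1) := by
          calc ((K : ℝ) ^ 5) ^ b = (K : ℝ) ^ (5 * b) := by rw [← pow_mul]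
            _ ≤ ((2 : ℝ) ^ K) ^ (5 * b) := pow_le_pow_left₀ (by linarith) hK2 _
            _ = 2 ^ (5 * K * b) := by rw [← pow_mul]; congr 1; ring
            _ ≤ 2 ^ (N - k - 1) := pow_le_pow_right₀ (by norm_num) hb1
        unfold lam
        rw [le_div_iff₀ (by positivity)]
        have h2 : (2 : ℝ) ^ N = 2 * 2 ^ k * 2 ^ (N - k - 1) := by
          rw [mul_assoc, ← pow_add, ← pow_succ']
          congr 1
          omega
        have h3 : (0 : ℝ) ≤ 2 * (2 ^ k * L₀) := by positivity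
        calc 2 * (2 ^ k * L₀) * ((K : ℝ) ^ 5) ^ b ≤ 2 * (2 ^ k * L₀) * 2 ^ (N - k - 1) :=
              mul_le_mul_of_nonneg_left h1 h3
          _ = 2 ^ N * L₀ := by rw [h2]; ring
          _ ≤ G.n := hN1'
  choose! Ψ hΨ0 hΨ1 hΨ2 using hlev
  -- the event at the source
  have hlam0 : lam K G.n 0 = G.n := by unfold lam; rw [pow_zero, div_one]
  have hKn : (K : ℝ) / G.n ≤ ε ^ 4 / 4000 := by
    rw [div_le_iff₀ hn0]
    have h1 : L₀ * (ε ^ 4 / 4000) ≤ G.n * (ε ^ 4 / 4000) :=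
      mul_le_mul_of_nonneg_right hnL (by positivity)
    have h2 : L₀ * (ε ^ 4 / 4000) = ℓ * K / 40 := by
      have : L₀ * (ε ^ 4 / 4000) = L₀ * ε ^ 4 / 4000 := by ring
      rw [this, hL₀e]; ring
    nlinarith
  have hℓKn : 2 * (ℓ : ℝ) * K / G.n ≤ ε ^ 4 / 50 := by
    rw [div_le_iff₀ hn0]
    have h1 : L₀ * (ε ^ 4 / 50) ≤ G.n * (ε ^ 4 / 50) :=
      mul_le_mul_of_nonneg_right hnL (by positivity)
    have h2 : L₀ * (ε ^ 4 / 50) = 2 * ℓ * K := by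
      have : L₀ * (ε ^ 4 / 50) = L₀ * ε ^ 4 / 50 := by ring
      rw [this, hL₀e]; ring
    linarith
  have hJ := hj ℓ K hℓ3 hPar G 0 s {s, t} (rr ε) hκ (card_le_two.trans (by norm_num))
    (by rw [hrr]; linarith) (by
      rw [hlam0, hrr]
      have := hS.2.2.2.1
      nlinarith)
  rw [zero_add, mul_one, pow_one] at hJ
  -- inclusion
  have hpq := sfld_pq G (rr ε)
  have hincl : ∀ Y ⊆ G.sfld (rr ε), ind (∃ Z, OutOk G.n (rr ε) Z ∧
      ∃ (v : ℕ → Pt) (m : ℕ), IsPath K (cfg Y Z s t) s v m ∧ v m ≠ t ∧ (v m).1 ≠ 0 ∧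
        StuckAt K (cfg Y Z s t) (v m)) ≤
      (Ψ₀ Y + ∑ k ∈ range (N + 1), Ψ k Y) + ind (Jev G.n K 0 (Y ∪ {s, t}) s) := by
    intro Y hY
    have hsum0 : 0 ≤ ∑ k ∈ range (N + 1), Ψ k Y := sum_nonneg fun k hk => hΨ0 k hk Y
    have hj0 := ind_nonneg (Jev G.n K 0 (Y ∪ {s, t}) s)
    have h00 := hΨ₀0 Y
    by_cases hev : ∃ Z, OutOk G.n (rr ε) Z ∧
      ∃ (v : ℕ → Pt) (m : ℕ), IsPath K (cfg Y Z s t) s v m ∧ v m ≠ t ∧ (v m).1 ≠ 0 ∧
        StuckAt K (cfg Y Z s t) (v m)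
    swap
    · rw [ind_of_not hev]
      linarith
    rw [ind_of hev]
    obtain ⟨Z, hZ, v, m, hp, hvt, hv0, hst⟩ := hev
    obtain ⟨-, hpi2, -⟩ := hpi K (cfg Y Z s t) s v m hp
    obtain ⟨hvP, hvs⟩ := hpi2 m le_rfl
    have hv12 : |(v m).1| ≤ 1 / 2 - ε := hvs.trans hS.2.2.2.1
    have hok := cfg_ok_FarD hS hY hZ hvP
    have hcase : v m ∈ Y ∨ v m = s := by
      have h1 := hvP
      unfold cfg at h1
      rw [mem_union, mem_union, mem_insert, mem_singleton] at h1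
      rcases h1 with (h1 | h1) | (h1 | h1)
      · exact Or.inl h1
      · exfalso
        have h2 := (hZ _ h1).1
        rw [hrr] at h2
        linarith
      · exact Or.inr h1
      · exact absurd h1 hvt
    rcases hcase with hvY | hvs'
    · rcases lt_or_ge (v m).2 L₀ with hlow | hhigh
      · have := hΨ₀2 Y hY Z hZ (v m) hvY hst hv12 hv0 (by rw [← hL₀]; exact hlow)
        linarith
      · obtain ⟨k, hk1, hk2⟩ := exists_nat_pow_near (x := (v m).2 / L₀) (y := (2 : ℝ))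
          (by rw [le_div_iff₀ (by linarith)]; linarith) (by norm_num)
        have hkN : k < N + 1 := by
          by_contra hcon
          rw [not_lt] at hcon
          have h1 : (2 : ℝ) ^ (N + 1) ≤ 2 ^ k := pow_le_pow_right₀ (by norm_num) hcon
          have h2 : (v m).2 / L₀ ≤ G.n / L₀ :=
            div_le_div_of_nonneg_right hok.1.2 (by linarith)
          linarith
        rw [le_div_iff₀ (by linarith)] at hk1
        rw [div_lt_iff₀ (by linarith)] at hk2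
        have h1 := hΨ2 k (mem_range.2 hkN) Y hY Z hZ v m hp hst hv0 hk1 (by
          rw [pow_succ] at hk2
          linarith) hvY
        have h2 : Ψ k Y ≤ ∑ k ∈ range (N + 1), Ψ k Y :=
          single_le_sum (f := fun k => Ψ k Y) (fun k hk => hΨ0 k hk Y) (mem_range.2 hkN)
        linarith
    · rw [hvs'] at hvP hv12 hv0 hst
      have h1 := hjd ε K 0 G s t s Y Z hK40 hS hY hZ hvP hv12 hv0 hst
        (by rw [hlam0]; exact hS.2.2.2.2.2.1) (Or.inl rfl) (by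
          rw [hlam0]
          have e1 : 3 * (K : ℝ) / G.n = 3 * (K / G.n) := by ring
          rw [e1]
          linarith)
      rw [ind_of h1]
      linarith
  have htot : prob (fun _ => G.p) (G.sfld (rr ε)) (fun Y => ∃ Z, OutOk G.n (rr ε) Z ∧
      ∃ (v : ℕ → Pt) (m : ℕ), IsPath K (cfg Y Z s t) s v m ∧ v m ≠ t ∧ (v m).1 ≠ 0 ∧
        StuckAt K (cfg Y Z s t) (v m)) ≤
      (bern (fun _ => G.p) (G.sfld (rr ε)) Ψ₀ +
        ∑ k ∈ range (N + 1), bern (fun _ => G.p) (G.sfld (rr ε)) (Ψ k)) +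
      prob (fun _ => G.p) (G.sfld (rr ε)) (fun Y => Jev G.n K 0 (Y ∪ {s, t}) s) := by
    unfold prob
    rw [← bern_sum, ← bern_add, ← bern_add]
    exact bern_mono hpq hincl
  have hsum : ∑ k ∈ range (N + 1), bern (fun _ => G.p) (G.sfld (rr ε)) (Ψ k) ≤ 1 / (K : ℝ) := by
    have h1 : ∑ k ∈ range (N + 1), bern (fun _ => G.p) (G.sfld (rr ε)) (Ψ k) ≤
        ∑ k ∈ range (N + 1),
          (1 / (K : ℝ) ^ ((N + 1 - 1 - k - 1) / (5 * K)) + G.κ) / (K : ℝ) ^ 5 :=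
      sum_le_sum fun k hk => hΨ1 k hk
    refine h1.trans (tot_Stuck hKR ?_)
    have h5 : ((N + 1 : ℕ) : ℝ) ≤ 2 ^ N := by
      have : N < 2 ^ N := Nat.lt_two_pow_self
      exact_mod_cast this
    push_cast at h5
    have h2N : (0 : ℝ) < 2 ^ N := by positivity
    have h6 : (2 : ℝ) ^ N ≤ G.n := by
      have : (2 : ℝ) ^ N * 1 ≤ 2 ^ N * L₀ := mul_le_mul_of_nonneg_left (by linarith) h2N.le
      linarith
    have h7 : G.n ≤ G.n ^ 4 := le_self_pow₀ G.n_one (by norm_num)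
    calc ((N : ℝ) + 1) * G.κ ≤ G.n ^ 4 * G.κ :=
          mul_le_mul_of_nonneg_right (by linarith) G.κ_pos
      _ = G.κ * G.n ^ 4 := mul_comm _ _
      _ ≤ 1 := hκ
  have e4 : 4 / (K : ℝ) = 1 / K + 1 / K + 1 / K + 1 / K := by ring
  have hKpos : 0 < 1 / (K : ℝ) := by positivity
  rw [e4]
  linarith

end Pool.Agent.Helper67.GR
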