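import Pool.Agent.Helper67.GR.St6

/-! # GR project (MP_d9675d_pr), module T1: comparisons determine the walk -/

set_option autoImplicit false

namespace Pool.Agent.Helper67.GR

open Finset

theorem nbr_T1 {n K : ℕ} {d d' : Fin n → Fin n → ℝ}
    (h : ∀ a b c, d a b < d a c ↔ d' a b < d' a c) (i j : Fin n) :
    nbr K d i j ↔ nbr K d' i j := by
  unfold nbr
  have e : (univ.filter (fun k => k < max i j ∧ d (max i j) k < d (max i j) (min i j))) =
      univ.filter (fun k => k < max i j ∧ d' (max i j) k < d' (max i j) (min i j)) := by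
    refine filter_congr fun k _ => ?_
    rw [h]
  rw [e]

theorem gst_T1 {n K : ℕ} {d d' : Fin n → Fin n → ℝ}
    (h : ∀ a b c, d a b < d a c ↔ d' a b < d' a c) (t v u : Fin n) :
    gst K d t v u ↔ gst K d' t v u := by
  have hle : ∀ a b c, d a b ≤ d a c ↔ d' a b ≤ d' a c := by
    intro a b c
    rw [← not_lt, ← not_lt, h]
  unfold gst
  rw [nbr_T1 h, h]
  refine and_congr_right fun _ => and_congr_right fun _ => forall_congr' fun w => ?_
  rw [nbr_T1 h, hle]

theorem hT1 : StT1 := by
  intro n K d d' t h m
  induction m with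
  | zero => intro v; exact Iff.rfl
  | succ m ih =>
    intro v
    unfold suc
    refine or_congr Iff.rfl (and_congr (exists_congr fun u => gst_T1 h t v u)
      (forall_congr' fun u => ?_))
    rw [gst_T1 h, ih]

end Pool.Agent.Helper67.GR
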