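import Pool.Agent.Helper67.GR.St6

/-! # GR module T10: the result for the circle -/

namespace Pool.Agent.Helper67.GR

open Finset MeasureTheory

theorem card_or_T10 {α : Type} [Finite α] {F A B : α → Prop} (h : ∀ k, F k → A k ∨ B k) :
    Nat.card {k // F k} ≤ Nat.card {k // A k} + Nat.card {k // B k} := by
  classical
  have := Fintype.ofFinite α
  rw [Nat.card_eq_fintype_card, Nat.card_eq_fintype_card, Nat.card_eq_fintype_card,
    Fintype.card_subtype, Fintype.card_subtype, Fintype.card_subtype]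
  refine le_trans (Finset.card_le_card ?_) (Finset.card_union_le _ _)
  intro k hk
  rw [Finset.mem_union, Finset.mem_filter, Finset.mem_filter]
  rcases h k (Finset.mem_filter.1 hk).2 with h | h
  · exact Or.inl ⟨Finset.mem_univ _, h⟩
  · exact Or.inr ⟨Finset.mem_univ _, h⟩

theorem hT10 (h1 : StT1) (h2 : StT2) (h3 : StT3) (h4 : StT4) (h9 : StT9) : StT10 := by
  intro ε₀ hε₀
  obtain ⟨K₀, C, hC, h⟩ := h9 (ε₀ / 2) (by positivity)
  refine ⟨K₀, C, hC, fun K hK => ?_⟩
  obtain ⟨n₀, hn₀⟩ := h K hK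
  refine ⟨n₀, fun n hn => ?_⟩
  obtain ⟨N₀, hN₀⟩ := hn₀ n hn
  obtain ⟨q, hq⟩ := exists_nat_ge (20 * (n : ℝ) ^ 3 / ε₀)
  obtain ⟨N, hN⟩ : ∃ N, N = 2 * (N₀ + q) + 1 := ⟨_, rfl⟩
  have hNodd : N % 2 = 1 := by omega
  have hNN : N₀ ≤ N := by omega
  have hNq : q ≤ N := by omega
  have hN0 : 0 < N := by omega
  have hNr : (0 : ℝ) < N := by exact_mod_cast hN0
  have hNn : (0 : ℝ) < (N : ℝ) ^ n := by positivity
  have h5 := hN₀ N hNN hNodd
  set m := ⌊C * Real.log n⌋₊ with hm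
  set A : ℝ := (Nat.card {k : Fin n → Fin N // NearTie k} : ℝ) with hA
  have key : ∀ s t : Fin n, (volume {X : Fin n → UnitAddCircle |
      ¬ suc K (fun a b => dist (X a) (X b)) t m s}).toReal ≤
      (A + (Nat.card {k : Fin n → Fin N // ¬ NearTie k ∧
        ¬ suc K (fun a b => gd N (k a) (k b)) t m s} : ℝ)) / (N : ℝ) ^ n := by
    intro s t
    have h6 := h2 n N hN0 (fun k => NearTie k ∨ (¬ NearTie k ∧
      ¬ suc K (fun a b => gd N (k a) (k b)) t m s))
    have h7 : (volume {X : Fin n → UnitAddCircle |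
        ¬ suc K (fun a b => dist (X a) (X b)) t m s}).toReal ≤
        (volume {X : Fin n → UnitAddCircle | NearTie (fun a => pixf N hN0 (X a)) ∨
          (¬ NearTie (fun a => pixf N hN0 (X a)) ∧
          ¬ suc K (fun a b => gd N (pixf N hN0 (X a)) (pixf N hN0 (X b))) t m s)}).toReal := by
      refine ENNReal.toReal_mono (measure_ne_top _ _) (measure_mono ?_)
      intro X hX
      by_cases hnt : NearTie (fun a => pixf N hN0 (X a))
      · exact Or.inl hnt
      · right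
        refine ⟨hnt, fun hs => hX ?_⟩
        exact (h1 n K _ _ t (fun a b c => h3 n N hN0 X hnt a b c) m s).2 hs
    refine h7.trans ?_
    rw [h6]
    refine div_le_div_of_nonneg_right ?_ hNn.le
    rw [hA]
    exact_mod_cast card_or_T10 (fun k hk => hk)
  have h6 := h4 n N hN0
  have hnn : (0 : ℝ) ≤ n := Nat.cast_nonneg n
  calc (∑ s : Fin n, ∑ t : Fin n, (volume {X : Fin n → UnitAddCircle |
        ¬ suc K (fun a b => dist (X a) (X b)) t m s}).toReal)
      ≤ ∑ s : Fin n, ∑ t : Fin n, (A + (Nat.card {k : Fin n → Fin N // ¬ NearTie k ∧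
        ¬ suc K (fun a b => gd N (k a) (k b)) t m s} : ℝ)) / (N : ℝ) ^ n :=
        Finset.sum_le_sum fun s _ => Finset.sum_le_sum fun t _ => key s t
    _ = ((n : ℝ) ^ 2 * A + ∑ s : Fin n, ∑ t : Fin n, (Nat.card {k : Fin n → Fin N //
        ¬ NearTie k ∧ ¬ suc K (fun a b => gd N (k a) (k b)) t m s} : ℝ)) / (N : ℝ) ^ n := by
        simp only [← Finset.sum_div, Finset.sum_add_distrib, Finset.sum_const, Finset.card_univ,
          Fintype.card_fin, nsmul_eq_mul]
        ring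
    _ ≤ ((n : ℝ) ^ 2 * (10 * (n : ℝ) ^ 3 * (N : ℝ) ^ n / N) +
        ε₀ / 2 * (n : ℝ) ^ 2 * (N : ℝ) ^ n) / (N : ℝ) ^ n := by
        refine div_le_div_of_nonneg_right (add_le_add ?_ h5) hNn.le
        exact mul_le_mul_of_nonneg_left h6 (by positivity)
    _ = (n : ℝ) ^ 2 * (10 * (n : ℝ) ^ 3 / N) + ε₀ / 2 * (n : ℝ) ^ 2 := by
        field_simp
    _ ≤ (n : ℝ) ^ 2 * (ε₀ / 2) + ε₀ / 2 * (n : ℝ) ^ 2 := by
        refine add_le_add (mul_le_mul_of_nonneg_left ?_ (by positivity)) le_rfl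
        have hqN : (q : ℝ) ≤ N := by exact_mod_cast hNq
        rw [div_le_iff₀ hNr]
        have h7 : 20 * (n : ℝ) ^ 3 / ε₀ ≤ N := hq.trans hqN
        rw [div_le_iff₀ hε₀] at h7
        linarith
    _ = ε₀ * (n : ℝ) ^ 2 := by ring

end Pool.Agent.Helper67.GR
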