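import Pool.Agent.Helper67.GR.St6

/-! # GR project: push forward of the uniform measure -/

namespace Pool.Agent.Helper67.GR

open Finset MeasureTheory

theorem rep_meas_T2 : Measurable rep := by
  have h : rep = fun x => ((AddCircle.measurableEquivIco (1 : ℝ) 0 x :
      Set.Ico (0 : ℝ) (0 + 1)) : ℝ) := rfl
  rw [h]
  exact measurable_subtype_coe.comp (AddCircle.measurableEquivIco (1 : ℝ) 0).measurable

theorem rep_coe_T2 {x : ℝ} (h0 : 0 ≤ x) (h1 : x < 1) : rep (x : UnitAddCircle) = x := by
  unfold rep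
  have : x ∈ Set.Ico (0 : ℝ) (0 + 1) := ⟨h0, by linarith⟩
  exact AddCircle.equivIco_coe_of_mem (p := (1 : ℝ)) (a := 0) this

theorem cell_meas_T2 (N : ℕ) (hN : 0 < N) (j : Fin N) :
    MeasurableSet {x : UnitAddCircle | pixf N hN x = j} := by
  have h1 : {x : UnitAddCircle | pixf N hN x = j} =
      (fun x : UnitAddCircle => min (⌊(N : ℝ) * rep x⌋₊) (N - 1)) ⁻¹' {(j : ℕ)} := by
    ext x
    rw [Set.mem_preimage, Set.mem_singleton_iff]
    exact Fin.ext_iff
  rw [h1]
  have h2 : Measurable (fun x : UnitAddCircle => min (⌊(N : ℝ) * rep x⌋₊) (N - 1)) := by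
    refine Measurable.min ?_ measurable_const
    exact Nat.measurable_floor.comp (rep_meas_T2.const_mul _)
  exact h2 (measurableSet_singleton _)

theorem cell_vol_T2 (N : ℕ) (hN : 0 < N) (j : Fin N) :
    volume {x : UnitAddCircle | pixf N hN x = j} = ENNReal.ofReal (1 / N) := by
  have hN' : (0 : ℝ) < N := by exact_mod_cast hN
  rw [AddCircle.add_projection_respects_measure 1 0 (cell_meas_T2 N hN j)]
  have h1 : volume (QuotientAddGroup.mk ⁻¹' {x : UnitAddCircle | pixf N hN x = j} ∩
      Set.Ioc (0 : ℝ) (0 + 1)) =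
      volume (QuotientAddGroup.mk ⁻¹' {x : UnitAddCircle | pixf N hN x = j} ∩
      Set.Ico (0 : ℝ) (0 + 1)) :=
    measure_congr (Filter.EventuallyEq.inter (Filter.EventuallyEq.refl _ _)
      (Ioc_ae_eq_Icc.trans Ico_ae_eq_Icc.symm))
  rw [h1]
  have h2 : (QuotientAddGroup.mk ⁻¹' {x : UnitAddCircle | pixf N hN x = j} ∩
      Set.Ico (0 : ℝ) (0 + 1) : Set ℝ) = Set.Ico ((j : ℕ) / (N : ℝ)) (((j : ℕ) + 1) / (N : ℝ)) := by
    have hj : ((j : ℕ) : ℝ) + 1 ≤ N := by exact_mod_cast j.2
    ext x
    rw [Set.mem_inter_iff, Set.mem_preimage, Set.mem_Ico, Set.mem_Ico, div_le_iff₀ hN',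
      lt_div_iff₀ hN']
    constructor
    · rintro ⟨h3, h4, h5⟩
      have h6 : rep ((x : ℝ) : UnitAddCircle) = x := rep_coe_T2 h4 (by linarith)
      have h7 : min (⌊(N : ℝ) * rep ((x : ℝ) : UnitAddCircle)⌋₊) (N - 1) = (j : ℕ) :=
        Fin.ext_iff.1 h3
      rw [h6] at h7
      have h8 : ⌊(N : ℝ) * x⌋₊ < N := by
        rw [Nat.floor_lt (by positivity)]
        nlinarith
      rw [min_eq_left (by omega)] at h7
      rw [Nat.floor_eq_iff (by positivity)] at h7
      constructor <;> linarith [h7.1, h7.2]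
    · rintro ⟨h3, h4⟩
      have h0 : 0 ≤ x := by
        by_contra hx
        rw [not_le] at hx
        have : x * N < 0 := mul_neg_of_neg_of_pos hx hN'
        have : (0 : ℝ) ≤ (j : ℕ) := Nat.cast_nonneg _
        linarith
      have h5 : x < 1 := by
        by_contra hx
        rw [not_lt] at hx
        nlinarith
      refine ⟨?_, h0, by linarith⟩
      have h6 : rep ((x : ℝ) : UnitAddCircle) = x := rep_coe_T2 h0 h5
      show pixf N hN ((x : ℝ) : UnitAddCircle) = j
      apply Fin.ext
      show min (⌊(N : ℝ) * rep ((x : ℝ) : UnitAddCircle)⌋₊) (N - 1) = (j : ℕ)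
      rw [h6]
      have h7 : ⌊(N : ℝ) * x⌋₊ = (j : ℕ) := by
        rw [Nat.floor_eq_iff (by positivity)]
        constructor <;> linarith
      rw [h7]
      have := j.2
      omega
  rw [h2, Real.volume_Ico]
  congr 1
  ring

theorem hT2 : StT2 := by
  intro n N hN F
  classical
  set A : (Fin n → Fin N) → Set (Fin n → UnitAddCircle) := fun k =>
    Set.pi Set.univ (fun a => {x : UnitAddCircle | pixf N hN x = k a}) with hA
  have h1 : {X : Fin n → UnitAddCircle | F (fun a => pixf N hN (X a))} =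
      ⋃ k ∈ (univ : Finset (Fin n → Fin N)).filter F, A k := by
    ext X
    rw [Set.mem_iUnion₂]
    constructor
    · intro h
      exact ⟨fun a => pixf N hN (X a), mem_filter.2 ⟨mem_univ _, h⟩, fun a _ => rfl⟩
    · rintro ⟨k, hk, hX⟩
      have h2 : (fun a => pixf N hN (X a)) = k := funext fun a => hX a (Set.mem_univ a)
      show F (fun a => pixf N hN (X a))
      rw [h2]
      exact (mem_filter.1 hk).2
  have hvol : ∀ k, volume (A k) = ENNReal.ofReal (1 / N) ^ n := by
    intro k
    rw [hA]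
    simp only
    rw [MeasureTheory.volume_pi_pi]
    rw [Finset.prod_congr rfl (fun a _ => cell_vol_T2 N hN (k a)), Finset.prod_const,
      Finset.card_univ, Fintype.card_fin]
  have hmeas : ∀ k, MeasurableSet (A k) := fun k =>
    MeasurableSet.univ_pi fun a => cell_meas_T2 N hN (k a)
  have hdisj : Set.PairwiseDisjoint (↑((univ : Finset (Fin n → Fin N)).filter F)) A := by
    intro k _ k' _ hkk
    rw [Function.onFun, Set.disjoint_left]
    intro X hX hX'
    apply hkk
    funext a
    have h3 : pixf N hN (X a) = k a := hX a (Set.mem_univ a)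
    have h4 : pixf N hN (X a) = k' a := hX' a (Set.mem_univ a)
    exact h3.symm.trans h4
  rw [h1, measure_biUnion_finset hdisj (fun k _ => hmeas k), Finset.sum_congr rfl
    (fun k _ => hvol k), Finset.sum_const, nsmul_eq_mul, ENNReal.toReal_mul,
    ENNReal.toReal_pow, ENNReal.toReal_ofReal (by positivity), ENNReal.toReal_natCast]
  have h5 : Nat.card {k : Fin n → Fin N // F k} =
      ((univ : Finset (Fin n → Fin N)).filter F).card := by
    rw [Nat.card_eq_fintype_card, Fintype.card_subtype]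
  rw [h5, one_div, inv_pow, div_eq_mul_inv]

end Pool.Agent.Helper67.GR
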