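import Pool.Agent.Helper67.GR.St6

/-! # GR, module T3: comparisons are preserved away from near ties -/

namespace Pool.Agent.Helper67.GR

open Finset MeasureTheory

theorem rep_mem_T3 (x : UnitAddCircle) : 0 ≤ rep x ∧ rep x < 1 := by
  have h := (AddCircle.equivIco (1 : ℝ) 0 x).2
  have h2 : rep x < 0 + 1 := h.2
  exact ⟨h.1, by linarith⟩

theorem coe_rep_T3 (x : UnitAddCircle) : ((rep x : ℝ) : UnitAddCircle) = x :=
  AddCircle.coe_equivIco

/-- the distance of two points of the circle -/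
theorem dist_T3 (x y : UnitAddCircle) :
    dist x y = min |rep x - rep y| (1 - |rep x - rep y|) := by
  obtain ⟨hx0, hx1⟩ := rep_mem_T3 x
  obtain ⟨hy0, hy1⟩ := rep_mem_T3 y
  have h1 : dist x y = ‖((rep x - rep y : ℝ) : UnitAddCircle)‖ := by
    rw [AddCircle.coe_sub, coe_rep_T3, coe_rep_T3, dist_eq_norm]
  rw [h1, UnitAddCircle.norm_eq, abs_sub_round_eq_min]
  rcases le_or_gt 0 (rep x - rep y) with h | h
  · have h2 : Int.fract (rep x - rep y) = rep x - rep y := by
      rw [Int.fract_eq_self]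
      exact ⟨h, by linarith⟩
    rw [h2, abs_of_nonneg h]
  · have h2 : Int.fract (rep x - rep y) = rep x - rep y + 1 := by
      rw [Int.fract_eq_iff]
      refine ⟨by linarith, by linarith, -1, ?_⟩
      push_cast
      ring
    rw [h2, abs_of_neg h, min_comm]
    congr 1 <;> ring

/-- the value of the cell -/
theorem pix_T3 {N : ℕ} (hN : 0 < N) (x : UnitAddCircle) :
    ((pixf N hN x : ℕ) : ℝ) ≤ N * rep x ∧ (N : ℝ) * rep x < ((pixf N hN x : ℕ) : ℝ) + 1 := by
  obtain ⟨hx0, hx1⟩ := rep_mem_T3 x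
  have hN' : (0 : ℝ) < N := by exact_mod_cast hN
  have h0 : (0 : ℝ) ≤ N * rep x := by positivity
  have h1 : (N : ℝ) * rep x < N := by nlinarith
  have h2 : ⌊(N : ℝ) * rep x⌋₊ < N := (Nat.floor_lt h0).2 h1
  have h3 : (pixf N hN x : ℕ) = ⌊(N : ℝ) * rep x⌋₊ := by
    show min (⌊(N : ℝ) * rep x⌋₊) (N - 1) = _
    exact min_eq_left (by omega)
  rw [h3]
  exact ⟨Nat.floor_le h0, Nat.lt_floor_add_one _⟩

theorem near_T3 {N : ℕ} (hN : 0 < N) (x y : UnitAddCircle) :
    |(N : ℝ) * dist x y - gd N (pixf N hN x) (pixf N hN y)| < 1 := by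
  have hN' : (0 : ℝ) < N := by exact_mod_cast hN
  obtain ⟨h1, h2⟩ := pix_T3 hN x
  obtain ⟨h3, h4⟩ := pix_T3 hN y
  set a : ℝ := ((pixf N hN x : ℕ) : ℝ) with ha
  set b : ℝ := ((pixf N hN y : ℕ) : ℝ) with hb
  have e1 : (N : ℝ) * dist x y = min |N * rep x - N * rep y| (N - |N * rep x - N * rep y|) := by
    rw [dist_T3, ← mul_sub, abs_mul, abs_of_pos hN', mul_min_of_nonneg _ _ hN'.le]
    congr 1
    ring
  have e2 : gd N (pixf N hN x) (pixf N hN y) = min |a - b| (N - |a - b|) := rfl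
  rw [e1, e2]
  have h5 : |(|N * rep x - N * rep y| - |a - b|)| < 1 := by
    refine (abs_abs_sub_abs_le _ _).trans_lt ?_
    rw [abs_lt]
    constructor <;> linarith
  rw [abs_lt] at h5
  obtain ⟨h6, h7⟩ := h5
  set u := |(N : ℝ) * rep x - N * rep y| with hu
  set w := |a - b| with hw
  rw [abs_lt]
  rcases le_total u (N - u) with h8 | h8 <;> rcases le_total w (N - w) with h9 | h9
  · rw [min_eq_left h8, min_eq_left h9]; constructor <;> linarith
  · rw [min_eq_left h8, min_eq_right h9]; constructor <;> linarith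
  · rw [min_eq_right h8, min_eq_left h9]; constructor <;> linarith
  · rw [min_eq_right h8, min_eq_right h9]; constructor <;> linarith

theorem hT3 : StT3 := by
  intro n N hN X hnt a b c
  have hN' : (0 : ℝ) < N := by exact_mod_cast hN
  by_cases hbc : b = c
  · subst hbc
    simp
  have h1 : ¬ |gd N (pixf N hN (X a)) (pixf N hN (X b)) -
      gd N (pixf N hN (X a)) (pixf N hN (X c))| ≤ 2 := fun h => hnt ⟨a, b, c, hbc, h⟩
  have h2 := near_T3 hN (X a) (X b)
  have h3 := near_T3 hN (X a) (X c)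
  rw [abs_lt] at h2 h3
  rw [not_le, lt_abs] at h1
  constructor
  · intro h
    have h4 : (N : ℝ) * dist (X a) (X b) < N * dist (X a) (X c) := mul_lt_mul_of_pos_left h hN'
    rcases h1 with h1 | h1 <;> linarith
  · intro h
    have h4 : (N : ℝ) * dist (X a) (X b) < N * dist (X a) (X c) := by
      rcases h1 with h1 | h1 <;> linarith
    exact lt_of_mul_lt_mul_left h4 hN'.le

end Pool.Agent.Helper67.GR
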