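import Pool.Agent.Helper67.GR.St6

/-! # GR project (MP_d9675d_pr), module T4: near ties are rare -/

set_option autoImplicit false

namespace Pool.Agent.Helper67.GR

open Finset

/-- for given `i`, `y` at most ten cells `x` are nearly at the distance of `y` -/
theorem fib_T4 {N : ℕ} (i y : Fin N) :
    (univ.filter (fun x : Fin N => |gd N i y - gd N i x| ≤ 2)).card ≤ 10 := by
  classical
  obtain ⟨g, hg⟩ : ∃ g : ℤ, g = min |((i : ℕ) : ℤ) - ((y : ℕ) : ℤ)|
    (N - |((i : ℕ) : ℤ) - ((y : ℕ) : ℤ)|) := ⟨_, rfl⟩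
  have hgR : gd N i y = (g : ℝ) := by
    unfold gd
    rw [hg]
    push_cast
    rfl
  have hcard : ((Finset.Icc (g - 2) (g + 2)) ∪ (Finset.Icc ((N : ℤ) - g - 2)
      ((N : ℤ) - g + 2))).card ≤ 10 := by
    refine (card_union_le _ _).trans ?_
    rw [Int.card_Icc, Int.card_Icc]
    omega
  refine le_trans (card_le_card_of_injOn
    (fun x : Fin N => (((x : ℕ) : ℤ) - ((i : ℕ) : ℤ)) % (N : ℤ)) ?_ ?_) hcard
  · intro x hx
    rw [mem_coe, mem_filter] at hx
    have hx2 := hx.2
    rw [hgR] at hx2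
    obtain ⟨w, hw⟩ : ∃ w : ℤ, w = min |((i : ℕ) : ℤ) - ((x : ℕ) : ℤ)|
      (N - |((i : ℕ) : ℤ) - ((x : ℕ) : ℤ)|) := ⟨_, rfl⟩
    have hwR : gd N i x = (w : ℝ) := by
      unfold gd
      rw [hw]
      push_cast
      rfl
    rw [hwR] at hx2
    have h1 : |g - w| ≤ 2 := by exact_mod_cast hx2
    rw [abs_le] at h1
    have hi := i.2
    have hxN := x.2
    have hN : 0 < N := by omega
    rw [mem_coe, mem_union, Finset.mem_Icc, Finset.mem_Icc]
    beta_reduce
    rcases le_or_gt ((i : ℕ) : ℤ) ((x : ℕ) : ℤ) with h | h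
    · rw [Int.emod_eq_of_lt (by omega) (by omega)]
      rw [abs_of_nonpos (by omega)] at hw
      rcases min_choice (-(((i : ℕ) : ℤ) - ((x : ℕ) : ℤ)))
        (N - -(((i : ℕ) : ℤ) - ((x : ℕ) : ℤ))) with h2 | h2
      · rw [h2] at hw
        left
        constructor <;> linarith [h1.1, h1.2]
      · rw [h2] at hw
        right
        constructor <;> linarith [h1.1, h1.2]
    · have h3 : (((x : ℕ) : ℤ) - ((i : ℕ) : ℤ)) % (N : ℤ) =
          ((x : ℕ) : ℤ) - ((i : ℕ) : ℤ) + N := by
        rw [← Int.add_emod_right, Int.emod_eq_of_lt (by omega) (by omega)]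
      rw [h3]
      rw [abs_of_pos (by omega)] at hw
      rcases min_choice (((i : ℕ) : ℤ) - ((x : ℕ) : ℤ))
        (N - (((i : ℕ) : ℤ) - ((x : ℕ) : ℤ))) with h2 | h2
      · rw [h2] at hw
        right
        constructor <;> linarith [h1.1, h1.2]
      · rw [h2] at hw
        left
        constructor <;> linarith [h1.1, h1.2]
  · intro x _ x' _ h
    have h1 : (((x : ℕ) : ℤ) - ((i : ℕ) : ℤ)) % (N : ℤ) =
      (((x' : ℕ) : ℤ) - ((i : ℕ) : ℤ)) % (N : ℤ) := h
    have h3 : (N : ℤ) ∣ (((x' : ℕ) : ℤ) - ((i : ℕ) : ℤ)) - (((x : ℕ) : ℤ) - ((i : ℕ) : ℤ)) :=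
      Int.modEq_iff_dvd.1 h1
    obtain ⟨q, hq⟩ := h3
    have hx := x.2
    have hx' := x'.2
    have hq0 : q = 0 := by
      by_contra hne
      rcases lt_or_gt_of_ne hne with h4 | h4
      · nlinarith
      · nlinarith
    rw [hq0, mul_zero] at hq
    exact Fin.ext (by omega)

/-- for given indices at most `10 N^(n-1)` maps have a near tie -/
theorem tri_T4 {n N : ℕ} (a b c : Fin n) (hac : a ≠ c) (hbc : b ≠ c) :
    (univ.filter (fun k : Fin n → Fin N => |gd N (k a) (k b) - gd N (k a) (k c)| ≤ 2)).card ≤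
      10 * N ^ (n - 1) := by
  classical
  set S := univ.filter (fun k : Fin n → Fin N => |gd N (k a) (k b) - gd N (k a) (k c)| ≤ 2)
    with hS
  let φ : (Fin n → Fin N) → ({j : Fin n // j ≠ c} → Fin N) := fun k j => k j.1
  have h1 : S.card ≤ 10 * (S.image φ).card := by
    refine card_le_mul_card_image S 10 ?_
    intro g _
    refine le_trans (card_le_card_of_injOn (fun k : Fin n → Fin N => k c) ?_ ?_)
      (fib_T4 (g ⟨a, hac⟩) (g ⟨b, hbc⟩))
    · intro k hk
      rw [mem_coe, mem_filter, hS, mem_filter] at hk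
      rw [mem_coe, mem_filter]
      refine ⟨mem_univ _, ?_⟩
      have e1 : g ⟨a, hac⟩ = k a := by rw [← hk.2]
      have e2 : g ⟨b, hbc⟩ = k b := by rw [← hk.2]
      rw [e1, e2]
      exact hk.1.2
    · intro k hk k' hk' h
      rw [mem_coe, mem_filter] at hk hk'
      funext j
      by_cases hj : j = c
      · rw [hj]; exact h
      · have e1 := congrFun (hk.2.trans hk'.2.symm) ⟨j, hj⟩
        exact e1
  have h2 : (S.image φ).card ≤ N ^ (n - 1) := by
    refine (card_le_univ _).trans ?_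
    rw [Fintype.card_fun, Fintype.card_fin]
    have h3 : Fintype.card {j : Fin n // j ≠ c} = n - 1 := by
      rw [Fintype.card_subtype_compl, Fintype.card_fin, Fintype.card_subtype_eq]
    rw [h3]
  exact h1.trans (Nat.mul_le_mul_left 10 h2)

theorem hT4 : StT4 := by
  classical
  intro n N hN
  have h1 : Nat.card {k : Fin n → Fin N // NearTie k} ≤ n ^ 3 * (10 * N ^ (n - 1)) := by
    rw [Nat.card_eq_fintype_card, Fintype.card_subtype]
    have hsub : (univ.filter (fun k : Fin n → Fin N => NearTie k)) ⊆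
        (univ : Finset (Fin n × Fin n × Fin n)).biUnion (fun q => univ.filter
          (fun k => (q.1 ≠ q.2.2 ∧ q.2.1 ≠ q.2.2) ∧
            |gd N (k q.1) (k q.2.1) - gd N (k q.1) (k q.2.2)| ≤ 2)) := by
      intro k hk
      rw [mem_filter] at hk
      obtain ⟨-, a, b, c, hbc, hk⟩ := hk
      rw [mem_biUnion]
      by_cases hac : a = c
      · refine ⟨(a, c, b), mem_univ _, mem_filter.2 ⟨mem_univ _, ⟨?_, fun h => hbc h.symm⟩, ?_⟩⟩
        · rw [hac]; exact fun h => hbc h.symm
        · rw [abs_sub_comm]; exact hk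
      · exact ⟨(a, b, c), mem_univ _, mem_filter.2 ⟨mem_univ _, ⟨hac, hbc⟩, hk⟩⟩
    refine (card_le_card hsub).trans ?_
    refine (card_biUnion_le_card_mul _ _ (10 * N ^ (n - 1)) ?_).trans (le_of_eq ?_)
    · rintro ⟨a, b, c⟩ _
      by_cases h : a ≠ c ∧ b ≠ c
      · refine le_trans (card_le_card ?_) (tri_T4 a b c h.1 h.2)
        intro k hk
        rw [mem_filter] at hk ⊢
        exact ⟨hk.1, hk.2.2⟩
      · rw [filter_false_of_mem (fun k _ hk => h hk.1), card_empty]
        exact Nat.zero_le _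
    · rw [card_univ, Fintype.card_prod, Fintype.card_prod, Fintype.card_fin]
      ring
  have hNR : (0 : ℝ) < N := by exact_mod_cast hN
  rcases Nat.eq_zero_or_pos n with h0 | h0
  · subst h0
    have h2 : Nat.card {k : Fin 0 → Fin N // NearTie k} = 0 := by
      have := h1
      simpa using this
    rw [h2]
    simp
  · have h2 : (N : ℝ) ^ n / N = (N : ℝ) ^ (n - 1) := by
      rw [div_eq_iff hNR.ne', ← pow_succ]
      congr 1
      omega
    rw [mul_div_assoc, h2]
    calc (Nat.card {k : Fin n → Fin N // NearTie k} : ℝ) ≤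
        ((n ^ 3 * (10 * N ^ (n - 1)) : ℕ) : ℝ) := by exact_mod_cast h1
      _ = 10 * (n : ℝ) ^ 3 * (N : ℝ) ^ (n - 1) := by push_cast; ring

end Pool.Agent.Helper67.GR
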