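import Pool.Agent.Helper67.GR.M_T6

/-! # GR module T5: failing walks give bad greedy paths -/

namespace Pool.Agent.Helper67.GR

open Finset MeasureTheory

theorem gd_comm_T5 {N : ℕ} (i j : Fin N) : gd N i j = gd N j i := by
  unfold gd
  rw [abs_sub_comm]

theorem gd_self_T5 {N : ℕ} (i : Fin N) : gd N i i = 0 := by
  unfold gd
  rw [sub_self, abs_zero, sub_zero]
  exact min_eq_left (Nat.cast_nonneg _)

/-- circular distance only depends on the residue -/
theorem circ_T5 {N D E : ℤ} (hD : |D| ≤ N) (hE : |E| ≤ N)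
    (h : E = D ∨ (0 ≤ D ∧ E = D - N) ∨ (D ≤ 0 ∧ E = D + N)) :
    min |E| (N - |E|) = min |D| (N - |D|) := by
  rcases h with h | ⟨h0, h⟩ | ⟨h0, h⟩
  · rw [h]
  · subst h
    rw [abs_of_nonneg h0] at hD ⊢
    rw [abs_of_nonpos (by linarith)]
    rw [min_comm]
    congr 1 <;> ring
  · subst h
    rw [abs_of_nonpos h0] at hD ⊢
    rw [abs_of_nonneg (by linarith)]
    rw [min_comm]
    congr 1 <;> ring

theorem cres_diff_T5 {N : ℕ} (hN : N % 2 = 1) (i j c : Fin N) :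
    min |cres N i c - cres N j c| ((N : ℤ) - |cres N i c - cres N j c|) =
      min |((i : ℕ) : ℤ) - ((j : ℕ) : ℤ)| ((N : ℤ) - |((i : ℕ) : ℤ) - ((j : ℕ) : ℤ)|) := by
  have hi := i.2
  have hj := j.2
  have hc := c.2
  have h1 := cres_bd_T6 hN i c
  have h2 := cres_bd_T6 hN j c
  refine circ_T5 ?_ ?_ ?_
  · rw [abs_le]; constructor <;> omega
  · rw [abs_le]; constructor <;> omega
  · unfold cres at h1 h2 ⊢
    split_ifs at h1 h2 ⊢ <;> omega

theorem cd_ptf_T5 {n N : ℕ} (hN : N % 2 = 1) (h : ℝ) (k ρ : Fin n → Fin N) (t a b : Fin n) :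
    cd (ptf N h k ρ t a).1 (ptf N h k ρ t b).1 = gd N (k a) (k b) / N := by
  have hN0 : 0 < N := by omega
  have hNr : (0 : ℝ) < N := by exact_mod_cast hN0
  have h1 := cres_diff_T5 hN (k a) (k b) (k t)
  have h2 : min |((cres N (k a) (k t) : ℤ) : ℝ) - ((cres N (k b) (k t) : ℤ) : ℝ)|
      ((N : ℝ) - |((cres N (k a) (k t) : ℤ) : ℝ) - ((cres N (k b) (k t) : ℤ) : ℝ)|) =
      gd N (k a) (k b) := by
    unfold gd
    exact_mod_cast h1
  unfold cd ptf
  simp only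
  rw [← h2, ← sub_div, abs_div, abs_of_pos hNr, ← min_div_div_right hNr.le, sub_div,
    div_self hNr.ne']

theorem ptf_t_T5 {n N : ℕ} (h : ℝ) (k ρ : Fin n → Fin N) (t : Fin n) :
    (ptf N h k ρ t t).1 = 0 := by
  show ((cres N (k t) (k t) : ℤ) : ℝ) / N = 0
  rw [cres_self_T6]; simp

theorem abs_ptf_T5 {n N : ℕ} (hN : N % 2 = 1) (h : ℝ) (k ρ : Fin n → Fin N) (t a : Fin n) :
    |(ptf N h k ρ t a).1| = gd N (k t) (k a) / N := by
  have hN0 : 0 < N := by omega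
  have hNr : (0 : ℝ) < N := by exact_mod_cast hN0
  rw [gd_comm_T5, ← cd_ptf_T5 hN h k ρ t a t, ptf_t_T5]
  unfold cd
  rw [sub_zero, min_eq_left]
  have h1 := cres_bd_T6 hN (k a) (k t)
  have h2 : |(ptf N h k ρ t a).1| ≤ 1 / 2 := by
    show |((cres N (k a) (k t) : ℤ) : ℝ) / N| ≤ 1 / 2
    rw [abs_div, abs_of_pos hNr, div_le_iff₀ hNr]
    have h3 : 2 * |cres N (k a) (k t)| ≤ N := by
      rcases abs_cases (cres N (k a) (k t)) with h4 | h4 <;> omega
    have h4 : 2 * |((cres N (k a) (k t) : ℤ) : ℝ)| ≤ N := by exact_mod_cast h3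
    linarith
  linarith

variable {n N : ℕ} {h : ℝ} {k ρ : Fin n → Fin N} {K : ℕ}

theorem lab_T5 (hh : 0 < h) (hρ : StrictMono ρ) (t a b : Fin n) :
    (ptf N h k ρ t a).2 ≤ (ptf N h k ρ t b).2 ↔ a ≤ b := by
  rw [← hρ.le_iff_le]
  show (((ρ a : ℕ) : ℝ) + 1) * h ≤ (((ρ b : ℕ) : ℝ) + 1) * h ↔ ρ a ≤ ρ b
  rw [mul_le_mul_iff_left₀ hh, add_le_add_iff_right, Nat.cast_le]
  exact Iff.rfl

theorem gd_pos_T5 (hnt : ¬ NearTie k) {a b : Fin n} (hab : a ≠ b) : 2 < gd N (k a) (k b) := by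
  by_contra hcon
  apply hnt
  refine ⟨a, a, b, hab, ?_⟩
  rw [gd_self_T5, zero_sub, abs_neg]
  refine abs_le.2 ⟨?_, not_lt.1 hcon⟩
  have h1 : 0 ≤ gd N (k a) (k b) := by
    unfold gd
    refine le_min (abs_nonneg _) ?_
    have ha : ((k a : ℕ) : ℝ) < N := by exact_mod_cast (k a).2
    have hb : ((k b : ℕ) : ℝ) < N := by exact_mod_cast (k b).2
    have ha0 : (0 : ℝ) ≤ ((k a : ℕ) : ℝ) := Nat.cast_nonneg _
    have hb0 : (0 : ℝ) ≤ ((k b : ℕ) : ℝ) := Nat.cast_nonneg _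
    rw [sub_nonneg, abs_le]
    constructor <;> linarith
  linarith

theorem gd_ne_T5 (hnt : ¬ NearTie k) {a b c : Fin n} (hbc : b ≠ c) :
    gd N (k a) (k b) ≠ gd N (k a) (k c) := by
  intro h1
  apply hnt
  refine ⟨a, b, c, hbc, ?_⟩
  rw [h1, sub_self, abs_zero]
  norm_num

theorem bc_T5 (hN : N % 2 = 1) (hh : 0 < h) (hρ : StrictMono ρ) (hnt : ¬ NearTie k)
    (t : Fin n) {a b : Fin n} (hab : a ≠ b) :
    bc cd (univ.image (ptf N h k ρ t)) (ptf N h k ρ t a)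
      (cd (ptf N h k ρ t a).1 (ptf N h k ρ t b).1) =
      (univ.filter (fun c => c < a ∧ gd N (k a) (k c) < gd N (k a) (k b))).card + 1 := by
  have hN0 : 0 < N := by omega
  have hNr : (0 : ℝ) < N := by exact_mod_cast hN0
  unfold bc
  rw [Finset.filter_image, Finset.card_image_of_injective _ (ptf_inj_T6 hh k hρ t)]
  have h1 : (univ.filter (fun c => (ptf N h k ρ t c).2 ≤ (ptf N h k ρ t a).2 ∧
      cd (ptf N h k ρ t a).1 (ptf N h k ρ t c).1 <
        cd (ptf N h k ρ t a).1 (ptf N h k ρ t b).1)) =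
      insert a (univ.filter (fun c => c < a ∧ gd N (k a) (k c) < gd N (k a) (k b))) := by
    ext c
    rw [Finset.mem_filter, Finset.mem_insert, Finset.mem_filter, lab_T5 hh hρ,
      cd_ptf_T5 hN, cd_ptf_T5 hN, div_lt_div_iff_of_pos_right hNr]
    constructor
    · rintro ⟨-, h2, h3⟩
      rcases eq_or_lt_of_le h2 with h4 | h4
      · exact Or.inl h4
      · exact Or.inr ⟨mem_univ _, h4, h3⟩
    · rintro (rfl | ⟨-, h2, h3⟩)
      · refine ⟨mem_univ _, le_rfl, ?_⟩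
        rw [gd_self_T5]
        have := gd_pos_T5 hnt hab
        linarith
      · exact ⟨mem_univ _, h2.le, h3⟩
  rw [h1, Finset.card_insert_of_notMem]
  rw [Finset.mem_filter]
  rintro ⟨-, h2, -⟩
  exact lt_irrefl _ h2

theorem adjO_T5 (hN : N % 2 = 1) (hh : 0 < h) (hρ : StrictMono ρ) (hnt : ¬ NearTie k)
    (t a b : Fin n) :
    adjO cd K (univ.image (ptf N h k ρ t)) (ptf N h k ρ t a) (ptf N h k ρ t b) ↔
      b < a ∧ (univ.filter (fun c => c < a ∧ gd N (k a) (k c) < gd N (k a) (k b))).card < K := by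
  unfold adjO
  rw [lab_T5 hh hρ]
  constructor
  · rintro ⟨h1, h2, h3⟩
    have hne : a ≠ b := fun h4 => h1 (by rw [h4])
    rw [bc_T5 hN hh hρ hnt t hne] at h3
    exact ⟨lt_of_le_of_ne h2 hne.symm, by omega⟩
  · rintro ⟨h1, h2⟩
    refine ⟨fun h3 => h1.ne (ptf_inj_T6 hh k hρ t h3), h1.le, ?_⟩
    rw [bc_T5 hN hh hρ hnt t h1.ne']
    omega

theorem adj_T5 (hN : N % 2 = 1) (hh : 0 < h) (hρ : StrictMono ρ) (hnt : ¬ NearTie k)
    (t a b : Fin n) :
    adj cd K (univ.image (ptf N h k ρ t)) (ptf N h k ρ t a) (ptf N h k ρ t b) ↔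
      nbr K (fun a b => gd N (k a) (k b)) a b := by
  unfold adj nbr
  rw [adjO_T5 hN hh hρ hnt, adjO_T5 hN hh hρ hnt]
  rcases lt_trichotomy a b with h1 | h1 | h1
  · rw [max_eq_right h1.le, min_eq_left h1.le]
    constructor
    · rintro (h2 | h2)
      · exact absurd h1 (not_lt.2 h2.1.le)
      · exact ⟨h1.ne, h2.2⟩
    · rintro ⟨-, h2⟩
      exact Or.inr ⟨h1, h2⟩
  · subst h1
    constructor
    · rintro (h2 | h2)
      · exact absurd h2.1 (lt_irrefl _)
      · exact absurd h2.1 (lt_irrefl _)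
    · rintro ⟨h2, -⟩
      exact absurd rfl h2
  · rw [max_eq_left h1.le, min_eq_right h1.le]
    constructor
    · rintro (h2 | h2)
      · exact ⟨h1.ne', h2.2⟩
      · exact absurd h1 (not_lt.2 h2.1.le)
    · rintro ⟨-, h2⟩
      exact Or.inl ⟨h1, h2⟩

theorem step_T5 (hN : N % 2 = 1) (hh : 0 < h) (hρ : StrictMono ρ) (hnt : ¬ NearTie k)
    {t a b : Fin n} (hg : gst K (fun a b => gd N (k a) (k b)) t a b) :
    Step cd K (univ.image (ptf N h k ρ t)) (ptf N h k ρ t a) (ptf N h k ρ t b) := by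
  have hN0 : 0 < N := by omega
  have hNr : (0 : ℝ) < N := by exact_mod_cast hN0
  obtain ⟨h1, h2, h3⟩ := hg
  refine ⟨mem_image_of_mem _ (mem_univ _), (adj_T5 hN hh hρ hnt t a b).2 h1, ?_, ?_⟩
  · rw [abs_ptf_T5 hN, abs_ptf_T5 hN, div_lt_div_iff_of_pos_right hNr]
    exact h2
  · intro u hu hadj
    obtain ⟨c, -, rfl⟩ := mem_image.1 hu
    have h4 := h3 c ((adj_T5 hN hh hρ hnt t a c).1 hadj)
    by_cases hbc : b = c
    · subst hbc
      exact Or.inr ⟨rfl, le_rfl⟩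
    · left
      rw [abs_ptf_T5 hN, abs_ptf_T5 hN, div_lt_div_iff_of_pos_right hNr]
      exact lt_of_le_of_ne h4 (gd_ne_T5 hnt hbc)

theorem stuck_T5 (hN : N % 2 = 1) (hh : 0 < h) (hρ : StrictMono ρ) (hnt : ¬ NearTie k)
    {t a : Fin n} (hg : ¬ ∃ u, gst K (fun a b => gd N (k a) (k b)) t a u) :
    StuckAt K (univ.image (ptf N h k ρ t)) (ptf N h k ρ t a) := by
  classical
  have hN0 : 0 < N := by omega
  have hNr : (0 : ℝ) < N := by exact_mod_cast hN0
  intro u hu hadj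
  obtain ⟨c, -, rfl⟩ := mem_image.1 hu
  by_contra hcon
  rw [not_le, abs_ptf_T5 hN, abs_ptf_T5 hN, div_lt_div_iff_of_pos_right hNr] at hcon
  have h1 := (adj_T5 hN hh hρ hnt t a c).1 hadj
  obtain ⟨u, hu1, hu2⟩ := Finset.exists_min_image
    (univ.filter (fun w => nbr K (fun a b => gd N (k a) (k b)) a w))
    (fun w => gd N (k t) (k w)) ⟨c, mem_filter.2 ⟨mem_univ _, h1⟩⟩
  apply hg
  refine ⟨u, (mem_filter.1 hu1).2, ?_, fun w hw => hu2 w (mem_filter.2 ⟨mem_univ _, hw⟩)⟩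
  exact lt_of_le_of_lt (hu2 c (mem_filter.2 ⟨mem_univ _, h1⟩)) hcon

theorem hT5 : StT5 := by
  intro n N K m h k ρ s t hN hh hρ hnt
  have hinj := ptf_inj_T6 hh k hρ t
  have hN0 : 0 < N := by omega
  have hNr : (0 : ℝ) < N := by exact_mod_cast hN0
  -- a vertex different from the target without greedy successor
  have hend : ∀ s : Fin n, s ≠ t → (¬ ∃ u, gst K (fun a b => gd N (k a) (k b)) t s u) →
      ∃ (v : ℕ → Pt) (m' : ℕ), IsPath K (univ.image (ptf N h k ρ t)) (ptf N h k ρ t s) v m' ∧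
        (v m' ≠ ptf N h k ρ t t ∧ (v m').1 ≠ 0 ∧
          StuckAt K (univ.image (ptf N h k ρ t)) (v m')) := by
    intro s hs hg
    refine ⟨fun _ => ptf N h k ρ t s, 0, ⟨rfl, mem_image_of_mem _ (mem_univ _), ?_⟩,
      fun h1 => hs (hinj h1), ?_, stuck_T5 hN hh hρ hnt hg⟩
    · intro i hi
      exact absurd hi (Nat.not_lt_zero i)
    · intro h1
      have h2 := abs_ptf_T5 hN h k ρ t s
      have h3 : (ptf N h k ρ t s).1 = 0 := h1
      rw [h3, abs_zero] at h2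
      have h4 := gd_pos_T5 hnt hs.symm
      have h5 : 0 < gd N (k t) (k s) / N := by positivity
      linarith
  have hcons : ∀ (s u : Fin n) (v : ℕ → Pt) (m' : ℕ),
      gst K (fun a b => gd N (k a) (k b)) t s u →
      IsPath K (univ.image (ptf N h k ρ t)) (ptf N h k ρ t u) v m' →
      IsPath K (univ.image (ptf N h k ρ t)) (ptf N h k ρ t s)
        (fun i => match i with | 0 => ptf N h k ρ t s | i + 1 => v i) (m' + 1) := by
    intro s u v m' hg hpath
    refine ⟨rfl, mem_image_of_mem _ (mem_univ _), ?_⟩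
    intro i hi
    cases i with
    | zero =>
      show Step cd K (univ.image (ptf N h k ρ t)) (ptf N h k ρ t s) (v 0)
      rw [hpath.1]
      exact step_T5 hN hh hρ hnt hg
    | succ i => exact hpath.2.2 i (by omega)
  clear hinj
  revert s
  induction m with
  | zero =>
    intro s hs
    have hst : s ≠ t := hs
    by_cases hg : ∃ u, gst K (fun a b => gd N (k a) (k b)) t s u
    · obtain ⟨u, hu⟩ := hg
      have hpath : IsPath K (univ.image (ptf N h k ρ t)) (ptf N h k ρ t u)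
          (fun _ => ptf N h k ρ t u) 0 :=
        ⟨rfl, mem_image_of_mem _ (mem_univ _), fun i hi => absurd hi (Nat.not_lt_zero i)⟩
      exact ⟨_, _, hcons s u _ 0 hu hpath, Or.inl (by omega)⟩
    · obtain ⟨v, m', h1, h2⟩ := hend s hst hg
      exact ⟨v, m', h1, Or.inr h2⟩
  | succ m ih =>
    intro s hs
    have hst : s ≠ t := fun h1 => hs (Or.inl h1)
    by_cases hg : ∃ u, gst K (fun a b => gd N (k a) (k b)) t s u
    · have h1 : ¬ ∀ u, gst K (fun a b => gd N (k a) (k b)) t s u →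
          suc K (fun a b => gd N (k a) (k b)) t m u := fun h1 => hs (Or.inr ⟨hg, h1⟩)
      push Not at h1
      obtain ⟨u, hu1, hu2⟩ := h1
      obtain ⟨v, m', h2, h3⟩ := ih u hu2
      refine ⟨_, _, hcons s u v m' hu1 h2, ?_⟩
      rcases h3 with h3 | h3
      · exact Or.inl (by omega)
      · exact Or.inr h3
    · obtain ⟨v, m', h1, h2⟩ := hend s hst hg
      exact ⟨v, m', h1, Or.inr h2⟩

end Pool.Agent.Helper67.GR
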