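import Pool.Agent.Helper67.GR.St6

/-! # GR module T6: counting configurations by their point sets -/

namespace Pool.Agent.Helper67.GR

open Finset MeasureTheory

theorem choose_le_T6 (n N : ℕ) [DecidablePred (fun ρ : Fin n → Fin N => StrictMono ρ)] :
    N.choose n ≤ (univ.filter (fun ρ : Fin n → Fin N => StrictMono ρ)).card := by
  have h1 : (powersetCard n (univ : Finset (Fin N))).card = N.choose n := by
    rw [card_powersetCard, card_univ, Fintype.card_fin]
  rw [← h1]
  refine Finset.card_le_card_of_surjOn (fun ρ => univ.image ρ) ?_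
  intro s hs
  rw [Finset.mem_coe, mem_powersetCard] at hs
  refine ⟨s.orderEmbOfFin hs.2, ?_, ?_⟩
  · rw [Finset.mem_coe, mem_filter]
    exact ⟨mem_univ _, (s.orderEmbOfFin hs.2).strictMono⟩
  · ext x
    rw [mem_image]
    constructor
    · rintro ⟨a, -, rfl⟩
      exact s.orderEmbOfFin_mem hs.2 a
    · intro hx
      have h2 := s.range_orderEmbOfFin hs.2
      have h3 : x ∈ Set.range (s.orderEmbOfFin hs.2) := by rw [h2]; exact hx
      obtain ⟨a, ha⟩ := h3
      exact ⟨a, mem_univ _, ha⟩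

theorem cres_self_T6 {N : ℕ} (i : Fin N) : cres N i i = 0 := by
  have hi := i.2
  unfold cres
  split_ifs <;> omega

theorem cres_bd_T6 {N : ℕ} (hN : N % 2 = 1) (i j : Fin N) :
    -((N : ℤ) / 2) ≤ cres N i j ∧ cres N i j ≤ (N : ℤ) / 2 := by
  have hi := i.2
  have hj := j.2
  unfold cres
  split_ifs <;> omega

theorem cres_inj_T6 {N : ℕ} {i i' c : Fin N} (h : cres N i c = cres N i' c) : i = i' := by
  have hi := i.2
  have hi' := i'.2
  have hc := c.2
  apply Fin.ext
  unfold cres at h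
  split_ifs at h <;> omega

theorem label_inj_T6 {N : ℕ} {h : ℝ} (hh : 0 < h) {a b : Fin N}
    (hab : (((a : ℕ) : ℝ) + 1) * h = (((b : ℕ) : ℝ) + 1) * h) : a = b := by
  have h1 := mul_right_cancel₀ hh.ne' hab
  apply Fin.ext
  have h2 : ((a : ℕ) : ℝ) = ((b : ℕ) : ℝ) := by linarith
  exact_mod_cast h2

theorem ptf_eq_T6 {n N : ℕ} {h : ℝ} (hh : 0 < h) {k ρ k' ρ' : Fin n → Fin N} {t t' a b : Fin n}
    (hab : ptf N h k ρ t a = ptf N h k' ρ' t' b) : ρ a = ρ' b :=
  label_inj_T6 hh (congrArg Prod.snd hab)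

theorem ptf_inj_T6 {n N : ℕ} {h : ℝ} (hh : 0 < h) (k : Fin n → Fin N) {ρ : Fin n → Fin N}
    (hρ : StrictMono ρ) (t : Fin n) : Function.Injective (ptf N h k ρ t) :=
  fun _ _ hab => hρ.injective (ptf_eq_T6 hh hab)

theorem image_eq_T6 {n N : ℕ} {h : ℝ} (hh : 0 < h) {k ρ k' ρ' : Fin n → Fin N} {t t' : Fin n}
    (hρ : StrictMono ρ) (hρ' : StrictMono ρ')
    (hP : univ.image (ptf N h k ρ t) = univ.image (ptf N h k' ρ' t')) :
    ρ = ρ' ∧ ∀ a, ptf N h k ρ t a = ptf N h k' ρ' t' a := by
  have h1 : ∀ a, ∃ b, ptf N h k' ρ' t' b = ptf N h k ρ t a := by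
    intro a
    have h2 : ptf N h k ρ t a ∈ univ.image (ptf N h k' ρ' t') := by
      rw [← hP]; exact mem_image_of_mem _ (mem_univ a)
    obtain ⟨b, -, hb⟩ := mem_image.1 h2
    exact ⟨b, hb⟩
  have h1' : ∀ a, ∃ b, ptf N h k ρ t b = ptf N h k' ρ' t' a := by
    intro a
    have h2 : ptf N h k' ρ' t' a ∈ univ.image (ptf N h k ρ t) := by
      rw [hP]; exact mem_image_of_mem _ (mem_univ a)
    obtain ⟨b, -, hb⟩ := mem_image.1 h2
    exact ⟨b, hb⟩
  have h2 : ρ = ρ' := by
    refine (StrictMono.range_inj hρ hρ').1 ?_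
    ext x
    constructor
    · rintro ⟨a, rfl⟩
      obtain ⟨b, hb⟩ := h1 a
      exact ⟨b, ptf_eq_T6 hh hb⟩
    · rintro ⟨a, rfl⟩
      obtain ⟨b, hb⟩ := h1' a
      exact ⟨b, ptf_eq_T6 hh hb⟩
  refine ⟨h2, fun a => ?_⟩
  obtain ⟨b, hb⟩ := h1 a
  have h3 : ρ' b = ρ' a := by
    rw [ptf_eq_T6 hh hb, h2]
  rw [← hb, hρ'.injective h3]

theorem ptf_mem_T6 {n N : ℕ} {h : ℝ} (hN : N % 2 = 1) (k ρ : Fin n → Fin N)
    (t a : Fin n) : ptf N h k ρ t a ∈ gXs N ×ˢ gTs N h := by
  rw [mem_product]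
  constructor
  · unfold gXs
    rw [mem_image]
    exact ⟨cres N (k a) (k t), Finset.mem_Icc.2 (cres_bd_T6 hN _ _), rfl⟩
  · unfold gTs
    rw [mem_image]
    exact ⟨(ρ a : ℕ), mem_range.2 (ρ a).2, rfl⟩

theorem hT6 : StT6 := by
  classical
  intro n N h B hn hN hh
  set Kf : Fin n → Fin n → Finset (Fin n → Fin N) := fun s t =>
    univ.filter (fun k => s ≠ t ∧ ∀ ρ : Fin n → Fin N, StrictMono ρ →
      B (univ.image (ptf N h k ρ t)) (ptf N h k ρ t s) (ptf N h k ρ t t)) with hKf
  set SM : Finset (Fin n → Fin N) := univ.filter (fun ρ => StrictMono ρ) with hSM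
  set Xf : Pt → Pt → Finset (Finset Pt) := fun t' s' =>
    (powersetCard (n - 2) (((gXs N ×ˢ gTs N h).erase t').erase s')).filter
      (fun X => B (X ∪ {s', t'}) s' t') with hXf
  set T : Finset Pt := ({0} : Finset ℝ) ×ˢ gTs N h with hT
  set L : Finset ((_ : Fin n) × (_ : Fin n) × ((Fin n → Fin N) × (Fin n → Fin N))) :=
    univ.sigma fun s => univ.sigma fun t => Kf s t ×ˢ SM with hL
  set R : Finset (Fin N × ((_ : Pt) × (_ : Pt) × Finset Pt)) :=
    univ ×ˢ (T.sigma fun t' => ((gXs N ×ˢ gTs N h).erase t').sigma fun s' => Xf t' s') with hR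
  have hLcard : L.card = ∑ s : Fin n, ∑ t : Fin n, (Kf s t).card * SM.card := by
    rw [hL, card_sigma]
    refine sum_congr rfl fun s _ => ?_
    rw [card_sigma]
    exact sum_congr rfl fun t _ => card_product _ _
  have hRcard : R.card = N * ∑ t' ∈ T, ∑ s' ∈ (gXs N ×ˢ gTs N h).erase t', (Xf t' s').card := by
    rw [hR, card_product, card_univ, Fintype.card_fin, card_sigma]
    congr 1
    exact sum_congr rfl fun t' _ => card_sigma _ _
  have hle : L.card ≤ R.card := by
    refine Finset.card_le_card_of_injOn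
      (fun x => (x.2.2.1 x.2.1,
        ⟨ptf N h x.2.2.1 x.2.2.2 x.2.1 x.2.1, ⟨ptf N h x.2.2.1 x.2.2.2 x.2.1 x.1,
          univ.image (ptf N h x.2.2.1 x.2.2.2 x.2.1) \
            {ptf N h x.2.2.1 x.2.2.2 x.2.1 x.1, ptf N h x.2.2.1 x.2.2.2 x.2.1 x.2.1}⟩⟩)) ?_ ?_
    · rintro ⟨s, t, k, ρ⟩ hx
      rw [Finset.mem_coe, hL, mem_sigma] at hx
      have hx2 := hx.2
      rw [mem_sigma] at hx2
      have hx3 := hx2.2
      rw [mem_product] at hx3
      obtain ⟨hk, hρ⟩ := hx3
      simp only at hk hρ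
      rw [hKf, mem_filter] at hk
      rw [hSM, mem_filter] at hρ
      obtain ⟨-, hst, hB⟩ := hk
      have hρ := hρ.2
      have hinj := ptf_inj_T6 hh k hρ t
      have hne : ptf N h k ρ t s ≠ ptf N h k ρ t t := fun h1 => hst (hinj h1)
      have hsub : ({ptf N h k ρ t s, ptf N h k ρ t t} : Finset Pt) ⊆
          univ.image (ptf N h k ρ t) := by
        intro x hx
        rw [mem_insert, mem_singleton] at hx
        rcases hx with rfl | rfl
        · exact mem_image_of_mem _ (mem_univ _)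
        · exact mem_image_of_mem _ (mem_univ _)
      have hun : (univ.image (ptf N h k ρ t) \ {ptf N h k ρ t s, ptf N h k ρ t t}) ∪
          {ptf N h k ρ t s, ptf N h k ρ t t} = univ.image (ptf N h k ρ t) :=
        sdiff_union_of_subset hsub
      rw [Finset.mem_coe, hR, mem_product]
      refine ⟨mem_univ _, ?_⟩
      simp only
      rw [mem_sigma]
      refine ⟨?_, ?_⟩
      · simp only
        rw [hT, mem_product, mem_singleton]
        refine ⟨?_, (mem_product.1 (ptf_mem_T6 hN k ρ t t)).2⟩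
        show ((cres N (k t) (k t) : ℤ) : ℝ) / N = 0
        rw [cres_self_T6]; simp
      · simp only
        rw [mem_sigma]
        refine ⟨?_, ?_⟩
        · simp only
          rw [mem_erase]
          exact ⟨hne, ptf_mem_T6 hN k ρ t s⟩
        · simp only
          rw [hXf, mem_filter, mem_powersetCard]
          refine ⟨⟨?_, ?_⟩, ?_⟩
          · intro x hx
            rw [mem_sdiff, mem_insert, mem_singleton, not_or] at hx
            rw [mem_erase, mem_erase]
            refine ⟨hx.2.1, hx.2.2, ?_⟩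
            obtain ⟨a, -, rfl⟩ := mem_image.1 hx.1
            exact ptf_mem_T6 hN k ρ t a
          · rw [card_sdiff_of_subset hsub, card_image_of_injective _ hinj, card_univ,
              Fintype.card_fin, card_pair hne]
          · rw [hun]
            exact hB ρ hρ
    · rintro ⟨s, t, k, ρ⟩ hx ⟨s₁, t₁, k₁, ρ₁⟩ hx₁ heq
      rw [Finset.mem_coe, hL, mem_sigma] at hx hx₁
      have hρ : StrictMono ρ := by
        have h1 := hx.2
        rw [mem_sigma] at h1
        have h2 := h1.2
        rw [mem_product] at h2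
        have h3 := h2.2
        rw [hSM, mem_filter] at h3
        exact h3.2
      have hρ₁ : StrictMono ρ₁ := by
        have h1 := hx₁.2
        rw [mem_sigma] at h1
        have h2 := h1.2
        rw [mem_product] at h2
        have h3 := h2.2
        rw [hSM, mem_filter] at h3
        exact h3.2
      simp only [Prod.mk.injEq, Sigma.mk.injEq, heq_eq_eq] at heq
      obtain ⟨hc, ht, hs, hX⟩ := heq
      have hsub : ∀ (k ρ : Fin n → Fin N) (s t : Fin n),
          ({ptf N h k ρ t s, ptf N h k ρ t t} : Finset Pt) ⊆ univ.image (ptf N h k ρ t) := by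
        intro k ρ s t x hx
        rw [mem_insert, mem_singleton] at hx
        rcases hx with rfl | rfl
        · exact mem_image_of_mem _ (mem_univ _)
        · exact mem_image_of_mem _ (mem_univ _)
      have hP : univ.image (ptf N h k ρ t) = univ.image (ptf N h k₁ ρ₁ t₁) := by
        rw [← sdiff_union_of_subset (hsub k ρ s t), ← sdiff_union_of_subset (hsub k₁ ρ₁ s₁ t₁),
          hX, hs, ht]
      obtain ⟨h1, h2⟩ := image_eq_T6 hh hρ hρ₁ hP
      subst h1
      have h3 : t = t₁ := hρ.injective (ptf_eq_T6 hh ht)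
      have h4 : s = s₁ := hρ.injective (ptf_eq_T6 hh hs)
      subst h3
      subst h4
      have h5 : k = k₁ := by
        funext a
        have h6 := congrArg Prod.fst (h2 a)
        have hNpos : (0 : ℝ) < N := by
          have : 0 < N := by omega
          exact_mod_cast this
        have h7 : ((cres N (k a) (k t) : ℤ) : ℝ) = ((cres N (k₁ a) (k₁ t) : ℤ) : ℝ) := by
          have h8 : ((cres N (k a) (k t) : ℤ) : ℝ) / N = ((cres N (k₁ a) (k₁ t) : ℤ) : ℝ) / N := h6
          field_simp at h8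
          exact h8
        have h8 : cres N (k a) (k t) = cres N (k₁ a) (k₁ t) := by exact_mod_cast h7
        rw [← hc] at h8
        exact cres_inj_T6 h8
      subst h5
      rfl
  have h1 : ∀ s t : Fin n, Nat.card {k : Fin n → Fin N // s ≠ t ∧
      ∀ ρ : Fin n → Fin N, StrictMono ρ →
        B (univ.image (ptf N h k ρ t)) (ptf N h k ρ t s) (ptf N h k ρ t t)} = (Kf s t).card := by
    intro s t
    rw [Nat.card_eq_fintype_card, Fintype.card_subtype]
  have h2 : ∀ t' s' : Pt, Nat.card {X : Finset Pt //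
      X ∈ powersetCard (n - 2) (((gXs N ×ˢ gTs N h).erase t').erase s') ∧
      B (X ∪ {s', t'}) s' t'} = (Xf t' s').card := by
    intro t' s'
    exact Nat.subtype_card _ fun X => by rw [hXf, mem_filter]
  simp only [h1, h2]
  have h3 : (∑ s : Fin n, ∑ t : Fin n, (Kf s t).card) * N.choose n ≤
      N * ∑ t' ∈ T, ∑ s' ∈ (gXs N ×ˢ gTs N h).erase t', (Xf t' s').card := by
    rw [← hRcard]
    refine le_trans ?_ hle
    rw [hLcard]
    simp only [← Finset.sum_mul]
    exact Nat.mul_le_mul_left _ (choose_le_T6 n N)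
  exact_mod_cast h3

end Pool.Agent.Helper67.GR
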