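import Pool.Agent.Helper67.GR.St6

/-! # GR project: subsets of fixed size compared with the Bernoulli field -/

set_option autoImplicit false

namespace Pool.Agent.Helper67.GR

open Finset MeasureTheory

/-- the comparison of the weights of one trace -/
theorem weight_T7 {Ca cb : ℝ} (hCa : 0 < Ca) (hcb : 0 < cb)
    (ha : ∀ (M j : ℕ) (p : ℝ), 0 < p → p ≤ 1 / 4 → 1 ≤ M →
      (M.choose j : ℝ) * p ^ j * (1 - p) ^ (M - j) ≤ Ca / Real.sqrt (M * p))
    (hb : ∀ (M m : ℕ), 1 ≤ m → 4 * m ≤ M → cb / Real.sqrt m ≤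
      (M.choose m : ℝ) * ((m : ℝ) / M) ^ m * (1 - (m : ℝ) / M) ^ (M - m))
    {s w M m j : ℕ} {η : ℝ} (hs : s = w + M) (hm : 1 ≤ m) (h4 : 4 * m ≤ s) (hη : 0 < η)
    (hM : η * s ≤ M) (hj : j ≤ m) (hjw : j ≤ w) :
    (M.choose (m - j) : ℝ) ≤ Ca / cb / Real.sqrt η *
      (s.choose m : ℝ) * (((m : ℝ) / s) ^ j * (1 - (m : ℝ) / s) ^ (w - j)) := by
  have hs0 : (0 : ℝ) < s := by
    have : 0 < s := by omega
    exact_mod_cast this
  have hm0 : (0 : ℝ) < m := by exact_mod_cast hm
  have h4' : 4 * (m : ℝ) ≤ s := by exact_mod_cast h4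
  set p : ℝ := (m : ℝ) / s with hp
  have hp0 : 0 < p := div_pos hm0 hs0
  have hp4 : p ≤ 1 / 4 := by
    rw [hp, div_le_div_iff₀ hs0 (by norm_num)]; linarith
  have hq0 : 0 < 1 - p := by linarith
  have hM0 : (0 : ℝ) < M := lt_of_lt_of_le (mul_pos hη hs0) hM
  have hM1 : 1 ≤ M := by exact_mod_cast hM0
  by_cases hMj : M < m - j
  · rw [Nat.choose_eq_zero_of_lt hMj, Nat.cast_zero]
    have := Real.sqrt_nonneg η
    positivity
  push Not at hMj
  have h1 := ha M (m - j) p hp0 hp4 hM1
  have h2 := hb s m hm h4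
  rw [← hp] at h2
  have hmp : η * m ≤ M * p := by
    have : η * m = η * s * p := by rw [hp]; field_simp
    rw [this]
    exact mul_le_mul_of_nonneg_right hM hp0.le
  have hηm : 0 < η * m := mul_pos hη hm0
  have h3 : Ca / Real.sqrt (M * p) ≤ Ca / (Real.sqrt η * Real.sqrt m) := by
    rw [← Real.sqrt_mul hη.le]
    exact div_le_div_of_nonneg_left hCa.le (Real.sqrt_pos.2 hηm) (Real.sqrt_le_sqrt hmp)
  have hsη : 0 < Real.sqrt η := Real.sqrt_pos.2 hη
  have hsm : 0 < Real.sqrt m := Real.sqrt_pos.2 hm0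
  have h5 : Ca / (Real.sqrt η * Real.sqrt m) = Ca / cb / Real.sqrt η * (cb / Real.sqrt m) := by
    field_simp
  have h6 : (M.choose (m - j) : ℝ) * p ^ (m - j) * (1 - p) ^ (M - (m - j)) ≤
      Ca / cb / Real.sqrt η * ((s.choose m : ℝ) * p ^ m * (1 - p) ^ (s - m)) := by
    refine h1.trans (h3.trans ?_)
    rw [h5]
    exact mul_le_mul_of_nonneg_left h2 (by positivity)
  have e1 : p ^ m = p ^ (m - j) * p ^ j := by rw [← pow_add, Nat.sub_add_cancel hj]
  have e2 : (1 - p) ^ (s - m) = (1 - p) ^ (M - (m - j)) * (1 - p) ^ (w - j) := by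
    rw [← pow_add]; congr 1; omega
  rw [e1, e2] at h6
  have hpos : 0 < p ^ (m - j) * (1 - p) ^ (M - (m - j)) := by positivity
  have h7 : (M.choose (m - j) : ℝ) * (p ^ (m - j) * (1 - p) ^ (M - (m - j))) ≤
      (Ca / cb / Real.sqrt η * (s.choose m : ℝ) * (p ^ j * (1 - p) ^ (w - j))) *
        (p ^ (m - j) * (1 - p) ^ (M - (m - j))) := by
    calc _ = (M.choose (m - j) : ℝ) * p ^ (m - j) * (1 - p) ^ (M - (m - j)) := by ring
      _ ≤ _ := h6
      _ = _ := by ring
  exact le_of_mul_le_mul_right h7 hpos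

/-- T7: subsets of fixed size compared with the Bernoulli field -/
theorem hT7 (ha : StT7a) (hb : StT7b) : StT7 := by
  classical
  obtain ⟨Ca, hCa, ha⟩ := ha
  obtain ⟨cb, hcb, hb⟩ := hb
  refine ⟨Ca / cb, div_pos hCa hcb, ?_⟩
  intro S W m A η hW hm h4 hη hM
  have hcard : Nat.card {X : Finset Pt // X ∈ powersetCard m S ∧ A (X ∩ W)} =
      ((powersetCard m S).filter (fun X => A (X ∩ W))).card := by
    rw [← Nat.card_eq_finsetCard]
    exact Nat.card_congr (Equiv.subtypeEquivRight fun X => by rw [mem_filter])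
  rw [hcard, Finset.card_eq_sum_card_fiberwise (f := fun X => X ∩ W) (t := W.powerset)
    (fun X _ => by
      rw [Finset.mem_coe, mem_powerset]; exact inter_subset_right), prob, bern, mul_sum]
  push_cast
  refine sum_le_sum fun Y hY => ?_
  rw [mem_powerset] at hY
  rw [prod_const, prod_const, card_sdiff_of_subset hY]
  by_cases hAY : A Y ∧ Y.card ≤ m
  · obtain ⟨hAY, hYm⟩ := hAY
    rw [ind, if_pos hAY, mul_one]
    have h1 : ((((powersetCard m S).filter (fun X => A (X ∩ W))).filter
        (fun X => X ∩ W = Y)).card : ℝ) ≤ ((S \ W).card.choose (m - Y.card) : ℝ) := by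
      rw [← card_powersetCard]
      exact_mod_cast Finset.card_le_card_of_injOn (fun X => X \ W)
        (by
          intro X hX
          rw [Finset.mem_coe, mem_filter, mem_filter, mem_powersetCard] at hX
          obtain ⟨⟨⟨hXS, hXm⟩, _⟩, hXY⟩ := hX
          rw [Finset.mem_coe, mem_powersetCard]
          refine ⟨sdiff_subset_sdiff hXS le_rfl, ?_⟩
          have := card_sdiff_add_card_inter X W
          rw [hXY] at this
          show (X \ W).card = m - Y.card
          omega)
        (by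
          intro X hX X' hX' h
          rw [Finset.mem_coe, mem_filter] at hX hX'
          have h' : X \ W = X' \ W := h
          rw [← sdiff_union_inter X W, ← sdiff_union_inter X' W, h', hX.2, hX'.2])
    refine h1.trans ?_
    have hsw : S.card = W.card + (S \ W).card := by
      rw [card_sdiff_of_subset hW]
      have := card_le_card hW
      omega
    exact weight_T7 hCa hcb ha hb hsw hm h4 hη hM hYm (card_le_card hY)
  · have h0 : ((powersetCard m S).filter (fun X => A (X ∩ W))).filter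
        (fun X => X ∩ W = Y) = ∅ := by
      rw [filter_eq_empty_iff]
      intro X hX hXY
      rw [mem_filter, mem_powersetCard] at hX
      apply hAY
      refine ⟨hXY ▸ hX.2, ?_⟩
      rw [← hXY, ← hX.1.2]
      exact card_le_card inter_subset_left
    rw [h0, card_empty, Nat.cast_zero]
    have hs0 : (0 : ℝ) < S.card := by
      have : 0 < S.card := by omega
      exact_mod_cast this
    have h4' : 4 * (m : ℝ) ≤ S.card := by exact_mod_cast h4
    have hp1 : (m : ℝ) / S.card ≤ 1 := by
      rw [div_le_one hs0]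
      have : (0 : ℝ) ≤ m := by positivity
      linarith
    have hq : 0 ≤ 1 - (m : ℝ) / S.card := by linarith
    have hi : 0 ≤ ind (A Y) := by rw [ind]; split_ifs <;> norm_num
    positivity

end Pool.Agent.Helper67.GR
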