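import Pool.Agent.Helper67.GR.St6

/-!
# GR: module T7a
-/

set_option autoImplicit false

namespace Pool.Agent.Helper67.GR

open Finset

/-- the binomial probabilities -/
noncomputable def bin_T7a (M : ℕ) (p : ℝ) (j : ℕ) : ℝ :=
  (M.choose j : ℝ) * p ^ j * (1 - p) ^ (M - j)

theorem bin_nonneg_T7a (M : ℕ) {p : ℝ} (h0 : 0 ≤ p) (h1 : p ≤ 1) (j : ℕ) : 0 ≤ bin_T7a M p j := by
  unfold bin_T7a
  have : 0 ≤ 1 - p := by linarith
  positivity

theorem bin_rec_T7a (M : ℕ) (p : ℝ) (j : ℕ) :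
    bin_T7a M p (j + 1) * ((j + 1 : ℝ) * (1 - p)) = bin_T7a M p j * (((M : ℝ) - j) * p) := by
  unfold bin_T7a
  rcases lt_or_ge j M with hj | hj
  · have h1 : (M.choose (j + 1) : ℝ) * (j + 1) = M.choose j * ((M : ℝ) - j) := by
      have := Nat.choose_succ_right_eq M j
      have h2 : ((M.choose (j + 1) * (j + 1) : ℕ) : ℝ) = ((M.choose j * (M - j) : ℕ) : ℝ) := by
        rw [this]
      push_cast [Nat.cast_sub hj.le] at h2
      exact h2
    have h3 : (1 - p) ^ (M - j) = (1 - p) ^ (M - (j + 1)) * (1 - p) := by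
      rw [← pow_succ]
      congr 1
      omega
    rw [h3, pow_succ]
    linear_combination (p ^ j * p * (1 - p) ^ (M - (j + 1)) * (1 - p)) * h1
  · rw [Nat.choose_eq_zero_of_lt (show M < j + 1 by omega)]
    rcases hj.eq_or_lt with h | h
    · subst h; simp
    · rw [Nat.choose_eq_zero_of_lt h]; simp

theorem bin_sum_T7a (M : ℕ) (p : ℝ) : ∑ j ∈ range (M + 1), bin_T7a M p j = 1 := by
  have h := add_pow p (1 - p) M
  rw [add_sub_cancel, one_pow] at h
  rw [h]
  refine Finset.sum_congr rfl fun j _ => ?_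
  unfold bin_T7a
  ring

theorem bin_eq_zero_T7a (M : ℕ) (p : ℝ) {j : ℕ} (h : M < j) : bin_T7a M p j = 0 := by
  unfold bin_T7a
  rw [Nat.choose_eq_zero_of_lt h]; simp

theorem bin_max_T7a (M : ℕ) {p : ℝ} (h0 : 0 < p) (h1 : p < 1) :
    ∃ j₀ ≤ M, 0 < bin_T7a M p j₀ ∧ ∀ j, bin_T7a M p j ≤ bin_T7a M p j₀ := by
  obtain ⟨j₀, hj₀, hmax⟩ := Finset.exists_max_image (range (M + 1)) (bin_T7a M p)
    ⟨0, Finset.mem_range.2 (Nat.succ_pos M)⟩
  have hle : j₀ ≤ M := Nat.lt_succ_iff.1 (Finset.mem_range.1 hj₀)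
  have hpos : 0 < bin_T7a M p j₀ := by
    unfold bin_T7a
    have : 0 < 1 - p := by linarith
    have h2 : (0 : ℝ) < M.choose j₀ := by exact_mod_cast Nat.choose_pos hle
    positivity
  refine ⟨j₀, hle, hpos, fun j => ?_⟩
  rcases lt_or_ge M j with h | h
  · rw [bin_eq_zero_T7a M p h]; exact hpos.le
  · exact hmax j (Finset.mem_range.2 (Nat.lt_succ_iff.2 h))

theorem bin_low_T7a (M : ℕ) {p : ℝ} (h0 : 0 < p) (h1 : p ≤ 1 / 4) {j₀ : ℕ}
    (hpos : 0 < bin_T7a M p j₀) (hmax : ∀ j, bin_T7a M p j ≤ bin_T7a M p j₀) :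
    ((M : ℝ) + 1) * p - 1 ≤ j₀ := by
  have h2 := bin_rec_T7a M p j₀
  have h3 : bin_T7a M p j₀ * (((M : ℝ) - j₀) * p) ≤ bin_T7a M p j₀ * ((j₀ + 1 : ℝ) * (1 - p)) := by
    rw [← h2]
    exact mul_le_mul_of_nonneg_right (hmax _)
      (mul_nonneg (by positivity) (by linarith))
  have h4 := le_of_mul_le_mul_left h3 hpos
  nlinarith

theorem bin_step_T7a (M : ℕ) {p : ℝ} (h0 : 0 < p) (h1 : p ≤ 1 / 4) {j₀ : ℕ} (hj₀ : j₀ ≤ M)
    (hlow : ((M : ℝ) + 1) * p - 1 ≤ j₀) (i : ℕ) (hi : i ≤ j₀) :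
    (1 - (i : ℝ) * (i + 1) / (((M : ℝ) + 1) * p)) * bin_T7a M p j₀ ≤ bin_T7a M p (j₀ - i) := by
  set L := ((M : ℝ) + 1) * p with hL
  have hL0 : 0 < L := by positivity
  induction i with
  | zero => simp
  | succ i ih =>
    have ih' := ih (by omega)
    have hb0 : 0 ≤ bin_T7a M p j₀ := bin_nonneg_T7a M h0.le (by linarith) _
    by_cases hneg : 1 - 2 * ((i : ℝ) + 1) / L ≤ 0
    · have h2 : (1 - ((i + 1 : ℕ) : ℝ) * (((i + 1 : ℕ) : ℝ) + 1) / L) ≤ 0 := by
        refine le_trans ?_ hneg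
        have h3 : 2 * ((i : ℝ) + 1) / L ≤ ((i + 1 : ℕ) : ℝ) * (((i + 1 : ℕ) : ℝ) + 1) / L := by
          refine div_le_div_of_nonneg_right ?_ hL0.le
          push_cast
          have : (0 : ℝ) ≤ i := Nat.cast_nonneg i
          nlinarith
        linarith
      exact (mul_nonpos_of_nonpos_of_nonneg h2 hb0).trans
        (bin_nonneg_T7a M h0.le (by linarith) _)
    · push Not at hneg
      obtain ⟨j, hj⟩ : ∃ j, j₀ = j + (i + 1) := ⟨j₀ - (i + 1), by omega⟩
      have e1 : j₀ - (i + 1) = j := by omega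
      have e2 : j₀ - i = j + 1 := by omega
      rw [e1]
      rw [e2] at ih'
      have hrec := bin_rec_T7a M p j
      have hjr : (j₀ : ℝ) = j + (i + 1) := by rw [hj]; push_cast; ring
      have hMj : (0 : ℝ) < (M : ℝ) - j := by
        have : (j : ℝ) + 1 ≤ M := by
          have : j + 1 ≤ M := by omega
          exact_mod_cast this
        linarith
      have hcmp : (1 - 2 * ((i : ℝ) + 1) / L) * (((M : ℝ) - j) * p) ≤ (j + 1 : ℝ) * (1 - p) := by
        have ha : (0 : ℝ) ≤ (i : ℝ) + 1 := by positivity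
        have hjlow : L - 1 - i ≤ (j : ℝ) + 1 := by rw [hjr] at hlow; linarith
        have hup : ((M : ℝ) - j) * p ≤ L * (1 - p) + (i + 1) * p := by
          have : (M : ℝ) - j ≤ M + 1 - (L - 1 - i) := by linarith
          have h5 := mul_le_mul_of_nonneg_right this h0.le
          have h6 : ((M : ℝ) + 1 - (L - 1 - i)) * p = L - L * p + (1 + i) * p := by
            rw [hL]; ring
          rw [h6] at h5
          linarith
        have h7 := mul_le_mul_of_nonneg_left hup hneg.le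
        refine h7.trans ?_
        have h8 : (L - 1 - i) * (1 - p) ≤ (j + 1 : ℝ) * (1 - p) :=
          mul_le_mul_of_nonneg_right hjlow (by linarith)
        refine le_trans ?_ h8
        have h9 : (1 - 2 * ((i : ℝ) + 1) / L) * (L * (1 - p) + (i + 1) * p) =
            L * (1 - p) + (i + 1) * p - 2 * (i + 1) * (1 - p) - 2 * (i + 1) * (i + 1) * p / L := by
          field_simp
          ring
        rw [h9]
        have h10 : 0 ≤ 2 * ((i : ℝ) + 1) * (i + 1) * p / L := by positivity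
        nlinarith
      have hstep : (1 - 2 * ((i : ℝ) + 1) / L) * bin_T7a M p (j + 1) ≤ bin_T7a M p j := by
        have hD : 0 < ((M : ℝ) - j) * p := by positivity
        have hb1 : 0 ≤ bin_T7a M p (j + 1) := bin_nonneg_T7a M h0.le (by linarith) _
        have h11 := mul_le_mul_of_nonneg_left hcmp hb1
        rw [hrec] at h11
        have h12 : (1 - 2 * ((i : ℝ) + 1) / L) * bin_T7a M p (j + 1) * (((M : ℝ) - j) * p) ≤
            bin_T7a M p j * (((M : ℝ) - j) * p) := by
          refine le_trans (le_of_eq ?_) h11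
          ring
        exact le_of_mul_le_mul_right h12 hD
      refine le_trans ?_ hstep
      have h13 := mul_le_mul_of_nonneg_left ih' hneg.le
      refine le_trans ?_ h13
      rw [← mul_assoc]
      refine mul_le_mul_of_nonneg_right ?_ hb0
      push_cast
      have h14 : ((i : ℝ) + 1) * (i + 1 + 1) / L = i * (i + 1) / L + 2 * (i + 1) / L := by
        ring
      rw [h14]
      have h15 : 0 ≤ 2 * ((i : ℝ) + 1) / L * (i * (i + 1) / L) := by positivity
      nlinarith

theorem hT7a : StT7a := by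
  refine ⟨4, by norm_num, ?_⟩
  intro M j p h0 h1 hM
  obtain ⟨j₀, hj₀, hpos, hmax⟩ := bin_max_T7a M h0 (show p < 1 by linarith)
  have hlow := bin_low_T7a M h0 h1 hpos hmax
  have hMr : (1 : ℝ) ≤ M := by exact_mod_cast hM
  set L := ((M : ℝ) + 1) * p with hL
  have hMp : 0 < (M : ℝ) * p := by positivity
  have hLM : (M : ℝ) * p ≤ L := by rw [hL]; nlinarith
  have hL0 : 0 < L := by linarith
  have hs : 0 < Real.sqrt (M * p) := Real.sqrt_pos.2 hMp
  have hsL : Real.sqrt (M * p) ≤ Real.sqrt L := Real.sqrt_le_sqrt hLM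
  refine (hmax j).trans ?_
  rw [le_div_iff₀ hs]
  rcases lt_or_ge L 4 with h4 | h4
  · have hb1 : bin_T7a M p j₀ ≤ 1 := by
      rw [← bin_sum_T7a M p]
      exact Finset.single_le_sum (f := bin_T7a M p)
        (fun i _ => bin_nonneg_T7a M h0.le (by linarith) i)
        (Finset.mem_range.2 (Nat.lt_succ_iff.2 hj₀))
    have h5 : Real.sqrt L ≤ 2 := by
      rw [show (2 : ℝ) = Real.sqrt 4 by rw [show (4 : ℝ) = 2 ^ 2 by norm_num]; simp]
      exact Real.sqrt_le_sqrt h4.le
    nlinarith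
  · set s := Real.sqrt L with hsdef
    have hss : s * s = L := Real.mul_self_sqrt hL0.le
    have hs2 : 2 ≤ s := by
      rw [show (2 : ℝ) = Real.sqrt 4 by rw [show (4 : ℝ) = 2 ^ 2 by norm_num]; simp]
      exact Real.sqrt_le_sqrt h4
    set k := ⌊s / 2⌋₊ with hk
    have hk1 : (k : ℝ) ≤ s / 2 := Nat.floor_le (by positivity)
    have hk2 : s / 2 < (k : ℝ) + 1 := Nat.lt_floor_add_one _
    have hkk : (k : ℝ) * (k + 1) ≤ L / 2 := by
      have hk0 : (0 : ℝ) ≤ k := Nat.cast_nonneg k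
      nlinarith
    have hkj : k ≤ j₀ := by
      have : (k : ℝ) ≤ j₀ := by nlinarith
      exact_mod_cast this
    have hhalf : ∀ i ∈ range (k + 1), bin_T7a M p j₀ / 2 ≤ bin_T7a M p (j₀ - i) := by
      intro i hi
      have hik : i ≤ k := Nat.lt_succ_iff.1 (Finset.mem_range.1 hi)
      have h6 := bin_step_T7a M h0 h1 hj₀ hlow i (hik.trans hkj)
      refine le_trans ?_ h6
      have h7 : (i : ℝ) * (i + 1) / (((M : ℝ) + 1) * p) ≤ 1 / 2 := by
        rw [← hL, div_le_iff₀ hL0]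
        have h8 : (i : ℝ) ≤ k := by exact_mod_cast hik
        have h9 : (0 : ℝ) ≤ i := Nat.cast_nonneg i
        nlinarith
      nlinarith
    have hsum : ∑ i ∈ range (k + 1), bin_T7a M p (j₀ - i) ≤ 1 := by
      rw [← bin_sum_T7a M p]
      have hinj : Set.InjOn (fun i => j₀ - i) (range (k + 1) : Finset ℕ) := by
        intro a ha b hb hab
        simp only [Finset.coe_range, Set.mem_Iio] at ha hb
        simp only at hab
        omega
      rw [← Finset.sum_image (f := bin_T7a M p) hinj]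
      refine Finset.sum_le_sum_of_subset_of_nonneg ?_
        (fun i _ _ => bin_nonneg_T7a M h0.le (by linarith) i)
      intro x hx
      obtain ⟨i, -, rfl⟩ := Finset.mem_image.1 hx
      exact Finset.mem_range.2 (by omega)
    have h10 := Finset.card_nsmul_le_sum (range (k + 1)) (fun i => bin_T7a M p (j₀ - i)) _ hhalf
    rw [Finset.card_range, nsmul_eq_mul] at h10
    push_cast at h10
    nlinarith

end Pool.Agent.Helper67.GR
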