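import Pool.Agent.Helper67.GR.M_T7a

/-!
# GR: module T7b
-/

set_option autoImplicit false

namespace Pool.Agent.Helper67.GR

open Finset

theorem bin_var_T7b (M : ℕ) (p : ℝ) :
    ∑ j ∈ range (M + 1), ((M : ℝ) * p - j) ^ 2 * bin_T7a M p j = M * p * (1 - p) := by
  have h := congrArg (Polynomial.eval p) (bernsteinPolynomial.variance ℝ M)
  rw [Polynomial.eval_finsetSum] at h
  simp only [bernsteinPolynomial, Polynomial.eval_mul, Polynomial.eval_pow, Polynomial.eval_sub,
    Polynomial.eval_natCast, Polynomial.eval_X, Polynomial.eval_one, nsmul_eq_mul] at h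
  rw [← h]
  refine Finset.sum_congr rfl fun j _ => ?_
  unfold bin_T7a
  ring

theorem bin_up_T7b (M m : ℕ) (hm : 1 ≤ m) (hM : 4 * m ≤ M) (j : ℕ) (hj : m ≤ j) :
    bin_T7a M ((m : ℝ) / M) (j + 1) ≤ bin_T7a M ((m : ℝ) / M) j := by
  set p : ℝ := (m : ℝ) / M with hp
  have hM0 : (0 : ℝ) < M := by
    have : 0 < M := by omega
    exact_mod_cast this
  have hm0 : (1 : ℝ) ≤ m := by exact_mod_cast hm
  have hmM : 4 * (m : ℝ) ≤ M := by exact_mod_cast hM
  have hp0 : 0 < p := by positivity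
  have hp1 : p ≤ 1 / 4 := by
    rw [hp, div_le_div_iff₀ hM0 (by norm_num)]
    linarith
  have hMp : (M : ℝ) * p = m := by rw [hp]; field_simp
  have hrec := bin_rec_T7a M p j
  have hb : 0 ≤ bin_T7a M p j := bin_nonneg_T7a M hp0.le (by linarith) _
  have hD : 0 < (j + 1 : ℝ) * (1 - p) := by
    have : 0 < 1 - p := by linarith
    positivity
  refine le_of_mul_le_mul_right ?_ hD
  rw [hrec]
  refine mul_le_mul_of_nonneg_left ?_ hb
  have hjm : (m : ℝ) ≤ j := by exact_mod_cast hj
  nlinarith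

theorem bin_down_T7b (M m : ℕ) (hm : 1 ≤ m) (hM : 4 * m ≤ M) (j : ℕ) (hj : j + 1 ≤ m) :
    bin_T7a M ((m : ℝ) / M) j ≤ bin_T7a M ((m : ℝ) / M) (j + 1) := by
  set p : ℝ := (m : ℝ) / M with hp
  have hM0 : (0 : ℝ) < M := by
    have : 0 < M := by omega
    exact_mod_cast this
  have hm0 : (1 : ℝ) ≤ m := by exact_mod_cast hm
  have hmM : 4 * (m : ℝ) ≤ M := by exact_mod_cast hM
  have hp0 : 0 < p := by positivity
  have hp1 : p ≤ 1 / 4 := by
    rw [hp, div_le_div_iff₀ hM0 (by norm_num)]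
    linarith
  have hMp : (M : ℝ) * p = m := by rw [hp]; field_simp
  have hrec := bin_rec_T7a M p j
  have hb : 0 ≤ bin_T7a M p (j + 1) := bin_nonneg_T7a M hp0.le (by linarith) _
  have hjm : (j : ℝ) + 1 ≤ m := by exact_mod_cast hj
  have hD : 0 < ((M : ℝ) - j) * p := by
    have : 0 < (M : ℝ) - j := by linarith
    positivity
  refine le_of_mul_le_mul_right ?_ hD
  rw [← hrec]
  refine mul_le_mul_of_nonneg_left ?_ hb
  nlinarith

theorem bin_mode_T7b (M m : ℕ) (hm : 1 ≤ m) (hM : 4 * m ≤ M) (j : ℕ) :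
    bin_T7a M ((m : ℝ) / M) j ≤ bin_T7a M ((m : ℝ) / M) m := by
  rcases le_total m j with h | h
  · induction j, h using Nat.le_induction with
    | base => exact le_rfl
    | succ j hj ih => exact (bin_up_T7b M m hm hM j hj).trans ih
  · have key : ∀ i ≤ m, bin_T7a M ((m : ℝ) / M) (m - i) ≤ bin_T7a M ((m : ℝ) / M) m := by
      intro i
      induction i with
      | zero => intro _; exact le_rfl
      | succ i ih =>
        intro hi
        have h1 := bin_down_T7b M m hm hM (m - (i + 1)) (by omega)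
        rw [show m - (i + 1) + 1 = m - i by omega] at h1
        exact h1.trans (ih (by omega))
    have := key (m - j) (by omega)
    rwa [show m - (m - j) = j by omega] at this

theorem hT7b : StT7b := by
  refine ⟨1 / 12, by norm_num, ?_⟩
  intro M m hm hM
  change 1 / 12 / Real.sqrt m ≤ bin_T7a M ((m : ℝ) / M) m
  have hmode := bin_mode_T7b M m hm hM
  set p : ℝ := (m : ℝ) / M with hp
  have hM0 : (0 : ℝ) < M := by
    have : 0 < M := by omega
    exact_mod_cast this
  have hm0 : (1 : ℝ) ≤ m := by exact_mod_cast hm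
  have hmM : 4 * (m : ℝ) ≤ M := by exact_mod_cast hM
  have hp0 : 0 < p := by positivity
  have hp1 : p ≤ 1 / 4 := by
    rw [hp, div_le_div_iff₀ hM0 (by norm_num)]
    linarith
  have hMp : (M : ℝ) * p = m := by rw [hp]; field_simp
  have hvar := bin_var_T7b M p
  rw [hMp] at hvar
  set b := bin_T7a M p with hb
  have hb0 : ∀ j, 0 ≤ b j := fun j => bin_nonneg_T7a M hp0.le (by linarith) j
  set s := Real.sqrt m with hs
  have hss : s * s = m := Real.mul_self_sqrt (by linarith)
  have hs1 : 1 ≤ s := by rw [hs]; exact Real.one_le_sqrt.2 hm0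
  -- the radius
  set K := ⌈3 / 2 * s⌉₊ with hK
  have hK1 : 3 / 2 * s ≤ K := Nat.le_ceil _
  have hK2 : (K : ℝ) < 3 / 2 * s + 1 := Nat.ceil_lt_add_one (by positivity)
  have hKpos : (0 : ℝ) < K := by linarith
  have hKK : 2 * (m : ℝ) ≤ (K : ℝ) ^ 2 := by nlinarith
  have hpt : ∀ j ∈ range (M + 1), b j ≤ (if j ∈ Icc (m - K) (m + K) then b m else 0) +
      ((m : ℝ) - j) ^ 2 * b j / (K : ℝ) ^ 2 := by
    intro j _
    split_ifs with hj
    · have : 0 ≤ ((m : ℝ) - j) ^ 2 * b j / (K : ℝ) ^ 2 :=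
        div_nonneg (mul_nonneg (sq_nonneg _) (hb0 j)) (sq_nonneg _)
      linarith [hmode j]
    · rw [zero_add, le_div_iff₀ (by positivity), mul_comm]
      refine mul_le_mul_of_nonneg_right ?_ (hb0 j)
      rw [Finset.mem_Icc, not_and_or] at hj
      rcases hj with h | h
      · have h1 : j + K < m := by omega
        have h2 : (j : ℝ) + K < m := by exact_mod_cast h1
        have h3 : (K : ℝ) ≤ m - j := by linarith
        exact pow_le_pow_left₀ hKpos.le h3 2
      · have h1 : m + K < j := by omega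
        have h2 : (m : ℝ) + K < j := by exact_mod_cast h1
        have h3 : (K : ℝ) ≤ j - m := by linarith
        calc (K : ℝ) ^ 2 ≤ ((j : ℝ) - m) ^ 2 := pow_le_pow_left₀ hKpos.le h3 2
          _ = ((m : ℝ) - j) ^ 2 := by ring
  have hsum := Finset.sum_le_sum hpt
  rw [bin_sum_T7a, Finset.sum_add_distrib, ← Finset.sum_div, hvar] at hsum
  have hcard : ∑ j ∈ range (M + 1), (if j ∈ Icc (m - K) (m + K) then b m else 0) ≤
      (2 * (K : ℝ) + 1) * b m := by
    rw [← Finset.sum_filter, Finset.sum_const, nsmul_eq_mul]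
    refine mul_le_mul_of_nonneg_right ?_ (hb0 m)
    have h1 : (filter (fun j => j ∈ Icc (m - K) (m + K)) (range (M + 1))).card ≤ 2 * K + 1 := by
      refine (Finset.card_le_card (t := Icc (m - K) (m + K)) ?_).trans ?_
      · intro j hj
        exact (Finset.mem_filter.1 hj).2
      · rw [Nat.card_Icc]
        omega
    exact_mod_cast h1
  have hv : (m : ℝ) * (1 - p) / (K : ℝ) ^ 2 ≤ 1 / 2 := by
    rw [div_le_div_iff₀ (by positivity) (by norm_num)]
    nlinarith
  have h2 : 1 / 2 ≤ (2 * (K : ℝ) + 1) * b m := by linarith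
  rw [div_le_iff₀ (by positivity)]
  have h3 : 2 * (K : ℝ) + 1 ≤ 6 * s := by linarith
  have h4 := mul_le_mul_of_nonneg_right h3 (hb0 m)
  linarith

end Pool.Agent.Helper67.GR
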