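import Pool.Agent.Helper67.GR.St6

/-! # GR project, module T8: the grid -/

set_option autoImplicit false

namespace Pool.Agent.Helper67.GR

open Finset

theorem colCard_T8 {N : ℕ} (hN : 0 < N) (hodd : N % 2 = 1) {a b : ℝ} (ha : -(1/2) ≤ a)
    (hab : a ≤ b) (hb : b ≤ 1/2) :
    (((gXs N).filter (fun x => a ≤ x ∧ x < b)).card : ℝ) = (⌈(N : ℝ) * b⌉ : ℝ) - ⌈(N : ℝ) * a⌉ := by
  have hNR : (0 : ℝ) < N := by exact_mod_cast hN
  have h1 : (gXs N).filter (fun x => a ≤ x ∧ x < b) =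
      (Finset.Ico ⌈(N : ℝ) * a⌉ ⌈(N : ℝ) * b⌉).image (fun k : ℤ => (k : ℝ) / N) := by
    ext x
    simp only [gXs, mem_filter, mem_image, Finset.mem_Icc, Finset.mem_Ico]
    constructor
    · rintro ⟨⟨k, -, rfl⟩, h2, h3⟩
      refine ⟨k, ⟨?_, ?_⟩, rfl⟩
      · rw [Int.ceil_le]
        rw [le_div_iff₀ hNR] at h2
        linarith
      · rw [Int.lt_ceil]
        rw [div_lt_iff₀ hNR] at h3
        linarith
    · rintro ⟨k, ⟨h2, h3⟩, rfl⟩
      rw [Int.ceil_le] at h2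
      rw [Int.lt_ceil] at h3
      have e1 : (N : ℤ) = 2 * ((N : ℤ) / 2) + 1 := by omega
      have e2 : (N : ℝ) = 2 * (((N : ℤ) / 2 : ℤ) : ℝ) + 1 := by exact_mod_cast e1
      refine ⟨⟨k, ⟨?_, ?_⟩, rfl⟩, ?_, ?_⟩
      · have h4 : (N : ℝ) * (-(1/2)) ≤ N * a := mul_le_mul_of_nonneg_left ha hNR.le
        have h5 : -(((N : ℤ) / 2 : ℤ) : ℝ) - 1 < (k : ℝ) := by linarith
        have h6 : -((N : ℤ) / 2) - 1 < k := by exact_mod_cast h5
        omega
      · have h4 : (N : ℝ) * b ≤ N * (1/2) := mul_le_mul_of_nonneg_left hb hNR.le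
        have h5 : (k : ℝ) < (((N : ℤ) / 2 : ℤ) : ℝ) + 1 := by linarith
        have h6 : k < ((N : ℤ) / 2) + 1 := by exact_mod_cast h5
        omega
      · rw [le_div_iff₀ hNR]
        linarith
      · rw [div_lt_iff₀ hNR]
        linarith
  rw [h1, card_image_of_injective, Int.card_Ico]
  · have h2 : ⌈(N : ℝ) * a⌉ ≤ ⌈(N : ℝ) * b⌉ :=
      Int.ceil_le_ceil (mul_le_mul_of_nonneg_left hab hNR.le)
    have h3 : (((⌈(N : ℝ) * b⌉ - ⌈(N : ℝ) * a⌉).toNat : ℤ) : ℝ) =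
        ((⌈(N : ℝ) * b⌉ - ⌈(N : ℝ) * a⌉ : ℤ) : ℝ) := by
      rw [Int.toNat_of_nonneg (by omega)]
    rw [← Int.cast_sub, ← h3]
    norm_cast
  · intro x y hxy
    have : (x : ℝ) = y := by
      field_simp at hxy
      exact hxy
    exact_mod_cast this

theorem rowCard_T8 {N : ℕ} {h θ : ℝ} (hh : 0 < h) (h0 : 0 ≤ θ) (hθ : θ ≤ N * h) :
    (((gTs N h).filter (fun t => t ≤ θ)).card : ℝ) = (⌊θ / h⌋₊ : ℝ) := by
  have h1 : (gTs N h).filter (fun t => t ≤ θ) =
      (range ⌊θ / h⌋₊).image (fun j : ℕ => ((j : ℝ) + 1) * h) := by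
    ext x
    simp only [gTs, mem_filter, mem_image, mem_range]
    constructor
    · rintro ⟨⟨j, -, rfl⟩, h2⟩
      refine ⟨j, ?_, rfl⟩
      have h3 : ((j + 1 : ℕ) : ℝ) ≤ θ / h := by
        rw [le_div_iff₀ hh]; push_cast; exact h2
      have h4 : j + 1 ≤ ⌊θ / h⌋₊ := Nat.le_floor h3
      omega
    · rintro ⟨j, hj, rfl⟩
      have h4 : j + 1 ≤ ⌊θ / h⌋₊ := hj
      have h3 : ((j + 1 : ℕ) : ℝ) ≤ θ / h :=
        (Nat.le_floor_iff (div_nonneg h0 hh.le)).1 h4
      rw [le_div_iff₀ hh] at h3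
      push_cast at h3
      refine ⟨⟨j, ?_, rfl⟩, h3⟩
      have h5 : ((j : ℝ) + 1) * h ≤ N * h := h3.trans hθ
      have h6 : (j : ℝ) + 1 ≤ N := le_of_mul_le_mul_right h5 hh
      exact_mod_cast h6
  rw [h1, card_image_of_injective, card_range]
  intro x y hxy
  have h2 : ((x : ℝ) + 1) = (y : ℝ) + 1 := mul_right_cancel₀ hh.ne' hxy
  have h3 : (x : ℝ) = y := by linarith
  exact_mod_cast h3

theorem hT8 : StT8 := by
  intro n hn
  refine ⟨10 * n ^ 5, fun N hN hodd => ?_⟩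
  have hn1 : 1 ≤ n := by omega
  have hn5 : n ≤ n ^ 5 := Nat.le_self_pow (by norm_num) n
  have hNn : 10 * n ≤ N := by omega
  have hN0 : 0 < N := by omega
  have hN2 : 2 ≤ N * N := by nlinarith
  have hNR : (0 : ℝ) < N := by exact_mod_cast hN0
  have hnR : (10 : ℝ) ≤ n := by exact_mod_cast hn
  have hNnR : 10 * (n : ℝ) ≤ N := by exact_mod_cast hNn
  have hN5R : 10 * (n : ℝ) ^ 5 ≤ N := by exact_mod_cast hN
  have e1 : ((n - 2 : ℕ) : ℝ) = n - 2 := by push_cast [Nat.cast_sub (by omega : 2 ≤ n)]; ring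
  have e2 : ((N * N - 2 : ℕ) : ℝ) = (N : ℝ) * N - 2 := by
    rw [Nat.cast_sub hN2]; push_cast; ring
  set p : ℝ := ((n - 2 : ℕ) : ℝ) / ((N * N - 2 : ℕ) : ℝ) with hp
  have hden : (0 : ℝ) < (N : ℝ) * N - 2 := by nlinarith
  have hp0 : 0 < p := by
    rw [hp, e1, e2]
    exact div_pos (by linarith) hden
  have hpeq : p * ((N : ℝ) * N - 2) = n - 2 := by
    rw [hp, e1, e2]
    exact div_mul_cancel₀ _ hden.ne'
  set m : ℝ := p * (N * N) with hm
  have hm1 : (n : ℝ) - 2 ≤ m := by rw [hm]; nlinarith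
  have hp4' : p ≤ 1 / 100 := by
    by_contra hcon
    push Not at hcon
    have h1 : (1 / 100 : ℝ) * ((N : ℝ) * N - 2) < p * ((N : ℝ) * N - 2) :=
      mul_lt_mul_of_pos_right hcon hden
    rw [hpeq] at h1
    have h2 : 10 * (n : ℝ) * (10 * n) ≤ (N : ℝ) * N :=
      mul_le_mul hNnR hNnR (by positivity) hNR.le
    nlinarith
  have hm2 : m ≤ n := by
    have : m = n - 2 + 2 * p := by rw [hm]; linarith
    rw [this]; linarith
  have hm0 : 0 < m := by linarith
  have hh : m / N = p * N := by rw [hm]; field_simp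
  have hh0 : 0 < p * N := mul_pos hp0 hNR
  have hκ : 3 * (p * N) * (n : ℝ) ^ 4 ≤ 1 := by
    have h1 : p * N * N ≤ n := by
      have : p * N * N = m := by rw [hm]; ring
      rw [this]; exact hm2
    have h2 : p * N * (10 * (n : ℝ) ^ 5) ≤ n :=
      (mul_le_mul_of_nonneg_left hN5R hh0.le).trans h1
    have h3 : (n : ℝ) * (10 * (p * N) * (n : ℝ) ^ 4) ≤ (n : ℝ) * 1 := by
      have h30 : (n : ℝ) * (10 * (p * N) * (n : ℝ) ^ 4) = p * N * (10 * (n : ℝ) ^ 5) := by ring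
      rw [h30, mul_one]
      exact h2
    have h4 : 10 * (p * N) * (n : ℝ) ^ 4 ≤ 1 := le_of_mul_le_mul_left h3 (by linarith)
    have h5 : 0 ≤ (p * N) * (n : ℝ) ^ 4 := by positivity
    nlinarith
  have hn4 : (1 : ℝ) ≤ (n : ℝ) ^ 4 := one_le_pow₀ (by linarith)
  refine ⟨{ n := m, Xs := gXs N, Ts := gTs N (m / N), p := p, κ := 3 * (p * N),
            n_one := by linarith, p_pos := hp0, p_le := by linarith, κ_pos := by positivity,
            κ_le := ?_, Xs_mem := ?_, Xs_sym := ?_, Ts_mem := ?_, dens := ?_ },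
    rfl, rfl, rfl, hm1, hm2, ?_⟩
  · nlinarith
  · intro x hx
    simp only [gXs, mem_image, Finset.mem_Icc] at hx
    obtain ⟨k, ⟨h1, h2⟩, rfl⟩ := hx
    have h3 : -((N : ℤ)) < 2 * k := by omega
    have h4 : 2 * k < (N : ℤ) := by omega
    have h3' : -((N : ℝ)) < 2 * k := by exact_mod_cast h3
    have h4' : 2 * (k : ℝ) < N := by exact_mod_cast h4
    constructor
    · rw [lt_div_iff₀ hNR]; linarith
    · rw [div_lt_iff₀ hNR]; linarith
  · intro x hx
    simp only [gXs, mem_image, Finset.mem_Icc] at hx ⊢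
    obtain ⟨k, ⟨h1, h2⟩, rfl⟩ := hx
    exact ⟨-k, ⟨by omega, by omega⟩, by push_cast; ring⟩
  · intro t ht
    simp only [gTs, mem_image, mem_range] at ht
    obtain ⟨j, hj, rfl⟩ := ht
    have hj' : (j : ℝ) + 1 ≤ N := by exact_mod_cast hj
    constructor
    · positivity
    · calc ((j : ℝ) + 1) * (m / N) ≤ N * (m / N) :=
            mul_le_mul_of_nonneg_right hj' (by positivity)
        _ = m := by field_simp
  · intro a b θ ha hab hb h0 hθ
    have hθ' : θ ≤ N * (m / N) := by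
      have : (N : ℝ) * (m / N) = m := by field_simp
      rw [this]; exact hθ
    rw [colCard_T8 hN0 hodd ha hab hb, rowCard_T8 (by positivity) h0 hθ', hh]
    set A : ℝ := (⌈(N : ℝ) * b⌉ : ℝ) - ⌈(N : ℝ) * a⌉ with hA
    set R : ℝ := (⌊θ / (p * N)⌋₊ : ℝ) with hR
    have hu0 : 0 ≤ θ / (p * N) := div_nonneg h0 hh0.le
    have huN : θ / (p * N) ≤ N := by
      rw [div_le_iff₀ hh0]
      have : (N : ℝ) * (p * N) = m := by rw [hm]; ring
      rw [this]; exact hθ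
    have hR1 : R ≤ θ / (p * N) := Nat.floor_le hu0
    have hR2 : θ / (p * N) - 1 ≤ R := by
      have := Nat.lt_floor_add_one (θ / (p * N))
      linarith
    have hR0 : 0 ≤ R := Nat.cast_nonneg _
    have hA1 : A ≤ N * (b - a) + 1 := by
      have h1 := Int.ceil_lt_add_one ((N : ℝ) * b)
      have h2 := Int.le_ceil ((N : ℝ) * a)
      rw [hA]; linarith
    have hA2 : N * (b - a) - 1 ≤ A := by
      have h1 := Int.ceil_lt_add_one ((N : ℝ) * a)
      have h2 := Int.le_ceil ((N : ℝ) * b)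
      rw [hA]; linarith
    have hd0 : 0 ≤ N * (b - a) := mul_nonneg hNR.le (by linarith)
    have hd1 : N * (b - a) ≤ N := by nlinarith
    have hkey : θ * (b - a) = p * ((N * (b - a)) * (θ / (p * N))) := by
      field_simp
    have hN1 : (1 : ℝ) ≤ N := by exact_mod_cast hN0
    rw [hkey]
    have hup : A * R - (N * (b - a)) * (θ / (p * N)) ≤ 3 * N := by
      have h1 : A * R ≤ (N * (b - a) + 1) * R := mul_le_mul_of_nonneg_right hA1 hR0
      have h2 : (N * (b - a) + 1) * R ≤ (N * (b - a) + 1) * (θ / (p * N)) :=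
        mul_le_mul_of_nonneg_left hR1 (by linarith)
      nlinarith
    have hlo : -(3 * N) ≤ A * R - (N * (b - a)) * (θ / (p * N)) := by
      have h1 : (N * (b - a) - 1) * R ≤ A * R := mul_le_mul_of_nonneg_right hA2 hR0
      have h2 : (N * (b - a)) * (θ / (p * N) - 1) ≤ (N * (b - a)) * R :=
        mul_le_mul_of_nonneg_left hR2 hd0
      nlinarith
    have h3 : p * A * R - p * ((N * (b - a)) * (θ / (p * N))) =
        p * (A * R - (N * (b - a)) * (θ / (p * N))) := by ring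
    rw [h3, abs_mul, abs_of_pos hp0]
    calc p * |A * R - (N * (b - a)) * (θ / (p * N))| ≤ p * (3 * N) :=
          mul_le_mul_of_nonneg_left (abs_le.2 ⟨hlo, hup⟩) hp0.le
      _ = 3 * (p * N) := by ring
  · have h1 : m ^ 4 ≤ (n : ℝ) ^ 4 := pow_le_pow_left₀ hm0.le hm2 4
    calc 3 * (p * N) * m ^ 4 ≤ 3 * (p * N) * (n : ℝ) ^ 4 :=
          mul_le_mul_of_nonneg_left h1 (by positivity)
      _ ≤ 1 := hκ

end Pool.Agent.Helper67.GR
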