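import Pool.Agent.Helper67.GR.St5

/-! # GR project: statements of wave 6 (transfer to i.i.d. uniform points) -/

namespace Pool.Agent.Helper67.GR

open Finset MeasureTheory

/-- neighbours in the sequentially grown `K`-nearest-neighbour graph of a distance function -/
def nbr {n : ℕ} (K : ℕ) (d : Fin n → Fin n → ℝ) (i j : Fin n) : Prop :=
  i ≠ j ∧ (univ.filter
    (fun k => k < max i j ∧ d (max i j) k < d (max i j) (min i j))).card < K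

/-- greedy move from `v` to `u` towards `t` -/
def gst {n : ℕ} (K : ℕ) (d : Fin n → Fin n → ℝ) (t v u : Fin n) : Prop :=
  nbr K d v u ∧ d t u < d t v ∧ ∀ w, nbr K d v w → d t u ≤ d t w

/-- every greedy walk from `v` reaches `t` within `m` moves -/
def suc {n : ℕ} (K : ℕ) (d : Fin n → Fin n → ℝ) (t : Fin n) : ℕ → Fin n → Prop
  | 0, v => v = t
  | m + 1, v => v = t ∨ ((∃ u, gst K d t v u) ∧ ∀ u, gst K d t v u → suc K d t m u)

/-- circular distance of two cells -/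
noncomputable def gd (N : ℕ) (i j : Fin N) : ℝ :=
  min |((i : ℕ) : ℝ) - ((j : ℕ) : ℝ)| (N - |((i : ℕ) : ℝ) - ((j : ℕ) : ℝ)|)

/-- two nearly equal distances -/
def NearTie {n N : ℕ} (k : Fin n → Fin N) : Prop :=
  ∃ a b c, b ≠ c ∧ |gd N (k a) (k b) - gd N (k a) (k c)| ≤ 2

/-- T1: the walk only depends on distance comparisons -/
def StT1 : Prop := ∀ (n K : ℕ) (d d' : Fin n → Fin n → ℝ) (t : Fin n),
  (∀ a b c, d a b < d a c ↔ d' a b < d' a c) → ∀ m v, suc K d t m v ↔ suc K d' t m v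

/-- the representative in `[0,1)` -/
noncomputable def rep (x : UnitAddCircle) : ℝ :=
  ((AddCircle.equivIco (1 : ℝ) 0 x : Set.Ico (0 : ℝ) (0 + 1)) : ℝ)

/-- the cell of a point of the circle -/
noncomputable def pixf (N : ℕ) (hN : 0 < N) (x : UnitAddCircle) : Fin N :=
  ⟨min (⌊(N : ℝ) * rep x⌋₊) (N - 1), by omega⟩

/-- T2: pushing forward to the cells -/
def StT2 : Prop := ∀ (n N : ℕ) (hN : 0 < N) (F : (Fin n → Fin N) → Prop),
  (volume {X : Fin n → UnitAddCircle | F (fun a => pixf N hN (X a))}).toReal =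
    (Nat.card {k : Fin n → Fin N // F k} : ℝ) / (N : ℝ) ^ n

/-- T3: comparisons are preserved away from near ties -/
def StT3 : Prop := ∀ (n N : ℕ) (hN : 0 < N) (X : Fin n → UnitAddCircle),
  ¬ NearTie (fun a => pixf N hN (X a)) → ∀ a b c,
  (dist (X a) (X b) < dist (X a) (X c) ↔
    gd N (pixf N hN (X a)) (pixf N hN (X b)) < gd N (pixf N hN (X a)) (pixf N hN (X c)))

/-- T4: near ties are rare -/
def StT4 : Prop := ∀ (n N : ℕ), 0 < N →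
  (Nat.card {k : Fin n → Fin N // NearTie k} : ℝ) ≤ 10 * (n : ℝ) ^ 3 * (N : ℝ) ^ n / N

/-- centred residue of `i - j` modulo `N` -/
def cres (N : ℕ) (i j : Fin N) : ℤ :=
  if (N : ℤ) < 2 * (((i : ℕ) : ℤ) - ((j : ℕ) : ℤ)) then
    ((i : ℕ) : ℤ) - ((j : ℕ) : ℤ) - N
  else if 2 * (((i : ℕ) : ℤ) - ((j : ℕ) : ℤ)) < -(N : ℤ) then
    ((i : ℕ) : ℤ) - ((j : ℕ) : ℤ) + N
  else ((i : ℕ) : ℤ) - ((j : ℕ) : ℤ)

/-- the point of vertex `a`: position relative to vertex `t`, label from the row `ρ a` -/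
noncomputable def ptf {n : ℕ} (N : ℕ) (h : ℝ) (k ρ : Fin n → Fin N) (t a : Fin n) : Pt :=
  ((cres N (k a) (k t) : ℝ) / N, (((ρ a : ℕ) : ℝ) + 1) * h)

/-- T5: a failing walk gives a bad greedy path in the point configuration -/
def StT5 : Prop := ∀ (n N K m : ℕ) (h : ℝ) (k ρ : Fin n → Fin N) (s t : Fin n),
  N % 2 = 1 → 0 < h → StrictMono ρ → ¬ NearTie k →
  ¬ suc K (fun a b => gd N (k a) (k b)) t m s →
  ∃ (v : ℕ → Pt) (m' : ℕ), IsPath K (univ.image (ptf N h k ρ t)) (ptf N h k ρ t s) v m' ∧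
    (m < m' ∨ (v m' ≠ ptf N h k ρ t t ∧ (v m').1 ≠ 0 ∧
      StuckAt K (univ.image (ptf N h k ρ t)) (v m')))

/-- columns of the grid, `N = 2 q + 1` -/
noncomputable def gXs (N : ℕ) : Finset ℝ :=
  (Finset.Icc (-((N : ℤ) / 2)) ((N : ℤ) / 2)).image (fun k : ℤ => (k : ℝ) / N)

/-- rows of the grid -/
noncomputable def gTs (N : ℕ) (h : ℝ) : Finset ℝ :=
  (range N).image (fun j : ℕ => ((j : ℝ) + 1) * h)

/-- T6: counting configurations by their point sets -/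
def StT6 : Prop := ∀ (n N : ℕ) (h : ℝ) (B : Finset Pt → Pt → Pt → Prop), 2 ≤ n →
  N % 2 = 1 → 0 < h →
  (∑ s : Fin n, ∑ t : Fin n, (Nat.card {k : Fin n → Fin N // s ≠ t ∧
    ∀ ρ : Fin n → Fin N, StrictMono ρ →
      B (univ.image (ptf N h k ρ t)) (ptf N h k ρ t s) (ptf N h k ρ t t)} : ℝ)) *
    (N.choose n : ℝ) ≤
  N * ∑ t' ∈ ({0} : Finset ℝ) ×ˢ gTs N h, ∑ s' ∈ (gXs N ×ˢ gTs N h).erase t',
    (Nat.card {X : Finset Pt // X ∈ powersetCard (n - 2) (((gXs N ×ˢ gTs N h).erase t').erase s') ∧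
      B (X ∪ {s', t'}) s' t'} : ℝ)

/-- T7a: upper bound for binomial probabilities -/
def StT7a : Prop := ∃ C : ℝ, 0 < C ∧ ∀ (M j : ℕ) (p : ℝ), 0 < p → p ≤ 1 / 4 → 1 ≤ M →
  (M.choose j : ℝ) * p ^ j * (1 - p) ^ (M - j) ≤ C / Real.sqrt (M * p)

/-- T7b: lower bound for the central binomial probability -/
def StT7b : Prop := ∃ c : ℝ, 0 < c ∧ ∀ (M m : ℕ), 1 ≤ m → 4 * m ≤ M →
  c / Real.sqrt m ≤
    (M.choose m : ℝ) * ((m : ℝ) / M) ^ m * (1 - (m : ℝ) / M) ^ (M - m)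

/-- T7: subsets of fixed size compared with the Bernoulli field -/
def StT7 : Prop := ∃ C : ℝ, 0 < C ∧ ∀ (S W : Finset Pt) (m : ℕ) (A : Finset Pt → Prop)
  (η : ℝ), W ⊆ S → 1 ≤ m → 4 * m ≤ S.card → 0 < η → η * S.card ≤ (S \ W).card →
  (Nat.card {X : Finset Pt // X ∈ powersetCard m S ∧ A (X ∩ W)} : ℝ) ≤
    C / Real.sqrt η * (S.card.choose m : ℝ) * prob (fun _ => (m : ℝ) / S.card) W A

/-- T8: the grid -/
def StT8 : Prop := ∀ n : ℕ, 10 ≤ n → ∃ N₀ : ℕ, ∀ N ≥ N₀, N % 2 = 1 → ∃ G : Grid,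
  G.Xs = gXs N ∧ G.Ts = gTs N (G.n / N) ∧ G.p = ((n - 2 : ℕ) : ℝ) / ((N * N - 2 : ℕ) : ℝ) ∧
  (n : ℝ) - 2 ≤ G.n ∧ G.n ≤ n ∧ G.κ * G.n ^ 4 ≤ 1

/-- T9: transfer to counting on the cells: for every target probability the fraction of bad
triples is small -/
def StT9 : Prop := ∀ ε₀ : ℝ, 0 < ε₀ → ∃ (K₀ : ℕ) (C : ℝ), 0 < C ∧ ∀ K ≥ K₀, ∃ n₀ : ℕ,
  ∀ n ≥ n₀, ∃ N₀ : ℕ, ∀ N ≥ N₀, N % 2 = 1 →
  (∑ s : Fin n, ∑ t : Fin n, (Nat.card {k : Fin n → Fin N // ¬ NearTie k ∧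
    ¬ suc K (fun a b => gd N (k a) (k b)) t ⌊C * Real.log n⌋₊ s} : ℝ)) ≤
    ε₀ * (n : ℝ) ^ 2 * (N : ℝ) ^ n

/-- T10: the result for the circle -/
def StT10 : Prop := ∀ ε₀ : ℝ, 0 < ε₀ → ∃ (K₀ : ℕ) (C : ℝ), 0 < C ∧ ∀ K ≥ K₀, ∃ n₀ : ℕ,
  ∀ n ≥ n₀,
  (∑ s : Fin n, ∑ t : Fin n, (volume {X : Fin n → UnitAddCircle |
    ¬ suc K (fun a b => dist (X a) (X b)) t ⌊C * Real.log n⌋₊ s}).toReal) ≤
    ε₀ * (n : ℝ) ^ 2

end Pool.Agent.Helper67.GR
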