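import Pool.Agent.Helper67.GR.M_T10
import Pool.Agent.Helper67.GR.St6
import Pool.Agent.Helper67.GR.M_T6

namespace Pool.Agent.Helper67.GR

open Finset MeasureTheory

/-- counting functions by a condition on two coordinates -/
theorem card_fix_T9 {n N : ℕ} (Q : Fin N → Fin N → Prop) {s t : Fin n} (hst : s ≠ t) {b : ℝ}
    (hb : ∀ j, (Nat.card {i : Fin N // Q i j} : ℝ) ≤ b) :
    (Nat.card {k : Fin n → Fin N // Q (k s) (k t)} : ℝ) * N ≤ b * (N : ℝ) ^ n := by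
  classical
  have h1 : Nat.card ({k : Fin n → Fin N // Q (k s) (k t)} × Fin N) ≤
      Nat.card ((k : Fin n → Fin N) × {i : Fin N // Q i (k t)}) := by
    refine Nat.card_le_card_of_injective
      (fun x => ⟨Function.update x.1.1 s x.2, ⟨x.1.1 s, by
        rw [Function.update_of_ne hst.symm]; exact x.1.2⟩⟩) ?_
    rintro ⟨⟨k, hk⟩, j⟩ ⟨⟨k', hk'⟩, j'⟩ h
    simp only [Sigma.mk.injEq] at h
    obtain ⟨h2, h3⟩ := h
    have h4 : j = j' := by
      have := congrFun h2 s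
      rwa [Function.update_self, Function.update_self] at this
    have h5 : k = k' := by
      funext a
      by_cases ha : a = s
      · subst ha
        have h6 : ∀ (κ κ' : Fin n → Fin N) (hκ : κ = κ') (x : {i : Fin N // Q i (κ t)})
            (y : {i : Fin N // Q i (κ' t)}), HEq x y → x.1 = y.1 := by
          intro κ κ' hκ x y hxy
          subst hκ
          rw [eq_of_heq hxy]
        exact h6 _ _ h2 _ _ h3
      · have := congrFun h2 a
        rwa [Function.update_of_ne ha, Function.update_of_ne ha] at this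
    subst h4; subst h5; rfl
  rw [Nat.card_prod, Nat.card_sigma, Nat.card_eq_fintype_card (α := Fin N), Fintype.card_fin] at h1
  have h2 : ((Nat.card {k : Fin n → Fin N // Q (k s) (k t)} * N : ℕ) : ℝ) ≤
      ((∑ k : Fin n → Fin N, Nat.card {i : Fin N // Q i (k t)} : ℕ) : ℝ) := by exact_mod_cast h1
  push_cast at h2
  refine h2.trans ?_
  calc (∑ k : Fin n → Fin N, (Nat.card {i : Fin N // Q i (k t)} : ℝ)) ≤
        ∑ _k : Fin n → Fin N, b := Finset.sum_le_sum fun k _ => hb (k t)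
    _ = b * (N : ℝ) ^ n := by
        rw [Finset.sum_const, Finset.card_univ, Fintype.card_fun, Fintype.card_fin,
          Fintype.card_fin, nsmul_eq_mul]
        push_cast; ring

theorem card_Icc_T9 {a b : ℝ} (h : a ≤ b + 1) :
    ((Finset.Icc ⌈a⌉ ⌊b⌋).card : ℝ) ≤ b - a + 1 := by
  rw [Int.card_Icc]
  have h1 := Int.floor_le b
  have h2 := Int.le_ceil a
  rcases le_total 0 (⌊b⌋ + 1 - ⌈a⌉) with h3 | h3
  · have h4 : (((⌊b⌋ + 1 - ⌈a⌉).toNat : ℕ) : ℝ) = ((⌊b⌋ + 1 - ⌈a⌉ : ℤ) : ℝ) := by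
      have h5 : (((⌊b⌋ + 1 - ⌈a⌉).toNat : ℕ) : ℤ) = ⌊b⌋ + 1 - ⌈a⌉ := Int.toNat_of_nonneg h3
      exact_mod_cast h5
    rw [h4]
    push_cast
    linarith
  · rw [Int.toNat_of_nonpos h3]
    push_cast
    linarith

/-- positions too close to the target or to its antipode -/
theorem bad_pos_T9 {N : ℕ} (hN : N % 2 = 1) {ε : ℝ} (hε : 0 < ε) (j : Fin N) :
    (Nat.card {i : Fin N // ¬ (ε ≤ |((cres N i j : ℤ) : ℝ) / N| ∧
      |((cres N i j : ℤ) : ℝ) / N| ≤ 1 / 2 - ε)} : ℝ) ≤ 4 * ε * N + 3 := by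
  classical
  have hN0 : 0 < N := by omega
  have hNr : (0 : ℝ) < N := by exact_mod_cast hN0
  set D : Finset ℤ := Finset.Icc ⌈-(ε * N)⌉ ⌊ε * (N : ℝ)⌋ ∪
    (Finset.Icc ⌈(1 / 2 - ε) * (N : ℝ)⌉ ⌊(N : ℝ) / 2⌋ ∪
      Finset.Icc ⌈-((N : ℝ) / 2)⌉ ⌊-((1 / 2 - ε) * (N : ℝ))⌋) with hD
  have h1 : Nat.card {i : Fin N // ¬ (ε ≤ |((cres N i j : ℤ) : ℝ) / N| ∧
      |((cres N i j : ℤ) : ℝ) / N| ≤ 1 / 2 - ε)} ≤ D.card := by
    rw [Nat.card_eq_fintype_card, Fintype.card_subtype]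
    refine Finset.card_le_card_of_injOn (fun i => cres N i j) ?_ ?_
    · intro i hi
      rw [Finset.mem_coe, Finset.mem_filter] at hi
      have hi := hi.2
      obtain ⟨h2, h3⟩ := cres_bd_T6 hN i j
      have h2' : -((N : ℝ) / 2) ≤ ((cres N i j : ℤ) : ℝ) := by
        have h4 : -(N : ℤ) ≤ 2 * cres N i j := by omega
        have h5 : -(N : ℝ) ≤ 2 * ((cres N i j : ℤ) : ℝ) := by exact_mod_cast h4
        linarith
      have h3' : ((cres N i j : ℤ) : ℝ) ≤ (N : ℝ) / 2 := by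
        have h4 : 2 * cres N i j ≤ (N : ℤ) := by omega
        have h5 : 2 * ((cres N i j : ℤ) : ℝ) ≤ (N : ℝ) := by exact_mod_cast h4
        linarith
      rw [abs_div, abs_of_pos hNr, le_div_iff₀ hNr, div_le_iff₀ hNr, not_and_or, not_le,
        not_le] at hi
      rw [Finset.mem_coe, hD, Finset.mem_union, Finset.mem_union, Finset.mem_Icc,
        Finset.mem_Icc, Finset.mem_Icc, Int.ceil_le, Int.le_floor, Int.ceil_le, Int.le_floor,
        Int.ceil_le, Int.le_floor]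
      rcases hi with hi | hi
      · left
        have h4 := abs_lt.1 hi
        exact ⟨h4.1.le, h4.2.le⟩
      · right
        rcases le_total 0 ((cres N i j : ℤ) : ℝ) with h4 | h4
        · rw [abs_of_nonneg h4] at hi
          exact Or.inl ⟨hi.le, h3'⟩
        · rw [abs_of_nonpos h4] at hi
          exact Or.inr ⟨h2', by linarith⟩
    · intro i _ i' _ h
      exact cres_inj_T6 h
  have h2 : (D.card : ℝ) ≤ ((ε * N - -(ε * N) + 1) + ((((N : ℝ) / 2 - (1 / 2 - ε) * N) + 1) +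
      ((-((1 / 2 - ε) * (N : ℝ)) - -((N : ℝ) / 2)) + 1))) := by
    have hεN : 0 < ε * N := by positivity
    have h3 := card_Icc_T9 (a := -(ε * N)) (b := ε * N) (by linarith)
    have h4 := card_Icc_T9 (a := (1 / 2 - ε) * (N : ℝ)) (b := (N : ℝ) / 2) (by nlinarith)
    have h5 := card_Icc_T9 (a := -((N : ℝ) / 2)) (b := -((1 / 2 - ε) * (N : ℝ))) (by nlinarith)
    have h6 : (D.card : ℝ) ≤ ((Finset.Icc ⌈-(ε * N)⌉ ⌊ε * (N : ℝ)⌋).card : ℝ) +
        (((Finset.Icc ⌈(1 / 2 - ε) * (N : ℝ)⌉ ⌊(N : ℝ) / 2⌋).card : ℝ) +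
        ((Finset.Icc ⌈-((N : ℝ) / 2)⌉ ⌊-((1 / 2 - ε) * (N : ℝ))⌋).card : ℝ)) := by
      have h7 := (Finset.card_union_le (Finset.Icc ⌈-(ε * N)⌉ ⌊ε * (N : ℝ)⌋)
        (Finset.Icc ⌈(1 / 2 - ε) * (N : ℝ)⌉ ⌊(N : ℝ) / 2⌋ ∪
          Finset.Icc ⌈-((N : ℝ) / 2)⌉ ⌊-((1 / 2 - ε) * (N : ℝ))⌋)).trans
        (Nat.add_le_add_left (Finset.card_union_le _ _) _)
      exact_mod_cast h7
    linarith
  have h3 : (Nat.card {i : Fin N // ¬ (ε ≤ |((cres N i j : ℤ) : ℝ) / N| ∧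
      |((cres N i j : ℤ) : ℝ) / N| ≤ 1 / 2 - ε)} : ℝ) ≤ D.card := by exact_mod_cast h1
  refine h3.trans (h2.trans (le_of_eq ?_))
  ring

/-- the inequality between binomial coefficients -/
theorem choose_T9 {n N : ℕ} (hn : 2 ≤ n) (hN : 2 * n ^ 2 ≤ N) :
    (N : ℝ) ^ 4 * (((N * N - 2).choose (n - 2) : ℕ) : ℝ) ≤
      4 * (n : ℝ) ^ 2 * (N : ℝ) ^ n * ((N.choose n : ℕ) : ℝ) := by
  obtain ⟨a, rfl⟩ : ∃ a, n = a + 2 := ⟨n - 2, by omega⟩
  have hN8 : 8 ≤ N := by nlinarith [Nat.zero_le a]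
  obtain ⟨M, hM⟩ : ∃ M, N * N = M + 2 := ⟨N * N - 2, by
    have : 2 ≤ N * N := by nlinarith
    omega⟩
  have e1 : N * N - 2 = M := by omega
  have e2 : a + 2 - 2 = a := by omega
  rw [e1, e2]
  have h1 : (M + 2) * ((M + 1) * M.choose a) = (M + 2).choose (a + 2) * ((a + 1) * (a + 2)) := by
    have h2 := Nat.add_one_mul_choose_eq M a
    have h3 := Nat.add_one_mul_choose_eq (M + 1) (a + 1)
    calc (M + 2) * ((M + 1) * M.choose a) = (M + 2) * ((M + 1).choose (a + 1) * (a + 1)) := by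
          rw [h2]
      _ = ((M + 1 + 1) * (M + 1).choose (a + 1)) * (a + 1) := by ring
      _ = ((M + 1 + 1).choose (a + 1 + 1) * (a + 1 + 1)) * (a + 1) := by rw [h3]
      _ = _ := by ring
  have hNr : (8 : ℝ) ≤ N := by exact_mod_cast hN8
  have hMr : (N : ℝ) * N = M + 2 := by exact_mod_cast hM
  have h1r : ((M : ℝ) + 2) * (((M : ℝ) + 1) * (M.choose a : ℝ)) =
      ((M + 2).choose (a + 2) : ℝ) * (((a : ℝ) + 1) * ((a : ℝ) + 2)) := by exact_mod_cast h1
  have h2 : ((M + 2).choose (a + 2) : ℝ) ≤ ((M : ℝ) + 2) ^ (a + 2) / ((a + 2).factorial : ℝ) := by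
    have := Nat.choose_le_pow_div (α := ℝ) (a + 2) (M + 2)
    push_cast at this ⊢
    exact this
  have hfac : (0 : ℝ) < ((a + 2).factorial : ℝ) := by exact_mod_cast Nat.factorial_pos _
  have h3 : (N : ℝ) ^ (a + 2) ≤ 2 * (((a + 2).factorial : ℝ) * (N.choose (a + 2) : ℝ)) := by
    have h4 := Nat.pow_le_choose (α := ℝ) (a + 2) N
    have haN : a + 2 ≤ N := by nlinarith
    have h5 : (((N + 1 - (a + 2) : ℕ)) : ℝ) = (N : ℝ) + 1 - ((a : ℝ) + 2) := by
      rw [Nat.cast_sub (by omega)]; push_cast; ring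
    rw [h5] at h4
    have h6 : (1 / 2 : ℝ) ≤ (1 + -(((a : ℝ) + 1) / N)) ^ (a + 2) := by
      have h7 : (-2 : ℝ) ≤ -(((a : ℝ) + 1) / N) := by
        have : ((a : ℝ) + 1) / N ≤ 1 := by
          rw [div_le_one (by linarith)]
          have : ((a : ℝ) + 2) ≤ N := by exact_mod_cast haN
          linarith
        linarith
      have h8 := one_add_mul_le_pow h7 (a + 2)
      refine le_trans ?_ h8
      have h9 : ((a : ℝ) + 2) * (((a : ℝ) + 1) / N) ≤ 1 / 2 := by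
        rw [← mul_div_assoc, div_le_iff₀ (by linarith)]
        have h10 : 2 * ((a : ℝ) + 2) ^ 2 ≤ N := by exact_mod_cast hN
        have : (0 : ℝ) ≤ a := Nat.cast_nonneg a
        nlinarith
      push_cast
      linarith
    have h7 : (N : ℝ) ^ (a + 2) * (1 + -(((a : ℝ) + 1) / N)) ^ (a + 2) =
        ((N : ℝ) + 1 - ((a : ℝ) + 2)) ^ (a + 2) := by
      rw [← mul_pow]
      congr 1
      field_simp
      ring
    have h8 : (N : ℝ) ^ (a + 2) * (1 / 2) ≤ ((N : ℝ) + 1 - ((a : ℝ) + 2)) ^ (a + 2) := by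
      rw [← h7]
      exact mul_le_mul_of_nonneg_left h6 (by positivity)
    have h9 : ((N : ℝ) + 1 - ((a : ℝ) + 2)) ^ (a + 2) ≤
        ((a + 2).factorial : ℝ) * (N.choose (a + 2) : ℝ) := by
      rw [div_le_iff₀ hfac] at h4
      linarith
    linarith
  have h4 : ((M : ℝ) + 2) ^ (a + 2) / ((a + 2).factorial : ℝ) ≤
      2 * (N : ℝ) ^ (a + 2) * (N.choose (a + 2) : ℝ) := by
    rw [div_le_iff₀ hfac, ← hMr, mul_pow]
    calc (N : ℝ) ^ (a + 2) * (N : ℝ) ^ (a + 2) ≤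
          (N : ℝ) ^ (a + 2) * (2 * (((a + 2).factorial : ℝ) * (N.choose (a + 2) : ℝ))) :=
          mul_le_mul_of_nonneg_left h3 (by positivity)
      _ = _ := by ring
  have hM1 : (0 : ℝ) < (M : ℝ) + 1 := by positivity
  -- combine
  have h5 : (M.choose a : ℝ) * (((M : ℝ) + 2) * ((M : ℝ) + 1)) ≤
      2 * (N : ℝ) ^ (a + 2) * (N.choose (a + 2) : ℝ) * (((a : ℝ) + 1) * ((a : ℝ) + 2)) := by
    calc (M.choose a : ℝ) * (((M : ℝ) + 2) * ((M : ℝ) + 1)) =
          ((M + 2).choose (a + 2) : ℝ) * (((a : ℝ) + 1) * ((a : ℝ) + 2)) := by rw [← h1r]; ring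
      _ ≤ _ := mul_le_mul_of_nonneg_right (h2.trans h4) (by positivity)
  have h6 : (N : ℝ) ^ 4 = ((M : ℝ) + 2) * ((M : ℝ) + 2) := by rw [← hMr]; ring
  have h7 : ((M : ℝ) + 2) * ((M : ℝ) + 2) ≤ 2 * (((M : ℝ) + 2) * ((M : ℝ) + 1)) := by nlinarith
  have h8 : (0 : ℝ) ≤ (M.choose a : ℝ) := Nat.cast_nonneg _
  have h9 : (N : ℝ) ^ 4 * (M.choose a : ℝ) ≤
      2 * ((M.choose a : ℝ) * (((M : ℝ) + 2) * ((M : ℝ) + 1))) := by
    rw [h6]
    calc ((M : ℝ) + 2) * ((M : ℝ) + 2) * (M.choose a : ℝ) ≤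
          2 * (((M : ℝ) + 2) * ((M : ℝ) + 1)) * (M.choose a : ℝ) :=
          mul_le_mul_of_nonneg_right h7 h8
      _ = _ := by ring
  have h10 : (((a : ℝ) + 1) * ((a : ℝ) + 2)) ≤ ((a : ℝ) + 2) ^ 2 := by nlinarith
  calc (N : ℝ) ^ 4 * (M.choose a : ℝ) ≤ 2 * ((M.choose a : ℝ) * (((M : ℝ) + 2) * ((M : ℝ) + 1))) := h9
    _ ≤ 2 * (2 * (N : ℝ) ^ (a + 2) * (N.choose (a + 2) : ℝ) * (((a : ℝ) + 1) * ((a : ℝ) + 2))) := by
        linarith
    _ ≤ 2 * (2 * (N : ℝ) ^ (a + 2) * (N.choose (a + 2) : ℝ) * ((a : ℝ) + 2) ^ 2) := by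
        gcongr
    _ = 4 * ((a + 2 : ℕ) : ℝ) ^ 2 * (N : ℝ) ^ (a + 2) * (N.choose (a + 2) : ℝ) := by
        push_cast; ring

/-! ### the grid -/

theorem gXs_card_T9 {N : ℕ} (hN : N % 2 = 1) : (gXs N).card = N := by
  have hNr : (N : ℝ) ≠ 0 := by
    have : N ≠ 0 := by omega
    exact_mod_cast this
  unfold gXs
  rw [Finset.card_image_of_injective, Int.card_Icc]
  · omega
  · intro a b hab
    have h1 : (a : ℝ) / N = (b : ℝ) / N := hab
    have h2 : (a : ℝ) = b := by field_simp at h1; exact h1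
    exact_mod_cast h2

theorem gTs_card_T9 (N : ℕ) {h : ℝ} (hh : 0 < h) : (gTs N h).card = N := by
  unfold gTs
  rw [Finset.card_image_of_injective, Finset.card_range]
  intro a b hab
  have h1 := mul_right_cancel₀ hh.ne' hab
  have h2 : (a : ℝ) = b := by linarith
  exact_mod_cast h2

/-- many cells outside the inner region -/
theorem outer_T9 {N : ℕ} (hN : N % 2 = 1) {ε : ℝ} (hε : 0 < ε) (hε8 : ε ≤ 1 / 8)
    (hNε : 32 / ε ≤ N) {h : ℝ} (hh : 0 < h) (W : Finset Pt) (s' t' : Pt)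
    (hW : ∀ v ∈ W, |v.1| < rr ε) :
    ε / 8 * ((N : ℝ) * N) ≤
      ((((((gXs N ×ˢ gTs N h).erase t').erase s') \ W).card : ℕ) : ℝ) := by
  classical
  have hN0 : 0 < N := by omega
  have hNr : (0 : ℝ) < N := by exact_mod_cast hN0
  have hNε' : 32 ≤ ε * N := by
    rw [div_le_iff₀ hε] at hNε; linarith
  set D : Finset ℝ := (gXs N).filter (fun x => rr ε ≤ |x|) with hD
  have hDcard : ε / 4 * (N : ℝ) - 2 ≤ (D.card : ℝ) := by
    have h1 : (Finset.Icc ⌈rr ε * N⌉ ((N : ℤ) / 2)).card ≤ D.card := by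
      refine Finset.card_le_card_of_injOn (fun k : ℤ => (k : ℝ) / N) ?_ ?_
      · intro k hk
        rw [Finset.mem_coe, Finset.mem_Icc, Int.ceil_le] at hk
        rw [Finset.mem_coe, hD, Finset.mem_filter]
        have hrr : 0 < rr ε := by unfold rr; linarith
        have hk0 : (0 : ℝ) < k := lt_of_lt_of_le (by positivity) hk.1
        have hk0' : (0 : ℤ) < k := by exact_mod_cast hk0
        refine ⟨?_, ?_⟩
        · unfold gXs
          rw [Finset.mem_image]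
          refine ⟨k, Finset.mem_Icc.2 ⟨by omega, hk.2⟩, rfl⟩
        · rw [abs_of_pos (by positivity), le_div_iff₀ hNr]
          exact hk.1
      · intro a _ b _ hab
        have h1 : (a : ℝ) / N = (b : ℝ) / N := hab
        have h2 : (a : ℝ) = b := by field_simp at h1; exact h1
        exact_mod_cast h2
    have h2 : ε / 4 * (N : ℝ) - 2 ≤ ((Finset.Icc ⌈rr ε * N⌉ ((N : ℤ) / 2)).card : ℝ) := by
      rw [Int.card_Icc]
      have h3 : ((((N : ℤ) / 2 + 1 - ⌈rr ε * N⌉ : ℤ)) : ℝ) ≤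
          ((((N : ℤ) / 2 + 1 - ⌈rr ε * N⌉).toNat : ℕ) : ℝ) := by
        have h4 := Int.self_le_toNat ((N : ℤ) / 2 + 1 - ⌈rr ε * N⌉)
        exact_mod_cast h4
      refine le_trans ?_ h3
      have h4 : (N : ℝ) ≤ 2 * (((N : ℤ) / 2 : ℤ) : ℝ) + 1 := by
        have h5 : (N : ℤ) ≤ 2 * ((N : ℤ) / 2) + 1 := by omega
        exact_mod_cast h5
      have h5 := (Int.ceil_lt_add_one (rr ε * N)).le
      push_cast
      have h6 : rr ε * N = N / 2 - ε / 4 * N := by unfold rr; ring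
      linarith
    have h3 : ((Finset.Icc ⌈rr ε * N⌉ ((N : ℤ) / 2)).card : ℝ) ≤ D.card := by exact_mod_cast h1
    linarith
  have hsub : (D ×ˢ gTs N h) \ {s', t'} ⊆ (((gXs N ×ˢ gTs N h).erase t').erase s') \ W := by
    intro v hv
    rw [Finset.mem_sdiff, Finset.mem_product, Finset.mem_insert, Finset.mem_singleton,
      not_or] at hv
    obtain ⟨⟨h1, h2⟩, h3, h4⟩ := hv
    rw [hD, Finset.mem_filter] at h1
    rw [Finset.mem_sdiff, Finset.mem_erase, Finset.mem_erase, Finset.mem_product]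
    exact ⟨⟨h3, h4, h1.1, h2⟩, fun h5 => absurd (hW v h5) (not_lt.2 h1.2)⟩
  have h1 : D.card * N ≤ ((((gXs N ×ˢ gTs N h).erase t').erase s') \ W).card + 2 := by
    have h2 := Finset.card_le_card hsub
    have h3 := Finset.le_card_sdiff ({s', t'} : Finset Pt) (D ×ˢ gTs N h)
    rw [Finset.card_product, gTs_card_T9 N hh] at h3
    have h4 : ({s', t'} : Finset Pt).card ≤ 2 := Finset.card_le_two
    omega
  have h2 : (D.card : ℝ) * N ≤
      ((((((gXs N ×ˢ gTs N h).erase t').erase s') \ W).card : ℕ) : ℝ) + 2 := by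
    exact_mod_cast h1
  have h3 : (ε / 4 * (N : ℝ) - 2) * N ≤ (D.card : ℝ) * N :=
    mul_le_mul_of_nonneg_right hDcard hNr.le
  have hN1 : (1 : ℝ) ≤ N := by exact_mod_cast hN0
  nlinarith

/-- `BadEv` does not see the source and the target in the field -/
theorem bad_congr_T9 {ε B n : ℝ} {K : ℕ} {s t : Pt} {Y : Finset Pt} :
    BadEv ε B K n s t Y ↔ BadEv ε B K n s t (Y \ {s, t}) := by
  have h1 : ∀ Z, cfg (Y \ {s, t}) Z s t = cfg Y Z s t := by
    intro Z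
    unfold cfg
    ext x
    simp only [Finset.mem_union, Finset.mem_sdiff]
    tauto
  unfold BadEv
  simp only [h1]

theorem prob_W_T9 (G : Grid) {ε B n : ℝ} {K : ℕ} {s t : Pt} (r : ℝ) :
    prob (fun _ => G.p) (G.sfld r \ {s, t}) (BadEv ε B K n s t) =
      prob (fun _ => G.p) (G.sfld r) (BadEv ε B K n s t) := by
  symm
  unfold prob
  refine bern_marginal _ Finset.sdiff_subset ?_
  intro X hX
  refine ind_congr ?_
  rw [bad_congr_T9]
  have h1 : X ∩ (G.sfld r \ {s, t}) = X \ {s, t} := by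
    ext x
    simp only [Finset.mem_inter, Finset.mem_sdiff]
    constructor
    · rintro ⟨h1, h2, h3⟩; exact ⟨h1, h3⟩
    · rintro ⟨h1, h2⟩; exact ⟨h1, hX h1, h2⟩
  rw [h1]

theorem suc_self_T9 {n : ℕ} (K : ℕ) (d : Fin n → Fin n → ℝ) (t : Fin n) (m : ℕ) :
    suc K d t m t := by
  cases m with
  | zero => exact rfl
  | succ m => exact Or.inl rfl

/-- a bad path of the full configuration is a bad event of the field -/
theorem bad_of_T9 (G : Grid) {ε B' : ℝ} {K m₀ : ℕ} {s' t' : Pt}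
    (hm : ∀ m' : ℕ, m₀ < m' → B' < m') {X : Finset Pt}
    (hX : X ⊆ ((G.Xs ×ˢ G.Ts).erase t').erase s')
    (h : ∃ (v : ℕ → Pt) (m' : ℕ), IsPath K (X ∪ {s', t'}) s' v m' ∧
      (m₀ < m' ∨ (v m' ≠ t' ∧ (v m').1 ≠ 0 ∧ StuckAt K (X ∪ {s', t'}) (v m')))) :
    BadEv ε B' K G.n s' t' (X ∩ (G.sfld (rr ε) \ {s', t'})) := by
  obtain ⟨v, m', hpath, hor⟩ := h
  have hcfg : cfg (X ∩ (G.sfld (rr ε) \ {s', t'})) (X \ (G.sfld (rr ε) \ {s', t'})) s' t' =
      X ∪ {s', t'} := by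
    unfold cfg
    congr 1
    rw [Finset.union_comm]
    exact Finset.sdiff_union_inter _ _
  refine ⟨X \ (G.sfld (rr ε) \ {s', t'}), ?_, v, m', ?_, ?_⟩
  · intro w hw
    rw [Finset.mem_sdiff] at hw
    obtain ⟨hwX, hwW⟩ := hw
    have h1 := hX hwX
    rw [Finset.mem_erase, Finset.mem_erase, Finset.mem_product] at h1
    obtain ⟨h2, h3, h4, h5⟩ := h1
    have h6 := G.Ts_mem _ h5
    have h7 := G.Xs_mem _ h4
    refine ⟨?_, abs_le.2 ⟨h7.1.le, h7.2.le⟩, h6.1, h6.2⟩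
    by_contra hcon
    apply hwW
    rw [Finset.mem_sdiff, Finset.mem_insert, Finset.mem_singleton, not_or]
    refine ⟨?_, h2, h3⟩
    unfold Grid.sfld
    rw [Finset.mem_product, Finset.mem_filter]
    exact ⟨⟨h4, not_le.1 hcon⟩, h5⟩
  · rw [hcfg]; exact hpath
  · rw [hcfg]
    rcases hor with hor | hor
    · exact Or.inl (hm m' hor)
    · exact Or.inr hor

theorem hT9 (hmn : StMain) (h5 : StT5) (h6 : StT6) (h7 : StT7) (h8 : StT8) : StT9 := by
  classical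
  intro ε₀ hε₀
  obtain ⟨C₇, hC₇, h7⟩ := h7
  obtain ⟨ε, hεdef⟩ : ∃ ε : ℝ, ε = min (1 / 8) (ε₀ / 32) := ⟨_, rfl⟩
  have hε : 0 < ε := by rw [hεdef]; positivity
  have hε8 : ε ≤ 1 / 8 := by rw [hεdef]; exact min_le_left _ _
  have hεε₀ : ε ≤ ε₀ / 32 := by rw [hεdef]; exact min_le_right _ _
  obtain ⟨η, hηdef⟩ : ∃ η : ℝ, η = ε / 8 := ⟨_, rfl⟩
  have hη : 0 < η := by rw [hηdef]; positivity
  have hsη : 0 < Real.sqrt η := Real.sqrt_pos.2 hη
  obtain ⟨δ, hδdef⟩ : ∃ δ : ℝ, δ = ε₀ * Real.sqrt η / (64 * C₇) := ⟨_, rfl⟩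
  have hδ : 0 < δ := by rw [hδdef]; positivity
  obtain ⟨K₀, C, hC, hmain⟩ := hmn ε δ hε hε8 hδ
  refine ⟨K₀, C, hC, fun K hK => ?_⟩
  obtain ⟨n₁, hn₁⟩ := hmain K hK
  refine ⟨max 10 (⌈n₁⌉₊ + 2), fun n hn => ?_⟩
  have hn10 : 10 ≤ n := (le_max_left _ _).trans hn
  have hn2 : ⌈n₁⌉₊ + 2 ≤ n := (le_max_right _ _).trans hn
  have hn1 : n₁ ≤ (n : ℝ) - 2 := by
    have h1 : ((⌈n₁⌉₊ : ℕ) : ℝ) + 2 ≤ n := by exact_mod_cast hn2
    have h2 := Nat.le_ceil n₁
    linarith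
  obtain ⟨N₁, hN₁⟩ := h8 n hn10
  refine ⟨max N₁ (max (2 * n ^ 2) (max ⌈32 / ε⌉₊ ⌈24 / ε₀⌉₊)), fun N hN hNodd => ?_⟩
  have hNN1 : N₁ ≤ N := (le_max_left _ _).trans hN
  have hNn : 2 * n ^ 2 ≤ N := ((le_max_left _ _).trans (le_max_right _ _)).trans hN
  have hN3 : ⌈32 / ε⌉₊ ≤ N :=
    (((le_max_left _ _).trans (le_max_right _ _)).trans (le_max_right _ _)).trans hN
  have hN4 : ⌈24 / ε₀⌉₊ ≤ N :=
    (((le_max_right _ _).trans (le_max_right _ _)).trans (le_max_right _ _)).trans hN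
  have hN3' : 32 / ε ≤ N := (Nat.le_ceil _).trans (by exact_mod_cast hN3)
  have hN4' : 24 / ε₀ ≤ N := (Nat.le_ceil _).trans (by exact_mod_cast hN4)
  have hN0 : 0 < N := by omega
  have hNr : (0 : ℝ) < N := by exact_mod_cast hN0
  have hnr : (10 : ℝ) ≤ n := by exact_mod_cast hn10
  have hnN : n ≤ N := by nlinarith
  have hNN10 : 10 ≤ N := hn10.trans hnN
  obtain ⟨G, hGX, hGT, hGp, hGn1, hGn2, hGκ⟩ := hN₁ N hNN1 hNodd
  have hGn0 : 0 < G.n := by linarith
  obtain ⟨h, hhdef⟩ : ∃ h : ℝ, h = G.n / N := ⟨_, rfl⟩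
  have hh : 0 < h := by rw [hhdef]; positivity
  rw [← hhdef] at hGT
  obtain ⟨m₀, hm₀⟩ : ∃ m₀ : ℕ, m₀ = ⌊C * Real.log n⌋₊ := ⟨_, rfl⟩
  rw [← hm₀]
  have hm₀' : ∀ m' : ℕ, m₀ < m' → C * Real.log G.n < m' := by
    intro m' hm'
    rw [hm₀] at hm'
    have h1 := Nat.lt_of_floor_lt hm'
    have h2 : C * Real.log G.n ≤ C * Real.log n :=
      mul_le_mul_of_nonneg_left (Real.log_le_log hGn0 hGn2) hC.le
    linarith
  set B : Finset Pt → Pt → Pt → Prop := fun P s' t' => ε ≤ |s'.1| ∧ |s'.1| ≤ 1 / 2 - ε ∧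
    ∃ (v : ℕ → Pt) (m' : ℕ), IsPath K P s' v m' ∧
      (m₀ < m' ∨ (v m' ≠ t' ∧ (v m').1 ≠ 0 ∧ StuckAt K P (v m'))) with hB
  have hT6 := h6 n N h B (by omega) hNodd hh
  -- the two parts
  set F₁ : Fin n → Fin n → ℝ := fun s t => (Nat.card {k : Fin n → Fin N // s ≠ t ∧
    ∀ ρ : Fin n → Fin N, StrictMono ρ →
      B (univ.image (ptf N h k ρ t)) (ptf N h k ρ t s) (ptf N h k ρ t t)} : ℝ) with hF₁
  have hsplit : ∀ s t : Fin n, (Nat.card {k : Fin n → Fin N // ¬ NearTie k ∧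
      ¬ suc K (fun a b => gd N (k a) (k b)) t m₀ s} : ℝ) ≤ F₁ s t + ε₀ / 4 * (N : ℝ) ^ n := by
    intro s t
    by_cases hst : s = t
    · subst hst
      have h1 : Nat.card {k : Fin n → Fin N // ¬ NearTie k ∧
          ¬ suc K (fun a b => gd N (k a) (k b)) s m₀ s} = 0 := by
        have : IsEmpty {k : Fin n → Fin N // ¬ NearTie k ∧
          ¬ suc K (fun a b => gd N (k a) (k b)) s m₀ s} :=
          ⟨fun k => k.2.2 (suc_self_T9 _ _ _ _)⟩
        exact Nat.card_of_isEmpty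
      rw [h1]
      have h2 : 0 ≤ F₁ s s := Nat.cast_nonneg _
      have h3 : 0 ≤ ε₀ / 4 * (N : ℝ) ^ n := by positivity
      push_cast
      linarith
    · have h1 := card_or_T10 (α := Fin n → Fin N) (F := fun k => ¬ NearTie k ∧
        ¬ suc K (fun a b => gd N (k a) (k b)) t m₀ s)
        (A := fun k => s ≠ t ∧ ∀ ρ : Fin n → Fin N, StrictMono ρ →
          B (univ.image (ptf N h k ρ t)) (ptf N h k ρ t s) (ptf N h k ρ t t))
        (B := fun k => ¬ (ε ≤ |((cres N (k s) (k t) : ℤ) : ℝ) / N| ∧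
          |((cres N (k s) (k t) : ℤ) : ℝ) / N| ≤ 1 / 2 - ε)) (by
        rintro k ⟨hk1, hk2⟩
        by_cases hpos : ε ≤ |((cres N (k s) (k t) : ℤ) : ℝ) / N| ∧
          |((cres N (k s) (k t) : ℤ) : ℝ) / N| ≤ 1 / 2 - ε
        · left
          refine ⟨hst, fun ρ hρ => ?_⟩
          obtain ⟨v, m', hv1, hv2⟩ := h5 n N K m₀ h k ρ s t hNodd hh hρ hk1 hk2
          exact ⟨hpos.1, hpos.2, v, m', hv1, hv2⟩
        · exact Or.inr hpos)
      have h2 := card_fix_T9 (n := n) (N := N) (fun i j => ¬ (ε ≤ |((cres N i j : ℤ) : ℝ) / N| ∧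
          |((cres N i j : ℤ) : ℝ) / N| ≤ 1 / 2 - ε)) hst (b := 4 * ε * N + 3)
          (fun j => bad_pos_T9 hNodd hε j)
      have h3 : 4 * ε * N + 3 ≤ ε₀ / 4 * N := by
        rw [div_le_iff₀ hε₀] at hN4'
        nlinarith
      have h4 : (Nat.card {k : Fin n → Fin N // ¬ (ε ≤ |((cres N (k s) (k t) : ℤ) : ℝ) / N| ∧
          |((cres N (k s) (k t) : ℤ) : ℝ) / N| ≤ 1 / 2 - ε)} : ℝ) ≤ ε₀ / 4 * (N : ℝ) ^ n := by
        have h5 : (Nat.card {k : Fin n → Fin N // ¬ (ε ≤ |((cres N (k s) (k t) : ℤ) : ℝ) / N| ∧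
          |((cres N (k s) (k t) : ℤ) : ℝ) / N| ≤ 1 / 2 - ε)} : ℝ) * N ≤
          (ε₀ / 4 * (N : ℝ) ^ n) * N := by
          refine h2.trans ?_
          calc (4 * ε * N + 3) * (N : ℝ) ^ n ≤ (ε₀ / 4 * N) * (N : ℝ) ^ n :=
                mul_le_mul_of_nonneg_right h3 (by positivity)
            _ = _ := by ring
        exact le_of_mul_le_mul_right h5 hNr
      have h5 : (Nat.card {k : Fin n → Fin N // ¬ NearTie k ∧
          ¬ suc K (fun a b => gd N (k a) (k b)) t m₀ s} : ℝ) ≤ F₁ s t +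
          (Nat.card {k : Fin n → Fin N // ¬ (ε ≤ |((cres N (k s) (k t) : ℤ) : ℝ) / N| ∧
          |((cres N (k s) (k t) : ℤ) : ℝ) / N| ≤ 1 / 2 - ε)} : ℝ) := by
        have h6 := (Nat.cast_le (α := ℝ)).2 h1
        rw [Nat.cast_add] at h6
        exact h6
      linarith
  -- bound for one pair
  set X₀ : ℝ := C₇ / Real.sqrt η * (((N * N - 2).choose (n - 2) : ℕ) : ℝ) * δ with hX₀
  have hX₀0 : 0 ≤ X₀ := by positivity
  have hpair : ∀ t' ∈ ({0} : Finset ℝ) ×ˢ gTs N h, ∀ s' ∈ (gXs N ×ˢ gTs N h).erase t',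
      (Nat.card {X : Finset Pt //
        X ∈ powersetCard (n - 2) (((gXs N ×ˢ gTs N h).erase t').erase s') ∧
        B (X ∪ {s', t'}) s' t'} : ℝ) ≤ X₀ := by
    intro t' ht' s' hs'
    rw [Finset.mem_product, Finset.mem_singleton] at ht'
    have hs'2 := hs'
    rw [Finset.mem_erase, Finset.mem_product] at hs'
    obtain ⟨hst, hs1, hs2⟩ := hs'
    by_cases hpos : ε ≤ |s'.1| ∧ |s'.1| ≤ 1 / 2 - ε
    · -- the main case
      have hTs : ∀ x ∈ gTs N h, 0 < x ∧ x ≤ G.n := by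
        intro x hx
        rw [← hGT] at hx
        exact G.Ts_mem x hx
      have hyp : HypS ε G.n s' t' := ⟨hε, hε8, hpos.1, hpos.2, (hTs _ hs2).1, (hTs _ hs2).2,
        ht'.1, (hTs _ ht'.2).1, (hTs _ ht'.2).2⟩
      have h0X : (0 : ℝ) ∈ gXs N := by
        unfold gXs
        rw [Finset.mem_image]
        exact ⟨0, Finset.mem_Icc.2 ⟨by omega, by omega⟩, by simp⟩
      have ht'mem : t' ∈ gXs N ×ˢ gTs N h := by
        rw [Finset.mem_product]
        exact ⟨by rw [ht'.1]; exact h0X, ht'.2⟩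
      set S : Finset Pt := ((gXs N ×ˢ gTs N h).erase t').erase s' with hS
      have hScard : S.card = N * N - 2 := by
        rw [hS, Finset.card_erase_of_mem hs'2, Finset.card_erase_of_mem ht'mem,
          Finset.card_product, gXs_card_T9 hNodd, gTs_card_T9 N hh]
        omega
      set W : Finset Pt := G.sfld (rr ε) \ {s', t'} with hW
      have hWS : W ⊆ S := by
        intro v hv
        rw [hW, Finset.mem_sdiff, Finset.mem_insert, Finset.mem_singleton, not_or] at hv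
        obtain ⟨h1, h2, h3⟩ := hv
        unfold Grid.sfld at h1
        rw [Finset.mem_product, Finset.mem_filter, hGX, hGT] at h1
        rw [hS, Finset.mem_erase, Finset.mem_erase, Finset.mem_product]
        exact ⟨h2, h3, h1.1.1, h1.2⟩
      have hWr : ∀ v ∈ W, |v.1| < rr ε := by
        intro v hv
        rw [hW, Finset.mem_sdiff] at hv
        have h1 := hv.1
        unfold Grid.sfld at h1
        rw [Finset.mem_product, Finset.mem_filter] at h1
        exact h1.1.2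
      have hNN : (N : ℕ) * N - 2 + 2 = N * N := by
        have : 2 ≤ N * N := by nlinarith
        omega
      have hη2 : η * (S.card : ℝ) ≤ ((S \ W).card : ℝ) := by
        have h1 := outer_T9 hNodd hε hε8 hN3' hh W s' t' hWr
        refine le_trans ?_ h1
        rw [hηdef, hScard]
        refine mul_le_mul_of_nonneg_left ?_ (by positivity)
        have h2 : ((N * N - 2 : ℕ) : ℝ) ≤ ((N * N : ℕ) : ℝ) := by
          exact_mod_cast Nat.sub_le _ _
        push_cast at h2 ⊢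
        exact h2
      have h4m : 4 * (n - 2) ≤ S.card := by
        rw [hScard]
        have h1 : 4 * n ≤ N * N := by nlinarith
        omega
      have h1 := h7 S W (n - 2) (BadEv ε (C * Real.log G.n) K G.n s' t') η hWS (by omega) h4m
        hη hη2
      have h2 : prob (fun _ => ((n - 2 : ℕ) : ℝ) / (S.card : ℝ)) W
          (BadEv ε (C * Real.log G.n) K G.n s' t') ≤ δ := by
        rw [hScard, ← hGp, hW, prob_W_T9]
        exact hn₁ G s' t' (hn1.trans hGn1) hyp hGκ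
      have h3 : (Nat.card {X : Finset Pt // X ∈ powersetCard (n - 2) S ∧
          B (X ∪ {s', t'}) s' t'} : ℝ) ≤ (Nat.card {X : Finset Pt //
          X ∈ powersetCard (n - 2) S ∧
          BadEv ε (C * Real.log G.n) K G.n s' t' (X ∩ W)} : ℝ) := by
        have e1 : Nat.card {X : Finset Pt // X ∈ powersetCard (n - 2) S ∧
            B (X ∪ {s', t'}) s' t'} = ((powersetCard (n - 2) S).filter
              (fun X => B (X ∪ {s', t'}) s' t')).card :=
          Nat.subtype_card _ fun X => by rw [Finset.mem_filter]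
        have e2 : Nat.card {X : Finset Pt // X ∈ powersetCard (n - 2) S ∧
            BadEv ε (C * Real.log G.n) K G.n s' t' (X ∩ W)} = ((powersetCard (n - 2) S).filter
              (fun X => BadEv ε (C * Real.log G.n) K G.n s' t' (X ∩ W))).card :=
          Nat.subtype_card _ fun X => by rw [Finset.mem_filter]
        rw [e1, e2]
        have h4 := Finset.card_le_card (Finset.monotone_filter_right (powersetCard (n - 2) S)
          (p := fun X => B (X ∪ {s', t'}) s' t')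
          (q := fun X => BadEv ε (C * Real.log G.n) K G.n s' t' (X ∩ W)) (by
            intro X hX hBX
            have hX2 := (Finset.mem_powersetCard.1 hX).1
            rw [hS, ← hGX, ← hGT] at hX2
            exact bad_of_T9 G hm₀' hX2 hBX.2.2))
        exact_mod_cast h4
      calc (Nat.card {X : Finset Pt // X ∈ powersetCard (n - 2) S ∧
          B (X ∪ {s', t'}) s' t'} : ℝ) ≤ _ := h3
        _ ≤ _ := h1
        _ ≤ C₇ / Real.sqrt η * ((S.card.choose (n - 2) : ℕ) : ℝ) * δ :=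
            mul_le_mul_of_nonneg_left h2 (by positivity)
        _ = X₀ := by rw [hX₀, hScard]
    · have h1 : Nat.card {X : Finset Pt //
          X ∈ powersetCard (n - 2) (((gXs N ×ˢ gTs N h).erase t').erase s') ∧
          B (X ∪ {s', t'}) s' t'} = 0 := by
        have : IsEmpty {X : Finset Pt //
          X ∈ powersetCard (n - 2) (((gXs N ×ˢ gTs N h).erase t').erase s') ∧
          B (X ∪ {s', t'}) s' t'} := ⟨fun X => hpos ⟨X.2.2.1, X.2.2.2.1⟩⟩
        exact Nat.card_of_isEmpty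
      rw [h1]
      push_cast
      exact hX₀0
  -- the sum over all pairs
  have hsum : (∑ t' ∈ ({0} : Finset ℝ) ×ˢ gTs N h, ∑ s' ∈ (gXs N ×ˢ gTs N h).erase t',
      (Nat.card {X : Finset Pt //
        X ∈ powersetCard (n - 2) (((gXs N ×ˢ gTs N h).erase t').erase s') ∧
        B (X ∪ {s', t'}) s' t'} : ℝ)) ≤ (N : ℝ) * ((N : ℝ) * N * X₀) := by
    calc _ ≤ ∑ t' ∈ ({0} : Finset ℝ) ×ˢ gTs N h, ∑ _s' ∈ (gXs N ×ˢ gTs N h).erase t', X₀ :=
          Finset.sum_le_sum fun t' ht' => Finset.sum_le_sum fun s' hs' => hpair t' ht' s' hs'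
      _ ≤ ∑ t' ∈ ({0} : Finset ℝ) ×ˢ gTs N h, (N : ℝ) * N * X₀ := by
          refine Finset.sum_le_sum fun t' _ => ?_
          rw [Finset.sum_const, nsmul_eq_mul]
          refine mul_le_mul_of_nonneg_right ?_ hX₀0
          have h1 : ((gXs N ×ˢ gTs N h).erase t').card ≤ N * N := by
            refine (Finset.card_erase_le).trans ?_
            rw [Finset.card_product, gXs_card_T9 hNodd, gTs_card_T9 N hh]
          exact_mod_cast h1
      _ = (N : ℝ) * ((N : ℝ) * N * X₀) := by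
          rw [Finset.sum_const, nsmul_eq_mul, Finset.card_product, Finset.card_singleton,
            gTs_card_T9 N hh, one_mul]
  have hch := choose_T9 (n := n) (N := N) (by omega) hNn
  have hchpos : (0 : ℝ) < ((N.choose n : ℕ) : ℝ) := by exact_mod_cast Nat.choose_pos hnN
  have hF : (∑ s : Fin n, ∑ t : Fin n, F₁ s t) ≤ ε₀ / 16 * (n : ℝ) ^ 2 * (N : ℝ) ^ n := by
    have h1 : (∑ s : Fin n, ∑ t : Fin n, F₁ s t) * ((N.choose n : ℕ) : ℝ) ≤
        (ε₀ / 16 * (n : ℝ) ^ 2 * (N : ℝ) ^ n) * ((N.choose n : ℕ) : ℝ) := by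
      calc (∑ s : Fin n, ∑ t : Fin n, F₁ s t) * ((N.choose n : ℕ) : ℝ) ≤ _ := hT6
        _ ≤ (N : ℝ) * ((N : ℝ) * ((N : ℝ) * N * X₀)) := mul_le_mul_of_nonneg_left hsum hNr.le
        _ = C₇ / Real.sqrt η * δ *
            ((N : ℝ) ^ 4 * (((N * N - 2).choose (n - 2) : ℕ) : ℝ)) := by rw [hX₀]; ring
        _ ≤ C₇ / Real.sqrt η * δ *
            (4 * (n : ℝ) ^ 2 * (N : ℝ) ^ n * ((N.choose n : ℕ) : ℝ)) :=
            mul_le_mul_of_nonneg_left hch (by positivity)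
        _ = _ := by
            rw [hδdef]
            field_simp
            ring
    exact le_of_mul_le_mul_right h1 hchpos
  calc _ ≤ ∑ s : Fin n, ∑ t : Fin n, (F₁ s t + ε₀ / 4 * (N : ℝ) ^ n) :=
        Finset.sum_le_sum fun s _ => Finset.sum_le_sum fun t _ => hsplit s t
    _ = (∑ s : Fin n, ∑ t : Fin n, F₁ s t) + (n : ℝ) ^ 2 * (ε₀ / 4 * (N : ℝ) ^ n) := by
        simp only [Finset.sum_add_distrib, Finset.sum_const, Finset.card_univ, Fintype.card_fin,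
          nsmul_eq_mul]
        ring
    _ ≤ ε₀ / 16 * (n : ℝ) ^ 2 * (N : ℝ) ^ n + (n : ℝ) ^ 2 * (ε₀ / 4 * (N : ℝ) ^ n) :=
        add_le_add hF le_rfl
    _ ≤ ε₀ * (n : ℝ) ^ 2 * (N : ℝ) ^ n := by
        have h1 : 0 ≤ ε₀ * (n : ℝ) ^ 2 * (N : ℝ) ^ n := by positivity
        nlinarith

end Pool.Agent.Helper67.GR
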