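import Pool.Agent.Helper67.GR.St4

/-! # GR module Tot: expected length of the greedy path -/

namespace Pool.Agent.Helper67.GR

open Finset

theorem rr_lt_half_Tot {ε : ℝ} (hε : 0 < ε) : rr ε < 1 / 2 := by
  unfold rr; linarith

theorem sfld_sub_Tot (G : Grid) {r : ℝ} (hr : r ≤ 1 / 2) :
    G.sfld r ⊆ G.fld (-(1 / 2)) (1 / 2) := by
  intro v hv
  unfold Grid.sfld at hv
  rw [Finset.mem_product, Finset.mem_filter] at hv
  rw [mem_fld]
  have h1 := abs_lt.1 hv.1.2
  exact ⟨hv.1.1, hv.2, by linarith [h1.1], by linarith [h1.2]⟩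

/-- mean number of points of low label -/
theorem low_mean_Tot (G : Grid) {r θ : ℝ} (hr : r ≤ 1 / 2) (hθ : 0 ≤ θ) :
    bern (fun _ => G.p) (G.sfld r) (fun Y => ((Y.filter (fun v => v.2 < θ)).card : ℝ)) ≤
      θ + 1 := by
  rw [bern_card]
  have h1 : (∑ _v ∈ (G.sfld r).filter (fun v => v.2 < θ), G.p) ≤
      ∑ _v ∈ (G.fld (-(1 / 2)) (1 / 2)).filter (fun v => v.2 ≤ θ), G.p := by
    refine Finset.sum_le_sum_of_subset_of_nonneg ?_ fun _ _ _ => G.p_pos.le
    intro v hv
    rw [Finset.mem_filter] at hv ⊢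
    exact ⟨sfld_sub_Tot G hr hv.1, hv.2.le⟩
  have h2 := mean_le' G (-(1 / 2)) (1 / 2) θ le_rfl (by norm_num) le_rfl hθ
  have h3 := G.κ_le
  have h4 : θ * (1 / 2 - -(1 / 2)) = θ := by ring
  rw [h4] at h2
  linarith

theorem exists_level_Tot {L₀ x : ℝ} (h0 : 0 < L₀) (hx : L₀ ≤ x) :
    ∃ k : ℕ, 2 ^ k * L₀ ≤ x ∧ x < 2 * (2 ^ k * L₀) := by
  obtain ⟨k, hk1, hk2⟩ := exists_nat_pow_near (x := x / L₀) (y := 2)
    ((one_le_div h0).2 hx) (by norm_num)
  refine ⟨k, (le_div_iff₀ h0).1 hk1, ?_⟩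
  have h1 := (div_lt_iff₀ h0).1 hk2
  calc x < 2 ^ (k + 1) * L₀ := h1
    _ = 2 * (2 ^ k * L₀) := by ring

theorem hTot (hl : StLev) (hpi : StPI) : StTot := by
  classical
  obtain ⟨C, hC, ℓ₀, hlev⟩ := hl
  have hlog2 : 0 < Real.log 2 := Real.log_pos (by norm_num)
  refine ⟨C / Real.log 2 + C + 1, by positivity, ?_⟩
  intro ε hε hε8
  refine ⟨max ℓ₀ 1, ?_⟩
  intro ℓ K hℓ hPar
  have hℓ1 : ℓ₀ ≤ ℓ := (le_max_left _ _).trans hℓ
  have hℓ2 : 1 ≤ ℓ := (le_max_right _ _).trans hℓ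
  have hK1 : 1 ≤ K := by
    have h1 : 1 ^ 8 ≤ ℓ ^ 8 := Nat.pow_le_pow_left hℓ2 8
    have h2 := hPar.1
    omega
  have hℓr : (1 : ℝ) ≤ ℓ := by exact_mod_cast hℓ2
  have hKr : (1 : ℝ) ≤ K := by exact_mod_cast hK1
  set L₀ : ℝ := 100 * ℓ * K / ε ^ 4 with hL₀
  have hε4 : 0 < ε ^ 4 := by positivity
  have hε41 : ε ^ 4 ≤ 1 := pow_le_one₀ hε.le (by linarith)
  have hL₀1 : 1 ≤ L₀ := by
    rw [hL₀, le_div_iff₀ hε4]
    have h1 : (1 : ℝ) ≤ ℓ * K := by nlinarith
    nlinarith
  have hL₀pos : 0 < L₀ := by linarith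
  refine ⟨Real.exp (L₀ + C + 3), ?_⟩
  intro G s t hn hS hκ
  have hn0 : 0 < G.n := lt_of_lt_of_le (Real.exp_pos _) hn
  have hlogn : L₀ + C + 3 ≤ Real.log G.n := (Real.le_log_iff_exp_le hn0).2 hn
  set M : ℕ := ⌊Real.log G.n / Real.log 2⌋₊ with hM
  set I : Finset ℕ := (range (M + 1)).filter (fun k => (2 : ℝ) ^ k * L₀ ≤ G.n) with hI
  have hyp : ∀ k ∈ I, HypL ε ℓ K G ((2 : ℝ) ^ k * L₀) s t := by
    intro k hk
    have h1 : (1 : ℝ) ≤ 2 ^ k := one_le_pow₀ (by norm_num)
    refine ⟨hS, hκ, by positivity, (Finset.mem_filter.1 hk).2, ?_⟩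
    have h2 : L₀ ≤ 2 ^ k * L₀ := by nlinarith
    rw [div_le_iff₀ (by positivity)]
    have h3 : ε ^ 4 * L₀ = 100 * ℓ * K := by
      rw [hL₀]; field_simp
    have h4 : ε ^ 4 * L₀ ≤ ε ^ 4 * (2 ^ k * L₀) := mul_le_mul_of_nonneg_left h2 hε4.le
    linarith
  choose! Ψ hΨ0 hΨ1 hΨ2 using fun (k : ℕ) (hk : k ∈ I) =>
    hlev ℓ K hℓ1 hPar ε G ((2 : ℝ) ^ k * L₀) s t (hyp k hk)
  refine ⟨fun Y => (∑ k ∈ I, Ψ k Y) + (((Y.filter (fun v => v.2 < L₀)).card : ℝ) + 2), ?_, ?_, ?_⟩
  · intro Y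
    have h1 : 0 ≤ ∑ k ∈ I, Ψ k Y := Finset.sum_nonneg fun k hk => hΨ0 k hk Y
    positivity
  · rw [bern_add, bern_sum, bern_add, bern_const]
    have h1 : ∑ k ∈ I, bern (fun _ => G.p) (G.sfld (rr ε)) (Ψ k) ≤ (M + 1) * C := by
      calc ∑ k ∈ I, bern (fun _ => G.p) (G.sfld (rr ε)) (Ψ k) ≤ ∑ _k ∈ I, C :=
            Finset.sum_le_sum fun k hk => hΨ1 k hk
        _ = (I.card : ℝ) * C := by rw [Finset.sum_const, nsmul_eq_mul]
        _ ≤ (M + 1) * C := by
            refine mul_le_mul_of_nonneg_right ?_ hC.le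
            have h2 : I.card ≤ M + 1 := (Finset.card_filter_le _ _).trans (by simp)
            exact_mod_cast h2
    have h2 := low_mean_Tot G (rr_lt_half_Tot hε).le hL₀pos.le
    have h3 : (M : ℝ) ≤ Real.log G.n / Real.log 2 := Nat.floor_le (by
      apply div_nonneg _ hlog2.le
      linarith)
    have h4 : (M : ℝ) * C ≤ C / Real.log 2 * Real.log G.n := by
      calc (M : ℝ) * C ≤ Real.log G.n / Real.log 2 * C := mul_le_mul_of_nonneg_right h3 hC.le
        _ = C / Real.log 2 * Real.log G.n := by ring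
    have h5 : C * 1 ≤ C * Real.log G.n := mul_le_mul_of_nonneg_left (by linarith) hC.le
    nlinarith
  · intro Y hY Z hZ v m hpath
    obtain ⟨hpi1, hpi2, -⟩ := hpi K (cfg Y Z s t) s v m hpath
    have hinj : ∀ i ∈ range (m + 1), ∀ j ∈ range (m + 1), v i = v j → i = j := by
      intro i hi j hj hij
      rw [Finset.mem_range] at hi hj
      rcases lt_trichotomy i j with h | h | h
      · have := hpi1 i j h (by omega)
        rw [hij] at this
        exact absurd this (lt_irrefl _)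
      · exact h
      · have := hpi1 j i h (by omega)
        rw [hij] at this
        exact absurd this (lt_irrefl _)
    -- membership
    have hmem : ∀ i ≤ m, v i ∈ Y ∪ {s, t} := by
      intro i hi
      obtain ⟨h1, h2⟩ := hpi2 i hi
      unfold cfg at h1
      rw [Finset.mem_union, Finset.mem_union] at h1
      rcases h1 with (h1 | h1) | h1
      · exact Finset.mem_union_left _ h1
      · exfalso
        have h3 := (hZ _ h1).1
        have h4 := hS.2.2.2.1
        unfold rr at h3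
        linarith
      · exact Finset.mem_union_right _ h1
    have hlab : ∀ i ≤ m, (v i).2 ≤ G.n := by
      intro i hi
      have h1 := hmem i hi
      rw [Finset.mem_union, Finset.mem_insert, Finset.mem_singleton] at h1
      rcases h1 with h1 | h1 | h1
      · have h2 := hY h1
        unfold Grid.sfld at h2
        rw [Finset.mem_product] at h2
        exact (G.Ts_mem _ h2.2).2
      · rw [h1]; exact hS.2.2.2.2.2.1
      · rw [h1]; exact hS.2.2.2.2.2.2.2.2
    -- low labels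
    have hlow : ((range (m + 1)).filter (fun i => (v i).2 < L₀)).card ≤
        (Y.filter (fun v => v.2 < L₀)).card + 2 := by
      have h1 : ((range (m + 1)).filter (fun i => (v i).2 < L₀)).card ≤
          (Y.filter (fun v => v.2 < L₀) ∪ {s, t}).card := by
        refine Finset.card_le_card_of_injOn v ?_ ?_
        · intro i hi
          rw [Finset.mem_coe, Finset.mem_filter, Finset.mem_range] at hi
          have h2 := hmem i (by omega)
          rw [Finset.mem_coe]
          rw [Finset.mem_union] at h2 ⊢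
          rcases h2 with h2 | h2
          · exact Or.inl (Finset.mem_filter.2 ⟨h2, hi.2⟩)
          · exact Or.inr h2
        · intro i hi j hj hij
          exact hinj i (Finset.mem_filter.1 hi).1 j (Finset.mem_filter.1 hj).1 hij
      refine h1.trans ((Finset.card_union_le _ _).trans ?_)
      have h2 : ({s, t} : Finset Pt).card ≤ 2 := Finset.card_le_two
      omega
    -- the levels
    have hcov : range (m + 1) ⊆ (I.biUnion fun k => (range (m + 1)).filter
        (fun i => (2 : ℝ) ^ k * L₀ ≤ (v i).2 ∧ (v i).2 < 2 * (2 ^ k * L₀))) ∪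
        (range (m + 1)).filter (fun i => (v i).2 < L₀) := by
      intro i hi
      rw [Finset.mem_union]
      by_cases h1 : (v i).2 < L₀
      · exact Or.inr (Finset.mem_filter.2 ⟨hi, h1⟩)
      · left
        obtain ⟨k, hk1, hk2⟩ := exists_level_Tot hL₀pos (not_lt.1 h1)
        rw [Finset.mem_biUnion]
        refine ⟨k, ?_, Finset.mem_filter.2 ⟨hi, hk1, hk2⟩⟩
        have h2 : (2 : ℝ) ^ k * L₀ ≤ G.n := hk1.trans (hlab i (by
          rw [Finset.mem_range] at hi; omega))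
        rw [hI, Finset.mem_filter, Finset.mem_range]
        refine ⟨?_, h2⟩
        have h3 : (2 : ℝ) ^ k ≤ G.n := by
          have h4 : (0 : ℝ) < 2 ^ k := by positivity
          nlinarith
        have h4 : (k : ℝ) ≤ Real.log G.n / Real.log 2 := by
          rw [le_div_iff₀ hlog2, ← Real.log_pow]
          exact Real.log_le_log (by positivity) h3
        have h5 : k ≤ M := Nat.le_floor h4
        omega
    have h1 : m + 1 ≤ (∑ k ∈ I, ((range (m + 1)).filter
        (fun i => (2 : ℝ) ^ k * L₀ ≤ (v i).2 ∧ (v i).2 < 2 * (2 ^ k * L₀))).card) +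
        ((Y.filter (fun v => v.2 < L₀)).card + 2) := by
      calc m + 1 = (range (m + 1)).card := (Finset.card_range _).symm
        _ ≤ _ := Finset.card_le_card hcov
        _ ≤ _ := Finset.card_union_le _ _
        _ ≤ _ := add_le_add Finset.card_biUnion_le hlow
    have h2 : ((m : ℝ) + 1) ≤ (∑ k ∈ I, (((range (m + 1)).filter
        (fun i => (2 : ℝ) ^ k * L₀ ≤ (v i).2 ∧ (v i).2 < 2 * (2 ^ k * L₀))).card : ℝ)) +
        (((Y.filter (fun v => v.2 < L₀)).card : ℝ) + 2) := by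
      exact_mod_cast h1
    refine h2.trans (add_le_add (Finset.sum_le_sum fun k hk => ?_) le_rfl)
    exact hΨ2 k hk Y hY Z hZ v m hpath

end Pool.Agent.Helper67.GR
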