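import Pool.Agent.Helper67.GR.St2

/-! # GR project (MP_d9675d_pr), module UL: uniform label lemma -/

namespace Pool.Agent.Helper67.GR

open Finset

/-- indicator of a unique existence as a sum -/
theorem ind_unique_UL {α : Type*} (Y : Finset α) (P : α → Prop)
    (h1 : ∀ v, P v → v ∈ Y) (h2 : ∀ v v', P v → P v' → v = v') :
    ind (∃ v, P v) = ∑ v ∈ Y, ind (P v) := by
  by_cases h : ∃ v, P v
  · obtain ⟨v, hv⟩ := h
    rw [ind_of ⟨v, hv⟩, sum_eq_single v]
    · exact (ind_of hv).symm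
    · intro w _ hne
      exact ind_of_not fun hw => hne (h2 w v hw hv)
    · intro hn
      exact absurd (h1 v hv) hn
  · rw [ind_of_not h]
    exact (sum_eq_zero fun v _ => ind_of_not fun hv => h ⟨v, hv⟩).symm

/-- Mecke formula for a unique point -/
theorem prob_unique_UL {α : Type*} [DecidableEq α] (q : α → ℝ) (S : Finset α)
    (A : Finset α → α → Prop) (h1 : ∀ Y ⊆ S, ∀ v, A Y v → v ∈ Y)
    (h2 : ∀ Y ⊆ S, ∀ v v', A Y v → A Y v' → v = v') :
    prob q S (fun Y => ∃ v, A Y v) =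
      bern q S (fun Y => ∑ v ∈ S, q v * ind (A (insert v Y) v)) := by
  unfold prob
  rw [bern_congr fun Y hY => ind_unique_UL Y (A Y) (h1 Y hY) (h2 Y hY),
    bern_mecke q S (fun v X => ind (A X v)), bern_sum]
  exact sum_congr rfl fun v _ => (bern_smul q S (q v) _).symm

/-- one column -/
theorem column_UL (Ts : Finset ℝ) (w : ℝ → ℝ) (D : ℝ → Prop) (ρ φ L : ℝ) (hρ0 : 0 ≤ ρ)
    (hρ1 : ρ ≤ 1) (hw0 : ∀ t ∈ Ts, 0 ≤ w t)
    (hw : ∀ t ∈ Ts, ∀ t' ∈ Ts, t ≤ φ → t' ≤ φ → w t = w t')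
    (hcard : ρ * ((Ts.filter (fun t => t ≤ φ)).card : ℝ) ≤
      ((Ts.filter (fun t => t < L)).card : ℝ))
    (hD : ∀ t ∈ Ts, D t → t ≤ φ) (hlow : ∀ t ∈ Ts, ∀ t' ∈ Ts, t' ≤ t → D t → D t') :
    ρ * ∑ t ∈ Ts, w t * ind (D t) ≤ ∑ t ∈ Ts, w t * ind (D t ∧ t < L) := by
  classical
  by_cases hne : ∃ t₀ ∈ Ts, D t₀
  · obtain ⟨t₀, ht₀, hD₀⟩ := hne
    have e1 : ∑ t ∈ Ts, w t * ind (D t) = w t₀ * ((Ts.filter D).card : ℝ) := by
      have : ((Ts.filter D).card : ℝ) = ∑ t ∈ Ts, ind (D t) := by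
        rw [card_filter]
        push_cast
        refine sum_congr rfl fun t _ => ?_
        by_cases h : D t
        · rw [if_pos h, ind_of h]
        · rw [if_neg h, ind_of_not h]
      rw [this, mul_sum]
      refine sum_congr rfl fun t ht => ?_
      by_cases h : D t
      · rw [hw t ht t₀ ht₀ (hD t ht h) (hD t₀ ht₀ hD₀)]
      · rw [ind_of_not h, mul_zero, mul_zero]
    have e2 : ∑ t ∈ Ts, w t * ind (D t ∧ t < L) =
        w t₀ * ((Ts.filter (fun t => D t ∧ t < L)).card : ℝ) := by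
      have : ((Ts.filter (fun t => D t ∧ t < L)).card : ℝ) = ∑ t ∈ Ts, ind (D t ∧ t < L) := by
        rw [card_filter]
        push_cast
        refine sum_congr rfl fun t _ => ?_
        by_cases h : D t ∧ t < L
        · rw [if_pos h, ind_of h]
        · rw [if_neg h, ind_of_not h]
      rw [this, mul_sum]
      refine sum_congr rfl fun t ht => ?_
      by_cases h : D t ∧ t < L
      · rw [hw t ht t₀ ht₀ (hD t ht h.1) (hD t₀ ht₀ hD₀)]
      · rw [ind_of_not h, mul_zero, mul_zero]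
    have key : ρ * ((Ts.filter D).card : ℝ) ≤
        ((Ts.filter (fun t => D t ∧ t < L)).card : ℝ) := by
      by_cases hsub : ∀ t ∈ Ts, D t → t < L
      · have e3 : Ts.filter (fun t => D t ∧ t < L) = Ts.filter D :=
          filter_congr fun t ht => ⟨fun h => h.1, fun h => ⟨h, hsub t ht h⟩⟩
        rw [e3]
        have : (0 : ℝ) ≤ ((Ts.filter D).card : ℝ) := Nat.cast_nonneg _
        nlinarith
      · push Not at hsub
        obtain ⟨t₁, ht₁, hD₁, hL₁⟩ := hsub
        have e3 : Ts.filter (fun t => D t ∧ t < L) = Ts.filter (fun t => t < L) :=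
          filter_congr fun t ht => ⟨fun h => h.2, fun h =>
            ⟨hlow t₁ ht₁ t ht (h.le.trans hL₁) hD₁, h⟩⟩
        rw [e3]
        have h5 : (Ts.filter D).card ≤ (Ts.filter (fun t => t ≤ φ)).card := by
          refine card_le_card fun t ht => ?_
          obtain ⟨h6, h7⟩ := mem_filter.1 ht
          exact mem_filter.2 ⟨h6, hD t h6 h7⟩
        have h6 : ((Ts.filter D).card : ℝ) ≤ ((Ts.filter (fun t => t ≤ φ)).card : ℝ) := by
          exact_mod_cast h5
        exact (mul_le_mul_of_nonneg_left h6 hρ0).trans hcard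
    rw [e1, e2]
    have := mul_le_mul_of_nonneg_left key (hw0 t₀ ht₀)
    linarith
  · push Not at hne
    have e1 : ∑ t ∈ Ts, w t * ind (D t) = 0 :=
      sum_eq_zero fun t ht => by rw [ind_of_not (hne t ht), mul_zero]
    rw [e1, mul_zero]
    exact sum_nonneg fun t ht => mul_nonneg (hw0 t ht) (ind_nonneg _)

theorem hUL : StUL := by
  intro G y z φ L ρ q A hq hw hρ0 hρ1 hcard hA hA2 hlow
  have hS : G.fld y z = (G.Xs.filter (fun x => y ≤ x ∧ x < z)) ×ˢ G.Ts := rfl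
  rw [prob_unique_UL q (G.fld y z) A (fun Y hY v hv => (hA Y hY v hv).1) hA2,
    prob_unique_UL q (G.fld y z) (fun Y v => A Y v ∧ v.2 < L)
      (fun Y hY v hv => (hA Y hY v hv.1).1) (fun Y hY v v' h h' => hA2 Y hY v v' h.1 h'.1),
    ← bern_smul]
  refine bern_mono hq fun Y hY => ?_
  have hins : ∀ v ∈ G.fld y z, insert v Y ⊆ G.fld y z := fun v hv =>
    insert_subset hv hY
  have e1 : ∑ v ∈ G.fld y z, q v * ind (A (insert v Y) v) =
      ∑ x ∈ G.Xs.filter (fun x => y ≤ x ∧ x < z), ∑ t ∈ G.Ts,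
        q (x, t) * ind (A (insert (x, t) Y) (x, t)) := by
    rw [hS, sum_product]
  have e2 : ∑ v ∈ G.fld y z, q v * ind (A (insert v Y) v ∧ v.2 < L) =
      ∑ x ∈ G.Xs.filter (fun x => y ≤ x ∧ x < z), ∑ t ∈ G.Ts,
        q (x, t) * ind (A (insert (x, t) Y) (x, t) ∧ t < L) := by
    rw [hS, sum_product]
  rw [e1, e2, mul_sum]
  refine sum_le_sum fun x hx => ?_
  have hmem : ∀ t ∈ G.Ts, (x, t) ∈ G.fld y z := fun t ht => mem_product.2 ⟨hx, ht⟩
  exact column_UL G.Ts (fun t => q (x, t)) (fun t => A (insert (x, t) Y) (x, t)) ρ φ L hρ0 hρ1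
    (fun t ht => (hq _ (hmem t ht)).1)
    (fun t ht t' ht' h h' => hw x t t' (hmem t ht) (hmem t' ht') h h') hcard
    (fun t ht h => (hA _ (hins _ (hmem t ht)) _ h).2)
    (fun t ht t' ht' h hd => hlow Y hY x t t' h (hmem t ht) (hmem t' ht') hd)

end Pool.Agent.Helper67.GR
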