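import Pool.Agent.Helper67.GR.Land
import Pool.Agent.Helper67.GR.Fld

/-! # GR project: statements of wave 2 (Fall lemma) -/

namespace Pool.Agent.Helper67.GR

open Finset

/-- tilted weights: labels at most `θ` get the factor `1 + b` -/
noncomputable def tq (p b θ : ℝ) (v : Pt) : ℝ := if v.2 ≤ θ then (1 + b) * p else p

/-- the point before which more than `K` older points are found in the tilted field -/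
noncomputable def zz (K : ℕ) (A y : ℝ) (u : Pt) : ℝ :=
  u.1 + (K - (40 * A * (1 - u.2 * (y - u.1) / K) - 4 * A) * Real.sqrt K) / u.2

/-- the middle between `u` and `zz` -/
noncomputable def mm (K : ℕ) (A y : ℝ) (u : Pt) : ℝ := (u.1 + zz K A y u) / 2

/-- UL: the landing label is at least as likely to be small as a uniform label -/
def StUL : Prop := ∀ (G : Grid) (y z φ L ρ : ℝ) (q : Pt → ℝ) (A : Finset Pt → Pt → Prop),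
  Pq q (G.fld y z) →
  (∀ x t t' : ℝ, (x, t) ∈ G.fld y z → (x, t') ∈ G.fld y z → t ≤ φ → t' ≤ φ →
    q (x, t) = q (x, t')) →
  0 ≤ ρ → ρ ≤ 1 →
  ρ * ((G.Ts.filter (fun t => t ≤ φ)).card : ℝ) ≤ ((G.Ts.filter (fun t => t < L)).card : ℝ) →
  (∀ Y ⊆ G.fld y z, ∀ v, A Y v → v ∈ Y ∧ v.2 ≤ φ) →
  (∀ Y ⊆ G.fld y z, ∀ v v', A Y v → A Y v' → v = v') →
  (∀ Y ⊆ G.fld y z, ∀ x t t' : ℝ, t' ≤ t → (x, t) ∈ G.fld y z → (x, t') ∈ G.fld y z →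
    A (insert (x, t) Y) (x, t) → A (insert (x, t') Y) (x, t')) →
  ρ * prob q (G.fld y z) (fun Y => ∃ v, A Y v) ≤
    prob q (G.fld y z) (fun Y => ∃ v, A Y v ∧ v.2 < L)

/-- common hypotheses of the attempt lemmas: a vertex `u` of the explored configuration `ω`
on `{x < y}` -/
def HypA (K : ℕ) (A n L y : ℝ) (ω : Finset Pt) (u : Pt) : Prop :=
  0 < L ∧ Lab n ω ∧ (∀ v ∈ ω, v.1 < y) ∧ u ∈ ω ∧ L ≤ u.2 ∧ u.2 ≤ 20 * L ∧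
    u.2 * (y - u.1) ≤ 3 / 5 * K ∧
    Reg n ω (y - 2 * K / L) y (20 * L) (A * Real.sqrt K)

/-- ACz: elementary facts about `zz` and `mm` -/
def StACz : Prop := ∀ A : ℝ, 10 ≤ A → ∃ K₀ : ℕ, ∀ K ≥ K₀, ∀ (n L y : ℝ) (ω : Finset Pt)
  (u : Pt), HypA K A n L y ω u →
  y < zz K A y u ∧ zz K A y u ≤ y + K / L ∧ u.1 < mm K A y u ∧
    2 / 5 * (K : ℝ) ≤ u.2 * (mm K A y u - u.1) ∧ u.2 * (mm K A y u - u.1) ≤ 1 / 2 * K ∧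
    max (mm K A y u) y + 101 / u.2 ≤ y + K / L

/-- ACd1: enough fresh points give more than `K` points before `zz` -/
def StACd1 : Prop := ∀ A : ℝ, 10 ≤ A → ∃ K₀ : ℕ, ∀ K ≥ K₀, ∀ (n L y : ℝ)
  (ω Y : Finset Pt) (u : Pt), HypA K A n L y ω u → (∀ v ∈ Y, y ≤ v.1) →
  (1 + 40 * A / Real.sqrt K) * (u.2 * (zz K A y u - y) - 1) - A * Real.sqrt K <
    (cnt Y y (zz K A y u) u.2 : ℝ) →
  K < Rr (ω ∪ Y) u (zz K A y u)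

/-- ACd2: a fresh point just after the middle is adjacent to `u` -/
def StACd2 : Prop := ∀ A : ℝ, 10 ≤ A → ∃ K₀ : ℕ, ∀ K ≥ K₀, ∀ (n L y : ℝ)
  (ω Y : Finset Pt) (u q : Pt), HypA K A n L y ω u → (∀ v ∈ Y, y ≤ v.1) →
  y ≤ mm K A y u + 2 * A * Real.sqrt K / u.2 → q ∈ Y → q.2 ≤ u.2 →
  max (mm K A y u) y ≤ q.1 → q.1 < max (mm K A y u) y + 101 / u.2 →
  (cnt Y y (max (mm K A y u) y + 101 / u.2) u.2 : ℝ) <
    (1 + 40 * A / Real.sqrt K) * (u.2 * (max (mm K A y u) y + 101 / u.2 - y) + 1) +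
      A * Real.sqrt K →
  bc ld (ω ∪ Y) u (q.1 - u.1) ≤ K

/-- ACd3: if the middle is well inside the explored region there is an explored older
neighbour after the middle -/
def StACd3 : Prop := ∀ A : ℝ, 10 ≤ A → ∃ K₀ : ℕ, ∀ K ≥ K₀, ∀ (n L y : ℝ)
  (ω : Finset Pt) (u : Pt), HypA K A n L y ω u →
  mm K A y u + 2 * A * Real.sqrt K / u.2 < y →
  ∃ q ∈ ω, q.2 ≤ u.2 ∧ mm K A y u ≤ q.1 ∧ bc ld ω u (q.1 - u.1) ≤ K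

/-- ACp: Chebyshev bounds for the tilted field -/
def StACp : Prop := ∀ (G : Grid) (y z c d φ θ b t : ℝ), -(1/2) ≤ y → z ≤ 1/2 → y ≤ c →
  c ≤ d → d ≤ z → 0 ≤ φ → φ ≤ θ → φ ≤ G.n → 0 ≤ b → b ≤ 1 → 0 < t →
  prob (tq G.p b θ) (G.fld y z)
      (fun Y => (cnt Y c d φ : ℝ) ≤ (1 + b) * (φ * (d - c) - 1) - t) ≤
    (1 + b) * (φ * (d - c) + 1) / t ^ 2 ∧
  prob (tq G.p b θ) (G.fld y z)
      (fun Y => (1 + b) * (φ * (d - c) + 1) + t ≤ (cnt Y c d φ : ℝ)) ≤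
    (1 + b) * (φ * (d - c) + 1) / t ^ 2

/-- ACk: in the tilted field the walk from `w` reaches a fresh older point in one or two
steps (or an explored point of label `< L`) with probability at least `3/4` -/
def StACk : Prop := ∀ A : ℝ, 10 ≤ A → ∃ K₀ : ℕ, ∀ K ≥ K₀, ∀ (G : Grid) (L y : ℝ)
  (ω : Finset Pt) (w : Pt), HypA K A G.n L y ω w → -(1/2) ≤ y → y + 2 * K / L ≤ 0 →
  ∃ (u₀ : Pt) (z₁ z₂ : ℝ), z₁ ≤ y + 2 * K / L ∧ z₂ ≤ y + 2 * K / L ∧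
    3 / 4 ≤ prob (tq G.p (40 * A / Real.sqrt K) w.2) (G.fld y (y + 2 * K / L))
      (fun Y => (∃ q ∈ Y, LandO K (ω ∪ Y) w z₁ q) ∨
        (u₀ ∈ ω ∧ u₀.2 ≤ w.2 ∧ LandO K (ω ∪ Y) w z₁ u₀ ∧
          (u₀.2 < L ∨ ∃ q ∈ Y, LandO K (ω ∪ Y) u₀ z₂ q)))

/-- AC: an attempt succeeds with positive probability, uniformly in `K` -/
def StAC : Prop := ∀ A : ℝ, 10 ≤ A → ∃ c : ℝ, 0 < c ∧ c ≤ 1 ∧ ∃ K₀ : ℕ, ∀ K ≥ K₀,
  ∀ (G : Grid) (L y : ℝ) (ω : Finset Pt) (w : Pt), HypA K A G.n L y ω w →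
  -(1/2) ≤ y → y + 2 * K / L ≤ 0 →
  G.pr y (y + 2 * K / L) (fun Y => Stay K (ω ∪ Y) L (y + 2 * K / L) w) ≤ 1 - c

/-- BCd: on a regular block a staying path is ready for an attempt at some grid point -/
def StBCd : Prop := ∃ K₀ : ℕ, ∀ K ≥ K₀, ∀ (n L y : ℝ) (P : Finset Pt) (w : Pt),
  0 < L → Lab n P → y + 20 * K / L ≤ 0 → w ∈ P → w.1 < y → L ≤ w.2 → w.2 ≤ 18 * L →
  Rr P w y ≤ K → Reg n P (y - 10 * K / L) (y + 20 * K / L) (40 * L) (1 / 1000000 * K) →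
  Stay K P L (y + 20 * K / L) w →
  ∃ j : ℕ, j ≤ 1000 ∧ ∃ u ∈ P,
    State K P L (y + 3 * K / L + j * K / (400 * L)) w u ∧ L ≤ u.2 ∧ u.2 ≤ 20 * L ∧
    u.2 * (y + 3 * K / L + j * K / (400 * L) - u.1) ≤ 3 / 5 * K ∧
    u.1 < y + 3 * K / L + j * K / (400 * L)

/-- BC: the block claim -/
def StBC : Prop := ∃ c : ℝ, 0 < c ∧ c ≤ 1 ∧ ∃ K₀ : ℕ, ∀ K ≥ K₀, ∀ (G : Grid) (L y : ℝ)
  (ω : Finset Pt) (w : Pt), 0 < L → -(1/2) ≤ y → y + 20 * K / L ≤ 0 → Lab G.n ω →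
  (∀ v ∈ ω, v.1 < y) → w ∈ ω → L ≤ w.2 → w.2 ≤ 18 * L → Rr ω w y ≤ K →
  Reg G.n ω (y - 10 * K / L) y (40 * L) (1 / 2000000 * K) →
  G.pr y (y + 20 * K / L) (fun Y => Stay K (ω ∪ Y) L (y + 20 * K / L) w) ≤ 1 - c

/-- FD: after falling below `16 L` labels stay below `18 L` on a regular region -/
def StFD : Prop := ∀ X₀ : ℝ, 1 ≤ X₀ → ∃ K₀ : ℕ, ∀ K ≥ K₀, ∀ (n L y z : ℝ)
  (P : Finset Pt) (w w₁ u : Pt), 0 < L → Lab n P → w ∈ P → z ≤ 0 →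
  y + (30 + X₀ / 4) * K / L ≤ z → z ≤ y + X₀ * K / L →
  Reg n P y z (64 * L) (1 / (10000000 * X₀) * K) →
  State K P L (y + 30 * K / L) w w₁ → State K P L z w u →
  ¬ Stay K P (16 * L) (y + (30 + X₀ / 4) * K / L) w₁ → u ∈ P ∧ u.2 ≤ 18 * L

/-- the fall estimate at level `L` over `m` units -/
def FI (X₀ : ℝ) (K : ℕ) (G : Grid) (L : ℝ) (m : ℕ) : Prop :=
  ∀ (y : ℝ) (ω : Finset Pt) (w : Pt), -(1/2) ≤ y → y + m * X₀ * K / L ≤ 0 →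
  Lab G.n ω → (∀ v ∈ ω, v.1 < y) → w ∈ ω → Rr ω w y ≤ K →
  G.pr y (y + m * X₀ * K / L) (fun Y => Stay K (ω ∪ Y) L (y + m * X₀ * K / L) w) ≤
    (1 / 2) ^ m

/-- FI1: one unit implies `m` units -/
def StFI1 : Prop := ∀ (X₀ : ℝ) (K : ℕ) (G : Grid) (L : ℝ), 0 < X₀ → 0 < L →
  FI X₀ K G L 1 → ∀ m, FI X₀ K G L m

/-- FI2: the induction step of the fall lemma -/
def StFI2 : Prop := ∃ X₀ : ℝ, 1 ≤ X₀ ∧ ∃ K₀ : ℕ, ∀ K ≥ K₀, ∀ (G : Grid) (L : ℝ),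
  0 < L → (∀ m, FI X₀ K G (16 * L) m) → FI X₀ K G L 1

/-- Fall lemma -/
def StFall : Prop := ∃ X₀ : ℝ, 1 ≤ X₀ ∧ ∃ K₀ : ℕ, ∀ K ≥ K₀, ∀ (G : Grid) (L : ℝ),
  0 < L → ∀ m, FI X₀ K G L m

/-- FIy: exponential form -/
def StFIy : Prop := ∃ c : ℝ, 0 < c ∧ c ≤ 1 ∧ ∃ K₀ : ℕ, ∀ K ≥ K₀, ∀ (G : Grid)
  (L y z : ℝ) (ω : Finset Pt) (w : Pt), 0 < L → -(1/2) ≤ y → y ≤ z → z ≤ 0 →
  Lab G.n ω → (∀ v ∈ ω, v.1 < y) → w ∈ ω → Rr ω w y ≤ K →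
  G.pr y z (fun Y => Stay K (ω ∪ Y) L z w) ≤ 2 * Real.exp (-(c * L * (z - y) / K))

/-- FIv: the fall lemma started from the last explored vertex -/
def StFIv : Prop := ∃ c : ℝ, 0 < c ∧ c ≤ 1 ∧ ∃ K₀ : ℕ, ∀ K ≥ K₀, ∀ (G : Grid)
  (L z : ℝ) (ω : Finset Pt) (w : Pt), 0 < L → -(1/2) ≤ w.1 → w.1 < z → z ≤ 0 →
  Lab G.n ω → (∀ v ∈ ω, v.1 ≤ w.1) → w ∈ ω →
  prob (fun _ => G.p) ((G.Xs.filter (fun x => w.1 < x ∧ x < z)) ×ˢ G.Ts)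
    (fun Y => Stay K (ω ∪ Y) L z w) ≤ 2 * Real.exp (-(c * L * (z - w.1) / K))

end Pool.Agent.Helper67.GR
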