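import Pool.Agent.Helper67.GR.St2

/-! # GR project: statements of wave 3 (long range analysis) -/

namespace Pool.Agent.Helper67.GR

open Finset

/-- parameters: `ℓ` is about `K^(1/8)` -/
def Par (ℓ K : ℕ) : Prop := ℓ ^ 8 ≤ K ∧ K < (ℓ + 1) ^ 8

/-! ### the window event -/

/-- band event: some vertex of label in `[2^j M/8, 2^(j+1) M/8)` in the window keeps labels at
least `2^j M/8` for too long -/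
def Bnd (K ℓ : ℕ) (M A₀ : ℝ) (ω : Finset Pt) (j : ℕ) (Y : Finset Pt) : Prop :=
  ∃ v ∈ Y, v.1 < A₀ + (10 + (ℓ : ℝ) / 4) * K / M ∧ 2 ^ j * M / 8 ≤ v.2 ∧
    v.2 < 2 ^ (j + 1) * M / 8 ∧
    Stay K (ω ∪ Y) (2 ^ j * M / 8) (v.1 + (ℓ : ℝ) / 16 * (3 / 4) ^ j * K / M) v

/-- FBd: without band events every walk from the window falls below `M/8` -/
def StFBd : Prop := ∀ (K ℓ : ℕ) (M A₀ : ℝ) (ω Y : Finset Pt), 1 ≤ ℓ → 1 ≤ K → 0 < M →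
  A₀ + (10 + (ℓ : ℝ) / 2) * K / M ≤ 0 → (∀ v ∈ ω, v.1 < A₀) → (∀ v ∈ Y, A₀ ≤ v.1) →
  (∀ j, ¬ Bnd K ℓ M A₀ ω j Y) →
  ∀ v ∈ Y, v.1 < A₀ + 10 * K / M →
    ¬ Stay K (ω ∪ Y) (M / 8) (A₀ + (10 + (ℓ : ℝ) / 2) * K / M) v

/-- FBm: probability of a band event -/
def StFBm : Prop := ∃ c : ℝ, 0 < c ∧ c ≤ 1 ∧ ∃ K₀ : ℕ, ∀ K ≥ K₀, ∀ (G : Grid) (ℓ j : ℕ)
  (M A₀ : ℝ) (ω : Finset Pt), 1 ≤ ℓ → 0 < M → -(1/2) ≤ A₀ →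
  A₀ + (10 + (ℓ : ℝ) / 2) * K / M ≤ 0 → Lab G.n ω → (∀ v ∈ ω, v.1 < A₀) →
  G.pr A₀ (A₀ + (10 + (ℓ : ℝ) / 2) * K / M) (Bnd K ℓ M A₀ ω j) ≤
    (2 ^ (j + 1) / 8 * (10 + (ℓ : ℝ) / 4) * K + 1) *
      (2 * Real.exp (-(c * ℓ * (3 / 2) ^ j / 128)))

/-- FB: the window event is very unlikely -/
def StFB : Prop := ∀ T : ℕ, ∃ ℓ₀ : ℕ, ∀ ℓ K : ℕ, ℓ₀ ≤ ℓ → Par ℓ K → ∀ (G : Grid)
  (M A₀ : ℝ) (ω : Finset Pt), 0 < M → -(1/2) ≤ A₀ →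
  A₀ + (10 + (ℓ : ℝ) / 2) * K / M ≤ 0 → Lab G.n ω → (∀ v ∈ ω, v.1 < A₀) →
  G.pr A₀ (A₀ + (10 + (ℓ : ℝ) / 2) * K / M)
    (fun Y => ∃ v ∈ Y, v.1 < A₀ + 10 * K / M ∧
      Stay K (ω ∪ Y) (M / 8) (A₀ + (10 + (ℓ : ℝ) / 2) * K / M) v) ≤ 1 / (K : ℝ) ^ T

/-! ### deterministic lemmas for the circle -/

/-- greedy path on the circle -/
def IsPath (K : ℕ) (P : Finset Pt) (s : Pt) (v : ℕ → Pt) (m : ℕ) : Prop :=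
  v 0 = s ∧ s ∈ P ∧ ∀ i < m, Step cd K P (v i) (v (i + 1))

/-- CL: neighbourhoods only depend on the local configuration and local metric -/
def StCL : Prop := ∀ (δ δ' : ℝ → ℝ → ℝ) (n M a b e : ℝ) (K : ℕ) (P P' : Finset Pt) (w : Pt),
  0 < M → 0 ≤ e → e ≤ (K : ℝ) / 10 → 10 ≤ K → Lab n P → Lab n P' →
  (∀ p : Pt, a ≤ p.1 → p.1 < b → (p ∈ P ↔ p ∈ P')) → w ∈ P → M / 8 ≤ w.2 →
  a ≤ w.1 - 15 * K / M → w.1 + 15 * K / M ≤ b → Reg n P a b (2 * M) e →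
  (∀ c, |c - w.1| ≤ 6 * K / M → Met δ P (6 * K / M) c ∧ Met δ' P' (6 * K / M) c) →
  ∀ u, (u ∈ P ∧ adj δ K P w u) ↔ (u ∈ P' ∧ adj δ' K P' w u)

/-- BTR: tracing back a path from a vertex of label at least `M/2` near `y` -/
def StBTR : Prop := ∃ ℓ₀ : ℕ, ∀ ℓ K : ℕ, ℓ₀ ≤ ℓ → Par ℓ K →
  ∀ (n M A₀ y z : ℝ) (P P' : Finset Pt) (s : Pt) (v : ℕ → Pt) (m k : ℕ),
  0 < M → Lab n P → Lab n P' → (∀ p ∈ P, |p.1| ≤ 1 / 2) → (∀ p ∈ P', |p.1| ≤ 1 / 2) →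
  (∀ p : Pt, A₀ - 30 * K / M ≤ p.1 → p.1 < y + 30 * K / M → (p ∈ P ↔ p ∈ P')) →
  -(1/2) + 10 * K / M ≤ A₀ - 30 * K / M → y + 30 * K / M ≤ 0 →
  Reg n P' (A₀ - 30 * K / M) (y + 30 * K / M) (2 * M) (K / (400 * ℓ)) →
  A₀ ≤ z → z ≤ y - K / M → y - A₀ ≤ 4 * ℓ * K / M →
  IsPath K P s v m → k ≤ m → y - K / M ≤ (v k).1 → (v k).1 ≤ y + K / M →
  M / 2 ≤ (v k).2 →
  (A₀ ≤ s.1 ∧ s.1 ≤ y + K / M ∧ (z ≤ s.1 ∨ Stay K P' (M / 8) z s)) ∨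
  (|A₀| < |s.1| ∧ ∃ u ∈ P', A₀ ≤ u.1 ∧ u.1 < A₀ + 5 * K / M ∧ Stay K P' (M / 8) z u)

/-- number of path vertices in a box -/
noncomputable def vis (v : ℕ → Pt) (m : ℕ) (a b lo hi : ℝ) : ℕ :=
  ((range (m + 1)).filter
    (fun i => a ≤ (v i).1 ∧ (v i).1 < b ∧ lo ≤ (v i).2 ∧ (v i).2 < hi)).card

/-- Pack: in a regular box only few path vertices of label less than `2L` -/
def StPack : Prop := ∀ (K : ℕ) (n L a b e : ℝ) (P : Finset Pt) (s : Pt) (v : ℕ → Pt) (m : ℕ),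
  40 ≤ K → 0 < L → Lab n P → (∀ p ∈ P, |p.1| ≤ 1 / 2) → IsPath K P s v m → b ≤ 0 →
  a ≤ b → b - a ≤ K / L → -(1/2) + 5 * K / L ≤ a → 0 ≤ e → e ≤ (K : ℝ) / 10 →
  Reg n P (a - 3 * K / L) (b + 3 * K / L) (2 * L) e →
  vis v m a b 0 (2 * L) ≤ 12

/-- NS: a vertex with a regular neighbourhood at some scale is not stuck -/
def StNS : Prop := ∀ (K : ℕ) (n M e : ℝ) (P : Finset Pt) (v t : Pt), 40 ≤ K → 0 < M →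
  M ≤ n → Lab n P → (∀ p ∈ P, |p.1| ≤ 1 / 2) → v ∈ P → t ∈ P → t.1 = 0 → v.1 ≠ 0 →
  v.2 ≤ M → 0 ≤ e → e ≤ (K : ℝ) / 10 →
  Reg n P (v.1 - 2 * K / M) (v.1 + 2 * K / M) M e → |v.1| + 3 * K / M ≤ 1 / 2 →
  ((K : ℝ) / M ≤ |v.1| ∨ M = n) → ∃ u ∈ P, adj cd K P v u ∧ |u.1| < |v.1|

/-- PI: a greedy path visits a vertex at most once, inside `|x| ≤ |s.1|` -/
def StPI : Prop := ∀ (K : ℕ) (P : Finset Pt) (s : Pt) (v : ℕ → Pt) (m : ℕ),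
  IsPath K P s v m → (∀ i j, i < j → j ≤ m → |(v j).1| < |(v i).1|) ∧
    (∀ i ≤ m, v i ∈ P ∧ |(v i).1| ≤ |s.1|) ∧
    ∀ a b lo hi : ℝ, vis v m a b lo hi ≤
      (P.filter (fun p => |p.1| ≤ |s.1| ∧ a ≤ p.1 ∧ p.1 < b ∧ lo ≤ p.2 ∧ p.2 < hi)).card

/-! ### multi-scale regularity -/

/-- radius of scale `i` (`hh 0 = 0`) -/
noncomputable def hh (ℓ K : ℕ) (Λ : ℝ) : ℕ → ℝ
  | 0 => 0
  | i + 1 => ℓ * K * ((K : ℝ) ^ 5) ^ i / Λ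

/-- label level of scale `i` -/
noncomputable def lam (K : ℕ) (Λ : ℝ) (i : ℕ) : ℝ := Λ / ((K : ℝ) ^ 5) ^ i

/-- RP: regularity with tolerance of order `K/ℓ` -/
def StRP : Prop := ∀ T : ℕ, ∃ ℓ₀ : ℕ, ∀ ℓ K : ℕ, ℓ₀ ≤ ℓ → Par ℓ K → ∀ (G : Grid)
  (a b Λ e : ℝ), -(1/2) ≤ a → a ≤ b → b ≤ 1/2 → 0 ≤ Λ → Λ * (b - a) ≤ 20 * ℓ * K →
  (K : ℝ) / (5000 * ℓ) ≤ e →
  G.pr a b (fun Y => ¬ Reg G.n Y a b Λ e) ≤ 1 / (K : ℝ) ^ T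

/-- annulus event of scale `i` -/
def Ann (n : ℝ) (ℓ K : ℕ) (Λ c e : ℝ) (Fe : ℕ → Finset Pt → Prop) (i : ℕ)
    (P : Finset Pt) : Prop :=
  ¬ Reg n P (c - hh ℓ K Λ (i + 1)) (c - hh ℓ K Λ i) (2 * lam K Λ i) (e / 4) ∨
  ¬ Reg n P (c + hh ℓ K Λ i) (c + hh ℓ K Λ (i + 1)) (2 * lam K Λ i) (e / 4) ∨
  Fe i P

/-- low label event of scale `i` -/
def Low (ℓ K : ℕ) (Λ c e : ℝ) (i : ℕ) (P : Finset Pt) : Prop :=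
  1 ≤ i ∧ e / 8 < (cnt P (c - hh ℓ K Λ i) (c + hh ℓ K Λ i) (2 * lam K Λ i) : ℝ)

/-- MSd: if neither event happens the whole ball of scale `i` is regular -/
def StMSd : Prop := ∃ ℓ₀ : ℕ, ∀ ℓ K : ℕ, ℓ₀ ≤ ℓ → Par ℓ K → ∀ (n Λ c e : ℝ) (i : ℕ)
  (P : Finset Pt), 0 ≤ n → 0 < Λ → (K : ℝ) / (1000 * ℓ) ≤ e →
  Reg n P (c - hh ℓ K Λ (i + 1)) (c - hh ℓ K Λ i) (2 * lam K Λ i) (e / 4) →
  Reg n P (c + hh ℓ K Λ i) (c + hh ℓ K Λ (i + 1)) (2 * lam K Λ i) (e / 4) →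
  ¬ Low ℓ K Λ c e i P →
  Reg n P (c - hh ℓ K Λ (i + 1)) (c + hh ℓ K Λ (i + 1)) (2 * lam K Λ i) e

/-- locality and conditional smallness of the extra events -/
def FeOk (G : Grid) (ℓ K : ℕ) (Λ c : ℝ) (I T : ℕ) (Fe : ℕ → Finset Pt → Prop) : Prop :=
  (∀ i ≤ I, ∀ P P' : Finset Pt, (∀ p : Pt, p.1 < c - hh ℓ K Λ i → (p ∈ P ↔ p ∈ P')) →
    (Fe i P ↔ Fe i P')) ∧
  (∀ i ≤ I, ∀ ω : Finset Pt, Lab G.n ω → (∀ v ∈ ω, v.1 < c - hh ℓ K Λ (i + 1)) →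
    G.pr (c - hh ℓ K Λ (i + 1)) (c - hh ℓ K Λ i) (fun Y => Fe i (ω ∪ Y)) ≤
      1 / (K : ℝ) ^ T)

/-- common hypotheses of the multi-scale lemmas -/
def HypM (G : Grid) (ℓ K : ℕ) (Λ c r e : ℝ) (I : ℕ) (E : Finset Pt) : Prop :=
  G.κ * G.n ^ 4 ≤ 1 ∧ 0 < Λ ∧ Λ ≤ 2 * G.n ∧ (K : ℝ) / (1000 * ℓ) ≤ e ∧ r ≤ 1 / 2 ∧
    -r < c - hh ℓ K Λ (I + 1) ∧ c + hh ℓ K Λ (I + 1) ≤ r ∧ Lab G.n E ∧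
    (∀ v ∈ E, v.1 < c - hh ℓ K Λ (I + 1) ∨ c + hh ℓ K Λ (I + 1) ≤ v.1)

/-- MSc: the annulus events of different scales are nearly independent -/
def StMSc : Prop := ∀ T : ℕ, ∃ ℓ₀ : ℕ, ∀ ℓ K : ℕ, ℓ₀ ≤ ℓ → Par ℓ K → ∀ (G : Grid)
  (Λ c r e : ℝ) (I : ℕ) (E : Finset Pt) (Fe : ℕ → Finset Pt → Prop),
  HypM G ℓ K Λ c r e I E → FeOk G ℓ K Λ c I T Fe →
  ∀ S ⊆ range (I + 1),
  prob (fun _ => G.p) (G.sfld r) (fun Y => ∀ i ∈ S, Ann G.n ℓ K Λ c e Fe i (Y ∪ E)) ≤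
    (3 / (K : ℝ) ^ T) ^ S.card

/-- MSl: few scales have many points of low label -/
def StMSl : Prop := ∀ T : ℕ, ∃ ℓ₀ : ℕ, ∀ ℓ K : ℕ, ℓ₀ ≤ ℓ → Par ℓ K → ∀ (G : Grid)
  (Λ c r e : ℝ) (I : ℕ) (E : Finset Pt), HypM G ℓ K Λ c r e I E →
  prob (fun _ => G.p) (G.sfld r)
    (fun Y => ∃ S ⊆ range (I + 1), I + 1 ≤ 2 * S.card ∧
      ∀ i ∈ S, Low ℓ K Λ c e i (Y ∪ E)) ≤ 1 / (K : ℝ) ^ (T * (I + 1))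

/-- MS: all scales are bad with small probability -/
def StMS : Prop := ∀ T : ℕ, ∃ ℓ₀ T' : ℕ, ∀ ℓ K : ℕ, ℓ₀ ≤ ℓ → Par ℓ K → ∀ (G : Grid)
  (Λ c r e : ℝ) (I : ℕ) (E : Finset Pt) (Fe : ℕ → Finset Pt → Prop),
  HypM G ℓ K Λ c r e I E → FeOk G ℓ K Λ c I T' Fe →
  prob (fun _ => G.p) (G.sfld r)
    (fun Y => ∀ i ≤ I,
      (¬ Reg G.n (Y ∪ E) (c - hh ℓ K Λ (i + 1)) (c + hh ℓ K Λ (i + 1))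
        (2 * lam K Λ i) e) ∨ Fe i (Y ∪ E)) ≤ 1 / (K : ℝ) ^ (T * (I + 1))

end Pool.Agent.Helper67.GR
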