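import Pool.Agent.Helper67.GR.St3

/-! # GR project: statements of wave 4 (expected number of visited vertices) -/

namespace Pool.Agent.Helper67.GR

open Finset

/-- the full configuration: field `Y` in `|x| < r`, source, target, outer points `Z` -/
noncomputable def cfg (Y Z : Finset Pt) (s t : Pt) : Finset Pt := Y ∪ Z ∪ {s, t}

/-- outer points -/
def OutOk (n r : ℝ) (Z : Finset Pt) : Prop :=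
  ∀ v ∈ Z, r ≤ |v.1| ∧ |v.1| ≤ 1 / 2 ∧ 0 < v.2 ∧ v.2 ≤ n

/-- radius of the inner region -/
noncomputable def rr (ε : ℝ) : ℝ := 1 / 2 - ε / 4

/-- hypotheses on source and target -/
def HypS (ε n : ℝ) (s t : Pt) : Prop :=
  0 < ε ∧ ε ≤ 1 / 8 ∧ ε ≤ |s.1| ∧ |s.1| ≤ 1 / 2 - ε ∧ 0 < s.2 ∧ s.2 ≤ n ∧
    t.1 = 0 ∧ 0 < t.2 ∧ t.2 ≤ n

/-- hypotheses on a label level `L` -/
def HypL (ε : ℝ) (ℓ K : ℕ) (G : Grid) (L : ℝ) (s t : Pt) : Prop :=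
  HypS ε G.n s t ∧ G.κ * G.n ^ 4 ≤ 1 ∧ 0 < L ∧ L ≤ G.n ∧ 100 * ℓ * K / L ≤ ε ^ 4

/-- window event of scale `i` for the centre `c` -/
def FeW (K ℓ : ℕ) (Λ c : ℝ) (i : ℕ) (P : Finset Pt) : Prop :=
  ∃ u ∈ P, c - hh ℓ K Λ (i + 1) + 30 * K / lam K Λ i ≤ u.1 ∧
    u.1 < c - hh ℓ K Λ (i + 1) + 35 * K / lam K Λ i ∧
    Stay K P (lam K Λ i / 8)
      (c - hh ℓ K Λ (i + 1) + (40 + (ℓ : ℝ) / 2) * K / lam K Λ i) u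

/-- all scales up to `I` around `c` are bad -/
def FarEv (n : ℝ) (K ℓ : ℕ) (Λ c : ℝ) (I : ℕ) (P : Finset Pt) : Prop :=
  ∀ i ≤ I, (¬ Reg n P (c - hh ℓ K Λ (i + 1)) (c + hh ℓ K Λ (i + 1))
    (2 * lam K Λ i) (K / (400 * ℓ))) ∨ FeW K ℓ Λ c i P

/-- FarP: probability of the far event -/
def StFarP : Prop := ∀ T : ℕ, ∃ ℓ₀ : ℕ, ∀ ℓ K : ℕ, ℓ₀ ≤ ℓ → Par ℓ K → ∀ (G : Grid)
  (Λ c r : ℝ) (I : ℕ) (E : Finset Pt), HypM G ℓ K Λ c r (K / (400 * ℓ)) I E →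
  c + hh ℓ K Λ (I + 1) ≤ 0 →
  prob (fun _ => G.p) (G.sfld r) (fun Y => FarEv G.n K ℓ Λ c I (Y ∪ E)) ≤
    1 / (K : ℝ) ^ (T * (I + 1))

/-- FarD: a path visiting a vertex of label at least `L` near `c` makes all scales bad -/
def StFarD : Prop := ∃ ℓ₀ : ℕ, ∀ ℓ K : ℕ, ℓ₀ ≤ ℓ → Par ℓ K → ∀ (ε : ℝ) (G : Grid)
  (L c : ℝ) (s t : Pt) (I : ℕ), HypL ε ℓ K G L s t →
  hh ℓ K L (I + 1) ≤ ε / 2 → -rr ε < c - hh ℓ K L (I + 1) → c + hh ℓ K L (I + 1) ≤ 0 →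
  (s.1 < c - hh ℓ K L (I + 1) ∨ c + hh ℓ K L (I + 1) ≤ s.1) →
  ∀ Y ⊆ G.sfld (rr ε), ∀ Z, OutOk G.n (rr ε) Z → ∀ (v : ℕ → Pt) (m k : ℕ),
  IsPath K (cfg Y Z s t) s v m → k ≤ m → c - K / L ≤ (v k).1 → (v k).1 ≤ c + K / L →
  L ≤ (v k).2 → FarEv G.n K ℓ L c I (Y ∪ {s, t})

/-- centre of the box `j` of level `L` on the left side -/
noncomputable def yc (K : ℕ) (L : ℝ) (j : ℕ) : ℝ := -((j + 1 / 2) * K / L)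

/-- distance parameter of the box `j` -/
noncomputable def DD (ε : ℝ) (K : ℕ) (L : ℝ) (s : Pt) (j : ℕ) : ℝ :=
  min (min |yc K L j| |yc K L j - s.1|) (ε / 2)

/-- FarE: far boxes: event, deterministic and probabilistic parts together -/
def StFarE : Prop := ∀ T : ℕ, ∃ ℓ₀ : ℕ, ∀ ℓ K : ℕ, ℓ₀ ≤ ℓ → Par ℓ K → ∀ (ε : ℝ)
  (G : Grid) (L : ℝ) (s t : Pt) (j : ℕ), HypL ε ℓ K G L s t →
  ℓ * K / L < DD ε K L s j → |yc K L j| ≤ |s.1| + K / L →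
  ∃ A : Finset Pt → Prop,
    bern (fun _ => G.p) (G.sfld (rr ε)) (fun Y =>
      (cnt Y (-((j + 1) * K / L)) (-(j * K / L)) (2 * L) : ℝ) * ind (A Y)) ≤
        (K / L / DD ε K L s j) ^ 4 / (K : ℝ) ^ T ∧
    ∀ Y ⊆ G.sfld (rr ε), ∀ Z, OutOk G.n (rr ε) Z → ∀ (v : ℕ → Pt) (m k : ℕ),
      IsPath K (cfg Y Z s t) s v m → k ≤ m → -((j + 1) * K / L) ≤ (v k).1 →
      (v k).1 < -(j * K / L) → L ≤ (v k).2 → (v k).2 < 2 * L → A Y ∧ v k ∈ Y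

/-- PackE: any box on the left side: at most 12 visits up to a small error -/
def StPackE : Prop := ∀ T : ℕ, ∃ ℓ₀ : ℕ, ∀ ℓ K : ℕ, ℓ₀ ≤ ℓ → Par ℓ K → ∀ (ε : ℝ)
  (G : Grid) (L : ℝ) (s t : Pt) (j : ℕ), HypL ε ℓ K G L s t →
  |yc K L j| ≤ |s.1| + K / L →
  ∃ Ψ : Finset Pt → ℝ, (∀ Y, 0 ≤ Ψ Y) ∧
    bern (fun _ => G.p) (G.sfld (rr ε)) Ψ ≤ 1 / (K : ℝ) ^ T ∧
    ∀ Y ⊆ G.sfld (rr ε), ∀ Z, OutOk G.n (rr ε) Z → ∀ (v : ℕ → Pt) (m : ℕ),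
      IsPath K (cfg Y Z s t) s v m →
      (vis v m (-((j + 1) * K / L)) (-(j * K / L)) L (2 * L) : ℝ) ≤ 12 + Ψ Y

/-- MidE: boxes at moderate distance of the target -/
def StMidE : Prop := ∀ T : ℕ, ∃ ℓ₀ : ℕ, ∀ ℓ K : ℕ, ℓ₀ ≤ ℓ → Par ℓ K → ∀ (ε : ℝ)
  (G : Grid) (L : ℝ) (s t : Pt) (j : ℕ), HypL ε ℓ K G L s t → 60 ≤ j → j ≤ ℓ →
  ∃ Ψ : Finset Pt → ℝ, (∀ Y, 0 ≤ Ψ Y) ∧
    bern (fun _ => G.p) (G.sfld (rr ε)) Ψ ≤ 1 / (K : ℝ) ^ T ∧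
    ∀ Y ⊆ G.sfld (rr ε), ∀ Z, OutOk G.n (rr ε) Z → ∀ (v : ℕ → Pt) (m : ℕ),
      IsPath K (cfg Y Z s t) s v m →
      (vis v m (-((j + 1) * K / L)) (-(j * K / L)) L (2 * L) : ℝ) ≤ Ψ Y

/-- SE: boxes near the source -/
def StSE : Prop := ∃ c : ℝ, 0 < c ∧ c ≤ 1 ∧ ∀ T : ℕ, ∃ ℓ₀ : ℕ, ∀ ℓ K : ℕ, ℓ₀ ≤ ℓ →
  Par ℓ K → ∀ (ε : ℝ) (G : Grid) (L : ℝ) (s t : Pt) (j : ℕ), HypL ε ℓ K G L s t →
  s.1 < 0 → 2 * K / L ≤ yc K L j - s.1 → yc K L j - s.1 ≤ (ℓ + 2) * K / L →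
  ∃ Ψ : Finset Pt → ℝ, (∀ Y, 0 ≤ Ψ Y) ∧
    bern (fun _ => G.p) (G.sfld (rr ε)) Ψ ≤
      100 * Real.exp (-(c * (yc K L j - s.1) / (K / L))) + 1 / (K : ℝ) ^ T ∧
    ∀ Y ⊆ G.sfld (rr ε), ∀ Z, OutOk G.n (rr ε) Z → ∀ (v : ℕ → Pt) (m : ℕ),
      IsPath K (cfg Y Z s t) s v m →
      (vis v m (-((j + 1) * K / L)) (-(j * K / L)) L (2 * L) : ℝ) ≤ Ψ Y

/-- Box: all boxes of the left side -/
def StBox : Prop := ∃ c : ℝ, 0 < c ∧ c ≤ 1 ∧ ∃ ℓ₀ : ℕ, ∀ ℓ K : ℕ, ℓ₀ ≤ ℓ → Par ℓ K →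
  ∀ (ε : ℝ) (G : Grid) (L : ℝ) (s t : Pt) (j : ℕ), HypL ε ℓ K G L s t →
  ∃ Ψ : Finset Pt → ℝ, (∀ Y, 0 ≤ Ψ Y) ∧
    bern (fun _ => G.p) (G.sfld (rr ε)) Ψ ≤
      13 * ind (j ≤ 60) + 300 * Real.exp (-(c * |yc K L j - s.1| / (K / L))) +
        (1 / (j + 1 / 2 : ℝ)) ^ 2 + (K / L / max |yc K L j - s.1| (K / L)) ^ 2 +
        (2 * (K / L) / ε) ^ 2 ∧
    ∀ Y ⊆ G.sfld (rr ε), ∀ Z, OutOk G.n (rr ε) Z → ∀ (v : ℕ → Pt) (m : ℕ),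
      IsPath K (cfg Y Z s t) s v m →
      (vis v m (-((j + 1) * K / L)) (-(j * K / L)) L (2 * L) : ℝ) ≤ Ψ Y

/-- LevL: expected number of visits of one label level on the left side -/
def StLevL : Prop := ∃ C : ℝ, 0 < C ∧ ∃ ℓ₀ : ℕ, ∀ ℓ K : ℕ, ℓ₀ ≤ ℓ → Par ℓ K →
  ∀ (ε : ℝ) (G : Grid) (L : ℝ) (s t : Pt), HypL ε ℓ K G L s t →
  ∃ Ψ : Finset Pt → ℝ, (∀ Y, 0 ≤ Ψ Y) ∧
    bern (fun _ => G.p) (G.sfld (rr ε)) Ψ ≤ C ∧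
    ∀ Y ⊆ G.sfld (rr ε), ∀ Z, OutOk G.n (rr ε) Z → ∀ (v : ℕ → Pt) (m : ℕ),
      IsPath K (cfg Y Z s t) s v m → (vis v m (-1) 0 L (2 * L) : ℝ) ≤ Ψ Y

/-- mirror image -/
noncomputable def mir (v : Pt) : Pt := (-v.1, v.2)

/-- MirB: invariance of the field under reflection -/
def StMirB : Prop := ∀ (G : Grid) (r : ℝ) (f : Finset Pt → ℝ),
  bern (fun _ => G.p) (G.sfld r) (fun Y => f (Y.image mir)) =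
    bern (fun _ => G.p) (G.sfld r) f

/-- MirP: reflection of paths, configurations -/
def StMirP : Prop := (∀ (K : ℕ) (P : Finset Pt) (s : Pt) (v : ℕ → Pt) (m : ℕ),
    IsPath K P s v m → IsPath K (P.image mir) (mir s) (fun i => mir (v i)) m) ∧
  (∀ (K : ℕ) (P : Finset Pt) (v u : Pt), adj cd K P v u →
    adj cd K (P.image mir) (mir v) (mir u)) ∧
  (∀ (Y Z : Finset Pt) (s t : Pt),
    (cfg Y Z s t).image mir = cfg (Y.image mir) (Z.image mir) (mir s) (mir t)) ∧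
  (∀ (n r : ℝ) (Z : Finset Pt), OutOk n r Z → OutOk n r (Z.image mir)) ∧
  (∀ (G : Grid) (r : ℝ) (Y : Finset Pt), Y ⊆ G.sfld r → Y.image mir ⊆ G.sfld r) ∧
  (∀ (ε n : ℝ) (s t : Pt), HypS ε n s t → HypS ε n (mir s) (mir t)) ∧
  (∀ (P : Finset Pt), (P.image mir).image mir = P) ∧ (∀ v : Pt, mir (mir v) = v)

/-- Lev: expected number of visits of one label level -/
def StLev : Prop := ∃ C : ℝ, 0 < C ∧ ∃ ℓ₀ : ℕ, ∀ ℓ K : ℕ, ℓ₀ ≤ ℓ → Par ℓ K →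
  ∀ (ε : ℝ) (G : Grid) (L : ℝ) (s t : Pt), HypL ε ℓ K G L s t →
  ∃ Ψ : Finset Pt → ℝ, (∀ Y, 0 ≤ Ψ Y) ∧
    bern (fun _ => G.p) (G.sfld (rr ε)) Ψ ≤ C ∧
    ∀ Y ⊆ G.sfld (rr ε), ∀ Z, OutOk G.n (rr ε) Z → ∀ (v : ℕ → Pt) (m : ℕ),
      IsPath K (cfg Y Z s t) s v m →
      (((range (m + 1)).filter (fun i => L ≤ (v i).2 ∧ (v i).2 < 2 * L)).card : ℝ) ≤ Ψ Y

/-- Tot: expected length of the greedy path -/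
def StTot : Prop := ∃ C : ℝ, 0 < C ∧ ∀ ε : ℝ, 0 < ε → ε ≤ 1 / 8 → ∃ ℓ₀ : ℕ, ∀ ℓ K : ℕ,
  ℓ₀ ≤ ℓ → Par ℓ K → ∃ n₀ : ℝ, ∀ (G : Grid) (s t : Pt), n₀ ≤ G.n → HypS ε G.n s t →
  G.κ * G.n ^ 4 ≤ 1 →
  ∃ Ψ : Finset Pt → ℝ, (∀ Y, 0 ≤ Ψ Y) ∧
    bern (fun _ => G.p) (G.sfld (rr ε)) Ψ ≤ C * Real.log G.n ∧
    ∀ Y ⊆ G.sfld (rr ε), ∀ Z, OutOk G.n (rr ε) Z → ∀ (v : ℕ → Pt) (m : ℕ),
      IsPath K (cfg Y Z s t) s v m → (m : ℝ) + 1 ≤ Ψ Y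

end Pool.Agent.Helper67.GR
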