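import Pool.Agent.Helper67.GR.St4

/-! # GR project: statements of wave 5 (the walk does not get stuck) -/

namespace Pool.Agent.Helper67.GR

open Finset

/-- the neighbourhood of `v` is irregular at the scales `n, n/Q, …, n/Q^b` -/
def Jev (n : ℝ) (K b : ℕ) (P : Finset Pt) (v : Pt) : Prop :=
  ∀ i ≤ b, ¬ Reg n P (v.1 - 2 * K / lam K n i) (v.1 + 2 * K / lam K n i)
    (lam K n i) (K / 10)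

/-- no neighbour is closer to the target -/
def StuckAt (K : ℕ) (P : Finset Pt) (v : Pt) : Prop :=
  ∀ u ∈ P, adj cd K P v u → |v.1| ≤ |u.1|

/-- J1: irregularity at many scales is unlikely -/
def StJ1 : Prop := ∀ T : ℕ, ∃ ℓ₀ : ℕ, ∀ ℓ K : ℕ, ℓ₀ ≤ ℓ → Par ℓ K → ∀ (G : Grid) (b : ℕ)
  (v : Pt) (E : Finset Pt) (r : ℝ), G.κ * G.n ^ 4 ≤ 1 → E.card ≤ 3 → r ≤ 1 / 2 →
  |v.1| + 2 * ℓ * K / lam K G.n b < r →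
  prob (fun _ => G.p) (G.sfld r) (fun Y => Jev G.n K b (Y ∪ E) v) ≤
    1 / (K : ℝ) ^ (T * (b + 1))

/-- Jd: a stuck vertex has an irregular neighbourhood at all available scales -/
def StJd : Prop := ∀ (ε : ℝ) (K b : ℕ) (G : Grid) (s t v : Pt) (Y Z : Finset Pt),
  40 ≤ K → HypS ε G.n s t → Y ⊆ G.sfld (rr ε) → OutOk G.n (rr ε) Z →
  v ∈ cfg Y Z s t → |v.1| ≤ 1 / 2 - ε → v.1 ≠ 0 → StuckAt K (cfg Y Z s t) v →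
  v.2 ≤ lam K G.n b → (b = 0 ∨ (K : ℝ) / lam K G.n b ≤ |v.1|) →
  3 * (K : ℝ) / lam K G.n b ≤ ε / 2 → Jev G.n K b (Y ∪ {s, t}) v

/-- Jm: expected number of vertices with irregular neighbourhoods -/
def StJm : Prop := ∀ T : ℕ, ∃ ℓ₀ : ℕ, ∀ ℓ K : ℕ, ℓ₀ ≤ ℓ → Par ℓ K → ∀ (ε : ℝ) (G : Grid)
  (s t : Pt) (b : ℕ) (W : Finset Pt), HypS ε G.n s t → G.κ * G.n ^ 4 ≤ 1 →
  W ⊆ G.sfld (rr ε) → (∀ v ∈ W, |v.1| + 2 * ℓ * K / lam K G.n b < rr ε) →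
  bern (fun _ => G.p) (G.sfld (rr ε))
    (fun Y => ∑ v ∈ Y ∩ W, ind (Jev G.n K b (Y ∪ {s, t}) v)) ≤
    G.p * W.card / (K : ℝ) ^ (T * (b + 1))

/-- SkL: stuck vertices of one label level on the left side -/
def StSkL : Prop := ∀ T : ℕ, ∃ ℓ₀ : ℕ, ∀ ℓ K : ℕ, ℓ₀ ≤ ℓ → Par ℓ K → ∀ (ε : ℝ) (G : Grid)
  (L : ℝ) (s t : Pt) (b : ℕ), HypL ε ℓ K G L s t → (b = 0 ∨ 2 * L ≤ lam K G.n b) →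
  ∃ Ψ : Finset Pt → ℝ, (∀ Y, 0 ≤ Ψ Y) ∧
    bern (fun _ => G.p) (G.sfld (rr ε)) Ψ ≤ (1 / (K : ℝ) ^ b + G.κ) / (K : ℝ) ^ T ∧
    ∀ Y ⊆ G.sfld (rr ε), ∀ Z, OutOk G.n (rr ε) Z → ∀ (v : ℕ → Pt) (m : ℕ),
      IsPath K (cfg Y Z s t) s v m → StuckAt K (cfg Y Z s t) (v m) → (v m).1 < 0 →
      L ≤ (v m).2 → (v m).2 < 2 * L → v m ∈ Y → 1 ≤ Ψ Y

/-- Sk: stuck vertices of one label level -/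
def StSk : Prop := ∀ T : ℕ, ∃ ℓ₀ : ℕ, ∀ ℓ K : ℕ, ℓ₀ ≤ ℓ → Par ℓ K → ∀ (ε : ℝ) (G : Grid)
  (L : ℝ) (s t : Pt) (b : ℕ), HypL ε ℓ K G L s t → (b = 0 ∨ 2 * L ≤ lam K G.n b) →
  ∃ Ψ : Finset Pt → ℝ, (∀ Y, 0 ≤ Ψ Y) ∧
    bern (fun _ => G.p) (G.sfld (rr ε)) Ψ ≤ (1 / (K : ℝ) ^ b + G.κ) / (K : ℝ) ^ T ∧
    ∀ Y ⊆ G.sfld (rr ε), ∀ Z, OutOk G.n (rr ε) Z → ∀ (v : ℕ → Pt) (m : ℕ),
      IsPath K (cfg Y Z s t) s v m → StuckAt K (cfg Y Z s t) (v m) → (v m).1 ≠ 0 →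
      L ≤ (v m).2 → (v m).2 < 2 * L → v m ∈ Y → 1 ≤ Ψ Y

/-- SkLow: stuck vertices of low label -/
def StSkLow : Prop := ∀ ε : ℝ, 0 < ε → ε ≤ 1 / 8 → ∃ ℓ₀ : ℕ, ∀ ℓ K : ℕ, ℓ₀ ≤ ℓ →
  Par ℓ K → ∃ n₀ : ℝ, ∀ (G : Grid) (s t : Pt), n₀ ≤ G.n → HypS ε G.n s t →
  G.κ * G.n ^ 4 ≤ 1 →
  ∃ Ψ : Finset Pt → ℝ, (∀ Y, 0 ≤ Ψ Y) ∧
    bern (fun _ => G.p) (G.sfld (rr ε)) Ψ ≤ 1 / (K : ℝ) ∧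
    ∀ Y ⊆ G.sfld (rr ε), ∀ Z, OutOk G.n (rr ε) Z → ∀ v ∈ Y,
      StuckAt K (cfg Y Z s t) v → |v.1| ≤ 1 / 2 - ε → v.1 ≠ 0 →
      v.2 < 100 * ℓ * K / ε ^ 4 → 1 ≤ Ψ Y

/-- Stuck: the greedy walk is unlikely to get stuck -/
def StStuck : Prop := ∀ ε : ℝ, 0 < ε → ε ≤ 1 / 8 → ∃ ℓ₀ : ℕ, ∀ ℓ K : ℕ, ℓ₀ ≤ ℓ →
  Par ℓ K → ∃ n₀ : ℝ, ∀ (G : Grid) (s t : Pt), n₀ ≤ G.n → HypS ε G.n s t →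
  G.κ * G.n ^ 4 ≤ 1 →
  prob (fun _ => G.p) (G.sfld (rr ε)) (fun Y => ∃ Z, OutOk G.n (rr ε) Z ∧
    ∃ (v : ℕ → Pt) (m : ℕ), IsPath K (cfg Y Z s t) s v m ∧ v m ≠ t ∧ (v m).1 ≠ 0 ∧
      StuckAt K (cfg Y Z s t) (v m)) ≤ 4 / (K : ℝ)

/-- the bad event: a long greedy path, or a greedy path ending at a stuck vertex -/
def BadEv (ε B : ℝ) (K : ℕ) (n : ℝ) (s t : Pt) (Y : Finset Pt) : Prop :=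
  ∃ Z, OutOk n (rr ε) Z ∧ ∃ (v : ℕ → Pt) (m : ℕ), IsPath K (cfg Y Z s t) s v m ∧
    (B < m ∨ (v m ≠ t ∧ (v m).1 ≠ 0 ∧ StuckAt K (cfg Y Z s t) (v m)))

/-- Main: the main theorem for the Bernoulli grid -/
def StMain : Prop := ∀ ε δ : ℝ, 0 < ε → ε ≤ 1 / 8 → 0 < δ → ∃ (K₀ : ℕ) (C : ℝ), 0 < C ∧
  ∀ K ≥ K₀, ∃ n₀ : ℝ, ∀ (G : Grid) (s t : Pt), n₀ ≤ G.n → HypS ε G.n s t →
  G.κ * G.n ^ 4 ≤ 1 →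
  prob (fun _ => G.p) (G.sfld (rr ε)) (BadEv ε (C * Real.log G.n) K G.n s t) ≤ δ

end Pool.Agent.Helper67.GR
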